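import Pool.Agent.MP_596265_gt.Defs

attribute [-instance] SMulZeroClass.toSMul GradedMonoid.GradeZero.smul AddQuantale.instAddLeftMono
  NumberField.to_charZero RKHS.instFunLike MonTypeEquivalenceMon.monMonoid Unique.instSubsingleton
  instCoeTCOfCoe Algebra.toSMul SemigroupWithZero.toSemigroup AddQuantale.instAddRightMono
  littleWedderburn

-- part Base
section

/-! Working definitions and elementary facts on SL(2,R) (copied from the MP_28624d_gt library). -/

section
namespace Pool.Agent.MP_596265_gt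

open scoped UpperHalfPlane
open Real

noncomputable section

/-- Rotation by the angle `π θ`. -/
def rot (θ : ℝ) : G :=
  ⟨!![cos (π * θ), -sin (π * θ); sin (π * θ), cos (π * θ)], by
    rw [Matrix.det_fin_two_of]; linarith only [sin_sq_add_cos_sq (π * θ)]⟩

/-- Translation of length `l` along the imaginary axis. -/
def dia (l : ℝ) : G :=
  ⟨!![exp (l / 2), 0; 0, exp (-(l / 2))], by
    rw [Matrix.det_fin_two_of, ← exp_add]; simp⟩

/-- Displacement of the base point. -/
def len (g : G) : ℝ := dist UpperHalfPlane.I (g • UpperHalfPlane.I)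

def tr (g : G) : ℝ := g 0 0 + g 1 1

def Hyp (g : G) : Prop := 2 < |tr g|

/-- Equality up to sign. -/
def PM (g h : G) : Prop := g = h ∨ g = -h

/-- `f` is a lift to the real line of the action of `g` on the projective line `ℝ / ℤ`. -/
def Lift (g : G) (f : ℝ ≃o ℝ) : Prop :=
  (∀ x, f (x + 1) = f x + 1) ∧
    ∀ x, ∃ c : ℝ, c ≠ 0 ∧ (g : Matrix (Fin 2) (Fin 2) ℝ).mulVec (vec x) = c • vec (f x)

/-- Translation of the line. -/
def T (θ : ℝ) : ℝ ≃o ℝ := OrderIso.addRight θ

@[simp] theorem T_apply (θ x : ℝ) : T θ x = x + θ := rfl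

def rev {E : Type} (d : E × Bool) : E × Bool := (d.1, !d.2)

@[simp] theorem rev_rev {E : Type} (d : E × Bool) : rev (rev d) = d := by simp [rev]

@[simp] theorem rev_fst {E : Type} (d : E × Bool) : (rev d).1 = d.1 := rfl

theorem rev_ne {E : Type} (d : E × Bool) : rev d ≠ d := by
  obtain ⟨e, b⟩ := d; cases b <;> simp [rev]

/-- Reversal of darts as a permutation. -/
def revP (E : Type) : Equiv.Perm (E × Bool) := ⟨rev, rev, rev_rev, rev_rev⟩

@[simp] theorem revP_apply {E : Type} (d : E × Bool) : revP E d = rev d := rfl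

/-- Product of the labels along a list of darts. -/
def lab {E H : Type} [Group H] (g : E → H) (p : List (E × Bool)) : H :=
  FreeGroup.lift g (FreeGroup.mk p)

/-- Label of one dart. -/
def dlab {E H : Type} [Group H] (g : E → H) (d : E × Bool) : H := cond d.2 (g d.1) (g d.1)⁻¹

@[simp] theorem lab_nil {E H : Type} [Group H] (g : E → H) : lab g [] = 1 := by
  simp [lab]

@[simp] theorem lab_cons {E H : Type} [Group H] (g : E → H) (d : E × Bool) (p : List (E × Bool)) :
    lab g (d :: p) = dlab g d * lab g p := by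
  simp [lab, dlab]

@[simp] theorem lab_append {E H : Type} [Group H] (g : E → H) (p q : List (E × Bool)) :
    lab g (p ++ q) = lab g p * lab g q := by
  simp [lab]

@[simp] theorem dlab_rev {E H : Type} [Group H] (g : E → H) (d : E × Bool) :
    dlab g (rev d) = (dlab g d)⁻¹ := by
  obtain ⟨e, b⟩ := d; cases b <;> simp [dlab, rev]

theorem lab_invRev {E H : Type} [Group H] (g : E → H) (p : List (E × Bool)) :
    lab g (FreeGroup.invRev p) = (lab g p)⁻¹ := by
  rw [lab, ← FreeGroup.inv_mk, map_inv, lab]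

theorem continuous_lab {E : Type} (p : List (E × Bool)) : Continuous fun M : E → G => lab M p := by
  induction p with
  | nil => simpa using continuous_const
  | cons d p ih =>
    simp only [lab_cons]
    refine Continuous.mul ?_ ih
    obtain ⟨e, b⟩ := d
    cases b
    · exact (continuous_apply e).inv
    · exact continuous_apply e

end

end Pool.Agent.MP_596265_gt
end

section
namespace Pool.Agent.MP_596265_gt

open scoped UpperHalfPlane
open Real UpperHalfPlane

theorem basic_ext {g h : G} (h00 : g 0 0 = h 0 0) (h01 : g 0 1 = h 0 1) (h10 : g 1 0 = h 1 0)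
    (h11 : g 1 1 = h 1 1) : g = h := by
  ext i j
  fin_cases i <;> fin_cases j <;> assumption

theorem basic_mul (g h : G) (i j : Fin 2) : (g * h) i j = g i 0 * h 0 j + g i 1 * h 1 j := by
  simp only [Matrix.SpecialLinearGroup.coe_mul, Matrix.mul_apply, Fin.sum_univ_two, Fin.isValue]

theorem basic_det (g : G) : g 0 0 * g 1 1 - g 0 1 * g 1 0 = 1 := by
  rw [← Matrix.det_fin_two]; exact g.det_coe

theorem basic_inv00 (g : G) : g⁻¹ 0 0 = g 1 1 := by
  rw [Matrix.SpecialLinearGroup.SL2_inv_expl]; rfl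
theorem basic_inv01 (g : G) : g⁻¹ 0 1 = -g 0 1 := by
  rw [Matrix.SpecialLinearGroup.SL2_inv_expl]; rfl
theorem basic_inv10 (g : G) : g⁻¹ 1 0 = -g 1 0 := by
  rw [Matrix.SpecialLinearGroup.SL2_inv_expl]; rfl
theorem basic_inv11 (g : G) : g⁻¹ 1 1 = g 0 0 := by
  rw [Matrix.SpecialLinearGroup.SL2_inv_expl]; rfl
theorem basic_neg (g : G) (i j : Fin 2) : (-g) i j = -g i j := rfl
theorem basic_one00 : (1 : G) 0 0 = 1 := rfl
theorem basic_one01 : (1 : G) 0 1 = 0 := rfl
theorem basic_one10 : (1 : G) 1 0 = 0 := rfl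
theorem basic_one11 : (1 : G) 1 1 = 1 := rfl
theorem basic_rot00 (θ : ℝ) : rot θ 0 0 = cos (π * θ) := rfl
theorem basic_rot01 (θ : ℝ) : rot θ 0 1 = -sin (π * θ) := rfl
theorem basic_rot10 (θ : ℝ) : rot θ 1 0 = sin (π * θ) := rfl
theorem basic_rot11 (θ : ℝ) : rot θ 1 1 = cos (π * θ) := rfl
theorem basic_dia00 (l : ℝ) : dia l 0 0 = exp (l / 2) := rfl
theorem basic_dia01 (l : ℝ) : dia l 0 1 = 0 := rfl
theorem basic_dia10 (l : ℝ) : dia l 1 0 = 0 := rfl
theorem basic_dia11 (l : ℝ) : dia l 1 1 = exp (-(l / 2)) := rfl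

theorem basic_cont (i j : Fin 2) : Continuous fun g : G => g i j :=
  (continuous_apply_apply i j).comp continuous_subtype_val

theorem basic_denom (g : G) (z : ℍ) : ((g 1 0 : ℝ) : ℂ) * z + (g 1 1 : ℝ) ≠ 0 := by
  simpa only [Fin.isValue, ne_eq, denom, Matrix.SpecialLinearGroup.coe_GL_coe_matrix] using denom_ne_zero g z

theorem basic_coe_smul (g : G) (z : ℍ) : ((g • z : ℍ) : ℂ) =
    (((g 0 0 : ℝ) : ℂ) * z + (g 0 1 : ℝ)) / (((g 1 0 : ℝ) : ℂ) * z + (g 1 1 : ℝ)) := by
  simpa only [Fin.isValue, Algebra.algebraMap_self, ringHom_apply] using coe_specialLinearGroup_apply g z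

theorem basic_fixed_iff (g : G) (z : ℍ) : g • z = z ↔
    ((g 0 0 : ℝ) : ℂ) * z + (g 0 1 : ℝ) = z * (((g 1 0 : ℝ) : ℂ) * z + (g 1 1 : ℝ)) := by
  rw [UpperHalfPlane.ext_iff, basic_coe_smul, div_eq_iff (basic_denom g z)]

theorem rot_add (a b : ℝ) : rot (a + b) = rot a * rot b := by
  apply basic_ext <;>
    simp only [basic_mul, basic_rot00, basic_rot01, basic_rot10, basic_rot11, basic_dia00, basic_dia01,
      basic_dia10, basic_dia11, basic_neg, basic_one00, basic_one01, basic_one10, basic_one11, mul_add, cos_add, sin_add] <;> ring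
theorem rot_zero : rot 0 = 1 := by
  apply basic_ext <;>
    simp only [basic_mul, basic_rot00, basic_rot01, basic_rot10, basic_rot11, basic_dia00, basic_dia01,
      basic_dia10, basic_dia11, basic_neg, basic_one00, basic_one01, basic_one10, basic_one11, mul_zero, cos_zero, sin_zero, neg_zero]
theorem rot_neg (a : ℝ) : rot (-a) = (rot a)⁻¹ := by
  rw [eq_inv_iff_mul_eq_one, ← rot_add, neg_add_cancel, rot_zero]
theorem rot_one : rot 1 = -1 := by
  apply basic_ext <;>
    simp only [basic_mul, basic_rot00, basic_rot01, basic_rot10, basic_rot11, basic_dia00, basic_dia01,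
      basic_dia10, basic_dia11, basic_neg, basic_one00, basic_one01, basic_one10, basic_one11, mul_one, cos_pi, sin_pi, neg_zero]
theorem dia_add (a b : ℝ) : dia (a + b) = dia a * dia b := by
  apply basic_ext <;>
    simp only [basic_mul, basic_rot00, basic_rot01, basic_rot10, basic_rot11, basic_dia00, basic_dia01,
      basic_dia10, basic_dia11, basic_neg, basic_one00, basic_one01, basic_one10, basic_one11, add_div, neg_add, exp_add] <;> ring
theorem dia_zero : dia 0 = 1 := by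
  apply basic_ext <;>
    simp only [basic_mul, basic_rot00, basic_rot01, basic_rot10, basic_rot11, basic_dia00, basic_dia01,
      basic_dia10, basic_dia11, basic_neg, basic_one00, basic_one01, basic_one10, basic_one11, zero_div, neg_zero, exp_zero]
theorem dia_neg (a : ℝ) : dia (-a) = (dia a)⁻¹ := by
  rw [eq_inv_iff_mul_eq_one, ← dia_add, neg_add_cancel, dia_zero]
theorem rot_half_dia (l : ℝ) : rot (1 / 2) * dia l * rot (-(1 / 2)) = dia (-l) := by
  have e : π * (1 / 2) = π / 2 := by ring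
  apply basic_ext <;>
    simp only [basic_mul, basic_rot00, basic_rot01, basic_rot10, basic_rot11, basic_dia00, basic_dia01,
      basic_dia10, basic_dia11, basic_neg, basic_one00, basic_one01, basic_one10, basic_one11, mul_neg, e, cos_neg, sin_neg, cos_pi_div_two, sin_pi_div_two, neg_div, neg_neg] <;> ring
theorem continuous_rot : Continuous rot := by
  apply Continuous.subtype_mk
  refine continuous_matrix fun i j => ?_
  fin_cases i <;> fin_cases j <;> simp <;> fun_prop

theorem neg_smul_H (g : G) (z : ℍ) : (-g) • z = g • z := by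
  rw [UpperHalfPlane.ext_iff, basic_coe_smul, basic_coe_smul]
  simp only [basic_neg, Complex.ofReal_neg, neg_mul, ← neg_add, neg_div_neg_eq]
theorem rot_smul_I (θ : ℝ) : rot θ • I = I := by
  rw [basic_fixed_iff, basic_rot00, basic_rot01, basic_rot10, basic_rot11, coe_I]
  push_cast
  linear_combination (-Complex.sin (π * θ)) * Complex.I_mul_I

theorem PM.refl (g : G) : PM g g := Or.inl rfl
theorem PM.symm {g h : G} (H : PM g h) : PM h g := by
  rcases H with rfl | rfl
  · exact Or.inl rfl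
  · exact Or.inr (neg_neg _).symm
theorem PM.trans {g h k : G} (H : PM g h) (H' : PM h k) : PM g k := by
  rcases H with rfl | rfl <;> rcases H' with rfl | rfl <;> simp [PM]
theorem PM.mul {g h g' h' : G} (H : PM g h) (H' : PM g' h') : PM (g * g') (h * h') := by
  rcases H with rfl | rfl <;> rcases H' with rfl | rfl <;> simp [PM]
theorem PM.inv {g h : G} (H : PM g h) : PM g⁻¹ h⁻¹ := by
  rcases H with rfl | rfl
  · exact Or.inl rfl
  · refine Or.inr ?_
    rw [inv_eq_iff_mul_eq_one, neg_mul_neg, mul_inv_cancel]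
theorem PM.smul_eq {g h : G} (H : PM g h) (z : ℍ) : g • z = h • z := by
  rcases H with rfl | rfl
  · rfl
  · exact neg_smul_H _ _
theorem PM.len_eq {g h : G} (H : PM g h) : len g = len h := by
  unfold len; rw [H.smul_eq]
theorem PM.abs_tr {g h : G} (H : PM g h) : |tr g| = |tr h| := by
  rcases H with rfl | rfl
  · rfl
  · unfold tr; rw [basic_neg, basic_neg, ← neg_add, abs_neg]
theorem rot_add_int (a : ℝ) (k : ℤ) : PM (rot (a + k)) (rot a) := by
  have h1 : ∀ b : ℝ, PM (rot (b + 1)) (rot b) := fun b => by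
    rw [rot_add, rot_one]; right; simp
  induction k using Int.induction_on with
  | zero => simpa using PM.refl _
  | succ n ih =>
    refine PM.trans ?_ ih
    push_cast; rw [← add_assoc]; exact h1 _
  | pred n ih =>
    refine PM.trans ?_ ih
    have := (h1 (a + ((-(n : ℤ) - 1 : ℤ) : ℝ))).symm
    have e : a + ((-(n : ℤ) - 1 : ℤ) : ℝ) + 1 = a + ((-(n : ℤ) : ℤ) : ℝ) := by push_cast; ring
    rwa [e] at this

theorem tr_one : tr 1 = 2 := by
  unfold tr; rw [basic_one00, basic_one11]; norm_num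
theorem tr_neg (g : G) : tr (-g) = -tr g := by
  unfold tr; rw [basic_neg, basic_neg]; ring
theorem tr_inv (g : G) : tr g⁻¹ = tr g := by
  unfold tr; rw [basic_inv00, basic_inv11]; ring
theorem tr_mul_comm (g h : G) : tr (g * h) = tr (h * g) := by
  unfold tr; simp only [basic_mul]; ring
theorem tr_conj (g h : G) : tr (h * g * h⁻¹) = tr g := by
  rw [tr_mul_comm, ← mul_assoc, inv_mul_cancel, one_mul]
theorem tr_rot (θ : ℝ) : tr (rot θ) = 2 * cos (π * θ) := by
  unfold tr; rw [basic_rot00, basic_rot11]; ring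
theorem continuous_tr : Continuous tr := (basic_cont 0 0).add (basic_cont 1 1)

/- `UpperHalfPlane.cosh_dist`, `UpperHalfPlane.coe_specialLinearGroup_apply` or
`specialLinearGroup_apply`, `im_smul_eq_div_normSq`; use the determinant. -/
theorem cosh_len (g : G) :
    cosh (len g) = (g 0 0 ^ 2 + g 0 1 ^ 2 + g 1 0 ^ 2 + g 1 1 ^ 2) / 2 := by
  have hd := basic_det g
  have h0 : g 1 0 ^ 2 + g 1 1 ^ 2 ≠ 0 := by
    intro h
    have h1 : g 1 0 = 0 := by nlinarith only [h]
    have h2 : g 1 1 = 0 := by nlinarith only [h]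
    rw [h1, h2] at hd; simp at hd
  have e := basic_coe_smul g I
  have hn : Complex.normSq (((g 1 0 : ℝ) : ℂ) * Complex.I + (g 1 1 : ℝ)) =
      g 1 0 ^ 2 + g 1 1 ^ 2 := by
    simp [Complex.normSq_apply]; ring
  have hre : (g • I : ℍ).re = (g 0 0 * g 1 0 + g 0 1 * g 1 1) / (g 1 0 ^ 2 + g 1 1 ^ 2) := by
    rw [← coe_re, e, Complex.div_re, coe_I, hn, ← add_div]
    congr 1
    simp only [Fin.isValue, Complex.add_re, Complex.mul_re, Complex.ofReal_re, Complex.I_re, mul_zero, Complex.ofReal_im, Complex.I_im, mul_one, sub_self, zero_add, Complex.add_im, Complex.mul_im, add_zero]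
    ring
  have him : (g • I : ℍ).im = 1 / (g 1 0 ^ 2 + g 1 1 ^ 2) := by
    rw [← coe_im, e, Complex.div_im, coe_I, hn, ← sub_div]
    congr 1
    simpa only [Fin.isValue, Complex.add_im, Complex.mul_im, Complex.ofReal_re, Complex.I_im, mul_one, Complex.ofReal_im, Complex.I_re, mul_zero, add_zero, Complex.add_re, Complex.mul_re, sub_self, zero_add] using hd
  unfold len
  rw [cosh_dist', hre, him, I_re, I_im]
  field_simp
  have h3 : g 0 0 * g 1 1 = 1 + g 0 1 * g 1 0 := by linarith only [hd]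
  linear_combination (-(g 0 0 * g 1 1 - g 0 1 * g 1 0) - 1) * hd
theorem len_nonneg (g : G) : 0 ≤ len g := dist_nonneg
theorem len_one : len 1 = 0 := by
  unfold len; rw [one_smul, dist_self]
theorem dist_smul_I (g h : G) : dist (g • I) (h • I) = len (g⁻¹ * h) := by
  unfold len; rw [← dist_smul g⁻¹, inv_smul_smul, mul_smul]
theorem len_mul_le (g h : G) : len (g * h) ≤ len g + len h := by
  have h1 := dist_smul_I g (g * h)
  rw [inv_mul_cancel_left] at h1
  rw [← h1]
  exact dist_triangle _ _ _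
theorem len_inv (g : G) : len g⁻¹ = len g := by
  have h1 := dist_smul_I g 1
  rw [mul_one, one_smul] at h1
  rw [← h1, dist_comm]; rfl
theorem len_rot_mul (θ : ℝ) (g : G) : len (rot θ * g) = len g := by
  have h1 := dist_smul_I (rot θ)⁻¹ g
  rw [inv_inv, ← rot_neg, rot_smul_I] at h1
  rw [← h1]; rfl
theorem len_mul_rot (θ : ℝ) (g : G) : len (g * rot θ) = len g := by
  unfold len; rw [mul_smul, rot_smul_I]
theorem len_dia (l : ℝ) : len (dia l) = |l| := by
  have h1 := cosh_len (dia l)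
  rw [basic_dia00, basic_dia01, basic_dia10, basic_dia11, ← exp_nat_mul, ← exp_nat_mul] at h1
  have h2 : cosh (len (dia l)) = cosh l := by
    rw [h1, cosh_eq]
    have e1 : ((2 : ℕ) : ℝ) * (l / 2) = l := by push_cast; ring
    have e2 : ((2 : ℕ) : ℝ) * -(l / 2) = -l := by push_cast; ring
    rw [e1, e2]; ring
  have h3 := cosh_le_cosh.1 h2.le
  have h4 := cosh_le_cosh.1 h2.ge
  rw [abs_of_nonneg (len_nonneg _)] at h3 h4
  exact le_antisymm h3 h4
theorem len_eq_zero_iff (g : G) : len g = 0 ↔ g • I = I := by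
  unfold len; rw [dist_eq_zero, eq_comm]
theorem len_dlab {E : Type} (M : E → G) (d : E × Bool) : len (dlab M d) = len (M d.1) := by
  obtain ⟨e, b⟩ := d
  cases b
  · exact len_inv _
  · rfl
theorem continuous_len : Continuous len := continuous_const.dist isProperMap_smul_I.continuous
/- `UpperHalfPlane.isProperMap_smul_I` and `isCompact_closedBall`. -/
theorem isCompact_len_le (C : ℝ) : IsCompact {g : G | len g ≤ C} := by
  have := isProperMap_smul_I.isCompact_preimage (isCompact_closedBall (I : ℍ) C)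
  refine (congrArg IsCompact ?_).mp this
  ext g
  simp only [Set.mem_preimage, Metric.mem_closedBall, Set.mem_setOf_eq, len, dist_comm]

theorem basic_polar (x y : ℝ) :
    ∃ r a : ℝ, 0 ≤ r ∧ x = r * cos (π * a) ∧ y = r * sin (π * a) := by
  refine ⟨‖(⟨x, y⟩ : ℂ)‖, Complex.arg ⟨x, y⟩ / π, norm_nonneg _, ?_, ?_⟩
  · rw [mul_div_cancel₀ _ pi_ne_zero, Complex.norm_mul_cos_arg]
  · rw [mul_div_cancel₀ _ pi_ne_zero, Complex.norm_mul_sin_arg]

/- Polar form: with e = (a+d)/2, h = (c-b)/2, f = (a-d)/2, k = (c+b)/2 write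
e + i h = Q exp(i a2), f + i k = R exp(i a1); Q^2 - R^2 = 1, so Q + R = exp(l/2), Q - R = exp(-l/2)
with l >= 0, and g = Rot((a2+a1)/2) diag(Q+R, Q-R) Rot((a2-a1)/2); then len g = l by
`len_rot_mul`, `len_mul_rot`, `len_dia`. -/
theorem kak (g : G) : ∃ θ ψ : ℝ, g = rot θ * dia (len g) * rot ψ := by
  have hd := basic_det g
  obtain ⟨Q, a2, hQ, h1, h2⟩ := basic_polar ((g 0 0 + g 1 1) / 2) ((g 1 0 - g 0 1) / 2)
  obtain ⟨R, a1, hR, h3, h4⟩ := basic_polar ((g 0 0 - g 1 1) / 2) ((g 1 0 + g 0 1) / 2)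
  have q2 : Q ^ 2 = ((g 0 0 + g 1 1) / 2) ^ 2 + ((g 1 0 - g 0 1) / 2) ^ 2 := by
    rw [h1, h2]; linear_combination (-Q ^ 2) * sin_sq_add_cos_sq (π * a2)
  have r2 : R ^ 2 = ((g 0 0 - g 1 1) / 2) ^ 2 + ((g 1 0 + g 0 1) / 2) ^ 2 := by
    rw [h3, h4]; linear_combination (-R ^ 2) * sin_sq_add_cos_sq (π * a1)
  have hqr : (Q + R) * (Q - R) = 1 := by linear_combination q2 - r2 + hd
  have hQ1 : 1 ≤ Q := by nlinarith
  have hpos : 0 < Q + R := by linarith only [hR, hQ1]
  set l := 2 * log (Q + R) with hl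
  have e1 : exp (l / 2) = Q + R := by
    rw [hl, mul_div_cancel_left₀ _ two_ne_zero, exp_log hpos]
  have e2 : exp (-(l / 2)) = Q - R := by
    rw [exp_neg, e1]; exact (eq_inv_of_mul_eq_one_right hqr).symm
  have hl0 : 0 ≤ l := by
    have := log_nonneg (show 1 ≤ Q + R by linarith only [hR, hQ1])
    linarith only [this]
  have key : g = rot ((a2 + a1) / 2) * dia l * rot ((a2 - a1) / 2) := by
    have c1 : π * a2 = π * ((a2 + a1) / 2) + π * ((a2 - a1) / 2) := by ring
    have c2 : π * a1 = π * ((a2 + a1) / 2) - π * ((a2 - a1) / 2) := by ring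
    rw [c1, cos_add] at h1
    rw [c1, sin_add] at h2
    rw [c2, cos_sub] at h3
    rw [c2, sin_sub] at h4
    apply basic_ext <;>
      simp only [basic_mul, basic_rot00, basic_rot01, basic_rot10, basic_rot11, basic_dia00,
        basic_dia01, basic_dia10, basic_dia11, e1, e2]
    · linear_combination h1 + h3
    · linear_combination h4 - h2
    · linear_combination h2 + h4
    · linear_combination h1 - h3
  have hlen : len g = l := by
    rw [key, len_mul_rot, len_rot_mul, len_dia, abs_of_nonneg hl0]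
  exact ⟨_, _, by rw [hlen]; exact key⟩

theorem exists_smul_I (z : ℍ) : ∃ g : G, g • I = z := MulAction.exists_smul_eq G I z

/- Conjugate the fixed point to `I`, then `kak` with length zero gives a rotation. -/
theorem exists_conj_rot_of_fixed {g : G} {z : ℍ} (hz : g • z = z) :
    ∃ (h : G) (θ : ℝ), h • I = z ∧ g = h * rot θ * h⁻¹ := by
  obtain ⟨h, rfl⟩ := exists_smul_I z
  have h1 : len (h⁻¹ * g * h) = 0 := by
    rw [len_eq_zero_iff, mul_smul, mul_smul, hz, inv_smul_smul]
  obtain ⟨θ, ψ, h2⟩ := kak (h⁻¹ * g * h)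
  rw [h1, dia_zero, mul_one, ← rot_add] at h2
  exact ⟨h, θ + ψ, rfl, by rw [← h2]; group⟩

theorem pm_one_of_fixed {g : G} {z : ℍ} (hz : g • z = z) (htr : 2 ≤ |tr g|) : PM g 1 := by
  obtain ⟨h, θ, -, rfl⟩ := exists_conj_rot_of_fixed hz
  rw [tr_conj, tr_rot, abs_mul, abs_two] at htr
  have h1 : 1 ≤ cos (π * θ) ^ 2 := by
    rw [← sq_abs]; nlinarith only [htr]
  have h2 := sin_sq_add_cos_sq (π * θ)
  have h3 : sin (π * θ) = 0 := by nlinarith only [h1, h2]
  have h4 : (cos (π * θ) - 1) * (cos (π * θ) + 1) = 0 := by rw [h3] at h2; linarith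
  rcases mul_eq_zero.1 h4 with h5 | h5
  · have : rot θ = 1 := by
      apply basic_ext <;> simp only [basic_rot00, basic_rot01, basic_rot10, basic_rot11,
        basic_one00, basic_one01, basic_one10, basic_one11, h3, neg_zero] <;> linarith only [h5]
    left; rw [this]; group
  · have : rot θ = -1 := by
      apply basic_ext <;> simp only [basic_rot00, basic_rot01, basic_rot10, basic_rot11,
        basic_neg, basic_one00, basic_one01, basic_one10, basic_one11, h3, neg_zero] <;> linarith only [h5]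
    right; rw [this]; simp

end Pool.Agent.MP_596265_gt
end

section
namespace Pool.Agent.MP_596265_gt

open Real Filter Topology

theorem lifts_v0 (x : ℝ) : vec x 0 = cos (π * x) := rfl
theorem lifts_v1 (x : ℝ) : vec x 1 = sin (π * x) := rfl
theorem lifts_ext {u v : Fin 2 → ℝ} (h0 : u 0 = v 0) (h1 : u 1 = v 1) : u = v := by
  ext i; fin_cases i <;> assumption
theorem lifts_mv (g : G) (v : Fin 2 → ℝ) (i : Fin 2) :
    (g : Matrix (Fin 2) (Fin 2) ℝ).mulVec v i = g i 0 * v 0 + g i 1 * v 1 := by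
  simp only [Matrix.mulVec, dotProduct, Fin.sum_univ_two, Fin.isValue]
theorem lifts_dot (u v : Fin 2 → ℝ) : u ⬝ᵥ v = u 0 * v 0 + u 1 * v 1 := by
  simp [dotProduct, Fin.sum_univ_two]
theorem lifts_mul (g h : G) (v : Fin 2 → ℝ) :
    ((g * h : G) : Matrix (Fin 2) (Fin 2) ℝ).mulVec v =
      (g : Matrix (Fin 2) (Fin 2) ℝ).mulVec ((h : Matrix (Fin 2) (Fin 2) ℝ).mulVec v) := by
  rw [Matrix.mulVec_mulVec]; rfl
theorem lifts_one (v : Fin 2 → ℝ) : ((1 : G) : Matrix (Fin 2) (Fin 2) ℝ).mulVec v = v :=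
  Matrix.one_mulVec v

theorem lifts_const {d : ℝ → ℝ} (hd : Continuous d) (h : ∀ x, ∃ k : ℤ, d x = k) (x y : ℝ) :
    d x = d y := by
  have key : ∀ a b, ¬ d a < d b := by
    intro a b hab
    obtain ⟨k, hk⟩ := h a
    obtain ⟨m, hm⟩ := h b
    have hkm : k + 1 ≤ m := by
      rw [hk, hm] at hab; exact_mod_cast hab
    have hkm' : (k : ℝ) + 1 ≤ m := by exact_mod_cast hkm
    obtain ⟨c, hc⟩ := intermediate_value_univ a b hd
      (show (k : ℝ) + 1 / 2 ∈ Set.Icc (d a) (d b) from ⟨by linarith only [hk], by linarith⟩)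
    obtain ⟨j, hj⟩ := h c
    have e : ((2 * j : ℤ) : ℝ) = ((2 * k + 1 : ℤ) : ℝ) := by push_cast; linarith only [hc, hj]
    have : 2 * j = 2 * k + 1 := by exact_mod_cast e
    omega
  exact le_antisymm (not_lt.1 (key y x)) (not_lt.1 (key x y))

theorem lifts_int {f : ℝ → ℝ} (h : ∀ x, f (x + 1) = f x + 1) (x : ℝ) (k : ℤ) :
    f (x + k) = f x + k := by
  induction k using Int.induction_on with
  | zero => simp
  | succ n ih => push_cast at ih ⊢; rw [← add_assoc, h, ih, add_assoc]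
  | pred n ih =>
    have := h (x + (-(n : ℝ) - 1))
    rw [show x + (-(n : ℝ) - 1) + 1 = x + -(n : ℝ) by ring] at this
    push_cast at ih ⊢
    linarith

theorem vec_ne_zero (x : ℝ) : vec x ≠ 0 := by
  intro h
  have h0 : cos (π * x) = 0 := congrFun h 0
  have h1 : sin (π * x) = 0 := congrFun h 1
  have := sin_sq_add_cos_sq (π * x)
  rw [h0, h1] at this; simp at this
/- sin (π (x - y)) = 0. -/
theorem vec_parallel {x y c : ℝ} (h : vec x = c • vec y) : ∃ k : ℤ, x = y + k := by
  have h0 : cos (π * x) = c * cos (π * y) := congrFun h 0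
  have h1 : sin (π * x) = c * sin (π * y) := congrFun h 1
  have h2 : sin (π * x - π * y) = 0 := by rw [sin_sub, h0, h1]; ring
  obtain ⟨k, hk⟩ := sin_eq_zero_iff.1 h2
  refine ⟨k, mul_left_cancel₀ pi_ne_zero ?_⟩
  linarith

theorem Lift.add_int {g : G} {f : ℝ ≃o ℝ} (h : Lift g f) (x : ℝ) (k : ℤ) :
    f (x + k) = f x + k := lifts_int h.1 x k
theorem Lift.mul {g g' : G} {f f' : ℝ ≃o ℝ} (h : Lift g f) (h' : Lift g' f') :
    Lift (g * g') (f * f') := by
  refine ⟨fun x => by rw [RelIso.mul_apply, RelIso.mul_apply, h'.1, h.1], fun x => ?_⟩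
  obtain ⟨c', hc', e'⟩ := h'.2 x
  obtain ⟨c, hc, e⟩ := h.2 (f' x)
  refine ⟨c' * c, mul_ne_zero hc' hc, ?_⟩
  rw [lifts_mul, e', Matrix.mulVec_smul, e, smul_smul, RelIso.mul_apply]
theorem Lift.inv {g : G} {f : ℝ ≃o ℝ} (h : Lift g f) : Lift g⁻¹ f⁻¹ := by
  refine ⟨fun x => f.injective ?_, fun x => ?_⟩
  · rw [h.1, RelIso.apply_inv_self, RelIso.apply_inv_self]
  · obtain ⟨c, hc, e⟩ := h.2 (f⁻¹ x)
    rw [RelIso.apply_inv_self] at e
    refine ⟨c⁻¹, inv_ne_zero hc, ?_⟩
    have e2 := congrArg ((g⁻¹ : G) : Matrix (Fin 2) (Fin 2) ℝ).mulVec e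
    rw [← lifts_mul, inv_mul_cancel, lifts_one, Matrix.mulVec_smul] at e2
    rw [e2, smul_smul, inv_mul_cancel₀ hc, one_smul]
theorem lift_one : Lift 1 1 := ⟨fun _ => rfl, fun x => ⟨1, one_ne_zero, by rw [lifts_one, one_smul]; rfl⟩⟩
theorem Lift.pm {g g' : G} {f : ℝ ≃o ℝ} (h : Lift g f) (H : PM g g') : Lift g' f := by
  rcases H with rfl | rfl
  · exact h
  · refine ⟨h.1, fun x => ?_⟩
    obtain ⟨c, hc, e⟩ := h.2 x
    refine ⟨-c, neg_ne_zero.2 hc, ?_⟩
    rw [Matrix.SpecialLinearGroup.coe_neg, Matrix.neg_mulVec] at e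
    rw [neg_smul, ← e, neg_neg]
theorem lift_rot (θ : ℝ) : Lift (rot θ) (T θ) := by
  refine ⟨fun x => by simp only [T_apply]; ring, fun x => ⟨1, one_ne_zero, ?_⟩⟩
  rw [one_smul]
  apply lifts_ext <;>
    simp only [lifts_mv, lifts_v0, lifts_v1, basic_rot00, basic_rot01, basic_rot10, basic_rot11,
      T_apply, mul_add, cos_add, sin_add] <;> ring
/- f' - f is continuous (`OrderIso.continuous`) and integer valued on a connected space. -/
theorem Lift.unique {g : G} {f f' : ℝ ≃o ℝ} (h : Lift g f) (h' : Lift g f') :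
    ∃ k : ℤ, ∀ x, f' x = f x + k := by
  have key : ∀ x, ∃ k : ℤ, f' x - f x = k := by
    intro x
    obtain ⟨c, -, e⟩ := h.2 x
    obtain ⟨c', hc', e'⟩ := h'.2 x
    have : vec (f' x) = (c'⁻¹ * c) • vec (f x) := by
      rw [← smul_smul, ← e, e', smul_smul, inv_mul_cancel₀ hc', one_smul]
    obtain ⟨k, hk⟩ := vec_parallel this
    exact ⟨k, by linarith only [hk]⟩
  obtain ⟨k, hk⟩ := key 0
  refine ⟨k, fun x => ?_⟩
  have := lifts_const (d := fun x => f' x - f x) (f'.continuous.sub f.continuous) key x 0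
  linarith

/- General construction. If `dot x = ⟨vec x, g vec x⟩ > 0` for all x, put
`f x = x + arctan (cross x / dot x) / π` with `cross x = det (vec x, g vec x)`. It is continuous,
`f (x+1) = f x + 1`, `g vec x` is a positive multiple of `vec (f x)`; it is injective by
`vec_parallel`, hence strictly monotone (`Continuous.strictMono_of_inj`; antitone is excluded by
degree one), and surjective; `StrictMono.orderIsoOfSurjective`. -/
theorem exists_lift_of_dot (g : G)
    (hg : ∀ x, 0 < vec x ⬝ᵥ (g : Matrix (Fin 2) (Fin 2) ℝ).mulVec (vec x)) :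
    ∃ f : ℝ ≃o ℝ, Lift g f ∧ ∀ x, f x = x + arctan
      ((vec x 0 * (g : Matrix (Fin 2) (Fin 2) ℝ).mulVec (vec x) 1 -
        vec x 1 * (g : Matrix (Fin 2) (Fin 2) ℝ).mulVec (vec x) 0) /
        (vec x ⬝ᵥ (g : Matrix (Fin 2) (Fin 2) ℝ).mulVec (vec x))) / π := by
  set u : ℝ → ℝ := fun x => vec x ⬝ᵥ (g : Matrix (Fin 2) (Fin 2) ℝ).mulVec (vec x) with hu
  set v : ℝ → ℝ := fun x => vec x 0 * (g : Matrix (Fin 2) (Fin 2) ℝ).mulVec (vec x) 1 -
    vec x 1 * (g : Matrix (Fin 2) (Fin 2) ℝ).mulVec (vec x) 0 with hv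
  have u0 : ∀ x, 0 < u x := hg
  have eu : ∀ x, u x = cos (π * x) * (g 0 0 * cos (π * x) + g 0 1 * sin (π * x)) +
      sin (π * x) * (g 1 0 * cos (π * x) + g 1 1 * sin (π * x)) := fun x => by
    simp only [hu, lifts_dot, lifts_mv, lifts_v0, lifts_v1]
  have ev : ∀ x, v x = cos (π * x) * (g 1 0 * cos (π * x) + g 1 1 * sin (π * x)) -
      sin (π * x) * (g 0 0 * cos (π * x) + g 0 1 * sin (π * x)) := fun x => by
    simp only [hv, lifts_mv, lifts_v0, lifts_v1]
  set F : ℝ → ℝ := fun x => x + arctan (v x / u x) / π with hF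
  have cu : Continuous u := by rw [funext eu]; fun_prop
  have cv : Continuous v := by rw [funext ev]; fun_prop
  have cF : Continuous F :=
    continuous_id.add ((continuous_arctan.comp (cv.div cu fun x => (u0 x).ne')).div_const _)
  have F1 : ∀ x, F (x + 1) = F x + 1 := by
    intro x
    have e1 : u (x + 1) = u x := by
      rw [eu, eu, mul_add π, mul_one, cos_add_pi, sin_add_pi]; ring
    have e2 : v (x + 1) = v x := by
      rw [ev, ev, mul_add π, mul_one, cos_add_pi, sin_add_pi]; ring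
    simp only [hF, e1, e2]; ring
  have FL : ∀ x, ∃ c : ℝ, c ≠ 0 ∧
      (g : Matrix (Fin 2) (Fin 2) ℝ).mulVec (vec x) = c • vec (F x) := by
    intro x
    have c0 := cos_arctan_pos (v x / u x)
    have e1 : π * F x = π * x + arctan (v x / u x) := by simp only [hF]; field_simp
    have e2 : sin (arctan (v x / u x)) = v x / u x * cos (arctan (v x / u x)) := by
      have := tan_arctan (v x / u x)
      rw [tan_eq_sin_div_cos, div_eq_iff c0.ne'] at this
      exact this
    have ux := (u0 x).ne'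
    have sc := sin_sq_add_cos_sq (π * x)
    refine ⟨u x / cos (arctan (v x / u x)), (div_pos (u0 x) c0).ne', ?_⟩
    apply lifts_ext
    · rw [Pi.smul_apply, smul_eq_mul, lifts_mv, lifts_v0, lifts_v0, lifts_v1, e1, cos_add, e2]
      have : u x / cos (arctan (v x / u x)) * (cos (π * x) * cos (arctan (v x / u x)) -
          sin (π * x) * (v x / u x * cos (arctan (v x / u x)))) =
          u x * cos (π * x) - v x * sin (π * x) := by field_simp
      rw [this, eu, ev]
      linear_combination (-(g 0 0 * cos (π * x) + g 0 1 * sin (π * x))) * sc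
    · rw [Pi.smul_apply, smul_eq_mul, lifts_mv, lifts_v0, lifts_v1, lifts_v1, e1, sin_add, e2]
      have : u x / cos (arctan (v x / u x)) * (sin (π * x) * cos (arctan (v x / u x)) +
          cos (π * x) * (v x / u x * cos (arctan (v x / u x)))) =
          u x * sin (π * x) + v x * cos (π * x) := by field_simp
      rw [this, eu, ev]
      linear_combination (-(g 1 0 * cos (π * x) + g 1 1 * sin (π * x))) * sc
  have Finj : Function.Injective F := by
    intro x y hxy
    obtain ⟨c, -, e⟩ := FL x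
    obtain ⟨c', hc', e'⟩ := FL y
    have e1 : (g : Matrix (Fin 2) (Fin 2) ℝ).mulVec (vec x) =
        (g : Matrix (Fin 2) (Fin 2) ℝ).mulVec ((c * c'⁻¹) • vec y) := by
      rw [Matrix.mulVec_smul, e, e', smul_smul, hxy, mul_assoc, inv_mul_cancel₀ hc', mul_one]
    have e2 := congrArg ((g⁻¹ : G) : Matrix (Fin 2) (Fin 2) ℝ).mulVec e1
    rw [← lifts_mul, ← lifts_mul, inv_mul_cancel, lifts_one, lifts_one] at e2
    obtain ⟨k, hk⟩ := vec_parallel e2
    have := lifts_int F1 y k
    rw [← hk, hxy] at this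
    linarith only [hk, this]
  have Fm : StrictMono F := by
    rcases cF.strictMono_of_inj Finj with h | h
    · exact h
    · have := h (show (0 : ℝ) < 0 + 1 by norm_num)
      rw [F1] at this; linarith only [this]
  have Fb : ∀ x, x - 1 ≤ F x ∧ F x ≤ x + 1 := by
    intro x
    have h1 := arctan_lt_pi_div_two (v x / u x)
    have h2 := neg_pi_div_two_lt_arctan (v x / u x)
    have h3 : arctan (v x / u x) / π ≤ 1 := by rw [div_le_one pi_pos]; linarith [pi_pos]
    have h4 : -1 ≤ arctan (v x / u x) / π := by rw [le_div_iff₀ pi_pos]; linarith [pi_pos]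
    simp only [hF]
    constructor <;> linarith only [h4, h3]
  have Fs : Function.Surjective F := fun y =>
    intermediate_value_univ (y - 1) (y + 1) cF
      ⟨by linarith [(Fb (y - 1)).2], by linarith [(Fb (y + 1)).1]⟩
  exact ⟨Fm.orderIsoOfSurjective F Fs, ⟨F1, FL⟩, fun _ => rfl⟩

theorem exists_dl (l : ℝ) : ∃ f : ℝ ≃o ℝ, Lift (dia l) f ∧ f 0 = 0 := by
  obtain ⟨f, h1, h2⟩ := exists_lift_of_dot (dia l) (by
    intro x
    simp only [lifts_dot, lifts_mv, lifts_v0, lifts_v1, basic_dia00, basic_dia01, basic_dia10,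
      basic_dia11]
    have a := exp_pos (l / 2)
    have b := exp_pos (-(l / 2))
    have sc := sin_sq_add_cos_sq (π * x)
    rcases le_total (exp (l / 2)) (exp (-(l / 2))) with h | h
    · nlinarith only [mul_nonneg (sub_nonneg.2 h) (sq_nonneg (sin (π * x))), a, sc]
    · nlinarith [mul_nonneg (sub_nonneg.2 h) (sq_nonneg (cos (π * x)))])
  refine ⟨f, h1, ?_⟩
  rw [h2]
  simp [lifts_mv, lifts_v0, lifts_v1, basic_dia10]

/-- The lift of `dia l` fixing zero. -/
noncomputable def dl (l : ℝ) : ℝ ≃o ℝ := (exists_dl l).choose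

theorem lift_dl (l : ℝ) : Lift (dia l) (dl l) := (exists_dl l).choose_spec.1

/- `dl l (1/2)` lies in (0,1) and is congruent to 1/2. -/

/- Both sides lift `dia (-l)` and fix zero. -/

theorem exists_lift (g : G) : ∃ f, Lift g f := by
  obtain ⟨θ, ψ, h⟩ := kak g
  exact ⟨_, by rw [h]; exact ((lift_rot θ).mul (lift_dl _)).mul (lift_rot ψ)⟩

end Pool.Agent.MP_596265_gt
end

end

-- part Core
section

/-! Working definitions for the proof (not used in the statement). -/

namespace Pool.Agent.MP_596265_gt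

open scoped UpperHalfPlane
open Real

noncomputable section

/-! Words -/

/-- Darts: oriented generators. -/
abbrev Dt (g : ℕ) : Type := Gen g × Bool

abbrev Fr (g : ℕ) : Type := FreeGroup (Gen g)

variable {g : ℕ}

/-- Every dart occurs exactly once. -/
def Full (w : List (Dt g)) : Prop := w.Nodup ∧ ∀ d, d ∈ w

/-- Self-paired word. -/
def SP (P : List (Dt g)) : Prop := ∀ d ∈ P, rev d ∈ P

/-- The word is the surface relator up to an automorphism and conjugation. -/
def Surf (w : List (Dt g)) : Prop :=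
  ∃ α : Fr g ≃* Fr g, IsConj (α (FreeGroup.mk w)) (relPre g g)

/-- Reading a word through a colouring of darts, with jumps `J`. -/
def Walk {C : Type} [AddCommGroup C] (ε J : Dt g → C) : C → List (Dt g) → C → Prop
  | c, [], c' => c = c'
  | c, d :: w, c' => ε d = c ∧ Walk ε J (ε (rev d) + J d) w c'

/-- One vertex: closed walks without jumps are constant. -/
def OneV (w : List (Dt g)) : Prop :=
  ∀ (ε : Dt g → ZMod 2) (c : ZMod 2), Walk ε 0 c w c → ∀ d, ε d = c

/-- Jumps at the two darts over one letter. -/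
def Ja (a d : Dt g) : ZMod 2 := if d.1 = a.1 then 1 else 0

/-- The colouring that cuts the rotation at the vertex along the loop `a`. -/
def Cut (w : List (Dt g)) (a : Dt g) (ε : Dt g → ZMod 2) : Prop :=
  ε a = 0 ∧ ∃ c, Walk ε (Ja a) c w c

/-- The loops `a` and `b` cross at the vertex. -/
def Cross (w : List (Dt g)) (a b : Dt g) : Prop :=
  b.1 ≠ a.1 ∧ ∃ ε, Cut w a ε ∧ ε b ≠ ε (rev b)

/-- The subgroup generated by the letters outside `S`. -/
def Out (S : Set (Gen g)) : Subgroup (Fr g) := Subgroup.closure (FreeGroup.of '' Sᶜ)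

/-- Product of commutators as a word. -/
def cw (cs : List (Dt g × Dt g)) : List (Dt g) :=
  cs.flatMap fun c => [c.1, c.2, rev c.1, rev c.2]

/-- `(x, y)` is a standard pair for the relator `w`. -/
def Std (w : List (Dt g)) (x y : Fr g) : Prop :=
  ∃ (ψ : Fr g ≃* Fr g) (k : Fin g), k.1 = 0 ∧ IsConj (ψ (relPre g g)) (FreeGroup.mk w) ∧
    ψ (FreeGroup.of (k, false)) = x ∧
    (ψ (FreeGroup.of (k, true)) = y ∨ ψ (FreeGroup.of (k, true)) = y⁻¹)

/-! Traces -/

def kap (x y : G) : ℝ := tr (x * y * x⁻¹ * y⁻¹)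

def Tor (x y : G) : Prop := (kap x y ≤ -2 ∨ 18 ≤ kap x y) ∧ 2 ≤ |tr x| ∧ 2 ≤ |tr y|

/-- No simple closed curve is elliptic and no handle is reducible. -/
def TH (σ : Fr g →* G) : Prop :=
  ∀ ψ : Fr g ≃* Fr g, IsConj (ψ (relPre g g)) (relPre g g) →
    (∀ k : Fin g, 2 ≤ |tr (σ (ψ (FreeGroup.of (k, false))))|) ∧
      (∀ h : ℕ, 0 < h → h < g → 2 ≤ |tr (σ (ψ (relPre g h)))|) ∧ tr (σ (ψ (relPre g 1))) ≠ 2

/-! Minimal polygons -/

def Good (σ : Fr g →* G) (w : List (Dt g)) (M : Gen g → G) : Prop :=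
  ∃ α : Fr g ≃* Fr g, IsConj (α (FreeGroup.mk w)) (relPre g g) ∧
    ∀ x, PM (M x) (σ (α (FreeGroup.of x)))

def Cl (σ : Fr g →* G) (w : List (Dt g)) : Set (Gen g → G) := closure {M | Good σ w M}

def tot (M : Gen g → G) : ℝ := ∑ x, len (M x)

def IsMinP (σ : Fr g →* G) (w : List (Dt g)) (M : Gen g → G) : Prop :=
  Full w ∧ M ∈ Cl σ w ∧ ∀ w' M', Full w' → M' ∈ Cl σ w' → tot M ≤ tot M'

/-- The properties of the family of words that are minimal for one labelling `M`. -/
structure Fam (M : Gen g → G) (W : Set (List (Dt g))) : Prop where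
  full : ∀ w ∈ W, Full w
  pm : ∀ w ∈ W, PM (lab M w) 1
  rot : ∀ A B, A ++ B ∈ W → B ++ A ∈ W
  hole : ∀ X V₁ V₂, X ++ V₁ ++ V₂ ∈ W → SP X → PM (lab M X) 1 → V₁ ++ X ++ V₂ ∈ W
  f1 : ∀ P Q d, P ++ Q ∈ W → d ∈ P → rev d ∉ P → len (dlab M d) ≤ len (lab M P)
  s2 : ∀ s A B, s :: (A ++ rev s :: B) ∈ W → Tor (dlab M s) (lab M A)
  s3 : ∀ P Q, P ++ Q ∈ W → SP P → 2 ≤ |tr (lab M P)|

/-- A closed word without closed proper subwords. -/
def SimpleW (M : Gen g → G) (P : List (Dt g)) : Prop :=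
  P ≠ [] ∧ PM (lab M P) 1 ∧
    ∀ A U B, P = A ++ U ++ B → U ≠ [] → (A ≠ [] ∨ B ≠ []) → 0 < len (lab M U)

/-- Vertices of the developed polygon in the frame `h`. -/
def vtx (M : Gen g → G) (h : G) (w : List (Dt g)) (k : ℕ) : ℍ :=
  (h * lab M (w.take k)) • UpperHalfPlane.I

/-! The plane -/

abbrev Pt : Type := ℝ × ℝ

def det3 (p q z : Pt) : ℝ := (q.1 - p.1) * (z.2 - p.2) - (q.2 - p.2) * (z.1 - p.1)

/-- Signed count of the side `p q` strictly below `z`. -/
def cS (p q z : Pt) : ℝ :=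
  (if p.1 ≤ z.1 ∧ z.1 < q.1 ∧ 0 < det3 p q z then 1 else 0) -
    (if q.1 ≤ z.1 ∧ z.1 < p.1 ∧ det3 p q z < 0 then 1 else 0)

/-- Signed count of the side `p q` weakly below `z`. -/
def cW (p q z : Pt) : ℝ :=
  (if p.1 ≤ z.1 ∧ z.1 < q.1 ∧ 0 ≤ det3 p q z then 1 else 0) -
    (if q.1 ≤ z.1 ∧ z.1 < p.1 ∧ det3 p q z ≤ 0 then 1 else 0)

/-- Boundary term of the transport from `z` to `z'`. -/
def gT (z z' u : Pt) : ℝ :=
  (if z.1 < u.1 ∧ u.1 ≤ z'.1 ∧ det3 z z' u < 0 then 1 else 0) -
    (if z'.1 < u.1 ∧ u.1 ≤ z.1 ∧ 0 < det3 z z' u then 1 else 0)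

/-- A finite family of sides without boundary. -/
def ClosedC {ι : Type} (s : Finset ι) (p q : ι → Pt) : Prop :=
  ∀ φ : Pt → ℝ, ∑ k ∈ s, φ (p k) = ∑ k ∈ s, φ (q k)

def wn (n : ℕ) (V : ℕ → Pt) (z : Pt) : ℝ := ∑ k ∈ Finset.range n, cS (V k) (V (k + 1)) z

def wnW (n : ℕ) (V : ℕ → Pt) (z : Pt) : ℝ := ∑ k ∈ Finset.range n, cW (V k) (V (k + 1)) z

/-- Simple closed polygon without vertical sides. -/
structure SimpleP (n : ℕ) (V : ℕ → Pt) : Prop where
  pos : 0 < n
  cl : V n = V 0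
  nv : ∀ k < n, (V k).1 ≠ (V (k + 1)).1
  meet : ∀ j k, j < k → k < n → ∀ z ∈ segment ℝ (V j) (V (j + 1)),
    z ∈ segment ℝ (V k) (V (k + 1)) → (k = j + 1 ∧ z = V k) ∨ (j = 0 ∧ k + 1 = n ∧ z = V 0)

/-- Orientation `ν` of a simple polygon. -/
structure Ori (n : ℕ) (V : ℕ → Pt) (ν : ℝ) : Prop where
  sgn : ν = 1 ∨ ν = -1
  side : ∀ k < n, ∀ z ∈ openSegment ℝ (V k) (V (k + 1)),
    ∑ t ∈ (Finset.range n).erase k, cS (V t) (V (t + 1)) z +
      (if (V k).1 < (V (k + 1)).1 then 1 else 0) = (1 + ν) / 2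
  val : ∀ z : Pt, (∀ k < n, z.1 ≠ (V k).1) →
    (wn n V z = 0 ∨ wn n V z = ν) ∧ (wnW n V z = 0 ∨ wnW n V z = ν)

/-- The open triangle. -/
def Tri (ν : ℝ) (a b c z : Pt) : Prop :=
  0 < ν * det3 a b z ∧ 0 < ν * det3 b c z ∧ 0 < ν * det3 c a z

/-- The region of the plane that is the image of the upper half-plane. -/
def InH (u : Pt) : Prop := u.1 ^ 2 < u.2

/-- The integral of dx / y along the geodesic side from `p` to `q`. -/
def ar (p q : Pt) : ℝ :=
  2 * arctan ((q.1 - p.1) / (sqrt (p.2 - p.1 ^ 2) + sqrt (q.2 - q.1 ^ 2)))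

def parea (n : ℕ) (V : ℕ → Pt) : ℝ := ∑ k ∈ Finset.range n, ar (V k) (V (k + 1))

/-! The hyperbolic plane -/

/-- The chart in which geodesics are straight. -/
def Φ (z : ℍ) : Pt := (z.re, z.re ^ 2 + z.im ^ 2)

def Seg (p q z : ℍ) : Prop := Φ z ∈ segment ℝ (Φ p) (Φ q)

def OSeg (p q z : ℍ) : Prop := Φ z ∈ openSegment ℝ (Φ p) (Φ q)

def hdet (p q z : ℍ) : ℝ := det3 (Φ p) (Φ q) (Φ z)

def har (p q : ℍ) : ℝ := ar (Φ p) (Φ q)

def harea (n : ℕ) (V : ℕ → ℍ) : ℝ := ∑ k ∈ Finset.range n, har (V k) (V (k + 1))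

/-- Signed area of the developed polygon. -/
def warea (M : Gen g → G) (h : G) (w : List (Dt g)) : ℝ := harea w.length (vtx M h w)

/-- Simple closed geodesic polygon. -/
structure HSimple (n : ℕ) (V : ℕ → ℍ) : Prop where
  pos : 0 < n
  cl : V n = V 0
  ne : ∀ k < n, V k ≠ V (k + 1)
  meet : ∀ j k, j < k → k < n → ∀ z, Seg (V j) (V (j + 1)) z → Seg (V k) (V (k + 1)) z →
    (k = j + 1 ∧ z = V k) ∨ (j = 0 ∧ k + 1 = n ∧ z = V 0)

/-- The distance inequalities between two different sides of a minimal polygon. -/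
def Tab (p q p' q' : ℍ) : Prop :=
  (dist p q + dist p' q' ≤ dist p p' + dist q q' ∧
    (max (dist p q) (dist p' q') ≤ dist q p' ∨ max (dist p q) (dist p' q') ≤ dist p q' ∨
      (dist p q = dist p' q' ∧ dist p q ≤ dist p p' ∧ dist p q ≤ dist q q' ∧
        3 ≤ cosh ((dist q p' + dist p q') / 2)))) ∨
  (dist p q + dist p' q' ≤ dist q p' + dist p q' ∧
    (max (dist p q) (dist p' q') ≤ dist q q' ∨ max (dist p q) (dist p' q') ≤ dist p p'))

/-- The metric properties of a minimal polygon. -/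
structure Geo (n : ℕ) (V : ℕ → ℍ) : Prop where
  cl : V n = V 0
  ne : ∀ k < n, V k ≠ V (k + 1)
  lune : ∀ k < n, ∀ j ≤ n,
    dist (V k) (V (k + 1)) ≤ max (dist (V k) (V j)) (dist (V (k + 1)) (V j))
  tab : ∀ j < n, ∀ k < n, j ≠ k → Tab (V j) (V (j + 1)) (V k) (V (k + 1))

/-- An empty half ball and a small triangle on the side `ε` of the side number `j`. -/
structure Dent (n : ℕ) (V : ℕ → ℍ) (j : ℕ) (ε : ℝ) (m a b c : ℍ) : Prop where
  hm : OSeg (V j) (V (j + 1)) m
  ha : OSeg (V j) (V (j + 1)) a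
  hb : OSeg a (V (j + 1)) b
  hc : 0 < ε * hdet a b c
  area : π / 180 ≤ ε * (har a b + har b c + har c a)
  da : dist m a ≤ log (8 / 7)
  db : dist m b ≤ log (8 / 7)
  dc : dist m c ≤ log (8 / 7)
  emp : ∀ z, dist m z ≤ 2 * log (8 / 7) → 0 < ε * hdet (V j) (V (j + 1)) z →
    ∀ k < n, ¬ Seg (V k) (V (k + 1)) z
  line : ∀ z, dist m z ≤ 2 * log (8 / 7) → hdet (V j) (V (j + 1)) z = 0 →
    OSeg (V j) (V (j + 1)) z

end

end Pool.Agent.MP_596265_gt

end
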