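import Pool.Agent.MP_596265_gt.B1

attribute [-instance] NonUnitalRingHomClass.toMulHomClass MonTypeEquivalenceMon.monMonoid
  NonUnitalAlgSemiHomClass.toMulHomClass NeZero.charZero_one AddQuantale.instAddLeftMono
  MonoidWithZeroHomClass.toMonoidHomClass littleWedderburn CommSemiring.toSemiring RKHS.instFunLike
  SemigroupWithZero.toSemigroup BialgHomClass.toMonoidHomClass CommGroup.toDivisionCommMonoid
  NumberField.to_charZero IdemSemiring.toSemiring
  Std.instLawfulBEqOrdOfLawfulOrderOrdOfLawfulOrderBEq MonoidWithZero.toMulZeroOneClass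
  NormedRing.toRing RCLike.charZero_rclike NonUnitalRing.toNonUnitalNonAssocRing Semiring.toMonoid
  MonoidWithZero.toMonoid NonAssocSemiring.toMulZeroOneClass AddQuantale.instAddRightMono
  BooleanRing.toRing

-- part CA
section

namespace Pool.Agent.MP_596265_gt

open scoped UpperHalfPlane
open Real

variable {g : ℕ}

theorem mk_append (A B : List (Dt g)) :
    FreeGroup.mk (A ++ B) = FreeGroup.mk A * FreeGroup.mk B := FreeGroup.mul_mk.symm
theorem mk_cons (d : Dt g) (U : List (Dt g)) :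
    FreeGroup.mk (d :: U) = FreeGroup.mk [d] * FreeGroup.mk U := mk_append [d] U
theorem mk_nil : (FreeGroup.mk [] : Fr g) = 1 := rfl
theorem mk_rev (d : Dt g) : FreeGroup.mk [rev d] = (FreeGroup.mk [d])⁻¹ := by
  rw [FreeGroup.inv_mk]; rfl
theorem mk_true (x : Gen g) : FreeGroup.mk [(x, true)] = FreeGroup.of x := rfl
theorem eq_or_rev {a b : Dt g} (h : b.1 = a.1) : b = a ∨ b = rev a := by
  obtain ⟨x, s⟩ := a
  obtain ⟨y, t⟩ := b
  cases h
  cases s <;> cases t <;> simp [rev]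

theorem walk_append {C : Type} [AddCommGroup C] {ε J : Dt g → C} {c c' : C} {U V : List (Dt g)} :
    Walk ε J c (U ++ V) c' ↔ ∃ c₁, Walk ε J c U c₁ ∧ Walk ε J c₁ V c' := by
  induction U generalizing c with
  | nil => simp only [List.nil_append, Walk, exists_eq_left']
  | cons d U ih =>
    simp only [List.cons_append, Walk, ih]
    constructor
    · rintro ⟨h, c₁, h1, h2⟩
      exact ⟨c₁, ⟨h, h1⟩, h2⟩
    · rintro ⟨c₁, ⟨h, h1⟩, h2⟩
      exact ⟨h, c₁, h1, h2⟩
theorem walk_count {C A : Type} [AddCommGroup C] [AddCommMonoid A] {ε J : Dt g → C} {c c' : C}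
    {U : List (Dt g)} (φ : C → A) (h : Walk ε J c U c') :
    (U.map fun d => φ (ε d)).sum + φ c' = φ c + (U.map fun d => φ (ε (rev d) + J d)).sum := by
  induction U generalizing c with
  | nil => cases h; simp
  | cons d U ih =>
    obtain ⟨h1, h2⟩ := h
    simp only [List.map_cons, List.sum_cons]
    rw [add_assoc, ih h2, h1]
theorem walk_congr {C : Type} [AddCommGroup C] {ε J J' : Dt g → C} {c c' : C} {U : List (Dt g)}
    (hJ : ∀ d ∈ U, J d = J' d) (h : Walk ε J c U c') : Walk ε J' c U c' := by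
  induction U generalizing c with
  | nil => exact h
  | cons d U ih =>
    refine ⟨h.1, ?_⟩
    rw [← hJ d (by simp)]
    exact ih (fun x hx => hJ x (by simp [hx])) h.2
theorem walk_rot {C : Type} [AddCommGroup C] {ε J : Dt g → C} {c : C} {A B : List (Dt g)}
    (h : Walk ε J c (A ++ B) c) : ∃ c', Walk ε J c' (B ++ A) c' := by
  obtain ⟨c₁, h1, h2⟩ := walk_append.1 h
  exact ⟨c₁, walk_append.2 ⟨c, h2, h1⟩⟩
theorem walk_prod {C C' : Type} [AddCommGroup C] [AddCommGroup C'] {ε J : Dt g → C}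
    {η K : Dt g → C'} {c c' : C} {e e' : C'} {U : List (Dt g)} (h : Walk ε J c U c')
    (h' : Walk η K e U e') :
    Walk (fun d => (ε d, η d)) (fun d => (J d, K d)) (c, e) U (c', e') := by
  induction U generalizing c e with
  | nil => exact Prod.ext h h'
  | cons d U ih => exact ⟨Prod.ext h.1 h'.1, ih h.2 h'.2⟩
theorem walk_add {C : Type} [AddCommGroup C] {ε J η K : Dt g → C} {c c' e e' : C}
    {U : List (Dt g)} (h : Walk ε J c U c') (h' : Walk η K e U e') :
    Walk (fun d => ε d + η d) (fun d => J d + K d) (c + e) U (c' + e') := by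
  induction U generalizing c e with
  | nil => cases h; cases h'; rfl
  | cons d U ih =>
    refine ⟨congrArg₂ (· + ·) h.1 h'.1, ?_⟩
    have := ih h.2 h'.2
    rwa [add_add_add_comm] at this
theorem walk_const {C : Type} [AddCommGroup C] {ε : Dt g → C} {c : C} {U : List (Dt g)}
    (h : ∀ d ∈ U, ε d = c ∧ ε (rev d) = c) : Walk ε 0 c U c := by
  induction U with
  | nil => rfl
  | cons d U ih =>
    refine ⟨(h d (by simp)).1, ?_⟩
    rw [(h d (by simp)).2, Pi.zero_apply, add_zero]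
    exact ih fun x hx => h x (by simp [hx])

theorem sum_rev {A : Type} [AddCommMonoid A] {U : List (Dt g)} (hU : U.Nodup) (hS : SP U)
    (ψ : Dt g → A) : (U.map fun d => ψ (rev d)).sum = (U.map ψ).sum := by
  have hp : (U.map rev).Perm U := by
    refine (List.perm_ext_iff_of_nodup (hU.map (revP (Gen g)).injective) hU).2 fun d => ?_
    constructor
    · intro h
      obtain ⟨x, hx, rfl⟩ := List.mem_map.1 h
      exact hS x hx
    · intro h
      exact List.mem_map.2 ⟨rev d, hS d h, rev_rev d⟩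
  have := (hp.map ψ).sum_eq
  rwa [List.map_map] at this
theorem Full.sp {w : List (Dt g)} (h : Full w) : SP w := fun _ _ => h.2 _
theorem Full.perm {w w' : List (Dt g)} (h : Full w) (hp : w.Perm w') : Full w' := ⟨hp.nodup_iff.1 h.1, fun d => hp.subset (h.2 d)⟩
theorem Full.length {w : List (Dt g)} (h : Full w) : w.length = 4 * g := by
  classical
  have h1 : w.toFinset = Finset.univ := Finset.eq_univ_of_forall fun d => List.mem_toFinset.2 (h.2 d)
  rw [← List.toFinset_card_of_nodup h.1, h1, Finset.card_univ, Fintype.card_prod,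
    Fintype.card_prod, Fintype.card_fin, Fintype.card_bool]
  ring
theorem Full.sum {A : Type} [AddCommMonoid A] {w : List (Dt g)} (h : Full w) (ψ : Dt g → A) :
    (w.map ψ).sum = ∑ d, ψ d := by
  classical
  have h1 : w.toFinset = Finset.univ := Finset.eq_univ_of_forall fun d => List.mem_toFinset.2 (h.2 d)
  rw [← List.sum_toFinset ψ h.1, h1]
theorem SP.perm {P P' : List (Dt g)} (h : SP P) (hp : P.Perm P') : SP P' := fun d hd => hp.subset (h d (hp.symm.subset hd))
theorem SP.compl {P Q : List (Dt g)} (hn : (P ++ Q).Nodup) (h : SP (P ++ Q)) (hP : SP P) :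
    SP Q := by
  intro d hd
  rcases List.mem_append.1 (h d (List.mem_append_right _ hd)) with h1 | h1
  · have h2 := hP _ h1
    rw [rev_rev] at h2
    exact absurd hd (List.disjoint_of_nodup_append hn h2)
  · exact h1

theorem Surf.of_conj {w w' : List (Dt g)} (h : Surf w) (β : Fr g ≃* Fr g)
    (hβ : IsConj (β (FreeGroup.mk w')) (FreeGroup.mk w)) : Surf w' := by
  obtain ⟨α, hα⟩ := h
  exact ⟨β.trans α, (α.toMonoidHom.map_isConj hβ).trans hα⟩
theorem isConj_rot (A B : List (Dt g)) :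
    IsConj (FreeGroup.mk (B ++ A)) (FreeGroup.mk (A ++ B)) := by
  rw [mk_append, mk_append, isConj_iff]
  exact ⟨FreeGroup.mk A, by group⟩
theorem Surf.rot {A B : List (Dt g)} (h : Surf (A ++ B)) : Surf (B ++ A) := h.of_conj (MulEquiv.refl _) (isConj_rot A B)

end Pool.Agent.MP_596265_gt

end

-- part CH
section

namespace Pool.Agent.MP_596265_gt

open scoped UpperHalfPlane
open Real

variable {g : ℕ}

theorem ch_of_mem {S : Set (Gen g)} {x : Gen g} (h : x ∉ S) : FreeGroup.of x ∈ Out S :=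
  Subgroup.subset_closure ⟨x, h, rfl⟩

theorem ch_false (x : Gen g) : FreeGroup.mk [(x, false)] = (FreeGroup.of x : Fr g)⁻¹ := by
  rw [← mk_true, ← mk_rev]; rfl

theorem mk_mem_out (S : Set (Gen g)) (U : List (Dt g)) (h : ∀ d ∈ U, d.1 ∉ S) :
    FreeGroup.mk U ∈ Out S := by
  induction U with
  | nil => rw [mk_nil]; exact one_mem _
  | cons d U ih =>
    rw [mk_cons]
    refine mul_mem ?_ (ih fun e he => h e (List.mem_cons_of_mem _ he))
    have hd := ch_of_mem (h d List.mem_cons_self)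
    obtain ⟨x, b⟩ := d
    cases b
    · rw [ch_false]; exact inv_mem hd
    · rw [mk_true]; exact hd

open Classical in
/-- The gauge endomorphism. -/
noncomputable def ch_hom (S : Set (Gen g)) (p : Dt g → Fr g) : Fr g →* Fr g :=
  FreeGroup.lift fun x =>
    if x ∈ S then p (x, true) * FreeGroup.of x * (p (x, false))⁻¹ else FreeGroup.of x

theorem ch_in {S : Set (Gen g)} (p : Dt g → Fr g) {x : Gen g} (h : x ∈ S) :
    ch_hom S p (FreeGroup.of x) = p (x, true) * FreeGroup.of x * (p (x, false))⁻¹ := by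
  rw [ch_hom, FreeGroup.lift_apply_of, if_pos h]

theorem ch_out {S : Set (Gen g)} (p : Dt g → Fr g) {x : Gen g} (h : x ∉ S) :
    ch_hom S p (FreeGroup.of x) = FreeGroup.of x := by
  rw [ch_hom, FreeGroup.lift_apply_of, if_neg h]

theorem ch_fix {S : Set (Gen g)} (p : Dt g → Fr g) {u : Fr g} (h : u ∈ Out S) :
    ch_hom S p u = u := by
  induction h using Subgroup.closure_induction with
  | mem y hy =>
    obtain ⟨x, hx, rfl⟩ := hy
    exact ch_out p hx
  | one => exact map_one _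
  | mul a b _ _ ha hb => rw [map_mul, ha, hb]
  | inv a _ ha => rw [map_inv, ha]

theorem ch_comp {S : Set (Gen g)} (p q : Dt g → Fr g) (hp : ∀ d, p d ∈ Out S)
    (hq : ∀ d, q d = (p d)⁻¹) : (ch_hom S q).comp (ch_hom S p) = MonoidHom.id _ := by
  refine FreeGroup.ext_hom _ _ fun x => ?_
  rw [MonoidHom.comp_apply, MonoidHom.id_apply]
  by_cases h : x ∈ S
  · rw [ch_in p h, map_mul, map_mul, map_inv, ch_fix q (hp _), ch_fix q (hp _), ch_in q h, hq, hq]
    group
  · rw [ch_out p h, ch_out q h]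

/- `γ x = p (x, true) * x * (p (x, false))⁻¹` on `S`; the inverse uses `(p d)⁻¹`. -/
theorem exists_gauge (S : Set (Gen g)) (p : Dt g → Fr g) (hp : ∀ d, p d ∈ Out S) :
    ∃ γ : Fr g ≃* Fr g,
      (∀ d : Dt g, d.1 ∈ S → γ (FreeGroup.mk [d]) = p d * FreeGroup.mk [d] * (p (rev d))⁻¹) ∧
        ∀ u ∈ Out S, γ u = u := by
  refine ⟨MonoidHom.toMulEquiv (ch_hom S p) (ch_hom S fun d => (p d)⁻¹)
    (ch_comp p _ hp fun _ => rfl)
    (ch_comp _ p (fun d => inv_mem (hp d)) fun d => (inv_inv _).symm), ?_, fun u hu => ch_fix p hu⟩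
  rintro ⟨x, b⟩ h
  change ch_hom S p (FreeGroup.mk [(x, b)]) = _
  cases b
  · rw [ch_false, map_inv, ch_in p h]
    change _ = p (x, false) * _ * (p (x, true))⁻¹
    group
  · rw [mk_true, ch_in p h]
    rfl

theorem gauge_walk {C : Type} [AddCommGroup C] (γ : Fr g ≃* Fr g) (ε : Dt g → C) (P : C → Fr g)
    {c c' : C} {U : List (Dt g)}
    (hγ : ∀ d ∈ U, γ (FreeGroup.mk [d]) = P (ε d) * FreeGroup.mk [d] * (P (ε (rev d)))⁻¹)
    (h : Walk ε 0 c U c') : γ (FreeGroup.mk U) = P c * FreeGroup.mk U * (P c')⁻¹ := by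
  induction U generalizing c with
  | nil =>
    have e : c = c' := h
    rw [mk_nil, map_one, e]
    group
  | cons d U ih =>
    obtain ⟨h1, h2⟩ := h
    have h3 := ih (fun e he => hγ e (List.mem_cons_of_mem _ he)) h2
    rw [Pi.zero_apply, add_zero] at h3
    rw [mk_cons, map_mul, hγ d List.mem_cons_self, h3, h1]
    group

theorem exists_swap (C X Y Z T : List (Dt g)) (l : Dt g)
    (h : (C ++ X ++ l :: (Y ++ Z ++ rev l :: T)).Nodup) :
    ∃ β : Fr g ≃* Fr g, β (FreeGroup.mk [l]) = FreeGroup.mk (X ++ l :: Y) ∧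
      (∀ x, x ≠ l.1 → β (FreeGroup.of x) = FreeGroup.of x) ∧
      β (FreeGroup.mk (C ++ l :: (Z ++ Y ++ rev l :: (X ++ T)))) =
        FreeGroup.mk (C ++ X ++ l :: (Y ++ Z ++ rev l :: T)) := by
  classical
  have key : ∀ U : List (Dt g), l ∉ U → rev l ∉ U → FreeGroup.mk U ∈ Out ({l.1} : Set (Gen g)) := by
    intro U h1 h2
    refine mk_mem_out _ U fun d hd hS => ?_
    rcases eq_or_rev (Set.mem_singleton_iff.1 hS) with e | e
    · exact h1 (e ▸ hd)
    · exact h2 (e ▸ hd)
  have c1 := List.nodup_iff_count_le_one.1 h l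
  have c2 := List.nodup_iff_count_le_one.1 h (rev l)
  simp only [List.count_append, List.count_cons, beq_self_eq_true, if_true] at c1 c2
  have hC := key C (List.count_eq_zero.1 (by omega)) (List.count_eq_zero.1 (by omega))
  have hX := key X (List.count_eq_zero.1 (by omega)) (List.count_eq_zero.1 (by omega))
  have hY := key Y (List.count_eq_zero.1 (by omega)) (List.count_eq_zero.1 (by omega))
  have hZ := key Z (List.count_eq_zero.1 (by omega)) (List.count_eq_zero.1 (by omega))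
  have hT := key T (List.count_eq_zero.1 (by omega)) (List.count_eq_zero.1 (by omega))
  obtain ⟨β, h1, h2⟩ := exists_gauge {l.1}
    (fun d => if d = l then FreeGroup.mk X else (FreeGroup.mk Y)⁻¹) (fun d => by
      split_ifs
      · exact hX
      · exact inv_mem hY)
  have h3 := h1 l rfl
  rw [if_pos rfl, if_neg (rev_ne l), inv_inv] at h3
  refine ⟨β, ?_, fun x hx => h2 _ (ch_of_mem hx), ?_⟩
  · rw [h3, mk_append, mk_cons l Y, mul_assoc]
  · rw [mk_append, mk_cons l, mk_append, mk_cons (rev l), mk_append, mk_append, mk_rev,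
      mk_append, mk_cons l (Y ++ Z ++ rev l :: T), mk_append, mk_append, mk_cons (rev l) T,
      mk_append, mk_rev]
    simp only [map_mul, map_inv, h3, h2 _ hC, h2 _ hX, h2 _ hY, h2 _ hZ, h2 _ hT]
    group

end Pool.Agent.MP_596265_gt

end

-- part CB
section

namespace Pool.Agent.MP_596265_gt

open scoped UpperHalfPlane
open Real

variable {g : ℕ}

/-- The sign of a symmetry of the triangle. -/
def cb_sg : DihedralGroup 3 → ZMod 2
  | DihedralGroup.r _ => 0
  | DihedralGroup.sr _ => 1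

theorem cb_sg_mul : ∀ a b : DihedralGroup 3, cb_sg (a * b) = cb_sg a + cb_sg b := by decide

def cb_sgn : DihedralGroup 3 →* Multiplicative (ZMod 2) :=
  MonoidHom.mk' (fun a => Multiplicative.ofAdd (cb_sg a)) fun a b => by
    rw [cb_sg_mul, ofAdd_add]

def cb_P (e : ZMod 2) : DihedralGroup 3 := if e = 0 then 1 else DihedralGroup.sr 0

theorem cb_dec : ∀ (a : DihedralGroup 3) (e e' : ZMod 2), cb_sg a = e + e' →
    ∃ k : ZMod 3, a = cb_P e * DihedralGroup.r k * (cb_P e')⁻¹ ∧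
      a⁻¹ = cb_P e' * DihedralGroup.r (-k) * (cb_P e)⁻¹ := by decide

theorem cb_walk (Φ : Fr g →* DihedralGroup 3) (ε : Dt g → ZMod 2) (κ : Dt g → ZMod 3)
    (hκ : ∀ d, Φ (FreeGroup.mk [d]) = cb_P (ε d) * DihedralGroup.r (κ d) * (cb_P (ε (rev d)))⁻¹)
    (U : List (Dt g)) : ∀ c c', Walk ε 0 c U c' →
      Φ (FreeGroup.mk U) = cb_P c * DihedralGroup.r (U.map κ).sum * (cb_P c')⁻¹ := by
  induction U with
  | nil =>
    intro c c' h
    have e : c = c' := h
    rw [mk_nil, map_one, List.map_nil, List.sum_nil, e, ← DihedralGroup.one_def]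
    group
  | cons d U ih =>
    intro c c' h
    obtain ⟨h1, h2⟩ := h
    rw [Pi.zero_apply, add_zero] at h2
    rw [mk_cons, map_mul, hκ, ih _ _ h2, List.map_cons, List.sum_cons, ← DihedralGroup.r_mul_r, h1]
    group

theorem cb_one {w : List (Dt g)} (hF : Full w) (Φ : Fr g →* DihedralGroup 3) {ε : Dt g → ZMod 2}
    {c : ZMod 2} (h : Walk ε 0 c w c)
    (hΦ : ∀ x, cb_sg (Φ (FreeGroup.of x)) = ε (x, true) + ε (x, false)) :
    Φ (FreeGroup.mk w) = 1 := by
  choose k hk using fun x => cb_dec _ _ _ (hΦ x)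
  have hκ : ∀ d : Dt g, Φ (FreeGroup.mk [d]) = cb_P (ε d) *
      DihedralGroup.r (cond d.2 (k d.1) (-k d.1)) * (cb_P (ε (rev d)))⁻¹ := by
    rintro ⟨x, _ | _⟩
    · have e : ((x, false) : Dt g) = rev (x, true) := rfl
      rw [e, mk_rev, map_inv, mk_true, rev_rev]
      exact (hk x).2
    · rw [mk_true]
      exact (hk x).1
  have h1 := cb_walk Φ ε _ hκ w c c h
  have h2 := sum_rev hF.1 hF.sp fun d : Dt g => (cond d.2 (k d.1) (-k d.1) : ZMod 3)
  have h3 : (fun d : Dt g => (cond (rev d).2 (k (rev d).1) (-k (rev d).1) : ZMod 3)) =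
      fun d : Dt g => -(cond d.2 (k d.1) (-k d.1) : ZMod 3) := by
    funext ⟨x, b⟩
    cases b <;> simp [rev]
  rw [h3, hF.sum, hF.sum, Finset.sum_neg_distrib] at h2
  have h4 : ∀ s : ZMod 3, -s = s → s = 0 := by decide
  rw [h1, hF.sum, h4 _ h2, ← DihedralGroup.one_def]
  group

theorem cb_comm1 : ∀ e e' : ZMod 2, cb_P e * cb_P e' * (cb_P e)⁻¹ * (cb_P e')⁻¹ = 1 := by decide

theorem cb_comm2 : ∀ e e' : ZMod 2, e ≠ 0 →
    cb_P e * (cb_P e' * DihedralGroup.r 1) * (cb_P e)⁻¹ * (cb_P e' * DihedralGroup.r 1)⁻¹ ≠ 1 ∧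
    (cb_P e' * DihedralGroup.r 1) * cb_P e * (cb_P e' * DihedralGroup.r 1)⁻¹ * (cb_P e)⁻¹ ≠ 1 := by
  decide

theorem cb_sgP : ∀ e : ZMod 2, cb_sg (cb_P e) = e ∧ cb_sg (cb_P e * DihedralGroup.r 1) = e := by
  decide

theorem cb_psi (v : Gen g → ZMod 2) (x₀ : Gen g) (h0 : v x₀ ≠ 0) :
    ∃ Ψ : Fr g →* DihedralGroup 3, (∀ x, cb_sg (Ψ (FreeGroup.of x)) = v x) ∧
      Ψ (relPre g g) ≠ 1 := by
  obtain ⟨k, b⟩ := x₀
  refine ⟨FreeGroup.lift fun x => if x = (k, !b) then cb_P (v x) * DihedralGroup.r 1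
    else cb_P (v x), fun x => ?_, ?_⟩
  · rw [FreeGroup.lift_apply_of]
    split_ifs
    · exact (cb_sgP _).2
    · exact (cb_sgP _).1
  · have e : (List.finRange g).take g = List.finRange g :=
      List.take_of_length_le (by simp)
    rw [relPre, e, map_list_prod, List.map_map,
      List.prod_map_eq_pow_single k, List.count_finRange, pow_one]
    · simp only [Function.comp, comm, map_mul, map_inv, FreeGroup.lift_apply_of]
      cases b
      · rw [if_neg (by simp), if_pos (by simp)]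
        exact (cb_comm2 _ _ h0).1
      · rw [if_pos (by simp), if_neg (by simp)]
        exact (cb_comm2 _ _ h0).2
    · intro j hj _
      simp only [Function.comp, comm, map_mul, map_inv, FreeGroup.lift_apply_of]
      rw [if_neg (by simp [hj]), if_neg (by simp [hj])]
      exact cb_comm1 _ _

theorem cb_const {ε : Dt g → ZMod 2} (hε : ∀ d, ε (rev d) = ε d) (U : List (Dt g)) :
    ∀ c c', Walk ε 0 c U c' → ∀ d ∈ U, ε d = c := by
  induction U with
  | nil => intro _ _ _ d hd; simp at hd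
  | cons a U ih =>
    intro c c' h d hd
    obtain ⟨h1, h2⟩ := h
    rw [Pi.zero_apply, add_zero, hε, h1] at h2
    rcases List.mem_cons.1 hd with rfl | hd
    · exact h1
    · exact ih _ _ h2 d hd

/- Paper C2 (homomorphisms to the symmetric group on three points). -/
theorem oneV {w : List (Dt g)} (hF : Full w) (hS : Surf w) : OneV w := by
  intro ε c h d
  obtain ⟨α, hα⟩ := hS
  let u : Fr g →* Multiplicative (ZMod 2) :=
    FreeGroup.lift fun x => Multiplicative.ofAdd (ε (x, true) + ε (x, false))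
  have hu : ∀ x, u (α.symm (FreeGroup.of x)) = 1 := by
    intro x₀
    by_contra h0
    obtain ⟨Ψ, h1, h2⟩ := cb_psi (fun x => (u (α.symm (FreeGroup.of x))).toAdd) x₀ h0
    have h3 : cb_sgn.comp Ψ = u.comp α.symm.toMonoidHom :=
      FreeGroup.ext_hom _ _ fun x => congrArg Multiplicative.ofAdd (h1 x)
    have h4 := cb_one hF (Ψ.comp α.toMonoidHom) h fun x => by
      have h5 : cb_sgn (Ψ (α (FreeGroup.of x))) = u (α.symm (α (FreeGroup.of x))) :=
        DFunLike.congr_fun h3 (α (FreeGroup.of x))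
      rw [MulEquiv.symm_apply_apply, FreeGroup.lift_apply_of] at h5
      exact congrArg Multiplicative.toAdd h5
    have h6 := Ψ.map_isConj hα
    have h7 : Ψ (α (FreeGroup.mk w)) = 1 := h4
    rw [h7, isConj_one_right] at h6
    exact h2 h6
  have hu2 : u.comp α.symm.toMonoidHom = 1 := FreeGroup.ext_hom _ _ hu
  have hε : ∀ x, ε (x, true) = ε (x, false) := by
    intro x
    have h5 : u (α.symm (α (FreeGroup.of x))) = 1 := DFunLike.congr_fun hu2 (α (FreeGroup.of x))
    rw [MulEquiv.symm_apply_apply, FreeGroup.lift_apply_of] at h5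
    have h6 : ε (x, true) + ε (x, false) = 0 := congrArg Multiplicative.toAdd h5
    have h7 : ∀ a b : ZMod 2, a + b = 0 → a = b := by decide
    exact h7 _ _ h6
  refine cb_const (fun d => ?_) w c c h d (hF.2 d)
  obtain ⟨x, _ | _⟩ := d
  · exact hε x
  · exact (hε x).symm

theorem not_sp_inner {C A B : List (Dt g)} {s : Dt g} (hF : Full (C ++ s :: (A ++ rev s :: B)))
    (hS : Surf (C ++ s :: (A ++ rev s :: B))) : ¬ SP A := by
  intro hA
  have hn := hF.1
  simp only [List.nodup_append, List.nodup_cons, List.mem_cons, List.mem_append, not_or] at hn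
  obtain ⟨-, ⟨⟨n1, -, n2⟩, -, ⟨n3, -⟩, n4⟩, n5⟩ := hn
  let ε : Dt g → ZMod 2 := fun d => if d ∈ A ∨ d = rev s then 1 else 0
  have out : ∀ d, d ∉ A → d ≠ s → d ≠ rev s → ε d = 0 ∧ ε (rev d) = 0 := by
    intro d h1 h2 h3
    refine ⟨if_neg (by simp [h1, h3]), if_neg ?_⟩
    rintro (h4 | h4)
    · have := hA _ h4
      rw [rev_rev] at this
      exact h1 this
    · have := congrArg rev h4
      rw [rev_rev, rev_rev] at this
      exact h2 this
  have e1 : ε s = 0 := if_neg (by simp [n1, (rev_ne s).symm])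
  have e2 : ε (rev s) = 1 := if_pos (Or.inr rfl)
  have hw : Walk ε 0 0 (C ++ s :: (A ++ rev s :: B)) 0 := by
    refine walk_append.2 ⟨0, walk_const fun d hd => out d ?_ ?_ ?_, e1, ?_⟩
    · exact fun h => n5 d hd d (Or.inr (Or.inl h)) rfl
    · exact n5 d hd s (Or.inl rfl)
    · exact n5 d hd (rev s) (Or.inr (Or.inr (Or.inl rfl)))
    rw [e2, Pi.zero_apply, add_zero]
    refine walk_append.2 ⟨1, walk_const fun d hd =>
      ⟨if_pos (Or.inl hd), if_pos (Or.inl (hA d hd))⟩, e2, ?_⟩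
    rw [rev_rev, e1, Pi.zero_apply, add_zero]
    refine walk_const fun d hd => out d ?_ ?_ ?_
    · exact fun h => n4 d h d (Or.inr hd) rfl
    · rintro rfl; exact n2 hd
    · rintro rfl; exact n3 hd
  have := oneV hF hS ε 0 hw (rev s)
  rw [e2] at this
  exact absurd this (by decide)

end Pool.Agent.MP_596265_gt

end

-- part CC
section

namespace Pool.Agent.MP_596265_gt

open scoped UpperHalfPlane
open Real

variable {g : ℕ}

theorem cc_iter {ε J : Dt g → ZMod 2} (σ : Dt g → Dt g)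
    (h : ∀ d, ε (σ d) = ε (rev d) + J d) :
    ∀ (n : ℕ) (x : Dt g), Walk ε J (ε x) (List.iterate σ x n) (ε (σ^[n] x))
  | 0, _ => rfl
  | n + 1, x => by
    refine ⟨rfl, ?_⟩
    rw [← h x]
    exact cc_iter σ h n (σ x)

theorem cc_succ {x : Dt g} {U : List (Dt g)} (hn : (x :: U).Nodup) :
    ∃ σ : Equiv.Perm (Dt g), ∀ ε J : Dt g → ZMod 2, (∀ d, ε (σ d) = ε (rev d) + J d) →
      Walk ε J (ε x) (x :: U) (ε x) := by
  refine ⟨(x :: U).formPerm, fun ε J h => ?_⟩
  have h1 := cc_iter (x :: U).formPerm h (x :: U).length x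
  have h2 : List.iterate (x :: U).formPerm x (x :: U).length = x :: U := by
    refine List.ext_getElem (List.length_iterate _ _ _) fun i hi hi' => ?_
    rw [List.getElem_iterate, Equiv.Perm.iterate_eq_pow, List.formPerm_pow_apply_head _ _ hn]
    simp only [Nat.mod_eq_of_lt hi']
  rw [h2, Equiv.Perm.iterate_eq_pow, List.formPerm_pow_length_eq_one_of_nodup _ hn] at h1
  exact h1

theorem cc_sum_rev {A : Type} [AddCommMonoid A] (ψ : Dt g → A) :
    ∑ d, ψ (rev d) = ∑ d, ψ d := Equiv.sum_comp (revP (Gen g)) ψ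

/- Paper C3 (rank-nullity; `List.formPerm` or `List.next` gives the successor). -/
theorem exists_walk {w : List (Dt g)} (hF : Full w) (h1 : OneV w) (J : Dt g → ZMod 2)
    (hJ : ∑ d, J d = 0) : ∃ ε c, Walk ε J c w c := by
  cases w with
  | nil => exact ⟨0, 0, rfl⟩
  | cons x U =>
    obtain ⟨σ, hσ⟩ := cc_succ hF.1
    let T : (Dt g → ZMod 2) → (Dt g → ZMod 2) :=
      fun ε d => ε (σ d) - ε (rev d) + if d = x then ε x else 0
    have hs : ∀ ε, ∑ d, T ε d = ε x := by
      intro ε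
      simp only [T, Finset.sum_add_distrib, Finset.sum_sub_distrib]
      rw [Equiv.sum_comp σ ε, cc_sum_rev ε]
      simp only [sub_self, Finset.sum_ite_eq', Finset.mem_univ, ↓ reduceIte, zero_add]
    have hw : ∀ ε K, T ε = K → ∑ d, K d = 0 → ε x = 0 ∧ Walk ε K (ε x) (x :: U) (ε x) := by
      intro ε K hT hK
      have h0 : ε x = 0 := by rw [← hs ε, hT, hK]
      refine ⟨h0, hσ ε K fun d => ?_⟩
      have := congrFun hT d
      simp only [T, h0, ite_self, add_zero] at this
      rw [← this]; ring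
    have hi : Function.Injective T := by
      intro ε η he
      have h0 : T (ε - η) = 0 := by
        funext d
        have := congrFun he d
        simp only [T, Pi.sub_apply, Pi.zero_apply] at this ⊢
        by_cases hd : d = x
        · simp only [hd, if_true] at this ⊢
          linear_combination this
        · simp only [hd, if_false] at this ⊢
          linear_combination this
      obtain ⟨h2, h3⟩ := hw _ _ h0 (by simp only [Pi.zero_apply, Finset.sum_const_zero])
      funext d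
      have := h1 _ _ h3 d
      rw [h2] at this
      exact sub_eq_zero.1 this
    obtain ⟨ε, hε⟩ := Finite.injective_iff_surjective.1 hi J
    exact ⟨ε, ε x, (hw ε J hε hJ).2⟩

theorem cc_sum_pair {A : Type} [AddCommMonoid A] (a : Dt g) (ψ : Dt g → A)
    (h : ∀ d, d.1 ≠ a.1 → ψ d = 0) : ∑ d, ψ d = ψ a + ψ (rev a) := by
  rw [← Finset.sum_pair (rev_ne a).symm]
  refine (Finset.sum_subset (Finset.subset_univ _) fun d _ hd => h d fun e => hd ?_).symm
  rcases eq_or_rev e with e | e <;> simp [e]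

theorem exists_cut {w : List (Dt g)} (hF : Full w) (h1 : OneV w) (a : Dt g) :
    ∃ ε, Cut w a ε := by
  have hJ : ∑ d, Ja a d = 0 := by
    rw [cc_sum_pair a (Ja a) fun d hd => if_neg hd]
    simp only [Ja, rev_fst, if_true]
    rfl
  obtain ⟨ε, c, h⟩ := exists_walk hF h1 (Ja a) hJ
  have h2 : Walk (fun _ : Dt g => -ε a) 0 (-ε a) w (-ε a) := walk_const fun _ _ => ⟨rfl, rfl⟩
  exact ⟨fun d => ε d + -ε a, add_neg_cancel _, c + -ε a,
    walk_congr (fun d _ => add_zero _) (walk_add h h2)⟩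

theorem Cut.rev_eq {w : List (Dt g)} (hF : Full w) {a : Dt g} {ε : Dt g → ZMod 2}
    (h : Cut w a ε) : ε (rev a) = 1 := by
  obtain ⟨h0, c, h⟩ := h
  have h1 := walk_count (fun t : ZMod 2 => (t.val : ℤ)) h
  rw [hF.sum, hF.sum, add_comm, add_right_inj,
    ← cc_sum_rev fun d => ((ε d).val : ℤ), ← sub_eq_zero, ← Finset.sum_sub_distrib,
    cc_sum_pair a _ fun d hd => by simp [Ja, hd]] at h1
  simp only [Ja, rev_fst, if_true, rev_rev, h0] at h1
  revert h1
  generalize ε (rev a) = t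
  revert t
  decide

theorem cc_smul {ε J : Dt g → ZMod 2} (t : ZMod 2) : ∀ {U : List (Dt g)} {c c' : ZMod 2},
    Walk ε J c U c' → Walk (fun d => t * ε d) (fun d => t * J d) (t * c) U (t * c')
  | [], _, _, h => congrArg (t * ·) h
  | d :: U, _, _, h => ⟨congrArg (t * ·) h.1, by
      have := cc_smul t h.2
      rwa [mul_add] at this⟩

theorem cc_sum {ι : Type} {w : List (Dt g)} {ε J : ι → Dt g → ZMod 2} {c : ι → ZMod 2}
    (h : ∀ i, Walk (ε i) (J i) (c i) w (c i)) (s : Finset ι) :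
    Walk (fun d => ∑ i ∈ s, ε i d) (fun d => ∑ i ∈ s, J i d) (∑ i ∈ s, c i) w (∑ i ∈ s, c i) := by
  classical
  induction s using Finset.induction_on with
  | empty =>
    simp only [Finset.sum_empty]
    exact walk_const fun _ _ => ⟨rfl, rfl⟩
  | insert i s hi ih =>
    simp only [Finset.sum_insert hi]
    exact walk_add (h i) ih

theorem cc_flat {ε J : Dt g → ZMod 2} (h : ∀ d, ε (rev d) + J d = ε d) :
    ∀ {U : List (Dt g)} {c c' : ZMod 2}, Walk ε J c U c' → ∀ d ∈ U, ε d = c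
  | [], _, _, _, _, hd => absurd hd List.not_mem_nil
  | e :: U, _, _, hw, d, hd => by
    rcases List.mem_cons.1 hd with rfl | hd
    · exact hw.1
    · rw [cc_flat h hw.2 d hd, h, hw.1]

theorem cc_flip {ε J : Dt g → ZMod 2} {x : Gen g} (hJ : J (x, false) = J (x, true))
    (h : ε (x, true) + ε (x, false) = J (x, true)) (b : Bool) :
    ε (rev (x, b)) + J (x, b) = ε (x, b) := by
  have h2 : ∀ p q r : ZMod 2, p + q = r → p + r = q ∧ q + r = p := by decide
  cases b
  · rw [hJ]; exact (h2 _ _ _ h).1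
  · exact (h2 _ _ _ h).2

/- Paper C8. -/
theorem iso_card {w : List (Dt g)} (hF : Full w) (h1 : OneV w) (S : Finset (Gen g))
    (h : ∀ a ∈ S, ∀ b ∈ S, ¬ Cross w (a, true) (b, true)) : S.card ≤ g := by
  choose ε hε using fun s : S => exists_cut hF h1 (s.1, true)
  choose c hc using fun s : S => (hε s).2
  have hin : ∀ s x : S, ε s (x.1, true) + ε s (x.1, false) = Ja (s.1, true) (x.1, true) := by
    intro s x
    by_cases e : x.1 = s.1
    · have h2 : ε s (s.1, false) = 1 := (hε s).rev_eq hF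
      rw [e, (hε s).1, h2]
      simp [Ja]
    · have h2 : ε s (x.1, true) = ε s (x.1, false) := by
        by_contra h3
        exact h _ s.2 _ x.2 ⟨e, ε s, hε s, h3⟩
      rw [h2, CharTwo.add_self_eq_zero]
      simp [Ja, e]
  let Φ : (S → ZMod 2) → ((Sᶜ : Finset (Gen g)) → ZMod 2) :=
    fun l x => ∑ s, l s * (ε s (x.1, true) + ε s (x.1, false))
  have hi : Function.Injective Φ := by
    intro l m hlm
    have hw := cc_sum (fun s => cc_smul (l s - m s) (hc s)) Finset.univ
    have hf : ∀ d, (∑ s, (l s - m s) * ε s (rev d)) + ∑ s, (l s - m s) * Ja (s.1, true) d =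
        ∑ s, (l s - m s) * ε s d := by
      rintro ⟨x, b⟩
      refine cc_flip (ε := fun d => ∑ s, (l s - m s) * ε s d)
        (J := fun d => ∑ s : S, (l s - m s) * Ja (s.1, true) d) rfl ?_ b
      simp only [← Finset.sum_add_distrib, ← mul_add]
      by_cases hx : x ∈ S
      · exact Finset.sum_congr rfl fun s _ => by rw [hin s ⟨x, hx⟩]
      · have h3 := congrFun hlm ⟨x, Finset.mem_compl.2 hx⟩
        simp only [Φ] at h3
        simp only [sub_mul, Finset.sum_sub_distrib, h3, sub_self]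
        have h4 : ∀ s : S, Ja (s.1, true) (x, true) = 0 := fun s =>
          if_neg fun e : x = s.1 => hx (e ▸ s.2)
        simp only [Finset.univ_eq_attach, h4, mul_zero, Finset.sum_const_zero, sub_self]
    have hk := fun d => cc_flat hf hw d (hF.2 d)
    funext s
    have h5 := hf (s.1, true)
    simp only [hk] at h5
    have h6 := left_eq_add.1 h5.symm
    rw [Finset.sum_eq_single s (fun t _ ht => by
      rw [Ja, if_neg fun e : s.1 = t.1 => ht (Subtype.ext e.symm), mul_zero]) (by simp only [Finset.univ_eq_attach, Finset.mem_attach, not_true_eq_false, mul_eq_zero, IsEmpty.forall_iff])] at h6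
    simpa [Ja, sub_eq_zero] using h6
  have h7 := Fintype.card_le_of_injective Φ hi
  simp only [Fintype.card_fun, ZMod.card, Fintype.card_coe] at h7
  have h8 := (Nat.pow_le_pow_iff_right (by norm_num)).1 h7
  have h9 := Finset.card_add_card_compl S
  simp only [Fintype.card_prod, Fintype.card_fin, Fintype.card_bool] at h9
  omega

end Pool.Agent.MP_596265_gt

end

-- part CD
section

namespace Pool.Agent.MP_596265_gt

open scoped UpperHalfPlane
open Real

variable {g : ℕ}

theorem cd_last {ε J : Dt g → ZMod 2} {c c' : ZMod 2} {U : List (Dt g)} {b : Dt g}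
    (h0 : ∀ d ∈ U, J d = 0) (h1 : J b = 1) (h : Walk ε J c (U ++ [b]) c') :
    Walk ε 0 c (U ++ [b]) (c' + 1) := by
  obtain ⟨c₁, hU, hb, he⟩ := walk_append.mp h
  refine walk_append.mpr ⟨c₁, walk_congr (fun d hd => h0 d hd) hU, hb, ?_⟩
  have he' : ε (rev b) + J b = c' := he
  show ε (rev b) + 0 = c' + 1
  rw [← he', h1, add_zero, add_assoc, show (1 : ZMod 2) + 1 = 0 from rfl, add_zero]

theorem cd_colour {X V₁ V₂ : List (Dt g)} {a b : Dt g} (hF : Full (X ++ [a] ++ (V₁ ++ [b]) ++ V₂))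
    (hS : Surf (X ++ [a] ++ (V₁ ++ [b]) ++ V₂)) (hX : SP (X ++ [a])) :
    ∃ (ε : Dt g → ZMod 2) (c : ZMod 2), Walk ε 0 (c + 1) (V₁ ++ [b]) (c + 1) ∧ Walk ε 0 c V₂ c := by
  classical
  have hn := hF.1
  have hn' : (X ++ [a] ++ (V₁ ++ [b] ++ V₂)).Nodup := by simpa only [List.append_assoc] using hn
  have hV : SP (V₁ ++ [b] ++ V₂) :=
    SP.compl hn' (by simpa only [List.append_assoc] using hF.sp) hX
  have hnV := (List.nodup_append.mp hn').2.1
  have hnX := (List.nodup_append.mp hn').1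
  have hd := (List.nodup_append.mp hn').2.2
  have haX : a ∉ X := fun h => (List.nodup_append.mp hnX).2.2 a h a (by simp) rfl
  have hbX : b ∉ X := fun h => hd b (by simp [h]) b (by simp) rfl
  have hab : a ≠ b := hd a (by simp) b (by simp)
  have ha1 : a ∉ V₁ := fun h => hd a (by simp) a (by simp [h]) rfl
  have ha2 : a ∉ V₂ := fun h => hd a (by simp) a (by simp [h]) rfl
  have hb1 : b ∉ V₁ := fun h =>
    (List.nodup_append.mp (List.nodup_append.mp hnV).1).2.2 b h b (by simp) rfl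
  have hb2 : b ∉ V₂ := fun h => (List.nodup_append.mp hnV).2.2 b (by simp) b h rfl
  let J : Dt g → ZMod 2 := fun d => (if d = a then 1 else 0) + (if d = b then 1 else 0)
  have hJ0 : ∀ U : List (Dt g), a ∉ U → b ∉ U → ∀ d ∈ U, J d = 0 := by
    intro U h1 h2 d hd
    have e1 : d ≠ a := fun e => h1 (e ▸ hd)
    have e2 : d ≠ b := fun e => h2 (e ▸ hd)
    simp [J, e1, e2]
  have hJa : J a = 1 := by simp [J, hab]
  have hJb : J b = 1 := by simp [J, hab.symm]
  have hJ : ∑ d, J d = 0 := by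
    simp only [J, Finset.sum_add_distrib, Finset.sum_ite_eq', Finset.mem_univ, if_true]
    rfl
  obtain ⟨ε, c, hw⟩ := exists_walk hF (oneV hF hS) J hJ
  obtain ⟨c₂, hw', h3⟩ := walk_append.mp hw
  obtain ⟨c₁, h1, h2⟩ := walk_append.mp hw'
  have k1 := cd_last (hJ0 X haX hbX) hJa h1
  have k2 := cd_last (hJ0 V₁ ha1 hb1) hJb h2
  have k3 : Walk ε 0 c₂ V₂ c := walk_congr (fun d hd => hJ0 V₂ ha2 hb2 d hd) h3
  have e1 : c₁ = c + 1 := by
    have t := walk_count (fun x : ZMod 2 => x) k1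
    simp only [Pi.zero_apply, add_zero] at t
    rw [sum_rev hnX hX ε, add_comm c] at t
    have t' : c₁ + 1 = c := add_left_cancel t
    rw [← t', add_assoc, show (1 : ZMod 2) + 1 = 0 from rfl, add_zero]
  subst e1
  have e2 : c₂ = c := by
    let φ : ZMod 2 → ℤ := fun x => if x = c then 0 else 1
    have t2 := walk_count φ k2
    have t3 := walk_count φ k3
    have t := sum_rev hnV hV fun d => φ (ε d)
    simp only [Pi.zero_apply, add_zero] at t2 t3
    rw [List.map_append, List.map_append (l₂ := V₂), List.sum_append, List.sum_append] at t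
    have p0 : φ c = 0 := by simp [φ]
    have p1 : φ (c + 1) = 1 := by simp only [φ, add_eq_left, one_ne_zero, ↓ reduceIte]
    have p2 : φ (c₂ + 1) ≤ 1 := by
      simp only [φ]
      split_ifs <;> norm_num
    by_contra hne
    have p3 : φ c₂ = 1 := by simp [φ, hne]
    omega
  subst e2
  exact ⟨ε, c₂, k2, k3⟩

/- Paper C4. -/
theorem exists_hole {X V₁ V₂ : List (Dt g)} (hF : Full (X ++ V₁ ++ V₂))
    (hS : Surf (X ++ V₁ ++ V₂)) (hX : SP X) :
    ∃ β : Fr g ≃* Fr g, β (FreeGroup.mk (V₁ ++ X ++ V₂)) = FreeGroup.mk (X ++ V₁ ++ V₂) ∧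
      ∀ x, ∃ u v : Fr g, (u = 1 ∨ u = FreeGroup.mk X) ∧ (v = 1 ∨ v = FreeGroup.mk X) ∧
        β (FreeGroup.of x) = u * FreeGroup.of x * v⁻¹ := by
  classical
  rcases List.eq_nil_or_concat' X with rfl | ⟨X', a, hXa⟩
  · exact ⟨MulEquiv.refl _, by simp, fun x => ⟨1, 1, Or.inl rfl, Or.inl rfl, by simp⟩⟩
  rcases List.eq_nil_or_concat' V₁ with rfl | ⟨V', b, hVb⟩
  · exact ⟨MulEquiv.refl _, by simp, fun x => ⟨1, 1, Or.inl rfl, Or.inl rfl, by simp⟩⟩
  obtain ⟨ε, c, k1, k2⟩ := cd_colour (X := X') (V₁ := V') (V₂ := V₂) (a := a) (b := b)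
    (hXa ▸ hVb ▸ hF) (hXa ▸ hVb ▸ hS) (hXa ▸ hX)
  rw [← hVb] at k1
  have hn : (X ++ (V₁ ++ V₂)).Nodup := by simpa only [List.append_assoc] using hF.1
  let S : Set (Gen g) := {x | ∃ d ∈ V₁ ++ V₂, d.1 = x}
  have hXS : FreeGroup.mk X ∈ Out S := by
    refine mk_mem_out S X fun d hd => ?_
    rintro ⟨d', hd', e⟩
    rcases eq_or_rev e with e' | e'
    · exact (List.nodup_append.mp hn).2.2 d hd d' hd' e'.symm
    · exact (List.nodup_append.mp hn).2.2 (rev d) (hX d hd) d' hd' e'.symm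
  let P : ZMod 2 → Fr g := fun x => if x = c then 1 else FreeGroup.mk X
  have hP : ∀ x, P x = 1 ∨ P x = FreeGroup.mk X := fun x => by
    simp only [P]
    split_ifs
    · exact Or.inl rfl
    · exact Or.inr rfl
  have hPo : ∀ d, P (ε d) ∈ Out S := fun d => by
    rcases hP (ε d) with e | e <;> rw [e]
    · exact Subgroup.one_mem _
    · exact hXS
  obtain ⟨γ, h1, h2⟩ := exists_gauge S (fun d => P (ε d)) hPo
  have p0 : P c = 1 := by simp [P]
  have p1 : P (c + 1) = FreeGroup.mk X := by simp only [P, add_eq_left, one_ne_zero, ↓ reduceIte]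
  have g1 := gauge_walk γ ε P (fun d hd => h1 d ⟨d, List.mem_append_left _ hd, rfl⟩) k1
  have g2 := gauge_walk γ ε P (fun d hd => h1 d ⟨d, List.mem_append_right _ hd, rfl⟩) k2
  refine ⟨γ, ?_, fun x => ?_⟩
  · rw [mk_append, mk_append, mk_append, mk_append, map_mul, map_mul, g1, g2, h2 _ hXS, p0, p1]
    group
  · by_cases hx : x ∈ S
    · refine ⟨_, _, hP (ε (x, true)), hP (ε (rev (x, true))), ?_⟩
      have := h1 (x, true) hx
      rwa [mk_true] at this
    · refine ⟨1, 1, Or.inl rfl, Or.inl rfl, ?_⟩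
      rw [h2 _ (Subgroup.subset_closure ⟨x, hx, rfl⟩), one_mul, inv_one, mul_one]

end Pool.Agent.MP_596265_gt

end

-- part CE
section

namespace Pool.Agent.MP_596265_gt

open scoped UpperHalfPlane
open Real

variable {g : ℕ}

theorem ce_fst {a d : Dt g} {L : List (Dt g)} (ha : a ∉ L) (hr : rev a ∉ L) (hd : d ∈ L) :
    d.1 ≠ a.1 := by
  intro h
  rcases eq_or_rev h with rfl | rfl
  exacts [ha hd, hr hd]

theorem ce_fix (β : Fr g ≃* Fr g) (d : Dt g) (h : β (FreeGroup.of d.1) = FreeGroup.of d.1) :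
    β (FreeGroup.mk [d]) = FreeGroup.mk [d] := by
  obtain ⟨x, b⟩ := d
  cases b
  · have e : ((x, false) : Dt g) = rev (x, true) := rfl
    rw [e, mk_rev, map_inv, mk_true, h]
  · rw [mk_true]; exact h

theorem ce_four (a b : Dt g) : FreeGroup.mk [a, b, rev a, rev b] =
    FreeGroup.mk [a] * FreeGroup.mk [b] * (FreeGroup.mk [a])⁻¹ * (FreeGroup.mk [b])⁻¹ := by
  rw [mk_cons a, mk_cons b, mk_cons (rev a), mk_rev, mk_rev]
  group

/-- One handle is split off by a gauge automorphism. -/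
theorem ce_step (a b : Dt g) (U Y Z : List (Dt g)) (hab : b.1 ≠ a.1)
    (hU : ∀ d ∈ U, d.1 ≠ a.1 ∧ d.1 ≠ b.1) (hY : ∀ d ∈ Y, d.1 ≠ a.1 ∧ d.1 ≠ b.1)
    (hZ : ∀ d ∈ Z, d.1 ≠ a.1 ∧ d.1 ≠ b.1) :
    ∃ γ : Fr g ≃* Fr g,
      (∀ L : List (Dt g), (∀ d ∈ L, d.1 ≠ a.1 ∧ d.1 ≠ b.1) →
        γ (FreeGroup.mk L) = FreeGroup.mk L) ∧
      γ (FreeGroup.mk [a, b, rev a, rev b]) *
          (FreeGroup.mk Z * FreeGroup.mk Y * FreeGroup.mk U) =
        FreeGroup.mk [a] * FreeGroup.mk U * FreeGroup.mk [b] * FreeGroup.mk Y *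
          (FreeGroup.mk [a])⁻¹ * FreeGroup.mk Z * (FreeGroup.mk [b])⁻¹ := by
  have hout : ∀ L : List (Dt g), (∀ d ∈ L, d.1 ≠ a.1 ∧ d.1 ≠ b.1) →
      FreeGroup.mk L ∈ Out ({a.1, b.1} : Set (Gen g)) := by
    intro L hL
    refine mk_mem_out _ L fun d hd hm => ?_
    rcases hm with hm | hm
    exacts [(hL d hd).1 hm, (hL d hd).2 hm]
  let p : Dt g → Fr g := fun d =>
    if d = rev a then FreeGroup.mk Z * FreeGroup.mk Y
    else if d = b then FreeGroup.mk Z * FreeGroup.mk Y * FreeGroup.mk U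
    else if d = rev b then FreeGroup.mk Z else 1
  have hp : ∀ d, p d ∈ Out ({a.1, b.1} : Set (Gen g)) := by
    intro d
    simp only [p]
    split_ifs
    · exact mul_mem (hout Z hZ) (hout Y hY)
    · exact mul_mem (mul_mem (hout Z hZ) (hout Y hY)) (hout U hU)
    · exact hout Z hZ
    · exact one_mem _
  obtain ⟨γ, h1, h2⟩ := exists_gauge _ p hp
  have n1 : a ≠ rev a := (rev_ne a).symm
  have n2 : a ≠ b := fun h => hab (by rw [h])
  have n3 : a ≠ rev b := fun h => hab (by rw [h, rev_fst])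
  have n4 : b ≠ rev a := fun h => hab (by rw [h, rev_fst])
  have n5 : rev b ≠ rev a := fun h => hab (by rw [← rev_fst b, h, rev_fst])
  have n6 : rev b ≠ b := rev_ne b
  have pa : p a = 1 := by simp only [p, if_neg n1, if_neg n2, if_neg n3]
  have pa' : p (rev a) = FreeGroup.mk Z * FreeGroup.mk Y := by simp only [p, if_true]
  have pb : p b = FreeGroup.mk Z * FreeGroup.mk Y * FreeGroup.mk U := by
    simp only [p, if_neg n4, if_true]
  have pb' : p (rev b) = FreeGroup.mk Z := by simp only [p, if_neg n5, if_neg n6, if_true]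
  have ga := h1 a (Or.inl rfl)
  have gb := h1 b (Or.inr rfl)
  rw [pa, pa'] at ga
  rw [pb, pb'] at gb
  refine ⟨γ, fun L hL => h2 _ (hout L hL), ?_⟩
  rw [ce_four, map_mul, map_mul, map_mul, map_inv, map_inv, ga, gb]
  group

/-- A nonempty self-paired subword contains two linked pairs. -/
theorem ce_split (C V W : List (Dt g)) (hF : Full (C ++ V ++ W)) (hS : Surf (C ++ V ++ W))
    (hV : SP V) (hne : V ≠ []) : ∃ (a b : Dt g) (U Y Z T : List (Dt g)),
      V = a :: (U ++ b :: (Y ++ rev a :: (Z ++ rev b :: T))) := by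
  obtain ⟨a, V', rfl⟩ := List.exists_cons_of_ne_nil hne
  have h1 : rev a ∈ V' := by
    rcases List.mem_cons.1 (hV a List.mem_cons_self) with h | h
    exacts [absurd h (rev_ne a), h]
  obtain ⟨A, B, rfl⟩ := List.append_of_mem h1
  have e : C ++ a :: (A ++ rev a :: B) ++ W = C ++ a :: (A ++ rev a :: (B ++ W)) := by simp
  have hn : (a :: (A ++ rev a :: B)).Nodup :=
    (List.Nodup.of_append_left hF.1).of_append_right
  rw [e] at hF hS
  have h2 := not_sp_inner hF hS
  simp only [SP, not_forall] at h2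
  obtain ⟨b, hb, hb'⟩ := h2
  have hbV : rev b ∈ a :: (A ++ rev a :: B) := hV b (by simp [hb])
  have haA : a ∉ A := fun h => (List.nodup_cons.1 hn).1 (by simp [h])
  have hrA : rev a ∉ A := fun h =>
    (List.nodup_append.1 (List.nodup_cons.1 hn).2).2.2 _ h _ List.mem_cons_self rfl
  have hba : b.1 ≠ a.1 := ce_fst haA hrA hb
  have hB : rev b ∈ B := by
    simp only [List.mem_cons, List.mem_append] at hbV
    rcases hbV with h | h | h | h
    · exact absurd (by rw [← h, rev_fst]) hba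
    · exact absurd h hb'
    · exact absurd (by rw [← rev_fst b, h, rev_fst]) hba
    · exact h
  obtain ⟨U, Y, rfl⟩ := List.append_of_mem hb
  obtain ⟨Z, T, rfl⟩ := List.append_of_mem hB
  exact ⟨a, b, U, Y, Z, T, by simp⟩

theorem ce_aux (n : ℕ) : ∀ (C V W : List (Dt g)), V.length ≤ n → Full (C ++ V ++ W) →
    Surf (C ++ V ++ W) → SP V →
    ∃ (cs : List (Dt g × Dt g)) (β : Fr g ≃* Fr g), (cw cs).Perm V ∧
      β (FreeGroup.mk (cw cs)) = FreeGroup.mk V ∧
      ∀ x, (x, true) ∉ V → β (FreeGroup.of x) = FreeGroup.of x := by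
  induction n with
  | zero =>
    intro C V W hl _ _ _
    obtain rfl : V = [] := List.eq_nil_of_length_eq_zero (Nat.le_zero.1 hl)
    exact ⟨[], MulEquiv.refl _, by simp [cw], by simp [cw], fun _ _ => rfl⟩
  | succ n ih =>
    intro C V W hl hF hS hV
    by_cases hne : V = []
    · subst hne
      exact ⟨[], MulEquiv.refl _, by simp [cw], by simp [cw], fun _ _ => rfl⟩
    obtain ⟨a, b, U, Y, Z, T, hVe⟩ := ce_split C V W hF hS hV hne
    have hperm : V.Perm ([a, b, rev a, rev b] ++ (Z ++ Y ++ U ++ T)) := by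
      rw [hVe, List.perm_iff_count]
      intro d
      simp only [List.count_cons, List.count_append, List.count_nil]
      omega
    have hperm2 : (C ++ V ++ W).Perm
        ([a, b, rev a, rev b] ++ (C ++ (Z ++ Y ++ U ++ T) ++ W)) := by
      rw [List.perm_iff_count]
      intro d
      have := hperm.count_eq d
      simp only [List.count_append] at this ⊢
      omega
    have hperm3 : (C ++ V ++ W).Perm
        (C ++ [a, b, rev a, rev b] ++ (Z ++ Y ++ U ++ T) ++ W) := by
      rw [List.append_assoc C [a, b, rev a, rev b]]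
      exact ((hperm.append_left C).append_right W)
    have hn := List.nodup_append.1 (hF.perm hperm2).1
    have hout : ∀ d ∈ C ++ (Z ++ Y ++ U ++ T) ++ W, d.1 ≠ a.1 ∧ d.1 ≠ b.1 := fun d hd =>
      ⟨ce_fst (fun h => hn.2.2 a (by simp) a h rfl)
          (fun h => hn.2.2 (rev a) (by simp) _ h rfl) hd,
        ce_fst (fun h => hn.2.2 b (by simp) b h rfl)
          (fun h => hn.2.2 (rev b) (by simp) _ h rfl) hd⟩
    have hab : b.1 ≠ a.1 := by
      intro h
      have h4 := hn.1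
      rcases eq_or_rev h with h | h <;> simp [h] at h4
    obtain ⟨γ, hγ1, hγ2⟩ := ce_step a b U Y Z hab (fun d hd => hout d (by simp [hd]))
      (fun d hd => hout d (by simp [hd])) (fun d hd => hout d (by simp [hd]))
    have hV' : ∀ d ∈ Z ++ Y ++ U ++ T, d.1 ≠ a.1 ∧ d.1 ≠ b.1 := fun d hd =>
      hout d (List.mem_append_left _ (List.mem_append_right _ hd))
    have key : γ (FreeGroup.mk [a, b, rev a, rev b]) * FreeGroup.mk (Z ++ Y ++ U ++ T) =
        FreeGroup.mk V := by
      rw [hVe, mk_append, mk_append, mk_append, ← mul_assoc, hγ2, mk_cons a (_ ++ _), mk_append,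
        mk_cons b (_ ++ _), mk_append, mk_cons (rev a) (_ ++ _), mk_append, mk_cons (rev b) T,
        mk_rev, mk_rev]
      group
    have hF' := hF.perm hperm3
    have hS' : Surf (C ++ [a, b, rev a, rev b] ++ (Z ++ Y ++ U ++ T) ++ W) := by
      refine hS.of_conj γ ?_
      rw [mk_append, mk_append, mk_append C, map_mul, map_mul, map_mul,
        hγ1 C (fun d hd => hout d (by simp [hd])), hγ1 W (fun d hd => hout d (by simp [hd])),
        hγ1 _ hV', mul_assoc (FreeGroup.mk C), key, mk_append, mk_append]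
    have hsp4 : SP [a, b, rev a, rev b] := by
      intro d hd
      simp only [List.mem_cons, List.not_mem_nil, or_false] at hd
      rcases hd with rfl | rfl | rfl | rfl <;> simp
    have hnV : V.Nodup := (List.Nodup.of_append_left hF.1).of_append_right
    have hsp : SP (Z ++ Y ++ U ++ T) :=
      SP.compl (hperm.nodup_iff.1 hnV) (hV.perm hperm) hsp4
    have hl' : (Z ++ Y ++ U ++ T).length ≤ n := by
      have := hperm.length_eq
      rw [List.length_append] at this
      simp only [List.length_cons, List.length_nil] at this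
      omega
    obtain ⟨cs, β, h1, h2, h3⟩ := ih _ _ _ hl' hF' hS' hsp
    have hcw : cw ((a, b) :: cs) = [a, b, rev a, rev b] ++ cw cs := by simp [cw]
    have fa : β (FreeGroup.mk [a]) = FreeGroup.mk [a] :=
      ce_fix β a (h3 _ fun h => (hV' _ h).1 rfl)
    have fb : β (FreeGroup.mk [b]) = FreeGroup.mk [b] :=
      ce_fix β b (h3 _ fun h => (hV' _ h).2 rfl)
    have f4 : β (FreeGroup.mk [a, b, rev a, rev b]) = FreeGroup.mk [a, b, rev a, rev b] := by
      rw [ce_four, map_mul, map_mul, map_mul, map_inv, map_inv, fa, fb]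
    refine ⟨(a, b) :: cs, β.trans γ, ?_, ?_, ?_⟩
    · rw [hcw]
      exact (h1.append_left _).trans hperm.symm
    · rw [hcw, mk_append, MulEquiv.trans_apply, map_mul, f4, h2, map_mul, hγ1 _ hV', key]
    · intro x hx
      have hx' : (x, true) ∉ [a, b, rev a, rev b] ++ (Z ++ Y ++ U ++ T) :=
        fun h => hx (hperm.mem_iff.2 h)
      rw [MulEquiv.trans_apply, h3 x fun h => hx' (List.mem_append_right _ h), ← mk_true]
      refine hγ1 _ fun d hd => ?_
      obtain rfl : d = (x, true) := by simpa using hd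
      constructor
      · intro h
        rcases eq_or_rev h with h | h <;> exact hx' (by rw [h]; simp)
      · intro h
        rcases eq_or_rev h with h | h <;> exact hx' (by rw [h]; simp)

/- Paper C5, induction on the length of `V`. -/
theorem normal_form (C V W : List (Dt g)) (hF : Full (C ++ V ++ W)) (hS : Surf (C ++ V ++ W))
    (hV : SP V) : ∃ (cs : List (Dt g × Dt g)) (β : Fr g ≃* Fr g), (cw cs).Perm V ∧
      β (FreeGroup.mk (cw cs)) = FreeGroup.mk V ∧
      ∀ x, (x, true) ∉ V → β (FreeGroup.of x) = FreeGroup.of x :=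
  ce_aux V.length C V W le_rfl hF hS hV

end Pool.Agent.MP_596265_gt

end

-- part CG
section

namespace Pool.Agent.MP_596265_gt

open scoped UpperHalfPlane
open Real

variable {g : ℕ}

theorem cg_lift (F : Dt g → Dt g) (hF : ∀ d, F (rev d) = rev (F d)) (d : Dt g) :
    FreeGroup.lift (fun x : Gen g => (FreeGroup.mk [F (x, true)] : Fr g)) (FreeGroup.mk [d]) =
      FreeGroup.mk [F d] := by
  obtain ⟨x, b⟩ := d
  cases b
  · have e : ((x, false) : Dt g) = rev (x, true) := rfl
    rw [e, mk_rev, hF, mk_rev, map_inv, mk_true, FreeGroup.lift_apply_of]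
  · rw [mk_true, FreeGroup.lift_apply_of]

theorem cg_equiv (F : Dt g ≃ Dt g) (hF : ∀ d, F (rev d) = rev (F d)) :
    ∃ ψ : Fr g ≃* Fr g, ∀ d, ψ (FreeGroup.mk [d]) = FreeGroup.mk [F d] := by
  have hF' : ∀ d, F.symm (rev d) = rev (F.symm d) := by
    intro d
    apply F.injective
    rw [hF, F.apply_symm_apply, F.apply_symm_apply]
  refine ⟨MonoidHom.toMulEquiv
    (FreeGroup.lift (fun x : Gen g => (FreeGroup.mk [F (x, true)] : Fr g)))
    (FreeGroup.lift (fun x : Gen g => (FreeGroup.mk [F.symm (x, true)] : Fr g))) ?_ ?_, ?_⟩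
  · refine FreeGroup.ext_hom _ _ fun x => ?_
    rw [MonoidHom.comp_apply, FreeGroup.lift_apply_of, cg_lift F.symm hF', F.symm_apply_apply,
      mk_true, MonoidHom.id_apply]
  · refine FreeGroup.ext_hom _ _ fun x => ?_
    rw [MonoidHom.comp_apply, FreeGroup.lift_apply_of, cg_lift F hF, F.apply_symm_apply,
      mk_true, MonoidHom.id_apply]
  · intro d
    exact cg_lift F hF d

theorem cg_cw_cons (c : Dt g × Dt g) (cs : List (Dt g × Dt g)) :
    cw (c :: cs) = c.1 :: c.2 :: rev c.1 :: rev c.2 :: cw cs := by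
  simp [cw]

theorem cg_cw_append (A B : List (Dt g × Dt g)) : cw (A ++ B) = cw A ++ cw B := by
  simp [cw]

theorem cg_cw_length (cs : List (Dt g × Dt g)) : (cw cs).length = 4 * cs.length := by
  induction cs with
  | nil => simp [cw]
  | cons c cs ih => rw [cg_cw_cons]; simp only [List.length_cons, ih]; ring

theorem cg_mk_cw (cs : List (Dt g × Dt g)) :
    (FreeGroup.mk (cw cs) : Fr g) = (cs.map fun c => (FreeGroup.mk [c.1] : Fr g) *
      FreeGroup.mk [c.2] * (FreeGroup.mk [c.1])⁻¹ * (FreeGroup.mk [c.2])⁻¹).prod := by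
  induction cs with
  | nil => exact mk_nil
  | cons c cs ih =>
    rw [cg_cw_cons, List.map_cons, List.prod_cons, ← ih, mk_cons c.1, mk_cons c.2,
      mk_cons (rev c.1), mk_cons (rev c.2), mk_rev, mk_rev]
    simp only [mul_assoc]

theorem cg_mem_cw {cs : List (Dt g × Dt g)} {d : Dt g} : d ∈ cw cs ↔
    ∃ c ∈ cs, d = c.1 ∨ d = c.2 ∨ d = rev c.1 ∨ d = rev c.2 := by
  simp only [cw, List.mem_flatMap, List.mem_cons, List.not_mem_nil, or_false, Prod.exists, Bool.exists_bool]

theorem cg_fix (β : Fr g ≃* Fr g) (U : List (Dt g))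
    (h : ∀ d ∈ U, β (FreeGroup.of d.1) = FreeGroup.of d.1) :
    β (FreeGroup.mk U) = FreeGroup.mk U := by
  induction U with
  | nil => rw [mk_nil, map_one]
  | cons d U ih =>
    rw [mk_cons, map_mul, ih fun e he => h e (List.mem_cons_of_mem _ he)]
    congr 1
    have hd := h d List.mem_cons_self
    obtain ⟨x, b⟩ := d
    cases b
    · have e : ((x, false) : Dt g) = rev (x, true) := rfl
      rw [e, mk_rev, map_inv, mk_true, hd]
    · rw [mk_true, hd]

theorem cg_true_mem {P : List (Dt g)} (hP : SP P) {d : Dt g} (hd : d ∈ P) : (d.1, true) ∈ P := by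
  obtain ⟨x, b⟩ := d
  cases b
  · exact hP _ hd
  · exact hd

theorem cg_rel (c : Fin g → Dt g × Dt g) (ψ : Fr g ≃* Fr g)
    (h1 : ∀ k, ψ (FreeGroup.of (k, false)) = FreeGroup.mk [(c k).1])
    (h2 : ∀ k, ψ (FreeGroup.of (k, true)) = FreeGroup.mk [(c k).2]) (h : ℕ) :
    ψ (relPre g h) = FreeGroup.mk (cw (((List.finRange g).map c).take h)) := by
  rw [cg_mk_cw, relPre, map_list_prod, ← List.map_take, List.map_map, List.map_map]
  congr 1
  refine List.map_congr_left fun k _ => ?_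
  simp only [Function.comp, comm, map_mul, map_inv, h1, h2]

theorem relabel (cs : List (Dt g × Dt g)) (hF : Full (cw cs)) : cs.length = g ∧
    ∃ ψ : Fr g ≃* Fr g, (∀ h, ψ (relPre g h) = FreeGroup.mk (cw (cs.take h))) ∧
      ∀ (k : Fin g) (hk : k.1 < cs.length), ψ (FreeGroup.of (k, false)) = FreeGroup.mk [cs[k.1].1] ∧
        ψ (FreeGroup.of (k, true)) = FreeGroup.mk [cs[k.1].2] := by
  have hl : cs.length = g := by
    have h1 := hF.length
    rw [cg_cw_length] at h1
    omega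
  refine ⟨hl, ?_⟩
  let c : Fin g → Dt g × Dt g := fun k => cs[k.1]'(by rw [hl]; exact k.2)
  have hc : (List.finRange g).map c = cs := by
    refine List.ext_getElem (by simp [hl]) fun i h1 h2 => ?_
    simp [c]
  let f : Gen g → Dt g := fun x => if x.2 then (c x.1).2 else (c x.1).1
  let F : Dt g → Dt g := fun d => if d.2 then f d.1 else rev (f d.1)
  have hFr : ∀ d, F (rev d) = rev (F d) := by
    rintro ⟨x, b⟩
    cases b
    · change f x = rev (rev (f x))
      rw [rev_rev]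
    · rfl
  have hsurj : Function.Surjective F := by
    intro d
    obtain ⟨e, he, hd⟩ := cg_mem_cw.1 (hF.2 d)
    rw [← hc] at he
    obtain ⟨k, -, rfl⟩ := List.mem_map.1 he
    rcases hd with rfl | rfl | rfl | rfl
    · exact ⟨((k, false), true), rfl⟩
    · exact ⟨((k, true), true), rfl⟩
    · exact ⟨((k, false), false), rfl⟩
    · exact ⟨((k, true), false), rfl⟩
  obtain ⟨ψ, hψ⟩ := cg_equiv (Equiv.ofBijective F (Finite.surjective_iff_bijective.1 hsurj)) hFr
  have h1 : ∀ k, ψ (FreeGroup.of (k, false)) = FreeGroup.mk [(c k).1] := fun k => by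
    rw [← mk_true, hψ]; rfl
  have h2 : ∀ k, ψ (FreeGroup.of (k, true)) = FreeGroup.mk [(c k).2] := fun k => by
    rw [← mk_true, hψ]; rfl
  refine ⟨ψ, fun h => ?_, fun k _ => ⟨h1 k, h2 k⟩⟩
  rw [cg_rel c ψ h1 h2 h, hc]

/-- The relator itself as a full word. -/
theorem exists_full_rel : ∃ w : List (Dt g), Full w ∧ FreeGroup.mk w = relPre g g := by
  classical
  let c : Fin g → Dt g × Dt g := fun k => (((k, false), true), ((k, true), true))
  have hm : ∀ d, d ∈ cw ((List.finRange g).map c) := by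
    rintro ⟨⟨k, b⟩, b'⟩
    refine cg_mem_cw.2 ⟨c k, List.mem_map.2 ⟨k, List.mem_finRange k, rfl⟩, ?_⟩
    cases b <;> cases b'
    · exact Or.inr (Or.inr (Or.inl rfl))
    · exact Or.inl rfl
    · exact Or.inr (Or.inr (Or.inr rfl))
    · exact Or.inr (Or.inl rfl)
  refine ⟨cw ((List.finRange g).map c), ⟨?_, hm⟩, ?_⟩
  · have h1 : (cw ((List.finRange g).map c)).toFinset = Finset.univ :=
      Finset.eq_univ_of_forall fun d => List.mem_toFinset.2 (hm d)
    have h2 := List.card_toFinset (cw ((List.finRange g).map c))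
    rw [h1, Finset.card_univ] at h2
    have h3 : (cw ((List.finRange g).map c)).dedup.length =
        (cw ((List.finRange g).map c)).length := by
      rw [← h2, cg_cw_length]
      simp only [Fintype.card_prod, Fintype.card_fin, Fintype.card_bool, List.length_map,
        List.length_finRange]
      ring
    rw [← (List.dedup_sublist _).eq_of_length h3]
    exact List.nodup_dedup _
  · have h := cg_rel c (MulEquiv.refl _) (fun k => (mk_true _).symm)
      (fun k => (mk_true _).symm) g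
    rw [List.take_of_length_le (by simp)] at h
    exact h.symm

/- Paper C5 (i). -/
theorem std_sep {P Q : List (Dt g)} (hF : Full (P ++ Q)) (hS : Surf (P ++ Q)) (hP : SP P)
    (h1 : P ≠ []) (h2 : Q ≠ []) : ∃ (ψ : Fr g ≃* Fr g) (h : ℕ), 0 < h ∧ h < g ∧
      ψ (relPre g g) = FreeGroup.mk (P ++ Q) ∧ ψ (relPre g h) = FreeGroup.mk P := by
  have hQ : SP Q := SP.compl hF.1 hF.sp hP
  have hdis : List.Disjoint P Q := List.disjoint_of_nodup_append hF.1
  obtain ⟨c1, β1, p1, e1, f1⟩ := normal_form [] P Q (by simpa using hF) (by simpa using hS) hP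
  obtain ⟨c2, β2, p2, e2, f2⟩ := normal_form P Q [] (by simpa using hF) (by simpa using hS) hQ
  have hfull : Full (cw (c1 ++ c2)) := by
    rw [cg_cw_append]
    exact hF.perm (p1.append p2).symm
  obtain ⟨hl, ψ, hψ, -⟩ := relabel (c1 ++ c2) hfull
  have n1 : 0 < c1.length := by
    have := p1.length_eq
    rw [cg_cw_length] at this
    have := List.length_pos_iff.2 h1
    omega
  have n2 : 0 < c2.length := by
    have := p2.length_eq
    rw [cg_cw_length] at this
    have := List.length_pos_iff.2 h2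
    omega
  have a1 : β2 (FreeGroup.mk (cw c1)) = FreeGroup.mk (cw c1) :=
    cg_fix β2 _ fun d hd => f2 _ fun hq => hdis (cg_true_mem hP (p1.subset hd)) hq
  have a2 : β1 (FreeGroup.mk Q) = FreeGroup.mk Q :=
    cg_fix β1 _ fun d hd => f1 _ fun hp => hdis hp (cg_true_mem hQ hd)
  rw [List.length_append] at hl
  refine ⟨ψ.trans (β2.trans β1), c1.length, n1, by omega, ?_, ?_⟩
  · rw [MulEquiv.trans_apply, MulEquiv.trans_apply, hψ,
      List.take_of_length_le (by rw [List.length_append]; omega), cg_cw_append, mk_append,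
      map_mul, a1, e2, map_mul, e1, a2, mk_append]
  · rw [MulEquiv.trans_apply, MulEquiv.trans_apply, hψ, List.take_left, a1, e1]

/- Paper C5 (ii). -/
theorem std_comm {a b : Dt g} {Q : List (Dt g)} (hF : Full (a :: b :: rev a :: rev b :: Q))
    (hS : Surf (a :: b :: rev a :: rev b :: Q)) : ∃ (ψ : Fr g ≃* Fr g) (k : Fin g), k.1 = 0 ∧
      ψ (relPre g g) = FreeGroup.mk (a :: b :: rev a :: rev b :: Q) ∧
      ψ (FreeGroup.of (k, false)) = FreeGroup.mk [a] ∧
      ψ (FreeGroup.of (k, true)) = FreeGroup.mk [b] := by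
  have hF' : Full ([a, b, rev a, rev b] ++ Q) := hF
  have hS' : Surf ([a, b, rev a, rev b] ++ Q) := hS
  have hP : SP [a, b, rev a, rev b] := by
    intro d hd
    simp only [List.mem_cons, List.not_mem_nil, or_false] at hd ⊢
    rcases hd with rfl | rfl | rfl | rfl <;> simp
  have hQ : SP Q := SP.compl hF'.1 hF'.sp hP
  have hdis : List.Disjoint [a, b, rev a, rev b] Q := List.disjoint_of_nodup_append hF'.1
  obtain ⟨c2, β, p2, e2, f2⟩ := normal_form [a, b, rev a, rev b] Q []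
    (by rw [List.append_nil]; exact hF') (by rw [List.append_nil]; exact hS') hQ
  have hcw : cw ((a, b) :: c2) = [a, b, rev a, rev b] ++ cw c2 := cg_cw_cons _ _
  have hfull : Full (cw ((a, b) :: c2)) := by
    rw [hcw]
    exact hF'.perm (p2.append_left _).symm
  obtain ⟨hl, ψ, hψ, hk⟩ := relabel _ hfull
  have hg : 0 < g := by
    rw [← hl]
    exact Nat.succ_pos _
  have hfix : ∀ U : List (Dt g), (∀ d ∈ U, d ∈ [a, b, rev a, rev b]) →
      β (FreeGroup.mk U) = FreeGroup.mk U := fun U hU =>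
    cg_fix β _ fun d hd => f2 _ fun hq => hdis (cg_true_mem hP (hU d hd)) hq
  obtain ⟨k1, k2⟩ := hk ⟨0, hg⟩ (Nat.succ_pos _)
  refine ⟨ψ.trans β, ⟨0, hg⟩, rfl, ?_, ?_, ?_⟩
  · rw [MulEquiv.trans_apply, hψ, List.take_of_length_le hl.le, hcw, mk_append, map_mul, e2,
      hfix _ fun d hd => hd, ← mk_append]
    rfl
  · rw [MulEquiv.trans_apply, k1]
    exact hfix [a] (by simp)
  · rw [MulEquiv.trans_apply, k2]
    exact hfix [b] (by simp)

end Pool.Agent.MP_596265_gt

end

-- part CF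
section

namespace Pool.Agent.MP_596265_gt

open scoped UpperHalfPlane
open Real

variable {g : ℕ}

theorem cf_tel {C : Type} [AddCommGroup C] (γ : Fr g ≃* Fr g) (ε J : Dt g → C) (P : C → Fr g)
    (p : Dt g → Bool) (U : List (Dt g)) : ∀ (c c' : C), Walk ε J c U c' →
    (∀ d ∈ U, P (ε d) * FreeGroup.mk [d] * (P (ε (rev d) + J d))⁻¹ =
      if p d then γ (FreeGroup.mk [d]) else 1) →
    γ (FreeGroup.mk (U.filter p)) = P c * FreeGroup.mk U * (P c')⁻¹ := by
  induction U with
  | nil =>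
    intro c c' h _
    obtain rfl : c = c' := h
    simp only [List.filter_nil, mk_nil, map_one, mul_one, mul_inv_cancel]
  | cons d U ih =>
    intro c c' h hd
    obtain ⟨rfl, h⟩ := h
    have h1 := ih _ _ h fun x hx => hd x (List.mem_cons_of_mem _ hx)
    have h2 := hd d List.mem_cons_self
    have h3 : P (ε d) * FreeGroup.mk (d :: U) * (P c')⁻¹ =
        (P (ε d) * FreeGroup.mk [d] * (P (ε (rev d) + J d))⁻¹) *
          (P (ε (rev d) + J d) * FreeGroup.mk U * (P c')⁻¹) := by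
      rw [mk_cons d U]
      group
    rw [h3, h2, ← h1]
    cases hp : p d
    · rw [List.filter_cons_of_neg (by simp [hp])]
      simp
    · rw [List.filter_cons_of_pos hp, mk_cons d, map_mul]
      simp

theorem cf_count {w : List (Dt g)} (hF : Full w) {a b : Dt g} (hab : b.1 ≠ a.1)
    {ε η : Dt g → ZMod 2} (hε : Cut w a ε) (hη : Cut w b η) (h1 : ε (rev b) = 0) (h2 : ε b = 1) :
    η a = 0 ∧ η (rev a) = 1 := by
  have ha' := hε.rev_eq hF
  have hb' := hη.rev_eq hF
  obtain ⟨ha, c, hc⟩ := hε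
  obtain ⟨hb, e, he⟩ := hη
  let φ : ZMod 2 × ZMod 2 → ℤ := fun x => if x = 0 then 1 else 0
  have h := walk_count φ (walk_prod hc he)
  rw [hF.sum, hF.sum, add_comm, add_right_inj] at h
  have hr : ∑ d, φ ((ε (rev d), η (rev d)) + (Ja a d, Ja b d)) =
      ∑ d, φ ((ε d, η d) + (Ja a d, Ja b d)) :=
    Fintype.sum_equiv (Function.Involutive.toPerm rev rev_rev) _ _ fun d => rfl
  rw [hr, ← sub_eq_zero, ← Finset.sum_sub_distrib,
    ← Finset.sum_subset (Finset.subset_univ {a, rev a, b, rev b})] at h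
  · have n1 : a ≠ b := fun h => hab (h ▸ rfl)
    have n2 : a ≠ rev b := fun h => hab (h ▸ rfl)
    have n3 : rev a ≠ b := fun h => hab (h ▸ rfl)
    have n4 : rev a ≠ rev b := fun h => hab (congrArg Prod.fst h).symm
    rw [Finset.sum_insert (by simp [n1, n2, (rev_ne a).symm]),
      Finset.sum_insert (by simp [n3, n4]), Finset.sum_pair (rev_ne b).symm] at h
    simp only [ha, ha', hb, hb', h1, h2, Ja, rev_fst, hab, hab.symm, if_true, if_false, φ] at h
    generalize η a = x at h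
    generalize η (rev a) = y at h
    revert x y
    decide
  · intro d _ hd
    simp only [Finset.mem_insert, Finset.mem_singleton, not_or] at hd
    have e1 : d.1 ≠ a.1 := fun h => (eq_or_rev h).elim hd.1 hd.2.1
    have e2 : d.1 ≠ b.1 := fun h => (eq_or_rev h).elim hd.2.2.1 hd.2.2.2
    simp [Ja, e1, e2]

theorem cf_core {V : List (Dt g)} {a b : Dt g} (hF : Full (b :: V)) (hS : Surf (b :: V))
    (hab : b.1 ≠ a.1) {ε : Dt g → ZMod 2} (hε : Cut (b :: V) a ε) (h1 : ε (rev b) = 0)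
    (h2 : ε b = 1) : ∃ (ψ : Fr g ≃* Fr g) (k : Fin g), k.1 = 0 ∧
      IsConj (ψ (relPre g g)) (FreeGroup.mk (b :: V)) ∧
      ψ (FreeGroup.of (k, false)) = FreeGroup.mk [a] ∧
      ψ (FreeGroup.of (k, true)) = FreeGroup.mk [rev b] := by
  classical
  obtain ⟨η, hη⟩ := exists_cut hF (oneV hF hS) b
  obtain ⟨h3, h4⟩ := cf_count hF hab hε hη h1 h2
  have ha' := hε.rev_eq hF
  have hb' := hη.rev_eq hF
  obtain ⟨ha, c, hc⟩ := hε
  obtain ⟨hb, e, he⟩ := hη
  obtain ⟨hce, hw⟩ := walk_prod hc he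
  let S : Set (Gen g) := {x | x ≠ a.1 ∧ x ≠ b.1}
  let P : ZMod 2 × ZMod 2 → Fr g := fun x =>
    if x.1 = 0 then (if x.2 = 0 then 1 else FreeGroup.mk [a])
    else if x.2 = 0 then FreeGroup.mk [a] * FreeGroup.mk [rev b] * FreeGroup.mk [rev a]
    else FreeGroup.mk [a] * FreeGroup.mk [rev b]
  have o1 : ∀ d : Dt g, (d.1 = a.1 ∨ d.1 = b.1) → FreeGroup.mk [d] ∈ Out S := fun d hd =>
    mk_mem_out S [d] fun x hx hxS => by
      obtain rfl := List.mem_singleton.1 hx
      exact hd.elim hxS.1 hxS.2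
  have oa := o1 a (Or.inl rfl)
  have oa' := o1 (rev a) (Or.inl rfl)
  have ob := o1 b (Or.inr rfl)
  have ob' := o1 (rev b) (Or.inr rfl)
  obtain ⟨γ, hγ, hfix⟩ := exists_gauge S (fun d => P (ε d, η d)) fun d => by
    simp only [P]
    split_ifs
    exacts [one_mem _, oa, mul_mem (mul_mem oa ob') oa', mul_mem oa ob']
  have hbV : b ∉ V := (List.nodup_cons.1 hF.1).1
  have e11 : (1 : ZMod 2) + 1 = 0 := by decide
  have e10 : (1 : ZMod 2) ≠ 0 := by decide
  have key := cf_tel γ _ _ P (fun d => decide (d.1 ∈ S)) V _ _ hw fun d hd => by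
    by_cases hdS : d.1 ∈ S
    · rw [if_pos (decide_eq_true hdS), hγ d hdS]
      simp [Ja, hdS.1, hdS.2]
    · rw [if_neg (by simpa using hdS)]
      have : d = a ∨ d = rev a ∨ d = rev b := by
        by_cases e1 : d.1 = a.1
        · exact (eq_or_rev e1).imp id Or.inl
        · have e2 : d.1 = b.1 := by_contra fun e2 => hdS ⟨e1, e2⟩
          exact Or.inr (Or.inr ((eq_or_rev e2).resolve_left fun h => hbV (h ▸ hd)))
      rcases this with rfl | rfl | rfl <;>
        simp only [P, Ja, rev_rev, rev_fst, ha, ha', hb, hb', h1, h2, h3, h4, hab, hab.symm,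
          if_true, if_false, Prod.mk_add_mk, e11, e10, add_zero, zero_add, one_mul,
          mul_inv_cancel]
  simp only [← hce, P, Ja, hb, hb', h1, h2, hab, if_true, if_false, Prod.mk_add_mk, e11, e10,
    add_zero, one_mul] at key
  set V' := V.filter fun d => decide (d.1 ∈ S) with hV'
  have hmem : ∀ d, d ∈ V' ↔ d ∈ V ∧ d.1 ≠ a.1 ∧ d.1 ≠ b.1 := fun d => by
    rw [hV', List.mem_filter, decide_eq_true_iff]
    rfl
  have hF' : Full (a :: rev b :: rev a :: rev (rev b) :: V') := by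
    rw [rev_rev]
    have n1 : a ≠ b := fun h => hab (h ▸ rfl)
    have n2 : a ≠ rev b := fun h => hab (h ▸ rfl)
    have n3 : rev a ≠ b := fun h => hab (h ▸ rfl)
    have n4 : rev b ≠ rev a := fun h => hab (by simpa using congrArg Prod.fst h)
    refine ⟨?_, fun d => ?_⟩
    · have : V'.Nodup := (List.nodup_cons.1 hF.1).2.filter _
      simp [hmem, n1, n2, n3, n4, (rev_ne a).symm, rev_ne b, this]
    · by_cases e1 : d.1 = a.1
      · rcases eq_or_rev e1 with rfl | rfl <;> simp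
      by_cases e2 : d.1 = b.1
      · rcases eq_or_rev e2 with rfl | rfl <;> simp
      have : d ∈ V := (List.mem_cons.1 (hF.2 d)).resolve_left fun h => e2 (h ▸ rfl)
      simp [hmem, this, e1, e2]
  have hc' : IsConj (γ (FreeGroup.mk (a :: rev b :: rev a :: rev (rev b) :: V')))
      (FreeGroup.mk (b :: V)) := by
    rw [rev_rev, mk_cons a, mk_cons (rev b), mk_cons (rev a), mk_cons b V', map_mul, map_mul,
      map_mul, map_mul, hfix _ oa, hfix _ ob', hfix _ oa', hfix _ ob, key, mk_cons b V]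
    refine isConj_iff.2
      ⟨(FreeGroup.mk [a] * FreeGroup.mk [rev b] * FreeGroup.mk [rev a])⁻¹, ?_⟩
    group
  obtain ⟨ψ, k, hk, r1, r2, r3⟩ := std_comm hF' (hS.of_conj γ hc')
  refine ⟨ψ.trans γ, k, hk, ?_, ?_, ?_⟩
  · rwa [MulEquiv.trans_apply, r1]
  · rw [MulEquiv.trans_apply, r2, hfix _ oa]
  · rw [MulEquiv.trans_apply, r3, hfix _ ob']

theorem cf_core' {w : List (Dt g)} {a b : Dt g} (hF : Full w) (hS : Surf w)
    (hab : b.1 ≠ a.1) {ε : Dt g → ZMod 2} (hε : Cut w a ε) (h1 : ε (rev b) = 0)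
    (h2 : ε b = 1) : ∃ (ψ : Fr g ≃* Fr g) (k : Fin g), k.1 = 0 ∧
      IsConj (ψ (relPre g g)) (FreeGroup.mk w) ∧
      ψ (FreeGroup.of (k, false)) = FreeGroup.mk [a] ∧
      ψ (FreeGroup.of (k, true)) = FreeGroup.mk [rev b] := by
  obtain ⟨A, B, rfl⟩ := List.append_of_mem (hF.2 b)
  obtain ⟨ha, c, hc⟩ := hε
  obtain ⟨ψ, k, hk, r1, r2⟩ := cf_core (V := B ++ A) (hF.perm List.perm_append_comm) hS.rot hab
    ⟨ha, walk_rot hc⟩ h1 h2
  exact ⟨ψ, k, hk, r1.trans (isConj_rot A (b :: B)), r2⟩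

/- Paper C6. -/
theorem std_cross {w : List (Dt g)} (hF : Full w) (hS : Surf w) {a b : Dt g} (h : Cross w a b) :
    Std w (FreeGroup.mk [a]) (FreeGroup.mk [b]) := by
  obtain ⟨hab, ε, hε, hne⟩ := h
  have : ∀ x y : ZMod 2, x ≠ y → (y = 0 ∧ x = 1) ∨ (x = 0 ∧ y = 1) := by decide
  rcases this _ _ hne with ⟨h1, h2⟩ | ⟨h1, h2⟩
  · obtain ⟨ψ, k, hk, r1, r2, r3⟩ := cf_core' hF hS hab hε h1 h2
    exact ⟨ψ, k, hk, r1, r2, Or.inr (r3.trans (mk_rev b))⟩
  · obtain ⟨ψ, k, hk, r1, r2, r3⟩ := cf_core' (b := rev b) hF hS hab hε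
      (by rwa [rev_rev]) h2
    exact ⟨ψ, k, hk, r1, r2, Or.inl (by rwa [rev_rev] at r3)⟩

/- Paper C7. -/
theorem std_diag {s : Dt g} {A B : List (Dt g)} (hF : Full (s :: (A ++ rev s :: B)))
    (hS : Surf (s :: (A ++ rev s :: B))) :
    Std (s :: (A ++ rev s :: B)) (FreeGroup.mk [s]) (FreeGroup.mk A) := by
  have hn := not_sp_inner (C := []) hF hS
  simp only [SP, not_forall] at hn
  obtain ⟨d, hd, hd'⟩ := hn
  have hnd := hF.1
  have hds : d.1 ≠ s.1 := fun h => by
    rcases eq_or_rev h with rfl | rfl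
    · exact (List.nodup_cons.1 hnd).1 (List.mem_append_left _ hd)
    · exact (List.nodup_append.1 (List.nodup_cons.1 hnd).2).2.2 _ hd _ List.mem_cons_self rfl
  have hB : rev d ∈ B := by
    have := hF.2 (rev d)
    simp only [List.mem_cons, List.mem_append] at this
    rcases this with h | h | h | h
    · exact absurd (congrArg Prod.fst h) hds
    · exact absurd h hd'
    · exact absurd (congrArg Prod.fst h) hds
    · exact h
  obtain ⟨X, Y, rfl⟩ := List.append_of_mem hd
  obtain ⟨Z, T, rfl⟩ := List.append_of_mem hB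
  have e : [s] ++ X ++ d :: (Y ++ rev s :: Z ++ rev d :: T) =
      s :: (X ++ d :: Y ++ rev s :: (Z ++ rev d :: T)) := by simp
  obtain ⟨β, b1, b2, b3⟩ := exists_swap [s] X Y (rev s :: Z) T d (e ▸ hnd)
  rw [e] at b3
  have hF' : Full ([s] ++ d :: (rev s :: Z ++ Y ++ rev d :: (X ++ T))) := by
    classical
    refine hF.perm (List.perm_iff_count.2 fun x => ?_)
    simp only [List.count_cons, List.count_append, List.count_nil]
    omega
  have hS' := hS.of_conj β (b3.symm ▸ IsConj.refl (FreeGroup.mk _) :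
    IsConj (β (FreeGroup.mk ([s] ++ d :: (rev s :: Z ++ Y ++ rev d :: (X ++ T))))) _)
  obtain ⟨ε, hε⟩ := exists_cut hF' (oneV hF' hS') s
  have hx : Cross ([s] ++ d :: (rev s :: Z ++ Y ++ rev d :: (X ++ T))) s d := by
    refine ⟨hds, ε, hε, ?_⟩
    obtain ⟨-, c, -, w1, w2, -⟩ := hε
    rw [w1, w2]
    simp only [Ja, hds, ↓ reduceIte, add_zero, ne_eq, add_eq_left, one_ne_zero, not_false_eq_true]
  obtain ⟨ψ, k, hk, r1, r2, r3⟩ := std_cross hF' hS' hx
  have bs : β (FreeGroup.mk [s]) = FreeGroup.mk [s] := by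
    have h0 := b2 s.1 hds.symm
    rw [← mk_true] at h0
    rcases eq_or_rev (a := (s.1, true)) (b := s) rfl with h | h
    · rwa [h]
    · rw [h, mk_rev, map_inv, h0]
  refine ⟨ψ.trans β, k, hk, ?_, ?_, ?_⟩
  · rw [← b3]
    exact β.toMonoidHom.map_isConj r1
  · rw [MulEquiv.trans_apply, r2, bs]
  · rw [MulEquiv.trans_apply, ← b1, ← map_inv]
    exact r3.imp (congrArg β) (congrArg β)

end Pool.Agent.MP_596265_gt

end

-- part AA
section

namespace Pool.Agent.MP_596265_gt

open scoped UpperHalfPlane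
open Real

variable {g : ℕ}

theorem aa_fricke (x y : G) :
    kap x y = tr x ^ 2 + tr y ^ 2 + tr (x * y) ^ 2 - tr x * tr y * tr (x * y) - 2 := by
  have hx := basic_det x
  have hy := basic_det y
  unfold kap tr
  simp only [basic_mul, basic_inv00, basic_inv01, basic_inv10, basic_inv11]
  linear_combination ((y 0 0 + y 1 1) ^ 2 - 2 * (y 0 0 * y 1 1 - y 0 1 * y 1 0)) * hx +
    ((x 0 0 + x 1 1) ^ 2 - 2) * hy

theorem aa_tr_mul_inv (x y : G) : tr (x * y⁻¹) = tr x * tr y - tr (x * y) := by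
  unfold tr
  simp only [basic_mul, basic_inv00, basic_inv01, basic_inv10, basic_inv11]
  ring

theorem aa_kap_pm {x y x' y' : G} (hx : PM x' x) (hy : PM y' y) : kap x' y' = kap x y := by
  rw [aa_fricke, aa_fricke]
  rcases hx with rfl | rfl <;> rcases hy with rfl | rfl <;>
    simp only [neg_mul, mul_neg, neg_neg, tr_neg] <;> ring

theorem Tor.pm {x y x' y' : G} (h : Tor x y) (hx : PM x' x) (hy : PM y' y) : Tor x' y' := by
  unfold Tor at h ⊢
  rw [aa_kap_pm hx hy, hx.abs_tr, hy.abs_tr]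
  exact h

theorem Tor.inv_right {x y : G} (h : Tor x y) : Tor x y⁻¹ := by
  have e : kap x y⁻¹ = kap x y := by
    rw [aa_fricke, aa_fricke, aa_tr_mul_inv, tr_inv]; ring
  unfold Tor at h ⊢
  rw [e, tr_inv]
  exact h

theorem isClosed_tor : IsClosed {p : G × G | Tor p.1 p.2} := by
  have hk : Continuous fun p : G × G => kap p.1 p.2 :=
    continuous_tr.comp
      (((continuous_fst.mul continuous_snd).mul continuous_fst.inv).mul continuous_snd.inv)
  exact ((isClosed_le hk continuous_const).union (isClosed_le continuous_const hk)).inter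
    ((isClosed_le continuous_const (continuous_tr.comp continuous_fst).abs).inter
      (isClosed_le continuous_const (continuous_tr.comp continuous_snd).abs))

theorem aa_big {a b c : ℝ} (ha : 2 ≤ a) (hb : 2 ≤ b) (hc : 2 ≤ c) :
    18 ≤ a ^ 2 + b ^ 2 + c ^ 2 + a * b * c - 2 := by
  have h1 : 4 ≤ a * b := by nlinarith only [ha, hb]
  have h2 : 8 ≤ a * b * c := by nlinarith only [hc, h1]
  nlinarith

theorem aa_real {a b c k : ℝ} (ha : 2 ≤ a) (hab : a ≤ b) (hbc : b ≤ c)
    (hk : k = a ^ 2 + b ^ 2 + c ^ 2 - a * b * c - 2) (h2 : 2 < k) (h18 : k < 18)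
    (hc' : 2 ≤ |a * b - c|) : |a * b - c| ≤ c - (k - 2) / 2 := by
  have hb : 2 ≤ b := by linarith
  have hpos : 2 ≤ a * b - c := by
    rcases le_abs.1 hc' with h | h
    · exact h
    · have h3 := aa_big ha hb h
      have h4 : k = a ^ 2 + b ^ 2 + (-(a * b - c)) ^ 2 + a * b * -(a * b - c) - 2 := by
        rw [hk]; ring
      linarith
  rw [abs_of_pos (by linarith)]
  have hlt : a * b - c < c := by
    by_contra hn
    have hn' : c ≤ a * b - c := not_lt.1 hn
    have h3 : 0 ≤ (c - b) * (a * b - c - b) := mul_nonneg (by linarith) (by linarith)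
    have h4 : 0 ≤ (b ^ 2 - a ^ 2) * (a - 2) := mul_nonneg (by nlinarith only [ha, hab]) (by linarith)
    have h5 : 0 ≤ (a - 2) ^ 2 * (a + 1) := mul_nonneg (sq_nonneg _) (by linarith)
    have h6 : 2 - k = (c - b) * (a * b - c - b) + (b ^ 2 - a ^ 2) * (a - 2) +
        (a - 2) ^ 2 * (a + 1) := by rw [hk]; ring
    linarith
  have hsq : (c - (a * b - c)) ^ 2 = (a ^ 2 - 4) * (b ^ 2 - 4) + 4 * (k - 2) := by
    rw [hk]; ring
  have h7 : 0 ≤ (a ^ 2 - 4) * (b ^ 2 - 4) := mul_nonneg (by nlinarith only [ha]) (by nlinarith only [ha, hab])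
  have h8 : ((k - 2) / 2) ^ 2 ≤ (c - (a * b - c)) ^ 2 := by
    have : 0 ≤ (k - 2) * (18 - k) := mul_nonneg (by linarith) (by linarith)
    rw [hsq]; linarith only [h7, this]
  have h9 := abs_le_of_sq_le_sq h8 (by linarith only [hlt])
  have := le_abs_self ((k - 2) / 2)
  linarith only [h9, this]

theorem aa_step {x y z k : ℝ} (hx : 2 ≤ |x|) (hy : 2 ≤ |y|) (hxz : |x| ≤ |z|) (hyz : |y| ≤ |z|)
    (hk : k = x ^ 2 + y ^ 2 + z ^ 2 - x * y * z - 2) (h2 : 2 < k) (h18 : k < 18)
    (h' : 2 ≤ |x * y - z|) : |x * y - z| ≤ |z| - (k - 2) / 2 := by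
  have hz : 2 ≤ |z| := by linarith
  have ea := sq_abs x
  have eb := sq_abs y
  have ec := sq_abs z
  have habs : |x * y * z| = |x| * |y| * |z| := by rw [abs_mul, abs_mul]
  have hp : x * y * z = |x| * |y| * |z| := by
    rcases le_total 0 (x * y * z) with h | h
    · rw [← habs, abs_of_nonneg h]
    · rw [abs_of_nonpos h] at habs
      have := aa_big hx hy hz
      linarith
  have e : |x * y - z| = |(|x| * |y| - |z|)| := by
    rw [← sq_eq_sq_iff_abs_eq_abs]
    linear_combination (-|y| ^ 2) * ea + (-x ^ 2) * eb - ec - 2 * hp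
  rw [e] at h' ⊢
  rcases le_total |x| |y| with h | h
  · exact aa_real hx h hyz (by rw [hk, ea, eb, ec, hp]) h2 h18 h'
  · rw [mul_comm] at h' ⊢
    exact aa_real hy h hxz (by rw [hk, ea, eb, ec, hp]; ring) h2 h18 h'

/- Paper A1 (apply the quadratic to the larger of the two smaller traces). -/
theorem torus (Ω : Set (G × G)) (h1 : ∀ p ∈ Ω, (p.1, p.2 * p.1⁻¹) ∈ Ω)
    (h2 : ∀ p ∈ Ω, (p.1 * p.2, p.2) ∈ Ω) (h3 : ∀ p ∈ Ω, (p.1, p.2 * p.1) ∈ Ω)
    (hh : ∀ p ∈ Ω, 2 ≤ |tr p.1| ∧ 2 ≤ |kap p.1 p.2| ∧ kap p.1 p.2 ≠ 2) :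
    ∀ p ∈ Ω, Tor p.1 p.2 := by
  have hX : ∀ p ∈ Ω, 2 ≤ |tr p.1| := fun p hp => (hh p hp).1
  have hZ : ∀ p ∈ Ω, 2 ≤ |tr (p.1 * p.2)| := fun p hp => hX _ (h2 p hp)
  have hY : ∀ p ∈ Ω, 2 ≤ |tr p.2| := fun p hp => by
    have := hZ _ (h1 p hp)
    simp only [← mul_assoc] at this
    rwa [tr_conj] at this
  intro p hp
  refine ⟨?_, hX p hp, hY p hp⟩
  by_contra hn
  rw [not_or, not_le, not_le] at hn
  obtain ⟨hn1, h18⟩ := hn
  have hk2 : 2 < kap p.1 p.2 := by
    rcases le_abs.1 (hh p hp).2.1 with h | h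
    · exact lt_of_le_of_ne h (hh p hp).2.2.symm
    · linarith
  set k := kap p.1 p.2 with hkdef
  let f : G × G → ℝ := fun q => |tr q.1| + |tr q.2| + |tr (q.1 * q.2)|
  have step : ∀ q ∈ Ω, kap q.1 q.2 = k →
      ∃ q' ∈ Ω, kap q'.1 q'.2 = k ∧ f q' ≤ f q - (k - 2) / 2 := by
    rintro ⟨X, Y⟩ hq hk
    have hF := aa_fricke X Y
    have hx := hX _ hq
    have hy := hY _ hq
    have hz := hZ _ hq
    simp only at hk hx hy hz
    rw [hk] at hF
    have c1 : |tr X| ≤ |tr (X * Y)| → |tr Y| ≤ |tr (X * Y)| →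
        ∃ q' ∈ Ω, kap q'.1 q'.2 = k ∧ f q' ≤ f (X, Y) - (k - 2) / 2 := fun a b => by
      have e1 : tr (Y * X⁻¹) = tr X * tr Y - tr (X * Y) := by
        rw [aa_tr_mul_inv, tr_mul_comm Y X]; ring
      have e2 : tr (X * (Y * X⁻¹)) = tr Y := by rw [← mul_assoc, tr_conj]
      have hn := hY _ (h1 _ hq)
      simp only [e1] at hn
      refine ⟨_, h1 _ hq, ?_, ?_⟩
      · rw [← hk]; unfold kap; congr 1; group
      · have := aa_step hx hy a b hF hk2 h18 hn
        simp only [f, e1, e2]; linarith only [this]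
    have c2 : |tr Y| ≤ |tr X| → |tr (X * Y)| ≤ |tr X| →
        ∃ q' ∈ Ω, kap q'.1 q'.2 = k ∧ f q' ≤ f (X, Y) - (k - 2) / 2 := fun a b => by
      have e1 : tr (X * Y * Y) = tr Y * tr (X * Y) - tr X := by
        have := aa_tr_mul_inv (X * Y) Y
        rw [mul_inv_cancel_right] at this
        linarith only [this]
      have hn := hZ _ (h2 _ hq)
      simp only [e1] at hn
      refine ⟨_, h2 _ hq, ?_, ?_⟩
      · rw [← hk]; unfold kap; congr 1; group
      · have := aa_step hy hz a b (by rw [hF]; ring) hk2 h18 hn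
        simp only [f, e1]; linarith
    have c3 : |tr X| ≤ |tr Y| → |tr (X * Y)| ≤ |tr Y| →
        ∃ q' ∈ Ω, kap q'.1 q'.2 = k ∧ f q' ≤ f (X, Y) - (k - 2) / 2 := fun a b => by
      have e0 : tr (Y * X) = tr (X * Y) := tr_mul_comm _ _
      have e1 : tr (X * (Y * X)) = tr X * tr (X * Y) - tr Y := by
        have := aa_tr_mul_inv (Y * X) X
        rw [mul_inv_cancel_right, e0] at this
        rw [tr_mul_comm]
        linarith only [this]
      have hn := hZ _ (h3 _ hq)
      simp only [e1] at hn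
      refine ⟨_, h3 _ hq, ?_, ?_⟩
      · rw [← hk]; unfold kap; congr 1; group
      · have := aa_step hx hz a b (by rw [hF]; ring) hk2 h18 hn
        simp only [f, e0, e1]; linarith only [this]
    rcases le_total |tr X| |tr Y| with a | a
    · rcases le_total |tr Y| |tr (X * Y)| with b | b
      · exact c1 (a.trans b) b
      · exact c3 a b
    · rcases le_total |tr X| |tr (X * Y)| with b | b
      · exact c1 b (a.trans b)
      · exact c2 a b
  have iter : ∀ n : ℕ, ∃ q ∈ Ω, kap q.1 q.2 = k ∧ f q ≤ f p - n * ((k - 2) / 2) := by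
    intro n
    induction n with
    | zero => exact ⟨p, hp, rfl, by simp⟩
    | succ n ih =>
      obtain ⟨q, hq, hk, hf⟩ := ih
      obtain ⟨q', hq', hk', hf'⟩ := step q hq hk
      exact ⟨q', hq', hk', by push_cast; linarith⟩
  obtain ⟨n, hn⟩ := exists_nat_gt (f p / ((k - 2) / 2))
  rw [div_lt_iff₀ (by linarith)] at hn
  obtain ⟨q, -, -, hf⟩ := iter n
  have : 0 ≤ f q := by simp only [f]; positivity
  linarith

theorem aa_A2 {u s1 s2 k v t1 t2 l κ : ℝ} (h1 : u ^ 2 + k ^ 2 = 1 + (s1 ^ 2 + s2 ^ 2))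
    (h2 : v ^ 2 + l ^ 2 = 1 + (t1 ^ 2 + t2 ^ 2)) (hu : 1 ≤ u ^ 2) (hv : 1 ≤ v ^ 2)
    (hκ : κ = 2 + 4 * ((s1 * t1 + s2 * t2 - k * l) ^ 2 - (u ^ 2 - 1) * (v ^ 2 - 1)))
    (h : κ ≤ -2 ∨ 18 ≤ κ) : 1 ≤ (s1 ^ 2 + s2 ^ 2) * (t1 ^ 2 + t2 ^ 2) := by
  have hk := sq_nonneg k
  have hl := sq_nonneg l
  rcases h with h | h
  · have h3 : (u ^ 2 - 1) * (v ^ 2 - 1) ≤ (s1 ^ 2 + s2 ^ 2) * (t1 ^ 2 + t2 ^ 2) :=
      mul_le_mul (by linarith) (by linarith only [h2, hl]) (by linarith) (by linarith)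
    have := sq_nonneg (s1 * t1 + s2 * t2 - k * l)
    linarith
  · have h3 : 0 ≤ (u ^ 2 - 1) * (v ^ 2 - 1) := mul_nonneg (by linarith) (by linarith)
    have h4 : k ^ 2 * l ^ 2 ≤ (s1 ^ 2 + s2 ^ 2) * (t1 ^ 2 + t2 ^ 2) :=
      mul_le_mul (by linarith) (by linarith) hl (by linarith)
    have h5 : (s1 * t1 + s2 * t2 - k * l) ^ 2 = 2 * ((s1 ^ 2 + s2 ^ 2) * (t1 ^ 2 + t2 ^ 2)) +
        2 * (k ^ 2 * l ^ 2) - 2 * (s1 * t2 - s2 * t1) ^ 2 - (s1 * t1 + s2 * t2 + k * l) ^ 2 := by
      ring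
    have := sq_nonneg (s1 * t2 - s2 * t1)
    have := sq_nonneg (s1 * t1 + s2 * t2 + k * l)
    linarith

theorem aa_det (x : G) : ((x 0 0 + x 1 1) / 2) ^ 2 + ((x 0 1 - x 1 0) / 2) ^ 2 =
    1 + (((x 0 0 - x 1 1) / 2) ^ 2 + ((x 0 1 + x 1 0) / 2) ^ 2) := by
  linear_combination basic_det x

theorem aa_cosh (x : G) : cosh (len x) - 1 =
    2 * (((x 0 0 - x 1 1) / 2) ^ 2 + ((x 0 1 + x 1 0) / 2) ^ 2) := by
  rw [cosh_len]; linear_combination basic_det x

theorem aa_half {x : G} (h : 2 ≤ |tr x|) : 1 ≤ ((x 0 0 + x 1 1) / 2) ^ 2 := by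
  have e := sq_abs (tr x)
  have : 4 ≤ tr x ^ 2 := by nlinarith only [h, e]
  unfold tr at this
  linarith only [this]

/- Paper A2. -/
theorem Tor.cosh_le {x y : G} (h : Tor x y) :
    4 ≤ (cosh (len x) - 1) * (cosh (len y) - 1) := by
  have := aa_A2 (aa_det x) (aa_det y) (aa_half h.2.1) (aa_half h.2.2)
    (by rw [aa_fricke]; unfold tr; simp only [basic_mul]; ring) h.1
  rw [aa_cosh, aa_cosh]
  linarith

theorem Tor.len_pos {x y : G} (h : Tor x y) : 0 < len x ∧ 0 < len y := by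
  have h1 := h.cosh_le
  constructor
  · refine (len_nonneg x).lt_of_ne fun e => ?_
    rw [← e, cosh_zero] at h1; linarith
  · refine (len_nonneg y).lt_of_ne fun e => ?_
    rw [← e, cosh_zero] at h1; linarith

theorem aa_cs {p q p' q' C C' : ℝ} (hC : C ^ 2 = p ^ 2 + q ^ 2) (hC' : C' ^ 2 = p' ^ 2 + q' ^ 2)
    (h0 : 0 ≤ C) (h0' : 0 ≤ C') : |p * p' + q * q'| ≤ C * C' := by
  refine abs_le_of_sq_le_sq ?_ (mul_nonneg h0 h0')
  have : (C * C') ^ 2 = (p * p' + q * q') ^ 2 + (p * q' - q * p') ^ 2 := by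
    rw [mul_pow, hC, hC']; ring
  linarith [sq_nonneg (p * q' - q * p')]

theorem aa_sinh (x : G) : sinh (len x / 2) ^ 2 =
    ((x 0 0 - x 1 1) / 2) ^ 2 + ((x 0 1 + x 1 0) / 2) ^ 2 := by
  have h1 := cosh_two_mul (len x / 2)
  rw [show 2 * (len x / 2) = len x by ring] at h1
  have h2 := cosh_sq (len x / 2)
  have h3 := aa_cosh x
  linarith

theorem aa_cosh_half (x : G) : cosh (len x / 2) ^ 2 =
    ((x 0 0 + x 1 1) / 2) ^ 2 + ((x 0 1 - x 1 0) / 2) ^ 2 := by
  rw [cosh_sq, aa_sinh, aa_det]; ring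

theorem aa_strip {A B : G} (ht : tr B = tr A) (hA : 2 ≤ |tr A|)
    (h : tr (B * A⁻¹) ≤ -2 ∨ 18 ≤ tr (B * A⁻¹)) : 3 ≤ cosh ((len A + len B) / 2) := by
  have hu := aa_half hA
  have s0 : ∀ x : G, 0 ≤ sinh (len x / 2) := fun x =>
    sinh_nonneg_iff.2 (by linarith only [len_nonneg x])
  have c0 : ∀ x : G, 0 ≤ cosh (len x / 2) := fun x => (cosh_pos _).le
  have h1 := abs_le.1 (aa_cs (aa_sinh A) (aa_sinh B) (s0 A) (s0 B))
  have h2 := abs_le.1 (aa_cs (aa_cosh_half A) (aa_cosh_half B) (c0 A) (c0 B))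
  have h3 := abs_le.1 (aa_cs (p' := (B 0 0 + B 1 1) / 2) (q' := -((B 0 1 - B 1 0) / 2)) (aa_cosh_half A)
    (by rw [neg_sq]; exact aa_cosh_half B) (c0 A) (c0 B))
  have e : tr (B * A⁻¹) = 2 * ((A 0 0 + A 1 1) / 2 * ((B 0 0 + B 1 1) / 2) +
      (A 0 1 - A 1 0) / 2 * ((B 0 1 - B 1 0) / 2) -
      ((A 0 0 - A 1 1) / 2 * ((B 0 0 - B 1 1) / 2) +
        (A 0 1 + A 1 0) / 2 * ((B 0 1 + B 1 0) / 2))) := by
    unfold tr
    simp only [basic_mul, basic_inv00, basic_inv01, basic_inv10, basic_inv11]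
    ring
  have e2 : (A 0 0 + A 1 1) / 2 * ((B 0 0 + B 1 1) / 2) = ((A 0 0 + A 1 1) / 2) ^ 2 := by
    unfold tr at ht; rw [ht]; ring
  rw [add_div, cosh_add]
  rw [mul_neg] at h3
  rcases h with h | h <;> linarith only [h1.1, h1.2, h2.2, h3.2, hu, e, e2, h]

/- Paper A3. -/
theorem Tor.strip {s A : G} (h : Tor s A) : 3 ≤ cosh ((len A + len (s * A * s⁻¹)) / 2) :=
  aa_strip (tr_conj A s) h.2.2 h.1

end Pool.Agent.MP_596265_gt

end
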