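import Pool.Agent.MP_596265_gt.B2

attribute [-instance] SMulZeroClass.toSMul GradedMonoid.GradeZero.smul AddQuantale.instAddLeftMono
  instCoeTCOfCoe NumberField.to_charZero IdemSemiring.toCanonicallyOrderedAdd Algebra.toSMul
  AddQuantale.instAddRightMono RKHS.instFunLike LinearOrderedCommMonoidWithZero.toPosMulStrictMono
  Quantale.instMulRightMono MonTypeEquivalenceMon.monMonoid SeminormedRing.toPseudoMetricSpace
  instDecidableAnd NonUnitalSeminormedRing.toPseudoMetricSpace littleWedderburn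
  instCoeHTCOfCoeHeadOfCoeOTC

-- part HA
section

namespace Pool.Agent.MP_596265_gt

open scoped UpperHalfPlane
open Real

variable {g : ℕ}

theorem Φ_inj : Function.Injective Φ := by
  intro p q h
  have h1 : p.re = q.re := congrArg Prod.fst h
  have h2 : p.re ^ 2 + p.im ^ 2 = q.re ^ 2 + q.im ^ 2 := congrArg Prod.snd h
  have h3 : p.im = q.im := by
    have h4 : p.im ^ 2 = q.im ^ 2 := by rw [h1] at h2; linarith
    exact (pow_left_inj₀ p.im_pos.le q.im_pos.le two_ne_zero).1 h4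
  exact UpperHalfPlane.ext (Complex.ext h1 h3)

theorem Φ_inH (z : ℍ) : InH (Φ z) := by
  have := z.im_pos
  simp only [InH, Φ]
  nlinarith only [this]

theorem exists_Φ {u : Pt} (h : InH u) : ∃ z : ℍ, Φ z = u := by
  have h0 : 0 < u.2 - u.1 ^ 2 := sub_pos.2 h
  refine ⟨⟨⟨u.1, sqrt (u.2 - u.1 ^ 2)⟩, sqrt_pos.2 h0⟩, ?_⟩
  refine Prod.ext rfl ?_
  change u.1 ^ 2 + sqrt (u.2 - u.1 ^ 2) ^ 2 = u.2
  rw [sq_sqrt h0.le]; ring

theorem InH.segment {p q u : Pt} (hp : InH p) (hq : InH q) (h : u ∈ segment ℝ p q) : InH u := by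
  obtain ⟨a, b, ha, hb, hab, rfl⟩ := h
  simp only [InH, Prod.fst_add, Prod.snd_add, Prod.smul_fst, Prod.smul_snd, smul_eq_mul] at *
  have e : (a * p.1 + b * q.1) ^ 2 = a * p.1 ^ 2 + b * q.1 ^ 2 - a * b * (p.1 - q.1) ^ 2 := by
    have : b = 1 - a := by linarith
    subst this; ring
  have h1 : 0 ≤ a * b * (p.1 - q.1) ^ 2 := by positivity
  have h2 : 0 ≤ a * (p.2 - p.1 ^ 2) := mul_nonneg ha (by linarith)
  have h3 : 0 ≤ b * (q.2 - q.1 ^ 2) := mul_nonneg hb (by linarith)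
  rcases ha.eq_or_lt with h0 | h0
  · have hb1 : b = 1 := by linarith only [ha, hab, h0]
    subst h0; subst hb1; simpa using hq
  · have h4 : 0 < a * (p.2 - p.1 ^ 2) := mul_pos h0 (by linarith only [hp])
    linarith only [e, h1, h3, h4]

theorem Seg.left (p q : ℍ) : Seg p q p := left_mem_segment ℝ _ _
theorem Seg.right (p q : ℍ) : Seg p q q := right_mem_segment ℝ _ _
theorem Seg.symm {p q z : ℍ} (h : Seg p q z) : Seg q p z := by
  unfold Seg at *; rwa [segment_symm]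
theorem OSeg.seg {p q z : ℍ} (h : OSeg p q z) : Seg p q z := openSegment_subset_segment ℝ _ _ h
theorem Seg.oseg {p q z : ℍ} (h : Seg p q z) (h1 : z ≠ p) (h2 : z ≠ q) : OSeg p q z :=
  mem_openSegment_of_ne_left_right (fun e => h1 (Φ_inj e).symm) (fun e => h2 (Φ_inj e).symm) h
theorem OSeg.ne {p q z : ℍ} (h : OSeg p q z) (hpq : p ≠ q) : z ≠ p ∧ z ≠ q := by
  constructor
  · rintro rfl
    exact hpq (Φ_inj (left_mem_openSegment_iff.1 h))
  · rintro rfl
    exact hpq (Φ_inj (right_mem_openSegment_iff.1 h))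

theorem cosh_dist_Φ (p q : ℍ) : cosh (dist p q) =
    ((Φ p).2 + (Φ q).2 - 2 * p.re * q.re) / (2 * p.im * q.im) := by
  rw [UpperHalfPlane.cosh_dist']
  congr 1
  simp only [Φ]; ring

/-- The denominator of the projective action. -/
def ha_D (A : G) (u : Pt) : ℝ := A 1 0 ^ 2 * u.2 + 2 * A 1 0 * A 1 1 * u.1 + A 1 1 ^ 2

theorem ha_D_eq (A : G) (z : ℍ) :
    ha_D A (Φ z) = (A 1 0 * z.re + A 1 1) ^ 2 + (A 1 0 * z.im) ^ 2 := by
  simp only [ha_D, Φ]; ring

theorem ha_normSq (A : G) (z : ℍ) :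
    Complex.normSq (((A 1 0 : ℝ) : ℂ) * z + (A 1 1 : ℝ)) = ha_D A (Φ z) := by
  rw [ha_D_eq, Complex.normSq_apply]
  simp only [Complex.add_re, Complex.mul_re, Complex.ofReal_re, Complex.ofReal_im,
    Complex.add_im, Complex.mul_im, UpperHalfPlane.coe_re, UpperHalfPlane.coe_im]
  ring

theorem ha_D_pos (A : G) (z : ℍ) : 0 < ha_D A (Φ z) := by
  rw [← ha_normSq]; exact Complex.normSq_pos.2 (basic_denom A z)

theorem ha_re (A : G) (z : ℍ) : (A • z).re =
    (A 0 0 * A 1 0 * (Φ z).2 + (A 0 0 * A 1 1 + A 0 1 * A 1 0) * (Φ z).1 + A 0 1 * A 1 1) /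
      ha_D A (Φ z) := by
  rw [← UpperHalfPlane.coe_re, basic_coe_smul, Complex.div_re, ha_normSq, ← add_div]
  congr 1
  simp only [Complex.add_re, Complex.mul_re, Complex.ofReal_re, Complex.ofReal_im,
    Complex.add_im, Complex.mul_im, UpperHalfPlane.coe_re, UpperHalfPlane.coe_im, Φ]
  ring

theorem ha_im (A : G) (z : ℍ) : (A • z).im = z.im / ha_D A (Φ z) := by
  rw [← UpperHalfPlane.coe_im, basic_coe_smul, Complex.div_im, ha_normSq, ← sub_div]
  congr 1
  simp only [Complex.add_re, Complex.mul_re, Complex.ofReal_re, Complex.ofReal_im,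
    Complex.add_im, Complex.mul_im, UpperHalfPlane.coe_re, UpperHalfPlane.coe_im]
  linear_combination z.im * basic_det A

theorem ha_fst (A : G) (z : ℍ) : (Φ (A • z)).1 =
    (A 0 0 * A 1 0 * (Φ z).2 + (A 0 0 * A 1 1 + A 0 1 * A 1 0) * (Φ z).1 + A 0 1 * A 1 1) /
      ha_D A (Φ z) := ha_re A z

theorem ha_snd (A : G) (z : ℍ) : (Φ (A • z)).2 =
    (A 0 0 ^ 2 * (Φ z).2 + 2 * A 0 0 * A 0 1 * (Φ z).1 + A 0 1 ^ 2) / ha_D A (Φ z) := by
  have hD := ha_D_pos A z
  have e : (Φ (A • z)).2 = (A • z).re ^ 2 + (A • z).im ^ 2 := rfl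
  rw [e, ha_re, ha_im, div_pow, div_pow, ← add_div, div_eq_div_iff (by positivity) hD.ne']
  have hd := basic_det A
  have h2 : (A 0 0 * A 1 0 * (Φ z).2 + (A 0 0 * A 1 1 + A 0 1 * A 1 0) * (Φ z).1 +
      A 0 1 * A 1 1) ^ 2 + z.im ^ 2 =
      (A 0 0 ^ 2 * (Φ z).2 + 2 * A 0 0 * A 0 1 * (Φ z).1 + A 0 1 ^ 2) * ha_D A (Φ z) := by
    simp only [ha_D, Φ]
    linear_combination (-z.im ^ 2 * (A 0 0 * A 1 1 - A 0 1 * A 1 0 + 1)) * hd
  rw [h2]; ring

theorem ha_comb (A : G) {p q z : ℍ} {a b : ℝ} (hab : a + b = 1) (h : a • Φ p + b • Φ q = Φ z) :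
    a * ha_D A (Φ p) / ha_D A (Φ z) + b * ha_D A (Φ q) / ha_D A (Φ z) = 1 ∧
    (a * ha_D A (Φ p) / ha_D A (Φ z)) • Φ (A • p) + (b * ha_D A (Φ q) / ha_D A (Φ z)) • Φ (A • q) =
      Φ (A • z) := by
  have hp := ha_D_pos A p
  have hq := ha_D_pos A q
  have hz := ha_D_pos A z
  have h1 : a * (Φ p).1 + b * (Φ q).1 = (Φ z).1 := congrArg Prod.fst h
  have h2 : a * (Φ p).2 + b * (Φ q).2 = (Φ z).2 := congrArg Prod.snd h
  refine ⟨?_, Prod.ext ?_ ?_⟩
  · rw [← add_div, div_eq_one_iff_eq hz.ne']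
    simp only [ha_D]
    linear_combination A 1 0 ^ 2 * h2 + 2 * A 1 0 * A 1 1 * h1 + A 1 1 ^ 2 * hab
  · simp only [Prod.fst_add, Prod.smul_fst, smul_eq_mul]
    rw [ha_fst, ha_fst, ha_fst]
    field_simp
    linear_combination A 0 0 * A 1 0 * h2 + (A 0 0 * A 1 1 + A 0 1 * A 1 0) * h1 +
      A 0 1 * A 1 1 * hab
  · simp only [Prod.snd_add, Prod.smul_snd, smul_eq_mul]
    rw [ha_snd, ha_snd, ha_snd]
    field_simp
    linear_combination A 0 0 ^ 2 * h2 + 2 * A 0 0 * A 0 1 * h1 + A 0 1 ^ 2 * hab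

theorem Seg.smul (A : G) {p q z : ℍ} (h : Seg p q z) : Seg (A • p) (A • q) (A • z) := by
  obtain ⟨a, b, ha, hb, hab, h⟩ := h
  have hp := ha_D_pos A p
  have hq := ha_D_pos A q
  have hz := ha_D_pos A z
  obtain ⟨h1, h2⟩ := ha_comb A hab h
  exact ⟨_, _, by positivity, by positivity, h1, h2⟩

theorem OSeg.smul (A : G) {p q z : ℍ} (h : OSeg p q z) : OSeg (A • p) (A • q) (A • z) := by
  obtain ⟨a, b, ha, hb, hab, h⟩ := h
  have hp := ha_D_pos A p
  have hq := ha_D_pos A q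
  have hz := ha_D_pos A z
  obtain ⟨h1, h2⟩ := ha_comb A hab h
  exact ⟨_, _, by positivity, by positivity, h1, h2⟩

theorem hdet_smul (A : G) (p q z : ℍ) :
    ∃ c : ℝ, 0 < c ∧ hdet (A • p) (A • q) (A • z) = c * hdet p q z := by
  have hp := ha_D_pos A p
  have hq := ha_D_pos A q
  have hz := ha_D_pos A z
  refine ⟨1 / (ha_D A (Φ p) * ha_D A (Φ q) * ha_D A (Φ z)), by positivity, ?_⟩
  have hd := basic_det A
  have h3 : (A 0 0 * A 1 1 - A 0 1 * A 1 0) ^ 3 = 1 := by rw [hd]; norm_num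
  simp only [hdet, det3]
  rw [ha_fst, ha_fst, ha_fst, ha_snd, ha_snd, ha_snd]
  field_simp
  simp only [ha_D]
  generalize (Φ p).1 = p1
  generalize (Φ p).2 = p2
  generalize (Φ q).1 = q1
  generalize (Φ q).2 = q2
  generalize (Φ z).1 = z1
  generalize (Φ z).2 = z2
  linear_combination (A 1 0 ^ 2 * p2 + 2 * A 1 0 * A 1 1 * p1 + A 1 1 ^ 2) *
    ((q1 - p1) * (z2 - p2) - (q2 - p2) * (z1 - p1)) * h3

/- From `kak`. -/
theorem normalise (p q : ℍ) : ∃ A : G, A • p = UpperHalfPlane.I ∧ (A • q).re = 0 ∧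
    (A • q).im = exp (dist p q) := by
  obtain ⟨h, hh⟩ := exists_smul_I p
  obtain ⟨k, hk⟩ := exists_smul_I (h⁻¹ • q)
  obtain ⟨θ, ψ, e⟩ := kak k
  have hp : h⁻¹ • p = UpperHalfPlane.I := by rw [← hh, inv_smul_smul]
  have hl : len k = dist p q := by
    unfold len; rw [hk, ← hp, dist_smul]
  have hq : ((rot θ)⁻¹ * h⁻¹) • q = dia (len k) • UpperHalfPlane.I := by
    rw [mul_smul, ← hk, inv_smul_eq_iff, ← mul_smul]
    conv_lhs => rw [e, mul_smul, rot_smul_I]
  refine ⟨(rot θ)⁻¹ * h⁻¹, ?_, ?_, ?_⟩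
  · rw [mul_smul, hp, inv_smul_eq_iff, rot_smul_I]
  · rw [hq, ha_re, basic_dia10, basic_dia01]
    simp [Φ]
  · rw [hq, ha_im, hl]
    simp only [ha_D, basic_dia10, basic_dia11, UpperHalfPlane.I_im]
    rw [← exp_nat_mul (-(dist p q / 2))]
    have : ((2 : ℕ) : ℝ) * -(dist p q / 2) = -dist p q := by push_cast; ring
    rw [this, exp_neg (dist p q)]; simp

/-- The lower unipotent matrix. -/
def ha_low (t : ℝ) : G := ⟨!![1, 0; t, 1], by rw [Matrix.det_fin_two_of]; simp⟩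

theorem ha_fin (a b c : ℝ) (h : a ≠ 0 ∨ b ≠ 0) : {t : ℝ | a + b * t + c * t ^ 2 = 0}.Finite := by
  have hp : (Polynomial.C a + Polynomial.C b * Polynomial.X + Polynomial.C c * Polynomial.X ^ 2 :
      Polynomial ℝ) ≠ 0 := by
    intro e
    have h0 := congrArg (fun P => Polynomial.coeff P 0) e
    have h1 := congrArg (fun P => Polynomial.coeff P 1) e
    simp only [Polynomial.coeff_add, Polynomial.coeff_C, ↓ reduceIte, Polynomial.mul_coeff_zero, Polynomial.coeff_X, one_ne_zero, mul_zero, add_zero, Polynomial.coeff_X_pow, OfNat.zero_ne_ofNat, Polynomial.coeff_zero, Polynomial.coeff_C_succ, Polynomial.coeff_mul_X, zero_add, Polynomial.coeff_C_mul, OfNat.one_ne_ofNat] at h0 h1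
    rcases h with h | h
    · exact h h0
    · exact h h1
  refine (Polynomial.finite_setOfPred_isRoot hp).subset fun t ht => ?_
  simpa only [Polynomial.IsRoot, Polynomial.eval_add, Polynomial.eval_C, Polynomial.eval_mul, Polynomial.eval_X, Polynomial.eval_pow, Set.mem_ofPred_eq] using ht

/-- A frame in which finitely many points have different abscissas. -/
theorem exists_generic (s : Finset ℍ) :
    ∃ A : G, ∀ p ∈ s, ∀ q ∈ s, p ≠ q → (A • p).re ≠ (A • q).re := by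
  have hf : ∀ p q : ℍ, {t : ℝ | p ≠ q ∧ (ha_low t • p).re = (ha_low t • q).re}.Finite := by
    intro p q
    by_cases hpq : p = q
    · simp [hpq]
    have hne : (Φ p).1 - (Φ q).1 ≠ 0 ∨ (Φ p).2 - (Φ q).2 ≠ 0 := by
      by_contra hc
      push Not at hc
      exact hpq (Φ_inj (Prod.ext (sub_eq_zero.1 hc.1) (sub_eq_zero.1 hc.2)))
    refine (ha_fin _ _ ((Φ p).2 * (Φ q).1 - (Φ p).1 * (Φ q).2) hne).subset fun t ht => ?_
    have h := ht.2
    rw [ha_re, ha_re, div_eq_div_iff (ha_D_pos _ p).ne' (ha_D_pos _ q).ne'] at h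
    have e00 : ha_low t 0 0 = 1 := rfl
    have e01 : ha_low t 0 1 = 0 := rfl
    have e10 : ha_low t 1 0 = t := rfl
    have e11 : ha_low t 1 1 = 1 := rfl
    simp only [ha_D, e00, e01, e10, e11] at h
    change _ = _
    linear_combination h
  have hU : (⋃ p ∈ (s : Set ℍ), ⋃ q ∈ (s : Set ℍ),
      {t : ℝ | p ≠ q ∧ (ha_low t • p).re = (ha_low t • q).re}).Finite :=
    s.finite_toSet.biUnion fun p _ => s.finite_toSet.biUnion fun q _ => hf p q
  obtain ⟨t, ht⟩ := hU.exists_notMem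
  refine ⟨ha_low t, fun p hp q hq hpq e => ht ?_⟩
  simp only [Set.mem_iUnion]
  exact ⟨p, hp, q, hq, hpq, e⟩

end Pool.Agent.MP_596265_gt

end

-- part HD
section

namespace Pool.Agent.MP_596265_gt

open scoped UpperHalfPlane
open Real

variable {g : ℕ}

theorem hd_vert {P Q Z : ℍ} {d : ℝ} (hd : 0 ≤ d) (hP : P = UpperHalfPlane.I) (hQ : Q.re = 0)
    (hQ' : Q.im = exp d) (h : Seg P Q Z) : Z.re = 0 ∧ 0 ≤ log Z.im ∧ log Z.im ≤ d := by
  obtain ⟨a, b, ha, hb, hab, e⟩ := h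
  have e1 := congrArg Prod.fst e
  have e2 := congrArg Prod.snd e
  simp only [Φ, hP, hQ, hQ', Prod.fst_add, Prod.snd_add, Prod.smul_fst, Prod.smul_snd,
    smul_eq_mul, UpperHalfPlane.I_re, UpperHalfPlane.I_im] at e1 e2
  have hz : Z.re = 0 := by linarith only [e1]
  have hE : 1 ≤ exp d := one_le_exp hd
  have hy := Z.im_pos
  rw [hz] at e2
  have hE2 : 1 ≤ exp d ^ 2 := by nlinarith only [hE]
  have h1 : 1 ≤ Z.im := by
    by_contra hc
    push Not at hc
    nlinarith only [mul_nonneg hb (sub_nonneg.2 hE2), hab, e2, hy, hc]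
  have h2 : Z.im ≤ exp d := by
    by_contra hc
    push Not at hc
    nlinarith only [mul_nonneg ha (sub_nonneg.2 hE2), hab, e2, hE, hc]
  exact ⟨hz, log_nonneg h1, (log_le_iff_le_exp hy).2 h2⟩

theorem hd_dist {z w : ℍ} (hz : z.re = 0) (hw : w.re = 0) :
    dist z w = |log z.im - log w.im| := by
  rw [UpperHalfPlane.dist_of_re_eq (hz.trans hw.symm), Real.dist_eq]

theorem Seg.dist_add {p q z : ℍ} (h : Seg p q z) : dist p z + dist z q = dist p q := by
  obtain ⟨A, h1, h2, h3⟩ := normalise p q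
  obtain ⟨z0, z1, z2⟩ := hd_vert dist_nonneg h1 h2 h3 (h.smul A)
  have a1 : dist p z = log (A • z).im := by
    rw [← dist_smul A, h1, hd_dist UpperHalfPlane.I_re z0, UpperHalfPlane.I_im, log_one, zero_sub,
      abs_neg, abs_of_nonneg z1]
  have a2 : dist z q = dist p q - log (A • z).im := by
    rw [← dist_smul A z, hd_dist z0 h2, h3, log_exp, abs_sub_comm,
      abs_of_nonneg (sub_nonneg.2 z2)]
  rw [a1, a2]; ring

theorem Seg.dist_order {p q u v : ℍ} (hu : Seg p q u) (hv : Seg p q v) :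
    dist p u + dist u v + dist v q = dist p q ∨ dist p v + dist v u + dist u q = dist p q := by
  obtain ⟨A, h1, h2, h3⟩ := normalise p q
  obtain ⟨u0, u1, -⟩ := hd_vert dist_nonneg h1 h2 h3 (hu.smul A)
  obtain ⟨v0, v1, -⟩ := hd_vert dist_nonneg h1 h2 h3 (hv.smul A)
  have a1 : dist p u = log (A • u).im := by
    rw [← dist_smul A, h1, hd_dist UpperHalfPlane.I_re u0, UpperHalfPlane.I_im, log_one, zero_sub,
      abs_neg, abs_of_nonneg u1]
  have a2 : dist p v = log (A • v).im := by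
    rw [← dist_smul A, h1, hd_dist UpperHalfPlane.I_re v0, UpperHalfPlane.I_im, log_one, zero_sub,
      abs_neg, abs_of_nonneg v1]
  have a3 : dist u v = |log (A • u).im - log (A • v).im| := by
    rw [← dist_smul A, hd_dist u0 v0]
  have b1 := hu.dist_add
  have b2 := hv.dist_add
  rw [dist_comm v u]
  rcases le_total (log (A • u).im) (log (A • v).im) with hle | hle
  · left
    rw [abs_sub_comm, abs_of_nonneg (sub_nonneg.2 hle)] at a3
    linarith only [a1, a2, a3, b2]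
  · right
    rw [abs_of_nonneg (sub_nonneg.2 hle)] at a3
    linarith only [a1, a2, a3, b1]

theorem hd_ext {P Z : ℍ} {a b : ℝ} (ha : 0 < a) (hP : P.re = 0) (hP' : P.im = exp a)
    (hb : dist UpperHalfPlane.I Z = b) (hab : dist P Z = a + b) : Z.re = 0 ∧ log Z.im = -b := by
  have c1 := cosh_dist_Φ UpperHalfPlane.I Z
  have c2 := cosh_dist_Φ P Z
  simp only [Φ, hP, hP', hb, hab, UpperHalfPlane.I_re, UpperHalfPlane.I_im] at c1 c2
  have hy := Z.im_pos
  have hE : 1 < exp a := one_lt_exp_iff.2 ha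
  have hF := exp_pos b
  have hE0 := exp_pos a
  rw [cosh_eq, exp_neg] at c1
  rw [cosh_eq, exp_neg, exp_add] at c2
  generalize exp a = E at *
  have hFb : log (exp b) = b := log_exp b
  generalize exp b = F at *
  generalize Z.re = x at *
  generalize Z.im = y at *
  have d1 : (F ^ 2 + 1) * y = (1 + (x ^ 2 + y ^ 2)) * F := by
    field_simp at c1
    linarith only [c1]
  have d2 : ((E * F) ^ 2 + 1) * y = (E ^ 2 + (x ^ 2 + y ^ 2)) * F := by
    field_simp at c2
    linarith only [c2]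
  have hE2 : E ^ 2 - 1 ≠ 0 := by nlinarith only [hE]
  have d3 : F * y = 1 := by
    have : (E ^ 2 - 1) * (F * (F * y - 1)) = 0 := by linear_combination d2 - d1
    rcases mul_eq_zero.1 this with h | h
    · exact absurd h hE2
    · rcases mul_eq_zero.1 h with h | h
      · exact absurd h hF.ne'
      · linarith only [h]
  have d4 : x ^ 2 * F = 0 := by linear_combination -d1 + (F - y) * d3
  have d5 : x = 0 := by
    rcases mul_eq_zero.1 d4 with h | h
    · exact pow_eq_zero_iff two_ne_zero |>.1 h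
    · exact absurd h hF.ne'
  refine ⟨d5, ?_⟩
  have := log_mul hF.ne' hy.ne'
  rw [d3, log_one] at this
  linarith only [hFb, this]

/-- Geodesics do not branch. -/
theorem non_branch {p o q q' : ℍ} (h : dist p o + dist o q = dist p q)
    (h' : dist p o + dist o q' = dist p q') (hp : p ≠ o) :
    dist q q' = |dist o q - dist o q'| := by
  obtain ⟨A, h1, h2, h3⟩ := normalise o p
  have ha : 0 < dist o p := dist_pos.2 hp.symm
  obtain ⟨u0, u1⟩ := hd_ext (Z := A • q) (b := dist o q) ha h2 h3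
    (by rw [← h1, dist_smul]) (by rw [dist_smul, dist_comm o p, h])
  obtain ⟨v0, v1⟩ := hd_ext (Z := A • q') (b := dist o q') ha h2 h3
    (by rw [← h1, dist_smul]) (by rw [dist_smul, dist_comm o p, h'])
  rw [← dist_smul A q, hd_dist u0 v0, u1, v1, abs_sub_comm]
  congr 1; ring

/-- Balls are convex. -/
theorem Seg.dist_le {p q z : ℍ} (h : Seg p q z) (y : ℍ) :
    dist y z ≤ max (dist y p) (dist y q) := by
  obtain ⟨a, b, ha, hb, hab, e⟩ := h
  have e1 := congrArg Prod.fst e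
  have e2 := congrArg Prod.snd e
  simp only [Φ, Prod.fst_add, Prod.snd_add, Prod.smul_fst, Prod.smul_snd, smul_eq_mul] at e1 e2
  have hm : 0 ≤ max (dist y p) (dist y q) := le_max_of_le_left dist_nonneg
  have m1 : cosh (dist y p) ≤ cosh (max (dist y p) (dist y q)) := by
    rw [cosh_le_cosh, abs_of_nonneg dist_nonneg, abs_of_nonneg hm]; exact le_max_left _ _
  have m2 : cosh (dist y q) ≤ cosh (max (dist y p) (dist y q)) := by
    rw [cosh_le_cosh, abs_of_nonneg dist_nonneg, abs_of_nonneg hm]; exact le_max_right _ _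
  have key : cosh (dist y z) ≤ cosh (max (dist y p) (dist y q)) := by
    have hM := cosh_pos (max (dist y p) (dist y q))
    generalize cosh (max (dist y p) (dist y q)) = M at *
    have hy := y.im_pos
    have hp := p.im_pos
    have hq := q.im_pos
    have hz := z.im_pos
    rw [cosh_dist_Φ, div_le_iff₀ (by positivity)] at m1 m2 ⊢
    simp only [Φ] at m1 m2 ⊢
    have hb' : b = 1 - a := by linarith only [hab]
    have s1 : (a * p.im + b * q.im) ^ 2 ≤ z.im ^ 2 := by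
      have t1 : z.im ^ 2 - (a * p.im + b * q.im) ^ 2 =
          a * b * ((p.re - q.re) ^ 2 + (p.im - q.im) ^ 2) := by
        have t2 : z.im ^ 2 = a * (p.re ^ 2 + p.im ^ 2) + b * (q.re ^ 2 + q.im ^ 2) -
            (a * p.re + b * q.re) ^ 2 := by rw [e1]; linarith only [e2]
        rw [t2, hb']; ring
      have t3 : 0 ≤ a * b * ((p.re - q.re) ^ 2 + (p.im - q.im) ^ 2) := by positivity
      linarith only [t1, t3]
    have s2 : a * p.im + b * q.im ≤ z.im := (abs_le_of_sq_le_sq' s1 hz.le).2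
    have s3 := mul_le_mul_of_nonneg_left m1 ha
    have s4 := mul_le_mul_of_nonneg_left m2 hb
    have s5 := mul_le_mul_of_nonneg_left s2 (by positivity : 0 ≤ M * (2 * y.im))
    have s6 : y.re ^ 2 + y.im ^ 2 + (z.re ^ 2 + z.im ^ 2) - 2 * y.re * z.re =
        a * (y.re ^ 2 + y.im ^ 2 + (p.re ^ 2 + p.im ^ 2) - 2 * y.re * p.re) +
        b * (y.re ^ 2 + y.im ^ 2 + (q.re ^ 2 + q.im ^ 2) - 2 * y.re * q.re) := by
      linear_combination (-(y.re ^ 2 + y.im ^ 2)) * hab - e2 + 2 * y.re * e1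
    rw [s6]
    linarith only [s3, s4, s5]
  rwa [cosh_le_cosh, abs_of_nonneg dist_nonneg, abs_of_nonneg hm] at key

theorem log_le_dist (z z' : ℍ) : |log (Φ z).2 - log (Φ z').2| ≤ 2 * dist z z' := by
  have hy := z.im_pos
  have hy' := z'.im_pos
  have hr : 0 < (Φ z).2 := by simp only [Φ]; positivity
  have hr' : 0 < (Φ z').2 := by simp only [Φ]; positivity
  obtain ⟨s, hs, es⟩ : ∃ s : ℝ, 0 < s ∧ (Φ z).2 = s ^ 2 :=
    ⟨sqrt _, sqrt_pos.2 hr, (sq_sqrt hr.le).symm⟩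
  obtain ⟨t, ht, et⟩ : ∃ t : ℝ, 0 < t ∧ (Φ z').2 = t ^ 2 :=
    ⟨sqrt _, sqrt_pos.2 hr', (sq_sqrt hr'.le).symm⟩
  have key : cosh (log s - log t) ≤ cosh (dist z z') := by
    rw [cosh_dist_Φ, es, et, cosh_eq, neg_sub, exp_sub, exp_sub, exp_log hs, exp_log ht]
    simp only [Φ] at es et
    have e : (s / t + t / s) / 2 = (s ^ 2 + t ^ 2) / (2 * s * t) := by field_simp
    rw [e, div_le_div_iff₀ (by positivity) (by positivity)]
    have hst := mul_pos hs ht
    have c1 : (z.re * z'.re + z.im * z'.im) ^ 2 ≤ (s * t) ^ 2 := by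
      rw [mul_pow, ← es, ← et]
      linarith only [sq_nonneg (z.re * z'.im - z.im * z'.re)]
    have c2 : z.re * z'.re + z.im * z'.im ≤ s * t := (abs_le_of_sq_le_sq' c1 hst.le).2
    have c3 : (z.im * z'.im) ^ 2 ≤ (s * t) ^ 2 := by
      rw [mul_pow, mul_pow, ← es, ← et]
      exact mul_le_mul (by linarith only [sq_nonneg z.re]) (by linarith only [sq_nonneg z'.re])
        (by positivity) (by positivity)
    have c4 : z.im * z'.im ≤ s * t := (abs_le_of_sq_le_sq' c3 hst.le).2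
    have c5 := mul_nonneg (sq_nonneg (s - t)) (sub_nonneg.2 c4)
    have c6 := mul_nonneg hst.le (sub_nonneg.2 c2)
    linarith only [c5, c6]
  rw [cosh_le_cosh, abs_of_nonneg dist_nonneg] at key
  rw [es, et, log_pow, log_pow, ← mul_sub, abs_mul]
  norm_num only [mul_le_mul_iff_right₀, ge_iff_le]
  linarith

end Pool.Agent.MP_596265_gt

end

-- part HB
section

namespace Pool.Agent.MP_596265_gt

open scoped UpperHalfPlane
open Real

variable {g : ℕ}

theorem ar_anti (p q : Pt) : ar q p = -ar p q := by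
  unfold ar
  rw [add_comm (sqrt (q.2 - q.1 ^ 2)), ← neg_sub q.1 p.1, neg_div, arctan_neg, mul_neg]
theorem har_anti (p q : ℍ) : har q p = -har p q := ar_anti _ _
theorem har_eq (p q : ℍ) : har p q = 2 * arctan ((q.re - p.re) / (p.im + q.im)) := by
  have h : ∀ z : ℍ, sqrt (z.re ^ 2 + z.im ^ 2 - z.re ^ 2) = z.im := fun z => by
    rw [add_sub_cancel_left, sqrt_sq z.im_pos.le]
  unfold har ar Φ
  simp only [h]

theorem hb_arg {w : ℂ} (hw : 0 < w.im) : Complex.arg w = π / 2 - arctan (w.re / w.im) := by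
  have c0 := cos_arctan_pos (w.re / w.im)
  have h1 := arctan_lt_pi_div_two (w.re / w.im)
  have h2 := neg_pi_div_two_lt_arctan (w.re / w.im)
  have e2 : sin (arctan (w.re / w.im)) = w.re / w.im * cos (arctan (w.re / w.im)) := by
    have := tan_arctan (w.re / w.im)
    rw [tan_eq_sin_div_cos, div_eq_iff c0.ne'] at this
    exact this
  have key := Complex.arg_mul_cos_add_sin_mul_I (div_pos hw c0)
    (θ := π / 2 - arctan (w.re / w.im)) ⟨by linarith only [h1, h2], by linarith only [h2]⟩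
  rw [← key]
  congr 1
  rw [← Complex.ofReal_cos, ← Complex.ofReal_sin, cos_pi_div_two_sub, sin_pi_div_two_sub, e2]
  apply Complex.ext
  · simp only [Complex.mul_re, Complex.add_re, Complex.ofReal_re, Complex.ofReal_im,
      Complex.I_re, Complex.I_im, Complex.add_im, Complex.mul_im]
    field_simp
    ring
  · simp only [Complex.mul_re, Complex.add_re, Complex.ofReal_re, Complex.ofReal_im,
      Complex.I_re, Complex.I_im, Complex.add_im, Complex.mul_im]
    field_simp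
    ring

theorem hb_im (p q : ℍ) : 0 < ((q : ℂ) - (starRingEnd ℂ) p).im := by
  have h1 := p.im_pos
  have h2 := q.im_pos
  rw [Complex.sub_im, Complex.conj_im, UpperHalfPlane.coe_im, UpperHalfPlane.coe_im]
  linarith

theorem hb_har (p q : ℍ) : har p q = π - 2 * Complex.arg ((q : ℂ) - (starRingEnd ℂ) p) := by
  rw [har_eq, hb_arg (hb_im p q), Complex.sub_im, Complex.conj_im, Complex.sub_re, Complex.conj_re,
    UpperHalfPlane.coe_im, UpperHalfPlane.coe_im, UpperHalfPlane.coe_re, UpperHalfPlane.coe_re,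
    sub_neg_eq_add, add_comm q.im]
  ring

theorem hb_bd {w : ℂ} (hw : 0 < w.im) : 0 < Complex.arg w ∧ Complex.arg w < π := by
  have h1 := arctan_lt_pi_div_two (w.re / w.im)
  have h2 := neg_pi_div_two_lt_arctan (w.re / w.im)
  rw [hb_arg hw]
  constructor <;> linarith only [h1, h2]

theorem hb_close (c d : ℝ) (p q : ℍ) :
    |Complex.arg ((c : ℂ) * q + d) - Complex.arg ((c : ℂ) * p + d)| < π := by
  have him : ∀ z : ℍ, ((c : ℂ) * z + d).im = c * z.im := fun z => by simp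
  rcases lt_trichotomy c 0 with h | h | h
  · have hn : ∀ z : ℍ, -π < Complex.arg ((c : ℂ) * z + d) ∧ Complex.arg ((c : ℂ) * z + d) < 0 :=
      fun z => ⟨Complex.neg_pi_lt_arg _, Complex.arg_neg_iff.2 (by
        rw [him]; exact mul_neg_of_neg_of_pos h z.im_pos)⟩
    rw [abs_lt]
    constructor <;> linarith [(hn p).1, (hn p).2, (hn q).1, (hn q).2]
  · subst h
    simpa using pi_pos
  · have hp : ∀ z : ℍ, 0 < Complex.arg ((c : ℂ) * z + d) ∧ Complex.arg ((c : ℂ) * z + d) < π :=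
      fun z => hb_bd (by rw [him]; exact mul_pos h z.im_pos)
    rw [abs_lt]
    constructor <;> linarith [(hp p).1, (hp p).2, (hp q).1, (hp q).2]

/- Paper section 4: `har p q = π - 2 arg (q - conj p)`. -/
theorem har_smul_arg (A : G) (p q : ℍ) : har (A • p) (A • q) = har p q +
    2 * Complex.arg (((A 1 0 : ℝ) : ℂ) * q + (A 1 1 : ℝ)) -
    2 * Complex.arg (((A 1 0 : ℝ) : ℂ) * p + (A 1 1 : ℝ)) := by
  have hq := basic_denom A q
  have hp := basic_denom A p
  have hp' : (starRingEnd ℂ) (((A 1 0 : ℝ) : ℂ) * p + (A 1 1 : ℝ)) ≠ 0 := (map_ne_zero _).2 hp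
  have hd : ((A 0 0 : ℝ) : ℂ) * (A 1 1 : ℝ) - (A 0 1 : ℝ) * (A 1 0 : ℝ) = 1 := by
    exact_mod_cast basic_det A
  have i1 := hb_im (A • p) (A • q)
  have i2 := hb_im p q
  have n1 : ((A • q : ℍ) : ℂ) - (starRingEnd ℂ) (A • p : ℍ) ≠ 0 := fun h => by
    rw [h] at i1; exact lt_irrefl _ i1
  have e : (q : ℂ) - (starRingEnd ℂ) p = (((A • q : ℍ) : ℂ) - (starRingEnd ℂ) (A • p : ℍ)) *
      (((A 1 0 : ℝ) : ℂ) * q + (A 1 1 : ℝ)) *
      (starRingEnd ℂ) (((A 1 0 : ℝ) : ℂ) * p + (A 1 1 : ℝ)) := by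
    rw [basic_coe_smul, basic_coe_smul, map_div₀, div_sub_div _ _ hq hp', mul_assoc,
      div_mul_cancel₀ _ (mul_ne_zero hq hp')]
    simp only [map_add, map_mul, Complex.conj_ofReal]
    linear_combination (-((q : ℂ) - (starRingEnd ℂ) p)) * hd
  have a1 := congrArg (fun z : ℂ => (Complex.arg z : Real.Angle)) e
  rw [Complex.arg_mul_coe_angle (mul_ne_zero n1 hq) hp', Complex.arg_mul_coe_angle n1 hq,
    Complex.arg_conj_coe_angle, ← Real.Angle.coe_neg, ← Real.Angle.coe_add, ← Real.Angle.coe_add,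
    Real.Angle.angle_eq_iff_two_pi_dvd_sub] at a1
  obtain ⟨k, hk⟩ := a1
  have b1 := hb_bd i1
  have b2 := hb_bd i2
  have b3 := abs_lt.1 (hb_close (A 1 0) (A 1 1) p q)
  have k1 : (k : ℝ) < 1 := by
    by_contra hc
    nlinarith only [b2.2, b3.1, hk, b1, hc]
  have k2 : (-1 : ℝ) < k := by
    by_contra hc
    nlinarith only [b2.1, b3.2, hk, b1, hc]
  have k3 : k < 1 := by exact_mod_cast k1
  have k4 : -1 < k := by exact_mod_cast k2
  have k0 : k = 0 := by omega
  rw [k0] at hk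
  rw [hb_har, hb_har]
  push_cast at hk
  linarith only [hk]
theorem harea_eq (n : ℕ) (V : ℕ → ℍ) : harea n V = parea n fun k => Φ (V k) := rfl
theorem harea_smul (A : G) {n : ℕ} {V : ℕ → ℍ} (hcl : V n = V 0) :
    harea n (fun k => A • V k) = harea n V := by
  have h := Finset.sum_range_sub
    (fun k => 2 * Complex.arg (((A 1 0 : ℝ) : ℂ) * V k + (A 1 1 : ℝ))) n
  rw [hcl, sub_self] at h
  unfold harea
  simp only [har_smul_arg, add_sub_assoc]
  rw [Finset.sum_add_distrib, h, add_zero]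
theorem har_tri_smul (A : G) (a b c : ℍ) :
    har (A • a) (A • b) + har (A • b) (A • c) + har (A • c) (A • a) =
      har a b + har b c + har c a := by
  simp only [har_smul_arg]
  ring
theorem vtx_smul (M : Gen g → G) (h : G) (w : List (Dt g)) (k : ℕ) :
    vtx M h w k = h • vtx M 1 w k := by
  unfold vtx
  rw [one_mul, mul_smul]
theorem vtx_zero (M : Gen g → G) (w : List (Dt g)) : vtx M 1 w 0 = UpperHalfPlane.I := by
  unfold vtx
  rw [List.take_zero, lab_nil, mul_one, one_smul]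
theorem vtx_length {M : Gen g → G} {w : List (Dt g)} (h : PM (lab M w) 1) :
    vtx M 1 w w.length = UpperHalfPlane.I := by
  unfold vtx
  rw [List.take_length, one_mul, h.smul_eq, one_smul]
theorem warea_cons (M : Gen g → G) (h : G) (d : Dt g) (w : List (Dt g)) :
    warea M h (d :: w) = har (h • UpperHalfPlane.I) ((h * dlab M d) • UpperHalfPlane.I) +
      warea M (h * dlab M d) w := by
  unfold warea harea vtx
  rw [List.length_cons, Finset.sum_range_succ', add_comm]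
  simp only [List.take_succ_cons, List.take_zero, lab_cons, lab_nil, mul_one, mul_assoc, zero_add]
theorem warea_append (M : Gen g → G) (h : G) (A B : List (Dt g)) :
    warea M h (A ++ B) = warea M h A + warea M (h * lab M A) B := by
  induction A generalizing h with
  | nil => simp [warea, harea]
  | cons d A ih => rw [List.cons_append, warea_cons, warea_cons, ih, lab_cons, mul_assoc, add_assoc]
theorem warea_frame {M : Gen g → G} {w : List (Dt g)} (hw : PM (lab M w) 1) (h : G) :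
    warea M h w = warea M 1 w := by
  unfold warea
  rw [← harea_smul h (V := vtx M 1 w) (by rw [vtx_length hw, vtx_zero])]
  congr 1
  funext k
  exact vtx_smul M h w k
theorem hb_pm {M : Gen g → G} {h h' : G} (H : PM h h') (w : List (Dt g)) :
    warea M h w = warea M h' w := by
  unfold warea
  congr 1
  funext k
  exact (H.mul (PM.refl _)).smul_eq _
theorem warea_rot {M : Gen g → G} {A B : List (Dt g)} (hw : PM (lab M (A ++ B)) 1) :
    warea M 1 (B ++ A) = warea M 1 (A ++ B) := by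
  rw [lab_append] at hw
  have h1 : PM (lab M (B ++ A)) 1 := by
    have h2 := ((PM.refl (lab M A)⁻¹).mul hw).mul (PM.refl (lab M A))
    rw [inv_mul_cancel_left, mul_one, inv_mul_cancel] at h2
    rwa [lab_append]
  rw [← warea_frame h1 (lab M A), warea_append, warea_append, hb_pm hw, one_mul, add_comm]
theorem continuous_warea (w : List (Dt g)) : Continuous fun M : Gen g → G => warea M 1 w := by
  have hv : ∀ k, Continuous fun M : Gen g → G => vtx M 1 w k := fun k =>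
    UpperHalfPlane.isProperMap_smul_I.continuous.comp (continuous_const.mul (continuous_lab _))
  unfold warea harea
  refine continuous_finsetSum _ fun k _ => ?_
  simp only [har_eq]
  refine continuous_const.mul (continuous_arctan.comp (Continuous.div ?_ ?_ fun M => ?_))
  · exact (UpperHalfPlane.continuous_re.comp (hv _)).sub (UpperHalfPlane.continuous_re.comp (hv _))
  · exact (UpperHalfPlane.continuous_im.comp (hv _)).add (UpperHalfPlane.continuous_im.comp (hv _))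
  · exact (add_pos (UpperHalfPlane.im_pos _) (UpperHalfPlane.im_pos _)).ne'

end Pool.Agent.MP_596265_gt

end

-- part HC
section

namespace Pool.Agent.MP_596265_gt

open scoped UpperHalfPlane
open Real

variable {g : ℕ}

theorem hc_K {A : G} {f : ℝ ≃o ℝ} (h : Lift A f) :
    A 1 0 * cos (π * f⁻¹ 0) + A 1 1 * sin (π * f⁻¹ 0) = 0 := by
  obtain ⟨c, -, e⟩ := h.2 (f⁻¹ 0)
  have e1 := congrFun e 1
  rw [lifts_mv, RelIso.apply_inv_self, Pi.smul_apply, lifts_v0, lifts_v1, lifts_v1] at e1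
  simpa only [Fin.isValue, mul_zero, sin_zero, smul_eq_mul] using e1

theorem hc_arg {w : ℂ} (hw : w ≠ 0) {t : ℝ} (h : w.im * cos t + w.re * sin t = 0) :
    ∃ k : ℤ, k * π = Complex.arg w + t := by
  rw [← sin_eq_zero_iff, sin_add, Complex.sin_arg, Complex.cos_arg hw, div_mul_eq_mul_div,
    div_mul_eq_mul_div, ← add_div, h, zero_div]

theorem hc_alg {x y r t C S C0 S0 : ℝ} (h0 : S0 ^ 2 + C0 ^ 2 = 1) (h1 : r * C0 + t * S0 = 0)
    (hne : r ≠ 0 ∨ t ≠ 0) (h2 : (x * r + y * t) * C + (x * t - y * r) * S = 0) :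
    y * (C * C0 + S * S0) + x * (S * C0 - C * S0) = 0 := by
  have hr : r = -(t * C0 - r * S0) * S0 := by linear_combination C0 * h1 - r * h0
  have ht : t = (t * C0 - r * S0) * C0 := by linear_combination S0 * h1 - t * h0
  generalize t * C0 - r * S0 = l at hr ht
  have hl : l ≠ 0 := by
    rintro rfl
    rcases hne with a | a
    · exact a (by rw [hr]; ring)
    · exact a (by rw [ht]; ring)
  subst hr ht
  apply mul_left_cancel₀ hl
  linear_combination h2

theorem hc_int {k : ℤ} {a : ℝ} (h : k * π = a) {m : ℤ} (h1 : (m - 1) * π < a)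
    (h2 : a < (m + 1) * π) : a = m * π := by
  rw [← h] at h1 h2 ⊢
  have a1 : ((m : ℝ) - 1) < k := lt_of_mul_lt_mul_right h1 pi_pos.le
  have a2 : (k : ℝ) < m + 1 := lt_of_mul_lt_mul_right h2 pi_pos.le
  have b1 : m - 1 < k := by exact_mod_cast a1
  have b2 : k < m + 1 := by exact_mod_cast a2
  have : k = m := by omega
  rw [this]

theorem hc_pos {w : ℂ} (h : 0 < w.im) : 0 < Complex.arg w ∧ Complex.arg w < π :=
  ⟨lt_of_le_of_ne (Complex.arg_nonneg_iff.mpr h.le)
      fun e => h.ne' (Complex.arg_eq_zero_iff.mp e.symm).2,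
    Complex.arg_lt_pi_iff.mpr (Or.inr h.ne')⟩

theorem hc_neg {w : ℂ} (h : w.im < 0) : -π < Complex.arg w ∧ Complex.arg w < 0 :=
  ⟨Complex.neg_pi_lt_arg w, Complex.arg_neg_iff.mpr h⟩

/- The cocycle identity. -/
theorem hc_coc {A B : G} {f f' : ℝ ≃o ℝ} (h : Lift A f) (h' : Lift B f') :
    Complex.arg (((A 1 0 : ℝ) : ℂ) * (B • UpperHalfPlane.I : ℍ) + (A 1 1 : ℝ)) -
      Complex.arg (((A 1 0 : ℝ) : ℂ) * (UpperHalfPlane.I : ℍ) + (A 1 1 : ℝ)) =
      -(π * (f * f')⁻¹ 0) + π * f'⁻¹ 0 + π * f⁻¹ 0 := by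
  have K1 := hc_K h
  have K2 := hc_K h'
  have K3 := hc_K (h.mul h')
  have hu := h'.inv
  have e0 : (f * f')⁻¹ 0 = f'⁻¹ (f⁻¹ 0) := by rw [mul_inv_rev, RelIso.mul_apply]
  rw [e0] at K3 ⊢
  generalize f'⁻¹ = u at *
  generalize f⁻¹ 0 = s at *
  have dA := basic_det A
  have dB := basic_det B
  by_cases hc : A 1 0 = 0
  · have hd : A 1 1 ≠ 0 := fun e => by rw [hc, e] at dA; simp at dA
    rw [hc, zero_mul, zero_add] at K1
    obtain ⟨k, hk⟩ := sin_eq_zero_iff.mp ((mul_eq_zero.mp K1).resolve_left hd)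
    have hs : s = 0 + k := by
      apply mul_left_cancel₀ pi_pos.ne'; linarith only [hk]
    rw [hs, hu.add_int, hc]
    simp only [Complex.ofReal_zero, zero_mul, sub_self]
    ring
  · have hw := basic_denom A (B • UpperHalfPlane.I)
    have hv := basic_denom A UpperHalfPlane.I
    have hz := basic_coe_smul B UpperHalfPlane.I
    have hB := basic_denom B UpperHalfPlane.I
    have him : (((A 1 0 : ℝ) : ℂ) * (B • UpperHalfPlane.I : ℍ) + (A 1 1 : ℝ)).im =
        A 1 0 * (B • UpperHalfPlane.I : ℍ).im := by simp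
    have hzp : 0 < (B • UpperHalfPlane.I : ℍ).im := UpperHalfPlane.im_pos _
    have hm : (((A 1 0 : ℝ) : ℂ) * (B • UpperHalfPlane.I : ℍ) + (A 1 1 : ℝ)) *
        (((B 1 0 : ℝ) : ℂ) * (UpperHalfPlane.I : ℍ) + (B 1 1 : ℝ)) =
        (((A * B) 1 0 : ℝ) : ℂ) * (UpperHalfPlane.I : ℍ) + ((A * B) 1 1 : ℝ) := by
      rw [add_mul, mul_assoc, hz, div_mul_cancel₀ _ hB, basic_mul, basic_mul]
      push_cast
      ring
    set w := ((A 1 0 : ℝ) : ℂ) * (B • UpperHalfPlane.I : ℍ) + (A 1 1 : ℝ) with hwd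
    set v := ((A 1 0 : ℝ) : ℂ) * (UpperHalfPlane.I : ℍ) + (A 1 1 : ℝ) with hvd
    have vim : v.im = A 1 0 := by simp [hvd]
    have vre : v.re = A 1 1 := by simp [hvd]
    have m1 := congrArg Complex.re hm
    have m2 := congrArg Complex.im hm
    simp only [UpperHalfPlane.coe_I, Complex.mul_re, Complex.mul_im, Complex.add_re,
      Complex.add_im, Complex.ofReal_re, Complex.ofReal_im, Complex.I_re, Complex.I_im,
      mul_zero, mul_one, add_zero, zero_add, sub_zero] at m1 m2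
    have hne : B 1 0 ≠ 0 ∨ B 1 1 ≠ 0 := by
      by_contra e
      push Not at e
      rw [e.1, e.2] at dB
      simp at dB
    rw [← m1, ← m2] at K3
    have K4 := hc_alg (sin_sq_add_cos_sq (π * u 0)) K2 hne K3
    rw [← cos_sub, ← sin_sub] at K4
    obtain ⟨k1, hk1⟩ := hc_arg hw K4
    obtain ⟨k2, hk2⟩ := hc_arg (t := π * s) hv (by rw [vim, vre]; exact K1)
    have hs : s ≠ ⌊s⌋ := by
      intro e
      have e1 : sin (π * s) = 0 := by rw [e, mul_comm]; exact sin_int_mul_pi _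
      have e2 := sin_sq_add_cos_sq (π * s)
      rw [e1, mul_zero, add_zero] at K1
      rw [e1, (mul_eq_zero.mp K1).resolve_left hc] at e2
      simp at e2
    have s1 : (⌊s⌋ : ℝ) < s := lt_of_le_of_ne (Int.floor_le s) hs.symm
    have s2 : s < ⌊s⌋ + 1 := Int.lt_floor_add_one s
    have u1 : u 0 + ⌊s⌋ < u s := by
      rw [← hu.add_int, zero_add]; exact u.strictMono s1
    have u2 : u s < u 0 + ⌊s⌋ + 1 := by
      rw [← hu.add_int, ← hu.1, zero_add]; exact u.strictMono s2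
    generalize ⌊s⌋ = m at *
    have p1 := mul_lt_mul_of_pos_left s1 pi_pos
    have p2 := mul_lt_mul_of_pos_left s2 pi_pos
    have p3 := mul_lt_mul_of_pos_left u1 pi_pos
    have p4 := mul_lt_mul_of_pos_left u2 pi_pos
    rcases lt_or_gt_of_ne hc with c | c
    · have a1 := hc_neg (w := w) (by rw [him]; exact mul_neg_of_neg_of_pos c hzp)
      have a2 := hc_neg (w := v) (by rw [vim]; exact c)
      have b1 := hc_int hk1 (m := m) (by linarith only [a1.1, p3]) (by linarith only [a1.2, p4])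
      have b2 := hc_int hk2 (m := m) (by linarith only [a2.1, p1]) (by linarith only [a2.2, p2])
      linarith only [b1, b2]
    · have a1 := hc_pos (w := w) (by rw [him]; exact mul_pos c hzp)
      have a2 := hc_pos (w := v) (by rw [vim]; exact c)
      have b1 := hc_int hk1 (m := m + 1) (by push_cast; linarith only [a1.1, p3])
        (by push_cast; linarith only [a1.2, p4])
      have b2 := hc_int hk2 (m := m + 1) (by push_cast; linarith only [a2.1, p1])
        (by push_cast; linarith only [a2.2, p2])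
      linarith only [b1, b2]

theorem hc_side {A B : G} {f f' : ℝ ≃o ℝ} (h : Lift A f) (h' : Lift B f') :
    har (A • UpperHalfPlane.I) ((A * B) • UpperHalfPlane.I) =
      har UpperHalfPlane.I (B • UpperHalfPlane.I) + 2 * π * f'⁻¹ 0 -
        2 * π * (f * f')⁻¹ 0 + 2 * π * f⁻¹ 0 := by
  have := hc_coc h h'
  rw [mul_smul, har_smul_arg]
  linarith

theorem hc_dlab {M : Gen g → G} {F : Gen g → ℝ ≃o ℝ} (hl : ∀ x, Lift (M x) (F x)) (d : Dt g) :
    Lift (dlab M d) (dlab F d) := by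
  obtain ⟨x, b⟩ := d
  cases b
  · exact (hl x).inv
  · exact hl x

theorem hc_sum {M : Gen g → G} {F : Gen g → ℝ ≃o ℝ} (hl : ∀ x, Lift (M x) (F x))
    (w : List (Dt g)) : ∀ (h : G) (f : ℝ ≃o ℝ), Lift h f → warea M h w =
      (w.map fun d => har UpperHalfPlane.I (dlab M d • UpperHalfPlane.I) +
        2 * π * (dlab F d)⁻¹ 0).sum - 2 * π * (f * lab F w)⁻¹ 0 + 2 * π * f⁻¹ 0 := by
  induction w with
  | nil => intro h f _; simp only [warea, harea, List.length_nil, Finset.range_zero, Finset.sum_empty, List.map_nil, List.sum_nil, lab_nil, mul_one, zero_sub, neg_add_cancel]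
  | cons d w ih =>
    intro h f hf
    rw [warea_cons, ih _ _ (hf.mul (hc_dlab hl d)), hc_side hf (hc_dlab hl d), List.map_cons,
      List.sum_cons, lab_cons, mul_assoc f]
    ring

/- Paper section 4, the cocycle Theta. -/
theorem warea_euler {M : Gen g → G} {w : List (Dt g)} (hn : w.Nodup) (hS : SP w)
    (F : Gen g → ℝ ≃o ℝ) (hl : ∀ x, Lift (M x) (F x)) (e : ℤ) (he : lab F w = T e) :
    warea M 1 w = 2 * π * e := by
  set ψ : Dt g → ℝ := fun d => har UpperHalfPlane.I (dlab M d • UpperHalfPlane.I) +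
    2 * π * (dlab F d)⁻¹ 0 with hψ
  have one0 : (1 : ℝ ≃o ℝ)⁻¹ 0 = 0 := by rw [inv_one]; rfl
  have hr : ∀ d, ψ (rev d) = -ψ d := by
    intro d
    have := hc_side (hc_dlab hl d) (hc_dlab hl d).inv
    rw [mul_inv_cancel, mul_inv_cancel, one_smul, har_anti, one0] at this
    simp only [hψ, dlab_rev]
    linarith only [this]
  have h1 := sum_rev hn hS ψ
  have h2 : (w.map fun d => ψ (rev d)).sum = -(w.map ψ).sum := by
    simp only [hr]
    clear h1 he hS hn
    induction w with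
    | nil => simp
    | cons d w ih => rw [List.map_cons, List.sum_cons, ih, List.map_cons, List.sum_cons]; ring
  have h3 : (w.map ψ).sum = 0 := by linarith only [h1, h2]
  have h4 : (T e)⁻¹ 0 = -(e : ℝ) := by
    have := RelIso.apply_inv_self (T e) 0
    rw [T_apply] at this
    linarith only [this]
  rw [hc_sum hl w 1 1 lift_one, h3, one_mul, he, h4, one0]
  ring

end Pool.Agent.MP_596265_gt

end

-- part GA
section

namespace Pool.Agent.MP_596265_gt

open scoped UpperHalfPlane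
open Real

variable {g : ℕ}

theorem Tab.smul (A : G) {p q p' q' : ℍ} (h : Tab p q p' q') :
    Tab (A • p) (A • q) (A • p') (A • q') := by
  simpa only [Tab, dist_smul] using h
theorem Geo.smul (A : G) {n : ℕ} {V : ℕ → ℍ} (h : Geo n V) : Geo n fun k => A • V k :=
  ⟨by simp only [h.cl], fun k hk e => h.ne k hk (MulAction.injective A e),
    fun k hk j hj => by simpa only [dist_smul] using h.lune k hk j hj,
    fun j hj k hk e => (h.tab j hj k hk e).smul A⟩
theorem ga_pos {p q o : ℍ} (h : OSeg p q o) (hpq : p ≠ q) :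
    0 < dist p o ∧ 0 < dist o q ∧ dist p o + dist o q = dist p q :=
  ⟨dist_pos.2 (h.ne hpq).1.symm, dist_pos.2 (h.ne hpq).2, h.seg.dist_add⟩
/- Paper F3. -/
theorem Geo.not_oseg {n : ℕ} {V : ℕ → ℍ} (h : Geo n V) {k j : ℕ} (hk : k < n) (hj : j ≤ n) :
    ¬ OSeg (V k) (V (k + 1)) (V j) := by
  intro ho
  obtain ⟨h1, h2, h3⟩ := ga_pos ho (h.ne k hk)
  have := h.lune k hk j hj
  rw [dist_comm (V (k + 1))] at this
  rcases le_max_iff.1 this with t | t <;> linarith only [h2, h3, t, h1]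
/- Paper F4. -/
theorem Tab.not_cross {p q p' q' o : ℍ} (h : Tab p q p' q') (hpq : p ≠ q) (hpq' : p' ≠ q')
    (h1 : OSeg p q o) (h2 : OSeg p' q' o) : False := by
  obtain ⟨a1, a2, a3⟩ := ga_pos h1 hpq
  obtain ⟨b1, b2, b3⟩ := ga_pos h2 hpq'
  have hp : p ≠ o := dist_pos.1 a1
  have hq : q ≠ o := (dist_pos.1 a2).symm
  have c1 := dist_comm q o
  have c2 := dist_comm o p
  have c3 := dist_comm o p'
  have c4 := dist_comm q p
  have t1 := dist_triangle p o p'
  have t2 := dist_triangle q o q'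
  have t3 := dist_triangle q o p'
  have t4 := dist_triangle p o q'
  have m1 := le_max_left (dist p q) (dist p' q')
  have m2 := le_max_right (dist p q) (dist p' q')
  rcases h with ⟨s, h⟩ | ⟨s, h⟩
  · have e1 : dist q p' = |dist o q - dist o p'| := non_branch a3 (by linarith only [a3, b3, c1, c3, t1, t2, s]) hp
    have e2 : dist p q' = |dist o p - dist o q'| :=
      non_branch (p := q) (by linarith only [a3, c1, c2, c4]) (by linarith only [a3, b3, c1, c3, t1, t2, s]) hq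
    rcases h with h | h | ⟨u1, u2, u3, u4⟩
    · rw [e1] at h
      rcases abs_cases (dist o q - dist o p') with w | w <;> linarith only [w.1, a1, a3, b1, c3, m1, h, a2, b2, b3, m2]
    · rw [e2] at h
      rcases abs_cases (dist o p - dist o q') with w | w <;> linarith only [w.1, a2, a3, b2, c2, m1, h, a1, b1, b3, m2]
    · have z1 : dist o q - dist o p' = 0 := by linarith only [a3, b3, c1, c3, t1, t2, u1, u2, u3]
      have z2 : dist o p - dist o q' = 0 := by linarith only [a3, b3, c1, c2, c3, t1, t2, u1, u2, u3]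
      rw [e1, e2, z1, z2] at u4
      norm_num at u4
  · have e1 : dist q q' = |dist o q - dist o q'| := non_branch a3 (by linarith only [a3, b3, c1, c3, t3, t4, s]) hp
    have e2 : dist p p' = |dist o p - dist o p'| :=
      non_branch (p := q) (by linarith only [a3, c1, c2, c4]) (by linarith only [a3, b3, c1, c3, t3, t4, s]) hq
    rcases h with h | h
    · rw [e1] at h
      rcases abs_cases (dist o q - dist o q') with w | w <;> linarith only [w.1, a1, a3, b2, m1, h, a2, b1, b3, m2]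
    · rw [e2] at h
      rcases abs_cases (dist o p - dist o p') with w | w <;> linarith only [w.1, a2, a3, b1, c2, c3, m1, h, a1, b2, b3, m2]
theorem ga_meet {n : ℕ} {V : ℕ → ℍ} (h : Geo n V) {j k : ℕ} (hj : j < n) (hk : k < n)
    (hjk : j ≠ k) {z : ℍ} (h1 : Seg (V j) (V (j + 1)) z) (h2 : Seg (V k) (V (k + 1)) z) :
    z = V j ∨ z = V (j + 1) := by
  by_contra hc
  rw [not_or] at hc
  have o1 := h1.oseg hc.1 hc.2
  by_cases e1 : z = V k
  · exact h.not_oseg hj hk.le (e1 ▸ o1)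
  by_cases e2 : z = V (k + 1)
  · exact h.not_oseg hj (Nat.succ_le_of_lt hk) (e2 ▸ o1)
  exact (h.tab j hj k hk hjk).not_cross (h.ne j hj) (h.ne k hk) o1 (h2.oseg e1 e2)
theorem Geo.meet {n : ℕ} {V : ℕ → ℍ} (h : Geo n V) {j k : ℕ} (hj : j < n) (hk : k < n)
    (hjk : j ≠ k) {z : ℍ} (h1 : Seg (V j) (V (j + 1)) z) (h2 : Seg (V k) (V (k + 1)) z) :
    (z = V j ∨ z = V (j + 1)) ∧ (z = V k ∨ z = V (k + 1)) :=
  ⟨ga_meet h hj hk hjk h1 h2, ga_meet h hk hj hjk.symm h2 h1⟩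
theorem Geo.hsimple {n : ℕ} {V : ℕ → ℍ} (h : Geo n V) (hn : 0 < n)
    (hi : ∀ j < n, ∀ k < n, j ≠ k → V j ≠ V k) : HSimple n V := by
  refine ⟨hn, h.cl, h.ne, fun j k hjk hk z h1 h2 => ?_⟩
  have hj : j < n := hjk.trans hk
  have key : ∀ a < n, ∀ b < n, V a = V b → a = b := fun a ha b hb e => by
    by_contra c
    exact hi a ha b hb c e
  have last : ∀ a < n, V a = V (k + 1) → a = k + 1 ∨ (a = 0 ∧ k + 1 = n) := fun a ha e => by
    rcases Nat.lt_or_ge (k + 1) n with c | c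
    · exact Or.inl (key a ha _ c e)
    · have c' : k + 1 = n := by omega
      rw [c', h.cl] at e
      exact Or.inr ⟨key a ha 0 hn e, c'⟩
  obtain ⟨a | a, b | b⟩ := h.meet hj hk hjk.ne h1 h2
  · have := key j hj k hk (a.symm.trans b)
    omega
  · rcases last j hj (a.symm.trans b) with c | c
    · omega
    · exact Or.inr ⟨c.1, c.2, c.1 ▸ a⟩
  · exact Or.inl ⟨(key (j + 1) (by omega) k hk (a.symm.trans b)).symm, b⟩
  · rcases last (j + 1) (by omega) (a.symm.trans b) with c | c <;> omega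
theorem HSimple.smul (A : G) {n : ℕ} {V : ℕ → ℍ} (h : HSimple n V) :
    HSimple n fun k => A • V k := by
  refine ⟨h.pos, by simp only [h.cl], fun k hk e => h.ne k hk (MulAction.injective A e),
    fun j k hjk hk z h1 h2 => ?_⟩
  have g1 := h1.smul A⁻¹
  have g2 := h2.smul A⁻¹
  simp only [inv_smul_smul] at g1 g2
  simpa only [inv_smul_eq_iff] using h.meet j k hjk hk _ g1 g2
theorem HSimple.simpleP {n : ℕ} {V : ℕ → ℍ} (h : HSimple n V)
    (hv : ∀ k < n, (V k).re ≠ (V (k + 1)).re) : SimpleP n fun k => Φ (V k) := by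
  refine ⟨h.pos, by simp only [h.cl], hv, fun j k hjk hk z h1 h2 => ?_⟩
  obtain ⟨w, rfl⟩ := exists_Φ (InH.segment (Φ_inH _) (Φ_inH _) h1)
  rcases h.meet j k hjk hk w h1 h2 with ⟨a, b⟩ | ⟨a, b, c⟩
  · exact Or.inl ⟨a, congrArg Φ b⟩
  · exact Or.inr ⟨a, b, congrArg Φ c⟩
theorem ga_inj {n : ℕ} {V : ℕ → ℍ} (h : HSimple n V) {j k : ℕ} (hk : k < n) (hjk : j < k) :
    V j ≠ V k := by
  intro e
  rcases h.meet j k hjk hk (V j) (Seg.left _ _) (e ▸ Seg.left _ _) with ⟨a, -⟩ | ⟨a, b, -⟩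
  · exact h.ne j (hjk.trans hk) (a ▸ e)
  · exact h.ne k hk (by rw [b, h.cl, ← e, a])
theorem HSimple.inj {n : ℕ} {V : ℕ → ℍ} (h : HSimple n V) {j k : ℕ} (hj : j < n) (hk : k < n)
    (hjk : j ≠ k) : V j ≠ V k := by
  rcases hjk.lt_or_gt with c | c
  · exact ga_inj h hk c
  · exact (ga_inj h hj c).symm

end Pool.Agent.MP_596265_gt

end

-- part GG
section

namespace Pool.Agent.MP_596265_gt

open scoped UpperHalfPlane
open Real

variable {g : ℕ}

theorem gg_cosh {x : ℝ} (h0 : 0 ≤ x) (hx : x ≤ 3 * log (31 / 20) + log (3 / 2)) : cosh x < 3 := by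
  have e : 3 * log (31 / 20) + log (3 / 2) = log ((31 / 20) ^ 3 * (3 / 2)) := by
    rw [log_mul (by norm_num) (by norm_num), log_pow]; norm_num
  have h1 : cosh x ≤ cosh (log ((31 / 20) ^ 3 * (3 / 2))) := by
    rw [cosh_le_cosh, ← e, abs_of_nonneg h0, abs_of_nonneg (h0.trans hx)]; exact hx
  rw [cosh_log (by norm_num)] at h1
  refine lt_of_le_of_lt h1 (by norm_num)

/- Paper 7a. -/
theorem Tab.not_cover {p q p' q' o₁ o₂ u₁ u₂ : ℍ} (hT : Tab p q p' q')
    (hl : 3 ≤ cosh (dist p q)) (h1 : dist p o₁ ≤ log (31 / 20)) (h2 : dist o₂ q ≤ log (31 / 20))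
    (hu1 : dist o₁ u₁ ≤ log (3 / 2)) (hu2 : dist o₂ u₂ ≤ log (3 / 2))
    (hΛ : dist p q - 2 * log (31 / 20) ≤ dist u₁ u₂) (hs1 : Seg p' q' u₁) (hs2 : Seg p' q' u₂) :
    False := by
  have ha : 0 ≤ log (31 / 20 : ℝ) := log_nonneg (by norm_num)
  have hbig : 3 * log (31 / 20) + log (3 / 2) < dist p q := by
    by_contra hc
    exact absurd (gg_cosh dist_nonneg (not_lt.1 hc)) (not_lt.2 hl)
  have hp : ∀ z : ℍ, dist p z ≤ log (31 / 20) + log (3 / 2) + dist u₁ z := fun z => by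
    have := dist_triangle4 p o₁ u₁ z
    linarith only [h1, hu1, this]
  have hq : ∀ z : ℍ, dist q z ≤ log (31 / 20) + log (3 / 2) + dist u₂ z := fun z => by
    have := dist_triangle4 q o₂ u₂ z
    rw [dist_comm q o₂] at this
    linarith only [h2, hu2, this]
  have a1 := hp p'
  have a2 := hp q'
  have b1 := hq p'
  have b2 := hq q'
  rw [dist_comm u₁ p'] at a1
  rw [dist_comm u₂ p'] at b1
  have n1 : 0 ≤ dist p' u₁ := dist_nonneg
  have n2 : 0 ≤ dist p' u₂ := dist_nonneg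
  have n3 : 0 ≤ dist u₁ q' := dist_nonneg
  have n4 : 0 ≤ dist u₂ q' := dist_nonneg
  have hm : dist p' q' ≤ max (dist p q) (dist p' q') := le_max_right _ _
  rcases Seg.dist_order hs1 hs2 with ho | ho
  · rcases hT with ⟨t1, -⟩ | ⟨-, t2 | t2⟩ <;> linarith
  · rw [dist_comm u₂ u₁] at ho
    rcases hT with ⟨-, t2 | t2 | ⟨t2, -, -, t3⟩⟩ | ⟨t1, -⟩
    · linarith only [hΛ, hbig, b1, n3, hm, ho, t2]
    · linarith only [hΛ, hbig, a2, n2, hm, ho, t2]
    · have n5 : 0 ≤ dist q p' := dist_nonneg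
      have n6 : 0 ≤ dist p q' := dist_nonneg
      exact absurd (gg_cosh (x := (dist q p' + dist p q') / 2) (by linarith only [n5, n6]) (by linarith only [hΛ, ha, a2, b1, ho, t2]))
        (not_lt.2 t3)
    · linarith only [hΛ, ha, hbig, a2, b1, ho, t1]

end Pool.Agent.MP_596265_gt

end

-- part GB
section

namespace Pool.Agent.MP_596265_gt

open scoped UpperHalfPlane
open Real

variable {g : ℕ}

/-- The closed strip of height log (3/2) on the side `ε` of the imaginary axis. -/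
def Strip (ε lo hi : ℝ) (u : Pt) : Prop :=
  0 ≤ ε * u.1 ∧ 169 * u.1 ^ 2 ≤ 25 * u.2 ∧ lo ^ 2 ≤ u.2 ∧ u.2 ≤ hi ^ 2

/-- The open triangle with base from `2 r / 3` to `3 r / 2` on the imaginary axis. -/
def BigT (ε r : ℝ) (u : Pt) : Prop :=
  0 < ε * u.1 ∧ u.2 + 13 / 4 * r * (ε * u.1) < 9 / 4 * r ^ 2 ∧
    4 / 9 * r ^ 2 + 13 / 9 * r * (ε * u.1) < u.2

theorem gb_sq {ε : ℝ} (hε : ε = 1 ∨ ε = -1) (x : ℝ) : (ε * x) ^ 2 = x ^ 2 := by
  rcases hε with h | h <;> subst h <;> ring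

theorem gb_zero {ε : ℝ} (hε : ε = 1 ∨ ε = -1) {x : ℝ} (h : ε * x = 0) : x = 0 := by
  rcases hε with h' | h' <;> subst h' <;> linarith only [h]

/-- A continuous function without zeros on an interval keeps its sign. -/
theorem gb_pos {f : ℝ → ℝ} (hf : Continuous f) {c d e : ℝ} (he : e ∈ Set.Icc c d) (hpos : 0 < f e)
    (hne : ∀ x ∈ Set.Icc c d, f x ≠ 0) : ∀ x ∈ Set.Icc c d, 0 < f x := by
  intro x hx
  by_contra hle
  have hle' : f x ≤ 0 := not_lt.mp hle
  obtain ⟨y, hy, hy0⟩ := isPreconnected_Icc.intermediate_value hx he hf.continuousOn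
    (show (0 : ℝ) ∈ Set.Icc (f x) (f e) from ⟨hle', hpos.le⟩)
  exact hne y hy hy0

/-- A side going up is a graph over the second coordinate. -/
theorem gb_graph_lt {p q : Pt} (h : p.2 < q.2) :
    ∃ α β : ℝ, p = (α + β * p.2, p.2) ∧ q = (α + β * q.2, q.2) ∧
      ∀ u : Pt, u ∈ segment ℝ p q ↔ (p.2 ≤ u.2 ∧ u.2 ≤ q.2 ∧ u.1 = α + β * u.2) := by
  have hd : 0 < q.2 - p.2 := sub_pos.mpr h
  have hd' : q.2 - p.2 ≠ 0 := hd.ne'
  obtain ⟨β, hβ⟩ : ∃ β : ℝ, β * (q.2 - p.2) = q.1 - p.1 :=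
    ⟨(q.1 - p.1) / (q.2 - p.2), div_mul_cancel₀ _ hd'⟩
  refine ⟨p.1 - β * p.2, β, ?_, ?_, fun u => ⟨?_, ?_⟩⟩
  · refine Prod.ext ?_ rfl
    show p.1 = p.1 - β * p.2 + β * p.2
    ring
  · refine Prod.ext ?_ rfl
    show q.1 = p.1 - β * p.2 + β * q.2
    linear_combination -hβ
  · rintro ⟨a, b, ha, hb, hab, rfl⟩
    have hab' : a = 1 - b := by linarith
    subst hab'
    simp only [Prod.snd_add, Prod.fst_add, Prod.smul_snd, Prod.smul_fst, smul_eq_mul]
    refine ⟨?_, ?_, ?_⟩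
    · linarith only [mul_nonneg hb hd.le]
    · linarith only [mul_nonneg ha hd.le]
    · linear_combination (-b) * hβ
  · rintro ⟨h1, h2, h3⟩
    obtain ⟨t, ht⟩ : ∃ t : ℝ, t * (q.2 - p.2) = u.2 - p.2 :=
      ⟨(u.2 - p.2) / (q.2 - p.2), div_mul_cancel₀ _ hd'⟩
    have ht0 : 0 ≤ t := by
      by_contra hn
      have := mul_neg_of_neg_of_pos (not_le.mp hn) hd
      linarith
    have ht1 : 0 ≤ 1 - t := by
      by_contra hn
      have := mul_neg_of_neg_of_pos (not_le.mp hn) hd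
      linarith only [h2, ht, this]
    refine ⟨1 - t, t, ht1, ht0, by ring, ?_⟩
    refine Prod.ext ?_ ?_
    · simp only [Prod.fst_add, Prod.smul_fst, smul_eq_mul]
      rw [h3]
      linear_combination β * ht - t * hβ
    · simp only [Prod.snd_add, Prod.smul_snd, smul_eq_mul]
      linear_combination ht

/-- A side that is not horizontal is a graph over the second coordinate. -/
theorem gb_graph {p q : Pt} (h : p.2 ≠ q.2) (S : Pt → Prop) (hp : S p) (hq : S q) :
    ∃ α β b t : ℝ, S (α + β * b, b) ∧ S (α + β * t, t) ∧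
      ∀ u : Pt, u ∈ segment ℝ p q ↔ (b ≤ u.2 ∧ u.2 ≤ t ∧ u.1 = α + β * u.2) := by
  rcases lt_or_gt_of_ne h with h' | h'
  · obtain ⟨α, β, e1, e2, e3⟩ := gb_graph_lt h'
    exact ⟨α, β, p.2, q.2, e1 ▸ hp, e2 ▸ hq, e3⟩
  · obtain ⟨α, β, e1, e2, e3⟩ := gb_graph_lt h'
    refine ⟨α, β, q.2, p.2, e1 ▸ hq, e2 ▸ hp, fun u => ?_⟩
    rw [segment_symm]
    exact e3 u

/-- A side through the strip is not horizontal. -/
theorem gb_nh {p q u : Pt} {ε lo hi : ℝ} (hε : ε = 1 ∨ ε = -1)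
    (hp : ¬ Strip ε lo hi p) (hq : ¬ Strip ε lo hi q)
    (hax : ∀ u ∈ segment ℝ p q, u.1 = 0 → ¬ (lo ^ 2 ≤ u.2 ∧ u.2 ≤ hi ^ 2))
    (hu : u ∈ segment ℝ p q) (hs : Strip ε lo hi u) : p.2 ≠ q.2 := by
  intro he
  have hall : ∀ w ∈ segment ℝ p q, w.2 = p.2 := by
    rintro w ⟨a, b, _, _, hab, rfl⟩
    simp only [Prod.snd_add, Prod.smul_snd, smul_eq_mul]
    rw [← he]
    linear_combination p.2 * hab
  have hu2 := hall u hu
  obtain ⟨s1, s2, s3, s4⟩ := hs
  have hne : ∀ w ∈ segment ℝ p q, ε * w.1 ≠ 0 := by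
    intro w hw h0
    refine hax w hw (gb_zero hε h0) ?_
    rw [hall w hw, ← hu2]
    exact ⟨s3, s4⟩
  have hposu : 0 < ε * u.1 := lt_of_le_of_ne s1 (hne u hu).symm
  have hcont : Continuous fun w : Pt => ε * w.1 := by fun_prop
  have hbig : ∀ w ∈ segment ℝ p q, ¬ Strip ε lo hi w → ε * u.1 < ε * w.1 := by
    intro w hw hn
    have hw0 : 0 < ε * w.1 := by
      by_contra hle
      obtain ⟨y, hy, hy0⟩ := (convex_segment p q).isPreconnected.intermediate_value hw hu
        hcont.continuousOn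
        (show (0 : ℝ) ∈ Set.Icc (ε * w.1) (ε * u.1) from ⟨not_lt.mp hle, s1⟩)
      exact hne y hy hy0
    by_contra hle
    have hle' : ε * w.1 ≤ ε * u.1 := not_lt.mp hle
    have hw2 : w.2 = u.2 := by rw [hall w hw, hu2]
    refine hn ⟨hw0.le, ?_, hw2 ▸ s3, hw2 ▸ s4⟩
    have h1 : (ε * w.1) ^ 2 ≤ (ε * u.1) ^ 2 := pow_le_pow_left₀ hw0.le hle' 2
    rw [gb_sq hε, gb_sq hε] at h1
    rw [hw2]
    linarith
  have h1 := hbig p (left_mem_segment ℝ p q) hp
  have h2 := hbig q (right_mem_segment ℝ p q) hq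
  obtain ⟨a, b, ha, hb, hab, rfl⟩ := hu
  simp only [Prod.fst_add, Prod.smul_fst, smul_eq_mul] at h1 h2
  have hab' : a = 1 - b := by linarith only [hab]
  subst hab'
  have e1 : 0 < b * (ε * p.1 - ε * q.1) := by linarith only [h1]
  have e2 : 0 < (1 - b) * (ε * q.1 - ε * p.1) := by linarith only [h2]
  rcases le_total (ε * p.1) (ε * q.1) with h | h
  · linarith only [mul_nonneg hb (sub_nonneg.mpr h), h1]
  · linarith only [mul_nonneg ha (sub_nonneg.mpr h), h2]

/-- A point of the open arc satisfies the strict quadratic inequality. -/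
theorem gb_arc {ε x r : ℝ} (hε : ε = 1 ∨ ε = -1) (h0 : 0 < ε * x) (h1 : 13 * (ε * x) < 5 * r) :
    169 * x ^ 2 < 25 * r ^ 2 := by
  rw [← gb_sq hε x]
  nlinarith only [h0, h1]

/- Paper 7b; sides with constant second coordinate have to be excluded first. -/
theorem free_arc {ι : Type} (s : Finset ι) (p q : ι → Pt) {ε lo hi : ℝ} (hε : ε = 1 ∨ ε = -1)
    (hlo : 0 < lo) (hlh : lo ≤ hi)
    (hv : ∀ k ∈ s, ¬ Strip ε lo hi (p k) ∧ ¬ Strip ε lo hi (q k))
    (hax : ∀ k ∈ s, ∀ u ∈ segment ℝ (p k) (q k), u.1 = 0 → ¬ (lo ^ 2 ≤ u.2 ∧ u.2 ≤ hi ^ 2))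
    (hx : ∀ k ∈ s, ∀ k' ∈ s, k ≠ k' → ∀ u ∈ segment ℝ (p k) (q k),
      u ∈ segment ℝ (p k') (q k') → ¬ Strip ε lo hi u)
    (hcov : ∀ k ∈ s, ∀ u ∈ segment ℝ (p k) (q k), ∀ u' ∈ segment ℝ (p k) (q k),
      Strip ε lo hi u → Strip ε lo hi u' → u.2 = lo ^ 2 → u'.2 = hi ^ 2 → False) :
    ∃ r, lo ≤ r ∧ r ≤ hi ∧ ∀ k ∈ s, ∀ u ∈ segment ℝ (p k) (q k), u.2 = r ^ 2 →
      ¬ (0 < ε * u.1 ∧ 13 * (ε * u.1) < 5 * r) := by
  classical
  have hsq : lo ^ 2 ≤ hi ^ 2 := pow_le_pow_left₀ hlo.le hlh 2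
  obtain ⟨T, hT⟩ : ∃ T : Finset ι, ∀ k, k ∈ T ↔ (k ∈ s ∧ ∃ x : ℝ,
      ((x, lo ^ 2) : Pt) ∈ segment ℝ (p k) (q k) ∧ 0 < ε * x ∧ 13 * (ε * x) < 5 * lo) :=
    ⟨s.filter _, fun k => Finset.mem_filter⟩
  rcases T.eq_empty_or_nonempty with hemp | hne
  · refine ⟨lo, le_rfl, hlh, fun k hk u hu hu2 hh => ?_⟩
    have : k ∈ T := (hT k).mpr ⟨hk, u.1, by rw [← hu2]; exact hu, hh.1, hh.2⟩
    rw [hemp] at this
    exact Finset.notMem_empty k this
  have hch : ∀ k, ∃ x : ℝ, k ∈ T →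
      (((x, lo ^ 2) : Pt) ∈ segment ℝ (p k) (q k) ∧ 0 < ε * x ∧ 13 * (ε * x) < 5 * lo) := by
    intro k
    by_cases hk : k ∈ T
    · obtain ⟨x, hx'⟩ := ((hT k).mp hk).2
      exact ⟨x, fun _ => hx'⟩
    · exact ⟨0, fun h => absurd h hk⟩
  choose X hX using hch
  obtain ⟨k0, hk0T, hmin⟩ := T.exists_min_image (fun k => ε * X k) hne
  have hk0 : k0 ∈ s := ((hT k0).mp hk0T).1
  obtain ⟨m0, pos0, arc0⟩ := hX k0 hk0T
  have q0 : 169 * X k0 ^ 2 < 25 * lo ^ 2 := gb_arc hε pos0 arc0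
  have st0 : Strip ε lo hi (X k0, lo ^ 2) := ⟨pos0.le, q0.le, le_rfl, hsq⟩
  obtain ⟨α, β, b, t, -, ht, hG⟩ := gb_graph
    (gb_nh hε (hv k0 hk0).1 (hv k0 hk0).2 (hax k0 hk0) m0 st0) (fun w => ¬ Strip ε lo hi w)
    (hv k0 hk0).1 (hv k0 hk0).2
  obtain ⟨hb0, ht0, hX0⟩ := (hG _).mp m0
  simp only at hb0 ht0 hX0
  obtain ⟨m, hm1, hm2, hm3, hm4⟩ : ∃ m : ℝ, lo ^ 2 ≤ m ∧ m ≤ t ∧ m ≤ hi ^ 2 ∧
      (m = t ∨ m = hi ^ 2) :=
    ⟨min t (hi ^ 2), le_min ht0 hsq, min_le_left _ _, min_le_right _ _, min_choice _ _⟩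
  have hmem0 : ∀ y ∈ Set.Icc (lo ^ 2) m, ((α + β * y, y) : Pt) ∈ segment ℝ (p k0) (q k0) :=
    fun y hy => (hG _).mpr ⟨hb0.trans hy.1, hy.2.trans hm2, rfl⟩
  have hpos0 : ∀ y ∈ Set.Icc (lo ^ 2) m, 0 < ε * (α + β * y) := by
    refine gb_pos (f := fun y => ε * (α + β * y)) (by fun_prop) (e := lo ^ 2) ⟨le_rfl, hm1⟩
      (by rw [← hX0]; exact pos0) ?_
    intro y hy h0
    exact hax k0 hk0 _ (hmem0 y hy) (gb_zero hε h0) ⟨hy.1, hy.2.trans hm3⟩
  have hmm : m ∈ Set.Icc (lo ^ 2) m := ⟨hm1, le_rfl⟩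
  have hneg : 25 * m - 169 * (α + β * m) ^ 2 ≤ 0 := by
    by_contra hn
    have hst : Strip ε lo hi (α + β * m, m) :=
      ⟨(hpos0 m hmm).le, by have := not_le.mp hn; simp only; linarith, hm1, hm3⟩
    rcases hm4 with h | h
    · rw [h] at hst
      exact ht hst
    · exact hcov k0 hk0 _ m0 _ (hmem0 m hmm) st0 hst rfl h
  obtain ⟨v, hvI, hv0⟩ := isPreconnected_Icc.intermediate_value hmm
    (show lo ^ 2 ∈ Set.Icc (lo ^ 2) m from ⟨le_rfl, hm1⟩)
    (f := fun y => 25 * y - 169 * (α + β * y) ^ 2) (by fun_prop)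
    (show (0 : ℝ) ∈ Set.Icc (25 * m - 169 * (α + β * m) ^ 2)
      (25 * lo ^ 2 - 169 * (α + β * lo ^ 2) ^ 2) from ⟨hneg, by rw [← hX0]; linarith only [q0]⟩)
  simp only at hv0
  have hconc : ∀ y, lo ^ 2 ≤ y → y ≤ v → 169 * (α + β * y) ^ 2 ≤ 25 * y := by
    intro y h1 h2
    rcases eq_or_lt_of_le h2 with h3 | h3
    · rw [h3]; linarith
    · have hd : 0 < v - lo ^ 2 := by linarith
      have q1 : 0 < 25 * lo ^ 2 - 169 * (α + β * lo ^ 2) ^ 2 := by rw [← hX0]; linarith only [q0]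
      have key : (v - lo ^ 2) * (25 * y - 169 * (α + β * y) ^ 2) =
          (v - y) * (25 * lo ^ 2 - 169 * (α + β * lo ^ 2) ^ 2) +
            (y - lo ^ 2) * (25 * v - 169 * (α + β * v) ^ 2) +
            169 * β ^ 2 * ((v - y) * (y - lo ^ 2) * (v - lo ^ 2)) := by ring
      have k1 : 0 ≤ (v - y) * (25 * lo ^ 2 - 169 * (α + β * lo ^ 2) ^ 2) :=
        mul_nonneg (by linarith only [h3]) q1.le
      have k2 : 0 ≤ 169 * β ^ 2 * ((v - y) * (y - lo ^ 2) * (v - lo ^ 2)) :=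
        mul_nonneg (by positivity) (mul_nonneg (mul_nonneg (by linarith only [h3]) (by linarith only [h1])) hd.le)
      have k3 : 0 ≤ (v - lo ^ 2) * (25 * y - 169 * (α + β * y) ^ 2) := by
        rw [key, hv0]; linarith only [k1, k2]
      have := nonneg_of_mul_nonneg_right k3 hd
      linarith only [this]
  have hvhi : v ≤ hi ^ 2 := hvI.2.trans hm3
  have hv00 : 0 ≤ v := (sq_nonneg lo).trans hvI.1
  refine ⟨sqrt v, le_sqrt_of_sq_le hvI.1, sqrt_le_iff.mpr ⟨hlo.le.trans hlh, hvhi⟩, ?_⟩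
  intro k hk u hu hu2 hh
  have q1 : 169 * u.1 ^ 2 < 25 * sqrt v ^ 2 := gb_arc hε hh.1 hh.2
  rw [sq_sqrt hv00] at hu2 q1
  have stu : Strip ε lo hi u := ⟨hh.1.le, by rw [hu2]; exact q1.le, hu2 ▸ hvI.1, hu2 ▸ hvhi⟩
  have hkk : k0 ≠ k := by
    intro e
    subst e
    have := ((hG u).mp hu).2.2
    rw [this, hu2] at q1
    linarith only [hv0, q1]
  obtain ⟨α', β', b', t', hb', -, hG'⟩ := gb_graph
    (gb_nh hε (hv k hk).1 (hv k hk).2 (hax k hk) hu stu) (fun w => ¬ Strip ε lo hi w)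
    (hv k hk).1 (hv k hk).2
  obtain ⟨hb1, ht1, hX1⟩ := (hG' _).mp hu
  rw [hu2] at hb1 ht1 hX1
  obtain ⟨n, hn1, hn2, hn3, hn4⟩ : ∃ n : ℝ, n ≤ v ∧ b' ≤ n ∧ lo ^ 2 ≤ n ∧
      (n = b' ∨ n = lo ^ 2) :=
    ⟨max b' (lo ^ 2), max_le hb1 hvI.1, le_max_left _ _, le_max_right _ _, max_choice _ _⟩
  have hmem1 : ∀ y ∈ Set.Icc n v, ((α' + β' * y, y) : Pt) ∈ segment ℝ (p k) (q k) :=
    fun y hy => (hG' _).mpr ⟨hn2.trans hy.1, hy.2.trans ht1, rfl⟩
  have hsub : ∀ y ∈ Set.Icc n v, y ∈ Set.Icc (lo ^ 2) m :=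
    fun y hy => ⟨hn3.trans hy.1, hy.2.trans hvI.2⟩
  have hvv : v ∈ Set.Icc n v := ⟨hn1, le_rfl⟩
  have hnn : n ∈ Set.Icc n v := ⟨le_rfl, hn1⟩
  have hp1 : 0 < ε * (α' + β' * v) := by rw [← hX1]; exact hh.1
  have hpos1 : ∀ y ∈ Set.Icc n v, 0 < ε * (α' + β' * y) := by
    refine gb_pos (f := fun y => ε * (α' + β' * y)) (by fun_prop) hvv hp1 ?_
    intro y hy h0
    exact hax k hk _ (hmem1 y hy) (gb_zero hε h0) ⟨hn3.trans hy.1, hy.2.trans hvhi⟩
  have hD : ∀ y ∈ Set.Icc n v, 0 < ε * (α + β * y) - ε * (α' + β' * y) := by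
    refine gb_pos (f := fun y => ε * (α + β * y) - ε * (α' + β' * y)) (by fun_prop) hvv ?_ ?_
    · have a1 := hpos0 v hvI
      have a2 : (ε * (α' + β' * v)) ^ 2 < (ε * (α + β * v)) ^ 2 := by
        rw [gb_sq hε, gb_sq hε, ← hX1]; linarith only [hv0, q1]
      have := lt_of_pow_lt_pow_left₀ 2 a1.le a2
      show 0 < ε * (α + β * v) - ε * (α' + β' * v)
      linarith only [this]
    · intro y hy h0
      have h1 : ε * ((α + β * y) - (α' + β' * y)) = 0 := by
        have h0' : ε * (α + β * y) - ε * (α' + β' * y) = 0 := h0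
        linear_combination h0'
      have h2 : α + β * y = α' + β' * y := by have := gb_zero hε h1; linarith only [this]
      refine hx k0 hk0 k hk hkk _ (hmem0 y (hsub y hy)) (by rw [h2]; exact hmem1 y hy) ?_
      exact ⟨(hpos0 y (hsub y hy)).le, hconc y (hsub y hy).1 hy.2, (hsub y hy).1,
        hy.2.trans hvhi⟩
  have c1 := hpos1 n hnn
  have c2 := hD n hnn
  rcases hn4 with h | h
  · refine hb' ?_
    rw [← h]
    refine ⟨c1.le, ?_, hn3, hn1.trans hvhi⟩
    have c3 : (ε * (α' + β' * n)) ^ 2 ≤ (ε * (α + β * n)) ^ 2 :=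
      pow_le_pow_left₀ c1.le (by linarith only [c2]) 2
    rw [gb_sq hε, gb_sq hε] at c3
    have := hconc n hn3 hn1
    show 169 * (α' + β' * n) ^ 2 ≤ 25 * n
    linarith only [c3, this]
  · have hm' := hmem1 n hnn
    rw [h] at c1 c2 hm'
    rw [← hX0] at c2
    have hkT : k ∈ T := (hT k).mpr ⟨hk, _, hm', c1, by linarith only [arc0, c2]⟩
    have e1 : X k = α' + β' * lo ^ 2 := ((hG' _).mp (hX k hkT).1).2.2
    have e2 : ε * X k0 ≤ ε * X k := hmin k hkT
    rw [e1] at e2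
    linarith only [c2, e2]

/-- Walking from `z` towards the end point at which the affine function `f` is larger. -/
theorem gb_walk {p q z : Pt} (hz : z ∈ segment ℝ p q) {a b c : ℝ} {φ : Pt → ℝ}
    (hφ : Continuous φ) (hf : 0 < a + b * z.1 + c * z.2) (h0 : 0 < φ z)
    (hp : 0 < a + b * p.1 + c * p.2 → φ p ≤ 0) (hq : 0 < a + b * q.1 + c * q.2 → φ q ≤ 0) :
    ∃ w ∈ segment ℝ p q, 0 < a + b * w.1 + c * w.2 ∧ φ w = 0 := by
  have main : ∀ P ∈ segment ℝ p q, 0 < a + b * P.1 + c * P.2 → φ P ≤ 0 →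
      ∃ w ∈ segment ℝ p q, 0 < a + b * w.1 + c * w.2 ∧ φ w = 0 := by
    intro P hP hfP hφP
    obtain ⟨w, hw, hw0⟩ := (convex_segment P z).isPreconnected.intermediate_value
      (left_mem_segment ℝ P z) (right_mem_segment ℝ P z) hφ.continuousOn
      (show (0 : ℝ) ∈ Set.Icc (φ P) (φ z) from ⟨hφP, h0.le⟩)
    refine ⟨w, (convex_segment p q).segment_subset hP hz hw, ?_, hw0⟩
    obtain ⟨s, t, hs, ht, hst, rfl⟩ := hw
    simp only [Prod.snd_add, Prod.fst_add, Prod.smul_snd, Prod.smul_fst, smul_eq_mul]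
    have e : a + b * (s * P.1 + t * z.1) + c * (s * P.2 + t * z.2) =
        s * (a + b * P.1 + c * P.2) + t * (a + b * z.1 + c * z.2) := by
      linear_combination (-a) * hst
    rw [e]
    rcases eq_or_lt_of_le hs with h | h
    · have : t = 1 := by linarith only [hs, hst, h]
      rw [← h, this]
      linarith only [hf]
    · have := mul_pos h hfP
      have := mul_nonneg ht hf.le
      linarith
  by_cases h1 : 0 < a + b * p.1 + c * p.2
  · exact main p (left_mem_segment ℝ p q) h1 (hp h1)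
  by_cases h2 : 0 < a + b * q.1 + c * q.2
  · exact main q (right_mem_segment ℝ p q) h2 (hq h2)
  exfalso
  obtain ⟨s, t, hs, ht, hst, rfl⟩ := hz
  simp only [Prod.snd_add, Prod.fst_add, Prod.smul_snd, Prod.smul_fst, smul_eq_mul] at hf
  have e : a + b * (s * p.1 + t * q.1) + c * (s * p.2 + t * q.2) =
      s * (a + b * p.1 + c * p.2) + t * (a + b * q.1 + c * q.2) := by
    linear_combination (-a) * hst
  rw [e] at hf
  have := mul_nonneg hs (neg_nonneg.mpr (not_lt.mp h1))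
  have := mul_nonneg ht (neg_nonneg.mpr (not_lt.mp h2))
  linarith

/- Paper 7c. -/
theorem bigT_empty {p q : Pt} {ε r : ℝ} (hε : ε = 1 ∨ ε = -1) (hr : 0 < r)
    (hp : ¬ BigT ε r p) (hq : ¬ BigT ε r q)
    (hax : ∀ u ∈ segment ℝ p q, u.1 = 0 → ¬ (4 / 9 * r ^ 2 < u.2 ∧ u.2 < 9 / 4 * r ^ 2))
    (harc : ∀ u ∈ segment ℝ p q, u.2 = r ^ 2 → ¬ (0 < ε * u.1 ∧ 13 * (ε * u.1) < 5 * r)) :
    ∀ u ∈ segment ℝ p q, ¬ BigT ε r u := by
  intro z hz ⟨z1, z2, z3⟩
  have hr2 : 0 < r ^ 2 := by positivity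
  have hlt : ∀ y : ℝ, r * (13 * y) < r * (5 * r) → 13 * y < 5 * r :=
    fun y h => lt_of_mul_lt_mul_left h hr.le
  rcases lt_trichotomy z.2 (r ^ 2) with h | h | h
  · have hend : ∀ P : Pt, ¬ BigT ε r P →
        0 < -(4 / 9 * r ^ 2) + -(13 / 9 * r * ε) * P.1 + 1 * P.2 →
        min (ε * P.1) (r ^ 2 - P.2) ≤ 0 := by
      intro P hP hf
      by_contra hn
      have hn' := lt_min_iff.mp (not_le.mp hn)
      exact hP ⟨hn'.1, by linarith only [hn'.2, hf], by linarith only [hf]⟩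
    obtain ⟨w, hw, hf, h0⟩ := gb_walk hz (a := -(4 / 9 * r ^ 2)) (b := -(13 / 9 * r * ε)) (c := 1)
      (φ := fun u => min (ε * u.1) (r ^ 2 - u.2)) (by fun_prop) (by linarith)
      (lt_min z1 (by linarith only [h])) (hend p hp) (hend q hq)
    have h0' : min (ε * w.1) (r ^ 2 - w.2) = 0 := h0
    have w1 : 0 ≤ ε * w.1 := h0' ▸ min_le_left _ _
    have w2 : 0 ≤ r ^ 2 - w.2 := h0' ▸ min_le_right _ _
    rcases eq_or_lt_of_le w1 with e | e
    · have e0 := gb_zero hε e.symm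
      rw [e0] at hf
      exact hax w hw e0 ⟨by linarith only [hf], by linarith only [hr2, w2]⟩
    · have e2 : w.2 = r ^ 2 := by
        by_contra hn
        have : 0 < min (ε * w.1) (r ^ 2 - w.2) :=
          lt_min e (lt_of_le_of_ne w2 fun h' => hn (by linarith only [w2, h']))
        linarith only [h0, this]
      rw [e2] at hf
      exact harc w hw e2 ⟨e, hlt _ (by linarith only [hf])⟩
  · rw [h] at z2
    exact harc z hz h ⟨z1, hlt _ (by linarith only [z2])⟩
  · have hend : ∀ P : Pt, ¬ BigT ε r P →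
        0 < 9 / 4 * r ^ 2 + -(13 / 4 * r * ε) * P.1 + -1 * P.2 →
        min (ε * P.1) (P.2 - r ^ 2) ≤ 0 := by
      intro P hP hf
      by_contra hn
      have hn' := lt_min_iff.mp (not_le.mp hn)
      exact hP ⟨hn'.1, by linarith only [hf], by linarith only [hn'.2, hf]⟩
    obtain ⟨w, hw, hf, h0⟩ := gb_walk hz (a := 9 / 4 * r ^ 2) (b := -(13 / 4 * r * ε)) (c := -1)
      (φ := fun u => min (ε * u.1) (u.2 - r ^ 2)) (by fun_prop) (by linarith only [z2])
      (lt_min z1 (by linarith only [h])) (hend p hp) (hend q hq)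
    have h0' : min (ε * w.1) (w.2 - r ^ 2) = 0 := h0
    have w1 : 0 ≤ ε * w.1 := h0' ▸ min_le_left _ _
    have w2 : 0 ≤ w.2 - r ^ 2 := h0' ▸ min_le_right _ _
    rcases eq_or_lt_of_le w1 with e | e
    · have e0 := gb_zero hε e.symm
      rw [e0] at hf
      exact hax w hw e0 ⟨by linarith only [hr2, w2], by linarith only [hf]⟩
    · have e2 : w.2 = r ^ 2 := by
        by_contra hn
        have : 0 < min (ε * w.1) (w.2 - r ^ 2) :=
          lt_min e (lt_of_le_of_ne w2 fun h' => hn (by linarith only [w2, h']))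
        linarith only [h0, this]
      rw [e2] at hf
      exact harc w hw e2 ⟨e, hlt _ (by linarith only [hf])⟩

end Pool.Agent.MP_596265_gt

end

-- part GC
section

namespace Pool.Agent.MP_596265_gt

open scoped UpperHalfPlane
open Real

variable {g : ℕ}

theorem gc_core {R r y ρ : ℝ} (hR : 5 ≤ R) (h1 : 31 / 20 ≤ r) (h2 : r ≤ 20 / 31 * R)
    (hy : 0 < y) (hρ : y ^ 2 ≤ ρ) (h : 6 * (r ^ 2 + ρ) ≤ 13 * r * y) :
    R ^ 2 + ρ < y * (1 + R ^ 2) ∧ R * (1 + ρ) < y * (1 + R ^ 2) := by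
  have hq : (3 * y - 2 * r) * (3 * r - 2 * y) ≥ 0 := by linarith only [hρ, h]
  have ha : 2 * r / 3 ≤ y := by
    by_contra hc
    push Not at hc
    have := mul_neg_of_neg_of_pos (show 3 * y - 2 * r < 0 by linarith only [hc])
      (show 0 < 3 * r - 2 * y by linarith only [hy, hc])
    linarith only [hρ, h, this]
  have hb : y ≤ 3 * r / 2 := by
    by_contra hc
    push Not at hc
    have := mul_neg_of_pos_of_neg (show 0 < 3 * y - 2 * r by linarith only [h1, hc])
      (show 3 * r - 2 * y < 0 by linarith only [hc])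
    linarith only [hρ, h, this]
  have hR2 : 5 * R ≤ R ^ 2 := by nlinarith only [hR]
  have hρ' : ρ ≤ 13 * r * y / 6 - r ^ 2 := by linarith only [h]
  constructor
  · have e1 := mul_pos (show 0 < 2 * r / 3 - 1 by linarith only [h1]) (show 0 < R ^ 2 - 2 * r / 3 by linarith only [hR, h2, hR2])
    have e2 := mul_nonneg (show 0 ≤ y - 2 * r / 3 by linarith only [ha])
      (show 0 ≤ 1 + R ^ 2 - 13 * r / 6 by linarith only [hR, h2, hR2])
    linarith only [h, e1, e2]
  · have hRρ : R * ρ ≤ R * (13 * r * y / 6 - r ^ 2) := mul_le_mul_of_nonneg_left hρ' (by linarith only [hR])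
    have hRr : 5 * (31 / 20) ≤ R * r := mul_le_mul hR h1 (by norm_num) (by linarith only [hR])
    rcases le_total 0 (1 + R ^ 2 - 13 * r * R / 6) with hc | hc
    · have e1 := mul_pos (show 0 < R - 2 * r / 3 by linarith only [hR, h2])
        (show 0 < R * (2 * r / 3) - 1 by linarith only [hRr])
      have e2 := mul_nonneg (show 0 ≤ y - 2 * r / 3 by linarith only [ha]) hc
      linarith only [hRρ, e1, e2]
    · have e1 := mul_pos (show 0 < R - 3 * r / 2 by linarith only [hR, h2])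
        (show 0 < R * (3 * r / 2) - 1 by linarith only [hR, hR2, hc])
      have e2 := mul_nonneg (show 0 ≤ 3 * r / 2 - y by linarith only [hb]) (neg_nonneg.2 hc)
      linarith only [hRρ, e1, e2]

theorem gc_lt {a b : ℝ} (hb : 0 ≤ b) (h : cosh a < cosh b) : a < b := by
  have := Real.cosh_lt_cosh.1 h
  rw [abs_of_nonneg hb] at this
  exact lt_of_le_of_lt (le_abs_self a) this

theorem gc_lune {R r : ℝ} (hR : 5 ≤ R) {q z : ℍ} (hq1 : q.re = 0) (hq2 : q.im = R)
    (h1 : 31 / 20 ≤ r) (h2 : r ≤ 20 / 31 * R) (h : 6 * (r ^ 2 + (Φ z).2) ≤ 13 * r * z.im) :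
    max (dist UpperHalfPlane.I z) (dist q z) < dist UpperHalfPlane.I q := by
  have hy := z.im_pos
  have hρ : z.im ^ 2 ≤ (Φ z).2 := by
    show z.im ^ 2 ≤ z.re ^ 2 + z.im ^ 2
    linarith only [sq_nonneg z.re]
  obtain ⟨c1, c2⟩ := gc_core hR h1 h2 hy hρ h
  have hR0 : 0 < R := by linarith only [hR]
  have hI : (Φ UpperHalfPlane.I).2 = 1 := by simp [Φ]
  have hq : (Φ q).2 = R ^ 2 := by simp [Φ, hq1, hq2]
  have e0 : cosh (dist UpperHalfPlane.I q) = (1 + R ^ 2) / (2 * R) := by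
    rw [cosh_dist_Φ, hI, hq, hq1, hq2]; simp
  have e1 : cosh (dist UpperHalfPlane.I z) = (1 + (Φ z).2) / (2 * z.im) := by
    rw [cosh_dist_Φ, hI]; simp
  have e2 : cosh (dist q z) = (R ^ 2 + (Φ z).2) / (2 * R * z.im) := by
    rw [cosh_dist_Φ, hq, hq1, hq2]; simp
  refine max_lt (gc_lt dist_nonneg ?_) (gc_lt dist_nonneg ?_)
  · rw [e0, e1, div_lt_div_iff₀ (by positivity) (by positivity)]
    linarith only [c2]
  · rw [e0, e2, div_lt_div_iff₀ (by positivity) (by positivity)]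
    have := mul_lt_mul_of_pos_left c1 hR0
    linarith only [this]

theorem gc_strip {z : ℍ} {r : ℝ} (hr : 0 < r) (h1 : 169 * (Φ z).1 ^ 2 ≤ 25 * (Φ z).2)
    (h2 : (Φ z).2 = r ^ 2) : 6 * (r ^ 2 + (Φ z).2) ≤ 13 * r * z.im := by
  have hy := z.im_pos
  have e1 : (Φ z).1 = z.re := rfl
  have e2 : (Φ z).2 = z.re ^ 2 + z.im ^ 2 := rfl
  have h3 : (12 * r) ^ 2 ≤ (13 * z.im) ^ 2 := by rw [e1] at h1; linarith only [h1, h2, e2]
  have h4 : 12 * r ≤ 13 * z.im := le_of_sq_le_sq h3 (by positivity)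
  rw [h2]
  nlinarith only [hr, h4]

theorem lune_strip {R ε : ℝ} (hR : 5 ≤ R) {q z : ℍ} (hq1 : q.re = 0) (hq2 : q.im = R)
    (h : Strip ε (31 / 20) (20 / 31 * R) (Φ z)) (hε : ε = 1 ∨ ε = -1) :
    max (dist UpperHalfPlane.I z) (dist q z) < dist UpperHalfPlane.I q := by
  have _ := hε
  obtain ⟨_, h1, h2, h3⟩ := h
  have h0 : 0 ≤ (Φ z).2 := le_trans (by positivity) h2
  have a1 : 31 / 20 ≤ sqrt (Φ z).2 := Real.le_sqrt_of_sq_le h2
  have a2 : sqrt (Φ z).2 ≤ 20 / 31 * R := Real.sqrt_le_iff.2 ⟨by linarith only [hR], h3⟩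
  exact gc_lune hR hq1 hq2 a1 a2 (gc_strip (by linarith only [a1]) h1 (Real.sq_sqrt h0).symm)

theorem lune_bigT {R ε r : ℝ} (hR : 5 ≤ R) {q z : ℍ} (hq1 : q.re = 0) (hq2 : q.im = R)
    (h1 : 31 / 20 ≤ r) (h2 : r ≤ 20 / 31 * R) (h : BigT ε r (Φ z)) (hε : ε = 1 ∨ ε = -1) :
    max (dist UpperHalfPlane.I z) (dist q z) < dist UpperHalfPlane.I q := by
  refine gc_lune hR hq1 hq2 h1 h2 ?_
  obtain ⟨b0, b1, b2⟩ := h
  have hy := z.im_pos
  have hr : 0 < r := by linarith only [h1]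
  have e2 : (Φ z).2 = (Φ z).1 ^ 2 + z.im ^ 2 := rfl
  have hX : (ε * (Φ z).1) ^ 2 = (Φ z).1 ^ 2 := by rcases hε with rfl | rfl <;> ring
  set X := ε * (Φ z).1 with hXd
  set ρ := (Φ z).2 with hρd
  have t0 : 0 < 13 * r * X := by positivity
  have t1 : 13 * r * X < 9 * r ^ 2 - 4 * ρ := by linarith only [b1]
  have t2 : 13 * r * X < 9 * ρ - 4 * r ^ 2 := by linarith only [b2]
  have t3 : 13 * r * X * (13 * r * X) ≤ (9 * r ^ 2 - 4 * ρ) * (9 * ρ - 4 * r ^ 2) :=
    mul_le_mul t1.le t2.le t0.le (by linarith only [b1, t0])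
  have t4 : z.im ^ 2 = ρ - X ^ 2 := by rw [hX]; linarith only [e2]
  have t5 : (6 * (r ^ 2 + ρ)) ^ 2 ≤ (13 * r * z.im) ^ 2 := by
    have : (13 * r * z.im) ^ 2 = 169 * r ^ 2 * (ρ - X ^ 2) := by rw [← t4]; ring
    rw [this]; linarith only [t3]
  exact le_of_sq_le_sq t5 (by positivity)

theorem gc_ball {o z : ℍ} {r : ℝ} (ho1 : o.re = 0) (ho2 : o.im = r)
    (h1 : 169 * (Φ z).1 ^ 2 ≤ 25 * (Φ z).2) (h2 : (Φ z).2 = r ^ 2) : dist o z ≤ log (3 / 2) := by
  have hr : 0 < r := ho2 ▸ o.im_pos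
  have hy := z.im_pos
  have h := gc_strip hr h1 h2
  have ho : (Φ o).2 = r ^ 2 := by simp [Φ, ho1, ho2]
  have e : cosh (dist o z) = (r ^ 2 + (Φ z).2) / (2 * r * z.im) := by
    rw [cosh_dist_Φ, ho, ho1, ho2]; simp
  have e' : cosh (log (3 / 2)) = 13 / 12 := by rw [Real.cosh_log (by norm_num)]; norm_num
  have : cosh (dist o z) ≤ cosh (log (3 / 2)) := by
    rw [e, e', div_le_div_iff₀ (by positivity) (by norm_num)]
    linarith only [h]
  have h3 := Real.cosh_le_cosh.1 this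
  rw [abs_of_nonneg dist_nonneg, abs_of_nonneg (Real.log_nonneg (by norm_num))] at h3
  exact h3

/-- A long side on the imaginary axis has an empty big triangle. -/
theorem Geo.big_empty {n : ℕ} {V : ℕ → ℍ} (h : Geo n V) {j : ℕ} (hj : j < n)
    (hl : 3 ≤ cosh (dist (V j) (V (j + 1)))) (h0 : V j = UpperHalfPlane.I)
    (h1 : (V (j + 1)).re = 0) (h2 : (V (j + 1)).im = exp (dist (V j) (V (j + 1)))) {ε : ℝ}
    (hε : ε = 1 ∨ ε = -1) : ∃ r, 31 / 20 ≤ r ∧ r ≤ 20 / 31 * (V (j + 1)).im ∧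
      ∀ k < n, ∀ z, Seg (V k) (V (k + 1)) z → ¬ BigT ε r (Φ z) := by
  classical
  obtain ⟨R, hRd⟩ : ∃ R, R = (V (j + 1)).im := ⟨_, rfl⟩
  have hR : 5 ≤ R := by
    rw [Real.cosh_eq, ← h2, ← hRd] at hl
    have : exp (-dist (V j) (V (j + 1))) ≤ 1 := Real.exp_le_one_iff.2 (neg_nonpos.2 dist_nonneg)
    linarith only [hl, this]
  have hR0 : 0 < R := by linarith only [hR]
  have hlog : dist (V j) (V (j + 1)) = log R := by rw [hRd, h2, Real.log_exp]
  have hP : Φ (V j) = (0, 1) := by rw [h0]; simp [Φ]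
  have hQ : Φ (V (j + 1)) = (0, R ^ 2) := by simp [Φ, h1, hRd]
  have hlune : ∀ k ≤ n, ¬ max (dist UpperHalfPlane.I (V k)) (dist (V (j + 1)) (V k)) <
      dist UpperHalfPlane.I (V (j + 1)) := by
    intro k hk
    have := h.lune j hj k hk
    rw [h0] at this
    exact not_lt.2 this
  have hex : ∀ k, ∀ u ∈ segment ℝ (Φ (V k)) (Φ (V (k + 1))), ∃ z, Φ z = u := fun k u hu =>
    exists_Φ (InH.segment (Φ_inH _) (Φ_inH _) hu)
  have hax : ∀ k < n, k ≠ j → ∀ u ∈ segment ℝ (Φ (V k)) (Φ (V (k + 1))), u.1 = 0 → 1 < u.2 →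
      u.2 < R ^ 2 → False := by
    intro k hk hkj u hu hu0 ha hb
    obtain ⟨z, rfl⟩ := hex k u hu
    have hs : Seg (V j) (V (j + 1)) z := by
      unfold Seg
      rw [hP, hQ]
      have hd : 0 < R ^ 2 - 1 := by linarith only [ha, hb]
      refine ⟨(R ^ 2 - (Φ z).2) / (R ^ 2 - 1), ((Φ z).2 - 1) / (R ^ 2 - 1),
        div_nonneg (by linarith only [hb]) hd.le, div_nonneg (by linarith only [ha]) hd.le, ?_, ?_⟩
      · field_simp; ring
      · refine Prod.ext ?_ ?_
        · simp [hu0]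
        · simp only [Prod.snd_add, Prod.smul_snd, smul_eq_mul]
          field_simp; ring
    rcases (h.meet hj hk hkj.symm hs hu).1 with e | e
    · rw [e, hP] at ha; exact lt_irrefl _ ha
    · rw [e, hQ] at hb; exact lt_irrefl _ hb
  have hvs : ∀ k ≤ n, ¬ Strip ε (31 / 20) (20 / 31 * R) (Φ (V k)) := fun k hk hs =>
    hlune k hk (lune_strip hR h1 hRd.symm hs hε)
  have hR2 : 0 < R ^ 2 := by positivity
  obtain ⟨r, r1, r2, hr⟩ := free_arc ((Finset.range n).erase j) (fun k => Φ (V k))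
    (fun k => Φ (V (k + 1))) (lo := 31 / 20) (hi := 20 / 31 * R) hε (by norm_num) (by linarith only [hR])
    (by
      intro k hk
      have hk' := Finset.mem_range.1 (Finset.mem_of_mem_erase hk)
      exact ⟨hvs k hk'.le, hvs (k + 1) hk'⟩)
    (by
      intro k hk u hu hu0 hc
      have hk' := Finset.mem_range.1 (Finset.mem_of_mem_erase hk)
      refine hax k hk' (Finset.ne_of_mem_erase hk) u hu hu0 (by linarith only [hc.1]) ?_
      have := hc.2
      linarith only [hc])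
    (by
      intro k hk k' hk' hkk u hu hu' hs
      have a := Finset.mem_range.1 (Finset.mem_of_mem_erase hk)
      have a' := Finset.mem_range.1 (Finset.mem_of_mem_erase hk')
      obtain ⟨z, rfl⟩ := hex k u hu
      rcases (h.meet a a' hkk hu hu').1 with e | e
      · exact hvs k a.le (e ▸ hs)
      · exact hvs (k + 1) a (e ▸ hs))
    (by
      intro k hk u hu u' hu' hs hs' e e'
      have a := Finset.mem_range.1 (Finset.mem_of_mem_erase hk)
      obtain ⟨z, rfl⟩ := hex k u hu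
      obtain ⟨z', rfl⟩ := hex k u' hu'
      have l1 : 0 ≤ log (31 / 20 : ℝ) := Real.log_nonneg (by norm_num)
      have l2 : log (20 / 31 * R) = log R - log (31 / 20) := by
        rw [← Real.log_div hR0.ne' (by norm_num)]; congr 1; ring
      let o₁ : ℍ := ⟨⟨0, 31 / 20⟩, by norm_num⟩
      let o₂ : ℍ := ⟨⟨0, 20 / 31 * R⟩, by show 0 < 20 / 31 * R; positivity⟩
      have a1 : o₁.re = 0 := rfl
      have a2 : o₁.im = 31 / 20 := rfl
      have b1 : o₂.re = 0 := rfl
      have b2 : o₂.im = 20 / 31 * R := rfl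
      refine Tab.not_cover (o₁ := o₁) (o₂ := o₂) (u₁ := z) (u₂ := z')
        (h.tab j hj k a (Finset.ne_of_mem_erase hk).symm) hl ?_ ?_
        (gc_ball a1 a2 hs.2.1 e) (gc_ball b1 b2 hs'.2.1 e') ?_ hu hu'
      · rw [h0, UpperHalfPlane.dist_of_re_eq (by rw [a1]; simp), a2, UpperHalfPlane.I_im,
          Real.log_one, Real.dist_eq, zero_sub, abs_neg, abs_of_nonneg l1]
      · rw [UpperHalfPlane.dist_of_re_eq (by rw [b1, h1]), b2, ← hRd, l2, Real.dist_eq,
          sub_sub_cancel_left, abs_neg, abs_of_nonneg l1]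
      · have := log_le_dist z z'
        rw [e, e', Real.log_pow, Real.log_pow, l2] at this
        have h3 := neg_le_abs (((2 : ℕ) : ℝ) * log (31 / 20) -
          ((2 : ℕ) : ℝ) * (log R - log (31 / 20)))
        rw [hlog]
        push_cast at this h3
        linarith only [this, h3])
  refine ⟨r, r1, hRd ▸ r2, ?_⟩
  intro k hk z hz
  by_cases hkj : k = j
  · subst hkj
    intro hb
    unfold Seg at hz
    rw [hP, hQ] at hz
    obtain ⟨a, b, -, -, -, e⟩ := hz
    have : (Φ z).1 = 0 := by rw [← e]; simp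
    have hb1 := hb.1
    rw [this, mul_zero] at hb1
    exact lt_irrefl _ hb1
  · have hr0 : 0 < r := by linarith only [r1]
    refine bigT_empty hε hr0 (fun hb => hlune k hk.le (lune_bigT hR h1 hRd.symm r1 r2 hb hε))
      (fun hb => hlune (k + 1) hk (lune_bigT hR h1 hRd.symm r1 r2 hb hε)) ?_
      (hr k (Finset.mem_erase.2 ⟨hkj, Finset.mem_range.2 hk⟩)) _ hz
    intro u hu hu0 hc
    have q1 : (31 / 20) ^ 2 ≤ r ^ 2 := pow_le_pow_left₀ (by norm_num) r1 2
    have q2 : r ^ 2 ≤ (20 / 31 * R) ^ 2 := pow_le_pow_left₀ hr0.le r2 2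
    refine hax k hk hkj u hu hu0 (by linarith only [hc.1, q1]) ?_
    have := hc.2
    linarith only [hc, q2]

end Pool.Agent.MP_596265_gt

end

-- part GD
section

namespace Pool.Agent.MP_596265_gt

open scoped UpperHalfPlane
open Real

variable {g : ℕ}

theorem Dent.smul (A : G) {n : ℕ} {V : ℕ → ℍ} {j : ℕ} {ε : ℝ} {m a b c : ℍ}
    (h : Dent n V j ε m a b c) :
    Dent n (fun k => A • V k) j ε (A • m) (A • a) (A • b) (A • c) := by
  refine ⟨h.hm.smul A, h.ha.smul A, h.hb.smul A, ?_, ?_, ?_, ?_, ?_, ?_, ?_⟩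
  · obtain ⟨t, ht, e⟩ := hdet_smul A a b c
    rw [e, mul_left_comm]
    exact mul_pos ht h.hc
  · rw [har_tri_smul]
    exact h.area
  · rw [dist_smul]
    exact h.da
  · rw [dist_smul]
    exact h.db
  · rw [dist_smul]
    exact h.dc
  · intro z hz hd k hk hs
    obtain ⟨w, rfl⟩ : ∃ w, z = A • w := ⟨A⁻¹ • z, (smul_inv_smul A z).symm⟩
    rw [dist_smul] at hz
    obtain ⟨t, ht, e⟩ := hdet_smul A (V j) (V (j + 1)) w
    rw [e, mul_left_comm] at hd
    have hs' := hs.smul A⁻¹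
    simp only [inv_smul_smul] at hs'
    exact h.emp w hz ((mul_pos_iff_of_pos_left ht).1 hd) k hk hs'
  · intro z hz hd
    obtain ⟨w, rfl⟩ : ∃ w, z = A • w := ⟨A⁻¹ • z, (smul_inv_smul A z).symm⟩
    rw [dist_smul] at hz
    obtain ⟨t, ht, e⟩ := hdet_smul A (V j) (V (j + 1)) w
    rw [e] at hd
    exact (h.line w hz ((mul_eq_zero.1 hd).resolve_left ht.ne')).smul A

theorem gd_oseg {p q z : ℍ} (hp : p.re = 0) (hq : q.re = 0) (hz : z.re = 0)
    (h1 : p.im < z.im) (h2 : z.im < q.im) : OSeg p q z := by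
  have p0 := p.im_pos
  have a1 : 0 < z.im ^ 2 - p.im ^ 2 := by nlinarith only [h1, p0]
  have a2 : 0 < q.im ^ 2 - z.im ^ 2 := by nlinarith only [h1, h2, p0]
  have a3 : 0 < q.im ^ 2 - p.im ^ 2 := by linarith
  refine ⟨(q.im ^ 2 - z.im ^ 2) / (q.im ^ 2 - p.im ^ 2),
    (z.im ^ 2 - p.im ^ 2) / (q.im ^ 2 - p.im ^ 2), div_pos a2 a3, div_pos a1 a3, ?_, ?_⟩
  · field_simp
    ring
  · simp only [Φ, hp, hq, hz, Prod.smul_mk, Prod.mk_add_mk, smul_eq_mul, Prod.mk.injEq]
    refine ⟨by ring, ?_⟩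
    field_simp
    ring

theorem gd_log_pos : 0 < log (8 / 7 : ℝ) := log_pos (by norm_num)

theorem gd_dist_le {p q : ℍ} (h : cosh (dist p q) ≤ 113 / 112) : dist p q ≤ log (8 / 7) := by
  have e : cosh (log (8 / 7 : ℝ)) = 113 / 112 := by
    rw [cosh_log (by norm_num)]
    norm_num
  rw [← e, cosh_le_cosh, abs_of_nonneg dist_nonneg, abs_of_pos gd_log_pos] at h
  exact h

theorem gd_cosh_le {p q : ℍ} (h : dist p q ≤ 2 * log (8 / 7)) :
    cosh (dist p q) ≤ 6497 / 6272 := by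
  have e0 : 2 * log (8 / 7 : ℝ) = log (64 / 49) := by
    rw [show (64 / 49 : ℝ) = (8 / 7) ^ 2 by norm_num, log_pow]
    norm_num
  have e : cosh (2 * log (8 / 7 : ℝ)) = 6497 / 6272 := by
    rw [e0, cosh_log (by norm_num)]
    norm_num
  rw [← e, cosh_le_cosh, abs_of_nonneg dist_nonneg,
    abs_of_pos (mul_pos two_pos gd_log_pos)]
  exact h

theorem gd_disc {m z : ℍ} {r : ℝ} (h1 : m.re = 0) (h2 : m.im = r)
    (h : dist m z ≤ 2 * log (8 / 7)) :
    r ^ 2 + z.re ^ 2 + z.im ^ 2 ≤ 6497 / 3136 * (r * z.im) := by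
  have h3 := gd_cosh_le h
  have m0 := m.im_pos
  have z0 := z.im_pos
  rw [cosh_dist_Φ, div_le_iff₀ (by positivity)] at h3
  simp only [Φ, h1, h2] at h3
  linarith

theorem gd_arctan_le {y : ℝ} (hy : 0 ≤ y) : arctan y ≤ y := by
  have h := le_tan (arctan_nonneg.2 hy) (arctan_lt_pi_div_two y)
  rwa [tan_arctan] at h

theorem gd_le_arctan : (7095 / 100000 : ℝ) ≤ arctan (120 / 1687) := by
  have p3 := pi_gt_three
  have hc := one_sub_sq_div_two_le_cos (x := 7095 / 100000)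
  have hs : sin (7095 / 100000 : ℝ) ≤ 7095 / 100000 := sin_le (by norm_num)
  have c0 : 0 < cos (7095 / 100000 : ℝ) := by linarith only [hc]
  have ht : tan (7095 / 100000 : ℝ) ≤ 120 / 1687 := by
    rw [tan_eq_sin_div_cos, div_le_iff₀ c0]
    linarith
  have h := arctan_strictMono.monotone ht
  rwa [arctan_tan (by linarith only [p3]) (by linarith only [p3])] at h

theorem gd_area : π / 180 ≤ 2 * arctan (120 / 1687) - 2 * arctan (105 / 1688) := by
  have h1 := gd_le_arctan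
  have h2 : arctan (105 / 1688) ≤ 105 / 1688 := gd_arctan_le (by norm_num)
  have h3 := pi_lt_d4
  linarith

theorem gd_pt (x y : ℝ) (hy : 0 < y) : ∃ z : ℍ, z.re = x ∧ z.im = y :=
  ⟨⟨⟨x, y⟩, hy⟩, rfl, rfl⟩

/- Paper 7d: m = i r, a = 7 i r / 8, b = 8 i r / 7, c = r (- ε 15 / 113 + 112 i / 113). The area is
4 arctan (1 / 225). Note the sign: `hdet` of the upward side at `z` has the sign of `- z.re`. -/
theorem dent_normal {n : ℕ} {V : ℕ → ℍ} {j : ℕ} (h0 : V j = UpperHalfPlane.I)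
    (h1 : (V (j + 1)).re = 0) {ε r : ℝ} (hε : ε = 1 ∨ ε = -1) (hr1 : 31 / 20 ≤ r)
    (hr2 : r ≤ 20 / 31 * (V (j + 1)).im)
    (hemp : ∀ k < n, ∀ z, Seg (V k) (V (k + 1)) z → ¬ BigT (-ε) r (Φ z)) :
    ∃ m a b c, Dent n V j ε m a b c := by
  have r0 : 0 < r := by linarith only [hr1]
  have p1 : (V j).re = 0 := by rw [h0]; exact UpperHalfPlane.I_re
  have p2 : (V j).im = 1 := by rw [h0]; exact UpperHalfPlane.I_im
  have ee : ε * ε = 1 := by rcases hε with h | h <;> rw [h] <;> norm_num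
  obtain ⟨m, m1, m2⟩ := gd_pt 0 r r0
  obtain ⟨a, a1, a2⟩ := gd_pt 0 (7 / 8 * r) (by linarith only [hr1])
  obtain ⟨b, b1, b2⟩ := gd_pt 0 (8 / 7 * r) (by linarith only [hr1])
  obtain ⟨c, c1, c2⟩ := gd_pt (-ε * (15 / 113 * r)) (112 / 113 * r) (by linarith only [hr1])
  have hR : 0 < (V (j + 1)).im ^ 2 - 1 := by nlinarith only [hr1, hr2]
  have hd : ∀ z, hdet (V j) (V (j + 1)) z = -(((V (j + 1)).im ^ 2 - 1) * z.re) := by
    intro z
    simp only [hdet, det3, Φ, p1, p2, h1]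
    ring
  refine ⟨m, a, b, c, gd_oseg p1 h1 m1 (by linarith only [hr1, p2, m2]) (by linarith only [hr1, hr2, m2]),
    gd_oseg p1 h1 a1 (by linarith only [hr1, p2, a2]) (by linarith only [hr1, hr2, a2]), gd_oseg a1 h1 b1 (by linarith only [hr1, a2, b2]) (by linarith only [hr1, hr2, b2]),
    ?_, ?_, ?_, ?_, ?_, ?_, ?_⟩
  · have e : ε * hdet a b c = ε * ε * ((64 / 49 - 49 / 64) * (15 / 113) * r ^ 3) := by
      simp only [hdet, det3, Φ, a1, a2, b1, b2, c1, c2]
      ring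
    rw [e, ee]
    positivity
  · have e1 : (b.re - a.re) / (a.im + b.im) = 0 := by rw [a1, b1, sub_self, zero_div]
    have e2 : (c.re - b.re) / (b.im + c.im) = -(ε * (105 / 1688)) := by
      rw [b1, b2, c1, c2]
      field_simp
      ring
    have e3 : (a.re - c.re) / (c.im + a.im) = ε * (120 / 1687) := by
      rw [a1, a2, c1, c2]
      field_simp
      ring
    rw [har_eq, har_eq, har_eq, e1, e2, e3, arctan_zero, arctan_neg]
    have h := gd_area
    rcases hε with h' | h'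
    · rw [h', one_mul, one_mul, one_mul]
      linarith only [h]
    · rw [h', neg_one_mul, neg_one_mul, neg_one_mul, arctan_neg, arctan_neg]
      linarith only [h]
  · refine gd_dist_le (le_of_eq ?_)
    rw [cosh_dist_Φ]
    simp only [Φ, m1, m2, a1, a2]
    field_simp
    ring
  · refine gd_dist_le (le_of_eq ?_)
    rw [cosh_dist_Φ]
    simp only [Φ, m1, m2, b1, b2]
    field_simp
    ring
  · refine gd_dist_le (le_of_eq ?_)
    rw [cosh_dist_Φ, div_eq_iff (mul_pos (mul_pos two_pos m.im_pos) c.im_pos).ne']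
    simp only [Φ, m1, m2, c1, c2]
    linear_combination (15 / 113 * r) ^ 2 * ee
  · intro z hz hs k hk hk'
    have D := gd_disc m1 m2 hz
    rw [hd] at hs
    have hx : 0 < -ε * z.re := by
      refine (mul_pos_iff_of_pos_left hR).1 ?_
      linarith only [hs]
    have x2 : (-ε * z.re) ^ 2 = z.re ^ 2 := by linear_combination z.re ^ 2 * ee
    have rr : 0 < r ^ 2 := by positivity
    refine hemp k hk z hk' ⟨hx, ?_, ?_⟩
    · simp only [Φ]
      have s1 := sq_nonneg (-ε * z.re - 13 / 56 * r)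
      have s2 := sq_nonneg (z.im - 6497 / 5488 * r)
      linarith only [D, x2, rr, s1, s2]
    · simp only [Φ]
      have s1 := sq_nonneg (-ε * z.re - 13 / 90 * r)
      have s2 := sq_nonneg (z.im - 6497 / 7840 * r)
      linarith only [D, x2, rr, s1, s2]
  · intro z hz hs
    have D := gd_disc m1 m2 hz
    rw [hd, neg_eq_zero] at hs
    have hx : z.re = 0 := (mul_eq_zero.1 hs).resolve_left hR.ne'
    rw [hx] at D
    have E : 0 ≤ (z.im - 49 / 64 * r) * (64 / 49 * r - z.im) := by linarith only [D]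
    have l1 : 49 / 64 * r ≤ z.im := by
      by_contra hc
      have := mul_neg_of_neg_of_pos (show z.im - 49 / 64 * r < 0 by linarith only [hc])
        (show 0 < 64 / 49 * r - z.im by linarith only [hr1, hc])
      linarith only [D, this]
    have l2 : z.im ≤ 64 / 49 * r := by
      by_contra hc
      have := mul_neg_of_pos_of_neg (show 0 < z.im - 49 / 64 * r by linarith only [hr1, hc])
        (show 64 / 49 * r - z.im < 0 by linarith only [hc])
      linarith only [D, this]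
    exact gd_oseg p1 h1 hx (by linarith only [hr1, p2, l1]) (by linarith only [hr1, hr2, l2])

theorem Geo.dent {n : ℕ} {V : ℕ → ℍ} (h : Geo n V) {j : ℕ} (hj : j < n)
    (hl : 3 ≤ cosh (dist (V j) (V (j + 1)))) {ε : ℝ} (hε : ε = 1 ∨ ε = -1) :
    ∃ m a b c, Dent n V j ε m a b c := by
  obtain ⟨A, h0, h1, h2⟩ := normalise (V j) (V (j + 1))
  have e : dist (A • V j) (A • V (j + 1)) = dist (V j) (V (j + 1)) := dist_smul A _ _
  have hε' : -ε = 1 ∨ -ε = -1 := by
    rcases hε with h' | h'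
    · exact Or.inr (by rw [h'])
    · exact Or.inl (by rw [h', neg_neg])
  obtain ⟨r, r1, r2, r3⟩ := (h.smul A).big_empty hj (by rw [e]; exact hl) h0 h1
    (by rw [e]; exact h2) hε'
  obtain ⟨m, a, b, c, hD⟩ := dent_normal (V := fun k => A • V k) h0 h1 hε r1 r2 r3
  have hD' := hD.smul A⁻¹
  simp only [inv_smul_smul] at hD'
  exact ⟨_, _, _, _, hD'⟩

end Pool.Agent.MP_596265_gt

end
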