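import Pool.Agent.MP_596265_gt.B1

attribute [-instance] AddQuantale.instAddLeftMono AddQuantale.instAddRightMono
  NumberField.to_charZero IdemSemiring.toCanonicallyOrderedAdd
  LinearOrderedCommMonoidWithZero.toPosMulStrictMono Quantale.instMulRightMono
  IsAffineAddMonoid.toIsAddTorsionFree Group.IsPerfect.subsingleton_of_isMulCommutative
  TotallySeparatedSpace.t2Space FiniteField.instGrindPowIdentity CStarAlgebra.instOrderClosedTopology

-- part PA
section

namespace Pool.Agent.MP_596265_gt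

open scoped UpperHalfPlane
open Real

variable {g : ℕ}

theorem pa_det_anti (p q z : Pt) : det3 q p z = -det3 p q z := by
  unfold det3; ring

theorem pa_det_comb (p q u v : Pt) {a b : ℝ} (hab : a + b = 1) :
    det3 p q (a • u + b • v) = a * det3 p q u + b * det3 p q v := by
  have hb : b = 1 - a := by linarith
  subst hb
  simp only [det3, Prod.fst_add, Prod.snd_add, Prod.smul_fst, Prod.smul_snd, smul_eq_mul]
  ring

theorem pa_point {p q : Pt} (hpq : p.1 < q.1) {x : ℝ} (h1 : p.1 ≤ x) (h2 : x ≤ q.1) :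
    ∃ u ∈ segment ℝ p q, u.1 = x ∧
      ∀ z : Pt, z.1 = x → det3 p q z = (q.1 - p.1) * (z.2 - u.2) := by
  have hd : 0 < q.1 - p.1 := sub_pos.2 hpq
  have hne : q.1 - p.1 ≠ 0 := hd.ne'
  refine ⟨((q.1 - x) / (q.1 - p.1)) • p + ((x - p.1) / (q.1 - p.1)) • q,
    ⟨_, _, div_nonneg (sub_nonneg.2 h2) hd.le, div_nonneg (sub_nonneg.2 h1) hd.le, ?_, rfl⟩,
    ?_, ?_⟩
  · field_simp; ring
  · simp only [Prod.fst_add, Prod.smul_fst, smul_eq_mul]
    field_simp; ring
  · intro z hz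
    simp only [det3, Prod.snd_add, Prod.smul_snd, smul_eq_mul, hz]
    field_simp; ring

theorem pa_mem {p q z : Pt} (hpq : p.1 < q.1) (h1 : p.1 ≤ z.1) (h2 : z.1 ≤ q.1)
    (h0 : det3 p q z = 0) : z ∈ segment ℝ p q := by
  obtain ⟨u, hu, hx, hd⟩ := pa_point hpq h1 h2
  have h := hd z rfl
  rw [h0] at h
  have h3 : z.2 - u.2 = 0 := (mul_eq_zero.1 h.symm).resolve_left (sub_pos.2 hpq).ne'
  have : z = u := Prod.ext hx.symm (by linarith only [h3])
  rwa [this]

theorem pa_same_aux {p q u v : Pt} (hpq : p.1 < q.1) (hu1 : p.1 ≤ u.1) (hu2 : u.1 ≤ q.1)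
    (hv1 : p.1 ≤ v.1) (hv2 : v.1 ≤ q.1) (h : Disjoint (segment ℝ p q) (segment ℝ u v))
    (hu : 0 ≤ det3 p q u) : 0 < det3 p q v := by
  by_contra hv
  have hv : det3 p q v ≤ 0 := not_lt.1 hv
  rcases hu.eq_or_lt with h0 | hu
  · exact Set.disjoint_left.1 h (pa_mem hpq hu1 hu2 h0.symm) (left_mem_segment ℝ u v)
  have hd : 0 < det3 p q u - det3 p q v := by linarith
  have hne : det3 p q u - det3 p q v ≠ 0 := hd.ne'
  obtain ⟨a, ha⟩ : ∃ a, a = -det3 p q v / (det3 p q u - det3 p q v) := ⟨_, rfl⟩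
  obtain ⟨b, hb⟩ : ∃ b, b = det3 p q u / (det3 p q u - det3 p q v) := ⟨_, rfl⟩
  have ha0 : 0 ≤ a := ha ▸ div_nonneg (by linarith) hd.le
  have hb0 : 0 ≤ b := hb ▸ div_nonneg hu.le hd.le
  have hab : a + b = 1 := by rw [ha, hb]; field_simp; ring
  have hw : det3 p q (a • u + b • v) = 0 := by
    rw [pa_det_comb p q u v hab, ha, hb]; field_simp; ring
  have e1 : (a • u + b • v).1 = a * u.1 + b * v.1 := by
    simp only [Prod.fst_add, Prod.smul_fst, smul_eq_mul]
  have l1 : p.1 ≤ (a • u + b • v).1 := by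
    rw [e1]
    have := mul_le_mul_of_nonneg_left hu1 ha0
    have := mul_le_mul_of_nonneg_left hv1 hb0
    have : a * p.1 + b * p.1 = p.1 := by rw [← add_mul, hab, one_mul]
    linarith
  have l2 : (a • u + b • v).1 ≤ q.1 := by
    rw [e1]
    have := mul_le_mul_of_nonneg_left hu2 ha0
    have := mul_le_mul_of_nonneg_left hv2 hb0
    have : a * q.1 + b * q.1 = q.1 := by rw [← add_mul, hab, one_mul]
    linarith
  exact Set.disjoint_left.1 h (pa_mem hpq l1 l2 hw) ⟨a, b, ha0, hb0, hab, rfl⟩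

theorem pa_same_pos {p q u v : Pt} (hpq : p.1 < q.1) (hu1 : p.1 ≤ u.1) (hu2 : u.1 ≤ q.1)
    (hv1 : p.1 ≤ v.1) (hv2 : v.1 ≤ q.1) (h : Disjoint (segment ℝ p q) (segment ℝ u v)) :
    0 < det3 p q u ↔ 0 < det3 p q v :=
  ⟨fun hu => pa_same_aux hpq hu1 hu2 hv1 hv2 h hu.le,
    fun hv => pa_same_aux hpq hv1 hv2 hu1 hu2 (by rwa [segment_symm ℝ v u]) hv.le⟩

theorem pa_same_neg {p q u v : Pt} (hpq : p.1 < q.1) (hu1 : p.1 ≤ u.1) (hu2 : u.1 ≤ q.1)
    (hv1 : p.1 ≤ v.1) (hv2 : v.1 ≤ q.1) (h : Disjoint (segment ℝ p q) (segment ℝ u v)) :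
    det3 p q u < 0 ↔ det3 p q v < 0 := by
  constructor
  · intro hu
    by_contra hv
    have := pa_same_aux hpq hv1 hv2 hu1 hu2 (by rwa [segment_symm ℝ v u]) (not_lt.1 hv)
    linarith
  · intro hv
    by_contra hu
    have := pa_same_aux hpq hu1 hu2 hv1 hv2 h (not_lt.1 hu)
    linarith

theorem pa_sign {c d x y D E : ℝ} (hc : 0 < c) (hd : 0 < d) (hD : D = c * (x - y))
    (hE : E = d * (y - x)) : 0 < D ↔ E < 0 := by
  rw [hD, hE, mul_pos_iff_of_pos_left hc, ← neg_pos, ← mul_neg, mul_pos_iff_of_pos_left hd,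
    neg_sub]

theorem pa_gT_anti (z z' u : Pt) : gT z' z u = -gT z z' u := by
  unfold gT
  rw [pa_det_anti z z' u]
  simp only [neg_neg_iff_pos, neg_pos, neg_sub]

theorem cS_anti (p q z : Pt) : cS q p z = -cS p q z := by
  unfold cS
  rw [pa_det_anti p q z]
  simp only [neg_neg_iff_pos, neg_pos, neg_sub]

theorem cW_anti (p q z : Pt) : cW q p z = -cW p q z := by
  unfold cW
  rw [pa_det_anti p q z]
  simp only [neg_nonpos, neg_nonneg, neg_sub]

theorem cW_eq_cS {p q z : Pt} (h : z ∉ segment ℝ p q) : cW p q z = cS p q z := by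
  have h1 : (p.1 ≤ z.1 ∧ z.1 < q.1 ∧ 0 ≤ det3 p q z) ↔
      (p.1 ≤ z.1 ∧ z.1 < q.1 ∧ 0 < det3 p q z) := by
    refine ⟨fun ⟨a, b, c⟩ => ⟨a, b, c.lt_of_ne fun e => h ?_⟩, fun ⟨a, b, c⟩ => ⟨a, b, c.le⟩⟩
    exact pa_mem (a.trans_lt b) a b.le e.symm
  have h2 : (q.1 ≤ z.1 ∧ z.1 < p.1 ∧ det3 p q z ≤ 0) ↔
      (q.1 ≤ z.1 ∧ z.1 < p.1 ∧ det3 p q z < 0) := by
    refine ⟨fun ⟨a, b, c⟩ => ⟨a, b, c.lt_of_ne fun e => h ?_⟩, fun ⟨a, b, c⟩ => ⟨a, b, c.le⟩⟩
    rw [segment_symm]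
    exact pa_mem (a.trans_lt b) a b.le (by rw [pa_det_anti, e, neg_zero])
  unfold cW cS
  simp only [h1, h2]

theorem pa_open {p q m : Pt} (hm : m ∈ openSegment ℝ p q) :
    (p.1 < q.1 → p.1 < m.1 ∧ m.1 < q.1) ∧ (q.1 < p.1 → q.1 < m.1 ∧ m.1 < p.1) ∧
      det3 p q m = 0 ∧ ∃ a b : ℝ, 0 < a ∧ 0 < b ∧
        ∀ z, det3 m z p = b * det3 p q z ∧ det3 m z q = -(a * det3 p q z) := by
  obtain ⟨a, b, ha, hb, hab, rfl⟩ := hm
  have hb1 : b = 1 - a := by linarith
  have e1 : (a • p + b • q).1 - p.1 = b * (q.1 - p.1) := by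
    simp only [Prod.fst_add, Prod.smul_fst, smul_eq_mul, hb1]; ring
  have e2 : q.1 - (a • p + b • q).1 = a * (q.1 - p.1) := by
    simp only [Prod.fst_add, Prod.smul_fst, smul_eq_mul, hb1]; ring
  refine ⟨fun h => ?_, fun h => ?_, ?_, a, b, ha, hb, fun z => ⟨?_, ?_⟩⟩
  · have := mul_pos hb (sub_pos.2 h)
    have := mul_pos ha (sub_pos.2 h)
    constructor <;> linarith
  · have := mul_neg_of_pos_of_neg hb (sub_neg.2 h)
    have := mul_neg_of_pos_of_neg ha (sub_neg.2 h)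
    constructor <;> linarith
  · simp only [det3, Prod.fst_add, Prod.snd_add, Prod.smul_fst, Prod.smul_snd, smul_eq_mul, hb1]
    ring
  · simp only [det3, Prod.fst_add, Prod.snd_add, Prod.smul_fst, Prod.smul_snd, smul_eq_mul, hb1]
    ring
  · simp only [det3, Prod.fst_add, Prod.snd_add, Prod.smul_fst, Prod.smul_snd, smul_eq_mul, hb1]
    ring

theorem cS_cW_on {p q z : Pt} (h : z ∈ openSegment ℝ p q) (hpq : p.1 ≠ q.1) :
    cS p q z = 0 ∧ cW p q z = if p.1 < q.1 then 1 else -1 := by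
  obtain ⟨h1, h2, h0, -⟩ := pa_open h
  unfold cS cW
  rw [h0]
  rcases lt_or_gt_of_ne hpq with hl | hl
  · obtain ⟨a, b⟩ := h1 hl
    simp [hl, a.le, b, not_le.2 b]
  · obtain ⟨a, b⟩ := h2 hl
    simp [not_lt.2 hl.le, a.le, b, not_le.2 b]

theorem pa_cS_le {p q : Pt} (h : p.1 ≤ q.1) (z : Pt) :
    cS p q z = if p.1 ≤ z.1 ∧ z.1 < q.1 ∧ 0 < det3 p q z then 1 else 0 := by
  unfold cS
  rw [if_neg (c := q.1 ≤ z.1 ∧ z.1 < p.1 ∧ det3 p q z < 0) fun ⟨a, b, _⟩ => by linarith, sub_zero]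

theorem pa_gT_le {z z' : Pt} (h : z.1 ≤ z'.1) (u : Pt) :
    gT z z' u = if z.1 < u.1 ∧ u.1 ≤ z'.1 ∧ det3 z z' u < 0 then 1 else 0 := by
  unfold gT
  rw [if_neg (c := z'.1 < u.1 ∧ u.1 ≤ z.1 ∧ 0 < det3 z z' u) fun ⟨a, b, _⟩ => by linarith,
    sub_zero]

theorem pa_transport {p q z z' : Pt} (hp : p.1 ≤ q.1) (hz : z.1 ≤ z'.1)
    (h : Disjoint (segment ℝ p q) (segment ℝ z z')) :
    cS p q z' - cS p q z = gT z z' p - gT z z' q := by
  rw [pa_cS_le hp, pa_cS_le hp, pa_gT_le hz, pa_gT_le hz]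
  rcases le_or_gt p.1 z.1 with a | a <;> rcases lt_or_ge z'.1 q.1 with b | b
  · have e := pa_same_pos ((a.trans hz).trans_lt b) a (hz.trans b.le) (a.trans hz) b.le h
    simp only [a.trans hz, b, true_and, a, hz.trans_lt b, e, sub_self, not_lt.2 a, false_and, ↓ reduceIte, not_le.2 b, and_false]
  · rcases lt_or_ge z.1 q.1 with c | c
    · obtain ⟨w, hw, hx, hd⟩ := pa_point (c.trans_le b) c.le b
      have hpq : p.1 < q.1 := a.trans_lt c
      have e1 := pa_same_pos hpq a c.le (hx ▸ hp) hx.le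
        (h.mono_right ((convex_segment z z').segment_subset (left_mem_segment ℝ z z') hw))
      have e2 : 0 < det3 p q w ↔ det3 z z' q < 0 :=
        pa_sign (sub_pos.2 hpq) (sub_pos.2 (c.trans_le b)) (x := w.2) (y := q.2)
          (by unfold det3; rw [hx]; ring) (hd q rfl)
      simp only [not_lt.2 b, false_and, and_false, ↓ reduceIte, a, c, e1, e2, true_and, zero_sub, not_lt.2 a, b]
    · simp only [not_lt.2 b, false_and, and_false, ↓ reduceIte, not_lt.2 c, sub_self, not_lt.2 a]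
  · rcases le_or_gt p.1 z'.1 with c | c
    · obtain ⟨w, hw, hx, hd⟩ := pa_point (a.trans_le c) a.le c
      have hpq : p.1 < q.1 := c.trans_lt b
      have e1 := pa_same_pos hpq c b.le hx.ge (hx ▸ hp)
        (h.mono_right ((convex_segment z z').segment_subset (right_mem_segment ℝ z z') hw))
      have e2 : 0 < det3 p q w ↔ det3 z z' p < 0 :=
        pa_sign (sub_pos.2 hpq) (sub_pos.2 (a.trans_le c)) (x := w.2) (y := p.2)
          (by unfold det3; rw [hx]; ring) (hd p rfl)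
      simp [a, b, c, not_le.2 a, not_le.2 b, e1, e2]
    · simp only [not_le.2 c, false_and, ↓ reduceIte, not_le.2 a, sub_self, and_false, not_le.2 b]
  · have e := pa_same_neg ((a.trans_le hp).trans_le b) a.le (hp.trans b) (a.le.trans hp) b h.symm
    simp only [hp.trans b, not_lt.2 b, false_and, and_false, ↓ reduceIte, not_le.2 a, a.trans_le hp, true_and, sub_self, a, e, b]

/- Paper T0. -/
theorem cS_transport {p q z z' : Pt} (h : Disjoint (segment ℝ p q) (segment ℝ z z')) :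
    cS p q z' - cS p q z = gT z z' p - gT z z' q := by
  have h1 : Disjoint (segment ℝ q p) (segment ℝ z z') := by rwa [segment_symm ℝ q p]
  have h2 : Disjoint (segment ℝ p q) (segment ℝ z' z) := by rwa [segment_symm ℝ z' z]
  have h3 : Disjoint (segment ℝ q p) (segment ℝ z' z) := by rwa [segment_symm ℝ q p]
  rcases le_total p.1 q.1 with a | a <;> rcases le_total z.1 z'.1 with b | b
  · exact pa_transport a b h
  · have := pa_transport a b h2
    rw [pa_gT_anti z z', pa_gT_anti z z'] at this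
    linarith
  · have := pa_transport a b h1
    rw [cS_anti p q, cS_anti p q] at this
    linarith
  · have := pa_transport a b h3
    rw [cS_anti p q, cS_anti p q, pa_gT_anti z z', pa_gT_anti z z'] at this
    linarith

theorem chain_transport {ι : Type} {s : Finset ι} {p q : ι → Pt} (hc : ClosedC s p q) {z z' : Pt}
    (h : ∀ k ∈ s, Disjoint (segment ℝ (p k) (q k)) (segment ℝ z z')) :
    ∑ k ∈ s, cS (p k) (q k) z = ∑ k ∈ s, cS (p k) (q k) z' := by
  have h1 : ∑ k ∈ s, (cS (p k) (q k) z' - cS (p k) (q k) z) =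
      ∑ k ∈ s, (gT z z' (p k) - gT z z' (q k)) :=
    Finset.sum_congr rfl fun k hk => cS_transport (h k hk)
  rw [Finset.sum_sub_distrib, Finset.sum_sub_distrib, hc (gT z z')] at h1
  linarith

theorem closedC_range {n : ℕ} {V : ℕ → Pt} (h : V n = V 0) :
    ClosedC (Finset.range n) V fun k => V (k + 1) := by
  intro φ
  have h1 := Finset.sum_range_succ (fun k => φ (V k)) n
  have h2 := Finset.sum_range_succ' (fun k => φ (V k)) n
  simp only [h] at h1 h2
  linarith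

theorem wn_transport {n : ℕ} {V : ℕ → Pt} (hcl : V n = V 0) {z z' : Pt}
    (h : ∀ k < n, Disjoint (segment ℝ (V k) (V (k + 1))) (segment ℝ z z')) :
    wn n V z = wn n V z' :=
  chain_transport (closedC_range hcl) fun k hk => h k (Finset.mem_range.1 hk)

theorem pa_below_le {p q z : Pt} (hp : p.1 ≤ q.1)
    (h : ∀ u ∈ segment ℝ p q, u.1 = z.1 → u.2 < z.2) :
    cS p q z = (if p.1 ≤ z.1 then 1 else 0) - (if q.1 ≤ z.1 then 1 else 0) := by
  rw [pa_cS_le hp]
  rcases le_or_gt p.1 z.1 with a | a <;> rcases lt_or_ge z.1 q.1 with b | b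
  · obtain ⟨u, hu, hx, hd⟩ := pa_point (a.trans_lt b) a b.le
    have : 0 < det3 p q z := by
      rw [hd z rfl]; exact mul_pos (sub_pos.2 (a.trans_lt b)) (sub_pos.2 (h u hu hx))
    simp [a, b, this, not_le.2 b]
  · simp [a, b, not_lt.2 b]
  · simp [not_le.2 a, not_le.2 b]
  · linarith

theorem pa_below {p q z : Pt} (h : ∀ u ∈ segment ℝ p q, u.1 = z.1 → u.2 < z.2) :
    cS p q z = (if p.1 ≤ z.1 then 1 else 0) - (if q.1 ≤ z.1 then 1 else 0) := by
  rcases le_total p.1 q.1 with a | a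
  · exact pa_below_le a h
  · have := pa_below_le a (z := z) (by rwa [segment_symm])
    rw [cS_anti p q] at this
    linarith

theorem pa_above_le {p q z : Pt} (hp : p.1 ≤ q.1)
    (h : ∀ u ∈ segment ℝ p q, u.1 = z.1 → z.2 < u.2) : cS p q z = 0 := by
  rw [pa_cS_le hp, if_neg]
  rintro ⟨a, b, c⟩
  obtain ⟨u, hu, hx, hd⟩ := pa_point (a.trans_lt b) a b.le
  rw [hd z rfl] at c
  have := mul_neg_of_pos_of_neg (sub_pos.2 (a.trans_lt b)) (sub_neg.2 (h u hu hx))
  linarith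

theorem pa_above {p q z : Pt} (h : ∀ u ∈ segment ℝ p q, u.1 = z.1 → z.2 < u.2) :
    cS p q z = 0 := by
  rcases le_total p.1 q.1 with a | a
  · exact pa_above_le a h
  · have := pa_above_le a (z := z) (by rwa [segment_symm])
    rw [cS_anti p q] at this
    linarith

theorem wn_vertical {n : ℕ} {V : ℕ → Pt} (hcl : V n = V 0) {z : Pt}
    (h : (∀ k < n, ∀ u ∈ segment ℝ (V k) (V (k + 1)), u.1 = z.1 → u.2 < z.2) ∨
      (∀ k < n, ∀ u ∈ segment ℝ (V k) (V (k + 1)), u.1 = z.1 → z.2 < u.2)) : wn n V z = 0 := by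
  unfold wn
  rcases h with h | h
  · rw [Finset.sum_congr rfl fun k hk => pa_below (h k (Finset.mem_range.1 hk)),
      Finset.sum_sub_distrib]
    exact sub_eq_zero.2 (closedC_range hcl fun u => if u.1 ≤ z.1 then 1 else 0)
  · exact Finset.sum_eq_zero fun k hk => pa_above (h k (Finset.mem_range.1 hk))

theorem cS_one_side {p q m z : Pt} (hm : m ∈ openSegment ℝ p q) (hpq : p.1 ≠ q.1)
    (hz : det3 p q z ≠ 0) : cS p q z - gT m z p + gT m z q =
      (if p.1 < q.1 then 1 else 0) - (if 0 < det3 p q z then 0 else 1) := by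
  obtain ⟨h1, h2, -, a, b, ha, hb, he⟩ := pa_open hm
  obtain ⟨e1, e2⟩ := he z
  have f1 : 0 < det3 m z p ↔ 0 < det3 p q z := by rw [e1, mul_pos_iff_of_pos_left hb]
  have f2 : det3 m z q < 0 ↔ 0 < det3 p q z := by
    rw [e2, neg_neg_iff_pos, mul_pos_iff_of_pos_left ha]
  have f3 : det3 m z p < 0 ↔ det3 p q z < 0 := by
    rw [e1, ← neg_pos, ← mul_neg, mul_pos_iff_of_pos_left hb, neg_pos]
  have f4 : 0 < det3 m z q ↔ det3 p q z < 0 := by
    rw [e2, ← mul_neg, mul_pos_iff_of_pos_left ha, neg_pos]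
  unfold cS gT
  simp only [f1, f2, f3, f4]
  rcases lt_or_gt_of_ne hpq with hl | hl
  · obtain ⟨c, d⟩ := h1 hl
    rcases lt_or_gt_of_ne hz with D | D
    · simp only [not_lt.2 D.le, and_false, ↓ reduceIte, zero_sub, not_lt.2 c.le, false_and, sub_self, sub_zero, not_le.2 d, add_zero, hl, neg_eq_zero, ite_eq_right_iff, one_ne_zero, imp_false, not_and, not_lt]
      intro i j
      linarith
    · rcases le_or_gt p.1 z.1 with i | i <;> rcases lt_or_ge z.1 q.1 with j | j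
      · simp [hl, D, not_lt.2 D.le, i, j, not_lt.2 i, not_le.2 j]
      · simp only [i, not_lt.2 j, D, and_true, and_false, ↓ reduceIte, j, not_lt.2 i, not_lt.2 D.le, and_self, sub_self, false_and, d, sub_zero, zero_add, hl]
      · simp [hl, D, not_lt.2 D.le, i, c.le, not_le.2 i, not_le.2 j]
      · linarith only [c, d, i, j]
  · obtain ⟨c, d⟩ := h2 hl
    rcases lt_or_gt_of_ne hz with D | D
    · rcases le_or_gt q.1 z.1 with i | i <;> rcases lt_or_ge z.1 p.1 with j | j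
      · simp [not_lt.2 hl.le, D, not_lt.2 D.le, i, j, not_lt.2 i, not_le.2 j]
      · simp [not_lt.2 hl.le, D, not_lt.2 D.le, i, j, d, not_lt.2 i, not_lt.2 j]
      · simp [not_lt.2 hl.le, D, not_lt.2 D.le, i, c.le, not_le.2 i, not_le.2 j]
      · linarith
    · simp only [D, and_true, not_lt.2 D.le, and_false, ↓ reduceIte, sub_zero, not_le.2 d, sub_self, not_lt.2 c.le, false_and, add_zero, not_lt.2 hl.le, ite_eq_right_iff, one_ne_zero, imp_false, not_and, not_lt]
      intro i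
      linarith

theorem wn_side {n : ℕ} {V : ℕ → Pt} {ν : ℝ} (hs : SimpleP n V) (hν : Ori n V ν) {k : ℕ}
    (hk : k < n) {m z : Pt} (hm : m ∈ openSegment ℝ (V k) (V (k + 1)))
    (hz : 0 < ν * det3 (V k) (V (k + 1)) z)
    (h : ∀ t < n, t ≠ k → Disjoint (segment ℝ (V t) (V (t + 1))) (segment ℝ m z)) :
    wn n V z = ν := by
  have hkm : k ∈ Finset.range n := Finset.mem_range.2 hk
  have hD : det3 (V k) (V (k + 1)) z ≠ 0 := fun e => by rw [e, mul_zero] at hz; exact hz.false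
  have h1 := cS_one_side hm (hs.nv k hk) hD
  have h2 := hν.side k hk m hm
  have h3 : ∑ t ∈ (Finset.range n).erase k, (cS (V t) (V (t + 1)) z - cS (V t) (V (t + 1)) m) =
      ∑ t ∈ (Finset.range n).erase k, (gT m z (V t) - gT m z (V (t + 1))) :=
    Finset.sum_congr rfl fun t ht => cS_transport
      (h t (Finset.mem_range.1 (Finset.mem_of_mem_erase ht)) (Finset.ne_of_mem_erase ht))
  rw [Finset.sum_sub_distrib, Finset.sum_sub_distrib] at h3
  have h4 := closedC_range hs.cl (gT m z)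
  have h5 := Finset.add_sum_erase _ (fun t => gT m z (V t)) hkm
  have h6 := Finset.add_sum_erase _ (fun t => gT m z (V (t + 1))) hkm
  have h7 := Finset.add_sum_erase _ (fun t => cS (V t) (V (t + 1)) z) hkm
  unfold wn
  rcases hν.sgn with rfl | rfl
  · rw [if_pos (c := 0 < det3 (V k) (V (k + 1)) z) (by linarith only [hz])] at h1
    linarith only [h1, h3, h4, h5, h6, h7, h2]
  · rw [if_neg (c := 0 < det3 (V k) (V (k + 1)) z) (by linarith only [hz])] at h1
    linarith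

end Pool.Agent.MP_596265_gt

end

-- part PB
section

namespace Pool.Agent.MP_596265_gt

open scoped UpperHalfPlane
open Real

variable {g : ℕ}

theorem pb_open {p q z : Pt} (h : z ∈ openSegment ℝ p q) :
    ∃ s : ℝ, 0 < s ∧ s < 1 ∧ z.1 = p.1 + s * (q.1 - p.1) ∧ z.2 = p.2 + s * (q.2 - p.2) := by
  obtain ⟨a, b, ha, hb, hab, rfl⟩ := h
  have : a = 1 - b := by linarith
  subst this
  refine ⟨b, hb, by linarith, ?_, ?_⟩ <;> simp only [Prod.fst_add, Prod.smul_fst, smul_eq_mul, Prod.snd_add, Prod.smul_snd] <;> ring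

theorem pb_mem_open {p q z : Pt} {s : ℝ} (h0 : 0 < s) (h1 : s < 1)
    (hx : z.1 = p.1 + s * (q.1 - p.1)) (hy : z.2 = p.2 + s * (q.2 - p.2)) :
    z ∈ openSegment ℝ p q := by
  refine ⟨1 - s, s, by linarith, h0, by ring, ?_⟩
  ext
  · simp only [Prod.fst_add, Prod.smul_fst, smul_eq_mul, hx]; ring
  · simp only [Prod.snd_add, Prod.smul_snd, smul_eq_mul, hy]; ring

theorem pb_gT_zero {z z' u : Pt} (h : det3 z z' u = 0) : gT z z' u = 0 := by
  simp [gT, h]

theorem pb_not_mem_left {p q z : Pt} (hpq : p.1 ≠ q.1) (h : z ∈ openSegment ℝ p q) :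
    p ∉ segment ℝ z q := by
  obtain ⟨s, h0, h1, hx, -⟩ := pb_open h
  rintro ⟨a, b, ha, hb, hab, he⟩
  have h2 : a * z.1 + b * q.1 = p.1 := by simpa using congrArg Prod.fst he
  have h3 : (a * s + b) * (q.1 - p.1) = 0 := by
    have : a = 1 - b := by linarith only [hab]
    subst this
    rw [hx] at h2
    linear_combination h2
  rcases mul_eq_zero.1 h3 with h4 | h4
  · have : 0 ≤ a * s := mul_nonneg ha h0.le
    have hb0 : b = 0 := by linarith only [hb, h4, this]
    have ha1 : a = 1 := by linarith only [hb, hab, h4, this]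
    rw [ha1, hb0] at h4
    linarith
  · exact hpq (by linarith only [h4])

theorem pb_tele {n : ℕ} {V : ℕ → Pt} (hcl : V n = V 0) (φ : Pt → ℝ) :
    ∑ t ∈ Finset.range n, (φ (V t) - φ (V (t + 1))) = 0 := by
  rw [Finset.sum_range_sub' (fun t => φ (V t)) n, hcl, sub_self]

theorem pb_meet {n : ℕ} {V : ℕ → Pt} (hs : SimpleP n V) {k t : ℕ} (hk : k < n) (ht : t < n)
    (hne : t ≠ k) {u : Pt} (h1 : u ∈ segment ℝ (V t) (V (t + 1)))
    (h2 : u ∈ segment ℝ (V k) (V (k + 1))) :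
    (u = V k ∧ (k = t + 1 ∨ k = 0)) ∨ (u = V (k + 1) ∧ (t = k + 1 ∨ k + 1 = n)) := by
  rcases lt_or_gt_of_ne hne with h | h
  · rcases hs.meet t k h hk u h1 h2 with ⟨a, b⟩ | ⟨a, b, c⟩
    · exact Or.inl ⟨b, Or.inl a⟩
    · exact Or.inr ⟨by rw [c, b, hs.cl], Or.inr b⟩
  · rcases hs.meet k t h ht u h2 h1 with ⟨a, b⟩ | ⟨a, b, c⟩
    · exact Or.inr ⟨by rw [b, a], Or.inl a⟩
    · exact Or.inl ⟨by rw [c, a], Or.inr a⟩

theorem pb_open_ne {p q z : Pt} (hpq : p.1 ≠ q.1) (h : z ∈ openSegment ℝ p q) :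
    z ≠ p ∧ z ≠ q := by
  constructor
  · rintro rfl
    exact pb_not_mem_left hpq h (left_mem_segment ℝ _ _)
  · rintro rfl
    rw [openSegment_symm] at h
    exact pb_not_mem_left hpq.symm h (left_mem_segment ℝ _ _)

/-- The count along an open side. -/
noncomputable def pb_L (n : ℕ) (V : ℕ → Pt) (k : ℕ) (z : Pt) : ℝ :=
  ∑ t ∈ (Finset.range n).erase k, cS (V t) (V (t + 1)) z +
    (if (V k).1 < (V (k + 1)).1 then 1 else 0)

theorem pb_det_open {p q z z' : Pt} (h : z ∈ openSegment ℝ p q) (h' : z' ∈ openSegment ℝ p q) :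
    det3 z z' p = 0 ∧ det3 z z' q = 0 := by
  obtain ⟨s, -, -, hx, hy⟩ := pb_open h
  obtain ⟨s', -, -, hx', hy'⟩ := pb_open h'
  simp only [det3, hx, hy, hx', hy']
  constructor <;> ring

theorem pb_along {n : ℕ} {V : ℕ → Pt} (hs : SimpleP n V) {k : ℕ} (hk : k < n) {z z' : Pt}
    (h : z ∈ openSegment ℝ (V k) (V (k + 1))) (h' : z' ∈ openSegment ℝ (V k) (V (k + 1))) :
    pb_L n V k z = pb_L n V k z' := by
  have hsub : segment ℝ z z' ⊆ openSegment ℝ (V k) (V (k + 1)) :=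
    (convex_openSegment _ _).segment_subset h h'
  have h1 : ∀ t ∈ (Finset.range n).erase k, cS (V t) (V (t + 1)) z' - cS (V t) (V (t + 1)) z =
      gT z z' (V t) - gT z z' (V (t + 1)) := by
    intro t ht
    obtain ⟨hne, ht⟩ := Finset.mem_erase.1 ht
    refine cS_transport (Set.disjoint_left.2 fun u hu hu' => ?_)
    have hu2 := hsub hu'
    have hn := pb_open_ne (hs.nv k hk) hu2
    rcases pb_meet hs hk (Finset.mem_range.1 ht) hne hu (openSegment_subset_segment _ _ _ hu2) with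
      a | a
    · exact hn.1 a.1
    · exact hn.2 a.1
  have h2 := Finset.sum_congr rfl h1
  have h3 := pb_tele hs.cl (gT z z')
  rw [← Finset.sum_erase_add _ _ (Finset.mem_range.2 hk), pb_gT_zero (pb_det_open h h').1,
    pb_gT_zero (pb_det_open h h').2] at h3
  rw [Finset.sum_sub_distrib] at h2
  unfold pb_L
  linarith only [h2, h3]

theorem pb_corner {p v w z z' : Pt} (hz : z ∈ openSegment ℝ p v) (hz' : z' ∈ openSegment ℝ v w)
    (hpv : p.1 ≠ v.1) (hvw : v.1 ≠ w.1)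
    (hm : ∀ u ∈ segment ℝ p v, u ∈ segment ℝ v w → u = v) :
    -gT z v w + cS v w z + (if p.1 < v.1 then 1 else 0) =
      gT z' v p + cS p v z' + (if v.1 < w.1 then 1 else 0) := by
  obtain ⟨s, s0, s1, hx, hy⟩ := pb_open hz
  obtain ⟨r, r0, r1, hx', hy'⟩ := pb_open hz'
  have d1 : det3 z v w = (1 - s) * det3 p v w := by simp only [det3, hx, hy]; ring
  have d2 : det3 v w z = (1 - s) * det3 p v w := by simp only [det3, hx, hy]; ring
  have d3 : det3 z' v p = -(r * det3 p v w) := by simp only [det3, hx', hy']; ring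
  have d4 : det3 p v z' = r * det3 p v w := by simp only [det3, hx', hy']; ring
  have s2 : 0 < 1 - s := by linarith only [s1]
  have hD : (0 < (p.1 - v.1) * (w.1 - v.1)) → det3 p v w ≠ 0 := by
    intro hpos hD
    have hp : p.1 - v.1 ≠ 0 := sub_ne_zero.2 hpv
    have hw : w.1 - v.1 ≠ 0 := sub_ne_zero.2 hvw.symm
    have hq : 0 < (w.1 - v.1) / (p.1 - v.1) := by
      have : (w.1 - v.1) / (p.1 - v.1) = (p.1 - v.1) * (w.1 - v.1) / (p.1 - v.1) ^ 2 := by
        field_simp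
      rw [this]
      positivity
    set c := (w.1 - v.1) / (p.1 - v.1) with hc
    have c1 : w.1 - v.1 = c * (p.1 - v.1) := by rw [hc]; field_simp
    have c2 : w.2 - v.2 = c * (p.2 - v.2) := by
      have : (p.1 - v.1) * (w.2 - v.2 - c * (p.2 - v.2)) = 0 := by
        simp only [det3] at hD
        linear_combination (-1 : ℝ) * hD + (p.2 - v.2) * c1
      rcases mul_eq_zero.1 this with h | h
      · exact absurd h hp
      · linarith only [h]
    have e0 : 0 < 1 / (1 + c) := by positivity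
    have e1 : 1 / (1 + c) < 1 := by rw [div_lt_one (by positivity)]; linarith only [hq]
    have e2 : c / (1 + c) < 1 := by rw [div_lt_one (by positivity)]; linarith only [s0, s1]
    have e3 : 0 < c / (1 + c) := by positivity
    have m1 : ((v.1 + 1 / (1 + c) * (w.1 - v.1), v.2 + 1 / (1 + c) * (w.2 - v.2)) : Pt) ∈
        openSegment ℝ v w := pb_mem_open e0 e1 rfl rfl
    have m2 : ((v.1 + 1 / (1 + c) * (w.1 - v.1), v.2 + 1 / (1 + c) * (w.2 - v.2)) : Pt) ∈
        openSegment ℝ v p :=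
      pb_mem_open e3 e2 (by simp only [c1]; ring) (by simp only [c2]; ring)
    rw [openSegment_symm] at m2
    exact (pb_open_ne hvw m1).1
      (hm _ (openSegment_subset_segment _ _ _ m2) (openSegment_subset_segment _ _ _ m1))
  have p1 : (0 < (1 - s) * det3 p v w) ↔ 0 < det3 p v w := mul_pos_iff_of_pos_left s2
  have p2 : ((1 - s) * det3 p v w < 0) ↔ det3 p v w < 0 := by
    rw [← neg_pos, ← mul_neg, mul_pos_iff_of_pos_left s2, neg_pos]
  have p3 : (0 < r * det3 p v w) ↔ 0 < det3 p v w := mul_pos_iff_of_pos_left r0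
  have p4 : (r * det3 p v w < 0) ↔ det3 p v w < 0 := by
    rw [← neg_pos, ← mul_neg, mul_pos_iff_of_pos_left r0, neg_pos]
  simp only [gT, cS, d1, d2, d3, d4, p1, p2, p3, p4, neg_lt_zero, neg_pos]
  generalize det3 p v w = D at hD ⊢
  have a1 : p.1 < v.1 → p.1 < z.1 ∧ z.1 < v.1 := fun h => by
    constructor <;> nlinarith only [s0, hx, h, s1]
  have a2 : v.1 < p.1 → v.1 < z.1 ∧ z.1 < p.1 := fun h => by
    constructor <;> nlinarith only [s1, hx, h, s0]
  have a3 : v.1 < w.1 → v.1 < z'.1 ∧ z'.1 < w.1 := fun h => by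
    constructor <;> nlinarith only [r0, hx', h, r1]
  have a4 : w.1 < v.1 → w.1 < z'.1 ∧ z'.1 < v.1 := fun h => by
    constructor <;> nlinarith only [r1, hx', h, r0]
  have b1 : p.1 < v.1 → w.1 < v.1 → D ≠ 0 := fun h h' => hD (by nlinarith only [h, h'])
  have b2 : v.1 < p.1 → v.1 < w.1 → D ≠ 0 := fun h h' => hD (by nlinarith only [h, h'])
  clear hD hx hy hx' hy' d1 d2 d3 d4 p1 p2 p3 p4 hm hz hz'
  generalize p.1 = P at *
  generalize v.1 = W0 at *
  generalize w.1 = W at *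
  generalize z.1 = Z at *
  generalize z'.1 = Z' at *
  clear s0 s1 r0 r1 s2
  rcases lt_or_gt_of_ne hpv with h1 | h1 <;> rcases lt_or_gt_of_ne hvw with h2 | h2 <;>
    rcases lt_trichotomy D 0 with h3 | h3 | h3 <;> grind (splits := 30)

theorem pb_step {n : ℕ} {V : ℕ → Pt} (hs : SimpleP n V) {k : ℕ} (hk : k + 1 < n) {z z' : Pt}
    (h : z ∈ openSegment ℝ (V k) (V (k + 1)))
    (h' : z' ∈ openSegment ℝ (V (k + 1)) (V (k + 1 + 1))) :
    pb_L n V k z = pb_L n V (k + 1) z' := by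
  have hk0 : k < n := by omega
  have n1 := hs.nv k hk0
  have n2 := hs.nv (k + 1) hk
  have hA : ∀ t ∈ ((Finset.range n).erase k).erase (k + 1),
      cS (V t) (V (t + 1)) (V (k + 1)) - cS (V t) (V (t + 1)) z =
        gT z (V (k + 1)) (V t) - gT z (V (k + 1)) (V (t + 1)) := by
    intro t ht
    simp only [Finset.mem_erase, Finset.mem_range] at ht
    refine cS_transport (Set.disjoint_left.2 fun u hu hu' => ?_)
    have hu2 : u ∈ segment ℝ (V k) (V (k + 1)) :=
      (convex_segment _ _).segment_subset (openSegment_subset_segment _ _ _ h)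
        (right_mem_segment _ _ _) hu'
    rcases pb_meet hs hk0 ht.2.2 ht.2.1 hu hu2 with a | a
    · exact pb_not_mem_left n1 h (a.1 ▸ hu')
    · omega
  have hB : ∀ t ∈ ((Finset.range n).erase k).erase (k + 1),
      cS (V t) (V (t + 1)) (V (k + 1)) - cS (V t) (V (t + 1)) z' =
        gT z' (V (k + 1)) (V t) - gT z' (V (k + 1)) (V (t + 1)) := by
    intro t ht
    simp only [Finset.mem_erase, Finset.mem_range] at ht
    refine cS_transport (Set.disjoint_left.2 fun u hu hu' => ?_)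
    have hu2 : u ∈ segment ℝ (V (k + 1)) (V (k + 1 + 1)) :=
      (convex_segment _ _).segment_subset (openSegment_subset_segment _ _ _ h')
        (left_mem_segment _ _ _) hu'
    rcases pb_meet hs hk ht.2.2 ht.1 hu hu2 with a | a
    · omega
    · rw [openSegment_symm] at h'
      exact pb_not_mem_left n2.symm h' (a.1 ▸ hu')
  have m1 : k ∈ Finset.range n := Finset.mem_range.2 hk0
  have m2 : k + 1 ∈ (Finset.range n).erase k := by
    simp only [Finset.mem_erase, Finset.mem_range]; omega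
  have m3 : k ∈ (Finset.range n).erase (k + 1) := by
    simp only [Finset.mem_erase, Finset.mem_range]; omega
  have tA := pb_tele hs.cl (gT z (V (k + 1)))
  have tB := pb_tele hs.cl (gT z' (V (k + 1)))
  rw [← Finset.sum_erase_add _ _ m1, ← Finset.sum_erase_add _ _ m2] at tA tB
  rw [← Finset.sum_congr rfl hA, Finset.sum_sub_distrib] at tA
  rw [← Finset.sum_congr rfl hB, Finset.sum_sub_distrib] at tB
  have z1 : gT z (V (k + 1)) (V k) = 0 := by
    obtain ⟨s, -, -, hx, hy⟩ := pb_open h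
    exact pb_gT_zero (by simp only [det3, hx, hy]; ring)
  have z2 : gT z' (V (k + 1)) (V (k + 1 + 1)) = 0 := by
    obtain ⟨s, -, -, hx, hy⟩ := pb_open h'
    exact pb_gT_zero (by simp only [det3, hx, hy]; ring)
  have hc := pb_corner h h' n1 n2 fun u hu hu' => by
    rcases pb_meet hs hk hk0 (by omega) hu hu' with a | a
    · exact a.1
    · exfalso
      rcases hs.meet k (k + 1) (by omega) hk u hu hu' with b | b
      · exact n2 (by rw [← a.1, b.2])
      · have hmid : midpoint ℝ (V k) (V (k + 1)) ∈ openSegment ℝ (V k) (V (k + 1)) :=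
          pb_mem_open (s := 1 / 2) (by norm_num) (by norm_num)
            (by simp only [midpoint_eq_smul_add, invOf_eq_inv, smul_add, Prod.fst_add, Prod.smul_fst, smul_eq_mul, one_div]; ring) (by simp only [midpoint_eq_smul_add, invOf_eq_inv, smul_add, Prod.snd_add, Prod.smul_snd, smul_eq_mul, one_div]; ring)
        have e : V (k + 1 + 1) = V k := by rw [b.2.1, hs.cl, b.1]
        have hn := pb_open_ne n1 hmid
        rcases hs.meet k (k + 1) (by omega) hk _ (openSegment_subset_segment _ _ _ hmid)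
          (by rw [e, segment_symm]; exact openSegment_subset_segment _ _ _ hmid) with c | c
        · exact hn.2 c.2
        · exact hn.1 (by rw [c.2.2, b.1])
  unfold pb_L
  rw [← Finset.sum_erase_add _ _ m2, ← Finset.sum_erase_add _ _ m3, Finset.erase_right_comm (a := k + 1)]
  linarith only [tA, tB, z1, z2, hc]

theorem pb_const {n : ℕ} {V : ℕ → Pt} (hs : SimpleP n V) :
    ∃ lam : ℝ, ∀ k < n, ∀ z ∈ openSegment ℝ (V k) (V (k + 1)), pb_L n V k z = lam := by
  have hm : ∀ p q : Pt, ((p.1 + 1 / 2 * (q.1 - p.1), p.2 + 1 / 2 * (q.2 - p.2)) : Pt) ∈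
      openSegment ℝ p q := fun p q => pb_mem_open (by norm_num) (by norm_num) rfl rfl
  refine ⟨pb_L n V 0 ((V 0).1 + 1 / 2 * ((V 1).1 - (V 0).1),
    (V 0).2 + 1 / 2 * ((V 1).2 - (V 0).2)), fun k => ?_⟩
  induction k with
  | zero => exact fun hk z hz => pb_along hs hk hz (hm _ _)
  | succ k ih =>
    intro hk z hz
    rw [← pb_step hs hk (hm _ _) hz]
    exact ih (by omega) _ (hm _ _)

/-- The side crosses the vertical line at `x`. -/
def pb_Cr (p q : Pt) (x : ℝ) : Prop := (p.1 < x ∧ x < q.1) ∨ (q.1 < x ∧ x < p.1)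

noncomputable def pb_ht (p q : Pt) (x : ℝ) : ℝ := p.2 + (x - p.1) / (q.1 - p.1) * (q.2 - p.2)

noncomputable def pb_dir (p q : Pt) : ℝ := if p.1 < q.1 then 1 else -1

theorem pb_ht_mem {p q : Pt} {x : ℝ} (h : pb_Cr p q x) :
    ((x, pb_ht p q x) : Pt) ∈ openSegment ℝ p q := by
  rcases h with ⟨a, b⟩ | ⟨a, b⟩
  · have : 0 < q.1 - p.1 := by linarith
    refine pb_mem_open (s := (x - p.1) / (q.1 - p.1)) (div_pos (by linarith) this)
      ((div_lt_one this).2 (by linarith)) ?_ rfl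
    field_simp
    ring
  · have : q.1 - p.1 < 0 := by linarith
    have h0 : q.1 - p.1 ≠ 0 := this.ne
    refine pb_mem_open (s := (x - p.1) / (q.1 - p.1)) (div_pos_of_neg_of_neg (by linarith) this)
      ((div_lt_one_of_neg this).2 (by linarith)) ?_ rfl
    field_simp
    ring

open Classical in
theorem pb_cS {p q z : Pt} (hpq : p.1 ≠ q.1) (h1 : z.1 ≠ p.1) (h2 : z.1 ≠ q.1) :
    cS p q z = (if pb_Cr p q z.1 ∧ pb_ht p q z.1 < z.2 then pb_dir p q else 0) ∧
      cW p q z = (if pb_Cr p q z.1 ∧ pb_ht p q z.1 ≤ z.2 then pb_dir p q else 0) := by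
  have h0 : q.1 - p.1 ≠ 0 := sub_ne_zero.2 hpq.symm
  have hd : det3 p q z = (q.1 - p.1) * (z.2 - pb_ht p q z.1) := by
    unfold det3 pb_ht
    field_simp
    ring
  have a1 : p.1 < q.1 → ((0 < det3 p q z ↔ pb_ht p q z.1 < z.2) ∧
      (0 ≤ det3 p q z ↔ pb_ht p q z.1 ≤ z.2)) := fun h => by
    rw [hd, mul_pos_iff_of_pos_left (sub_pos.2 h), mul_nonneg_iff_of_pos_left (sub_pos.2 h),
      sub_pos, sub_nonneg]
    exact ⟨Iff.rfl, Iff.rfl⟩
  have a2 : q.1 < p.1 → ((det3 p q z < 0 ↔ pb_ht p q z.1 < z.2) ∧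
      (det3 p q z ≤ 0 ↔ pb_ht p q z.1 ≤ z.2)) := fun h => by
    have e : det3 p q z = -((p.1 - q.1) * (z.2 - pb_ht p q z.1)) := by rw [hd]; ring
    rw [e, neg_lt_zero, neg_nonpos, mul_pos_iff_of_pos_left (sub_pos.2 h),
      mul_nonneg_iff_of_pos_left (sub_pos.2 h), sub_pos, sub_nonneg]
    exact ⟨Iff.rfl, Iff.rfl⟩
  unfold cS cW pb_Cr pb_dir
  clear hd h0
  generalize det3 p q z = D at *
  generalize pb_ht p q z.1 = H at *
  generalize p.1 = P at *
  generalize q.1 = Q at *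
  generalize z.1 = Z at *
  generalize z.2 = Y at *
  constructor <;> grind

theorem pb_ht_ne {n : ℕ} {V : ℕ → Pt} (hs : SimpleP n V) {s t : ℕ} (hs' : s < n) (ht : t < n)
    (hne : t ≠ s) {x : ℝ} (c1 : pb_Cr (V s) (V (s + 1)) x) (c2 : pb_Cr (V t) (V (t + 1)) x) :
    pb_ht (V t) (V (t + 1)) x ≠ pb_ht (V s) (V (s + 1)) x := by
  intro he
  have m1 := pb_ht_mem c1
  have m2 := pb_ht_mem c2
  rw [he] at m2
  have hn := pb_open_ne (hs.nv s hs') m1
  rcases pb_meet hs hs' ht hne (openSegment_subset_segment _ _ _ m2)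
    (openSegment_subset_segment _ _ _ m1) with a | a
  · exact hn.1 a.1
  · exact hn.2 a.1

theorem pb_gen {n : ℕ} {V : ℕ → Pt} (hs : SimpleP n V) {x : ℝ} (hx : ∀ k < n, x ≠ (V k).1)
    {k : ℕ} (hk : k < n) : x ≠ (V (k + 1)).1 := by
  rcases Nat.lt_or_ge (k + 1) n with h | h
  · exact hx _ h
  · have : k + 1 = n := by omega
    rw [this, hs.cl]
    exact hx 0 hs.pos

open Classical in
theorem pb_sum {n : ℕ} {V : ℕ → Pt} (hs : SimpleP n V) {lam : ℝ}
    (hl : ∀ k < n, ∀ z ∈ openSegment ℝ (V k) (V (k + 1)), pb_L n V k z = lam) {x : ℝ}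
    (hx : ∀ k < n, x ≠ (V k).1) (R : ℝ → Prop) (hR : ∀ a b, a ≤ b → R b → R a) {S : ℝ}
    (hS : S = ∑ t ∈ Finset.range n, if pb_Cr (V t) (V (t + 1)) x ∧ R (pb_ht (V t) (V (t + 1)) x)
      then pb_dir (V t) (V (t + 1)) else 0) : S = 0 ∨ S = lam ∨ S = lam - 1 := by
  rcases ((Finset.range n).filter fun t => pb_Cr (V t) (V (t + 1)) x ∧
    R (pb_ht (V t) (V (t + 1)) x)).eq_empty_or_nonempty with h | h
  · left
    rw [hS]
    refine Finset.sum_eq_zero fun t ht => if_neg fun hc => ?_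
    exact Finset.filter_eq_empty_iff.1 h ht hc
  · right
    obtain ⟨s, hs1, hs2⟩ := Finset.exists_max_image _ (fun t => pb_ht (V t) (V (t + 1)) x) h
    obtain ⟨hsn, hsc⟩ := Finset.mem_filter.1 hs1
    have hsn' := Finset.mem_range.1 hsn
    have h1 := hl s hsn' _ (pb_ht_mem hsc.1)
    unfold pb_L at h1
    rw [← Finset.sum_erase_add _ _ hsn, if_pos hsc] at hS
    have h2 : ∀ t ∈ (Finset.range n).erase s,
        (if pb_Cr (V t) (V (t + 1)) x ∧ R (pb_ht (V t) (V (t + 1)) x)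
          then pb_dir (V t) (V (t + 1)) else 0) =
        cS (V t) (V (t + 1)) (x, pb_ht (V s) (V (s + 1)) x) := by
      intro t ht
      obtain ⟨hne, ht⟩ := Finset.mem_erase.1 ht
      have ht' := Finset.mem_range.1 ht
      rw [(pb_cS (z := (x, pb_ht (V s) (V (s + 1)) x)) (hs.nv t ht') (hx t ht')
        (pb_gen hs hx ht')).1]
      refine if_congr (and_congr_right fun hc => ⟨fun hr => ?_, fun hr => hR _ _ hr.le hsc.2⟩)
        rfl rfl
      exact lt_of_le_of_ne (hs2 t (Finset.mem_filter.2 ⟨ht, hc, hr⟩))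
        (pb_ht_ne hs hsn' ht' hne hsc.1 hc)
    rw [Finset.sum_congr rfl h2] at hS
    unfold pb_dir at hS
    split_ifs at hS h1
    · left; linarith only [hS, h1]
    · right; linarith only [hS, h1]

theorem pb_lam {n : ℕ} {V : ℕ → Pt} (hs : SimpleP n V) {lam : ℝ}
    (hl : ∀ k < n, ∀ z ∈ openSegment ℝ (V k) (V (k + 1)), pb_L n V k z = lam) :
    lam = 0 ∨ lam = 1 := by
  classical
  have hlt : min (V 0).1 (V 1).1 < max (V 0).1 (V 1).1 := min_lt_max.2 (hs.nv 0 hs.pos)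
  obtain ⟨x, hx1, hx2⟩ := (Set.Ioo_infinite hlt).exists_notMem_finset
    ((Finset.range n).image fun k => (V k).1)
  have hx : ∀ k < n, x ≠ (V k).1 := fun k hk he =>
    hx2 (Finset.mem_image.2 ⟨k, Finset.mem_range.2 hk, he.symm⟩)
  have c0 : pb_Cr (V 0) (V (0 + 1)) x := by
    obtain ⟨a, b⟩ := hx1
    unfold pb_Cr
    rcases le_total (V 0).1 (V 1).1 with h | h
    · rw [min_eq_left h] at a; rw [max_eq_right h] at b; exact Or.inl ⟨a, b⟩
    · rw [min_eq_right h] at a; rw [max_eq_left h] at b; exact Or.inr ⟨a, b⟩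
  obtain ⟨s, hs1, hs2⟩ := Finset.exists_min_image
    ((Finset.range n).filter fun t => pb_Cr (V t) (V (t + 1)) x)
    (fun t => pb_ht (V t) (V (t + 1)) x) ⟨0, Finset.mem_filter.2 ⟨Finset.mem_range.2 hs.pos, c0⟩⟩
  obtain ⟨hsn, hsc⟩ := Finset.mem_filter.1 hs1
  have h1 := hl s (Finset.mem_range.1 hsn) _ (pb_ht_mem hsc)
  unfold pb_L at h1
  rw [Finset.sum_eq_zero] at h1
  · split_ifs at h1
    · right; linarith
    · left; linarith
  · intro t ht
    obtain ⟨-, ht⟩ := Finset.mem_erase.1 ht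
    have ht' := Finset.mem_range.1 ht
    rw [(pb_cS (z := (x, pb_ht (V s) (V (s + 1)) x)) (hs.nv t ht') (hx t ht')
      (pb_gen hs hx ht')).1]
    exact if_neg fun hc => absurd hc.2 (not_lt.2 (hs2 t (Finset.mem_filter.2 ⟨ht, hc.1⟩)))

/- Paper N. -/
theorem exists_ori {n : ℕ} {V : ℕ → Pt} (hs : SimpleP n V) : ∃ ν, Ori n V ν := by
  obtain ⟨lam, hl⟩ := pb_const hs
  have h01 := pb_lam hs hl
  refine ⟨2 * lam - 1, ?_, fun k hk z hz => ?_, fun z hz => ⟨?_, ?_⟩⟩
  · rcases h01 with h | h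
    · right; linarith
    · left; linarith
  · have := hl k hk z hz
    unfold pb_L at this
    linarith only [this]
  · have := pb_sum hs hl hz (fun a => a < z.2) (fun a b h h' => lt_of_le_of_lt h h')
      (S := wn n V z) (Finset.sum_congr rfl fun t ht => by
        have ht' := Finset.mem_range.1 ht
        convert (pb_cS (hs.nv t ht') (hz t ht') (pb_gen hs hz ht')).1)
    rcases h01 with h | h <;> rcases this with a | a | a
    all_goals first | (left; linarith) | (right; linarith)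
  · have := pb_sum hs hl hz (fun a => a ≤ z.2) (fun a b h h' => le_trans h h')
      (S := wnW n V z) (Finset.sum_congr rfl fun t ht => by
        have ht' := Finset.mem_range.1 ht
        convert (pb_cS (hs.nv t ht') (hz t ht') (pb_gen hs hz ht')).2)
    rcases h01 with h | h <;> rcases this with a | a | a
    all_goals first | (left; linarith) | (right; linarith)

end Pool.Agent.MP_596265_gt

end

-- part PC
section

namespace Pool.Agent.MP_596265_gt

open scoped UpperHalfPlane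
open Real

variable {g : ℕ}

section
open MeasureTheory Set

theorem pc_nn {f : ℝ → ℝ} (T : Finset ℝ) (h : ∀ x, x ∉ T → 0 ≤ f x) : 0 ≤ᵐ[volume] f := by
  have h0 : ∀ᵐ x ∂(volume : Measure ℝ), x ∉ (T : Set ℝ) := T.countable_toSet.ae_notMem _
  filter_upwards [h0] with x hx using h x hx

theorem pc_pos {f : ℝ → ℝ} (T : Finset ℝ) (hf : Integrable f) (h : ∀ x, x ∉ T → 0 ≤ f x)
    {a b : ℝ} (hab : a < b) (h2 : ∀ x ∈ Ioo a b, x ∉ T → 0 < f x) : 0 < ∫ x, f x := by
  rw [integral_pos_iff_support_of_nonneg_ae (pc_nn T h) hf]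
  have h3 : Ioo a b \ (T : Set ℝ) ⊆ Function.support f := fun x hx => (h2 x hx.1 hx.2).ne'
  refine lt_of_lt_of_le ?_ (measure_mono h3)
  rw [measure_sdiff_null (T.countable_toSet.measure_zero _)]
  simp [hab]

noncomputable def pc_h (p q : Pt) (x : ℝ) : ℝ := p.2 + (q.2 - p.2) / (q.1 - p.1) * (x - p.1)

noncomputable def pc_phi (p q : Pt) (x : ℝ) : ℝ := 1 / sqrt (pc_h p q x - x ^ 2)

noncomputable def pc_dir (p q : Pt) (x : ℝ) : ℝ :=
  (if p.1 < x ∧ x ≤ q.1 then 1 else 0) - (if q.1 < x ∧ x ≤ p.1 then 1 else 0)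

noncomputable def pc_ind (c t : ℝ) : ℝ := if 0 < t ∧ t < c then 1 else 0

theorem pc_hpos {p q : Pt} (hp : InH p) (hq : InH q) (hne : p.1 ≠ q.1) {x : ℝ}
    (hx : x ∈ uIcc p.1 q.1) : 0 < pc_h p q x - x ^ 2 := by
  have hd : q.1 - p.1 ≠ 0 := sub_ne_zero.2 hne.symm
  obtain ⟨l, hl0, hl1, rfl⟩ : ∃ l : ℝ, 0 ≤ l ∧ l ≤ 1 ∧ x = p.1 + l * (q.1 - p.1) := by
    rw [← segment_eq_uIcc] at hx
    obtain ⟨a, b, ha, hb, hab, rfl⟩ := hx
    refine ⟨b, hb, by linarith, ?_⟩
    have : a = 1 - b := by linarith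
    subst this
    simp only [smul_eq_mul]
    ring
  have e : pc_h p q (p.1 + l * (q.1 - p.1)) - (p.1 + l * (q.1 - p.1)) ^ 2 =
      (1 - l) * (p.2 - p.1 ^ 2) + l * (q.2 - q.1 ^ 2) + l * (1 - l) * (q.1 - p.1) ^ 2 := by
    unfold pc_h
    field_simp
    ring
  rw [e]
  have h1 : 0 < p.2 - p.1 ^ 2 := sub_pos.2 hp
  have h2 : 0 < q.2 - q.1 ^ 2 := sub_pos.2 hq
  have h3 : 0 ≤ l * (1 - l) * (q.1 - p.1) ^ 2 :=
    mul_nonneg (mul_nonneg hl0 (sub_nonneg.2 hl1)) (sq_nonneg _)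
  have h4 : 0 ≤ (1 - l) * (p.2 - p.1 ^ 2) := mul_nonneg (sub_nonneg.2 hl1) h1.le
  have h5 : 0 ≤ l * (q.2 - q.1 ^ 2) := mul_nonneg hl0 h2.le
  rcases hl0.eq_or_lt with h | h
  · subst h
    linarith
  · have := mul_pos h h2
    linarith

theorem pc_deriv {p q : Pt} (hp : InH p) {x : ℝ} (hx : 0 < pc_h p q x - x ^ 2) :
    HasDerivAt (fun x => 2 * arctan ((x - p.1) / (sqrt (p.2 - p.1 ^ 2) +
      sqrt (pc_h p q x - x ^ 2)))) (pc_phi p q x) x := by
  have h1 : 0 < p.2 - p.1 ^ 2 := sub_pos.2 hp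
  obtain ⟨m, hm⟩ : ∃ m, m = (q.2 - p.2) / (q.1 - p.1) := ⟨_, rfl⟩
  have d1 : HasDerivAt (fun x => pc_h p q x - x ^ 2) (m - 2 * x) x := by
    have := ((((hasDerivAt_id x).sub_const p.1).const_mul m).const_add p.2).sub
      (hasDerivAt_pow 2 x)
    unfold pc_h
    rw [← hm]
    refine HasDerivAt.congr_deriv this ?_
    simp
  have hu : 0 < sqrt (p.2 - p.1 ^ 2) := sqrt_pos.2 h1
  have hv : 0 < sqrt (pc_h p q x - x ^ 2) := sqrt_pos.2 hx
  have d2 := (d1.sqrt hx.ne').const_add (sqrt (p.2 - p.1 ^ 2))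
  have d3 := ((((hasDerivAt_id x).sub_const p.1).div d2 (by positivity)).arctan).const_mul 2
  have eu := sq_sqrt h1.le
  have ev := sq_sqrt hx.le
  refine HasDerivAt.congr_deriv d3 ?_
  unfold pc_phi
  simp only [id, Pi.div_apply]
  obtain ⟨u, hu'⟩ : ∃ u, u = sqrt (p.2 - p.1 ^ 2) := ⟨_, rfl⟩
  obtain ⟨v, hv'⟩ : ∃ v, v = sqrt (pc_h p q x - x ^ 2) := ⟨_, rfl⟩
  rw [← hu'] at hu eu
  rw [← hv'] at hv ev
  rw [← hu', ← hv']
  unfold pc_h at ev
  rw [← hm] at ev
  have huv : u + v ≠ 0 := by positivity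
  have hq : (u + v) ^ 2 + (x - p.1) ^ 2 ≠ 0 := by positivity
  field_simp
  linear_combination ev - eu

theorem pc_ftc {p q : Pt} (hp : InH p) (hq : InH q) :
    IntervalIntegrable (pc_phi p q) volume p.1 q.1 ∧
      ∫ x in p.1..q.1, pc_phi p q x = ar p q := by
  by_cases hne : p.1 = q.1
  · rw [hne]
    simp [ar, hne]
  have hi : IntervalIntegrable (pc_phi p q) volume p.1 q.1 := by
    apply ContinuousOn.intervalIntegrable
    unfold pc_phi
    refine continuousOn_const.div ?_ fun x hx => (sqrt_pos.2 (pc_hpos hp hq hne hx)).ne'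
    unfold pc_h
    fun_prop
  refine ⟨hi, ?_⟩
  rw [intervalIntegral.integral_eq_sub_of_hasDerivAt
    (fun x hx => pc_deriv hp (pc_hpos hp hq hne hx)) hi]
  have hd : q.1 - p.1 ≠ 0 := sub_ne_zero.2 (Ne.symm hne)
  have e : pc_h p q q.1 = q.2 := by
    unfold pc_h
    field_simp
    ring
  simp [ar, e]

theorem pc_int {p q : Pt} (hp : InH p) (hq : InH q) :
    Integrable (fun x => pc_dir p q x * pc_phi p q x) ∧
      ∫ x, pc_dir p q x * pc_phi p q x = ar p q := by
  obtain ⟨hi, he⟩ := pc_ftc hp hq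
  have e : (fun x => pc_dir p q x * pc_phi p q x) = fun x =>
      indicator (Ioc p.1 q.1) (pc_phi p q) x - indicator (Ioc q.1 p.1) (pc_phi p q) x := by
    funext x
    simp only [pc_dir, indicator, mem_Ioc]
    split_ifs <;> ring
  have i1 := (integrable_indicator_iff measurableSet_Ioc).2 hi.1
  have i2 := (integrable_indicator_iff measurableSet_Ioc).2 hi.2
  rw [e]
  refine ⟨i1.sub i2, ?_⟩
  rw [integral_sub i1 i2, integral_indicator measurableSet_Ioc,
    integral_indicator measurableSet_Ioc, ← he]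
  rfl

theorem pc_ind_int {c : ℝ} (hc : 0 ≤ c) : Integrable (pc_ind c) ∧ ∫ t, pc_ind c t = c := by
  have e : pc_ind c = indicator (Ioo 0 c) fun _ => (1 : ℝ) := by
    funext t
    simp only [pc_ind, indicator, mem_Ioo]
  rw [e]
  refine ⟨(integrable_indicator_iff measurableSet_Ioo).2 (integrableOn_const (by simp only [volume_Ioo, sub_zero, ne_eq, ENNReal.ofReal_ne_top, not_false_eq_true])), ?_⟩
  rw [integral_indicator measurableSet_Ioo]
  simp only [integral_const, MeasurableSet.univ, measureReal_restrict_apply, univ_inter, volume_real_Ioo, sub_zero, hc, sup_of_le_left, smul_eq_mul, mul_one]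

theorem pc_lt {D t : ℝ} (hD : 0 < D) (ht : 0 < t) : D < 1 / t ^ 2 ↔ t < 1 / sqrt D := by
  have hs := sqrt_pos.2 hD
  have e : t ^ 2 * D = (t * sqrt D) ^ 2 := by rw [mul_pow, sq_sqrt hD.le]
  rw [lt_div_iff₀ (by positivity), lt_div_iff₀ hs, mul_comm D, e, sq_lt_one_iff₀ (by positivity)]

theorem pc_cS {p q : Pt} (hp : InH p) (hq : InH q) {x t : ℝ} (h1 : x ≠ p.1) (h2 : x ≠ q.1)
    (ht : 0 < t) :
    cS p q (x, x ^ 2 + 1 / t ^ 2) = pc_dir p q x * pc_ind (pc_phi p q x) t := by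
  have key : p.1 ≠ q.1 → det3 p q (x, x ^ 2 + 1 / t ^ 2) =
      (q.1 - p.1) * (1 / t ^ 2 - (pc_h p q x - x ^ 2)) := by
    intro hne
    have hd : q.1 - p.1 ≠ 0 := sub_ne_zero.2 hne.symm
    unfold det3 pc_h
    field_simp
    ring
  rcases lt_or_gt_of_ne h1 with a | a <;> rcases lt_or_gt_of_ne h2 with b | b
  · simp only [cS, a.not_ge, one_div, false_and, ↓ reduceIte, b.not_ge, sub_self, pc_dir, a.not_gt, b.not_gt, zero_mul]
  · have hne : p.1 ≠ q.1 := (b.trans a).ne'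
    have hD := pc_hpos hp hq hne (mem_uIcc.2 (Or.inr ⟨b.le, a.le⟩))
    have hi : det3 p q (x, x ^ 2 + 1 / t ^ 2) < 0 ↔ t < pc_phi p q x := by
      rw [key hne, pc_phi, ← pc_lt hD ht, mul_neg_iff, ← sub_pos (b := pc_h p q x - x ^ 2)]
      have : q.1 - p.1 < 0 := by linarith
      simp [this, this.not_gt]
    simp only [cS, pc_dir, pc_ind, hi, a, b, a.le, b.le, a.not_ge, a.not_gt, ht, true_and,
      false_and, if_false, if_true]
    split_ifs <;> ring
  · have hne : p.1 ≠ q.1 := (a.trans b).ne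
    have hD := pc_hpos hp hq hne (mem_uIcc.2 (Or.inl ⟨a.le, b.le⟩))
    have hi : 0 < det3 p q (x, x ^ 2 + 1 / t ^ 2) ↔ t < pc_phi p q x := by
      rw [key hne, pc_phi, ← pc_lt hD ht, mul_pos_iff_of_pos_left (by linarith), sub_pos]
    simp only [cS, pc_dir, pc_ind, hi, a, b, a.le, b.le, b.not_ge, b.not_gt, ht, true_and,
      false_and, if_false, if_true]
    split_ifs <;> ring
  · simp only [cS, b.not_gt, one_div, false_and, and_false, ↓ reduceIte, a.not_gt, sub_self, pc_dir, b.not_ge, a.not_ge, zero_mul]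

theorem pc_seg {p q : Pt} {x t : ℝ} (h1 : x ≠ p.1) (ht : 0 < t)
    (h : (x, x ^ 2 + 1 / t ^ 2) ∈ segment ℝ p q) : t = pc_phi p q x := by
  obtain ⟨a, b, ha, hb, hab, e⟩ := h
  have e1 : a * p.1 + b * q.1 = x := by simpa using congrArg Prod.fst e
  have e2 : a * p.2 + b * q.2 = x ^ 2 + 1 / t ^ 2 := by simpa only [one_div, Prod.snd_add, Prod.smul_snd, smul_eq_mul] using congrArg Prod.snd e
  have ha' : a = 1 - b := by linarith only [hab]
  subst ha'
  have hd : q.1 - p.1 ≠ 0 := by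
    intro h0
    apply h1
    linear_combination -e1 + b * h0
  have e3 : pc_h p q x - x ^ 2 = (1 / t) ^ 2 := by
    have e4 : x - p.1 = b * (q.1 - p.1) := by linear_combination -e1
    have e5 : (q.2 - p.2) / (q.1 - p.1) * (b * (q.1 - p.1)) = b * (q.2 - p.2) := by field_simp
    unfold pc_h
    rw [e4, e5, div_pow, one_pow]
    linear_combination e2
  rw [pc_phi, e3, sqrt_sq (by positivity), one_div_one_div]

theorem pc_phi_nn (p q : Pt) (x : ℝ) : 0 ≤ pc_phi p q x := by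
  unfold pc_phi
  positivity

theorem pc_fib {ι : Type} (s : Finset ι) (p q : ι → Pt) (wt : ι → ℝ)
    (hp : ∀ k ∈ s, InH (p k) ∧ InH (q k))
    (h : ∀ z : Pt, InH z → (∀ k ∈ s, z.1 ≠ (p k).1 ∧ z.1 ≠ (q k).1) →
      (∀ k ∈ s, z ∉ segment ℝ (p k) (q k)) → 0 ≤ ∑ k ∈ s, wt k * cS (p k) (q k) z)
    {x : ℝ} (hx : ∀ k ∈ s, x ≠ (p k).1 ∧ x ≠ (q k).1) :
    0 ≤ ∑ k ∈ s, wt k * (pc_dir (p k) (q k) x * pc_phi (p k) (q k) x) ∧
      ∀ z : Pt, z.1 = x → InH z → 0 < ∑ k ∈ s, wt k * cS (p k) (q k) z →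
        0 < ∑ k ∈ s, wt k * (pc_dir (p k) (q k) x * pc_phi (p k) (q k) x) := by
  classical
  obtain ⟨F, hF⟩ : ∃ F : ℝ → ℝ, F = fun t =>
    ∑ k ∈ s, wt k * (pc_dir (p k) (q k) x * pc_ind (pc_phi (p k) (q k) x) t) := ⟨_, rfl⟩
  have hi : ∀ k ∈ s, Integrable fun t =>
      wt k * (pc_dir (p k) (q k) x * pc_ind (pc_phi (p k) (q k) x) t) := fun k _ =>
    ((pc_ind_int (pc_phi_nn _ _ _)).1.const_mul _).const_mul _
  have hI : Integrable F := hF ▸ integrable_finsetSum s hi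
  have e : ∑ k ∈ s, wt k * (pc_dir (p k) (q k) x * pc_phi (p k) (q k) x) = ∫ t, F t := by
    rw [hF, integral_finsetSum s hi]
    refine Finset.sum_congr rfl fun k _ => ?_
    rw [integral_const_mul, integral_const_mul, (pc_ind_int (pc_phi_nn _ _ _)).2]
  have ev : ∀ t, 0 < t → F t = ∑ k ∈ s, wt k * cS (p k) (q k) (x, x ^ 2 + 1 / t ^ 2) := by
    intro t ht
    rw [hF]
    refine Finset.sum_congr rfl fun k hk => ?_
    rw [pc_cS (hp k hk).1 (hp k hk).2 (hx k hk).1 (hx k hk).2 ht]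
  have nn : ∀ t, t ∉ s.image (fun k => pc_phi (p k) (q k) x) → 0 ≤ F t := by
    intro t ht
    rcases lt_or_ge 0 t with h0 | h0
    · rw [ev t h0]
      refine h _ ?_ hx fun k hk hs => ht ?_
      · show x ^ 2 < x ^ 2 + 1 / t ^ 2
        have : 0 < 1 / t ^ 2 := by positivity
        linarith
      · exact Finset.mem_image.2 ⟨k, hk, (pc_seg (hx k hk).1 h0 hs).symm⟩
    · simp [hF, pc_ind, h0.not_gt]
  rw [e]
  refine ⟨integral_nonneg_of_ae (pc_nn _ nn), fun z hz hH hpos => ?_⟩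
  have hD : 0 < z.2 - x ^ 2 := by
    rw [← hz]
    exact sub_pos.2 hH
  obtain ⟨t0, ht0⟩ : ∃ t0, t0 = 1 / sqrt (z.2 - x ^ 2) := ⟨_, rfl⟩
  have hs := sqrt_pos.2 hD
  have h0 : 0 < t0 := by rw [ht0]; positivity
  have ez : z = (x, x ^ 2 + 1 / t0 ^ 2) := by
    refine Prod.ext hz ?_
    rw [ht0, div_pow, one_pow, one_div_one_div, sq_sqrt hD.le]
    ring
  have hF0 : 0 < F t0 := by
    rw [ev t0 h0, ← ez]
    exact hpos
  have hev : ∀ᶠ t in nhdsWithin t0 (Ioi t0), ∀ k ∈ s,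
      pc_ind (pc_phi (p k) (q k) x) t = pc_ind (pc_phi (p k) (q k) x) t0 := by
    rw [Filter.eventually_all_finset]
    intro k _
    rcases lt_or_ge t0 (pc_phi (p k) (q k) x) with a | a
    · filter_upwards [Ioo_mem_nhdsGT a] with t ht
      simp [pc_ind, a, h0, ht.2, h0.trans ht.1]
    · filter_upwards [self_mem_nhdsWithin] with t ht
      have : ¬ t < pc_phi (p k) (q k) x := (a.trans (le_of_lt ht)).not_gt
      simp [pc_ind, a.not_gt, this]
  obtain ⟨u, hu, hsub⟩ := mem_nhdsGT_iff_exists_Ioo_subset.1 hev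
  refine pc_pos _ hI nn hu fun t ht _ => ?_
  have : F t = F t0 := by
    rw [hF]
    exact Finset.sum_congr rfl fun k hk => by rw [hsub ht k hk]
  rwa [this]

theorem pc_out {ι : Type} (s : Finset ι) (p q : ι → Pt) (wt : ι → ℝ)
    (hp : ∀ k ∈ s, InH (p k) ∧ InH (q k)) :
    Integrable (fun x => ∑ k ∈ s, wt k * (pc_dir (p k) (q k) x * pc_phi (p k) (q k) x)) ∧
      ∑ k ∈ s, wt k * ar (p k) (q k) =
        ∫ x, ∑ k ∈ s, wt k * (pc_dir (p k) (q k) x * pc_phi (p k) (q k) x) := by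
  have hi : ∀ k ∈ s, Integrable fun x =>
      wt k * (pc_dir (p k) (q k) x * pc_phi (p k) (q k) x) := fun k hk =>
    (pc_int (hp k hk).1 (hp k hk).2).1.const_mul _
  refine ⟨integrable_finsetSum s hi, ?_⟩
  rw [integral_finsetSum s hi]
  refine Finset.sum_congr rfl fun k hk => ?_
  rw [integral_const_mul, (pc_int (hp k hk).1 (hp k hk).2).2]

theorem pc_gen {ι : Type} (s : Finset ι) (p q : ι → Pt) {x : ℝ}
    (hx : x ∉ s.image (fun k => (p k).1) ∪ s.image fun k => (q k).1) :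
    ∀ k ∈ s, x ≠ (p k).1 ∧ x ≠ (q k).1 := fun k hk =>
  ⟨fun e => hx (Finset.mem_union_left _ (Finset.mem_image.2 ⟨k, hk, e.symm⟩)),
    fun e => hx (Finset.mem_union_right _ (Finset.mem_image.2 ⟨k, hk, e.symm⟩))⟩

end

/- Paper A. -/
theorem area_nonneg {ι : Type} (s : Finset ι) (p q : ι → Pt) (wt : ι → ℝ)
    (hp : ∀ k ∈ s, InH (p k) ∧ InH (q k))
    (h : ∀ z : Pt, InH z → (∀ k ∈ s, z.1 ≠ (p k).1 ∧ z.1 ≠ (q k).1) →
      (∀ k ∈ s, z ∉ segment ℝ (p k) (q k)) → 0 ≤ ∑ k ∈ s, wt k * cS (p k) (q k) z) :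
    0 ≤ ∑ k ∈ s, wt k * ar (p k) (q k) := by
  rw [(pc_out s p q wt hp).2]
  exact MeasureTheory.integral_nonneg_of_ae
    (pc_nn _ fun x hx => (pc_fib s p q wt hp h (pc_gen s p q hx)).1)
theorem area_pos {ι : Type} (s : Finset ι) (p q : ι → Pt) (wt : ι → ℝ)
    (hp : ∀ k ∈ s, InH (p k) ∧ InH (q k))
    (h : ∀ z : Pt, InH z → (∀ k ∈ s, z.1 ≠ (p k).1 ∧ z.1 ≠ (q k).1) →
      (∀ k ∈ s, z ∉ segment ℝ (p k) (q k)) → 0 ≤ ∑ k ∈ s, wt k * cS (p k) (q k) z)
    {a b : ℝ} (hab : a < b)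
    (h2 : ∀ x ∈ Set.Ioo a b, (∀ k ∈ s, x ≠ (p k).1 ∧ x ≠ (q k).1) → ∃ z : Pt, z.1 = x ∧ InH z ∧
      (∀ k ∈ s, z ∉ segment ℝ (p k) (q k)) ∧ 0 < ∑ k ∈ s, wt k * cS (p k) (q k) z) :
    0 < ∑ k ∈ s, wt k * ar (p k) (q k) := by
  rw [(pc_out s p q wt hp).2]
  refine pc_pos _ (pc_out s p q wt hp).1
    (fun x hx => (pc_fib s p q wt hp h (pc_gen s p q hx)).1) hab fun x hx hT => ?_
  obtain ⟨z, hz, hH, -, hpos⟩ := h2 x hx (pc_gen s p q hT)
  exact (pc_fib s p q wt hp h (pc_gen s p q hT)).2 z hz hH hpos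

end Pool.Agent.MP_596265_gt

end

-- part PD
section

namespace Pool.Agent.MP_596265_gt

open scoped UpperHalfPlane
open Real

variable {g : ℕ}

theorem pd_ball {ι : Type} (s : Finset ι) (p q : ι → Pt) (o : Pt)
    (h : ∀ k ∈ s, o ∉ segment ℝ (p k) (q k)) : ∃ ε > 0, ∀ z, dist z o < ε →
      ∀ k ∈ s, Disjoint (segment ℝ (p k) (q k)) (segment ℝ o z) := by
  have hU : IsOpen (⋂ k ∈ s, (segment ℝ (p k) (q k))ᶜ) := isOpen_biInter_finset fun k _ => by
    rw [segment_eq_image]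
    exact (isCompact_Icc.image (by fun_prop)).isClosed.isOpen_compl
  obtain ⟨ε, hε, hb⟩ := Metric.isOpen_iff.1 hU o (by simpa only [Set.mem_iInter, Set.mem_compl_iff] using h)
  refine ⟨ε, hε, fun z hz k hk => Set.disjoint_right.2 fun u hu => ?_⟩
  exact Set.mem_iInter₂.1 (hb ((convex_ball o ε).segment_subset (Metric.mem_ball_self hε) hz hu))
    k hk

theorem pd_off {n : ℕ} {V : ℕ → Pt} (hs : SimpleP n V) {z : Pt}
    (hz : z ∈ openSegment ℝ (V 0) (V (0 + 1))) {t : ℕ} (ht : t < n) (h0 : t ≠ 0) :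
    z ∉ segment ℝ (V t) (V (t + 1)) := fun h => by
  have hne : V 0 ≠ V (0 + 1) := fun e => hs.nv 0 hs.pos (by rw [← e])
  rcases hs.meet 0 t (Nat.pos_of_ne_zero h0) ht z (openSegment_subset_segment _ _ _ hz) h with
    ⟨e, e'⟩ | ⟨_, _, e'⟩
  · rw [e', e] at hz
    exact hne (right_mem_openSegment_iff.1 hz)
  · rw [e'] at hz
    exact hne (left_mem_openSegment_iff.1 hz)

theorem pd_sgn {ν x : ℝ} (hν : ν = 1 ∨ ν = -1) (h : x = 0 ∨ x = ν) : 0 ≤ ν * x := by
  rcases hν with e | e <;> rcases h with e' | e' <;> simp [e, e']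

theorem pd_det {p q u : Pt} (h : u ∈ segment ℝ p q) : det3 p q u = 0 := by
  obtain ⟨a, b, -, -, hab, rfl⟩ := h
  obtain rfl : a = 1 - b := by linarith
  simp only [det3, Prod.fst_add, Prod.snd_add, Prod.smul_fst, Prod.smul_snd, smul_eq_mul]
  ring

theorem pd_inH {p q u : Pt} (hp : InH p) (hq : InH q) (h : u ∈ segment ℝ p q) : InH u := by
  obtain ⟨a, b, ha, hb, hab, rfl⟩ := h
  obtain rfl : a = 1 - b := by linarith
  simp only [InH, Prod.fst_add, Prod.snd_add, Prod.smul_fst, Prod.smul_snd, smul_eq_mul] at *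
  have h1 : 0 ≤ (1 - b) * b * (p.1 - q.1) ^ 2 := by positivity
  rcases hb.eq_or_lt with rfl | hb'
  · simpa using hp
  · linarith only [mul_pos hb' (sub_pos.2 hq), mul_nonneg ha (sub_pos.2 hp).le, h1]

theorem ori_area_pos {n : ℕ} {V : ℕ → Pt} {ν : ℝ} (hs : SimpleP n V) (hV : ∀ k, InH (V k))
    (hν : Ori n V ν) : 0 < ν * parea n V := by
  have hnv := hs.nv 0 hs.pos
  have hν2 : ν * ν = 1 := by rcases hν.sgn with e | e <;> simp [e]
  rw [parea, Finset.mul_sum]
  refine area_pos (Finset.range n) V (fun k => V (k + 1)) (fun _ => ν)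
    (fun k _ => ⟨hV _, hV _⟩) (fun z _ hz _ => ?_) (a := min (V 0).1 (V (0 + 1)).1)
    (b := max (V 0).1 (V (0 + 1)).1) (min_lt_max.2 hnv) fun x hx _ => ?_
  · rw [← Finset.mul_sum]
    exact pd_sgn hν.sgn (hν.val z fun k hk => (hz k (Finset.mem_range.2 hk)).1).1
  · obtain ⟨m, hm, rfl⟩ : ∃ m ∈ openSegment ℝ (V 0) (V (0 + 1)), m.1 = x := by
      rw [← openSegment_eq_Ioo' hnv] at hx
      obtain ⟨a, b, ha, hb, hab, rfl⟩ := hx
      exact ⟨_, ⟨a, b, ha, hb, hab, rfl⟩, rfl⟩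
    have hm' := openSegment_subset_segment _ _ _ hm
    obtain ⟨ε, hε, hb⟩ := pd_ball ((Finset.range n).erase 0) V (fun k => V (k + 1)) m
      fun k hk => pd_off hs hm (Finset.mem_range.1 (Finset.mem_of_mem_erase hk))
        (Finset.ne_of_mem_erase hk)
    have hH : 0 < m.2 - m.1 ^ 2 := sub_pos.2 (pd_inH (hV _) (hV _) hm')
    obtain ⟨s, hs1, hs2⟩ : ∃ s : ℝ, |s| < min ε (m.2 - m.1 ^ 2) ∧
        0 < ν * (((V (0 + 1)).1 - (V 0).1) * s) := by
      have hp : 0 < min ε (m.2 - m.1 ^ 2) := lt_min hε hH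
      generalize min ε (m.2 - m.1 ^ 2) = δ at hp
      have h1 : |δ / 2| < δ := by rw [abs_of_pos (by linarith)]; linarith only [hp]
      have h2 : ν * ((V (0 + 1)).1 - (V 0).1) ≠ 0 :=
        mul_ne_zero (fun e => by simp [e] at hν2) (sub_ne_zero.2 hnv.symm)
      rcases h2.lt_or_gt with h | h
      · exact ⟨-(δ / 2), by rwa [abs_neg], by linarith only [mul_pos (neg_pos.2 h) hp]⟩
      · exact ⟨δ / 2, h1, by linarith only [mul_pos h hp]⟩
    have hd : det3 (V 0) (V (0 + 1)) (m.1, m.2 + s) = ((V (0 + 1)).1 - (V 0).1) * s := by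
      have := pd_det hm'
      simp only [det3] at this ⊢
      linear_combination this
    have hb' := hb (m.1, m.2 + s) (by
      rw [Prod.dist_eq, Real.dist_eq, Real.dist_eq]
      simpa only [sub_self, abs_zero, add_sub_cancel_left, abs_nonneg, sup_of_le_right] using hs1.trans_le (min_le_left _ _))
    refine ⟨(m.1, m.2 + s), rfl, ?_, fun k hk h => ?_, ?_⟩
    · have := neg_lt_of_abs_lt (hs1.trans_le (min_le_right _ _))
      simp only [InH]
      linarith
    · by_cases e : k = 0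
      · subst e
        rw [← hd, pd_det h] at hs2
        simp at hs2
      · exact Set.disjoint_left.1 (hb' k (Finset.mem_erase.2 ⟨e, hk⟩)) h (right_mem_segment _ _ _)
    · have := wn_side hs hν hs.pos hm (z := (m.1, m.2 + s)) (by rwa [hd])
        fun t ht e => hb' t (Finset.mem_erase.2 ⟨e, Finset.mem_range.2 ht⟩)
      rw [← Finset.mul_sum]
      rw [wn] at this
      rw [this, hν2]
      exact one_pos

theorem pd_rad {m r : ℕ} (P : ℕ → ℕ → Pt) (o : Pt) (ho : ∀ c < m, P c 0 = o)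
    (hl : ∀ c < m, P c (r + 2) = o)
    (hc : ∀ φ : Pt → ℝ, ∑ c ∈ Finset.range m, φ (P c 1) = ∑ c ∈ Finset.range m, φ (P c (r + 1)))
    (F : Pt → Pt → ℝ) (hF : ∀ p q, F q p = -F p q) :
    ∑ c ∈ Finset.range m, ∑ k ∈ Finset.range (r + 2), F (P c k) (P c (k + 1)) =
      ∑ x ∈ Finset.range m ×ˢ Finset.range r, F (P x.1 (x.2 + 1)) (P x.1 (x.2 + 1 + 1)) := by
  have : ∀ c ∈ Finset.range m, ∑ k ∈ Finset.range (r + 2), F (P c k) (P c (k + 1)) =
      ∑ k ∈ Finset.range r, F (P c (k + 1)) (P c (k + 1 + 1)) +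
        (F o (P c 1) - F o (P c (r + 1))) := fun c h => by
    rw [Finset.sum_range_succ, Finset.sum_range_succ', ho c (Finset.mem_range.1 h),
      hl c (Finset.mem_range.1 h), hF o (P c (r + 1))]
    ring
  rw [Finset.sum_congr rfl this, Finset.sum_add_distrib, Finset.sum_sub_distrib, hc (F o),
    sub_self, add_zero, Finset.sum_product]

/- Paper PET. -/
theorem petal {m n : ℕ} (P : ℕ → ℕ → Pt) (o : Pt) (ν : ℝ) (hm : 0 < m)
    (hs : ∀ c < m, SimpleP n (P c)) (ho : ∀ c < m, P c 0 = o) (hν : ∀ c < m, Ori n (P c) ν)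
    (hc : ∀ φ : Pt → ℝ, ∑ c ∈ Finset.range m, φ (P c 1) = ∑ c ∈ Finset.range m, φ (P c (n - 1)))
    (z : Pt) (hz : ∀ c < m, ∀ k, 0 < k → k + 1 < n →
      Disjoint (segment ℝ (P c k) (P c (k + 1))) (segment ℝ o z)) :
    ∃ c < m, wn n (P c) z ≠ 0 := by
  classical
  have s0 := hs 0 hm
  have hnv := s0.nv 0 s0.pos
  obtain ⟨r, rfl⟩ : ∃ r, n = r + 2 := by
    rcases n with _ | _ | r
    · exact absurd s0.pos (lt_irrefl 0)
    · exact absurd (congrArg Prod.fst s0.cl).symm hnv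
    · exact ⟨r, rfl⟩
  have hl : ∀ c < m, P c (r + 2) = o := fun c h => (hs c h).cl.trans (ho c h)
  have hS := fun u => pd_rad P o ho hl hc (fun p q => cS p q u) fun p q => cS_anti p q u
  have hW := fun u => pd_rad P o ho hl hc (fun p q => cW p q u) fun p q => cW_anti p q u
  have hcl : ClosedC (Finset.range m ×ˢ Finset.range r) (fun x => P x.1 (x.2 + 1))
      fun x => P x.1 (x.2 + 1 + 1) := fun φ => by
    have h := pd_rad P o ho hl hc (fun p q => φ q - φ p) fun p q => by ring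
    rw [Finset.sum_sub_distrib, Finset.sum_eq_zero fun c hc => by
      rw [Finset.sum_range_sub fun k => φ (P c k), ho c (Finset.mem_range.1 hc),
        hl c (Finset.mem_range.1 hc), sub_self]] at h
    linarith only [h]
  have hz' : ∀ x ∈ Finset.range m ×ˢ Finset.range r,
      Disjoint (segment ℝ (P x.1 (x.2 + 1)) (P x.1 (x.2 + 1 + 1))) (segment ℝ o z) :=
    fun x hx => by
      rw [Finset.mem_product, Finset.mem_range, Finset.mem_range] at hx
      exact hz _ hx.1 _ (Nat.succ_pos _) (by omega)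
  obtain ⟨ε, hε, hb⟩ := pd_ball (Finset.range m ×ˢ Finset.range r) (fun x => P x.1 (x.2 + 1))
    (fun x => P x.1 (x.2 + 1 + 1)) o
    fun x hx h => Set.disjoint_left.1 (hz' x hx) h (left_mem_segment _ _ _)
  set v := P 0 (0 + 1) with hv
  rw [ho 0 hm] at hnv
  have hδ : 0 < min 1 (ε / (dist v o + 1)) := lt_min one_pos (by positivity)
  obtain ⟨t, ⟨t0, t1⟩, ht⟩ := (Set.Ioo_infinite hδ).exists_notMem_finset
    ((Finset.range m ×ˢ Finset.range (r + 2)).image fun x => ((P x.1 x.2).1 - o.1) / (v.1 - o.1))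
  set y := AffineMap.lineMap o v t with hy
  have hyo : y ∈ openSegment ℝ (P 0 0) v := by
    rw [ho 0 hm, openSegment_eq_image_lineMap]
    exact ⟨t, ⟨t0, t1.trans_le (min_le_left _ _)⟩, rfl⟩
  have hyb := hb y (by
    have h1 := (lt_div_iff₀ (by positivity)).1 (t1.trans_le (min_le_right _ _))
    rw [hy, dist_lineMap_left, Real.norm_eq_abs, abs_of_pos t0, dist_comm]
    linarith only [t0, h1])
  have hgen : ∀ c < m, ∀ k < r + 2, y.1 ≠ (P c k).1 := fun c h k hk e => ht (by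
    refine Finset.mem_image.2 ⟨(c, k), by simp [h, hk], ?_⟩
    rw [div_eq_iff (sub_ne_zero.2 hnv.symm), ← e, hy, AffineMap.lineMap_apply]
    simp)
  have e1 : ∑ c ∈ Finset.range m, wnW (r + 2) (P c) y = ∑ c ∈ Finset.range m, wn (r + 2) (P c) y :=
    (hW y).trans ((Finset.sum_congr rfl fun x hx => cW_eq_cS fun h =>
      Set.disjoint_left.1 (hyb x hx) h (right_mem_segment _ _ _)).trans (hS y).symm)
  have e2 : ∑ c ∈ Finset.range m, wn (r + 2) (P c) y = ∑ c ∈ Finset.range m, wn (r + 2) (P c) z :=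
    (hS y).trans (((chain_transport hcl hyb).symm.trans (chain_transport hcl hz')).trans
      (hS z).symm)
  have e3 : wnW (r + 2) (P 0) y ≠ wn (r + 2) (P 0) y := by
    have h0 := cS_cW_on hyo (s0.nv 0 s0.pos)
    rw [wnW, wn, Finset.sum_range_succ', Finset.sum_range_succ' (fun k => cS _ _ y), h0.1, h0.2,
      Finset.sum_congr rfl fun k hk => cW_eq_cS
        (pd_off s0 hyo (Nat.succ_lt_succ (Finset.mem_range.1 hk)) (Nat.succ_ne_zero k))]
    split_ifs <;> simp
  by_contra hn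
  have e4 : ∑ c ∈ Finset.range m, wn (r + 2) (P c) z = 0 := Finset.sum_eq_zero fun c h => by
    by_contra e
    exact hn ⟨c, Finset.mem_range.1 h, e⟩
  have key : ∀ f : ℕ → ℝ, (∀ c < m, f c = 0 ∨ f c = ν) → ∑ c ∈ Finset.range m, f c = 0 →
      f 0 = 0 := fun f h1 h2 => by
    have h3 : ∑ c ∈ Finset.range m, ν * f c = 0 := by rw [← Finset.mul_sum, h2, mul_zero]
    have h4 := (Finset.sum_eq_zero_iff_of_nonneg fun c h =>
      pd_sgn (hν 0 hm).sgn (h1 c (Finset.mem_range.1 h))).1 h3 0 (Finset.mem_range.2 hm)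
    rcases (hν 0 hm).sgn with e | e <;> simpa [e] using h4
  exact e3 ((key _ (fun c h => ((hν c h).val y (hgen c h)).2) (e1.trans (e2.trans e4))).trans
    (key _ (fun c h => ((hν c h).val y (hgen c h)).1) (e2.trans e4)).symm)

end Pool.Agent.MP_596265_gt

end

-- part PE
section

namespace Pool.Agent.MP_596265_gt

open scoped UpperHalfPlane
open Real

variable {g : ℕ}

theorem pe_open {p q z : Pt} (h : z ∈ openSegment ℝ p q) :
    ∃ s : ℝ, 0 < s ∧ s < 1 ∧ z.1 = p.1 + s * (q.1 - p.1) ∧ z.2 = p.2 + s * (q.2 - p.2) := by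
  obtain ⟨a, b, ha, hb, hab, rfl⟩ := h
  have : a = 1 - b := by linarith
  subst this
  refine ⟨b, hb, by linarith, ?_, ?_⟩ <;> simp only [Prod.fst_add, Prod.smul_fst, smul_eq_mul, Prod.snd_add, Prod.smul_snd] <;> ring

theorem pe_mem_open {p q z : Pt} {s : ℝ} (h0 : 0 < s) (h1 : s < 1)
    (hx : z.1 = p.1 + s * (q.1 - p.1)) (hy : z.2 = p.2 + s * (q.2 - p.2)) :
    z ∈ openSegment ℝ p q := by
  refine ⟨1 - s, s, by linarith, h0, by ring, ?_⟩
  ext
  · simp only [Prod.fst_add, Prod.smul_fst, smul_eq_mul, hx]; ring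
  · simp only [Prod.snd_add, Prod.smul_snd, smul_eq_mul, hy]; ring

theorem pe_hull {ν : ℝ} {a b c z : Pt} (h : Tri ν a b c z) :
    ∃ u ∈ openSegment ℝ a b, z ∈ openSegment ℝ u c ∧
      ∀ y ∈ segment ℝ u z, y = u ∨ Tri ν a b c y := by
  obtain ⟨h1, h2, h3⟩ := h
  have e1 : ν * det3 b c z * (a.1 - z.1) + ν * det3 c a z * (b.1 - z.1) +
      ν * det3 a b z * (c.1 - z.1) = 0 := by unfold det3; ring
  have e2 : ν * det3 b c z * (a.2 - z.2) + ν * det3 c a z * (b.2 - z.2) +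
      ν * det3 a b z * (c.2 - z.2) = 0 := by unfold det3; ring
  have e3 : ν * det3 a b c = ν * det3 b c z + ν * det3 c a z + ν * det3 a b z := by
    unfold det3; ring
  obtain ⟨s, hs⟩ : ∃ s, s = ν * det3 c a z / (ν * det3 b c z + ν * det3 c a z) := ⟨_, rfl⟩
  have s0 : 0 < s := by rw [hs]; positivity
  have s1 : s < 1 := by rw [hs, div_lt_one (by positivity)]; linarith only [h2]
  refine ⟨(a.1 + s * (b.1 - a.1), a.2 + s * (b.2 - a.2)), pe_mem_open s0 s1 rfl rfl, ?_, ?_⟩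
  · generalize ν * det3 a b z = C at *
    generalize ν * det3 b c z = A at *
    generalize ν * det3 c a z = B at *
    have hAB : 0 < A + B := by linarith only [h2, h3]
    have hS : 0 < A + B + C := by linarith only [h1, h2, h3]
    refine pe_mem_open (s := C / (A + B + C)) (by positivity)
      (by rw [div_lt_one hS]; linarith only [h2, h3]) ?_ ?_
    · simp only [hs]
      field_simp
      linear_combination (-(A + B)) * e1
    · simp only [hs]
      field_simp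
      linear_combination (-(A + B)) * e2
  · rintro y ⟨α, β, hα, hβ, hαβ, rfl⟩
    rcases hβ.eq_or_lt with hb | hb
    · left
      have : α = 1 := by linarith only [hβ, hαβ, hb]
      rw [← hb, this, one_smul, zero_smul, add_zero]
    · right
      have hD : 0 < ν * det3 a b c := by linarith only [h1, h2, h3, e3]
      have f1 : det3 a b (a.1 + s * (b.1 - a.1), a.2 + s * (b.2 - a.2)) = 0 := by
        unfold det3; ring
      have f2 : det3 b c (a.1 + s * (b.1 - a.1), a.2 + s * (b.2 - a.2)) =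
          (1 - s) * det3 a b c := by unfold det3; ring
      have f3 : det3 c a (a.1 + s * (b.1 - a.1), a.2 + s * (b.2 - a.2)) = s * det3 a b c := by
        unfold det3; ring
      have g2 := mul_nonneg hα (mul_pos (sub_pos.2 s1) hD).le
      have g3 := mul_nonneg hα (mul_pos s0 hD).le
      refine ⟨?_, ?_, ?_⟩
      · rw [pa_det_comb _ _ _ _ hαβ, f1]
        have := mul_pos hb h1
        linarith only [this]
      · rw [pa_det_comb _ _ _ _ hαβ, f2]
        have := mul_pos hb h2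
        linarith only [g2, this]
      · rw [pa_det_comb _ _ _ _ hαβ, f3]
        have := mul_pos hb h3
        linarith only [g3, this]

theorem Tri.hull {ν : ℝ} {a b c z : Pt} (h : Tri ν a b c z) :
    ∃ u ∈ segment ℝ a b, z ∈ segment ℝ u c := by
  obtain ⟨u, h1, h2, -⟩ := pe_hull h
  exact ⟨u, openSegment_subset_segment _ _ _ h1, openSegment_subset_segment _ _ _ h2⟩

theorem pe_seg {a b c z : Pt} (h0 : det3 b c z = 0) (h : 0 < det3 c a z * det3 a b z) :
    z ∈ segment ℝ b c := by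
  have e1 : det3 b c z * (a.1 - z.1) + det3 c a z * (b.1 - z.1) +
      det3 a b z * (c.1 - z.1) = 0 := by unfold det3; ring
  have e2 : det3 b c z * (a.2 - z.2) + det3 c a z * (b.2 - z.2) +
      det3 a b z * (c.2 - z.2) = 0 := by unfold det3; ring
  rw [h0] at e1 e2
  generalize det3 a b z = C at *
  generalize det3 c a z = B at *
  have hB : B ≠ 0 := by rintro rfl; simp at h
  have hC : C ≠ 0 := by rintro rfl; simp at h
  have h1 : 0 < B * B := mul_self_pos.2 hB
  have h2 : 0 < C * C := mul_self_pos.2 hC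
  have hS : B * C + C * C ≠ 0 := by positivity
  refine openSegment_subset_segment _ _ _ (pe_mem_open (s := C * C / (B * C + C * C))
    (by positivity) (by rw [div_lt_one (by positivity)]; linarith) ?_ ?_)
  · rw [div_mul_eq_mul_div, ← sub_eq_iff_eq_add', eq_div_iff hS]
    linear_combination (-C) * e1
  · rw [div_mul_eq_mul_div, ← sub_eq_iff_eq_add', eq_div_iff hS]
    linear_combination (-C) * e2

theorem pe_sg {A B C D1 D2 D3 : ℝ} (rel : D2 * A + D3 * B + D1 * C = 0)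
    (m : D2 = 0 → ¬ 0 < D3 * D1) (h : (A ≤ 0 ∧ 0 < B ∧ 0 < C) ∨ (0 < A ∧ B ≤ 0 ∧ C ≤ 0)) :
    (0 < D1 → 0 < D3 → 0 < D2) ∧ (D1 < 0 → D3 < 0 → D2 < 0) := by
  constructor
  · intro h1 h3
    by_contra h2
    have h2 : D2 < 0 := lt_of_le_of_ne (not_lt.1 h2) fun e => m e (mul_pos h3 h1)
    rcases h with ⟨a, b, c⟩ | ⟨a, b, c⟩
    · have := mul_pos h3 b
      have := mul_pos h1 c
      have := mul_nonneg_of_nonpos_of_nonpos h2.le a
      linarith
    · have := mul_nonpos_of_nonneg_of_nonpos h3.le b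
      have := mul_nonpos_of_nonneg_of_nonpos h1.le c
      have := mul_neg_of_neg_of_pos h2 a
      linarith
  · intro h1 h3
    by_contra h2
    have h2 : 0 < D2 :=
      lt_of_le_of_ne (not_lt.1 h2) fun e => m e.symm (mul_pos_of_neg_of_neg h3 h1)
    rcases h with ⟨a, b, c⟩ | ⟨a, b, c⟩
    · have := mul_neg_of_neg_of_pos h3 b
      have := mul_neg_of_neg_of_pos h1 c
      have := mul_nonpos_of_nonneg_of_nonpos h2.le a
      linarith
    · have := mul_nonneg_of_nonpos_of_nonpos h3.le b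
      have := mul_nonneg_of_nonpos_of_nonpos h1.le c
      have := mul_pos h2 a
      linarith

theorem pe_cross {p q z : Pt} (h : z ∉ segment ℝ p q)
    (hc : (p.1 ≤ z.1 ∧ z.1 < q.1) ∨ (q.1 ≤ z.1 ∧ z.1 < p.1)) : det3 p q z ≠ 0 := by
  intro e
  rcases hc with ⟨a, b⟩ | ⟨a, b⟩
  · exact h (pa_mem (a.trans_lt b) a b.le e)
  · rw [segment_symm] at h
    exact h (pa_mem (a.trans_lt b) a b.le (by rw [pa_det_anti, e, neg_zero]))

theorem pe_one {ν D1 D2 D3 : ℝ} (hν : ν = 1 ∨ ν = -1) (hc : 0 < ν * (D2 + D3 + D1))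
    (n1 : D1 ≠ 0) (n3 : D3 ≠ 0) (k : (0 < D1 → 0 < D3 → 0 < D2) ∧ (D1 < 0 → D3 < 0 → D2 < 0))
    {S : ℝ} (hS : S = (if 0 < D1 then 1 else 0) - (if D3 < 0 then 1 else 0) ∨
      S = (if 0 < D3 then 1 else 0) - (if D1 < 0 then 1 else 0)) :
    S = 0 ∨ (S = ν ∧ 0 < ν * D1 ∧ 0 < ν * D2 ∧ 0 < ν * D3) := by
  rcases lt_or_gt_of_ne n1 with a | a <;> rcases lt_or_gt_of_ne n3 with b | b
  · have c := k.2 a b
    rcases hν with rfl | rfl
    · linarith
    · refine Or.inr ⟨?_, by linarith, by linarith, by linarith⟩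
      simpa [a, b, a.not_gt, b.not_gt] using hS
  · left; simpa [a, b, a.not_gt, b.not_gt] using hS
  · left; simpa [a, b, a.not_gt, b.not_gt] using hS
  · have c := k.1 a b
    rcases hν with rfl | rfl
    · refine Or.inr ⟨?_, by linarith, by linarith, by linarith⟩
      simpa [a, b, a.not_gt, b.not_gt] using hS
    · linarith

theorem tri_wn {ν : ℝ} (hν : ν = 1 ∨ ν = -1) {a b c z : Pt} (hc : 0 < ν * det3 a b c)
    (h1 : z ∉ segment ℝ a b) (h2 : z ∉ segment ℝ b c) (h3 : z ∉ segment ℝ c a) :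
    cS a b z + cS b c z + cS c a z = 0 ∨
      (cS a b z + cS b c z + cS c a z = ν ∧ Tri ν a b c z) := by
  have e1 : det3 b c z * (a.1 - z.1) + det3 c a z * (b.1 - z.1) +
      det3 a b z * (c.1 - z.1) = 0 := by unfold det3; ring
  have e3 : det3 a b c = det3 b c z + det3 c a z + det3 a b z := by unfold det3; ring
  have k1 := pe_sg e1 fun e h => h2 (pe_seg e h)
  have k2 := pe_sg (A := b.1 - z.1) (B := c.1 - z.1) (C := a.1 - z.1) (D1 := det3 b c z)
    (D2 := det3 c a z) (D3 := det3 a b z) (by linarith) fun e h => h3 (pe_seg e h)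
  have k3 := pe_sg (A := c.1 - z.1) (B := a.1 - z.1) (C := b.1 - z.1) (D1 := det3 c a z)
    (D2 := det3 a b z) (D3 := det3 b c z) (by linarith) fun e h => h1 (pe_seg e h)
  have n1 := pe_cross h1
  have n2 := pe_cross h2
  have n3 := pe_cross h3
  simp only [sub_nonpos, sub_pos] at k1 k2 k3
  rw [e3] at hc
  unfold Tri
  rcases le_or_gt a.1 z.1 with x | x <;> rcases le_or_gt b.1 z.1 with y | y <;>
    rcases le_or_gt c.1 z.1 with w | w
  · left; simp only [cS, y.not_gt, false_and, and_false, ↓ reduceIte, x.not_gt, sub_self, w.not_gt, add_zero]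
  · have := pe_one (D1 := det3 c a z) (D2 := det3 a b z) (D3 := det3 b c z) hν (by linarith only [hc])
      (n3 (Or.inr ⟨x, w⟩)) (n2 (Or.inl ⟨y, w⟩)) (k3 (Or.inr ⟨w, x, y⟩))
      (S := cS a b z + cS b c z + cS c a z)
      (Or.inr (by simp only [cS, x, y.not_gt, false_and, and_false, ↓ reduceIte, y, x.not_gt, sub_self, w, true_and, w.not_ge, and_self, sub_eq_add_neg, neg_zero, add_zero, zero_add]))
    exact this.imp_right fun h => ⟨h.1, h.2.2.1, h.2.2.2, h.2.1⟩
  · have := pe_one (D1 := det3 b c z) (D2 := det3 c a z) (D3 := det3 a b z) hν (by linarith only [hc])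
      (n2 (Or.inr ⟨w, y⟩)) (n1 (Or.inl ⟨x, y⟩)) (k2 (Or.inr ⟨y, w, x⟩))
      (S := cS a b z + cS b c z + cS c a z)
      (Or.inr (by simp only [cS, x, y, true_and, y.not_ge, x.not_gt, false_and, and_self, ↓ reduceIte, sub_eq_add_neg, neg_zero, add_zero, w.not_gt, w, zero_add, and_false, sub_self]))
    exact this.imp_right fun h => ⟨h.1, h.2.2.2, h.2.1, h.2.2.1⟩
  · exact pe_one hν hc (n1 (Or.inl ⟨x, y⟩)) (n3 (Or.inr ⟨x, w⟩)) (k1 (Or.inl ⟨x, y, w⟩))
      (Or.inl (by simp only [cS, x, y, true_and, y.not_ge, x.not_gt, false_and, and_self, ↓ reduceIte, sub_eq_add_neg, neg_zero, add_zero, w, w.not_ge, sub_self, zero_add]))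
  · exact pe_one hν hc (n1 (Or.inr ⟨y, x⟩)) (n3 (Or.inl ⟨w, x⟩)) (k1 (Or.inr ⟨x, y, w⟩))
      (Or.inr (by simp only [cS, x.not_ge, y.not_gt, false_and, and_self, ↓ reduceIte, y, x, true_and, sub_eq_add_neg, zero_add, w.not_gt, and_false, w, sub_self, add_comm, neg_zero]))
  · have := pe_one (D1 := det3 b c z) (D2 := det3 c a z) (D3 := det3 a b z) hν (by linarith)
      (n2 (Or.inl ⟨y, w⟩)) (n1 (Or.inr ⟨y, x⟩)) (k2 (Or.inl ⟨y, w, x⟩))
      (S := cS a b z + cS b c z + cS c a z)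
      (Or.inl (by simp only [cS, x.not_ge, y.not_gt, false_and, and_self, ↓ reduceIte, y, x, true_and, sub_eq_add_neg, zero_add, w, w.not_ge, neg_zero, add_comm, sub_self]))
    exact this.imp_right fun h => ⟨h.1, h.2.2.2, h.2.1, h.2.2.1⟩
  · have := pe_one (D1 := det3 c a z) (D2 := det3 a b z) (D3 := det3 b c z) hν (by linarith)
      (n3 (Or.inl ⟨w, x⟩)) (n2 (Or.inr ⟨w, y⟩)) (k3 (Or.inl ⟨w, x, y⟩))
      (S := cS a b z + cS b c z + cS c a z)
      (Or.inl (by simp only [cS, x.not_ge, y, true_and, false_and, ↓ reduceIte, y.not_ge, x, sub_self, w.not_gt, and_self, w, sub_eq_add_neg, zero_add, neg_zero, add_comm]))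
    exact this.imp_right fun h => ⟨h.1, h.2.2.1, h.2.2.2, h.2.1⟩
  · left; simp only [cS, x.not_ge, false_and, ↓ reduceIte, y.not_ge, sub_self, w.not_ge, add_zero]

theorem pe_inH {p q z : Pt} (hp : InH p) (hq : InH q) (h : z ∈ openSegment ℝ p q) : InH z := by
  obtain ⟨s, s0, s1, hx, hy⟩ := pe_open h
  unfold InH at *
  rw [hx, hy]
  have a1 := mul_pos s0 (sub_pos.2 hq)
  have a2 := mul_pos (sub_pos.2 s1) (sub_pos.2 hp)
  have a3 := mul_nonneg (mul_pos s0 (sub_pos.2 s1)).le (sq_nonneg (q.1 - p.1))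
  linarith

theorem pe_meet {n : ℕ} {V : ℕ → Pt} (hs : SimpleP n V) {k t : ℕ} (hk : k < n) (ht : t < n)
    (hne : t ≠ k) {u : Pt} (h1 : u ∈ segment ℝ (V t) (V (t + 1)))
    (h2 : u ∈ openSegment ℝ (V k) (V (k + 1))) : False := by
  have hn : V k ≠ V (k + 1) := fun e => hs.nv k hk (by rw [e])
  have h3 := openSegment_subset_segment _ _ _ h2
  have : u = V k ∨ u = V (k + 1) := by
    rcases lt_or_gt_of_ne hne with h | h
    · rcases hs.meet t k h hk u h1 h3 with ⟨a, b⟩ | ⟨a, b, c⟩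
      · exact Or.inl b
      · exact Or.inr (by rw [c, b, hs.cl])
    · rcases hs.meet k t h ht u h3 h1 with ⟨a, b⟩ | ⟨a, b, c⟩
      · exact Or.inr (by rw [b, a])
      · exact Or.inl (by rw [c, a])
  rcases this with rfl | rfl
  · exact hn (left_mem_openSegment_iff.1 h2)
  · exact hn (right_mem_openSegment_iff.1 h2)

theorem pe_in {n : ℕ} {V : ℕ → Pt} {ν : ℝ} (hs : SimpleP n V) (hν : Ori n V ν) {j : ℕ}
    (hj : j < n) {a b c z : Pt} (ha : a ∈ openSegment ℝ (V j) (V (j + 1)))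
    (hb : b ∈ openSegment ℝ a (V (j + 1)))
    (hemp : ∀ z, Tri ν a b c z → ∀ k < n, z ∉ segment ℝ (V k) (V (k + 1)))
    (hz : Tri ν a b c z) : wn n V z = ν := by
  obtain ⟨u, hu, -, hy⟩ := pe_hull hz
  obtain ⟨s, s0, s1, ax, ay⟩ := pe_open ha
  obtain ⟨r, r0, r1, bx, by'⟩ := pe_open hb
  obtain ⟨t, t0, t1, ux, uy⟩ := pe_open hu
  have hrs := mul_pos r0 (sub_pos.2 s1)
  have hm : u ∈ openSegment ℝ (V j) (V (j + 1)) := by
    refine pe_mem_open (s := s + t * (r * (1 - s))) (by positivity) ?_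
      (by rw [ux, bx, ax]; ring) (by rw [uy, by', ay]; ring)
    have a1 : t * r < 1 := mul_lt_one_of_nonneg_of_lt_one_left t0.le t1 r1.le
    have a2 := mul_pos (sub_pos.2 a1) (sub_pos.2 s1)
    linarith only [a2]
  refine wn_side hs hν hj hm ?_ fun k hk hne => Set.disjoint_left.2 fun y h1 h2 => ?_
  · have e : ν * det3 a b z = r * (1 - s) * (ν * det3 (V j) (V (j + 1)) z) := by
      unfold det3
      rw [bx, by', ax, ay]
      ring
    have := hz.1
    rw [e] at this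
    exact (mul_pos_iff_of_pos_left hrs).1 this
  · rcases hy y h2 with rfl | h
    · exact pe_meet hs hj hk hne h1 hm
    · exact hemp y h k hk h1

/- Paper TRI. -/
theorem tri_bound {n : ℕ} {V : ℕ → Pt} {ν : ℝ} (hs : SimpleP n V) (hV : ∀ k, InH (V k))
    (hν : Ori n V ν) (J : Finset ℕ) (hJ : ∀ j ∈ J, j < n) (a b c : ℕ → Pt)
    (hin : ∀ j ∈ J, InH (c j))
    (hab : ∀ j ∈ J, a j ∈ openSegment ℝ (V j) (V (j + 1)) ∧ b j ∈ openSegment ℝ (a j) (V (j + 1)))
    (hc : ∀ j ∈ J, 0 < ν * det3 (a j) (b j) (c j))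
    (hemp : ∀ j ∈ J, ∀ z, Tri ν (a j) (b j) (c j) z → ∀ k < n, z ∉ segment ℝ (V k) (V (k + 1)))
    (hdis : ∀ j ∈ J, ∀ j' ∈ J, j ≠ j' → ∀ z, Tri ν (a j) (b j) (c j) z →
      ¬ Tri ν (a j') (b j') (c j') z) :
    ∑ j ∈ J, ν * (ar (a j) (b j) + ar (b j) (c j) + ar (c j) (a j)) ≤ ν * parea n V := by
  have hA : ∀ j ∈ J, InH (a j) := fun j hj => pe_inH (hV _) (hV _) (hab j hj).1
  have hB : ∀ j ∈ J, InH (b j) := fun j hj => pe_inH (hA j hj) (hV _) (hab j hj).2
  have hνν : ν * ν = 1 := by rcases hν.sgn with h | h <;> rw [h] <;> norm_num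
  have key := area_nonneg ((Finset.range n).disjSum (J.disjSum (J.disjSum J)))
    (Sum.elim V (Sum.elim a (Sum.elim b c)))
    (Sum.elim (fun k => V (k + 1)) (Sum.elim b (Sum.elim c a)))
    (Sum.elim (fun _ => ν) fun _ => -ν) ?_ ?_
  · simp only [Finset.sum_disjSum, Sum.elim_inl, Sum.elim_inr, neg_mul, Finset.sum_neg_distrib]
      at key
    unfold parea
    simp only [mul_add, Finset.sum_add_distrib, Finset.mul_sum]
    linarith
  · rintro (k | k | k | k) hk <;> simp only [Finset.inl_mem_disjSum, Finset.inr_mem_disjSum] at hk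
    · exact ⟨hV _, hV _⟩
    · exact ⟨hA k hk, hB k hk⟩
    · exact ⟨hB k hk, hin k hk⟩
    · exact ⟨hin k hk, hA k hk⟩
  · intro z _ hx hoff
    have hw := (hν.val z fun k hk => (hx (Sum.inl k)
      (Finset.inl_mem_disjSum.2 (Finset.mem_range.2 hk))).1).1
    have ht : ∀ j ∈ J, cS (a j) (b j) z + cS (b j) (c j) z + cS (c j) (a j) z = 0 ∨
        (cS (a j) (b j) z + cS (b j) (c j) z + cS (c j) (a j) z = ν ∧
          Tri ν (a j) (b j) (c j) z) := fun j hj =>
      tri_wn hν.sgn (hc j hj) (hoff (Sum.inr (Sum.inl j)) (by simpa using hj))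
        (hoff (Sum.inr (Sum.inr (Sum.inl j))) (by simpa using hj))
        (hoff (Sum.inr (Sum.inr (Sum.inr j))) (by simpa using hj))
    have goal : ∑ j ∈ J, ν * (cS (a j) (b j) z + cS (b j) (c j) z + cS (c j) (a j) z) ≤
        ν * wn n V z := by
      by_cases hex : ∃ j ∈ J, Tri ν (a j) (b j) (c j) z
      · obtain ⟨j, hj, hz⟩ := hex
        rw [pe_in hs hν (hJ j hj) (hab j hj).1 (hab j hj).2 (hemp j hj) hz,
          Finset.sum_eq_single_of_mem j hj]
        · rcases ht j hj with h | h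
          · rw [h, hνν]; norm_num
          · rw [h.1]
        · intro i hi hne
          rcases ht i hi with h | h
          · rw [h, mul_zero]
          · exact absurd hz (hdis i hi j hj hne z h.2)
      · rw [Finset.sum_eq_zero]
        · rcases hw with h | h
          · rw [h, mul_zero]
          · rw [h, hνν]; norm_num
        · intro i hi
          rcases ht i hi with h | h
          · rw [h, mul_zero]
          · exact absurd ⟨i, hi, h.2⟩ hex
    simp only [Finset.sum_disjSum, Sum.elim_inl, Sum.elim_inr, neg_mul, Finset.sum_neg_distrib]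
    unfold wn at goal
    simp only [mul_add, Finset.sum_add_distrib, Finset.mul_sum] at goal
    linarith

end Pool.Agent.MP_596265_gt

end
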