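import Pool.Agent.MP_596265_gt.B3
import Pool.Agent.MP_596265_gt.B4

attribute [-instance] SMulZeroClass.toSMul NonUnitalRingHomClass.toMulHomClass
  MonTypeEquivalenceMon.monMonoid RKHS.instFunLike GradedMonoid.GradeZero.smul
  NonUnitalAlgSemiHomClass.toMulHomClass DivisionSemiring.toSemiring CommSemiring.toSemiring
  Prod.instAddGroup DivisionCommMonoid.toDivisionMonoid AddQuantale.instAddLeftMono
  MonoidWithZero.toMulZeroOneClass SemigroupWithZero.toSemigroup
  MonoidWithZeroHomClass.toMonoidHomClass NumberField.to_charZero TotallySeparatedSpace.t2Space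
  BialgHomClass.toMonoidHomClass NonAssocSemiring.toMulZeroOneClass NormedRing.toRing
  Fintype.decidableForallFintype instCoeHTCTOfCoeHTC IdemSemiring.toSemiring Distrib.toMul
  LinearOrderedCommMonoidWithZero.toPosMulStrictMono SeminormedCommRing.toSeminormedRing

-- part MA
section

namespace Pool.Agent.MP_596265_gt

open scoped UpperHalfPlane
open Real

variable {g : ℕ}

theorem pm_lift {H : Type} {M N : H → G} (h : ∀ x, PM (M x) (N x)) (u : FreeGroup H) :
    PM (FreeGroup.lift M u) (FreeGroup.lift N u) := by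
  induction u using FreeGroup.induction_on with
  | C1 => rw [map_one, map_one]; exact PM.refl _
  | of x => rw [FreeGroup.lift_apply_of, FreeGroup.lift_apply_of]; exact h x
  | inv_of x ih => rw [map_inv, map_inv]; exact ih.inv
  | mul a b iha ihb => rw [map_mul, map_mul]; exact iha.mul ihb
theorem pm_lift_aut {σ : Fr g →* G} {M : Gen g → G} {α : Fr g ≃* Fr g}
    (h : ∀ x, PM (M x) (σ (α (FreeGroup.of x)))) (u : Fr g) :
    PM (FreeGroup.lift M u) (σ (α u)) := by
  induction u using FreeGroup.induction_on with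
  | C1 => rw [map_one, map_one, map_one]; exact PM.refl _
  | of x => rw [FreeGroup.lift_apply_of]; exact h x
  | inv_of x ih => rw [map_inv, map_inv, map_inv]; exact ih.inv
  | mul a b iha ihb => rw [map_mul, map_mul, map_mul]; exact iha.mul ihb
theorem continuous_lift (u : Fr g) : Continuous fun M : Gen g → G => FreeGroup.lift M u := by
  rw [← FreeGroup.mk_toWord (x := u)]
  exact continuous_lab _
theorem isClosed_pm_one : IsClosed {x : G | PM x 1} := by
  have : T2Space G := inferInstanceAs (T2Space {A : Matrix (Fin 2) (Fin 2) ℝ // A.det = 1})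
  exact (isClosed_singleton (x := (1 : G))).union (isClosed_singleton (x := (-1 : G)))
theorem Cl.surf {σ : Fr g →* G} {w : List (Dt g)} {M : Gen g → G} (h : M ∈ Cl σ w) : Surf w := by
  obtain ⟨N, α, h1, -⟩ := closure_nonempty_iff.1 ⟨M, h⟩
  exact ⟨α, h1⟩
theorem Cl.transfer {σ : Fr g →* G} {w w' : List (Dt g)} {M : Gen g → G} (h : M ∈ Cl σ w)
    (β : Fr g ≃* Fr g) (hβ : IsConj (β (FreeGroup.mk w')) (FreeGroup.mk w)) :
    (fun x => FreeGroup.lift M (β (FreeGroup.of x))) ∈ Cl σ w' := by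
  refine map_mem_closure
    (f := fun (N : Gen g → G) (x : Gen g) => FreeGroup.lift N (β (FreeGroup.of x)))
    (continuous_pi fun x => continuous_lift _) h ?_
  rintro N ⟨α, h1, h2⟩
  exact ⟨β.trans α, (α.toMonoidHom.map_isConj hβ).trans h1, fun x => pm_lift_aut h2 _⟩
theorem Cl.sign {σ : Fr g →* G} {w : List (Dt g)} {M M' : Gen g → G} (h : M ∈ Cl σ w)
    (h' : ∀ x, PM (M' x) (M x)) : M' ∈ Cl σ w := by
  have e : ∀ x, ∃ s : G, PM s 1 ∧ M' x = s * M x := fun x => by
    rcases h' x with e | e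
    · exact ⟨1, PM.refl _, by rw [one_mul, e]⟩
    · exact ⟨-1, Or.inr rfl, by rw [neg_mul, one_mul, e]⟩
  choose s hs e using e
  rw [funext e]
  refine map_mem_closure (f := fun (N : Gen g → G) (x : Gen g) => s x * N x)
    (continuous_pi fun x => continuous_const.mul (continuous_apply x)) h ?_
  rintro N ⟨α, h1, h2⟩
  refine ⟨α, h1, fun x => ?_⟩
  have := (hs x).mul (h2 x)
  rwa [one_mul] at this
theorem Cl.pm_one {σ : Fr g →* G} (hR : PM (σ (relPre g g)) 1) {w : List (Dt g)} {M : Gen g → G}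
    (h : M ∈ Cl σ w) : PM (lab M w) 1 := by
  refine closure_minimal (t := {N : Gen g → G | PM (lab N w) 1}) ?_
    (isClosed_pm_one.preimage (continuous_lab w)) h
  rintro N ⟨α, h1, h2⟩
  refine (pm_lift_aut h2 _).trans ?_
  obtain ⟨c, hc⟩ := isConj_iff.1 h1.symm
  have := ((PM.refl (σ c)).mul hR).mul (PM.refl (σ c)⁻¹)
  rwa [mul_one, mul_inv_cancel, ← map_inv, ← map_mul, ← map_mul, hc] at this
theorem exists_min (σ : Fr g →* G) : ∃ w M, IsMinP σ w M := by
  obtain ⟨w₀, hw₀, e₀⟩ := exists_full_rel (g := g)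
  have hG : (fun x => σ (FreeGroup.of x)) ∈ Cl σ w₀ :=
    subset_closure ⟨MulEquiv.refl _, by rw [MulEquiv.refl_apply, e₀], fun _ => PM.refl _⟩
  have hfin : {w : List (Dt g) | Full w}.Finite :=
    (List.finite_length_eq (Dt g) (4 * g)).subset fun w hw => Full.length hw
  have hcl : IsClosed (⋃ w ∈ {w : List (Dt g) | Full w}, Cl σ w) :=
    hfin.isClosed_biUnion fun _ _ => isClosed_closure
  have hct : Continuous (tot : (Gen g → G) → ℝ) :=
    continuous_finsetSum _ fun x _ => continuous_len.comp (continuous_apply x)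
  have hle : ∀ (N : Gen g → G) (x : Gen g), len (N x) ≤ tot N := fun N x =>
    Finset.single_le_sum (f := fun y => len (N y)) (fun y _ => len_nonneg _) (Finset.mem_univ x)
  set C := tot fun x => σ (FreeGroup.of x) with hC
  have hK : IsCompact ((Set.univ.pi fun _ : Gen g => {A : G | len A ≤ C}) ∩
      ⋃ w ∈ {w : List (Dt g) | Full w}, Cl σ w) :=
    (isCompact_univ_pi fun _ => isCompact_len_le C).inter_right hcl
  have h0 : (fun x => σ (FreeGroup.of x)) ∈ (Set.univ.pi fun _ : Gen g => {A : G | len A ≤ C}) ∩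
      ⋃ w ∈ {w : List (Dt g) | Full w}, Cl σ w :=
    ⟨fun x _ => hle (fun x => σ (FreeGroup.of x)) x, Set.mem_biUnion hw₀ hG⟩
  obtain ⟨M, ⟨-, hM⟩, hmin⟩ := hK.exists_isMinOn ⟨_, h0⟩ hct.continuousOn
  obtain ⟨w, hw, hMw⟩ := Set.mem_iUnion₂.1 hM
  refine ⟨w, M, hw, hMw, fun w' M' hw' hM' => ?_⟩
  rcases le_total (tot M') C with hc | hc
  · exact hmin ⟨fun x _ => (hle M' x).trans hc, Set.mem_biUnion hw' hM'⟩
  · exact le_trans (hmin h0) hc

end Pool.Agent.MP_596265_gt

end

-- part MB
section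

namespace Pool.Agent.MP_596265_gt

open scoped UpperHalfPlane
open Real

variable {g : ℕ}

theorem mb_of_mem {x y : Gen g} (h : y ≠ x) : FreeGroup.of y ∈ Out ({x} : Set (Gen g)) :=
  Subgroup.subset_closure ⟨y, h, rfl⟩

theorem mb_twist (x : Gen g) (u : Fr g) (hu : u ∈ Out ({x} : Set (Gen g))) :
    ∃ γ : Fr g ≃* Fr g, γ (FreeGroup.of x) = FreeGroup.of x * u ∧
      ∀ z, z ≠ x → γ (FreeGroup.of z) = FreeGroup.of z := by
  obtain ⟨γ, h1, h2⟩ := exists_gauge ({x} : Set (Gen g)) (fun d => cond d.2 1 u⁻¹) (by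
    rintro ⟨e, b⟩
    cases b
    · exact Subgroup.inv_mem _ hu
    · exact Subgroup.one_mem _)
  refine ⟨γ, ?_, fun z hz => h2 _ (mb_of_mem hz)⟩
  have := h1 (x, true) rfl
  rw [mk_true] at this
  rw [this]
  simp [rev]

theorem mb_fix (γ : Fr g ≃* Fr g) (h : ∀ k, γ (comm g k) = comm g k) :
    γ (relPre g g) = relPre g g := by
  rw [relPre, map_list_prod, List.map_map]
  exact congrArg List.prod (List.map_congr_left fun k _ => h k)

theorem mb_rel_one (k : Fin g) (hk : k.1 = 0) : relPre g 1 = comm g k := by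
  cases g with
  | zero => exact k.elim0
  | succ n =>
    have : k = 0 := Fin.ext hk
    rw [this, relPre, List.finRange_succ]
    simp

/-- Twist of the second generator by a power of the first one. -/
theorem mb_twb (k : Fin g) (n : ℤ) : ∃ γ : Fr g ≃* Fr g, γ (relPre g g) = relPre g g ∧
    γ (FreeGroup.of (k, false)) = FreeGroup.of (k, false) ∧
    γ (FreeGroup.of (k, true)) = FreeGroup.of (k, true) * FreeGroup.of (k, false) ^ n := by
  obtain ⟨γ, h1, h2⟩ := mb_twist (k, true) (FreeGroup.of (k, false) ^ n)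
    (Subgroup.zpow_mem _ (mb_of_mem (by simp)) n)
  refine ⟨γ, mb_fix γ fun j => ?_, h2 _ (by simp), h1⟩
  simp only [comm, map_mul, map_inv]
  by_cases hj : j = k
  · rw [hj, h1, h2 (k, false) (by simp)]
    group
  · rw [h2 (j, false) (by simp), h2 (j, true) (by simpa using hj)]

/-- Twist of the first generator by the second one. -/
theorem mb_twa (k : Fin g) : ∃ γ : Fr g ≃* Fr g, γ (relPre g g) = relPre g g ∧
    γ (FreeGroup.of (k, false)) = FreeGroup.of (k, false) * FreeGroup.of (k, true) ∧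
    γ (FreeGroup.of (k, true)) = FreeGroup.of (k, true) := by
  obtain ⟨γ, h1, h2⟩ := mb_twist (k, false) (FreeGroup.of (k, true)) (mb_of_mem (by simp))
  refine ⟨γ, mb_fix γ fun j => ?_, h1, h2 _ (by simp)⟩
  simp only [comm, map_mul, map_inv]
  by_cases hj : j = k
  · rw [hj, h1, h2 (k, true) (by simp)]
    group
  · rw [h2 (j, false) (by simpa using hj), h2 (j, true) (by simp)]

theorem mb_tor (hg : 2 ≤ g) {σ : Fr g →* G} (hT : TH σ) (k : Fin g) (hk : k.1 = 0)
    (ψ : Fr g ≃* Fr g) (hψ : IsConj (ψ (relPre g g)) (relPre g g)) :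
    Tor (σ (ψ (FreeGroup.of (k, false)))) (σ (ψ (FreeGroup.of (k, true)))) := by
  refine torus {p | ∃ φ : Fr g ≃* Fr g, IsConj (φ (relPre g g)) (relPre g g) ∧
    p = (σ (φ (FreeGroup.of (k, false))), σ (φ (FreeGroup.of (k, true))))} ?_ ?_ ?_ ?_
    (σ (ψ (FreeGroup.of (k, false))), σ (ψ (FreeGroup.of (k, true)))) ⟨ψ, hψ, rfl⟩
  · rintro p ⟨φ, hφ, rfl⟩
    obtain ⟨γ, h0, h1, h2⟩ := mb_twb k (-1)
    refine ⟨γ.trans φ, by rwa [MulEquiv.trans_apply, h0], ?_⟩
    simp only [MulEquiv.trans_apply, h1, h2, zpow_neg, zpow_one, map_mul, map_inv]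
  · rintro p ⟨φ, hφ, rfl⟩
    obtain ⟨γ, h0, h1, h2⟩ := mb_twa k
    refine ⟨γ.trans φ, by rwa [MulEquiv.trans_apply, h0], ?_⟩
    simp only [MulEquiv.trans_apply, h1, h2, map_mul]
  · rintro p ⟨φ, hφ, rfl⟩
    obtain ⟨γ, h0, h1, h2⟩ := mb_twb k 1
    refine ⟨γ.trans φ, by rwa [MulEquiv.trans_apply, h0], ?_⟩
    simp only [MulEquiv.trans_apply, h1, h2, zpow_one, map_mul]
  · rintro p ⟨φ, hφ, rfl⟩
    refine ⟨(hT φ hφ).1 k, ?_⟩
    have h1 := (hT φ hφ).2.1 1 one_pos (by omega)
    have h2 := (hT φ hφ).2.2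
    rw [mb_rel_one k hk] at h1 h2
    simp only [comm, map_mul, map_inv] at h1 h2
    exact ⟨h1, h2⟩

theorem mb_conj (α : Fr g ≃* Fr g) {x y : Fr g} (h : IsConj x y) : IsConj (α x) (α y) :=
  α.toMonoidHom.map_isConj h

/- On `Good`: `torus` for the set of pairs `(σ (ψ a₀), σ (ψ b₀))`, `ψ R` conjugate to `R`; the three
moves are automorphisms fixing `R` (`exists_gauge`); `relPre g 1` is the first commutator. -/
theorem tor_of_std (hg : 2 ≤ g) {σ : Fr g →* G} (hT : TH σ) {w : List (Dt g)} {M : Gen g → G}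
    (hM : M ∈ Cl σ w) {U V : List (Dt g)} (h : Std w (FreeGroup.mk U) (FreeGroup.mk V)) :
    Tor (lab M U) (lab M V) := by
  obtain ⟨ψ, k, hk, hc, hU, hV⟩ := h
  have hcl : IsClosed {N : Gen g → G | Tor (lab N U) (lab N V)} :=
    isClosed_tor.preimage ((continuous_lab U).prodMk (continuous_lab V))
  refine closure_minimal (s := {M | Good σ w M}) ?_ hcl hM
  rintro N ⟨α, hα, hN⟩
  have ht := mb_tor hg hT k hk (ψ.trans α) ((mb_conj α hc).trans hα)
  rw [MulEquiv.trans_apply, MulEquiv.trans_apply, hU] at ht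
  have ht' : Tor (σ (α (FreeGroup.mk U))) (σ (α (FreeGroup.mk V))) := by
    rcases hV with hV | hV
    · rwa [hV] at ht
    · rw [hV, map_inv, map_inv] at ht
      simpa only [inv_inv] using ht.inv_right
  exact ht'.pm (pm_lift_aut hN _) (pm_lift_aut hN _)

theorem tr_of_sp {σ : Fr g →* G} (hT : TH σ) (hR : PM (σ (relPre g g)) 1) {P Q : List (Dt g)}
    {M : Gen g → G} (hF : Full (P ++ Q)) (hM : M ∈ Cl σ (P ++ Q)) (hP : SP P) :
    2 ≤ |tr (lab M P)| := by
  by_cases h1 : P = []
  · rw [h1, lab_nil, tr_one]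
    norm_num
  by_cases h2 : Q = []
  · have := Cl.pm_one hR hM
    rw [h2, List.append_nil] at this
    rw [this.abs_tr, tr_one]
    norm_num
  obtain ⟨ψ, h, h0, hg, hψ, hψP⟩ := std_sep hF (Cl.surf hM) hP h1 h2
  have hcl : IsClosed {N : Gen g → G | 2 ≤ |tr (lab N P)|} :=
    isClosed_le continuous_const (continuous_tr.comp (continuous_lab P)).abs
  refine closure_minimal (s := {M | Good σ (P ++ Q) M}) ?_ hcl hM
  rintro N ⟨α, hα, hN⟩
  have ht := (hT (ψ.trans α) (by rwa [MulEquiv.trans_apply, hψ])).2.1 h h0 hg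
  rw [MulEquiv.trans_apply, hψP] at ht
  have he : |tr (lab N P)| = |tr (σ (α (FreeGroup.mk P)))| := (pm_lift_aut hN _).abs_tr
  show 2 ≤ |tr (lab N P)|
  rw [he]
  exact ht

/- Paper W8. -/
theorem short_card (hg : 2 ≤ g) {σ : Fr g →* G} (hT : TH σ) {w : List (Dt g)} {M : Gen g → G}
    (hF : Full w) (hM : M ∈ Cl σ w) :
    (Finset.univ.filter fun x : Gen g => cosh (len (M x)) < 3).card ≤ g := by
  refine iso_card hF (oneV hF (Cl.surf hM)) _ fun a ha b hb hc => ?_
  have ht := (tor_of_std hg hT hM (std_cross hF (Cl.surf hM) hc)).cosh_le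
  have e : ∀ x : Gen g, lab M [(x, true)] = M x := fun x => by simp [dlab]
  rw [e, e] at ht
  have h1 := (Finset.mem_filter.1 ha).2
  have h2 := (Finset.mem_filter.1 hb).2
  have h3 := one_le_cosh (len (M a))
  have h4 := one_le_cosh (len (M b))
  nlinarith only [ht, h1, h2, h4]

end Pool.Agent.MP_596265_gt

end

-- part MC
section

namespace Pool.Agent.MP_596265_gt

open scoped UpperHalfPlane
open Real

variable {g : ℕ}

theorem mc_len (M : Gen g → G) (β : Fr g ≃* Fr g) (d : Dt g) :
    len (FreeGroup.lift M (β (FreeGroup.of d.1))) = len (FreeGroup.lift M (β (FreeGroup.mk [d]))) := by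
  obtain ⟨x, b⟩ := d
  cases b
  · have e : FreeGroup.mk [(x, false)] = (FreeGroup.of x)⁻¹ := by
      rw [← mk_true x, ← mk_rev]
      rfl
    rw [e, map_inv, map_inv, len_inv]
  · rw [mk_true]

theorem mc_f1 {σ : Fr g →* G} {M : Gen g → G} {P Q : List (Dt g)} {d : Dt g}
    (h : IsMinP σ (P ++ Q) M) (hd : d ∈ P) (hr : rev d ∉ P) : len (dlab M d) ≤ len (lab M P) := by
  classical
  have hq : rev d ∈ Q := (List.mem_append.mp (h.1.2 (rev d))).resolve_left hr
  obtain ⟨X, Y, rfl⟩ := List.append_of_mem hd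
  obtain ⟨Z, T, rfl⟩ := List.append_of_mem hq
  have e : X ++ d :: Y ++ (Z ++ rev d :: T) = [] ++ X ++ d :: (Y ++ Z ++ rev d :: T) := by simp
  rw [e] at h
  obtain ⟨β, h1, h2, h3⟩ := exists_swap [] X Y Z T d h.1.1
  have hp : ([] ++ X ++ d :: (Y ++ Z ++ rev d :: T)).Perm
      ([] ++ d :: (Z ++ Y ++ rev d :: (X ++ T))) := by
    rw [List.perm_iff_count]
    intro a
    simp only [List.count_append, List.count_cons, List.count_nil]
    omega
  have hm := h.2.2 _ _ (h.1.perm hp) (Cl.transfer h.2.1 β (by rw [h3]))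
  unfold tot at hm
  rw [← Finset.add_sum_erase _ _ (Finset.mem_univ d.1),
    ← Finset.add_sum_erase _ _ (Finset.mem_univ d.1), mc_len, h1] at hm
  have hs : ∑ x ∈ Finset.univ.erase d.1, len (FreeGroup.lift M (β (FreeGroup.of x))) =
      ∑ x ∈ Finset.univ.erase d.1, len (M x) :=
    Finset.sum_congr rfl fun x hx => by
      rw [h2 x (Finset.ne_of_mem_erase hx), FreeGroup.lift_apply_of]
  rw [hs] at hm
  rw [len_dlab]
  exact le_of_add_le_add_right hm

theorem fam_of_min (hg : 2 ≤ g) {σ : Fr g →* G} (hT : TH σ) (hR : PM (σ (relPre g g)) 1)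
    (M : Gen g → G) : Fam M {w | IsMinP σ w M} := by
  refine ⟨fun w h => h.1, fun w h => Cl.pm_one hR h.2.1, fun A B h => ?_,
    fun X V₁ V₂ h hX h1 => ?_, fun P Q d h hd hr => mc_f1 h hd hr, fun s A B h => ?_,
    fun P Q h hP => tr_of_sp hT hR h.1 h.2.1 hP⟩
  · refine ⟨h.1.perm List.perm_append_comm, ?_, h.2.2⟩
    have := Cl.transfer h.2.1 (MulEquiv.refl _) (isConj_rot A B)
    simpa only [MulEquiv.refl_apply, FreeGroup.lift_apply_of] using this
  · obtain ⟨β, e, hβ⟩ := exists_hole h.1 (Cl.surf h.2.1) hX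
    refine ⟨h.1.perm (List.perm_append_comm.append_right V₂), ?_, h.2.2⟩
    refine Cl.sign (Cl.transfer h.2.1 β (by rw [e])) fun x => ?_
    obtain ⟨u, v, hu, hv, e'⟩ := hβ x
    have k : ∀ u : Fr g, (u = 1 ∨ u = FreeGroup.mk X) → PM (FreeGroup.lift M u) 1 := by
      rintro u (rfl | rfl)
      · rw [map_one]
        exact PM.refl 1
      · exact h1
    have := ((k u hu).mul (PM.refl (M x))).mul (k v hv).inv
    rw [one_mul, inv_one, mul_one] at this
    rw [e', map_mul, map_mul, map_inv, FreeGroup.lift_apply_of]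
    exact this.symm
  · have := tor_of_std hg hT h.2.1 (std_diag h.1 (Cl.surf h.2.1))
    rwa [lab_cons, lab_nil, mul_one] at this

theorem Cl.area {σ : Fr g →* G} (f : Fr g →* (ℝ ≃o ℝ)) (hl : ∀ u, Lift (σ u) (f u)) (e : ℤ)
    (he : f (relPre g g) = T e) {w : List (Dt g)} {M : Gen g → G} (hF : Full w)
    (hM : M ∈ Cl σ w) : warea M 1 w = 2 * π * e := by
  have hc : IsClosed {M : Gen g → G | warea M 1 w = 2 * π * e} :=
    isClosed_eq (continuous_warea w) continuous_const
  refine closure_minimal (fun N hN => ?_) hc hM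
  obtain ⟨α, hα, hN⟩ := hN
  obtain ⟨c, hc'⟩ := isConj_iff.mp hα
  refine warea_euler hF.1 hF.sp (fun x => f (α (FreeGroup.of x)))
    (fun x => (hl _).pm (hN x).symm) e ?_
  have e1 : FreeGroup.lift (fun x => f (α (FreeGroup.of x))) = f.comp α.toMonoidHom :=
    FreeGroup.ext_hom _ _ fun x => by simp
  have e2 : α (FreeGroup.mk w) = c⁻¹ * relPre g g * c := by
    rw [← hc']
    group
  have e3 : T e * f c = f c * T e := by
    ext x
    simp only [RelIso.mul_apply, T_apply]
    exact ((hl c).add_int x e).symm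
  rw [lab, e1]
  show f (α (FreeGroup.mk w)) = T e
  rw [e2, map_mul, map_mul, he, mul_assoc, e3, map_inv, inv_mul_cancel_left]

end Pool.Agent.MP_596265_gt

end

-- part FA
section

namespace Pool.Agent.MP_596265_gt

open scoped UpperHalfPlane
open Real

variable {g : ℕ}

theorem Fam.f0 {M : Gen g → G} {W : Set (List (Dt g))} (hW : Fam M W) {w : List (Dt g)}
    (hw : w ∈ W) (d : Dt g) : 0 < len (dlab M d) := by
  obtain ⟨X, Y, rfl⟩ := List.append_of_mem ((hW.full w hw).2 d)
  have h := hW.rot _ _ hw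
  have h2 := (hW.full _ h).2 (rev d)
  rw [List.cons_append] at h h2
  obtain ⟨A, B, e⟩ := List.append_of_mem ((List.mem_cons.1 h2).resolve_left (rev_ne d))
  rw [e] at h
  exact (hW.s2 d A B h).len_pos.1

theorem Fam.f2 {M : Gen g → G} {W : Set (List (Dt g))} (hW : Fam M W) {P Q : List (Dt g)}
    (h : P ++ Q ∈ W) (h0 : len (lab M P) = 0) : SP P ∧ PM (lab M P) 1 := by
  have hs : SP P := fun d hd => by_contra fun a =>
    (hW.f0 h d).not_ge (h0 ▸ hW.f1 P Q d h hd a)
  exact ⟨hs, pm_one_of_fixed ((len_eq_zero_iff _).1 h0) (hW.s3 P Q h hs)⟩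

theorem dist_vtx (M : Gen g → G) (h : G) (A U B : List (Dt g)) :
    dist (vtx M h (A ++ U ++ B) A.length) (vtx M h (A ++ U ++ B) (A.length + U.length)) =
      len (lab M U) := by
  rw [vtx, vtx, dist_smul_I, ← List.length_append, List.take_left, List.append_assoc,
    List.take_left, lab_append]
  simp [mul_assoc]

theorem fa_side (M : Gen g → G) {w : List (Dt g)} {k : ℕ} (hk : k < w.length) :
    dist (vtx M 1 w k) (vtx M 1 w (k + 1)) = len (dlab M w[k]) := by
  have := dist_vtx M 1 (w.take k) [w[k]] (w.drop (k + 1))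
  rw [List.append_assoc, List.singleton_append, ← List.drop_eq_getElem_cons, List.take_append_drop,
    List.length_take_of_le hk.le] at this
  simpa using this

theorem fa_split (w : List (Dt g)) {i j : ℕ} (h : i ≤ j) :
    w.take i ++ (w.take j).drop i ++ w.drop j = w := by
  conv_lhs => rw [← Nat.min_eq_left h, ← List.take_take]
  rw [Nat.min_eq_left h, List.take_append_drop, List.take_append_drop]

theorem fa_dist (M : Gen g → G) {w : List (Dt g)} {i j : ℕ} (h : i ≤ j) (hj : j ≤ w.length) :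
    dist (vtx M 1 w i) (vtx M 1 w j) = len (lab M ((w.take j).drop i)) := by
  have := dist_vtx M 1 (w.take i) ((w.take j).drop i) (w.drop j)
  rwa [fa_split w h, List.length_take_of_le (h.trans hj), List.length_drop,
    List.length_take_of_le hj, Nat.add_sub_cancel' h] at this

theorem fa_mem {w : List (Dt g)} (hn : w.Nodup) {i j k : ℕ} (hk : k < w.length) :
    w[k] ∈ (w.take j).drop i ↔ i ≤ k ∧ k < j := by
  rw [List.mem_iff_getElem]
  constructor
  · rintro ⟨m, hm, e⟩
    rw [List.getElem_drop, List.getElem_take, hn.getElem_inj_iff] at e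
    simp only [List.length_drop, List.length_take] at hm
    omega
  · rintro ⟨a, b⟩
    refine ⟨k - i, by simp only [List.length_drop, List.length_take]; omega, ?_⟩
    simp only [List.getElem_drop, List.getElem_take, Nat.add_sub_cancel' a]

theorem fa_idx {M : Gen g → G} {W : Set (List (Dt g))} (hW : Fam M W) {w : List (Dt g)}
    (hw : w ∈ W) {k k' : ℕ} (hk : k < w.length) (hk' : k' < w.length) (e : w[k'] = rev w[k])
    {i j : ℕ} (hi : i ≤ w.length) (hj : j ≤ w.length)
    (h : (k < i ↔ k < j) ↔ ¬(k' < i ↔ k' < j)) :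
    dist (vtx M 1 w k) (vtx M 1 w (k + 1)) ≤ dist (vtx M 1 w i) (vtx M 1 w j) := by
  wlog a : i ≤ j generalizing i j
  · rw [dist_comm (vtx M 1 w i)]
    exact this hj hi (by omega) (by omega)
  have hn := (hW.full w hw).1
  have h1 : (w.take j).drop i ++ (w.drop j ++ w.take i) ∈ W := by
    rw [← List.append_assoc]
    refine hW.rot _ _ ?_
    rwa [← List.append_assoc, fa_split w a]
  rw [fa_side M hk, fa_dist M a hj]
  by_cases b : i ≤ k ∧ k < j
  · exact hW.f1 _ _ _ h1 ((fa_mem hn hk).2 b) (by rw [← e, fa_mem hn hk']; omega)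
  · have := hW.f1 _ _ w[k'] h1 ((fa_mem hn hk').2 (by omega))
      (by rw [e, rev_rev, fa_mem hn hk]; exact b)
    rwa [e, len_dlab, show (rev w[k]).1 = w[k].1 from rfl, ← len_dlab] at this

theorem fa_strip {M : Gen g → G} {W : Set (List (Dt g))} (hW : Fam M W) {w : List (Dt g)}
    (hw : w ∈ W) {j k : ℕ} (h : j < k) (hk : k < w.length) (e : w[k] = rev w[j]) :
    3 ≤ cosh ((dist (vtx M 1 w (j + 1)) (vtx M 1 w k) +
      dist (vtx M 1 w j) (vtx M 1 w (k + 1))) / 2) := by
  have e1 : (w.take (k + 1)).drop j = w[j] :: ((w.take k).drop (j + 1) ++ [rev w[j]]) := by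
    rw [List.take_succ_eq_append_getElem hk, List.drop_append_of_le_length (by
      rw [List.length_take_of_le hk.le]; exact h.le), List.drop_eq_getElem_cons (by
        rw [List.length_take_of_le hk.le]; exact h), List.getElem_take, e, List.cons_append]
  have h1 : (w.take (k + 1)).drop j ++ (w.drop (k + 1) ++ w.take j) ∈ W := by
    rw [← List.append_assoc]
    refine hW.rot _ _ ?_
    rwa [← List.append_assoc, fa_split w (by omega)]
  rw [e1, List.cons_append, List.append_assoc, List.singleton_append] at h1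
  have := (hW.s2 _ _ _ h1).strip
  rw [fa_dist M h hk.le, fa_dist M (by omega) hk, e1]
  simpa only [Nat.succ_eq_add_one, lab_cons, lab_append, dlab_rev, lab_nil, mul_one, ge_iff_le, mul_assoc] using this

/- Paper F3 and the F1 table. -/
theorem Fam.geo {M : Gen g → G} {W : Set (List (Dt g))} (hW : Fam M W) {w : List (Dt g)}
    (hw : w ∈ W) : Geo w.length (vtx M 1 w) := by
  have hn := (hW.full w hw).1
  have hp : ∀ k (hk : k < w.length), ∃ (k' : ℕ) (hk' : k' < w.length), w[k'] = rev w[k] ∧ k' ≠ k :=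
    fun k hk => by
      obtain ⟨k', hk', e⟩ := List.getElem_of_mem ((hW.full w hw).2 (rev w[k]))
      exact ⟨k', hk', e, fun a => by subst a; exact rev_ne _ e.symm⟩
  refine ⟨by rw [vtx_length (hW.pm w hw), vtx_zero], fun k hk => ?_, fun k hk j hj => ?_,
    fun j hj k hk hne => ?_⟩
  · exact dist_pos.1 (fa_side M hk ▸ hW.f0 hw _)
  · obtain ⟨k', hk', e, a⟩ := hp k hk
    by_cases b : (k < k ↔ k < j) ↔ ¬(k' < k ↔ k' < j)
    · exact le_max_of_le_left (fa_idx hW hw hk hk' e hk.le hj b)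
    · exact le_max_of_le_right (fa_idx hW hw hk hk' e hk hj (by omega))
  · obtain ⟨j', hj', e, a⟩ := hp j hj
    obtain ⟨k', hk', e', a'⟩ := hp k hk
    have s := @fa_idx _ _ _ hW _ hw _ _ hj hj' e
    have s' := @fa_idx _ _ _ hW _ hw _ _ hk hk' e'
    by_cases b : j' = k
    · subst b
      have c : dist (vtx M 1 w j) (vtx M 1 w (j + 1)) = dist (vtx M 1 w j') (vtx M 1 w (j' + 1)) := by
        rw [fa_side M hj, fa_side M hj', e, len_dlab, len_dlab]
        rfl
      have c1 := s hj.le hj'.le (by omega)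
      have c2 := s hj hj' (by omega)
      refine Or.inl ⟨by linarith only [c, c1, c2], Or.inr (Or.inr ⟨c, c1, c2, ?_⟩)⟩
      rcases lt_or_gt_of_ne hne with d | d
      · exact fa_strip hW hw d hj' e
      · have := fa_strip hW hw d hj (by rw [e, rev_rev])
        rwa [add_comm (dist _ _), dist_comm (vtx M 1 w j'), dist_comm (vtx M 1 w (j' + 1))] at this
    · have b' : k' ≠ j := fun c => by
        subst c
        exact b (hn.getElem_inj_iff.1 (by rw [e, e', rev_rev]))
      by_cases c : (j < j ↔ j < k) ↔ ¬(j' < j ↔ j' < k) <;>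
        by_cases c' : (k < j ↔ k < k) ↔ ¬(k' < j ↔ k' < k)
      · have := s hj.le hk (by omega)
        have := s' hj hk.le (by omega)
        exact Or.inr ⟨by linarith, Or.inr (max_le (s hj.le hk.le c) (s' hj.le hk.le c'))⟩
      · have := s hj.le hk.le c
        have := s' hj hk (by omega)
        exact Or.inl ⟨by linarith, Or.inr (Or.inl
          (max_le (s hj.le hk (by omega)) (s' hj.le hk (by omega))))⟩
      · have := s hj hk (by omega)
        have := s' hj.le hk.le c'
        exact Or.inl ⟨by linarith, Or.inl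
          (max_le (s hj hk.le (by omega)) (s' hj hk.le (by omega)))⟩
      · have := s hj hk.le (by omega)
        have := s' hj.le hk (by omega)
        exact Or.inr ⟨by linarith, Or.inl (max_le (s hj hk (by omega)) (s' hj hk (by omega)))⟩

end Pool.Agent.MP_596265_gt

end

-- part FB
section

namespace Pool.Agent.MP_596265_gt

open scoped UpperHalfPlane
open Real

variable {g : ℕ}

theorem fb_pm_rot {a b : G} (h : PM (a * b) 1) : PM (b * a) 1 := by
  have h1 := ((PM.refl a⁻¹).mul h).mul (PM.refl a)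
  have e1 : a⁻¹ * (a * b) * a = b * a := by group
  have e2 : a⁻¹ * 1 * a = 1 := by group
  rwa [e1, e2] at h1

theorem fb_pm_right {a b : G} (h : PM (a * b) 1) (ha : PM a 1) : PM b 1 := by
  have h1 := ha.inv.mul h
  have e1 : a⁻¹ * (a * b) = b := by group
  have e2 : (1 : G)⁻¹ * 1 = 1 := by group
  rwa [e1, e2] at h1

theorem fb_len_zero {a : G} (h : PM a 1) : len a = 0 := by rw [h.len_eq, len_one]

theorem fb_len_eq {a b : G} (h : PM (a * b) 1) : len a = len b := by
  have h1 := h.mul (PM.refl b⁻¹)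
  rw [mul_inv_cancel_right, one_mul] at h1
  rw [h1.len_eq, len_inv]

theorem fb_swap {M : Gen g → G} {W : Set (List (Dt g))} (hW : Fam M W)
    {P N Z : List (Dt g)} (h : P ++ N ++ Z ∈ W) (h1 : PM (lab M P) 1) : N ++ P ++ Z ∈ W := by
  have h2 : P ++ (N ++ Z) ∈ W := by rwa [← List.append_assoc]
  exact hW.hole P N Z h (hW.f2 h2 (fb_len_zero h1)).1 h1

theorem fb_compl {M : Gen g → G} {W : Set (List (Dt g))} (hW : Fam M W)
    {P R : List (Dt g)} (h : P ++ R ∈ W) (h1 : PM (lab M P) 1) : PM (lab M R) 1 := by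
  have h2 := hW.pm _ h
  rw [lab_append] at h2
  exact fb_pm_right h2 h1

theorem fb_turn {M : Gen g → G} {W : Set (List (Dt g))} (hW : Fam M W)
    {A B R : List (Dt g)} (h : (A ++ B) ++ R ∈ W) (h1 : PM (lab M (A ++ B)) 1) :
    (B ++ A) ++ R ∈ W := by
  have h2 : R ++ A ++ B ∈ W := by
    rw [List.append_assoc]; exact hW.rot _ _ h
  have h3 := hW.rot _ _ (fb_swap hW h2 (fb_compl hW h h1))
  rwa [List.append_assoc]

theorem fb_extract {M : Gen g → G} {W : Set (List (Dt g))} (hW : Fam M W) (n : ℕ) :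
    ∀ U K : List (Dt g), U.length ≤ n → U ++ K ∈ W → U ≠ [] → len (lab M U) = 0 →
      ∃ P Y, P ++ Y ++ K ∈ W ∧ SimpleW M P := by
  induction n with
  | zero =>
    intro U K hn _ hU _
    exact absurd (List.length_eq_zero_iff.1 (Nat.le_zero.1 hn)) hU
  | succ n ih =>
    intro U K hn h hU h0
    by_cases hs : ∀ A V B, U = A ++ V ++ B → V ≠ [] → (A ≠ [] ∨ B ≠ []) → 0 < len (lab M V)
    · exact ⟨U, [], by rwa [List.append_nil], hU, (hW.f2 h h0).2, hs⟩
    · push Not at hs
      obtain ⟨A, V, B, rfl, hV, hAB, hl⟩ := hs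
      have hl0 : len (lab M V) = 0 := le_antisymm hl (len_nonneg _)
      have h1 : A ++ (V ++ (B ++ K)) ∈ W := by simpa only [List.append_assoc] using h
      have h2 : V ++ (B ++ K) ++ A ∈ W := hW.rot _ _ h1
      have h3 : V ++ ((B ++ K) ++ A) ∈ W := by simpa only [List.append_assoc] using h2
      have h4 := fb_swap hW h2 (hW.f2 h3 hl0).2
      have h5 : (B ++ K) ++ (V ++ A) ∈ W := by simpa only [List.append_assoc] using h4
      have h6 : V ++ (A ++ B ++ K) ∈ W := by
        simpa only [List.append_assoc] using hW.rot _ _ h5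
      have hlen : V.length ≤ n := by
        simp only [List.length_append] at hn
        rcases hAB with hA | hB
        · have := List.length_pos_iff.2 hA; omega
        · have := List.length_pos_iff.2 hB; omega
      obtain ⟨P, Y, hP, hS⟩ := ih V _ hlen h6 hV hl0
      exact ⟨P, Y ++ A ++ B, by simpa only [List.append_assoc] using hP, hS⟩

theorem Fam.two_pieces {M : Gen g → G} {W : Set (List (Dt g))} (hW : Fam M W)
    {U K : List (Dt g)} (h : U ++ K ∈ W) (hU : U ≠ []) (hK : K ≠ []) (h0 : len (lab M U) = 0) :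
    ∃ P N Z, P ++ N ++ Z ∈ W ∧ SimpleW M P ∧ SimpleW M N := by
  obtain ⟨P, Y, hP, hS⟩ := fb_extract hW _ U K le_rfl h hU h0
  have h1 : P ++ (Y ++ K) ∈ W := by rwa [← List.append_assoc]
  have h2 := fb_len_zero (fb_compl hW h1 hS.2.1)
  have h3 : Y ++ K ≠ [] := fun e => hK (List.append_eq_nil_iff.1 e).2
  obtain ⟨N, Z, hN, hT⟩ := fb_extract hW _ (Y ++ K) P le_rfl (hW.rot _ _ h1) h3 h2
  exact ⟨P, N, Z, by rw [List.append_assoc]; exact hW.rot _ _ hN, hS, hT⟩

theorem SimpleW.rot {M : Gen g → G} {A B : List (Dt g)} (h : SimpleW M (A ++ B)) :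
    SimpleW M (B ++ A) := by
  obtain ⟨h0, h1, h2⟩ := h
  refine ⟨fun e => h0 ?_, ?_, ?_⟩
  · obtain ⟨rfl, rfl⟩ := List.append_eq_nil_iff.1 e
    rfl
  · rw [lab_append] at h1 ⊢
    exact fb_pm_rot h1
  · intro X U Y e hU hXY
    rw [List.append_assoc] at e
    rcases List.append_eq_append_iff.1 e with ⟨C, rfl, rfl⟩ | ⟨C, rfl, e'⟩
    · refine h2 C U (Y ++ B) (by simp only [List.append_assoc]) hU ?_
      by_contra hc
      push Not at hc
      obtain ⟨rfl, hc⟩ := hc
      obtain ⟨rfl, rfl⟩ := List.append_eq_nil_iff.1 hc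
      simp at hXY
    · rcases List.append_eq_append_iff.1 e' with ⟨D, rfl, rfl⟩ | ⟨D, rfl, rfl⟩
      · refine h2 (A ++ X) U D (by simp only [List.append_assoc]) hU ?_
        by_contra hc
        push Not at hc
        obtain ⟨hc, rfl⟩ := hc
        obtain ⟨rfl, rfl⟩ := List.append_eq_nil_iff.1 hc
        simp at hXY
      · have h3 : 0 < len (lab M (Y ++ X)) := by
          refine h2 D (Y ++ X) C (by simp only [List.append_assoc]) (fun e => ?_) ?_
          · obtain ⟨rfl, rfl⟩ := List.append_eq_nil_iff.1 e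
            simp at hXY
          · by_contra hc
            push Not at hc
            obtain ⟨rfl, rfl⟩ := hc
            simp at hU
        have h4 : PM (lab M D * (lab M (Y ++ X) * lab M C)) 1 := by
          simpa only [lab_append, mul_assoc] using h1
        have h5 : PM (lab M (Y ++ X) * lab M (C ++ D)) 1 := by
          simpa only [lab_append, mul_assoc] using fb_pm_rot h4
        rwa [fb_len_eq h5] at h3

theorem fb_rot_trans {P A B C D : List (Dt g)} (h : P = A ++ B) (e : B ++ A = C ++ D) :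
    ∃ A' B', P = A' ++ B' ∧ B' ++ A' = D ++ C := by
  subst h
  rcases List.append_eq_append_iff.1 e with ⟨E, rfl, rfl⟩ | ⟨E, rfl, rfl⟩
  · exact ⟨E, D ++ B, by simp only [List.append_assoc], by simp only [List.append_assoc]⟩
  · exact ⟨A ++ C, E, by simp only [List.append_assoc], by simp only [List.append_assoc]⟩

theorem fb_corner {P : List (Dt g)} (hn : P.Nodup) (hP : SP P) (n : ℕ) :
    ∀ A B J K : List (Dt g), P = A ++ B → B ++ A = J ++ K → J ≠ [] → SP J → J.length ≤ n →
      ∃ A B, P = A ++ B ∧ ∀ U₁ U₂, B ++ A = U₁ ++ U₂ → U₁ ≠ [] → U₂ ≠ [] → ¬ SP U₂ := by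
  induction n with
  | zero =>
    intro A B J K _ _ hJ _ hl
    exact absurd (List.length_eq_zero_iff.1 (Nat.le_zero.1 hl)) hJ
  | succ n ih =>
    intro A B J K h e hJ hS hl
    obtain ⟨j, J₂, rfl⟩ := List.exists_cons_of_ne_nil hJ
    have e1 : B ++ A = [j] ++ (J₂ ++ K) := e
    obtain ⟨A', B', h', e'⟩ := fb_rot_trans h e1
    by_cases hc : ∀ U₁ U₂, B' ++ A' = U₁ ++ U₂ → U₁ ≠ [] → U₂ ≠ [] → ¬ SP U₂
    · exact ⟨A', B', h', hc⟩
    · push Not at hc
      obtain ⟨U₁, U₂, eU, h1, h2, hU⟩ := hc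
      have hp : P.Perm (U₂ ++ U₁) := by
        rw [h']
        refine List.perm_append_comm.trans ?_
        rw [eU]
        exact List.perm_append_comm
      have hn' : (U₂ ++ U₁).Nodup := hp.nodup_iff.1 hn
      refine ih A' B' U₁ U₂ h' eU h1 (SP.compl hn' (hP.perm hp) hU) ?_
      have hr : rev j ∈ J₂ := by
        rcases List.mem_cons.1 (hS j List.mem_cons_self) with hr | hr
        · exact absurd hr (rev_ne j)
        · exact hr
      have e2 : J₂ ++ (K ++ [j]) = U₁ ++ U₂ := by rw [← eU, e', List.append_assoc]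
      rcases List.append_eq_append_iff.1 e2 with ⟨C, rfl, e3⟩ | ⟨C, rfl, -⟩
      · exfalso
        have hj : j ∈ U₂ := by
          rcases List.append_eq_append_iff.1 e3 with ⟨D, -, e4⟩ | ⟨D, -, rfl⟩
          · rcases List.singleton_eq_append_iff.1 e4 with ⟨-, rfl⟩ | ⟨-, rfl⟩
            · exact List.mem_singleton_self j
            · exact absurd rfl h2
          · simp
        exact List.disjoint_of_nodup_append hn' (hU j hj) (List.mem_append_left _ hr)
      · simp only [List.length_cons, List.length_append] at hl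
        omega

/-- A corner at which the word does not split into self-paired parts. -/
theorem ns_corner {P : List (Dt g)} (hn : P.Nodup) (hP : SP P) (h0 : P ≠ []) :
    ∃ A B, P = A ++ B ∧ ∀ U₁ U₂, B ++ A = U₁ ++ U₂ → U₁ ≠ [] → U₂ ≠ [] → ¬ SP U₂ :=
  fb_corner hn hP _ P [] P [] (by simp) (by simp) h0 hP le_rfl

theorem Fam.config {M : Gen g → G} {W : Set (List (Dt g))} (hW : Fam M W)
    {A B C D Z : List (Dt g)} (h : (A ++ B) ++ (C ++ D) ++ Z ∈ W) (h1 : PM (lab M (A ++ B)) 1)
    (h2 : PM (lab M (C ++ D)) 1) : (B ++ A) ++ (D ++ C) ++ Z ∈ W := by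
  have h3 := fb_swap hW h h1
  rw [List.append_assoc (C ++ D)] at h3
  have h4 := fb_turn hW h3 h2
  rw [← List.append_assoc (D ++ C)] at h4
  have h5 : PM (lab M (D ++ C)) 1 := by
    rw [lab_append] at h2 ⊢
    exact fb_pm_rot h2
  have h6 := fb_swap hW h4 h5
  rw [List.append_assoc (A ++ B)] at h6
  have h7 := fb_turn hW h6 h1
  rwa [← List.append_assoc (B ++ A)] at h7

theorem Fam.swap_pieces {M : Gen g → G} {W : Set (List (Dt g))} (hW : Fam M W)
    {P N Z : List (Dt g)} (h : P ++ N ++ Z ∈ W) (h1 : PM (lab M P) 1) : N ++ P ++ Z ∈ W :=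
  fb_swap hW h h1

theorem fb_vtx_rot {M : Gen g → G} {A B : List (Dt g)} (h : PM (lab M (A ++ B)) 1) {i : ℕ}
    (hi : i ≤ (B ++ A).length) :
    ∃ i' ≤ (A ++ B).length, vtx M 1 (A ++ B) i' = lab M A • vtx M 1 (B ++ A) i := by
  rw [List.length_append] at hi ⊢
  unfold vtx
  rcases le_total i B.length with hb | hb
  · refine ⟨A.length + i, by omega, ?_⟩
    rw [List.take_length_add_append, List.take_append_of_le_length hb, lab_append, one_mul,
      one_mul, mul_smul]
  · obtain ⟨k, rfl⟩ := Nat.exists_eq_add_of_le hb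
    refine ⟨k, by omega, ?_⟩
    rw [List.take_length_add_append, List.take_append_of_le_length (by omega), lab_append, one_mul,
      one_mul, ← mul_smul, ← mul_assoc, ← lab_append]
    have h1 := (h.mul (PM.refl (lab M (A.take k)))).smul_eq UpperHalfPlane.I
    rw [h1, one_mul]

/-- The distances between vertices do not depend on the rotation. -/
theorem dist_vtx_rot {M : Gen g → G} {A B : List (Dt g)} (h : PM (lab M (A ++ B)) 1) {i j : ℕ}
    (hi : i ≤ (B ++ A).length) (hj : j ≤ (B ++ A).length) :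
    ∃ i' ≤ (A ++ B).length, ∃ j' ≤ (A ++ B).length,
      dist (vtx M 1 (B ++ A) i) (vtx M 1 (B ++ A) j) =
        dist (vtx M 1 (A ++ B) i') (vtx M 1 (A ++ B) j') := by
  obtain ⟨i', hi', ei⟩ := fb_vtx_rot h hi
  obtain ⟨j', hj', ej⟩ := fb_vtx_rot h hj
  exact ⟨i', hi', j', hj', by rw [ei, ej, dist_smul]⟩

end Pool.Agent.MP_596265_gt

end

-- part GE
section

namespace Pool.Agent.MP_596265_gt

open scoped UpperHalfPlane
open Real

variable {g : ℕ}

theorem ge_det_sub {p q a b : Pt} (ha : a ∈ openSegment ℝ p q) (hb : b ∈ openSegment ℝ a q)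
    (z : Pt) : ∃ c : ℝ, 0 < c ∧ det3 a b z = c * det3 p q z := by
  obtain ⟨s, t, hs, ht, hst, rfl⟩ := ha
  obtain ⟨s', t', hs', ht', hst', rfl⟩ := hb
  refine ⟨t' * s, mul_pos ht' hs, ?_⟩
  have e1 : t = 1 - s := by linarith
  have e2 : s' = 1 - t' := by linarith only [hst']
  subst e1 e2
  simp only [det3, Prod.fst_add, Prod.snd_add, Prod.smul_fst, Prod.smul_snd, smul_eq_mul]
  ring

theorem ge_det_on {p q m : Pt} (hm : m ∈ openSegment ℝ p q) : det3 p q m = 0 := by
  obtain ⟨s, t, hs, ht, hst, rfl⟩ := hm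
  have e1 : t = 1 - s := by linarith
  subst e1
  simp only [det3, Prod.fst_add, Prod.snd_add, Prod.smul_fst, Prod.smul_snd, smul_eq_mul]
  ring

theorem ge_det_comb (p q z m : Pt) (s t : ℝ) (hst : s + t = 1) :
    det3 p q (s • z + t • m) = s * det3 p q z + t * det3 p q m := by
  have e1 : t = 1 - s := by linarith
  subst e1
  simp only [det3, Prod.fst_add, Prod.snd_add, Prod.smul_fst, Prod.smul_snd, smul_eq_mul]
  ring

theorem ge_log_pos : 0 < log (8 / 7 : ℝ) := log_pos (by norm_num)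

/-- A point of the small triangle is a point of the half ball. -/
theorem ge_tri {n : ℕ} {V : ℕ → ℍ} {j : ℕ} {ε : ℝ} {m a b c : ℍ} (D : Dent n V j ε m a b c)
    {z : Pt} (hz : Tri ε (Φ a) (Φ b) (Φ c) z) :
    ∃ w : ℍ, Φ w = z ∧ dist m w ≤ log (8 / 7) ∧ 0 < ε * hdet (V j) (V (j + 1)) w := by
  obtain ⟨u, hu, hzu⟩ := hz.hull
  obtain ⟨u', rfl⟩ := exists_Φ (InH.segment (Φ_inH a) (Φ_inH b) hu)
  obtain ⟨w, rfl⟩ := exists_Φ (InH.segment (Φ_inH u') (Φ_inH c) hzu)
  have h1 : dist m u' ≤ log (8 / 7) :=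
    (Seg.dist_le (p := a) (q := b) (z := u') hu m).trans (max_le D.da D.db)
  have h2 : dist m w ≤ log (8 / 7) :=
    (Seg.dist_le (p := u') (q := c) (z := w) hzu m).trans (max_le h1 D.dc)
  refine ⟨w, rfl, h2, ?_⟩
  obtain ⟨k, hk, e⟩ := ge_det_sub D.ha D.hb (Φ w)
  have h3 := hz.1
  rw [e, mul_left_comm] at h3
  exact (mul_pos_iff_of_pos_left hk).1 h3

/- Paper 7e. -/
theorem ge_disj {n : ℕ} {V : ℕ → ℍ} (h : Geo n V) {j j' : ℕ} (hj : j < n) (hj' : j' < n)
    (hjj : j ≠ j') {ε : ℝ} {m a b c m' a' b' c' : ℍ} (D : Dent n V j ε m a b c)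
    (D' : Dent n V j' ε m' a' b' c') {z : Pt} (hz : Tri ε (Φ a) (Φ b) (Φ c) z)
    (hz' : Tri ε (Φ a') (Φ b') (Φ c') z) : False := by
  obtain ⟨w, rfl, d1, p1⟩ := ge_tri D hz
  obtain ⟨w', e, d2, p2⟩ := ge_tri D' hz'
  obtain rfl : w' = w := Φ_inj e
  have hρ := ge_log_pos
  have hε : ε ≠ 0 := by
    rintro rfl
    simp at p1
  have dm : dist m m' ≤ 2 * log (8 / 7) := by
    have := dist_triangle m w' m'
    rw [dist_comm w' m'] at this
    linarith only [d2, d1, this]
  rcases lt_trichotomy 0 (ε * hdet (V j) (V (j + 1)) m') with h0 | h0 | h0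
  · exact D.emp m' dm h0 j' hj' D'.hm.seg
  · have h1 := D.line m' dm ((mul_eq_zero.1 h0.symm).resolve_left hε)
    have h2 := h1.ne (h.ne j hj)
    rcases (h.meet hj hj' hjj h1.seg D'.hm.seg).1 with h3 | h3
    · exact h2.1 h3
    · exact h2.2 h3
  · set α := ε * hdet (V j) (V (j + 1)) w' with hα
    set β := ε * hdet (V j) (V (j + 1)) m' with hβ
    have hd : 0 < α - β := by linarith only [p1, h0]
    have hs : 0 < -β / (α - β) := div_pos (by linarith only [h0]) hd
    have ht : 0 < α / (α - β) := div_pos p1 hd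
    have hst : -β / (α - β) + α / (α - β) = 1 := by
      rw [← add_div, div_eq_one_iff_eq hd.ne']
      ring
    have hy : (-β / (α - β)) • Φ w' + (α / (α - β)) • Φ m' ∈ segment ℝ (Φ w') (Φ m') :=
      ⟨_, _, hs.le, ht.le, hst, rfl⟩
    obtain ⟨y, ey⟩ := exists_Φ (InH.segment (Φ_inH w') (Φ_inH m') hy)
    have hy' : Seg w' m' y := by
      unfold Seg
      rw [ey]
      exact hy
    have e1 : ε * hdet (V j) (V (j + 1)) y = 0 := by
      have : hdet (V j) (V (j + 1)) y = -β / (α - β) * hdet (V j) (V (j + 1)) w' +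
          α / (α - β) * hdet (V j) (V (j + 1)) m' := by
        unfold hdet
        rw [ey]
        exact ge_det_comb _ _ _ _ _ _ hst
      rw [this, mul_add, mul_left_comm, mul_left_comm ε, ← hα, ← hβ]
      ring
    have e2 : 0 < ε * hdet (V j') (V (j' + 1)) y := by
      have h0' : hdet (V j') (V (j' + 1)) m' = 0 := ge_det_on D'.hm
      have : hdet (V j') (V (j' + 1)) y = -β / (α - β) * hdet (V j') (V (j' + 1)) w' +
          α / (α - β) * hdet (V j') (V (j' + 1)) m' := by
        unfold hdet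
        rw [ey]
        exact ge_det_comb _ _ _ _ _ _ hst
      rw [this, h0', mul_zero, add_zero, mul_left_comm]
      exact mul_pos hs p2
    have d3 : dist m y ≤ 2 * log (8 / 7) := (hy'.dist_le m).trans (max_le (by linarith only [d1, hρ]) dm)
    have d4 : dist m' y ≤ 2 * log (8 / 7) :=
      (hy'.dist_le m').trans (max_le (by linarith only [d2, hρ]) (by rw [dist_self]; linarith only [hρ]))
    exact D'.emp y d4 e2 j hj (D.line y d3 ((mul_eq_zero.1 e1).resolve_left hε)).seg

theorem ge_main {n : ℕ} {V : ℕ → ℍ} (h : Geo n V) (hP : SimpleP n fun k => Φ (V k))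
    (J : Finset ℕ) (hJ : ∀ j ∈ J, j < n ∧ 3 ≤ cosh (dist (V j) (V (j + 1)))) :
    J.card * (π / 180) ≤ |harea n V| := by
  obtain ⟨ν, hν⟩ := exists_ori hP
  have hD : ∀ j, ∃ m a b c, j ∈ J → Dent n V j ν m a b c := by
    intro j
    by_cases hj : j ∈ J
    · obtain ⟨m, a, b, c, D⟩ := h.dent (hJ j hj).1 (hJ j hj).2 hν.sgn
      exact ⟨m, a, b, c, fun _ => D⟩
    · exact ⟨V 0, V 0, V 0, V 0, fun h' => absurd h' hj⟩
  choose m a b c D using hD
  have hρ := ge_log_pos
  have key := tri_bound hP (fun k => Φ_inH (V k)) hν J (fun j hj => (hJ j hj).1)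
    (fun j => Φ (a j)) (fun j => Φ (b j)) (fun j => Φ (c j)) (fun j _ => Φ_inH (c j))
    (fun j hj => ⟨(D j hj).ha, (D j hj).hb⟩) (fun j hj => (D j hj).hc)
    (fun j hj z hz k hk => by
      obtain ⟨w, rfl, d1, p1⟩ := ge_tri (D j hj) hz
      exact (D j hj).emp w (by linarith only [hρ, d1]) p1 k hk)
    (fun j hj j' hj' hjj z hz hz' =>
      ge_disj h (hJ j hj).1 (hJ j' hj').1 hjj (D j hj) (D j' hj') hz hz')
  have h1 : (J.card : ℝ) * (π / 180) = ∑ _j ∈ J, π / 180 := by
    rw [Finset.sum_const, nsmul_eq_mul]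
  have h2 : ν * harea n V ≤ |harea n V| := by
    rcases hν.sgn with rfl | rfl
    · rw [one_mul]
      exact le_abs_self _
    · rw [neg_one_mul]
      exact neg_le_abs _
  rw [h1]
  refine le_trans (Finset.sum_le_sum fun j hj => (D j hj).area) (le_trans ?_ h2)
  rw [harea_eq]
  exact key

/- Paper 7e and section 8. -/
theorem Geo.area {n : ℕ} {V : ℕ → ℍ} (h : Geo n V) (hS : HSimple n V) (J : Finset ℕ)
    (hJ : ∀ j ∈ J, j < n ∧ 3 ≤ cosh (dist (V j) (V (j + 1)))) :
    J.card * (π / 180) ≤ |harea n V| := by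
  classical
  obtain ⟨A, hA⟩ := exists_generic ((Finset.range (n + 1)).image V)
  have hm : ∀ k ≤ n, V k ∈ (Finset.range (n + 1)).image V := fun k hk =>
    Finset.mem_image_of_mem V (Finset.mem_range.2 (Nat.lt_succ_of_le hk))
  have hP := (hS.smul A).simpleP fun k hk =>
    hA _ (hm k hk.le) _ (hm (k + 1) hk) (h.ne k hk)
  rw [← harea_smul A h.cl]
  refine ge_main (h.smul A) hP J fun j hj => ⟨(hJ j hj).1, ?_⟩
  rw [dist_smul]
  exact (hJ j hj).2

end Pool.Agent.MP_596265_gt

end

-- part GF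
section

namespace Pool.Agent.MP_596265_gt

open scoped UpperHalfPlane
open Real

variable {g : ℕ}

theorem gf_lift {p q : ℍ} {u : Pt} (h : u ∈ segment ℝ (Φ p) (Φ q)) :
    ∃ w : ℍ, Φ w = u ∧ Seg p q w := by
  obtain ⟨w, hw⟩ := exists_Φ (InH.segment (Φ_inH p) (Φ_inH q) h)
  refine ⟨w, hw, ?_⟩
  unfold Seg
  rw [hw]
  exact h

theorem gf_vert {y z w : ℍ} (hre : w.re = z.re) (hd : dist y w ≤ dist y z) :
    (z.im - w.im) * ((y.re - z.re) ^ 2 + y.im ^ 2 - w.im * z.im) ≤ 0 := by
  have h1 : cosh (dist y w) ≤ cosh (dist y z) := by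
    rw [cosh_le_cosh, abs_of_nonneg dist_nonneg, abs_of_nonneg dist_nonneg]
    exact hd
  rw [cosh_dist_Φ, cosh_dist_Φ] at h1
  have hy := y.im_pos
  have hz := z.im_pos
  have hw := w.im_pos
  rw [div_le_div_iff₀ (by positivity) (by positivity)] at h1
  simp only [Φ] at h1
  rw [hre] at h1
  have h2 : 2 * y.im * ((z.im - w.im) * ((y.re - z.re) ^ 2 + y.im ^ 2 - w.im * z.im)) ≤ 0 := by
    linarith
  by_contra hc
  push Not at hc
  have := mul_pos (mul_pos (two_pos : (0 : ℝ) < 2) hy) hc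
  linarith

/- Paper F. -/
theorem wn_ball {n : ℕ} {V : ℕ → ℍ} (hcl : V n = V 0) {z : ℍ} (y : ℍ)
    (hz : ∀ k < n, ¬ Seg (V k) (V (k + 1)) z) (hn : wn n (fun k => Φ (V k)) (Φ z) ≠ 0) :
    ∃ k < n, dist y z < dist y (V k) := by
  by_contra hc
  push Not at hc
  apply hn
  have hc' : ∀ k < n, dist y (V (k + 1)) ≤ dist y z := by
    intro k hk
    rcases Nat.lt_or_ge (k + 1) n with h | h
    · exact hc _ h
    · have h1 : k + 1 = n := by omega
      rw [h1, hcl]
      exact hc 0 (by omega)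
  have key : ∀ k < n, ∀ u ∈ segment ℝ (Φ (V k)) (Φ (V (k + 1))), u.1 = (Φ z).1 →
      ∃ w : ℍ, u.2 = z.re ^ 2 + w.im ^ 2 ∧ w.im ≠ z.im ∧
        (z.im - w.im) * ((y.re - z.re) ^ 2 + y.im ^ 2 - w.im * z.im) ≤ 0 := by
    intro k hk u hu h1
    obtain ⟨w, hw, hs⟩ := gf_lift hu
    have hre : w.re = z.re := by
      rw [← hw] at h1
      exact h1
    refine ⟨w, ?_, ?_, gf_vert hre ?_⟩
    · rw [← hw, ← hre]
      rfl
    · intro him
      have hwz : w = z := UpperHalfPlane.ext_re_im hre him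
      exact hz k hk (hwz ▸ hs)
    · exact (hs.dist_le y).trans (max_le (hc k hk) (hc' k hk))
  have hzp := z.im_pos
  refine wn_vertical (V := fun k => Φ (V k)) (by simp only [hcl]) ?_
  rcases le_or_gt ((y.re - z.re) ^ 2 + y.im ^ 2) (z.im ^ 2) with h | h
  · left
    intro k hk u hu h1
    obtain ⟨w, h2, h3, h4⟩ := key k hk u hu h1
    have hwp := w.im_pos
    have h5 : w.im < z.im := by
      by_contra h6
      have h7 : z.im < w.im := lt_of_le_of_ne (not_lt.1 h6) (Ne.symm h3)
      have h8 : z.im * z.im < w.im * z.im := mul_lt_mul_of_pos_right h7 hzp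
      have h9 : 0 < (w.im - z.im) * (w.im * z.im - ((y.re - z.re) ^ 2 + y.im ^ 2)) :=
        mul_pos (by linarith only [h7]) (by linarith only [h, h8])
      linarith only [h4, h9]
    rw [h2]
    show z.re ^ 2 + w.im ^ 2 < z.re ^ 2 + z.im ^ 2
    nlinarith only [hwp, h5]
  · right
    intro k hk u hu h1
    obtain ⟨w, h2, h3, h4⟩ := key k hk u hu h1
    have hwp := w.im_pos
    have h5 : z.im < w.im := by
      by_contra h6
      have h7 : w.im < z.im := lt_of_le_of_ne (not_lt.1 h6) h3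
      have h8 : w.im * z.im < z.im * z.im := mul_lt_mul_of_pos_right h7 hzp
      have h9 : 0 < (z.im - w.im) * ((y.re - z.re) ^ 2 + y.im ^ 2 - w.im * z.im) :=
        mul_pos (by linarith only [h7]) (by linarith only [h, h8])
      linarith only [h4, h9]
    rw [h2]
    show z.re ^ 2 + z.im ^ 2 < z.re ^ 2 + w.im ^ 2
    nlinarith only [hzp, h5]

theorem gf_base {n : ℕ} {V : ℕ → ℍ} (h : HSimple n V) {k : ℕ} (h0 : 0 < k) (h1 : k + 1 < n) :
    ¬ Seg (V k) (V (k + 1)) (V 0) := by
  intro hs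
  rcases h.meet 0 k h0 (by omega) (V 0) (Seg.left _ _) hs with ⟨h2, h3⟩ | ⟨_, h2, _⟩
  · rw [h2] at h3
    exact h.ne 0 h.pos h3
  · omega

theorem gf_dom {m n r : ℕ} (Q : ℕ → ℕ → ℍ) (U : ℕ → ℍ) (o : ℍ) (S : ℝ) (hm : 0 < m)
    (hQ : ∀ c < m, HSimple n (Q c)) (ho : ∀ c < m, Q c 0 = o) (hS : ∀ c < m, harea n (Q c) = S)
    (hc : ∀ φ : ℍ → ℝ, ∑ c ∈ Finset.range m, φ (Q c 1) = ∑ c ∈ Finset.range m, φ (Q c (n - 1)))
    (hU : HSimple r U) (hU0 : U 0 = o)
    (hsep : ∀ c < m, ∀ j < r, ∀ k < n, ∀ z, Seg (U j) (U (j + 1)) z →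
      Seg (Q c k) (Q c (k + 1)) z → z = o)
    (hv : ∀ c < m, ∀ k < n, (Q c k).re ≠ (Q c (k + 1)).re) :
    ∃ c < m, ∀ i ≤ r, ∀ j ≤ r, ∃ k ≤ n, ∃ k' ≤ n, dist (U i) (U j) < dist (Q c k) (Q c k') := by
  have hsp : ∀ c < m, SimpleP n fun k => Φ (Q c k) := fun c h => (hQ c h).simpleP (hv c h)
  have hpos : ∀ c < m, ∀ ν, Ori n (fun k => Φ (Q c k)) ν → 0 < ν * S := by
    intro c h ν hν
    have := ori_area_pos (hsp c h) (fun k => Φ_inH _) hν
    rwa [← harea_eq, hS c h] at this
  obtain ⟨ν, hν⟩ := exists_ori (hsp 0 hm)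
  have hori : ∀ c < m, Ori n (fun k => Φ (Q c k)) ν := by
    intro c h
    obtain ⟨μ, hμ⟩ := exists_ori (hsp c h)
    have h1 := hpos 0 hm ν hν
    have h2 := hpos c h μ hμ
    have h3 : μ = ν := by
      rcases hν.sgn with a | a <;> rcases hμ.sgn with b | b <;> rw [a] at h1 <;> rw [b] at h2
      · rw [a, b]
      · linarith only [h1, h2]
      · linarith only [h1, h2]
      · rw [a, b]
    exact h3 ▸ hμ
  have hr : 0 < r := hU.pos
  have hr2 : 1 < r := by
    by_contra h
    have h1 : r = 1 := by omega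
    have h2 := hU.cl
    rw [h1] at h2
    exact hU.ne 0 hr h2.symm
  obtain ⟨c, hcm, hw⟩ := petal (fun c k => Φ (Q c k)) (Φ o) ν hm hsp
    (fun c h => by simp only [ho c h]) hori (fun φ => hc fun w => φ (Φ w)) (Φ (U 1)) (by
      intro c h k h0 h1
      rw [Set.disjoint_left]
      intro u hu hu'
      obtain ⟨w, hw, hs⟩ := gf_lift hu
      have hs' : Seg (U 0) (U (0 + 1)) w := by
        unfold Seg
        rw [hw, hU0]
        exact hu'
      have hwo := hsep c h 0 hr k (by omega) w hs' hs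
      rw [hwo, ← ho c h] at hs
      exact gf_base (hQ c h) h0 h1 hs)
  have hcl : (fun k => Φ (Q c k)) n = (fun k => Φ (Q c k)) 0 := (hsp c hcm).cl
  have hall : ∀ j, 0 < j → j < r → wn n (fun k => Φ (Q c k)) (Φ (U j)) ≠ 0 := by
    intro j h0
    induction j, h0 using Nat.le_induction with
    | base => exact fun _ => hw
    | succ j h0 ih =>
      intro h1
      have h2 := ih (by omega)
      rw [← wn_transport hcl (z := Φ (U j)) (z' := Φ (U (j + 1))) ?_]
      · exact h2
      · intro k hk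
        rw [Set.disjoint_left]
        intro u hu hu'
        obtain ⟨w, hw, hs⟩ := gf_lift hu
        have hs' : Seg (U j) (U (j + 1)) w := by
          unfold Seg
          rw [hw]
          exact hu'
        have hwo := hsep c hcm j (by omega) k hk w hs' hs
        rw [hwo, ← hU0] at hs'
        exact gf_base hU h0 h1 hs'
  have hball : ∀ j, 0 < j → j < r → ∀ y, ∃ k < n, dist y (U j) < dist y (Q c k) := by
    intro j h0 h1 y
    refine wn_ball (hQ c hcm).cl y ?_ (hall j h0 h1)
    intro k hk hs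
    have h2 := hsep c hcm j h1 k hk (U j) (Seg.left _ _) hs
    exact hU.inj h1 hr (by omega) (h2.trans hU0.symm)
  have hcase : ∀ j ≤ r, U j = Q c 0 ∨ (0 < j ∧ j < r) := by
    intro j hj
    rcases Nat.eq_zero_or_pos j with h | h
    · left
      rw [h, hU0, ho c hcm]
    · rcases Nat.lt_or_ge j r with h' | h'
      · exact Or.inr ⟨h, h'⟩
      · left
        have h2 : j = r := by omega
        rw [h2, hU.cl, hU0, ho c hcm]
  have hn : 0 < n := (hQ c hcm).pos
  refine ⟨c, hcm, ?_⟩
  intro i hi j hj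
  rcases hcase i hi with h1 | ⟨h1, h1'⟩ <;> rcases hcase j hj with h2 | ⟨h2, h2'⟩
  · refine ⟨0, by omega, 0 + 1, by omega, ?_⟩
    rw [h1, h2, dist_self]
    exact dist_pos.2 ((hQ c hcm).ne 0 hn)
  · obtain ⟨k, hk, h⟩ := hball j h2 h2' (U i)
    refine ⟨0, by omega, k, hk.le, ?_⟩
    rw [← h1]
    exact h
  · obtain ⟨k, hk, h⟩ := hball i h1 h1' (U j)
    refine ⟨0, by omega, k, hk.le, ?_⟩
    rw [← h2, dist_comm (U i)]
    exact h
  · obtain ⟨k, hk, h⟩ := hball j h2 h2' (U i)
    obtain ⟨k', hk', h'⟩ := hball i h1 h1' (Q c k)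
    refine ⟨k, hk.le, k', hk'.le, ?_⟩
    rw [dist_comm (U i) (Q c k)] at h
    exact h.trans h'

/- Paper section 6, second half. -/
theorem dom {m n r : ℕ} (Q : ℕ → ℕ → ℍ) (U : ℕ → ℍ) (o : ℍ) (S : ℝ) (hm : 0 < m)
    (hQ : ∀ c < m, HSimple n (Q c)) (ho : ∀ c < m, Q c 0 = o) (hS : ∀ c < m, harea n (Q c) = S)
    (hc : ∀ φ : ℍ → ℝ, ∑ c ∈ Finset.range m, φ (Q c 1) = ∑ c ∈ Finset.range m, φ (Q c (n - 1)))
    (hU : HSimple r U) (hU0 : U 0 = o)
    (hsep : ∀ c < m, ∀ j < r, ∀ k < n, ∀ z, Seg (U j) (U (j + 1)) z →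
      Seg (Q c k) (Q c (k + 1)) z → z = o) :
    ∃ c < m, ∀ i ≤ r, ∀ j ≤ r, ∃ k ≤ n, ∃ k' ≤ n, dist (U i) (U j) < dist (Q c k) (Q c k') := by
  classical
  obtain ⟨A, hA⟩ := exists_generic
    ((Finset.range m ×ˢ Finset.range (n + 1)).image fun x => Q x.1 x.2)
  have hmem : ∀ c < m, ∀ k < n + 1,
      Q c k ∈ (Finset.range m ×ˢ Finset.range (n + 1)).image fun x => Q x.1 x.2 := by
    intro c h k hk
    exact Finset.mem_image.2 ⟨(c, k), Finset.mem_product.2
      ⟨Finset.mem_range.2 h, Finset.mem_range.2 hk⟩, rfl⟩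
  have hback : ∀ p q z : ℍ, Seg (A • p) (A • q) z → Seg p q (A⁻¹ • z) := by
    intro p q z h
    have := h.smul A⁻¹
    rwa [inv_smul_smul, inv_smul_smul] at this
  obtain ⟨c, hcm, h⟩ := gf_dom (fun c k => A • Q c k) (fun k => A • U k) (A • o) S hm
    (fun c h => (hQ c h).smul A) (fun c h => by simp only [ho c h])
    (fun c h => (harea_smul A (hQ c h).cl).trans (hS c h)) (fun φ => hc fun w => φ (A • w))
    (hU.smul A) (by simp only [hU0])
    (fun c h j hj k hk z h1 h2 => by
      have := hsep c h j hj k hk _ (hback _ _ _ h1) (hback _ _ _ h2)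
      rw [← this, smul_inv_smul])
    (fun c h k hk => hA _ (hmem c h k (by omega)) _ (hmem c h (k + 1) (by omega))
      ((hQ c h).ne k hk))
  refine ⟨c, hcm, ?_⟩
  intro i hi j hj
  obtain ⟨k, hk, k', hk', h'⟩ := h i hi j hj
  refine ⟨k, hk, k', hk', ?_⟩
  simpa only [dist_smul] using h'

end Pool.Agent.MP_596265_gt

end

-- part FC
section

namespace Pool.Agent.MP_596265_gt

open scoped UpperHalfPlane
open Real

variable {g : ℕ}

theorem fc_left (M : Gen g → G) (A B : List (Dt g)) {k : ℕ} (hk : k ≤ A.length) :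
    vtx M 1 (A ++ B) k = vtx M 1 A k := by
  simp only [vtx, List.take_append_of_le_length hk]

theorem fc_right {M : Gen g → G} {A : List (Dt g)} (hA : PM (lab M A) 1) (B : List (Dt g))
    (k : ℕ) : vtx M 1 (A ++ B) (A.length + k) = vtx M 1 B k := by
  simp only [vtx, List.take_length_add_append, lab_append, one_mul]
  have := (hA.mul (PM.refl (lab M (B.take k)))).smul_eq UpperHalfPlane.I
  rwa [one_mul] at this

theorem fc_len0 {M : Gen g → G} {A : List (Dt g)} (hA : PM (lab M A) 1) : len (lab M A) = 0 := by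
  rw [hA.len_eq, len_one]

theorem fc_pm_rot {M : Gen g → G} {A B : List (Dt g)} (h : PM (lab M (A ++ B)) 1) :
    PM (lab M (B ++ A)) 1 := by
  have h2 := ((PM.refl (lab M A)⁻¹).mul h).mul (PM.refl (lab M A))
  rw [lab_append] at h2 ⊢
  have e1 : (lab M A)⁻¹ * (lab M A * lab M B) * lab M A = lab M B * lab M A := by group
  have e2 : (lab M A)⁻¹ * 1 * lab M A = 1 := by group
  rwa [e1, e2] at h2

/-- Cutting a word at two corners. -/
theorem fc_cut (M : Gen g → G) (w : List (Dt g)) {j k : ℕ} (hjk : j < k) (hk : k < w.length) :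
    ∃ A U B, w = A ++ U ++ B ∧ U ≠ [] ∧ B ≠ [] ∧
      dist (vtx M 1 w j) (vtx M 1 w k) = len (lab M U) := by
  have e : w = (w.take k).take j ++ (w.take k).drop j ++ w.drop k := by
    rw [List.take_append_drop, List.take_append_drop]
  have l1 : ((w.take k).take j).length = j := by
    simp only [List.length_take]; omega
  have l2 : ((w.take k).drop j).length = k - j := by
    simp only [List.length_drop, List.length_take]; omega
  refine ⟨(w.take k).take j, (w.take k).drop j, w.drop k, e, ?_, ?_, ?_⟩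
  · intro h0
    rw [h0, List.length_nil] at l2
    omega
  · intro h0
    have := congrArg List.length h0
    simp only [List.length_drop, List.length_nil] at this
    omega
  · have := dist_vtx M 1 ((w.take k).take j) ((w.take k).drop j) (w.drop k)
    rw [← e, l1, l2] at this
    have e3 : j + (k - j) = k := by omega
    rwa [e3] at this

theorem fc_geo {M : Gen g → G} {W : Set (List (Dt g))} (hW : Fam M W) {N Z : List (Dt g)}
    (h : N ++ Z ∈ W) (hN : PM (lab M N) 1) : Geo N.length (vtx M 1 N) := by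
  have hG := hW.geo h
  have hl : N.length ≤ (N ++ Z).length := by simp
  refine ⟨by rw [vtx_length hN, vtx_zero], fun k hk => ?_, fun k hk j hj => ?_,
    fun j hj k hk hjk => ?_⟩
  · have := hG.ne k (by omega)
    rwa [fc_left M N Z hk.le, fc_left M N Z (by omega : k + 1 ≤ N.length)] at this
  · have := hG.lune k (by omega) j (by omega)
    rwa [fc_left M N Z hk.le, fc_left M N Z (by omega : k + 1 ≤ N.length),
      fc_left M N Z hj] at this
  · have := hG.tab j (by omega) k (by omega) hjk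
    rwa [fc_left M N Z hk.le, fc_left M N Z (by omega : k + 1 ≤ N.length),
      fc_left M N Z hj.le, fc_left M N Z (by omega : j + 1 ≤ N.length)] at this

theorem Fam.hsimple {M : Gen g → G} {W : Set (List (Dt g))} (hW : Fam M W) {N Z : List (Dt g)}
    (h : N ++ Z ∈ W) (hN : SimpleW M N) : HSimple N.length (vtx M 1 N) := by
  have key : ∀ j k, j < k → k < N.length → vtx M 1 N j ≠ vtx M 1 N k := by
    intro j k hjk hk e
    obtain ⟨A, U, B, hw, hU, hB, hd⟩ := fc_cut M N hjk hk
    have := hN.2.2 A U B hw hU (Or.inr hB)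
    rw [← hd, e, dist_self] at this
    exact lt_irrefl _ this
  refine (fc_geo hW h hN.2.1).hsimple (List.length_pos_iff.2 hN.1) fun j hj k hk hjk => ?_
  rcases lt_or_gt_of_ne hjk with h1 | h1
  · exact key j k h1 hk
  · exact (key k j h1 hj).symm

theorem fc_sep_vtx {M : Gen g → G} {W : Set (List (Dt g))} (hW : Fam M W) {P N Z : List (Dt g)}
    (h : P ++ N ++ Z ∈ W) (hP : SimpleW M P)
    (hns : ∀ U₁ U₂, P = U₁ ++ U₂ → U₁ ≠ [] → U₂ ≠ [] → ¬ SP U₂) {j k : ℕ} (hj : j ≤ P.length)
    (hk : k ≤ N.length) (e : vtx M 1 P j = vtx M 1 N k) : vtx M 1 P j = UpperHalfPlane.I := by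
  rcases Nat.eq_zero_or_pos j with rfl | hj0
  · exact vtx_zero M P
  rcases hj.eq_or_lt with rfl | hj1
  · exact vtx_length hP.2.1
  exfalso
  have hSP : SP P := (hW.f2 (Q := N ++ Z) (by rwa [← List.append_assoc]) (fc_len0 hP.2.1)).1
  have hnd : (P ++ N ++ Z).Nodup := (hW.full _ h).1
  have e1 : P ++ N ++ Z = P.take j ++ (P.drop j ++ N.take k) ++ (N.drop k ++ Z) := by
    conv_lhs => rw [← List.take_append_drop j P, ← List.take_append_drop k N]
    simp only [List.append_assoc]
  have l1 : (P.take j).length = j := by simp only [List.length_take]; omega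
  have l2 : j + (P.drop j ++ N.take k).length = P.length + k := by
    simp only [List.length_append, List.length_drop, List.length_take]; omega
  have hd := dist_vtx M 1 (P.take j) (P.drop j ++ N.take k) (N.drop k ++ Z)
  rw [← e1, l1, l2, List.append_assoc, fc_left M P _ hj, fc_right hP.2.1, fc_left M N Z hk, e,
    dist_self] at hd
  have hr : (P.drop j ++ N.take k) ++ ((N.drop k ++ Z) ++ P.take j) ∈ W := by
    rw [← List.append_assoc]
    apply hW.rot
    rwa [← List.append_assoc, ← e1]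
  have hS := (hW.f2 hr hd.symm).1
  refine hns (P.take j) (P.drop j) (List.take_append_drop j P).symm ?_ ?_ fun d hd => ?_
  · intro h0
    rw [h0, List.length_nil] at l1
    omega
  · intro h0
    have := congrArg List.length h0
    simp only [List.length_drop, List.length_nil] at this
    omega
  · rcases List.mem_append.1 (hS d (List.mem_append_left _ hd)) with h1 | h1
    · exact h1
    · exfalso
      have h2 : rev d ∈ P := hSP d (List.mem_of_mem_drop hd)
      have h3 : rev d ∈ N := List.mem_of_mem_take h1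
      exact (List.nodup_append.1 (List.nodup_append.1 hnd).1).2.2 _ h2 _ h3 rfl

theorem Fam.sep {M : Gen g → G} {W : Set (List (Dt g))} (hW : Fam M W) {P N Z : List (Dt g)}
    (h : P ++ N ++ Z ∈ W) (hP : SimpleW M P)
    (hns : ∀ U₁ U₂, P = U₁ ++ U₂ → U₁ ≠ [] → U₂ ≠ [] → ¬ SP U₂) {j k : ℕ} (hj : j < P.length)
    (hk : k < N.length) {z : ℍ} (h1 : Seg (vtx M 1 P j) (vtx M 1 P (j + 1)) z)
    (h2 : Seg (vtx M 1 N k) (vtx M 1 N (k + 1)) z) : z = UpperHalfPlane.I := by
  have hG := hW.geo h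
  have hl : (P ++ N ++ Z).length = P.length + N.length + Z.length := by
    simp only [List.length_append]
  have a1 : ∀ i ≤ P.length, vtx M 1 (P ++ N ++ Z) i = vtx M 1 P i := fun i hi => by
    rw [List.append_assoc, fc_left M P _ hi]
  have a2 : ∀ i ≤ N.length, vtx M 1 (P ++ N ++ Z) (P.length + i) = vtx M 1 N i := fun i hi => by
    rw [List.append_assoc, fc_right hP.2.1, fc_left M N Z hi]
  have hm := hG.meet (j := j) (k := P.length + k) (z := z) (by omega) (by omega) (by omega)
  rw [a1 j hj.le, a1 (j + 1) hj, add_assoc, a2 k hk.le, a2 (k + 1) hk] at hm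
  obtain ⟨b1 | b1, b2 | b2⟩ := hm h1 h2
  · exact b1.trans (fc_sep_vtx hW h hP hns hj.le hk.le (b1.symm.trans b2))
  · exact b1.trans (fc_sep_vtx hW h hP hns hj.le hk (b1.symm.trans b2))
  · exact b1.trans (fc_sep_vtx hW h hP hns hj hk.le (b1.symm.trans b2))
  · exact b1.trans (fc_sep_vtx hW h hP hns hj hk (b1.symm.trans b2))

theorem fc_sum_getD {E : Type} (ψ : E → ℝ) (d0 : E) (N : List E) :
    ∑ c ∈ Finset.range N.length, ψ (N.getD c d0) = (N.map ψ).sum := by
  induction N with
  | nil => simp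
  | cons a l ih =>
    rw [List.length_cons, Finset.sum_range_succ', List.map_cons, List.sum_cons, ← ih, add_comm]
    simp only [List.getD_cons_succ, List.getD_cons_zero]

theorem fc_sum_shift (F : ℕ → ℝ) (m : ℕ) :
    ∑ c ∈ Finset.range (m + 1), F ((m + c) % (m + 1)) = ∑ c ∈ Finset.range (m + 1), F c := by
  rw [Finset.sum_range_succ', Finset.sum_range_succ]
  congr 1
  · refine Finset.sum_congr rfl fun c hc => ?_
    have hc' := Finset.mem_range.1 hc
    have e : m + (c + 1) = c + (m + 1) := by omega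
    rw [e, Nat.add_mod_right, Nat.mod_eq_of_lt (by omega)]
  · rw [add_zero, Nat.mod_eq_of_lt (by omega)]

theorem fc_rotate {E : Type} (N : List E) {c : ℕ} (hc : c < N.length) :
    N.rotate c = N.drop c ++ N.take c := List.rotate_eq_drop_append_take hc.le

theorem fc_first (M : Gen g → G) (R : List (Dt g)) (h : 0 < R.length) :
    vtx M 1 R 1 = dlab M R[0] • UpperHalfPlane.I := by
  cases R with
  | nil => simp at h
  | cons a l => simp [vtx]

theorem fc_last {M : Gen g → G} {R : List (Dt g)} (h1 : PM (lab M R) 1) {m : ℕ}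
    (h : R.length = m + 1) :
    vtx M 1 R m = dlab M (rev (R[m]'(by omega))) • UpperHalfPlane.I := by
  have e : R = R.take m ++ [R[m]'(by omega)] := by
    rw [← List.take_succ_eq_append_getElem (by omega), ← h, List.take_length]
  have h2 := h1.mul (PM.refl (dlab M (R[m]'(by omega)))⁻¹)
  have e2 : lab M R = lab M (R.take m) * dlab M (R[m]'(by omega)) := by
    conv_lhs => rw [e]
    simp only [lab_append, lab_cons, lab_nil, mul_one]
  rw [e2, mul_inv_cancel_right, one_mul] at h2
  rw [vtx, one_mul, dlab_rev]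
  exact h2.smul_eq _

theorem petal_cancel {M : Gen g → G} {N : List (Dt g)} (hn : N.Nodup) (hS : SP N)
    (h1 : PM (lab M N) 1) (φ : ℍ → ℝ) :
    ∑ c ∈ Finset.range N.length, φ (vtx M 1 (N.rotate c) 1) =
      ∑ c ∈ Finset.range N.length, φ (vtx M 1 (N.rotate c) (N.length - 1)) := by
  rcases Nat.eq_zero_or_pos N.length with h0 | h0
  · rw [h0]; simp
  obtain ⟨m, hm⟩ : ∃ m, N.length = m + 1 := ⟨N.length - 1, by omega⟩
  have s1 := fc_sum_getD (fun d => φ (dlab M d • UpperHalfPlane.I)) N[0] N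
  have s2 := fc_sum_getD (fun d => φ (dlab M (rev d) • UpperHalfPlane.I)) N[0] N
  have s3 := sum_rev hn hS fun d => φ (dlab M d • UpperHalfPlane.I)
  have s4 := fc_sum_shift (fun c => φ (dlab M (rev (N.getD c N[0])) • UpperHalfPlane.I)) m
  have t1 : ∑ c ∈ Finset.range N.length, φ (vtx M 1 (N.rotate c) 1) =
      ∑ c ∈ Finset.range N.length, φ (dlab M (N.getD c N[0]) • UpperHalfPlane.I) := by
    refine Finset.sum_congr rfl fun c hc => ?_
    have hc' := Finset.mem_range.1 hc
    rw [fc_first M _ (by rw [List.length_rotate]; exact h0), List.getElem_rotate,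
      List.getD_eq_getElem _ _ hc']
    simp only [zero_add, Nat.mod_eq_of_lt hc']
  have t2 : ∑ c ∈ Finset.range N.length, φ (vtx M 1 (N.rotate c) (N.length - 1)) =
      ∑ c ∈ Finset.range N.length,
        φ (dlab M (rev (N.getD ((m + c) % (m + 1)) N[0])) • UpperHalfPlane.I) := by
    refine Finset.sum_congr rfl fun c hc => ?_
    have hc' := Finset.mem_range.1 hc
    have hp : PM (lab M (N.rotate c)) 1 := by
      rw [fc_rotate N hc']
      apply fc_pm_rot
      rwa [List.take_append_drop]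
    have e : N.length - 1 = m := by omega
    have hlt : (m + c) % (m + 1) < N.length := by rw [hm]; exact Nat.mod_lt _ (by omega)
    rw [e, fc_last hp (by rw [List.length_rotate, hm]), List.getElem_rotate,
      List.getD_eq_getElem _ _ hlt]
    simp only [hm]
  rw [t1, t2, s1, ← s3, ← s2, hm, s4]

theorem Fam.dom_word {M : Gen g → G} {W : Set (List (Dt g))} (hW : Fam M W)
    {P N Z : List (Dt g)} (h : P ++ N ++ Z ∈ W) (hP : SimpleW M P) (hN : SimpleW M N) :
    ∀ i ≤ P.length, ∀ j ≤ P.length, ∃ k ≤ N.length, ∃ k' ≤ N.length,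
      dist (vtx M 1 P i) (vtx M 1 P j) < dist (vtx M 1 N k) (vtx M 1 N k') := by
  have hnd : (P ++ N ++ Z).Nodup := (hW.full _ h).1
  have hPn : P.Nodup := (List.nodup_append.1 (List.nodup_append.1 hnd).1).1
  have hNn : N.Nodup := (List.nodup_append.1 (List.nodup_append.1 hnd).1).2.1
  have hSP : SP P := (hW.f2 (Q := N ++ Z) (by rwa [← List.append_assoc]) (fc_len0 hP.2.1)).1
  have hSN : SP N := (hW.f2 (Q := P ++ Z)
    (by rw [← List.append_assoc]; exact hW.swap_pieces h hP.2.1) (fc_len0 hN.2.1)).1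
  obtain ⟨A, B, rfl, hns⟩ := ns_corner hPn hSP hP.1
  have hP' : SimpleW M (B ++ A) := hP.rot
  have hN' : ∀ c, PM (lab M (N.take c ++ N.drop c)) 1 := fun c => by
    rw [List.take_append_drop]; exact hN.2.1
  have hc : ∀ c < N.length, B ++ A ++ N.rotate c ++ Z ∈ W := fun c hc => by
    rw [fc_rotate N hc]
    exact hW.config (by rwa [List.take_append_drop]) hP.2.1 (hN' c)
  have hR : ∀ c < N.length, SimpleW M (N.rotate c) := fun c hc => by
    rw [fc_rotate N hc]
    apply SimpleW.rot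
    rwa [List.take_append_drop]
  have h0 : 0 < N.length := List.length_pos_iff.2 hN.1
  obtain ⟨c, hcN, hd⟩ := dom (m := N.length) (n := N.length) (r := (B ++ A).length)
    (fun c => vtx M 1 (N.rotate c)) (vtx M 1 (B ++ A)) UpperHalfPlane.I (warea M 1 N) h0
    (fun c hcN => by
      have h2 := hW.swap_pieces (hc c hcN) hP'.2.1
      rw [List.append_assoc] at h2
      have := hW.hsimple h2 (hR c hcN)
      rwa [List.length_rotate] at this)
    (fun c _ => vtx_zero M _)
    (fun c hcN => by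
      have := warea_rot (hN' c)
      rwa [← fc_rotate N hcN, List.take_append_drop, warea, List.length_rotate] at this)
    (petal_cancel hNn hSN hN.2.1)
    (by
      have h2 := hc 0 h0
      rw [List.append_assoc] at h2
      exact hW.hsimple h2 hP')
    (vtx_zero M _)
    (fun c hcN j hj k hk z h1 h2 =>
      hW.sep (hc c hcN) hP' hns hj (by rwa [List.length_rotate]) h1 h2)
  intro i hi j hj
  obtain ⟨i', hi', j', hj', e1⟩ := dist_vtx_rot hP'.2.1 hi hj
  obtain ⟨k, hk, k', hk', e2⟩ := hd i' hi' j' hj'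
  have hl : (N.drop c ++ N.take c).length = N.length := by
    rw [← fc_rotate N hcN, List.length_rotate]
  obtain ⟨l, hl1, l', hl2, e3⟩ := dist_vtx_rot (hN' c) (i := k) (j := k') (by omega) (by omega)
  rw [List.take_append_drop] at hl1 hl2 e3
  refine ⟨l, hl1, l', hl2, ?_⟩
  rw [e1, ← e3, ← fc_rotate N hcN]
  exact e2

/-- The minimal polygon is simple. -/
theorem Fam.simple {M : Gen g → G} {W : Set (List (Dt g))} (hW : Fam M W) {w : List (Dt g)}
    (hw : w ∈ W) (h0 : w ≠ []) : HSimple w.length (vtx M 1 w) := by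
  have key : ∀ j k, j < k → k < w.length → vtx M 1 w j ≠ vtx M 1 w k := by
    intro j k hjk hk e
    obtain ⟨A, U, B, rfl, hU, hB, hd⟩ := fc_cut M w hjk hk
    rw [e, dist_self] at hd
    have hr : U ++ (B ++ A) ∈ W := by
      rw [← List.append_assoc]
      apply hW.rot
      rwa [← List.append_assoc]
    obtain ⟨P, N, Z, h, hP, hN⟩ := hW.two_pieces hr hU (by simp [hB]) hd.symm
    obtain ⟨⟨i, i'⟩, hi, hmax⟩ := Finset.exists_max_image
      (Finset.range (P.length + 1) ×ˢ Finset.range (P.length + 1))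
      (fun x : ℕ × ℕ => dist (vtx M 1 P x.1) (vtx M 1 P x.2)) ⟨(0, 0), by simp only [Finset.mem_product, Finset.mem_range, lt_add_iff_pos_left, Order.lt_add_one_iff, zero_le, and_self]⟩
    simp only [Finset.mem_product, Finset.mem_range] at hi
    obtain ⟨l, hl, l', hl', e1⟩ := hW.dom_word h hP hN i (by omega) i' (by omega)
    obtain ⟨t, ht, t', ht', e2⟩ :=
      hW.dom_word (hW.swap_pieces h hP.2.1) hN hP l hl l' hl'
    have e3 := hmax (t, t') (by simp only [Finset.mem_product, Finset.mem_range]; omega)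
    simp only at e3
    linarith only [e1, e2, e3]
  refine (hW.geo hw).hsimple (List.length_pos_iff.2 h0) fun j hj k hk hjk => ?_
  rcases lt_or_gt_of_ne hjk with h1 | h1
  · exact key j k h1 hk
  · exact (key k j h1 hj).symm

end Pool.Agent.MP_596265_gt

end

-- part Z
section

namespace Pool.Agent.MP_596265_gt

open scoped UpperHalfPlane
open Real

variable {g : ℕ}

theorem z_dist {M : Gen g → G} {w : List (Dt g)} {k : ℕ} (hk : k < w.length) :
    dist (vtx M 1 w k) (vtx M 1 w (k + 1)) = len (M w[k].1) := by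
  unfold vtx
  rw [dist_smul_I, List.take_succ_eq_append_getElem hk, lab_append, ← len_dlab]
  congr 1
  simp

theorem Fam.area_ge (hg : 2 ≤ g) {M : Gen g → G} {W : Set (List (Dt g))} (hW : Fam M W)
    {w : List (Dt g)} (hw : w ∈ W)
    (hs : (Finset.univ.filter fun x : Gen g => cosh (len (M x)) < 3).card ≤ g) :
    2 * g * (π / 180) ≤ |warea M 1 w| := by
  classical
  have hF := hW.full w hw
  have hlen := hF.length
  have h0 : w ≠ [] := by
    intro h; rw [h] at hlen; simp at hlen; omega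
  set Lg : Finset (Gen g) := Finset.univ.filter fun x : Gen g => ¬ cosh (len (M x)) < 3 with hLg
  have hc : g ≤ Lg.card := by
    have := Finset.card_filter_add_card_filter_not (s := (Finset.univ : Finset (Gen g)))
      (fun x : Gen g => cosh (len (M x)) < 3)
    rw [Finset.card_univ, Fintype.card_prod, Fintype.card_fin, Fintype.card_bool, ← hLg] at this
    omega
  set J : Finset ℕ := (Lg ×ˢ (Finset.univ : Finset Bool)).image fun d => w.idxOf d with hJ
  have hcard : J.card = Lg.card * 2 := by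
    rw [hJ, Finset.card_image_of_injective, Finset.card_product, Finset.card_univ,
      Fintype.card_bool]
    intro d d' h
    exact (List.idxOf_inj (hF.2 d)).1 h
  have hA := (hW.geo hw).area (hW.simple hw h0) J (by
    intro j hj
    obtain ⟨d, hd, rfl⟩ := Finset.mem_image.1 hj
    have hlt : w.idxOf d < w.length := List.idxOf_lt_length_of_mem (hF.2 d)
    refine ⟨hlt, ?_⟩
    rw [z_dist hlt, List.getElem_idxOf]
    have := (Finset.mem_filter.1 (Finset.mem_product.1 hd).1).2
    exact not_lt.1 this)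
  refine le_trans ?_ hA
  have h2 : (2 * g : ℝ) ≤ J.card := by
    rw [hcard]; push_cast
    have : (g : ℝ) ≤ Lg.card := by exact_mod_cast hc
    linarith only [this]
  exact mul_le_mul_of_nonneg_right h2 (by positivity)

theorem core_bound (hg : 2 ≤ g) (σ : Fr g →* G) (f : Fr g →* (ℝ ≃o ℝ))
    (hl : ∀ u, Lift (σ u) (f u)) (e : ℤ) (he : f (relPre g g) = T e) (hT : TH σ) :
    (g : ℤ) ≤ 180 * |e| := by
  have hR : PM (σ (relPre g g)) 1 := by
    have h1 := hl (relPre g g)
    rw [he] at h1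
    set A := σ (relPre g g)
    obtain ⟨c0, -, e0⟩ := h1.2 0
    obtain ⟨c1, -, e1⟩ := h1.2 (1 / 2)
    obtain ⟨c2, -, e2⟩ := h1.2 (1 / 4)
    have s0 : sin (π * (0 + e)) = 0 := by
      rw [zero_add, mul_comm]; exact sin_int_mul_pi e
    have s1 : cos (π * (1 / 2 + e)) = 0 := by
      rw [mul_add, cos_add, mul_comm π (e : ℝ), sin_int_mul_pi, show π * (1 / 2) = π / 2 by ring,
        cos_pi_div_two]; ring
    have s2 : cos (π * (1 / 4 + e)) = sin (π * (1 / 4 + e)) := by
      rw [mul_add, cos_add, sin_add, mul_comm π (e : ℝ), sin_int_mul_pi,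
        show π * (1 / 4) = π / 4 by ring, cos_pi_div_four, sin_pi_div_four]; ring
    have a10 : A 1 0 = 0 := by
      have := congrFun e0 1
      rw [lifts_mv, lifts_v0, lifts_v1, Pi.smul_apply, lifts_v1, T_apply, s0] at this
      simpa using this
    have a01 : A 0 1 = 0 := by
      have := congrFun e1 0
      rw [lifts_mv, lifts_v0, lifts_v1, Pi.smul_apply, lifts_v0, T_apply, s1,
        show π * (1 / 2) = π / 2 by ring] at this
      simpa using this
    have a00 : A 0 0 = A 1 1 := by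
      have h0 := congrFun e2 0
      have h1 := congrFun e2 1
      rw [lifts_mv, lifts_v0, lifts_v1, Pi.smul_apply, lifts_v0, T_apply, s2, a01] at h0
      rw [lifts_mv, lifts_v0, lifts_v1, Pi.smul_apply, lifts_v1, T_apply, a10] at h1
      rw [show π * (1 / 4) = π / 4 by ring, cos_pi_div_four, sin_pi_div_four] at h0 h1
      have hs : (0 : ℝ) < √2 / 2 := by positivity
      apply mul_right_cancel₀ hs.ne'
      linarith only [h0, h1]
    have hd := basic_det A
    rw [a10, a00] at hd
    have : (A 1 1 - 1) * (A 1 1 + 1) = 0 := by linarith only [hd]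
    rcases mul_eq_zero.1 this with h | h
    · left
      apply basic_ext <;> simp only [basic_one00, basic_one01, basic_one10, basic_one11] <;> linarith only [a00, h, a01, a10]
    · right
      apply basic_ext <;>
        simp only [basic_neg, basic_one00, basic_one01, basic_one10, basic_one11] <;> linarith only [a00, h, a01, a10]
  obtain ⟨w, M, hm⟩ := exists_min σ
  have h1 := (fam_of_min hg hT hR M).area_ge hg (w := w) hm (short_card hg hT hm.1 hm.2.1)
  rw [Cl.area f hl e he hm.1 hm.2.1, abs_mul, abs_of_pos (by positivity : (0 : ℝ) < 2 * π)] at h1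
  have h2 : (g : ℝ) ≤ 180 * |(e : ℝ)| := by
    have hp := pi_pos
    have : π * (g : ℝ) ≤ π * (180 * |(e : ℝ)|) := by linarith
    exact le_of_mul_le_mul_left this hp
  exact_mod_cast h2

theorem z_pm_of_mk {A B : G} (h : (QuotientGroup.mk A : PSL) = QuotientGroup.mk B) : PM A B := by
  have h1 := QuotientGroup.eq.1 h
  have h2 : ∀ X : G, X * (A⁻¹ * B) = A⁻¹ * B * X := Subgroup.mem_center_iff.1 h1
  set C := A⁻¹ * B with hC
  have hB : B = A * C := by rw [hC]; group
  let U : G := ⟨!![1, 1; 0, 1], by simp [Matrix.det_fin_two_of]⟩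
  let V : G := ⟨!![1, 0; 1, 1], by simp [Matrix.det_fin_two_of]⟩
  have u00 : U 0 0 = 1 := rfl
  have u01 : U 0 1 = 1 := rfl
  have u10 : U 1 0 = 0 := rfl
  have u11 : U 1 1 = 1 := rfl
  have v00 : V 0 0 = 1 := rfl
  have v01 : V 0 1 = 0 := rfl
  have v10 : V 1 0 = 1 := rfl
  have e1 := congrArg (fun X : G => X 0 0) (h2 U)
  have e2 := congrArg (fun X : G => X 0 1) (h2 U)
  have e3 := congrArg (fun X : G => X 0 0) (h2 V)
  simp only [basic_mul, u00, u01, u10, u11, v00, v01, v10] at e1 e2 e3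
  have hd := basic_det C
  have c10 : C 1 0 = 0 := by linarith only [e1]
  have c01 : C 0 1 = 0 := by linarith only [e3]
  have c00 : C 0 0 = C 1 1 := by linarith only [e2]
  rw [c10, c00] at hd
  have : (C 1 1 - 1) * (C 1 1 + 1) = 0 := by linarith only [hd]
  have hp : PM C 1 := by
    rcases mul_eq_zero.1 this with h | h
    · left
      apply basic_ext <;> simp only [basic_one00, basic_one01, basic_one10, basic_one11] <;> linarith only [e2, h, e3, e1]
    · right
      apply basic_ext <;>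
        simp only [basic_neg, basic_one00, basic_one01, basic_one10, basic_one11] <;> linarith only [e2, h, e3, e1]
  have := (PM.refl A).mul hp
  rw [mul_one, ← hB] at this
  exact this.symm

theorem z_map_closure {H : Type} [Group H] (r : H) (ψ : H ≃* H) (h : IsConj (ψ r) r) :
    Subgroup.normalClosure ({r} : Set H) ≤
      (Subgroup.normalClosure ({r} : Set H)).comap ψ.toMonoidHom := by
  apply Subgroup.normalClosure_le_normal
  intro x hx
  rw [Set.mem_singleton_iff.1 hx]
  obtain ⟨c, hc⟩ := isConj_iff.1 h.symm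
  have h1 : r ∈ Subgroup.normalClosure ({r} : Set H) := Subgroup.subset_normalClosure rfl
  have h2 := (Subgroup.normalClosure_normal (s := ({r} : Set H))).conj_mem _ h1 c
  rw [hc] at h2
  exact h2

theorem z_descend (ψ : Fr g ≃* Fr g) (h : IsConj (ψ (relPre g g)) (relPre g g)) :
    ∃ φ : SurfaceGroup g ≃* SurfaceGroup g,
      ∀ u, φ (PresentedGroup.mk _ u) = PresentedGroup.mk _ (ψ u) := by
  have h' : IsConj (ψ.symm (relPre g g)) (relPre g g) := by
    have := ψ.symm.toMonoidHom.map_isConj h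
    simpa only [isConj_iff, MulEquiv.toMonoidHom_eq_coe, MonoidHom.coe_coe, MulEquiv.symm_apply_apply] using this.symm
  refine ⟨QuotientGroup.congr _ _ ψ (le_antisymm ?_ ?_), fun u => rfl⟩
  · exact Subgroup.map_le_iff_le_comap.2 (z_map_closure _ ψ h)
  · intro x hx
    exact ⟨ψ.symm x, z_map_closure _ ψ.symm h' hx, by simp⟩

theorem small_euler (g : ℕ) (hg : 2 ≤ g) (ρ : SurfaceGroup g →* PSL) (e : ℤ)
    (he : EulerNumber ρ e) (hs : 180 * |e| < g) :
    ∃ γ : SurfaceGroup g, IsSimple g γ ∧ ¬ IsHyperbolic (ρ γ) := by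
  by_contra hc
  push Not at hc
  obtain ⟨f, hf, hR⟩ := he
  choose A hA hA' using fun x => (hf x).2
  have hl : ∀ u, Lift (FreeGroup.lift A u) (FreeGroup.lift f u) := by
    intro u
    induction u using FreeGroup.induction_on with
    | C1 => simpa only [map_one] using lift_one
    | of x =>
      rw [FreeGroup.lift_apply_of, FreeGroup.lift_apply_of]
      exact ⟨(hf x).1, hA' x⟩
    | inv_of x ih => simpa only [map_inv, FreeGroup.lift_apply_of] using ih.inv
    | mul x y hx hy => simpa only [map_mul] using hx.mul hy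
  have hρ : ∀ u, ρ (PresentedGroup.mk _ u) = QuotientGroup.mk (FreeGroup.lift A u) := by
    intro u
    have : ρ.comp (PresentedGroup.mk _) = (QuotientGroup.mk' _).comp (FreeGroup.lift A) := by
      ext x
      rw [MonoidHom.comp_apply, MonoidHom.comp_apply, FreeGroup.lift_apply_of]
      exact (hA x).symm
    exact DFunLike.congr_fun this u
  have key : ∀ u, IsSimple g (PresentedGroup.mk _ u) → Hyp (FreeGroup.lift A u) := by
    intro u hu
    obtain ⟨B, hB, hB'⟩ := hc _ hu
    rw [hρ] at hB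
    have := (z_pm_of_mk hB).abs_tr
    unfold Hyp
    rw [← this]
    exact hB'
  have hT : TH (FreeGroup.lift A) := by
    intro ψ hψ
    obtain ⟨φ, hφ⟩ := z_descend ψ hψ
    refine ⟨fun k => le_of_lt (key _ ⟨φ, Or.inl ⟨k, (hφ _).symm⟩⟩),
      fun h h0 h1 => le_of_lt (key _ ⟨φ, Or.inr ⟨h, h0, h1, (hφ _).symm⟩⟩), fun h2 => ?_⟩
    have h3 : 2 < |tr (FreeGroup.lift A (ψ (relPre g 1)))| :=
      key _ ⟨φ, Or.inr ⟨1, one_pos, by omega, (hφ _).symm⟩⟩
    rw [h2] at h3
    norm_num at h3
  have := core_bound hg (FreeGroup.lift A) (FreeGroup.lift f) hl e hR hT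
  omega

end Pool.Agent.MP_596265_gt

end
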