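import Mathlib

/-!
Definitions used in the statement: the fundamental group of the closed orientable surface of
genus g, its simple closed curves, hyperbolic elements of PSL(2,R) and the Euler number of a
representation.
-/

namespace Pool.Agent.MP_596265_gt

/-- The standard generators: `(k, false)` is a_k and `(k, true)` is b_k. -/
abbrev Gen (g : ℕ) : Type := Fin g × Bool

/-- The commutator of a_k and b_k in the free group. -/
def comm (g : ℕ) (k : Fin g) : FreeGroup (Gen g) :=
  FreeGroup.of (k, false) * FreeGroup.of (k, true) * (FreeGroup.of (k, false))⁻¹ *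
    (FreeGroup.of (k, true))⁻¹

/-- The product of the first h commutators; for h = g this is the surface relator. -/
def relPre (g h : ℕ) : FreeGroup (Gen g) := (((List.finRange g).take h).map (comm g)).prod

/-- The fundamental group of the closed orientable surface of genus g. -/
abbrev SurfaceGroup (g : ℕ) : Type := PresentedGroup ({relPre g g} : Set (FreeGroup (Gen g)))

/-- The elements represented by essential simple closed curves: the images under automorphisms
of a standard non-separating curve a_k or of a standard separating curve cutting off genus h. -/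
def IsSimple (g : ℕ) (γ : SurfaceGroup g) : Prop :=
  ∃ φ : SurfaceGroup g ≃* SurfaceGroup g,
    (∃ k : Fin g, γ = φ (PresentedGroup.of (k, false))) ∨
      ∃ h : ℕ, 0 < h ∧ h < g ∧ γ = φ (PresentedGroup.mk _ (relPre g h))

/-- The group SL(2,R). -/
abbrev G : Type := Matrix.SpecialLinearGroup (Fin 2) ℝ

/-- The group PSL(2,R). -/
abbrev PSL : Type := Matrix.ProjectiveSpecialLinearGroup (Fin 2) ℝ

/-- Hyperbolic elements of PSL(2,R): trace of absolute value greater than 2. -/
def IsHyperbolic (p : PSL) : Prop :=
  ∃ A : G, (QuotientGroup.mk A : PSL) = p ∧ 2 < |A 0 0 + A 1 1|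

/-- The unit vector of angle π t; t in R/Z is the coordinate on the projective line. -/
noncomputable def vec (t : ℝ) : Fin 2 → ℝ := ![Real.cos (Real.pi * t), Real.sin (Real.pi * t)]

/-- f is a lift to the universal cover R of the action of p on the projective line R/Z. -/
def IsLift (p : PSL) (f : ℝ ≃o ℝ) : Prop :=
  (∀ t, f (t + 1) = f t + 1) ∧ ∃ A : G, (QuotientGroup.mk A : PSL) = p ∧
    ∀ t, ∃ c : ℝ, c ≠ 0 ∧ (A : Matrix (Fin 2) (Fin 2) ℝ).mulVec (vec t) = c • vec (f t)

/-- The Euler number of ρ is e: the surface relator evaluated on lifts of the generators is the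
translation by e. -/
def EulerNumber {g : ℕ} (ρ : SurfaceGroup g →* PSL) (e : ℤ) : Prop :=
  ∃ f : Gen g → ℝ ≃o ℝ, (∀ x, IsLift (ρ (PresentedGroup.of x)) (f x)) ∧
    FreeGroup.lift f (relPre g g) = OrderIso.addRight (e : ℝ)

end Pool.Agent.MP_596265_gt
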