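import Pool.Agent.MP_596265_gt.Defs

/-!
Definitions used in the statement on ergodicity: orientation preserving automorphisms of the
surface group and the measure class on the representation space.
-/

namespace Pool.Agent.MP_596265_gt

/-- Tuples of real 2 by 2 matrices indexed by the generators, with the sup metric. -/
abbrev Amb (g : ℕ) : Type := Gen g → Fin 2 → Fin 2 → ℝ

/-- Automorphisms of the surface group induced by an automorphism of the free group that sends
the relator to a conjugate of itself. -/
def IsPos {g : ℕ} (φ : SurfaceGroup g ≃* SurfaceGroup g) : Prop :=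
  ∃ ψ : FreeGroup (Gen g) ≃* FreeGroup (Gen g), IsConj (ψ (relPre g g)) (relPre g g) ∧
    ∀ w, φ (PresentedGroup.mk _ w) = PresentedGroup.mk _ (ψ w)

/-- All tuples of determinant one matrices that represent the images of the generators under
some member of `S`. -/
def liftSet {g : ℕ} (S : Set (SurfaceGroup g →* PSL)) : Set (Amb g) :=
  {m | ∃ M : Gen g → G, (∀ x i j, m x i j = M x i j) ∧
    ∃ ρ ∈ S, ∀ x, (QuotientGroup.mk (M x) : PSL) = ρ (PresentedGroup.of x)}

/-- Hausdorff measure of dimension 6g-3, the dimension of the representation space. -/
noncomputable def vol (g : ℕ) : MeasureTheory.Measure (Amb g) :=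
  MeasureTheory.Measure.hausdorffMeasure (6 * (g : ℝ) - 3)

end Pool.Agent.MP_596265_gt
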