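import Pool.Agent.MP_596265_gt.B1
import Pool.Agent.MP_596265_gt.DefsErg

attribute [-instance] NonUnitalRingHomClass.toMulHomClass MonTypeEquivalenceMon.monMonoid
  AddQuantale.instAddLeftMono NonUnitalAlgSemiHomClass.toMulHomClass RKHS.instFunLike
  CommGroup.toDivisionCommMonoid littleWedderburn SemigroupWithZero.toSemigroup
  MonoidWithZero.toMulZeroOneClass NumberField.to_charZero continuousSub_of_discreteTopology
  AddQuantale.instAddRightMono NormedRing.toRing NonUnitalRing.toNonUnitalNonAssocRing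
  TotallySeparatedSpace.t2Space instCoeTCOfCoe Valued.toUniformSpace
  NonAssocSemiring.toMulZeroOneClass IdemSemiring.toSemiring NormedCommRing.toCommRing
  IsScalarTower.complexToReal Quantale.instMulRightMono SeminormedRing.toRing
  LieAdmissibleRing.toNonUnitalNonAssocRing GrpTypeEquivalenceGrp.grpGroup
  DivisionRing.toDivInvMonoid NonAssocSemiring.toNonUnitalNonAssocSemiring EuclideanDomain.toCommRing
  IdemSemiring.toCanonicallyOrderedAdd NonUnitalSemiring.toNonUnitalNonAssocSemiring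
  SeminormedCommRing.toCommRing DivisionRing.toRing MonoidWithZero.toMonoid
  TestFunctionClass.toDFunLike GroupWithZero.toDivInvMonoid
  LinearOrderedCommMonoidWithZero.toPosMulStrictMono ContDiffMapSupportedInClass.toDFunLike
  NonUnitalNormedCommRing.toNonUnitalCommRing GroupWithZero.toDivisionMonoid
  IsTopologicalTorsor.toContinuousSMul NonUnitalNonAssocCommSemiring.toNonUnitalNonAssocSemiring
  continuousSub_of_indiscreteTopology instCoeTOfCoeDep CStarAlgebra.instOrderClosedTopology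
  DivisionRing.toDivisionSemiring

/-! Ergodicity, part 1: definitions, universal cover, matrices, automorphisms. -/

/-! Working definitions for the ergodicity proof (not used in the statement). -/

namespace Pool.Agent.MP_596265_gt.Erg

open Real Filter Topology MeasureTheory

noncomputable section

abbrev Mat : Type := Matrix (Fin 2) (Fin 2) ℝ
abbrev Tup (g : ℕ) : Type := Gen g → G

instance : MeasurableSpace G := borel G
instance : BorelSpace G := ⟨rfl⟩
instance : SecondCountableTopology Mat := inferInstanceAs (SecondCountableTopology (Fin 2 → Fin 2 → ℝ))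
instance : SecondCountableTopology G :=
  TopologicalSpace.Subtype.secondCountableTopology {A : Mat | A.det = 1}

variable {g : ℕ}

/-- A tuple as a point of the ambient vector space. -/
def io (M : Tup g) : Amb g := fun x i j => M x i j

/-! Handles (any group) -/

section handles
variable {H : Type} [Group H]

def cm (x y : H) : H := x * y * x⁻¹ * y⁻¹
def ha (M : Gen g → H) (j : Fin g) : H := M (j, false)
def hb (M : Gen g → H) (j : Fin g) : H := M (j, true)
def hc (M : Gen g → H) (j : Fin g) : H := cm (ha M j) (hb M j)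
/-- Product of the first `k` commutators. -/
def pre (M : Gen g → H) (k : ℕ) : H := (((List.finRange g).take k).map (hc M)).prod
/-- Replace handle `j`. -/
def setH (M : Gen g → H) (j : Fin g) (x y : H) : Gen g → H :=
  fun z => if z.1 = j then cond z.2 y x else M z
/-- Conjugate the handles below `h` by `k`. -/
def cjh (M : Gen g → H) (h : ℕ) (k : H) : Gen g → H :=
  fun z => if (z.1 : ℕ) < h then k * M z * k⁻¹ else M z
/-- Product of the commutators with index in `[i, j)`. -/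
def mid (M : Gen g → H) (i j : ℕ) : H := (pre M i)⁻¹ * pre M j
def cj (k x : H) : H := k * x * k⁻¹

omit [Group H] in
@[simp] theorem ha_setH (M : Gen g → H) (j : Fin g) (x y : H) : ha (setH M j x y) j = x := by
  simp [ha, setH]
omit [Group H] in
@[simp] theorem hb_setH (M : Gen g → H) (j : Fin g) (x y : H) : hb (setH M j x y) j = y := by
  simp [hb, setH]
omit [Group H] in
theorem setH_ne (M : Gen g → H) {j : Fin g} (x y : H) {z : Gen g} (h : z.1 ≠ j) :
    setH M j x y z = M z := by simp [setH, h]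
omit [Group H] in
theorem ha_setH_ne (M : Gen g → H) {i j : Fin g} (x y : H) (h : i ≠ j) :
    ha (setH M j x y) i = ha M i := setH_ne M x y h
omit [Group H] in
theorem hb_setH_ne (M : Gen g → H) {i j : Fin g} (x y : H) (h : i ≠ j) :
    hb (setH M j x y) i = hb M i := setH_ne M x y h
omit [Group H] in
@[simp] theorem setH_self (M : Gen g → H) (j : Fin g) : setH M j (ha M j) (hb M j) = M := by
  funext ⟨i, b⟩
  by_cases h : i = j
  · subst h; cases b <;> simp [setH, ha, hb]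
  · simp [setH, h]
omit [Group H] in
@[simp] theorem setH_setH (M : Gen g → H) (j : Fin g) (x y x' y' : H) :
    setH (setH M j x y) j x' y' = setH M j x' y' := by
  funext z; by_cases h : z.1 = j <;> simp [setH, h]
@[simp] theorem pre_zero (M : Gen g → H) : pre M 0 = 1 := by simp [pre]
theorem pre_succ (M : Gen g → H) (j : Fin g) : pre M (j + 1) = pre M j * hc M j := by
  simp [pre, List.take_add_one]
theorem pre_eq (M : Gen g → H) (k : ℕ) : pre M k = FreeGroup.lift M (relPre g k) := by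
  simp only [pre, relPre, map_list_prod, List.map_map]
  congr 2
  funext j
  simp only [hc, cm, ha, hb, Function.comp_apply, comm, map_mul, FreeGroup.lift_apply_of, map_inv]
theorem pre_map {K : Type} [Group K] (f : H →* K) (M : Gen g → H) (k : ℕ) :
    pre (fun z => f (M z)) k = f (pre M k) := by
  simp only [pre, map_list_prod, List.map_map]
  congr 2
  funext j
  simp only [hc, cm, ha, hb, Function.comp_apply, map_mul, map_inv]
theorem pre_congr {M N : Gen g → H} {k : ℕ} (hk : k ≤ g)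
    (h : ∀ j : Fin g, (j : ℕ) < k → hc M j = hc N j) : pre M k = pre N k := by
  induction k with
  | zero => simp
  | succ n ih =>
    have e := pre_succ M ⟨n, hk⟩
    have e' := pre_succ N ⟨n, hk⟩
    simp only at e e'
    rw [e, e', ih (by omega) fun j hj => h j (by omega), h ⟨n, hk⟩ (by simp)]
theorem mid_congr {M N : Gen g → H} {i k : ℕ} (hik : i ≤ k) (hk : k ≤ g)
    (h : ∀ j : Fin g, i ≤ j → (j : ℕ) < k → hc M j = hc N j) : mid M i k = mid N i k := by
  induction k, hik using Nat.le_induction with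
  | base => simp [mid]
  | succ n hn ih =>
    have e := pre_succ M ⟨n, hk⟩
    have e' := pre_succ N ⟨n, hk⟩
    have := ih (by omega) fun j h1 h2 => h j h1 (by omega)
    simp only [mid] at e e' this ⊢
    rw [e, e', ← mul_assoc, ← mul_assoc, this, h ⟨n, hk⟩ hn (by simp)]

end handles

/-! Automorphisms and signs -/

def AutR (ψ : Fr g ≃* Fr g) : Prop := IsConj (ψ (relPre g g)) (relPre g g)
def act {H : Type} [Group H] (ψ : Fr g ≃* Fr g) (M : Gen g → H) : Gen g → H :=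
  fun x => FreeGroup.lift M (ψ (FreeGroup.of x))
theorem lift_act {H : Type} [Group H] (ψ : Fr g ≃* Fr g) (M : Gen g → H) (w : Fr g) :
    FreeGroup.lift (act ψ M) w = FreeGroup.lift M (ψ w) := by
  have : FreeGroup.lift (act ψ M) = (FreeGroup.lift M).comp ψ.toMonoidHom := by
    ext x; simp [act]
  rw [this]; rfl
def sg (ε : Gen g → Bool) (M : Tup g) : Tup g := fun x => cond (ε x) (-M x) (M x)

/-! Elliptic circles -/

def ell (x : G) : Prop := |tr x| < 2
/-- Traceless part. -/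
def tl (x : G) : Mat := (x : Mat) - (tr x / 2) • (1 : Mat)
def Jm (x : G) : Mat := (√(1 - tr x ^ 2 / 4))⁻¹ • tl x

theorem kk_det {x : G} (h : ell x) (t : ℝ) : (cos t • (1 : Mat) + sin t • Jm x).det = 1 := by
  have h1 : 0 < 1 - tr x ^ 2 / 4 := by
    have := abs_lt.1 h; nlinarith
  have h2 : √(1 - tr x ^ 2 / 4) ^ 2 = 1 - tr x ^ 2 / 4 := sq_sqrt h1.le
  have h3 : (√(1 - tr x ^ 2 / 4))⁻¹ * √(1 - tr x ^ 2 / 4) = 1 := inv_mul_cancel₀ (sqrt_pos.2 h1).ne'
  have h4 := basic_det x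
  have h5 := sin_sq_add_cos_sq t
  rw [Matrix.det_fin_two]
  simp only [Jm, tl, Matrix.add_apply, Matrix.smul_apply, Matrix.sub_apply, Matrix.one_apply_eq,
    Matrix.one_apply_ne (show (0 : Fin 2) ≠ 1 by decide),
    Matrix.one_apply_ne (show (1 : Fin 2) ≠ 0 by decide), smul_eq_mul]
  generalize (√(1 - tr x ^ 2 / 4))⁻¹ = u at *
  generalize √(1 - tr x ^ 2 / 4) = s at *
  unfold tr at *
  linear_combination h5 + sin t ^ 2 * u ^ 2 * h4 - sin t ^ 2 * u ^ 2 * h2 +
    sin t ^ 2 * (u * s + 1) * h3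

open Classical in
def kk (x : G) (t : ℝ) : G :=
  if h : ell x then ⟨cos t • (1 : Mat) + sin t • Jm x, kk_det h t⟩ else 1

/-- The linear condition satisfied by the first coordinates of pairs with commutator `c`. -/
def Pl (c x : G) : Prop := tr (x * c⁻¹) = tr x

/-- Elementary moves on a pair. -/
inductive HM1 : G × G → G × G → Prop
  | r1 (x y : G) : HM1 (x, y) (x, y * x)
  | r2 (x y : G) : HM1 (x, y) (x, y * x⁻¹)
  | l1 (x y : G) : HM1 (x, y) (x * y, y)
  | l2 (x y : G) : HM1 (x, y) (x * y⁻¹, y)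
  | f1 (x y : G) (t : ℝ) : ell x → HM1 (x, y) (x, y * kk x t)
  | f2 (x y : G) (t : ℝ) : ell y → HM1 (x, y) (x * kk y t, y)

def HM : G × G → G × G → Prop := Relation.ReflTransGen HM1

/-- Nielsen moves only. -/
inductive NM1 : G × G → G × G → Prop
  | r1 (x y : G) : NM1 (x, y) (x, y * x)
  | r2 (x y : G) : NM1 (x, y) (x, y * x⁻¹)
  | l1 (x y : G) : NM1 (x, y) (x * y, y)
  | l2 (x y : G) : NM1 (x, y) (x * y⁻¹, y)

def NM : G × G → G × G → Prop := Relation.ReflTransGen NM1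

/-- Twist circle along `a_j`. -/
def phi (j : Fin g) (t : ℝ) (M : Tup g) : Tup g := setH M j (ha M j) (hb M j * kk (ha M j) t)
/-- Twist circle along `b_j`. -/
def phib (j : Fin g) (t : ℝ) (M : Tup g) : Tup g := setH M j (ha M j * kk (hb M j) t) (hb M j)
/-- Twist circle along the separating curve `P_h`. -/
def sepf (h : ℕ) (t : ℝ) (M : Tup g) : Tup g := cjh M h (kk (pre M h) t)

/-! The universal cover -/

def LiftP (A : G) (f : ℝ ≃o ℝ) : Prop :=
  (∀ x, f (x + 1) = f x + 1) ∧ ∀ x, ∃ c : ℝ, 0 < c ∧ (A : Mat).mulVec (vec x) = c • vec (f x)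

theorem LiftP.lift {A : G} {f : ℝ ≃o ℝ} (h : LiftP A f) : Lift A f :=
  ⟨h.1, fun x => (h.2 x).imp fun _ hc => ⟨hc.1.ne', hc.2⟩⟩

def GtS : Subgroup (G × (ℝ ≃o ℝ)) where
  carrier := {q | LiftP q.1 q.2}
  one_mem' := ⟨fun _ => rfl, fun x => ⟨1, one_pos, by rw [one_smul]; exact lifts_one _⟩⟩
  mul_mem' := by
    rintro ⟨A, f⟩ ⟨B, f'⟩ h h'
    refine ⟨(h.lift.mul h'.lift).1, fun x => ?_⟩
    obtain ⟨c', hc', e'⟩ := h'.2 x
    obtain ⟨c, hc, e⟩ := h.2 (f' x)
    refine ⟨c' * c, mul_pos hc' hc, ?_⟩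
    simp only [Prod.fst_mul, Prod.snd_mul] at *
    rw [lifts_mul, e', Matrix.mulVec_smul, e, smul_smul, RelIso.mul_apply]
  inv_mem' := by
    rintro ⟨A, f⟩ h
    refine ⟨h.lift.inv.1, fun x => ?_⟩
    obtain ⟨c, hc, e⟩ := h.2 (f⁻¹ x)
    simp only [Prod.fst_inv, Prod.snd_inv] at *
    rw [RelIso.apply_inv_self] at e
    refine ⟨c⁻¹, inv_pos.2 hc, ?_⟩
    have e2 := congrArg ((A⁻¹ : G) : Mat).mulVec e
    rw [← lifts_mul, inv_mul_cancel, lifts_one, Matrix.mulVec_smul] at e2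
    rw [e2, smul_smul, inv_mul_cancel₀ hc.ne', one_smul]

/-- The universal cover of SL(2,R). -/
def Gt : Type := GtS
instance : Group Gt := inferInstanceAs (Group GtS)
/-- Projection to SL(2,R). -/
def pj : Gt →* G := (MonoidHom.fst _ _).comp GtS.subtype
/-- Action on the line. -/
def ap : Gt →* (ℝ ≃o ℝ) := (MonoidHom.snd _ _).comp GtS.subtype
theorem liftP (y : Gt) : LiftP (pj y) (ap y) := y.2
instance : TopologicalSpace Gt := TopologicalSpace.induced (fun y => (pj y, ap y 0)) inferInstance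

theorem liftP_rot (θ : ℝ) : LiftP (rot θ) (T θ) := by
  refine ⟨(lift_rot θ).1, fun x => ⟨1, one_pos, ?_⟩⟩
  rw [one_smul]
  apply lifts_ext <;>
    simp only [lifts_mv, lifts_v0, lifts_v1, basic_rot00, basic_rot01, basic_rot10, basic_rot11,
      T_apply, mul_add, cos_add, sin_add] <;> ring

def zt (θ : ℝ) : Gt := ⟨(rot θ, T θ), liftP_rot θ⟩
@[simp] theorem pj_zt (θ : ℝ) : pj (zt θ) = rot θ := rfl
@[simp] theorem ap_zt (θ t : ℝ) : ap (zt θ) t = t + θ := rfl

open Classical in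
/-- Some lift. -/
def lf (A : G) : Gt := if h : ∃ y : Gt, pj y = A then h.choose else 1
def cmt (x y : G) : Gt := cm (lf x) (lf y)
def Rt (M : Tup g) (k : ℕ) : Gt := pre (fun z => lf (M z)) k
def Th (h : ℕ) : Set Gt :=
  {y | (∃ t, ap y t < t + (2 * h - 1)) ∧ ∃ t, t - (2 * h - 1) < ap y t}
def Hp : Set Gt := {y | y ∈ Th 1 ∧ 2 < tr (pj y)}
/-- The component of Euler number `e`. -/
def X (g : ℕ) (e : ℤ) : Set (Tup g) := {M | Rt M g = zt e}
/-- Chains from `p 0 = p₀` to `p h = q` whose steps are non-trivial commutators other than `f`. -/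
def Ch (f : Gt) (h : ℕ) (p₀ q : Gt) : Set (ℕ → Gt) :=
  {p | p 0 = p₀ ∧ (∀ j, h ≤ j → p j = q) ∧
    ∀ j, j < h → p (j + 1) * (p j)⁻¹ ∈ Th 1 ∧ p (j + 1) * (p j)⁻¹ ≠ 1 ∧ p (j + 1) * (p j)⁻¹ ≠ f}
def TT (g : ℕ) (e : ℤ) : Set (ℕ → Gt) :=
  {p | p 0 = 1 ∧ p 1 ∈ Hp ∧ (fun j => p (j + 1)) ∈ Ch (p 1)⁻¹ (g - 1) (p 1) (zt e)}

/-- A colouring of pairs with lifted commutator `y`. -/
structure Col (y : Gt) (col : G × G → Prop) : Prop where
  loc : ∀ p : G × G, cmt p.1 p.2 = y → ∀ᶠ q in 𝓝 p, cmt q.1 q.2 = y → (col q ↔ col p)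
  sg1 : ∀ a b, cmt a b = y → (col (-a, b) ↔ col (a, b))
  sg2 : ∀ a b, cmt a b = y → (col (a, -b) ↔ col (a, b))
  hm : ∀ p q : G × G, cmt p.1 p.2 = y → HM1 p q → (col q ↔ col p)

/-! Calculus -/

def cmE (m : Amb g) (j : Fin g) : Mat :=
  Matrix.of (m (j, false)) * Matrix.of (m (j, true)) * (Matrix.of (m (j, false))).adjugate *
    (Matrix.of (m (j, true))).adjugate
def preE (m : Amb g) (k : ℕ) : Mat := (((List.finRange g).take k).map (cmE m)).prod
/-- Determinants and the traceless part of the relator. -/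
def fE (m : Amb g) : (Gen g → ℝ) × ℝ × ℝ × ℝ :=
  (fun x => (Matrix.of (m x)).det, preE m g 0 0 - preE m g 1 1, preE m g 0 1, preE m g 1 0)
def tv (M : Tup g) (α : Gen g → Mat) : Amb g := fun x i j => ((M x : Mat) * α x) i j
def TL (α : Gen g → Mat) : Prop := ∀ x, (α x).trace = 0
/-- Conjugation of a matrix by a group element. -/
def ad (k : G) (Z : Mat) : Mat := (k : Mat) * Z * ((k⁻¹ : G) : Mat)
def dd (a b : G) (α β : Mat) : Mat := ad (a * b) (ad b⁻¹ α - α + β - ad a⁻¹ β)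
def fox (M : Tup g) (α : Gen g → Mat) (k : ℕ) : Mat :=
  ∑ j : Fin g, if (j : ℕ) < k then
    ad (pre M j) (dd (ha M j) (hb M j) (α (j, false)) (α (j, true))) else 0
def Fx (M : Tup g) (J : Set (Fin g)) : Prop :=
  ∀ Z : Mat, Z.trace = 0 → (∀ j ∈ J, ad (cj (pre M j) (ha M j)) Z = Z ∧
    ad (cj (pre M j) (hb M j)) Z = Z) → Z = 0
def NA (M : Tup g) : Prop := ∃ x y, M x * M y ≠ M y * M x

/-! Measure and steps -/

def mu (g : ℕ) (e : ℤ) : Measure (Tup g) := (Measure.comap io (vol g)).restrict (X g e)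

section steps
variable {P : Type} [NormedAddCommGroup P] [NormedSpace ℝ P]

def SmAt (Φ : P → Tup g → Tup g) (p₀ : P) (M₀ : Tup g) : Prop :=
  ∃ F : P × Amb g → Amb g, ContDiffAt ℝ 1 F (p₀, io M₀) ∧
    ∀ᶠ z in 𝓝 (p₀, M₀), io (Φ z.1 z.2) = F (z.1, io z.2)

structure Step (e : ℤ) (S : Set (Tup g)) (Φ : P → Tup g → Tup g) (p₀ : P) (M₀ : Tup g) : Prop where
  sm : SmAt Φ p₀ M₀
  ev : ∃ O ∈ 𝓝 M₀, ∀ᶠ p in 𝓝 p₀, Set.MapsTo (Φ p) (O ∩ X g e) (X g e) ∧
    (∀ B, mu g e B = 0 → mu g e (O ∩ Φ p ⁻¹' B) = 0) ∧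
    ∀ᵐ N ∂mu g e, N ∈ O → (N ∈ S ↔ Φ p N ∈ S)

end steps

/-- A single map that is a step. -/
def St (e : ℤ) (S : Set (Tup g)) (Γ : Tup g → Tup g) (M : Tup g) : Prop :=
  Step e S (fun _ : ℝ => Γ) 0 M

structure Inv (e : ℤ) (S : Set (Tup g)) : Prop where
  meas : MeasurableSet S
  aut : ∀ ψ, AutR ψ → ∀ᵐ M ∂mu g e, M ∈ S ↔ act ψ M ∈ S
  sgn : ∀ ε, ∀ᵐ M ∂mu g e, M ∈ S ↔ sg ε M ∈ S

def Om (e : ℤ) (S : Set (Tup g)) : Set (Tup g) :=
  {M | M ∈ X g e ∧ ∃ O ∈ 𝓝 M, mu g e (O \ S) = 0}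

def Vel (e : ℤ) (S : Set (Tup g)) (M : Tup g) (α : Gen g → Mat) : Prop :=
  ∃ Φ : ℝ → Tup g → Tup g, Step e S Φ 0 M ∧ (∀ᶠ N in 𝓝 M, Φ 0 N = N) ∧
    HasDerivAt (fun t => io (Φ t M)) (tv M α) 0

/-- Transport from `M` to `N` whose inverse only changes the coordinates in `K`. -/
def Tr (e : ℤ) (S : Set (Tup g)) (K : Set (Gen g)) (M N : Tup g) : Prop :=
  ∃ Γ Γ' : Tup g → Tup g, St e S Γ M ∧ St e S Γ' N ∧ Γ M = N ∧
    (∀ᶠ L in 𝓝 M, Γ' (Γ L) = L) ∧ ∀ z, z ∉ K → ∀ᶠ L in 𝓝 N, Γ' L z = L z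

def UU (g : ℕ) [NeZero g] (e : ℤ) : Set (Tup g) :=
  {M | M ∈ X g e ∧ ell (ha M 0) ∧ hc M 0 ≠ 1 ∧
    ∀ j, j ≠ 0 → hc M j ≠ 1 ∧ cj (pre M j) (hc M j) * hc M 0 ≠ 1}

/-- Generic tuples: no simple curve has trace of absolute value 2. -/
def Gn (M : Tup g) : Prop :=
  ∀ ψ, AutR ψ → (∀ k, |tr (ha (act ψ M) k)| ≠ 2) ∧
    ∀ h, 0 < h → h < g → |tr (pre (act ψ M) h)| ≠ 2

end

end Pool.Agent.MP_596265_gt.Erg

/-! Pure topology: descent of locally constant colourings, removal of countable sets. -/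

namespace Pool.Agent.MP_596265_gt.Erg

open Filter Topology Set

theorem col_of_preconn {α : Type} [TopologicalSpace α] {A : Set α} (hA : IsPreconnected A)
    {col : α → Prop} (hl : ∀ a ∈ A, ∀ᶠ a' in 𝓝[A] a, (col a' ↔ col a)) :
    ∀ a ∈ A, ∀ a' ∈ A, (col a ↔ col a') := fun _ ha _ ha' =>
  hA.induction₂' (fun x y => col x ↔ col y)
    (fun x hx => (hl x hx).mono fun _ h => ⟨h.symm, h⟩) (fun _ _ _ _ _ _ h h' => h.trans h') ha ha'

theorem col_const {α β : Type} [TopologicalSpace α] [TopologicalSpace β] {A : Set α} {p : α → β}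
    (ho : ∀ a ∈ A, 𝓝[p '' A] (p a) ≤ map p (𝓝[A] a)) (hb : IsPreconnected (p '' A))
    {col : α → Prop} (hl : ∀ a ∈ A, ∀ᶠ a' in 𝓝[A] a, (col a' ↔ col a))
    (hf : ∀ a ∈ A, ∀ a' ∈ A, p a = p a' → (col a ↔ col a')) :
    ∀ a ∈ A, ∀ a' ∈ A, (col a ↔ col a') := by
  have key : ∀ a ∈ A, ((∃ x ∈ A, p x = p a ∧ col x) ↔ col a) := fun a ha =>
    ⟨fun ⟨x, hx, e, c⟩ => (hf x hx a ha e).1 c, fun c => ⟨a, ha, rfl, c⟩⟩
  have h := col_of_preconn hb (col := fun b => ∃ x ∈ A, p x = b ∧ col x) (by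
    rintro _ ⟨a, ha, rfl⟩
    refine Eventually.filter_mono (ho a ha) ?_
    rw [eventually_map]
    filter_upwards [hl a ha, self_mem_nhdsWithin] with a' h1 h2
    rw [key a' h2, key a ha, h1])
  intro a ha a' ha'
  rw [← key a ha, ← key a' ha']
  exact h _ ⟨a, ha, rfl⟩ _ ⟨a', ha', rfl⟩

theorem preconn_of_col {α : Type} [TopologicalSpace α] {A : Set α}
    (h : ∀ col : α → Prop, (∀ a ∈ A, ∀ᶠ a' in 𝓝[A] a, (col a' ↔ col a)) →
      ∀ a ∈ A, ∀ a' ∈ A, (col a ↔ col a')) : IsPreconnected A := by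
  rintro u v hu hv hc ⟨a, ha, hau⟩ ⟨b, hb, hbv⟩
  by_contra hn
  have hd : ∀ x ∈ A, x ∈ u → x ∈ v → False := fun x h1 h2 h3 => hn ⟨x, h1, h2, h3⟩
  refine hd b hb ((h (fun x => x ∈ u) (fun x hx => ?_) a ha b hb).1 hau) hbv
  rcases hc hx with h1 | h1
  · filter_upwards [mem_nhdsWithin_of_mem_nhds (hu.mem_nhds h1)] with y hy
    exact iff_of_true hy h1
  · filter_upwards [mem_nhdsWithin_of_mem_nhds (hv.mem_nhds h1), self_mem_nhdsWithin] with y hy hA
    exact iff_of_false (fun h2 => hd y hA h2 hy) fun h2 => hd x hx h2 h1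

theorem pc_fib {α β : Type} [TopologicalSpace α] [TopologicalSpace β] {A : Set α} {p : α → β}
    (ho : ∀ a ∈ A, 𝓝[p '' A] (p a) ≤ map p (𝓝[A] a)) (hb : IsPreconnected (p '' A))
    (hf : ∀ b, IsPreconnected (A ∩ p ⁻¹' {b})) : IsPreconnected A :=
  preconn_of_col fun _ hl => col_const ho hb hl fun a ha a' ha' e =>
    col_of_preconn (hf (p a))
      (fun x hx => (hl x hx.1).filter_mono (nhdsWithin_mono _ inter_subset_left))
      a ⟨ha, rfl⟩ a' ⟨ha', e.symm⟩

theorem xq_ball {C : Set (ℝ × ℝ × ℝ)} (hC : C.Countable) (x : ℝ × ℝ × ℝ) {r : ℝ} (hr : 0 < r) :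
    IsPreconnected (Metric.ball x r \ C) := by
  set f : OpenPartialHomeomorph (ℝ × ℝ × ℝ) (ℝ × ℝ × ℝ) := OpenPartialHomeomorph.univBall x r
    with hf
  have hs : f.source = univ := OpenPartialHomeomorph.univBall_source x r
  have ht : f.target = Metric.ball x r := OpenPartialHomeomorph.univBall_target x hr
  have hi : Function.Injective f := by
    rw [← injOn_univ, ← hs]; exact f.injOn
  have hc : (f ⁻¹' C).Countable := hC.preimage hi
  have h1 : IsPreconnected (f ⁻¹' C)ᶜ :=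
    (hc.isConnected_compl_of_one_lt_rank (by simp only [rank_prod, Module.rank_self, Cardinal.lift_id]; norm_num)).2
  have h2 : f '' (f ⁻¹' C)ᶜ = Metric.ball x r \ C := by
    rw [← preimage_compl, image_preimage_eq_inter_range, ← image_univ, ← hs,
      f.image_source_eq_target, ht, inter_comm, sdiff_eq]
  rw [← h2]
  exact h1.image f (f.continuousOn.mono (by rw [hs]; exact subset_univ _))

theorem rem3 {U C : Set (ℝ × ℝ × ℝ)} (hU : IsOpen U) (hc : IsPreconnected U) (hC : C.Countable) :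
    IsPreconnected (U \ C) ∧ U ⊆ closure (U \ C) := by
  have hd : U ⊆ closure (U \ C) := (hC.dense_compl ℝ).open_subset_closure_inter hU
  refine ⟨preconn_of_col fun col hl => ?_, hd⟩
  have key : ∀ x ∈ U, ∃ c : Prop, ∀ᶠ y in 𝓝 x, y ∈ U → ((∀ᶠ z in 𝓝[U \ C] y, col z) ↔ c) := by
    intro x hx
    obtain ⟨r, hr, hB⟩ := Metric.isOpen_iff.1 hU x hx
    have hsub : Metric.ball x r \ C ⊆ U \ C := sdiff_subset_sdiff_left hB
    have h1 := col_of_preconn (xq_ball hC x hr)
      (fun a ha => (hl a (hsub ha)).filter_mono (nhdsWithin_mono _ hsub))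
    refine ⟨∀ z ∈ Metric.ball x r \ C, col z, ?_⟩
    filter_upwards [Metric.ball_mem_nhds x hr] with y hy hyU
    have hne : (𝓝[U \ C] y).NeBot := mem_closure_iff_nhdsWithin_neBot.1 (hd hyU)
    have hev : ∀ᶠ z in 𝓝[U \ C] y, z ∈ Metric.ball x r \ C := by
      filter_upwards [mem_nhdsWithin_of_mem_nhds (Metric.isOpen_ball.mem_nhds hy),
        self_mem_nhdsWithin] with z h2 h3
      exact ⟨h2, h3.2⟩
    refine ⟨fun h z hz => ?_, fun h => hev.mono h⟩
    obtain ⟨w, hw, hw'⟩ := (h.and hev).exists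
    exact (h1 w hw' z hz).1 hw
  have h2 := col_of_preconn hc (col := fun y => ∀ᶠ z in 𝓝[U \ C] y, col z) fun x hx => by
    obtain ⟨c, h⟩ := key x hx
    filter_upwards [mem_nhdsWithin_of_mem_nhds h, self_mem_nhdsWithin] with y hy hyU
    exact (hy hyU).trans (h.self_of_nhds hx).symm
  have h3 : ∀ a ∈ U \ C, ((∀ᶠ z in 𝓝[U \ C] a, col z) ↔ col a) := fun a ha =>
    ⟨fun h => h.self_of_nhdsWithin ha, fun h => (hl a ha).mono fun _ e => e.2 h⟩
  intro a ha a' ha'
  rw [← h3 a ha, ← h3 a' ha']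
  exact h2 a ha.1 a' ha'.1

end Pool.Agent.MP_596265_gt.Erg

/-! The universal cover as a topological group. -/

namespace Pool.Agent.MP_596265_gt.Erg

open Real Filter Topology MeasureTheory Set

variable {g : ℕ}

theorem xg_ext {y y' : Gt} (h : PM (pj y) (pj y')) (h0 : ap y 0 = ap y' 0) : y = y' := by
  obtain ⟨k, hk⟩ := ((liftP y).lift.pm h).unique (liftP y').lift
  have k0 : (k : ℝ) = 0 := by have := hk 0; linarith
  have e : ap y = ap y' := by ext x; rw [hk, k0, add_zero]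
  rcases h with h | h
  · exact Subtype.ext (Prod.ext h e)
  · obtain ⟨c, hc, e1⟩ := (liftP y).2 0
    obtain ⟨c', hc', e2⟩ := (liftP y').2 0
    rw [h, h0, Matrix.SpecialLinearGroup.coe_neg, Matrix.neg_mulVec, e2, neg_eq_iff_add_eq_zero,
      ← add_smul, smul_eq_zero] at e1
    exact (e1.elim (add_pos hc' hc).ne' (vec_ne_zero _)).elim

theorem gt_ext {y y' : Gt} (h : pj y = pj y') (h0 : ap y 0 = ap y' 0) : y = y' :=
  xg_ext (Or.inl h) h0
theorem ap_add_int (y : Gt) (t : ℝ) (n : ℤ) : ap y (t + n) = ap y t + n :=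
  (liftP y).lift.add_int t n
theorem ap_mul (y w : Gt) (t : ℝ) : ap (y * w) t = ap y (ap w t) := by
  rw [map_mul, RelIso.mul_apply]

theorem xg_w (i : Fin 2) : Continuous fun p : G × ℝ => (p.1 : Mat).mulVec (vec p.2) i := by
  simp only [lifts_mv, lifts_v0, lifts_v1]
  have h0 := (basic_cont i 0).comp (continuous_fst (X := G) (Y := ℝ))
  have h1 := (basic_cont i 1).comp (continuous_fst (X := G) (Y := ℝ))
  exact (h0.mul (by fun_prop)).add (h1.mul (by fun_prop))

theorem xg_dot {v : Fin 2 → ℝ} {c u : ℝ} (h : v = c • vec u) (s : ℝ) :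
    cos (π * s) * v 0 + sin (π * s) * v 1 = c * cos (π * (u - s)) ∧
      cos (π * s) * v 1 - sin (π * s) * v 0 = c * sin (π * (u - s)) := by
  subst h
  simp only [Pi.smul_apply, smul_eq_mul, lifts_v0, lifts_v1, mul_sub, cos_sub, sin_sub]
  constructor <;> ring

theorem pj_surj (A : G) : ∃ y : Gt, pj y = A := by
  obtain ⟨f, hf⟩ := exists_lift A
  choose c hc e using hf.2
  have ec : c = fun x => cos (π * f x) * (A : Mat).mulVec (vec x) 0 +
      sin (π * f x) * (A : Mat).mulVec (vec x) 1 := by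
    funext x; rw [(xg_dot (e x) (f x)).1]; simp
  have hcc : Continuous c := by
    have h0 := (xg_w 0).comp (Continuous.prodMk_right A)
    have h1 := (xg_w 1).comp (Continuous.prodMk_right A)
    have h2 := f.continuous
    rw [ec]
    exact Continuous.add (Continuous.mul (by fun_prop) h0) (Continuous.mul (by fun_prop) h1)
  have key : ∀ x x', c x < 0 → 0 < c x' → False := fun x x' h h' => by
    obtain ⟨z, hz⟩ := intermediate_value_univ x x' hcc ⟨h.le, h'.le⟩
    exact hc z hz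
  rcases lt_or_gt_of_ne (hc 0) with h | h
  · refine ⟨⟨(A, T 1 * f), fun x => ?_, fun x => ⟨-c x, ?_, ?_⟩⟩, rfl⟩
    · simp only [RelIso.mul_apply, T_apply, hf.1]
    · exact neg_pos.2 (lt_of_le_of_ne (not_lt.1 fun h' => key 0 x h h') (hc x))
    · rw [e]
      apply lifts_ext <;>
        simp only [Fin.isValue, Pi.smul_apply, lifts_v0, smul_eq_mul, RelIso.mul_apply, T_apply, mul_add, mul_one, cos_add_pi, mul_neg, neg_mul, neg_neg, lifts_v1, sin_add_pi]
  · exact ⟨⟨(A, f), hf.1, fun x =>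
      ⟨c x, lt_of_le_of_ne (not_lt.1 fun h' => key x 0 h' h) (hc x).symm, e x⟩⟩, rfl⟩
theorem pj_lf (A : G) : pj (lf A) = A := by
  unfold lf; rw [dif_pos (pj_surj A)]; exact (pj_surj A).choose_spec
theorem zt_add (s t : ℝ) : zt (s + t) = zt s * zt t :=
  gt_ext (by rw [map_mul]; exact rot_add s t) (by rw [ap_mul]; simp only [ap_zt]; ring)
theorem zt_zero : zt 0 = 1 := gt_ext (by rw [map_one]; exact rot_zero) (by simp only [ap_zt, add_zero, map_one, RelIso.coe_one, id_eq])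
theorem zt_neg (s : ℝ) : zt (-s) = (zt s)⁻¹ := by
  rw [eq_inv_iff_mul_eq_one, ← zt_add, neg_add_cancel, zt_zero]
theorem xg_rot (n : ℤ) : PM (rot n) 1 := by
  have := rot_add_int 0 n
  rwa [zero_add, rot_zero] at this
theorem xg_ap (y : Gt) (n : ℤ) : ap (y * zt n) 0 = ap y 0 + n := by
  rw [ap_mul, ap_zt, ap_add_int]
theorem xg_pm (y : Gt) (n : ℤ) : PM (pj (y * zt n)) (pj y) := by
  have := (PM.refl (pj y)).mul (xg_rot n)
  rwa [mul_one, ← pj_zt, ← map_mul] at this
theorem zt_central (n : ℤ) (y : Gt) : zt n * y = y * zt n := by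
  refine xg_ext (PM.trans ?_ (xg_pm y n).symm) (by rw [xg_ap, ap_mul, ap_zt])
  have := (xg_rot n).mul (PM.refl (pj y))
  rwa [one_mul, ← pj_zt, ← map_mul] at this
theorem pm_eq {y y' : Gt} (h : PM (pj y) (pj y')) : ∃ n : ℤ, y' = y * zt n := by
  obtain ⟨k, hk⟩ := ((liftP y).lift.pm h).unique (liftP y').lift
  exact ⟨k, xg_ext (h.symm.trans (xg_pm y k).symm) (by rw [xg_ap, hk])⟩
theorem xg_rot2 (n : ℤ) : rot (2 * n) = 1 := by
  have e : π * (2 * n) = n * (2 * π) := by ring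
  have e' : π * (2 * n) = (2 * n : ℤ) * π := by push_cast; ring
  have h1 : cos (π * (2 * n)) = 1 := by rw [e, cos_int_mul_two_pi]
  have h2 : sin (π * (2 * n)) = 0 := by rw [e', sin_int_mul_pi]
  apply basic_ext <;> simp only [basic_rot00, basic_rot01, basic_rot10, basic_rot11, h1, h2,
    basic_one00, basic_one01, basic_one10, basic_one11, neg_zero]
theorem pj_eq {y y' : Gt} (h : pj y = pj y') : ∃ n : ℤ, y' = y * zt (2 * n) := by
  obtain ⟨k, rfl⟩ := pm_eq (Or.inl h)
  obtain ⟨n, rfl | rfl⟩ := Int.even_or_odd' k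
  · exact ⟨n, by push_cast; rfl⟩
  · rw [map_mul, left_eq_mul, pj_zt] at h
    push_cast at h
    rw [rot_add, xg_rot2, rot_one, one_mul] at h
    have := congrArg tr h
    rw [tr_neg, tr_one] at this
    norm_num at this
theorem xg_ind : IsInducing fun y : Gt => (pj y, ap y 0) := ⟨rfl⟩
theorem continuous_pj : Continuous pj := xg_ind.continuous.fst
theorem xg_c0 : Continuous fun y : Gt => ap y 0 := xg_ind.continuous.snd

theorem xg_tend {α : Type} {l : Filter α} {y : α → Gt} {t : α → ℝ} {y₀ : Gt} {t₀ : ℝ}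
    (h1 : Tendsto (fun x => pj (y x)) l (𝓝 (pj y₀))) (h2 : Tendsto t l (𝓝 t₀))
    (h3 : ∀ᶠ x in l, |ap (y x) (t x) - ap y₀ t₀| < 3 / 2) :
    Tendsto (fun x => ap (y x) (t x)) l (𝓝 (ap y₀ t₀)) := by
  obtain ⟨c₀, hc₀, e₀⟩ := (liftP y₀).2 t₀
  generalize ap y₀ t₀ = s at *
  have w := fun i => ((xg_w i).tendsto _).comp (h1.prodMk_nhds h2)
  have a := ((w 0).const_mul (cos (π * s))).add ((w 1).const_mul (sin (π * s)))
  have b := ((w 1).const_mul (cos (π * s))).sub ((w 0).const_mul (sin (π * s)))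
  simp only [Function.comp, (xg_dot e₀ s).1, (xg_dot e₀ s).2, sub_self, mul_zero, cos_zero,
    sin_zero, mul_one] at a b
  have d := (((continuous_arctan.tendsto _).comp (b.div a hc₀.ne')).div_const π).const_add s
  simp only [zero_div, arctan_zero, add_zero] at d
  refine d.congr' ?_
  filter_upwards [h3, a.eventually (lt_mem_nhds hc₀)] with x hx hx'
  obtain ⟨c, hc, e⟩ := (liftP (y x)).2 (t x)
  simp only [Function.comp, Pi.div_apply, (xg_dot e s).1, (xg_dot e s).2] at hx' ⊢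
  generalize ap (y x) (t x) = u at *
  have hp : |π * (u - s)| < π / 2 := by
    by_contra hn
    have := cos_nonpos_of_pi_div_two_le_of_le (not_lt.1 hn) (by
      rw [abs_mul, abs_of_pos pi_pos]; nlinarith only [pi_pos, hx])
    rw [cos_abs] at this
    exact absurd ((mul_pos_iff_of_pos_left hc).1 hx') (not_lt.2 this)
  rw [mul_div_mul_left _ _ hc.ne', ← tan_eq_sin_div_cos,
    arctan_tan (abs_lt.1 hp).1 (abs_lt.1 hp).2, mul_div_cancel_left₀ _ pi_ne_zero, add_sub_cancel]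

theorem xg_one (y : Gt) (t : ℝ) : ap y (t + 1) = ap y t + 1 := (liftP y).1 t

theorem xg_ct (t : ℝ) : Continuous fun y : Gt => ap y t := by
  refine continuous_iff_continuousAt.2 fun y₀ =>
    xg_tend (continuous_pj.tendsto y₀) tendsto_const_nhds ?_
  have key : ∀ y : Gt, ap y 0 + ⌊t⌋ ≤ ap y t ∧ ap y t ≤ ap y 0 + ⌊t⌋ + 1 := fun y => by
    rw [← ap_add_int, ← xg_one, zero_add]
    exact ⟨(ap y).monotone (Int.floor_le t), (ap y).monotone (Int.lt_floor_add_one t).le⟩
  filter_upwards [Metric.tendsto_nhds.1 (xg_c0.tendsto y₀) (1 / 2) (by norm_num)] with y hy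
  rw [Real.dist_eq, abs_lt] at hy
  have := key y
  have := key y₀
  rw [abs_lt]
  constructor <;> linarith

theorem continuous_ap : Continuous fun p : Gt × ℝ => ap p.1 p.2 := by
  refine continuous_iff_continuousAt.2 fun p₀ =>
    xg_tend ((continuous_pj.comp continuous_fst).tendsto p₀) (continuous_snd.tendsto p₀) ?_
  filter_upwards [Metric.tendsto_nhds.1 (((xg_ct p₀.2).comp continuous_fst).tendsto p₀) (1 / 2)
    (by norm_num), Metric.tendsto_nhds.1 (continuous_snd.tendsto p₀) 1 one_pos] with p h1 h2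
  rw [Real.dist_eq, abs_lt] at h1 h2
  have h3 := (ap p.1).monotone (show p.2 ≤ p₀.2 + 1 by linarith only [h2])
  have h4 := (ap p.1).monotone (show p₀.2 ≤ p.2 + 1 by linarith only [h2])
  rw [xg_one] at h3 h4
  simp only [Function.comp] at h1
  rw [abs_lt]
  constructor <;> linarith
theorem continuous_gt {α : Type} [TopologicalSpace α] {f : α → Gt} {a : α}
    (h1 : ContinuousAt (fun x => pj (f x)) a) (h2 : ContinuousAt (fun x => ap (f x) 0) a) :
    ContinuousAt f a := xg_ind.continuousAt_iff.2 (h1.prodMk h2)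
instance : IsTopologicalGroup Gt where
  continuous_mul := continuous_iff_continuousAt.2 fun p => continuous_gt
    (by
      simp only [map_mul]
      exact ((continuous_pj.comp continuous_fst).mul
        (continuous_pj.comp continuous_snd)).continuousAt)
    (by
      simp only [ap_mul]
      exact (continuous_ap.comp
        (continuous_fst.prodMk (xg_c0.comp continuous_snd))).continuousAt)
  continuous_inv := continuous_iff_continuousAt.2 fun y₀ => by
    have h : ContinuousAt (fun y : Gt => pj y⁻¹) y₀ := by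
      simp only [map_inv]; exact continuous_pj.inv.continuousAt
    refine continuous_gt h (xg_tend h tendsto_const_nhds ?_)
    have e : ∀ y : Gt, ap y (ap y⁻¹ 0) = 0 := fun y => by rw [← ap_mul, mul_inv_cancel]; simp only [map_one, RelIso.coe_one, id_eq]
    filter_upwards [Metric.tendsto_nhds.1 ((xg_ct (ap y₀⁻¹ 0)).tendsto y₀) 1 one_pos] with y hy
    rw [Real.dist_eq, e, abs_lt] at hy
    have h3 : ap y⁻¹ 0 < ap y₀⁻¹ 0 + 1 := (ap y).lt_iff_lt.1 (by rw [xg_one, e]; linarith)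
    have h4 : ap y₀⁻¹ 0 < ap y⁻¹ 0 + 1 := (ap y).lt_iff_lt.1 (by rw [xg_one, e]; linarith only [hy])
    rw [abs_lt]
    constructor <;> linarith only [h4, h3]
instance : T2Space Gt :=
  IsEmbedding.t2Space ⟨xg_ind, fun _ _ h => gt_ext (Prod.mk.inj h).1 (Prod.mk.inj h).2⟩
theorem continuous_zt : Continuous zt := continuous_iff_continuousAt.2 fun _ =>
  continuous_gt continuous_rot.continuousAt (by simp only [ap_zt]; fun_prop)
theorem xg_eq {y y' : Gt} (h : pj y = pj y') (h0 : |ap y' 0 - ap y 0| < 2) : y = y' := by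
  obtain ⟨n, rfl⟩ := pj_eq h
  have e := xg_ap y (2 * n)
  push_cast at e
  rw [e, add_sub_cancel_left, abs_mul, abs_two] at h0
  have h1 : |n| < 1 := by exact_mod_cast (show |(n : ℝ)| < 1 by linarith only [h0])
  rw [Int.abs_lt_one_iff.1 h1]
  simp [zt_zero]
theorem exists_section (y : Gt) : ∃ s : G → Gt, ContinuousAt s (pj y) ∧ s (pj y) = y ∧
    ∀ᶠ A in 𝓝 (pj y), pj (s A) = A := by
  have key : ∀ A : G, ∃ w : Gt, pj w = A ∧ |ap w 0 - ap y 0| ≤ 1 := fun A => by
    obtain ⟨w, rfl⟩ := pj_surj A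
    have h := abs_sub_round ((ap y 0 - ap w 0) / 2)
    generalize round ((ap y 0 - ap w 0) / 2) = n at h
    have e := xg_ap w (2 * n)
    push_cast at e
    refine ⟨w * zt (2 * n), by rw [map_mul, pj_zt, xg_rot2, mul_one], ?_⟩
    rw [e]
    rw [abs_le] at h ⊢
    constructor <;> linarith
  choose s h1 h2 using key
  have e : s (pj y) = y := (xg_eq (h1 _).symm ((h2 _).trans_lt one_lt_two)).symm
  have h : ContinuousAt (fun A => pj (s A)) (pj y) := by simp only [h1]; exact continuousAt_id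
  refine ⟨s, continuous_gt h (xg_tend h tendsto_const_nhds ?_), e, Eventually.of_forall h1⟩
  rw [e]
  exact Eventually.of_forall fun A => (h2 A).trans_lt (by norm_num)
theorem pj_loc_inj (y : Gt) : ∃ O ∈ 𝓝 y, InjOn pj O := by
  refine ⟨_, Metric.tendsto_nhds.1 (xg_c0.tendsto y) 1 one_pos, fun a ha b hb h => xg_eq h ?_⟩
  simp only [mem_ofPred_eq, Real.dist_eq, abs_lt] at ha hb ⊢
  constructor <;> linarith

end Pool.Agent.MP_596265_gt.Erg

/-! Coordinates on the universal cover. -/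

namespace Pool.Agent.MP_596265_gt.Erg

open Real Filter Topology MeasureTheory Set

variable {g : ℕ}

/-- The lift that fixes `0`. -/
noncomputable def xi_up (A : G) : Gt := zt (-ap (lf A) 0) * lf A
/-- Upper triangular matrices. -/
noncomputable def xi_U (l s : ℝ) : G :=
  ⟨!![exp l, s; 0, exp (-l)], by simp [Matrix.det_fin_two, ← exp_add]⟩
theorem xi_vec (y : Gt) (t : ℝ) : ∃ c, 0 < c ∧
    pj y 0 0 * cos (π * t) + pj y 0 1 * sin (π * t) = c * cos (π * ap y t) ∧
    pj y 1 0 * cos (π * t) + pj y 1 1 * sin (π * t) = c * sin (π * ap y t) := by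
  obtain ⟨c, hc, e⟩ := (liftP y).2 t
  exact ⟨c, hc, (lifts_mv ..).symm.trans (congrFun e 0), (lifts_mv ..).symm.trans (congrFun e 1)⟩
theorem xi_fix {y : Gt} (h : ap y 0 = 0) : pj y 1 0 = 0 ∧ 0 < pj y 0 0 := by
  obtain ⟨c, hc, a, b⟩ := xi_vec y 0
  simp [h] at a b
  exact ⟨b, a ▸ hc⟩
theorem xi_u {A : G} (h : A 1 0 = 0) (h' : 0 < A 0 0) : pj (xi_up A) = A ∧ ap (xi_up A) 0 = 0 := by
  obtain ⟨c, hc, a, b⟩ := xi_vec (lf A) 0
  simp only [pj_lf, Fin.isValue, mul_zero, cos_zero, mul_one, sin_zero, add_zero, h, zero_eq_mul, hc.ne', false_or] at a b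
  have p : 0 < cos (π * ap (lf A) 0) := (mul_pos_iff_of_pos_left hc).1 (a ▸ h')
  have q := sin_sq_add_cos_sq (π * ap (lf A) 0)
  have r : cos (π * ap (lf A) 0) = 1 := by rw [b] at q; nlinarith only [p, q]
  refine ⟨?_, by simp only [xi_up, map_mul, RelIso.coe_mul, Function.comp_apply, ap_zt, add_neg_cancel]⟩
  rw [xi_up, map_mul, pj_lf, pj_zt, show rot (-ap (lf A) 0) = 1 from
    basic_ext (by simpa only [Fin.isValue, basic_rot00, mul_neg, cos_neg, Matrix.SpecialLinearGroup.coe_one, Matrix.one_apply_eq]) (by simpa only [Fin.isValue, basic_rot01, mul_neg, sin_neg, neg_neg, Matrix.SpecialLinearGroup.coe_one, ne_eq, zero_ne_one, not_false_eq_true, Matrix.one_apply_ne]) (by simpa only [Fin.isValue, basic_rot10, mul_neg, sin_neg, Matrix.SpecialLinearGroup.coe_one, ne_eq, one_ne_zero, not_false_eq_true, Matrix.one_apply_ne, neg_eq_zero])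
      (by simpa only [Fin.isValue, basic_rot11, mul_neg, cos_neg, Matrix.SpecialLinearGroup.coe_one, Matrix.one_apply_eq]), one_mul]
theorem xi_c0 : Continuous fun y : Gt => ap y 0 :=
  continuous_ap.comp (continuous_id.prodMk continuous_const)
theorem xi_contAt {α : Type} [TopologicalSpace α] {l s : α → ℝ} {a : α} (hl : ContinuousAt l a)
    (hs : ContinuousAt s a) : ContinuousAt (fun a => xi_up (xi_U (l a) (s a))) a := by
  have u := fun a => xi_u (A := xi_U (l a) (s a)) rfl (exp_pos _)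
  refine continuous_gt ?_ (by simpa [(u _).2] using continuousAt_const)
  simp only [(u _).1]
  refine ContinuousAt.comp (g := fun q : ℝ × ℝ => xi_U q.1 q.2) (Continuous.continuousAt
    (Continuous.subtype_mk (continuous_matrix fun i j => ?_) _)) (hl.prodMk hs)
  fin_cases i <;> fin_cases j <;> simp <;> fun_prop
theorem xi_cont {α : Type} [TopologicalSpace α] {l s : α → ℝ} (hl : Continuous l)
    (hs : Continuous s) : Continuous fun a => xi_up (xi_U (l a) (s a)) :=
  continuous_iff_continuousAt.2 fun _ => xi_contAt hl.continuousAt hs.continuousAt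
theorem xi_mem {y : Gt} (h : ap y 0 = 0) {t : ℝ} (h0 : 0 < t) (h1 : t < 1) :
    0 < ap y t ∧ ap y t < 1 := by
  have := ap_add_int y 0 1
  simp only [h, Int.cast_one, zero_add] at this
  exact ⟨h ▸ (ap y).strictMono h0, this ▸ (ap y).strictMono h1⟩
/-- The sign of `sin π(r - s)` decides the order of two points of `(0, 1)`. -/
theorem xi_sin {r s : ℝ} (h0 : 0 < r) (h1 : r < s) (h2 : s < 1) : 0 < sin (π * s - π * r) :=
  sin_pos_of_pos_of_lt_pi (by nlinarith only [pi_pos, h1]) (by nlinarith [pi_pos])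
theorem xi_ap {y : Gt} (h : ap y 0 = 0) {t r : ℝ} (h0 : 0 < t) (h1 : t < 1) (h2 : 0 < r)
    (h3 : r < 1) (e : (pj y 0 0 * cos (π * t) + pj y 0 1 * sin (π * t)) * sin (π * r) =
      (pj y 1 0 * cos (π * t) + pj y 1 1 * sin (π * t)) * cos (π * r)) : ap y t = r := by
  obtain ⟨c, hc, a, b⟩ := xi_vec y t
  obtain ⟨k, k'⟩ := xi_mem h h0 h1
  rw [a, b] at e
  rcases lt_trichotomy (ap y t) r with n | n | n
  · have := mul_pos hc (xi_sin k n h3)
    rw [sin_sub] at this
    linarith only [e, this]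
  · exact n
  · have := mul_pos hc (xi_sin h2 n k')
    rw [sin_sub] at this
    linarith only [e, this]
theorem exists_xi : ∃ Ξ : (ℝ × ℝ × ℝ) ≃ₜ Gt, ∀ θ b, Ξ (θ, b) = zt θ * Ξ (0, b) := by
  have c : ∀ i j, Continuous fun y : Gt => pj (zt (-ap y 0) * y) i j := fun i j =>
    (basic_cont i j).comp (continuous_pj.comp ((continuous_zt.comp xi_c0.neg).mul continuous_id))
  have f : ∀ y : Gt, ap (zt (-ap y 0) * y) 0 = 0 := fun y => by simp only [map_mul, RelIso.coe_mul, Function.comp_apply, ap_zt, add_neg_cancel]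
  have u := fun b : ℝ × ℝ => xi_u (A := xi_U b.1 b.2) rfl (exp_pos _)
  refine ⟨⟨⟨fun q => zt q.1 * xi_up (xi_U q.2.1 q.2.2), fun y => (ap y 0,
    log (pj (zt (-ap y 0) * y) 0 0), pj (zt (-ap y 0) * y) 0 1), fun q => ?_, fun y => ?_⟩,
    (continuous_zt.comp continuous_fst).mul ((xi_cont (by fun_prop) (by fun_prop))),
    xi_c0.prodMk (((c 0 0).log fun y => (xi_fix (f y)).2.ne').prodMk (c 0 1))⟩,
    fun θ b => by simp only [map_mul, pj_zt, Fin.isValue, Matrix.SpecialLinearGroup.coe_mul, Homeomorph.homeomorph_mk_coe, Equiv.coe_fn_mk, zt_zero, one_mul]⟩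
  · have : ap (zt q.1 * xi_up (xi_U q.2.1 q.2.2)) 0 = q.1 := by simp only [map_mul, RelIso.coe_mul, Function.comp_apply, (u q.2).2, ap_zt, zero_add]
    simp only [this, zt_neg, inv_mul_cancel_left, (u q.2).1]
    exact Prod.ext rfl (Prod.ext (log_exp _) rfl)
  · have k := xi_fix (f y)
    have d := basic_det (pj (zt (-ap y 0) * y))
    have : xi_up (xi_U (log (pj (zt (-ap y 0) * y) 0 0)) (pj (zt (-ap y 0) * y) 0 1)) =
        zt (-ap y 0) * y := gt_ext ((u (_, _)).1.trans (basic_ext (exp_log k.2) rfl k.1.symm (by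
          change exp (-log _) = _
          rw [exp_neg, exp_log k.2]
          exact inv_eq_of_mul_eq_one_right (by rwa [k.1, mul_zero, sub_zero] at d))))
        ((u (_, _)).2.trans (f y).symm)
    simp only [this]
    rw [zt_neg, mul_inv_cancel_left]
theorem exists_pq : ∃ Pq : ℝ × ℝ → Gt, ContinuousOn Pq {u | u.1 < u.2 ∧ u.2 < u.1 + 1} ∧
    ∀ p q, p < q → q < p + 1 → ap (Pq (p, q)) 0 = p ∧ ap (Pq (p, q)) (1 / 2) = q := by
  have p : ∀ {p q : ℝ}, p < q → q < p + 1 → 0 < sin (π * (q - p)) := fun a b =>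
    sin_pos_of_pos_of_lt_pi (by nlinarith only [pi_pos, a]) (by nlinarith [pi_pos])
  refine ⟨fun u => zt u.1 * xi_up (xi_U 0 (cos (π * (u.2 - u.1)) / sin (π * (u.2 - u.1)))),
    fun u hu => ((continuous_zt.comp continuous_fst).continuousAt.mul (xi_contAt continuousAt_const
      (ContinuousAt.div (by fun_prop) (by fun_prop) (p hu.1 hu.2).ne'))).continuousWithinAt,
    fun a b h h' => ?_⟩
  have u := xi_u (A := xi_U 0 (cos (π * (b - a)) / sin (π * (b - a)))) rfl (exp_pos _)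
  refine ⟨by simp only [map_mul, RelIso.coe_mul, Function.comp_apply, u.2, ap_zt, zero_add], ?_⟩
  rw [ap_mul, xi_ap u.2 (r := b - a) (by norm_num) (by norm_num) (by linarith only [h]) (by linarith), ap_zt,
    sub_add_cancel]
  rw [u.1]
  simp [xi_U, ← div_eq_mul_inv, (p h h').ne']
theorem exists_dlt : ∃ D : ℝ → Gt, Continuous D ∧ (∀ l, pj (D l) = dia l ∧ ap (D l) 0 = 0 ∧
    ap (D l) (1 / 2) = 1 / 2) ∧ ∀ y, ap y 0 = 0 → ap y (1 / 2) = 1 / 2 → ∃ l, y = D l := by
  have e : ∀ l, xi_U (l / 2) 0 = dia l := fun l => basic_ext rfl rfl rfl rfl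
  have u := fun l => xi_u (A := xi_U (l / 2) 0) rfl (exp_pos _)
  refine ⟨fun l => xi_up (xi_U (l / 2) 0), xi_cont (by fun_prop) (by fun_prop), fun l =>
    ⟨(u l).1.trans (e l), (u l).2, xi_ap (u l).2 (by norm_num) (by norm_num) (by norm_num)
      (by norm_num) (by rw [(u l).1]; simp [xi_U, ← div_eq_mul_inv])⟩, fun y h h' => ?_⟩
  obtain ⟨c, -, a, -⟩ := xi_vec y (1 / 2)
  have k := xi_fix h
  have d := basic_det (pj y)
  rw [h'] at a
  simp [← div_eq_mul_inv] at a
  refine ⟨2 * log (pj y 0 0), gt_ext (Eq.symm ((u _).1.trans (basic_ext ?_ a.symm k.1.symm ?_)))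
    (h.trans (u _).2.symm)⟩
  · simp [xi_U, exp_log k.2]
  · simp only [xi_U, mul_div_cancel_left₀ _ (two_ne_zero' ℝ), exp_neg, exp_log k.2]
    exact inv_eq_of_mul_eq_one_right (by rwa [k.1, mul_zero, sub_zero] at d)
theorem xi_lt {y : Gt} (h : ap y 0 = 0) {t : ℝ} (h0 : 0 < t) (h1 : t < 1) : ap y t < t ↔
    (pj y 1 1 - pj y 0 0) * cos (π * t) - pj y 0 1 * sin (π * t) < 0 := by
  obtain ⟨c, hc, a, b⟩ := xi_vec y t
  obtain ⟨k, k'⟩ := xi_mem h h0 h1
  have p : 0 < sin (π * t) := sin_pos_of_pos_of_lt_pi (by positivity) (by nlinarith only [pi_pos, h1])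
  have e : sin (π * t) * ((pj y 1 1 - pj y 0 0) * cos (π * t) - pj y 0 1 * sin (π * t)) =
      -(c * sin (π * t - π * ap y t)) := by
    rw [(xi_fix h).1] at b
    rw [sin_sub]
    linear_combination cos (π * t) * b - sin (π * t) * a
  refine ⟨fun n => neg_of_mul_neg_right (e ▸ neg_neg_of_pos (mul_pos hc (xi_sin k n h1))) p.le,
    fun n => not_le.1 fun r => ?_⟩
  have := mul_neg_of_pos_of_neg p n
  rcases r.eq_or_lt with r | r
  · simp [e, ← r] at this
  · have q := mul_pos hc (xi_sin h0 r k')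
    rw [e, ← mul_neg, ← sin_neg, neg_sub] at this
    linarith only [this, q]
theorem xi_int {y : Gt} (h : ap y 0 = 0) {r s t : ℝ} (h0 : 0 < r) (h1 : r ≤ t) (h2 : t ≤ s)
    (h3 : s < 1) (hr : ap y r < r) (hs : ap y s < s) : ap y t < t := by
  rcases h1.eq_or_lt with rfl | h1
  · exact hr
  rcases h2.eq_or_lt with rfl | h2
  · exact hs
  rw [xi_lt h (by linarith) (by linarith)] at hr hs ⊢
  have a := mul_neg_of_pos_of_neg (xi_sin (h0.trans h1) h2 h3) hr
  have b := mul_neg_of_pos_of_neg (xi_sin h0 h1 (h2.trans h3)) hs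
  refine neg_of_mul_neg_right (lt_of_eq_of_lt ?_ (add_neg a b)) (xi_sin h0 (h1.trans h2) h3).le
  simp only [sin_sub]
  ring
/-- The set where `w` moves points down is an interval modulo 1. -/
theorem int_mod (w : Gt) {r₁ r₂ : ℝ} (h₁ : ap w r₁ < r₁) (h₂ : ap w r₂ < r₂) :
    ∃ n : ℤ, ∀ t ∈ uIcc r₁ (r₂ + n), ap w t < t := by
  have c : Continuous fun t => ap w t - t := (ap w).continuous.sub continuous_id
  by_cases h : ∃ s, ap w s = s
  · obtain ⟨s, hs⟩ := h
    have key : ∀ (k : ℤ) t, ap (zt (-s) * w * zt s) t < t ↔ ap w (s + k + t) < s + k + t := by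
      intro k t
      rw [ap_mul, ap_mul, ap_zt, ap_zt, show s + k + t = t + s + k by ring, ap_add_int]
      constructor <;> intro <;> linarith
    have h0 : ap (zt (-s) * w * zt s) 0 = 0 := by simp only [map_mul, RelIso.coe_mul, Function.comp_apply, ap_zt, zero_add, hs, add_neg_cancel]
    have fr : ∀ r, ap w r < r → ap (zt (-s) * w * zt s) (Int.fract (r - s)) < Int.fract (r - s) ∧
        0 < Int.fract (r - s) := fun r hr => by
      have := (key ⌊r - s⌋ (Int.fract (r - s))).2 (by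
        rwa [add_assoc, Int.floor_add_fract, add_sub_cancel])
      exact ⟨this, (Int.fract_nonneg _).lt_of_ne fun e => by simp only [map_mul, ← e, RelIso.coe_mul, Function.comp_apply, ap_zt, zero_add, hs, add_neg_cancel, lt_self_iff_false] at this⟩
    have a := fr _ h₁
    have b := fr _ h₂
    have a' := Int.fract_lt_one (r₁ - s)
    have b' := Int.fract_lt_one (r₂ - s)
    refine ⟨⌊r₁ - s⌋ - ⌊r₂ - s⌋, fun t ht => ?_⟩
    have := (key ⌊r₁ - s⌋ (t - (s + ⌊r₁ - s⌋))).1 ?_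
    · rwa [add_sub_cancel] at this
    have e1 := Int.floor_add_fract (r₁ - s)
    have e2 := Int.floor_add_fract (r₂ - s)
    push_cast at ht
    rcases mem_uIcc.1 ht with k | k
    · exact xi_int h0 a.2 (by linarith only [e1, k]) (by linarith) b' a.1 b.1
    · exact xi_int h0 b.2 (by linarith) (by linarith) a' b.1 a.1
  · refine ⟨0, fun t _ => not_le.1 fun k => h ?_⟩
    obtain ⟨s, hs⟩ := intermediate_value_univ r₁ t c ⟨(sub_neg.2 h₁).le, sub_nonneg.2 k⟩
    exact ⟨s, sub_eq_zero.1 hs⟩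
theorem conj_rot {c : G} (h : ell c) : ∃ (k : G) (θ : ℝ), cj k c = rot θ := by
  have d := basic_det c
  have t := abs_lt.1 h
  unfold tr at t
  have n : c 1 0 ≠ 0 := fun e => by rw [e] at d; nlinarith only [sq_nonneg (c 0 0 - c 1 1), d, t]
  have p : 0 < 4 - (c 0 0 + c 1 1) ^ 2 := by nlinarith only [t]
  have q := sq_sqrt p.le
  have r := sq_abs (c 1 0)
  obtain ⟨k, θ, -, e⟩ := exists_conj_rot_of_fixed (g := c) (z := ⟨⟨(c 0 0 - c 1 1) / (2 * c 1 0),
    √(4 - (c 0 0 + c 1 1) ^ 2) / (2 * |c 1 0|)⟩, by positivity⟩) ((basic_fixed_iff _ _).2 (by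
      have := abs_pos.2 n
      apply Complex.ext <;> simp only [Complex.add_re, Complex.mul_re, Complex.add_im,
        Complex.mul_im, Complex.ofReal_re, Complex.ofReal_im] <;> field_simp
      · linear_combination c 1 0 ^ 2 * q - 4 * c 1 0 ^ 2 * d +
          ((c 0 0 + c 1 1) ^ 2 - 4 * (c 0 0 * c 1 1 - c 0 1 * c 1 0)) * r
      · ring))
  exact ⟨k⁻¹, θ, by rw [e, cj]; group⟩
theorem conj_upper {c : G} (h : 2 ≤ |tr c|) : ∃ k : G, cj k c 1 0 = 0 := by
  by_cases n : c 1 0 = 0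
  · exact ⟨1, by simpa [cj] using n⟩
  have q := sq_sqrt (show 0 ≤ tr c ^ 2 - 4 by nlinarith only [sq_abs (tr c), h])
  have d := basic_det c
  obtain ⟨k, a, b⟩ : ∃ k : G, k 1 0 = -c 1 0 ∧ k 1 1 = (tr c + √(tr c ^ 2 - 4)) / 2 - c 1 1 :=
    ⟨⟨!![0, (c 1 0)⁻¹; -c 1 0, _], by simp [Matrix.det_fin_two, n]⟩, rfl, rfl⟩
  refine ⟨k, ?_⟩
  simp only [cj, basic_mul, basic_inv00, basic_inv10, a, b]
  unfold tr at q ⊢
  linear_combination c 1 0 / 4 * q + c 1 0 * d
theorem xi_cj (l k c : G) : cj (l * k) c = cj l (cj k c) := by simp only [cj]; group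
theorem conj_dia {c : G} (h : 2 < tr c) : ∃ (k : G) (l : ℝ), 0 < l ∧ cj k c = dia l := by
  obtain ⟨k, hk⟩ := conj_upper (h.le.trans (le_abs_self _))
  have t : tr (cj k c) = tr c := tr_conj c k
  have d := basic_det (cj k c)
  rw [← t] at h
  generalize hx : cj k c = x at *
  rw [hk, mul_zero, sub_zero] at d
  unfold tr at h
  have p : 0 < x 0 0 := by nlinarith only [h, d]
  have n : x 0 0 - x 1 1 ≠ 0 := fun e => by
    rw [← sub_eq_zero.1 e] at d h; nlinarith only [h, d]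
  have e : cj (xi_U 0 (x 0 1 / (x 0 0 - x 1 1)) * k) c = dia (2 * log (x 0 0)) := by
    rw [xi_cj, hx]
    apply basic_ext <;> simp only [cj, basic_mul, basic_inv00, basic_inv10, basic_inv01,
      basic_inv11, basic_dia00, basic_dia01, basic_dia10, basic_dia11,
      mul_div_cancel_left₀ _ (two_ne_zero' ℝ), exp_neg, exp_log p] <;> simp only [xi_U, exp_zero, Fin.isValue, neg_zero, Matrix.of_apply, Matrix.cons_val', Matrix.cons_val_zero, Matrix.cons_val_fin_one, one_mul, Matrix.cons_val_one, hk, mul_zero, add_zero, mul_one, mul_neg, zero_mul, zero_add]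
    · field_simp; ring
    · exact (inv_eq_of_mul_eq_one_right d).symm
  rcases lt_trichotomy 0 (2 * log (x 0 0)) with l | l | l
  · exact ⟨_, _, l, e⟩
  · have : x 0 0 = 1 := by rw [← exp_log p, show log (x 0 0) = 0 by linarith only [l], exp_zero]
    rw [this] at d h; linarith
  · exact ⟨rot (1 / 2) * _, _, neg_pos.2 l, by rw [xi_cj, e, ← rot_half_dia, rot_neg, cj]⟩

end Pool.Agent.MP_596265_gt.Erg

/-! Elliptic circles, moves on pairs, trace identities. -/

namespace Pool.Agent.MP_596265_gt.Erg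

open Real Filter Topology MeasureTheory Set

variable {g : ℕ}

theorem xm_coe_mul (x y : G) : ((x * y : G) : Mat) = (x : Mat) * (y : Mat) := rfl
theorem xm_inv_mul (k : G) : ((k⁻¹ : G) : Mat) * (k : Mat) = 1 := by
  rw [← xm_coe_mul, inv_mul_cancel]; rfl
theorem xm_mul_inv (k : G) : (k : Mat) * ((k⁻¹ : G) : Mat) = 1 := by
  rw [← xm_coe_mul, mul_inv_cancel]; rfl
theorem xm_ext {A B : Mat} (h00 : A 0 0 = B 0 0) (h01 : A 0 1 = B 0 1) (h10 : A 1 0 = B 1 0)
    (h11 : A 1 1 = B 1 1) : A = B := by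
  ext i j
  fin_cases i <;> fin_cases j <;> assumption
theorem xm_mul (A B : Mat) (i j : Fin 2) : (A * B) i j = A i 0 * B 0 j + A i 1 * B 1 j := by
  rw [Matrix.mul_apply, Fin.sum_univ_two]
theorem xm_one00 : (1 : Mat) 0 0 = 1 := rfl
theorem xm_one01 : (1 : Mat) 0 1 = 0 := rfl
theorem xm_one10 : (1 : Mat) 1 0 = 0 := rfl
theorem xm_one11 : (1 : Mat) 1 1 = 1 := rfl

theorem ad_mul (k k' : G) (Z : Mat) : ad (k * k') Z = ad k (ad k' Z) := by
  simp only [ad, mul_inv_rev, xm_coe_mul, Matrix.mul_assoc]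
theorem ad_one (Z : Mat) : ad 1 Z = Z := by
  rw [ad, inv_one, Matrix.SpecialLinearGroup.coe_one, one_mul, mul_one]
theorem ad_add (k : G) (Z W : Mat) : ad k (Z + W) = ad k Z + ad k W := by
  simp only [ad, mul_add, add_mul]
theorem ad_sub (k : G) (Z W : Mat) : ad k (Z - W) = ad k Z - ad k W := by
  simp only [ad, mul_sub, sub_mul]
theorem ad_smul (k : G) (r : ℝ) (Z : Mat) : ad k (r • Z) = r • ad k Z := by
  simp only [ad, mul_smul_comm, smul_mul_assoc]
theorem ad_trace (k : G) (Z : Mat) : (ad k Z).trace = Z.trace := by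
  rw [ad, Matrix.trace_mul_cycle, xm_inv_mul, one_mul]
theorem xm_ad_id (k : G) : ad k 1 = 1 := by rw [ad, mul_one, xm_mul_inv]
theorem xm_cj_coe (k x : G) : ((cj k x : G) : Mat) = ad k x := rfl
theorem tr_eq (x : G) : tr x = (x : Mat).trace := by rw [Matrix.trace_fin_two]; rfl
theorem tr_cj (k x : G) : tr (cj k x) = tr x := tr_conj x k
theorem isOpen_ell : IsOpen {x : G | ell x} := isOpen_lt continuous_tr.abs continuous_const
theorem ell_cj (k x : G) : ell (cj k x) ↔ ell x := by rw [ell, ell, tr_cj]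
theorem ell_inv (x : G) : ell x⁻¹ ↔ ell x := by rw [ell, ell, tr_inv]
theorem ell_neg (x : G) : ell (-x) ↔ ell x := by rw [ell, ell, tr_neg, abs_neg]
theorem xm_pos {x : G} (h : ell x) : 0 < 1 - tr x ^ 2 / 4 := by
  have := abs_lt.1 h; nlinarith only [this]
theorem xm_tl00 (x : G) : tl x 0 0 = (x 0 0 - x 1 1) / 2 := by
  simp only [tl, tr, Matrix.sub_apply, Matrix.smul_apply, xm_one00, smul_eq_mul]; ring
theorem xm_tl01 (x : G) : tl x 0 1 = x 0 1 := by
  simp only [tl, Matrix.sub_apply, Matrix.smul_apply, xm_one01, smul_eq_mul]; ring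
theorem xm_tl10 (x : G) : tl x 1 0 = x 1 0 := by
  simp only [tl, Matrix.sub_apply, Matrix.smul_apply, xm_one10, smul_eq_mul]; ring
theorem xm_tl11 (x : G) : tl x 1 1 = -((x 0 0 - x 1 1) / 2) := by
  simp only [tl, tr, Matrix.sub_apply, Matrix.smul_apply, xm_one11, smul_eq_mul]; ring
theorem Jm_trace (x : G) : (Jm x).trace = 0 := by
  rw [Jm, Matrix.trace_smul, Matrix.trace_fin_two, xm_tl00, xm_tl11, add_neg_cancel, smul_zero]
theorem xm_tl_sq (x : G) : tl x * tl x = (-(1 - tr x ^ 2 / 4)) • (1 : Mat) := by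
  have h := basic_det x
  apply xm_ext <;>
    simp only [xm_mul, xm_tl00, xm_tl01, xm_tl10, xm_tl11, Matrix.smul_apply, xm_one00, xm_one01,
      xm_one10, xm_one11, smul_eq_mul, tr]
  · linear_combination -h
  · ring
  · ring
  · linear_combination -h
theorem Jm_sq {x : G} (h : ell x) : Jm x * Jm x = -1 := by
  have h1 := xm_pos h
  rw [Jm, smul_mul_smul_comm, xm_tl_sq, smul_smul, ← mul_inv, mul_self_sqrt h1.le, mul_neg,
    inv_mul_cancel₀ h1.ne', neg_smul, one_smul]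
theorem Jm_cj (k x : G) : Jm (cj k x) = ad k (Jm x) := by
  rw [Jm, Jm, ad_smul, tl, tl, ad_sub, ad_smul, xm_ad_id, tr_cj, xm_cj_coe]
theorem kk_coe {x : G} (h : ell x) (t : ℝ) :
    (kk x t : Mat) = cos t • (1 : Mat) + sin t • Jm x := by
  rw [kk, dif_pos h]
theorem kk_not {x : G} (h : ¬ ell x) (t : ℝ) : kk x t = 1 := by
  rw [kk, dif_neg h]
theorem kk_add (x : G) (s t : ℝ) : kk x (s + t) = kk x s * kk x t := by
  by_cases h : ell x
  · apply Subtype.ext
    rw [xm_coe_mul, kk_coe h, kk_coe h, kk_coe h]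
    simp only [add_mul, mul_add, smul_mul_smul_comm, Jm_sq h, one_mul, mul_one, cos_add, sin_add]
    module
  · simp only [kk_not h, mul_one]
theorem kk_zero (x : G) : kk x 0 = 1 := by
  have h := kk_add x 0 0
  rw [add_zero] at h
  exact left_eq_mul.1 h
theorem kk_neg (x : G) (t : ℝ) : kk x (-t) = (kk x t)⁻¹ := by
  rw [eq_inv_iff_mul_eq_one, ← kk_add, neg_add_cancel, kk_zero]
theorem kk_per (x : G) (t : ℝ) : kk x (t + 2 * π) = kk x t := by
  by_cases h : ell x
  · apply Subtype.ext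
    rw [kk_coe h, kk_coe h, cos_add_two_pi, sin_add_two_pi]
  · simp only [kk_not h]
theorem kk_comm (x : G) (t : ℝ) : x * kk x t = kk x t * x := by
  by_cases h : ell x
  · apply Subtype.ext
    rw [xm_coe_mul, xm_coe_mul, kk_coe h]
    simp only [Jm, tl, add_mul, mul_add, mul_sub, sub_mul, smul_mul_assoc, mul_smul_comm, one_mul,
      mul_one]
  · rw [kk_not h, mul_one, one_mul]
theorem kk_self {x : G} (h : ell x) : kk x (arccos (tr x / 2)) = x := by
  have h1 := abs_lt.1 h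
  have e : (tr x / 2) ^ 2 = tr x ^ 2 / 4 := by ring
  apply Subtype.ext
  rw [kk_coe h, cos_arccos (by linarith only [h1.1]) (by linarith only [h1.2]), sin_arccos, e, Jm, smul_smul,
    mul_inv_cancel₀ (sqrt_pos.2 (xm_pos h)).ne', one_smul, tl, add_sub_cancel]
theorem kk_cj (k x : G) (t : ℝ) : kk (cj k x) t = cj k (kk x t) := by
  by_cases h : ell x
  · apply Subtype.ext
    rw [xm_cj_coe, kk_coe h, kk_coe ((ell_cj k x).2 h), Jm_cj, ad_add, ad_smul, ad_smul, xm_ad_id]
  · rw [kk_not h, kk_not (mt (ell_cj k x).1 h), cj, mul_one, mul_inv_cancel]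
theorem xm_Jm_inv (x : G) : Jm x⁻¹ = -Jm x := by
  have e : tl x⁻¹ = -tl x := by
    apply xm_ext <;>
      simp only [Matrix.neg_apply, xm_tl00, xm_tl01, xm_tl10, xm_tl11, basic_inv00, basic_inv01,
        basic_inv10, basic_inv11] <;> ring
  rw [Jm, Jm, tr_inv, e, smul_neg]
theorem kk_inv (x : G) (t : ℝ) : kk x⁻¹ t = kk x (-t) := by
  by_cases h : ell x
  · apply Subtype.ext
    rw [kk_coe h, kk_coe ((ell_inv x).2 h), xm_Jm_inv, cos_neg, sin_neg, smul_neg, neg_smul]
  · rw [kk_not h, kk_not (mt (ell_inv x).1 h)]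
theorem xm_off {x : G} (h : ell x) : x 0 1 * x 1 0 < 0 := by
  have h1 := xm_pos h
  have h2 := basic_det x
  unfold tr at h1
  linarith only [sq_nonneg (x 0 0 - x 1 1), h1, h2]
theorem kk_of_comm {x y : G} (h : ell x) (hc : y * x = x * y) : ∃ t, y = kk x t := by
  have hx : x 1 0 ≠ 0 := right_ne_zero_of_mul (xm_off h).ne
  have h1 := xm_pos h
  have e0 : (y * x) 0 0 = (x * y) 0 0 := by rw [hc]
  have e1 : (y * x) 1 0 = (x * y) 1 0 := by rw [hc]
  simp only [basic_mul] at e0 e1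
  obtain ⟨b, hb⟩ : ∃ b, y 1 0 = b * x 1 0 := ⟨y 1 0 / x 1 0, (div_mul_cancel₀ _ hx).symm⟩
  have f1 : y 0 1 = b * x 0 1 := mul_right_cancel₀ hx (by linear_combination e0 + x 0 1 * hb)
  have f0 : y 0 0 - y 1 1 = b * (x 0 0 - x 1 1) :=
    mul_right_cancel₀ hx (by linear_combination -e1 + (x 0 0 - x 1 1) * hb)
  have hs := mul_inv_cancel₀ (sqrt_pos.2 h1).ne'
  have hq := sq_sqrt h1.le
  obtain ⟨r, a, hr, e2, e3⟩ := basic_polar (tr y / 2) (b * √(1 - tr x ^ 2 / 4))
  have dx := basic_det x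
  have dy := basic_det y
  have hr2 : r ^ 2 = 1 := by
    have : r ^ 2 = (tr y / 2) ^ 2 + b ^ 2 * √(1 - tr x ^ 2 / 4) ^ 2 := by
      rw [← mul_pow, e2, e3]
      linear_combination -r ^ 2 * sin_sq_add_cos_sq (π * a)
    rw [this, hq]
    unfold tr
    linear_combination dy - b ^ 2 * dx + y 0 1 * hb + b * x 1 0 * f1 +
      (y 0 0 - y 1 1 + b * (x 0 0 - x 1 1)) / 4 * f0
  obtain rfl : r = 1 := (pow_eq_one_iff_of_nonneg hr two_ne_zero).1 hr2
  rw [one_mul] at e2 e3
  refine ⟨π * a, Subtype.ext ?_⟩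
  rw [kk_coe h, ← e2, ← e3, Jm, smul_smul, mul_assoc, hs, mul_one]
  apply xm_ext <;>
    simp only [Matrix.add_apply, Matrix.smul_apply, xm_tl00, xm_tl01, xm_tl10, xm_tl11, xm_one00,
      xm_one01, xm_one10, xm_one11, smul_eq_mul, tr]
  · linear_combination f0 / 2
  · linear_combination f1
  · linear_combination hb
  · linear_combination -f0 / 2
theorem hasDerivAt_kk {x : G} (h : ell x) (i j : Fin 2) :
    HasDerivAt (fun t => kk x t i j) (Jm x i j) 0 := by
  have e : (fun t => kk x t i j) = fun t => cos t * (1 : Mat) i j + sin t * Jm x i j :=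
    funext fun t => congrFun (congrFun (kk_coe h t) i) j
  rw [e]
  refine (((hasDerivAt_cos 0).mul_const _).add ((hasDerivAt_sin 0).mul_const _)).congr_deriv ?_
  rw [sin_zero, cos_zero, neg_zero, zero_mul, zero_add, one_mul]
theorem continuousOn_kk : ContinuousOn (fun p : G × ℝ => kk p.1 p.2) {p | ell p.1} := by
  have ht : Continuous fun p : G × ℝ => tr p.1 := continuous_tr.comp continuous_fst
  have hl : Continuous fun p : G × ℝ => tl p.1 :=
    (continuous_subtype_val.comp continuous_fst).sub ((ht.div_const 2).smul continuous_const)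
  have hs : ContinuousOn (fun p : G × ℝ => (√(1 - tr p.1 ^ 2 / 4))⁻¹) {p | ell p.1} :=
    (continuous_const.sub ((ht.pow 2).div_const 4)).sqrt.continuousOn.inv₀
      fun _ hp => (sqrt_pos.2 (xm_pos hp)).ne'
  have hk : ContinuousOn (fun p : G × ℝ => cos p.2 • (1 : Mat) + sin p.2 • Jm p.1) {p | ell p.1} :=
    ((continuous_cos.comp continuous_snd).smul continuous_const).continuousOn.add
      ((continuous_sin.comp continuous_snd).continuousOn.smul (hs.smul hl.continuousOn))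
  exact IsInducing.subtypeVal.continuousOn_iff.2 (hk.congr fun p hp => kk_coe hp p.2)
theorem measurable_kk : Measurable fun p : G × ℝ => kk p.1 p.2 := by
  classical
  have h2 : ContinuousOn (fun p : G × ℝ => kk p.1 p.2) {p | ell p.1}ᶜ :=
    (continuousOn_const (c := (1 : G))).congr fun p hp => kk_not hp p.2
  have h3 := continuousOn_kk.measurable_piecewise h2
    (isOpen_ell.preimage (continuous_fst (X := G) (Y := ℝ))).measurableSet
  rwa [piecewise_same] at h3
theorem cm_eq_one {x y : G} : cm x y = 1 ↔ x * y = y * x := by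
  rw [cm, mul_inv_eq_one, mul_inv_eq_iff_eq_mul]
theorem cm_cj (k x y : G) : cm (cj k x) (cj k y) = cj k (cm x y) := by
  simp only [cm, cj]; group
theorem xm_kappa (a b : G) : tr (cm a b) = 2 + (a 0 1 * b 1 0 - b 0 1 * a 1 0) ^ 2 +
    ((a 0 0 - a 1 1) * b 0 1 - a 0 1 * (b 0 0 - b 1 1)) *
      (a 1 0 * (b 0 0 - b 1 1) - (a 0 0 - a 1 1) * b 1 0) := by
  simp only [tr, cm, basic_mul, basic_inv00, basic_inv01, basic_inv10, basic_inv11]
  linear_combination 2 * (b 0 0 * b 1 1 - b 0 1 * b 1 0) * basic_det a + 2 * basic_det b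
theorem xm_kappa2 (a b : G) : a 0 1 ^ 2 * (tr (cm a b) - 2) =
    (a 0 1 * (a 0 1 * b 1 0 - b 0 1 * a 1 0) -
      (a 0 0 - a 1 1) / 2 * ((a 0 0 - a 1 1) * b 0 1 - a 0 1 * (b 0 0 - b 1 1))) ^ 2 +
    (1 - tr a ^ 2 / 4) * ((a 0 0 - a 1 1) * b 0 1 - a 0 1 * (b 0 0 - b 1 1)) ^ 2 := by
  rw [xm_kappa, tr]
  linear_combination ((a 0 0 - a 1 1) * b 0 1 - a 0 1 * (b 0 0 - b 1 1)) ^ 2 * basic_det a
theorem kappa_ge {a : G} (b : G) (h : |tr a| ≤ 2) : 2 ≤ tr (cm a b) := by
  have h1 : 0 ≤ 1 - tr a ^ 2 / 4 := by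
    have := abs_le.1 h; nlinarith only [this]
  by_cases hq : a 0 1 = 0
  · have hd := basic_det a
    have h2 : a 0 0 - a 1 1 = 0 := by
      unfold tr at h1
      rw [hq] at hd
      exact pow_eq_zero_iff two_ne_zero |>.1 (le_antisymm (by linarith only [h1, hd]) (sq_nonneg _))
    rw [xm_kappa, hq, h2]
    simp only [zero_mul, sub_zero, add_zero]
    exact le_add_of_nonneg_right (sq_nonneg _)
  · have h2 : 0 ≤ a 0 1 ^ 2 * (tr (cm a b) - 2) := by rw [xm_kappa2]; positivity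
    exact sub_nonneg.1 (nonneg_of_mul_nonneg_right h2 (by positivity))
theorem cm_ne_neg (x y : G) : cm x y ≠ -1 := by
  intro h
  have e : cj y x⁻¹ = x⁻¹ * cm x y := by simp only [cm, cj]; group
  have h2 := tr_cj y x⁻¹
  rw [e, h, mul_neg, mul_one, tr_neg, tr_inv] at h2
  have h3 := kappa_ge (a := x) y (by rw [show tr x = 0 by linarith only [h2], abs_zero]; norm_num)
  rw [h, tr_neg, tr_one] at h3
  linarith
theorem ell_kappa {a b : G} (h : ell a) (hc : cm a b ≠ 1) : 2 < tr (cm a b) := by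
  refine (kappa_ge b h.le).lt_of_ne fun e => hc (cm_eq_one.2 ?_)
  have hq : a 0 1 ≠ 0 := left_ne_zero_of_mul (xm_off h).ne
  have h1 := xm_pos h
  have h2 := xm_kappa2 a b
  rw [← e, sub_self, mul_zero] at h2
  obtain ⟨h3, h4⟩ := (add_eq_zero_iff_of_nonneg (sq_nonneg _) (by positivity)).1 h2.symm
  have c2 := (pow_eq_zero_iff two_ne_zero).1 ((mul_eq_zero.1 h4).resolve_left h1.ne')
  have h5 := (pow_eq_zero_iff two_ne_zero).1 h3
  rw [c2, mul_zero, sub_zero] at h5
  have c1 := (mul_eq_zero.1 h5).resolve_left hq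
  have c3 : a 1 0 * (b 0 0 - b 1 1) - (a 0 0 - a 1 1) * b 1 0 = 0 :=
    mul_left_cancel₀ hq (by linear_combination -(a 0 0 - a 1 1) * c1 - a 1 0 * c2)
  apply basic_ext <;> simp only [basic_mul]
  · linear_combination c1
  · linear_combination c2
  · linear_combination c3
  · linear_combination -c1

end Pool.Agent.MP_596265_gt.Erg

/-! Moves on pairs and the plane of first coordinates. -/

namespace Pool.Agent.MP_596265_gt.Erg

open Real Filter Topology MeasureTheory Set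

variable {g : ℕ}

theorem cm_hm1 {p q : G × G} (h : HM1 p q) : cm q.1 q.2 = cm p.1 p.2 := by
  cases h with
  | r1 x y => simp only [cm]; group
  | r2 x y => simp only [cm]; group
  | l1 x y => simp only [cm]; group
  | l2 x y => simp only [cm]; group
  | f1 x y t _ =>
    have e := kk_comm x t
    simp only [cm]
    generalize kk x t = k at e
    calc x * (y * k) * x⁻¹ * (y * k)⁻¹ = x * y * x⁻¹ * (x * k) * (k * x)⁻¹ * y⁻¹ := by group
      _ = x * y * x⁻¹ * y⁻¹ := by rw [e]; group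
  | f2 x y t _ =>
    have e := kk_comm y t
    simp only [cm]
    generalize kk y t = k at e
    calc x * k * y * (x * k)⁻¹ * y⁻¹ = x * (k * y) * k⁻¹ * x⁻¹ * y⁻¹ := by group
      _ = x * y * x⁻¹ * y⁻¹ := by rw [← e]; group
theorem cm_hm {p q : G × G} (h : HM p q) : cm q.1 q.2 = cm p.1 p.2 := by
  induction h with
  | refl => rfl
  | tail _ h2 ih => rw [cm_hm1 h2, ih]
theorem xw_cj_mul (k x y : G) : cj k (x * y) = cj k x * cj k y := by simp only [cj]; group
theorem xw_cj_inv (k x : G) : cj k x⁻¹ = (cj k x)⁻¹ := by simp only [cj]; group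
theorem hm1_cj (k : G) {p q : G × G} (h : HM1 p q) :
    HM1 (cj k p.1, cj k p.2) (cj k q.1, cj k q.2) := by
  cases h with
  | r1 x y => simp only [xw_cj_mul]; exact HM1.r1 _ _
  | r2 x y => simp only [xw_cj_mul, xw_cj_inv]; exact HM1.r2 _ _
  | l1 x y => simp only [xw_cj_mul]; exact HM1.l1 _ _
  | l2 x y => simp only [xw_cj_mul, xw_cj_inv]; exact HM1.l2 _ _
  | f1 x y t h => simp only [xw_cj_mul, ← kk_cj]; exact HM1.f1 _ _ t ((ell_cj k x).2 h)
  | f2 x y t h => simp only [xw_cj_mul, ← kk_cj]; exact HM1.f2 _ _ t ((ell_cj k y).2 h)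
theorem hm_cj (k : G) {p q : G × G} (h : HM p q) :
    HM (cj k p.1, cj k p.2) (cj k q.1, cj k q.2) := by
  induction h with
  | refl => exact Relation.ReflTransGen.refl
  | tail _ h2 ih => exact Relation.ReflTransGen.tail ih (hm1_cj k h2)
theorem nm_hm {p q : G × G} (h : NM p q) : HM p q := by
  induction h with
  | refl => exact Relation.ReflTransGen.refl
  | tail _ h2 ih =>
    refine Relation.ReflTransGen.tail ih ?_
    cases h2 with
    | r1 x y => exact HM1.r1 x y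
    | r2 x y => exact HM1.r2 x y
    | l1 x y => exact HM1.l1 x y
    | l2 x y => exact HM1.l2 x y
theorem nm_pow (x y : G) (n : ℤ) : NM (x, y) (x * y ^ n, y) := by
  induction n using Int.induction_on with
  | zero => rw [zpow_zero, mul_one]; exact Relation.ReflTransGen.refl
  | succ n ih =>
    rw [zpow_add_one, ← mul_assoc]
    exact Relation.ReflTransGen.tail ih (NM1.l1 _ _)
  | pred n ih =>
    rw [zpow_sub_one, ← mul_assoc]
    exact Relation.ReflTransGen.tail ih (NM1.l2 _ _)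
theorem nm_inv (x y : G) : NM (x, y) (y⁻¹, y * x) := by
  have h := NM1.l2 x (y * x)
  rw [show x * (y * x)⁻¹ = y⁻¹ by group] at h
  exact Relation.ReflTransGen.tail (Relation.ReflTransGen.single (NM1.r1 x y)) h
theorem nm_cinv (x y : G) : ∃ w, NM (x, y) (cj y x⁻¹, w) := by
  have h := ((nm_inv x y).trans (nm_inv _ _)).trans (nm_inv _ _)
  rw [show (y * x * y⁻¹)⁻¹ = cj y x⁻¹ by simp only [cj]; group] at h
  exact ⟨_, h⟩
theorem pl_cm (x y : G) : Pl (cm x y) x := by
  unfold Pl cm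
  rw [show x * (x * y * x⁻¹ * y⁻¹)⁻¹ = (x * y) * x * (x * y)⁻¹ by group, tr_conj]
theorem pl_right (c a : G) : Pl c (c * a⁻¹) ↔ Pl c a := by
  unfold Pl
  rw [tr_conj, tr_inv, ← tr_inv (c * a⁻¹), mul_inv_rev, inv_inv]
  exact eq_comm
theorem pl_neg (c a : G) : Pl c (-a) ↔ Pl c a := by
  unfold Pl
  rw [neg_mul, tr_neg, tr_neg, neg_inj]
theorem pl_cj (k c a : G) : Pl (cj k c) (cj k a) ↔ Pl c a := by
  unfold Pl
  rw [← xw_cj_inv, ← xw_cj_mul, tr_cj, tr_cj]

theorem xw_cross {A B P : Mat} (hD : A * B ≠ B * A) (h0 : P.trace = 0) (h1 : (A * P).trace = 0)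
    (h2 : (B * P).trace = 0) : ∃ s : ℝ, P = s • (A * B - B * A) := by
  simp only [Matrix.trace_fin_two, Matrix.mul_apply, Fin.sum_univ_two] at h0 h1 h2
  have e11 : P 1 1 = -P 0 0 := by linarith only [h0]
  rw [e11] at h1 h2
  obtain ⟨u, hu⟩ : ∃ u, u = A 0 1 * B 1 0 - A 1 0 * B 0 1 := ⟨_, rfl⟩
  obtain ⟨v, hv⟩ : ∃ v, v = (A 0 0 - A 1 1) * B 0 1 - (B 0 0 - B 1 1) * A 0 1 := ⟨_, rfl⟩
  obtain ⟨w, hw⟩ : ∃ w, w = (B 0 0 - B 1 1) * A 1 0 - (A 0 0 - A 1 1) * B 1 0 := ⟨_, rfl⟩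
  have d00 : (A * B - B * A) 0 0 = u := by
    simp only [Matrix.sub_apply, Matrix.mul_apply, Fin.sum_univ_two, hu]; ring
  have d01 : (A * B - B * A) 0 1 = v := by
    simp only [Matrix.sub_apply, Matrix.mul_apply, Fin.sum_univ_two, hv]; ring
  have d10 : (A * B - B * A) 1 0 = w := by
    simp only [Matrix.sub_apply, Matrix.mul_apply, Fin.sum_univ_two, hw]; ring
  have d11 : (A * B - B * A) 1 1 = -u := by
    simp only [Matrix.sub_apply, Matrix.mul_apply, Fin.sum_univ_two, hu]; ring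
  have c1 : P 0 0 * v = P 0 1 * u := by
    rw [hu, hv]; linear_combination B 0 1 * h1 - A 0 1 * h2
  have c2 : P 0 0 * w = P 1 0 * u := by
    rw [hu, hw]; linear_combination A 1 0 * h2 - B 1 0 * h1
  have c3 : P 0 1 * w = P 1 0 * v := by
    rw [hv, hw]; linear_combination (B 0 0 - B 1 1) * h1 - (A 0 0 - A 1 1) * h2
  have hN : u ^ 2 + v ^ 2 + w ^ 2 ≠ 0 := by
    intro h
    have a1 := sq_nonneg u
    have a2 := sq_nonneg v
    have a3 := sq_nonneg w
    have u0 : u = 0 := pow_eq_zero_iff two_ne_zero |>.1 (by linarith only [h, a1, a2, a3])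
    have v0 : v = 0 := pow_eq_zero_iff two_ne_zero |>.1 (by linarith only [h, a1, a2, a3])
    have w0 : w = 0 := pow_eq_zero_iff two_ne_zero |>.1 (by linarith only [h, a1, a2, a3])
    refine hD (sub_eq_zero.1 ?_)
    ext i j
    fin_cases i <;> fin_cases j
    · exact d00.trans u0
    · exact d01.trans v0
    · exact d10.trans w0
    · exact d11.trans (by rw [u0]; exact neg_zero)
  obtain ⟨s, hs⟩ : ∃ s, s * (u ^ 2 + v ^ 2 + w ^ 2) = P 0 0 * u + P 0 1 * v + P 1 0 * w :=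
    ⟨_, div_mul_cancel₀ _ hN⟩
  have p00 : P 0 0 = s * u := mul_right_cancel₀ hN (by linear_combination v * c1 + w * c2 - u * hs)
  have p01 : P 0 1 = s * v := mul_right_cancel₀ hN (by linear_combination w * c3 - u * c1 - v * hs)
  have p10 : P 1 0 = s * w := mul_right_cancel₀ hN (by linear_combination -u * c2 - v * c3 - w * hs)
  refine ⟨s, ?_⟩
  ext i j
  fin_cases i <;> fin_cases j
  · exact p00.trans (by rw [← d00]; rfl)
  · exact p01.trans (by rw [← d01]; rfl)
  · exact p10.trans (by rw [← d10]; rfl)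
  · refine e11.trans ?_
    change -P 0 0 = s * (A * B - B * A) 1 1
    rw [d11, p00]; ring

theorem xw_ind {x y : G} (h : cm x y ≠ 1) : ∃ D : Mat, ∀ Q : Mat, ((x : Mat) * Q).trace = 0 →
    (((x * y : G) : Mat) * Q).trace = 0 → (((y⁻¹ : G) : Mat) * Q).trace = 0 →
      ∃ s : ℝ, Q = s • D := by
  have hD : ((x * y : G) : Mat) * ((x * y * y : G) : Mat) ≠
      ((x * y * y : G) : Mat) * ((x * y : G) : Mat) := by
    intro e
    have e' : x * y * (x * y * y) = x * y * y * (x * y) := Subtype.ext e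
    apply h
    rw [cm_eq_one]
    calc x * y = (x * y)⁻¹ * (x * y * (x * y * y)) * y⁻¹ := by group
      _ = y * x := by rw [e']; group
  have m : ∀ (a b : G) (Q : Mat), (a : Mat) * ((b : Mat) * Q) = ((a * b : G) : Mat) * Q :=
    fun a b Q => by rw [← Matrix.mul_assoc]; rfl
  refine ⟨(y : Mat) * (((x * y : G) : Mat) * ((x * y * y : G) : Mat) -
    ((x * y * y : G) : Mat) * ((x * y : G) : Mat)), fun Q h1 h2 h3 => ?_⟩
  obtain ⟨s, hs⟩ := xw_cross (P := ((y⁻¹ : G) : Mat) * Q) hD h3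
    (by rw [m, mul_inv_cancel_right]; exact h1) (by rw [m, mul_inv_cancel_right]; exact h2)
  refine ⟨s, ?_⟩
  rw [← Matrix.mul_smul, ← hs, m, mul_inv_cancel]
  exact (Matrix.one_mul Q).symm

theorem xw_pl {c a : G} (h : Pl c a) : ((a : Mat) * (((c⁻¹ : G) : Mat) - 1)).trace = 0 := by
  rw [Matrix.mul_sub, Matrix.mul_one, Matrix.trace_sub, sub_eq_zero, ← tr_eq]
  exact (tr_eq (a * c⁻¹)).symm.trans h

theorem ind3 {x y : G} (h : cm x y ≠ 1) {Q : Mat} (h1 : ((x : Mat) * Q).trace = 0)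
    (h2 : (((x * y : G) : Mat) * Q).trace = 0) (h3 : (((y⁻¹ : G) : Mat) * Q).trace = 0) :
    ∃ s : ℝ, Q = s • ((((cm x y)⁻¹ : G) : Mat) - 1) := by
  obtain ⟨D, hD⟩ := xw_ind h
  obtain ⟨s, hs⟩ := hD Q h1 h2 h3
  have k2 : Pl (cm x y) (x * y) := by
    have := pl_cm (x * y) y
    rwa [cm_hm1 (HM1.l1 x y)] at this
  have k3 : Pl (cm x y) y⁻¹ := by
    have := pl_cm y⁻¹ (y * x)
    rwa [cm_hm (nm_hm (nm_inv x y))] at this
  obtain ⟨r, hr⟩ := hD _ (xw_pl (pl_cm x y)) (xw_pl k2) (xw_pl k3)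
  have r0 : r ≠ 0 := by
    rintro rfl
    rw [zero_smul, sub_eq_zero] at hr
    exact h (inv_eq_one.1 (Subtype.ext hr))
  exact ⟨s / r, by rw [hr, smul_smul, div_mul_cancel₀ _ r0, hs]⟩
theorem lemL {c₁ c₂ : G} {s : ℝ} (h : (c₁ : Mat) - 1 = s • (((c₂⁻¹ : G) : Mat) - 1))
    (ht : tr c₁ ≠ 2) : c₁ * c₂ = 1 := by
  rw [mul_eq_one_iff_eq_inv]
  generalize c₂⁻¹ = d at h
  have e00 : c₁ 0 0 - 1 = s * (d 0 0 - 1) := congrFun (congrFun h 0) 0
  have e01 : c₁ 0 1 - 0 = s * (d 0 1 - 0) := congrFun (congrFun h 0) 1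
  have e10 : c₁ 1 0 - 0 = s * (d 1 0 - 0) := congrFun (congrFun h 1) 0
  have e11 : c₁ 1 1 - 1 = s * (d 1 1 - 1) := congrFun (congrFun h 1) 1
  have d1 := basic_det c₁
  have d2 := basic_det d
  have t0 : c₁ 0 0 + c₁ 1 1 - 2 ≠ 0 := sub_ne_zero.2 ht
  have s1 : s = 1 := mul_right_cancel₀ t0 (by
    linear_combination s * e00 + s * e11 - d1 + s ^ 2 * d2 + (c₁ 1 1 - 1) * e00 +
      s * (d 0 0 - 1) * e11 - c₁ 1 0 * e01 - s * d 0 1 * e10)
  subst s1
  exact basic_ext (by linarith only [e00]) (by linarith only [e01]) (by linarith only [e10]) (by linarith only [e11])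

theorem xw_ch (x y : G) : ((x * y⁻¹ : G) : Mat) = tr y • (x : Mat) - ((x * y : G) : Mat) := by
  ext i j
  change (x * y⁻¹) i j = tr y * x i j - (x * y) i j
  rw [basic_mul, basic_mul]
  fin_cases j
  · change x i 0 * y⁻¹ 0 0 + x i 1 * y⁻¹ 1 0 = tr y * x i 0 - (x i 0 * y 0 0 + x i 1 * y 1 0)
    rw [basic_inv00, basic_inv10, tr]; ring
  · change x i 0 * y⁻¹ 0 1 + x i 1 * y⁻¹ 1 1 = tr y * x i 1 - (x i 0 * y 0 1 + x i 1 * y 1 1)
    rw [basic_inv01, basic_inv11, tr]; ring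

theorem xw_kk (x : G) {y : G} (h : tr y = 0) (t : ℝ) :
    ((x * kk y t : G) : Mat) = cos t • (x : Mat) + sin t • ((x * y : G) : Mat) := by
  have he : ell y := by unfold ell; rw [h]; norm_num
  have hJ : Jm y = (y : Mat) := by simp [Jm, tl, h]
  change (x : Mat) * (kk y t : Mat) = cos t • (x : Mat) + sin t • ((x : Mat) * (y : Mat))
  rw [kk_coe he, hJ, Matrix.mul_add, Matrix.mul_smul, Matrix.mul_smul, Matrix.mul_one]

theorem xw_good {x y : G} {N : Mat} (h : ((x : Mat) * N).trace ≠ 0) :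
    ∃ x₁ y₁ : G, HM (x, y) (x₁, y₁) ∧ ((x₁ : Mat) * N).trace ≠ 0 ∧
      (((x₁ * y₁ : G) : Mat) * N).trace ≠ 0 := by
  by_cases h1 : (((x * y : G) : Mat) * N).trace = 0
  swap
  · exact ⟨x, y, Relation.ReflTransGen.refl, h, h1⟩
  have h2 : (((x * y⁻¹ : G) : Mat) * N).trace = tr y * ((x : Mat) * N).trace := by
    rw [xw_ch, Matrix.sub_mul, Matrix.trace_sub, h1, Matrix.smul_mul, Matrix.trace_smul,
      sub_zero, smul_eq_mul]
  by_cases h3 : tr y = 0
  swap
  · refine ⟨x * y⁻¹, y, Relation.ReflTransGen.single (HM1.l2 x y), ?_, ?_⟩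
    · rw [h2]; exact mul_ne_zero h3 h
    · rwa [inv_mul_cancel_right]
  have he : ell y := by unfold ell; rw [h3]; norm_num
  have h4 : (((x * y * y : G) : Mat) * N).trace = -((x : Mat) * N).trace := by
    have e := xw_ch (x * y) y
    rw [mul_inv_cancel_right, h3, zero_smul, zero_sub] at e
    rw [e, Matrix.neg_mul, Matrix.trace_neg, neg_neg]
  have hc : cos (π / 4) ≠ 0 := by rw [cos_pi_div_four]; positivity
  have hs : sin (π / 4) ≠ 0 := by rw [sin_pi_div_four]; positivity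
  refine ⟨x * kk y (π / 4), y, Relation.ReflTransGen.single (HM1.f2 x y _ he), ?_, ?_⟩
  · rw [xw_kk x h3, Matrix.add_mul, Matrix.trace_add, Matrix.smul_mul, Matrix.smul_mul,
      Matrix.trace_smul, Matrix.trace_smul, h1, smul_zero, add_zero, smul_eq_mul]
    exact mul_ne_zero hc h
  · rw [mul_assoc, ← kk_comm, ← mul_assoc, xw_kk (x * y) h3, Matrix.add_mul, Matrix.trace_add,
      Matrix.smul_mul, Matrix.smul_mul, Matrix.trace_smul, Matrix.trace_smul, h1, smul_zero,
      zero_add, smul_eq_mul, h4]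
    exact mul_ne_zero hs (neg_ne_zero.2 h)

theorem good {x y : G} {N : Mat} (h : ¬ (((x : Mat) * N).trace = 0 ∧
      (((x * y : G) : Mat) * N).trace = 0 ∧ (((y⁻¹ : G) : Mat) * N).trace = 0)) :
    ∃ x₁ y₁ : G, HM (x, y) (x₁, y₁) ∧ ((x₁ : Mat) * N).trace ≠ 0 ∧
      (((x₁ * y₁ : G) : Mat) * N).trace ≠ 0 := by
  by_cases h1 : ((x : Mat) * N).trace = 0
  swap
  · exact xw_good h1
  by_cases h2 : (((x * y : G) : Mat) * N).trace = 0
  swap
  · obtain ⟨a, b, k, hk⟩ := xw_good (y := y) h2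
    exact ⟨a, b, Relation.ReflTransGen.head (HM1.l1 x y) k, hk⟩
  obtain ⟨a, b, k, hk⟩ := xw_good (y := y * x) (fun h3 => h ⟨h1, h2, h3⟩)
  exact ⟨a, b, (nm_hm (nm_inv x y)).trans k, hk⟩
theorem exists_traceless {a : G} (b : G) (h : ell a) : ∃ s, tr (b * kk a s) = 0 := by
  have e : ∀ s, tr (b * kk a s) = cos s * (b : Mat).trace + sin s * ((b : Mat) * Jm a).trace := by
    intro s
    rw [tr_eq]
    change ((b : Mat) * (kk a s : Mat)).trace = _
    rw [kk_coe h, Matrix.mul_add, Matrix.mul_smul, Matrix.mul_smul, Matrix.mul_one,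
      Matrix.trace_add, Matrix.trace_smul, Matrix.trace_smul, smul_eq_mul, smul_eq_mul]
  simp only [e]
  generalize (b : Mat).trace = u
  generalize ((b : Mat) * Jm a).trace = v
  by_cases hv : v = 0
  · exact ⟨π / 2, by simp [hv]⟩
  · refine ⟨arctan (-u / v), ?_⟩
    rw [← tan_mul_cos (cos_arctan_pos (-u / v)).ne', tan_arctan]
    field_simp
    ring

end Pool.Agent.MP_596265_gt.Erg

/-! Automorphisms of the free group that keep the relator. -/

namespace Pool.Agent.MP_596265_gt.Erg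

open Real Filter Topology MeasureTheory Set

variable {g : ℕ}

theorem act_symm (ψ : Fr g ≃* Fr g) (M : Tup g) : act ψ.symm (act ψ M) = M := by
  funext x
  change FreeGroup.lift (act ψ M) (ψ.symm (FreeGroup.of x)) = M x
  rw [lift_act]; simp
theorem act_symm' (ψ : Fr g ≃* Fr g) (M : Tup g) : act ψ (act ψ.symm M) = M :=
  act_symm ψ.symm M
theorem act_refl (M : Tup g) : act (MulEquiv.refl _) M = M := by
  funext x; simp [act]
theorem act_trans (ψ ψ' : Fr g ≃* Fr g) (M : Tup g) :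
    act (ψ.trans ψ') M = act ψ (act ψ' M) := by
  funext x
  change _ = FreeGroup.lift (act ψ' M) (ψ (FreeGroup.of x))
  rw [lift_act]; rfl
theorem autR_refl : AutR (MulEquiv.refl (Fr g)) := IsConj.refl _
theorem AutR.symm {ψ : Fr g ≃* Fr g} (h : AutR ψ) : AutR ψ.symm := by
  have h1 := ψ.symm.toMonoidHom.map_isConj h
  simp only [MulEquiv.coe_toMonoidHom, MulEquiv.symm_apply_apply] at h1
  exact h1.symm
theorem AutR.trans {ψ ψ' : Fr g ≃* Fr g} (h : AutR ψ) (h' : AutR ψ') : AutR (ψ.trans ψ') :=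
  IsConj.trans (ψ'.toMonoidHom.map_isConj h) h'
instance : Countable (Fr g ≃* Fr g) := by
  have : Function.Injective fun (ψ : Fr g ≃* Fr g) (x : Gen g) => ψ (FreeGroup.of x) := by
    intro ψ ψ' h
    apply MulEquiv.toMonoidHom_injective
    exact FreeGroup.ext_hom _ _ fun x => congrFun h x
  exact this.countable

theorem xa_cont (w : Fr g) : Continuous fun M : Tup g => FreeGroup.lift M w := by
  induction w using FreeGroup.induction_on with
  | C1 => simpa using continuous_const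
  | of x => simpa using continuous_apply x
  | inv_of x ih => simp only [map_inv]; exact ih.inv
  | mul x y hx hy => simp only [map_mul]; exact hx.mul hy

theorem continuous_act (ψ : Fr g ≃* Fr g) : Continuous (act ψ : Tup g → Tup g) :=
  continuous_pi fun _ => xa_cont _

theorem xa_pre_of (k : ℕ) : pre (FreeGroup.of : Gen g → Fr g) k = relPre g k := by
  rw [pre_eq]
  have : FreeGroup.lift (FreeGroup.of : Gen g → Fr g) = MonoidHom.id _ := by ext x; simp
  rw [this]; rfl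

theorem xa_mk (u v : Gen g → Fr g) (h1 : ∀ x, FreeGroup.lift v (u x) = FreeGroup.of x)
    (h2 : ∀ x, FreeGroup.lift u (v x) = FreeGroup.of x)
    (hr : pre u g = pre FreeGroup.of g) :
    ∃ ψ, AutR ψ ∧ ∀ (M : Tup g) x, act ψ M x = FreeGroup.lift M (u x) := by
  refine ⟨MonoidHom.toMulEquiv (FreeGroup.lift u) (FreeGroup.lift v) ?_ ?_, ?_, ?_⟩
  · ext x; simpa using h1 x
  · ext x; simpa using h2 x
  · unfold AutR
    rw [MonoidHom.toMulEquiv_apply, ← pre_eq, hr, xa_pre_of]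
  · intro M x
    simp [act]

theorem xa_map_setH {H K : Type} [Group H] [Group K] (f : H →* K) (M : Gen g → H) (j : Fin g)
    (x y : H) (z : Gen g) :
    f (setH M j x y z) = setH (fun z => f (M z)) j (f x) (f y) z := by
  obtain ⟨i, b⟩ := z
  by_cases h : i = j <;> cases b <;> simp [setH, h]

theorem xa_one (j : Fin g) (x y x' y' : Fr g)
    (h1 : FreeGroup.lift (setH FreeGroup.of j x' y') x = FreeGroup.of (j, false))
    (h2 : FreeGroup.lift (setH FreeGroup.of j x' y') y = FreeGroup.of (j, true))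
    (h3 : FreeGroup.lift (setH FreeGroup.of j x y) x' = FreeGroup.of (j, false))
    (h4 : FreeGroup.lift (setH FreeGroup.of j x y) y' = FreeGroup.of (j, true))
    (h5 : cm x y = cm (FreeGroup.of (j, false)) (FreeGroup.of (j, true))) :
    ∃ ψ, AutR ψ ∧ ∀ M : Tup g, act ψ M = setH M j (FreeGroup.lift M x) (FreeGroup.lift M y) := by
  have key : ∀ p q p' q' : Fr g,
      FreeGroup.lift (setH FreeGroup.of j p' q') p = FreeGroup.of (j, false) →
      FreeGroup.lift (setH FreeGroup.of j p' q') q = FreeGroup.of (j, true) →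
      ∀ z, FreeGroup.lift (setH FreeGroup.of j p' q') (setH FreeGroup.of j p q z) =
        FreeGroup.of z := by
    intro p q p' q' e1 e2 z
    rw [xa_map_setH, e1, e2]
    obtain ⟨i, b⟩ := z
    by_cases h : i = j
    · subst h; cases b <;> simp [setH]
    · simp [setH, h]
  obtain ⟨ψ, hψ, hM⟩ := xa_mk (setH FreeGroup.of j x y) (setH FreeGroup.of j x' y')
    (key _ _ _ _ h1 h2) (key _ _ _ _ h3 h4) (pre_congr le_rfl fun i _ => by
      by_cases h : i = j
      · subst h; unfold hc; rw [ha_setH, hb_setH, h5]; rfl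
      · unfold hc; rw [ha_setH_ne _ _ _ h, hb_setH_ne _ _ _ h])
  refine ⟨ψ, hψ, fun M => funext fun z => ?_⟩
  rw [hM, xa_map_setH]
  simp

theorem au_r (j : Fin g) : ∃ ψ, AutR ψ ∧
    ∀ M : Tup g, act ψ M = setH M j (ha M j) (hb M j * ha M j) := by
  simpa only [ha, hb, FreeGroup.lift_apply_of, map_mul] using xa_one j (.of (j, false)) (.of (j, true) * .of (j, false))
    (.of (j, false)) (.of (j, true) * (.of (j, false))⁻¹) (by simp [setH]) (by simp only [map_mul, FreeGroup.lift_apply_of, setH, ↓ reduceIte, cond_true, cond_false, inv_mul_cancel_right])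
    (by simp [setH]) (by simp [setH]) (by unfold cm; group)
theorem au_l (j : Fin g) : ∃ ψ, AutR ψ ∧
    ∀ M : Tup g, act ψ M = setH M j (ha M j * hb M j) (hb M j) := by
  simpa only [ha, hb, map_mul, FreeGroup.lift_apply_of] using xa_one j (.of (j, false) * .of (j, true)) (.of (j, true))
    (.of (j, false) * (.of (j, true))⁻¹) (.of (j, true)) (by simp [setH]) (by simp [setH])
    (by simp [setH]) (by simp [setH]) (by unfold cm; group)
theorem au_r' (j : Fin g) : ∃ ψ, AutR ψ ∧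
    ∀ M : Tup g, act ψ M = setH M j (ha M j) (hb M j * (ha M j)⁻¹) := by
  simpa only [ha, hb, FreeGroup.lift_apply_of, map_mul, map_inv] using xa_one j (.of (j, false)) (.of (j, true) * (.of (j, false))⁻¹)
    (.of (j, false)) (.of (j, true) * .of (j, false)) (by simp [setH]) (by simp only [map_mul, FreeGroup.lift_apply_of, setH, ↓ reduceIte, cond_true, map_inv, cond_false, mul_inv_cancel_right])
    (by simp [setH]) (by simp [setH]) (by unfold cm; group)
theorem au_l' (j : Fin g) : ∃ ψ, AutR ψ ∧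
    ∀ M : Tup g, act ψ M = setH M j (ha M j * (hb M j)⁻¹) (hb M j) := by
  simpa only [ha, hb, map_mul, FreeGroup.lift_apply_of, map_inv] using xa_one j (.of (j, false) * (.of (j, true))⁻¹) (.of (j, true))
    (.of (j, false) * .of (j, true)) (.of (j, true)) (by simp [setH]) (by simp [setH])
    (by simp [setH]) (by simp [setH]) (by unfold cm; group)
theorem au_sig (j : Fin g) : ∃ ψ, AutR ψ ∧
    ∀ M : Tup g, act ψ M = setH M j (hb M j)⁻¹ (hb M j * ha M j) := by
  simpa only [hb, ha, map_inv, FreeGroup.lift_apply_of, map_mul] using xa_one j (.of (j, true))⁻¹ (.of (j, true) * .of (j, false))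
    (.of (j, false) * .of (j, true)) (.of (j, false))⁻¹ (by simp [setH]) (by simp only [map_mul, FreeGroup.lift_apply_of, setH, ↓ reduceIte, cond_true, cond_false, inv_mul_cancel_left])
    (by simp [setH]) (by simp [setH]) (by unfold cm; group)
theorem au_nm {M : Tup g} {j : Fin g} {q : G × G} (h : NM (ha M j, hb M j) q) :
    ∃ ψ, AutR ψ ∧ act ψ M = setH M j q.1 q.2 := by
  induction h with
  | refl => exact ⟨_, autR_refl, by rw [act_refl, setH_self]⟩
  | tail _ hs ih =>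
    obtain ⟨ψ, hψ, e⟩ := ih
    cases hs with
    | r1 x y =>
      obtain ⟨χ, hχ, e'⟩ := au_r j
      exact ⟨_, hχ.trans hψ, by rw [act_trans, e, e']; simp⟩
    | r2 x y =>
      obtain ⟨χ, hχ, e'⟩ := au_r' j
      exact ⟨_, hχ.trans hψ, by rw [act_trans, e, e']; simp⟩
    | l1 x y =>
      obtain ⟨χ, hχ, e'⟩ := au_l j
      exact ⟨_, hχ.trans hψ, by rw [act_trans, e, e']; simp⟩
    | l2 x y =>
      obtain ⟨χ, hχ, e'⟩ := au_l' j
      exact ⟨_, hχ.trans hψ, by rw [act_trans, e, e']; simp⟩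
theorem pre_cjh {H : Type} [Group H] (M : Gen g → H) {h : ℕ} (hh : h ≤ g) (k : H) :
    pre (cjh M h k) h = cj k (pre M h) := by
  have e := pre_map (MulAut.conj k).toMonoidHom M h
  simp only [MulEquiv.coe_toMonoidHom, MulAut.conj_apply] at e
  rw [cj, ← e]
  exact pre_congr hh fun j hj => by simp only [hc, ha, cjh, hj, ↓ reduceIte, hb]
theorem mid_cjh {H : Type} [Group H] (M : Gen g → H) {h n : ℕ} (hn : h ≤ n) (hg : n ≤ g) (k : H) :
    mid (cjh M h k) h n = mid M h n :=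
  mid_congr hn hg fun j hj _ => by simp [hc, ha, hb, cjh, not_lt.2 hj]

theorem xa_map_cjh {H K : Type} [Group H] [Group K] (f : H →* K) (M : Gen g → H) (h : ℕ)
    (k : H) (z : Gen g) : f (cjh M h k z) = cjh (fun z => f (M z)) h (f k) z := by
  by_cases e : (z.1 : ℕ) < h <;> simp only [cjh, e, ↓ reduceIte, map_mul, map_inv]

theorem xa_lift_pre {H : Type} [Group H] (M : Gen g → H) (h : ℕ) :
    FreeGroup.lift M (pre FreeGroup.of h) = pre M h := by rw [xa_pre_of, pre_eq]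

theorem au_sep {h : ℕ} (hh : h ≤ g) : ∃ ψ, AutR ψ ∧
    ∀ M : Tup g, act ψ M = cjh M h (pre M h) := by
  obtain ⟨ψ, hψ, hM⟩ := xa_mk (cjh FreeGroup.of h (pre (FreeGroup.of : Gen g → Fr g) h))
    (cjh FreeGroup.of h (pre FreeGroup.of h)⁻¹)
    (fun z => by
      rw [xa_map_cjh, xa_lift_pre, pre_cjh _ hh]
      by_cases e : (z.1 : ℕ) < h <;> simp [cjh, cj, e, mul_assoc])
    (fun z => by
      rw [xa_map_cjh, map_inv, xa_lift_pre, pre_cjh _ hh]
      by_cases e : (z.1 : ℕ) < h <;> simp only [cjh, e, ↓ reduceIte, cj, mul_assoc, mul_inv_cancel, mul_one, FreeGroup.lift_apply_of, inv_mul_cancel_left, inv_inv, inv_mul_cancel])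
    (by
      have e1 := pre_cjh (FreeGroup.of : Gen g → Fr g) hh (pre FreeGroup.of h)
      have e2 := mid_cjh (FreeGroup.of : Gen g → Fr g) hh le_rfl (pre FreeGroup.of h)
      simp only [mid, e1, cj, mul_inv_cancel_right, mul_right_inj] at e2
      exact e2)
  refine ⟨ψ, hψ, fun M => funext fun z => ?_⟩
  rw [hM, xa_map_cjh, xa_lift_pre]
  simp

end Pool.Agent.MP_596265_gt.Erg

/-! The two moves that involve two handles. -/

namespace Pool.Agent.MP_596265_gt.Erg

open Real Filter Topology MeasureTheory Set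

variable {g : ℕ}

theorem xb_aut (F F' : ∀ (H : Type) [Group H], (Gen g → H) → Gen g → H)
    (nat : ∀ (K : Type) [Group K] (f : Fr g →* K) (M : Gen g → Fr g),
      (fun z => f (F _ M z)) = F K fun z => f (M z))
    (nat' : ∀ (f : Fr g →* Fr g) (M : Gen g → Fr g),
      (fun z => f (F' _ M z)) = F' _ fun z => f (M z))
    (i1 : ∀ M : Gen g → Fr g, F _ (F' _ M) = M) (i2 : ∀ M : Gen g → Fr g, F' _ (F _ M) = M)
    (rel : ∀ M : Gen g → Fr g, pre (F _ M) g = pre M g) :
    ∃ ψ, AutR ψ ∧ ∀ M : Tup g, act ψ M = F G M := by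
  have a1 : (FreeGroup.lift (F' _ FreeGroup.of)).comp (FreeGroup.lift (F _ FreeGroup.of)) =
      MonoidHom.id (Fr g) := by
    ext x
    have := congrFun (nat _ (FreeGroup.lift (F' _ FreeGroup.of)) FreeGroup.of) x
    simp only [FreeGroup.lift_apply_of] at this
    simp only [MonoidHom.comp_apply, FreeGroup.lift_apply_of, MonoidHom.id_apply]
    rw [this, i1]
  have a2 : (FreeGroup.lift (F _ FreeGroup.of)).comp (FreeGroup.lift (F' _ FreeGroup.of)) =
      MonoidHom.id (Fr g) := by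
    ext x
    have := congrFun (nat' (FreeGroup.lift (F _ FreeGroup.of)) FreeGroup.of) x
    simp only [FreeGroup.lift_apply_of] at this
    simp only [MonoidHom.comp_apply, FreeGroup.lift_apply_of, MonoidHom.id_apply]
    rw [this, i2]
  refine ⟨MonoidHom.toMulEquiv _ _ a1 a2, ?_, fun M => ?_⟩
  · have e : FreeGroup.lift (F _ FreeGroup.of) (relPre g g) = relPre g g := by
      rw [← pre_eq, rel, pre_eq, FreeGroup.lift_of_eq_id]; rfl
    unfold AutR
    rw [MonoidHom.toMulEquiv_apply, e]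
  · funext x
    have := congrFun (nat _ (FreeGroup.lift M) FreeGroup.of) x
    simp only [FreeGroup.lift_apply_of] at this
    simp only [act, MonoidHom.toMulEquiv_apply, FreeGroup.lift_apply_of]
    exact this

section two
variable {H : Type} [Group H]

/-- Replace two handles. -/
def xb_tw (M : Gen g → H) (i j : Fin g) (q : H × H × H × H) : Gen g → H :=
  setH (setH M i q.1 q.2.1) j q.2.2.1 q.2.2.2
/-- Read two handles. -/
def xb_rd (M : Gen g → H) (i j : Fin g) : H × H × H × H := (ha M i, hb M i, ha M j, hb M j)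

omit [Group H] in
theorem xb_rd_tw (M : Gen g → H) {i j : Fin g} (h : i ≠ j) (q : H × H × H × H) :
    xb_rd (xb_tw M i j q) i j = q := by
  simp [xb_rd, xb_tw, ha_setH_ne _ _ _ h, hb_setH_ne _ _ _ h]

omit [Group H] in
theorem xb_tw_rd (M : Gen g → H) (i j : Fin g) : xb_tw M i j (xb_rd M i j) = M := by
  simp [xb_rd, xb_tw]

omit [Group H] in
theorem xb_tw_tw (M : Gen g → H) (i j : Fin g) (q q' : H × H × H × H) :
    xb_tw (xb_tw M i j q) i j q' = xb_tw M i j q' := by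
  funext z
  by_cases h1 : z.1 = j
  · simp [xb_tw, setH, h1]
  · by_cases h2 : z.1 = i <;> simp [xb_tw, setH, h1, h2]

theorem xb_hc_ne (M : Gen g → H) {i j k : Fin g} (h1 : k ≠ i) (h2 : k ≠ j) (q : H × H × H × H) :
    hc (xb_tw M i j q) k = hc M k := by
  simp only [hc, xb_tw, ha_setH_ne _ _ _ h1, hb_setH_ne _ _ _ h1, ha_setH_ne _ _ _ h2,
    hb_setH_ne _ _ _ h2]

theorem xb_mid_tw (M : Gen g → H) {i j : Fin g} (h : i < j) (q : H × H × H × H) :
    mid (xb_tw M i j q) (i + 1) j = mid M (i + 1) j :=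
  mid_congr (Nat.succ_le_of_lt h) j.2.le fun k h1 h2 =>
    xb_hc_ne M (fun e => by subst e; omega) (fun e => by subst e; omega) q

theorem xb_split (M : Gen g → H) (i j : Fin g) : pre M g =
    pre M i * (hc M i * mid M (i + 1) j * hc M j) * mid M (j + 1) g := by
  simp only [mid, pre_succ]; group

theorem xb_pre_tw (M : Gen g → H) {i j : Fin g} (h : i < j) (q : H × H × H × H)
    (e : cm q.1 q.2.1 * mid M (i + 1) j * cm q.2.2.1 q.2.2.2 =
      hc M i * mid M (i + 1) j * hc M j) : pre (xb_tw M i j q) g = pre M g := by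
  have h' : (i : ℕ) < j := h
  have r := xb_rd_tw M h.ne q
  have e1 : hc (xb_tw M i j q) i = cm q.1 q.2.1 := by
    conv_rhs => rw [← r]
    rfl
  have e2 : hc (xb_tw M i j q) j = cm q.2.2.1 q.2.2.2 := by
    conv_rhs => rw [← r]
    rfl
  rw [xb_split _ i j, xb_split M i j, xb_mid_tw M h, e1, e2, e]
  have e3 : pre (xb_tw M i j q) i = pre M i := pre_congr i.2.le fun k hk =>
    xb_hc_ne M (fun e => by rw [e] at hk; omega) (fun e => by rw [e] at hk; omega) q
  have e4 : mid (xb_tw M i j q) (j + 1) g = mid M (j + 1) g :=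
    mid_congr (Nat.succ_le_of_lt j.2) le_rfl fun k hk _ =>
      xb_hc_ne M (fun e => by rw [e] at hk; omega) (fun e => by rw [e] at hk; omega) q
  rw [e3, e4]

theorem xb_mid_map {K : Type} [Group K] (f : H →* K) (M : Gen g → H) (a b : ℕ) :
    mid (fun z => f (M z)) a b = f (mid M a b) := by
  simp only [mid, pre_map, map_mul, map_inv]

theorem xb_tw_map {K : Type} [Group K] (f : H →* K) (M : Gen g → H) (i j : Fin g)
    (q : H × H × H × H) : (fun z => f (xb_tw M i j q z)) =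
      xb_tw (fun z => f (M z)) i j (f q.1, f q.2.1, f q.2.2.1, f q.2.2.2) := by
  funext ⟨k, b⟩
  simp only [xb_tw, setH]
  split_ifs <;> cases b <;> rfl

end two

theorem xb_gen {i j : Fin g} (h : i < j)
    (P Q : ∀ (H : Type) [Group H], H → H × H × H × H → H × H × H × H)
    (nP : ∀ (K : Type) [Group K] (f : Fr g →* K) n a b c d,
      P K (f n) (f a, f b, f c, f d) = (f (P _ n (a, b, c, d)).1, f (P _ n (a, b, c, d)).2.1,
        f (P _ n (a, b, c, d)).2.2.1, f (P _ n (a, b, c, d)).2.2.2))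
    (nQ : ∀ (f : Fr g →* Fr g) n a b c d,
      Q _ (f n) (f a, f b, f c, f d) = (f (Q _ n (a, b, c, d)).1, f (Q _ n (a, b, c, d)).2.1,
        f (Q _ n (a, b, c, d)).2.2.1, f (Q _ n (a, b, c, d)).2.2.2))
    (i1 : ∀ (n : Fr g) q, P _ n (Q _ n q) = q) (i2 : ∀ (n : Fr g) q, Q _ n (P _ n q) = q)
    (rel : ∀ n a b c d : Fr g, cm (P _ n (a, b, c, d)).1 (P _ n (a, b, c, d)).2.1 * n *
      cm (P _ n (a, b, c, d)).2.2.1 (P _ n (a, b, c, d)).2.2.2 = cm a b * n * cm c d) :
    ∃ ψ, AutR ψ ∧ ∀ M : Tup g,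
      act ψ M = xb_tw M i j (P G (mid M (i + 1) j) (xb_rd M i j)) := by
  refine xb_aut (fun H _ M => xb_tw M i j (P H (mid M (i + 1) j) (xb_rd M i j)))
    (fun H _ M => xb_tw M i j (Q H (mid M (i + 1) j) (xb_rd M i j))) ?_ ?_ ?_ ?_ ?_
  · intro K _ f M
    rw [xb_tw_map, xb_mid_map]
    exact congrArg _ (nP K f _ _ _ _ _).symm
  · intro f M
    rw [xb_tw_map, xb_mid_map]
    exact congrArg _ (nQ f _ _ _ _ _).symm
  · intro M
    rw [xb_mid_tw M h, xb_rd_tw M h.ne, i1, xb_tw_tw, xb_tw_rd]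
  · intro M
    rw [xb_mid_tw M h, xb_rd_tw M h.ne, i2, xb_tw_tw, xb_tw_rd]
  · intro M
    exact xb_pre_tw M h _ (rel _ _ _ _ _)

theorem au_swap {i j : Fin g} (h : i < j) : ∃ ψ, AutR ψ ∧ ∀ M : Tup g, act ψ M =
    setH (setH M i (cj (mid M i j) (ha M j)) (cj (mid M i j) (hb M j))) j
      (cj (mid M (i + 1) j)⁻¹ (ha M i)) (cj (mid M (i + 1) j)⁻¹ (hb M i)) := by
  obtain ⟨ψ, h1, h2⟩ := xb_gen h
    (fun _ _ n q => (cj (cm q.1 q.2.1 * n) q.2.2.1, cj (cm q.1 q.2.1 * n) q.2.2.2,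
      cj n⁻¹ q.1, cj n⁻¹ q.2.1))
    (fun _ _ n q => (cj n q.2.2.1, cj n q.2.2.2, cj (n * cm q.2.2.1 q.2.2.2)⁻¹ q.1,
      cj (n * cm q.2.2.1 q.2.2.2)⁻¹ q.2.1))
    (fun K _ f n a b c d => by simp only [cj, cm, map_mul, map_inv])
    (fun f n a b c d => by simp only [cj, cm, map_mul, map_inv])
    (fun n ⟨a, b, c, d⟩ => by
      simp only [cj, cm, Prod.mk.injEq]; refine ⟨?_, ?_, ?_, ?_⟩ <;> group)
    (fun n ⟨a, b, c, d⟩ => by
      simp only [cj, cm, Prod.mk.injEq]; refine ⟨?_, ?_, ?_, ?_⟩ <;> group)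
    (fun n a b c d => by simp only [cj, cm]; group)
  refine ⟨ψ, h1, fun M => ?_⟩
  have e : mid M i j = cm (ha M i) (hb M i) * mid M (i + 1) j := by
    simp only [mid, pre_succ, hc]; group
  rw [h2, e]; rfl

theorem au_mix [NeZero g] {j : Fin g} (h : j ≠ 0) : ∃ ψ, AutR ψ ∧ ∀ M : Tup g, act ψ M =
    setH (setH M 0 (cj (ha M 0) ((ha M 0)⁻¹ * hc M 0 * cj (mid M 1 j) (ha M j)))
        (cj (ha M 0) (cj (mid M 1 j) (hb M j)))) j
      (cj (mid M 1 j)⁻¹ (ha M 0)) (cj (mid M 1 j)⁻¹ (cj (mid M 1 j) (hb M j) * hb M 0)) := by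
  obtain ⟨ψ, h1, h2⟩ := xb_gen (Fin.pos_iff_ne_zero.2 h)
    (fun _ _ n q => (cj q.1 (q.1⁻¹ * cm q.1 q.2.1 * cj n q.2.2.1), cj q.1 (cj n q.2.2.2),
      cj n⁻¹ q.1, cj n⁻¹ (cj n q.2.2.2 * q.2.1)))
    (fun _ _ n q => (cj n q.2.2.1, (cj (cj n q.2.2.1)⁻¹ q.2.1)⁻¹ * cj n q.2.2.2,
      cj n⁻¹ ((cm (cj n q.2.2.1) ((cj (cj n q.2.2.1)⁻¹ q.2.1)⁻¹ * cj n q.2.2.2))⁻¹ * q.1 *
        cj n q.2.2.1), cj n⁻¹ (cj (cj n q.2.2.1)⁻¹ q.2.1)))
    (fun K _ f n a b c d => by simp only [cj, cm, map_mul, map_inv])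
    (fun f n a b c d => by simp only [cj, cm, map_mul, map_inv])
    (fun n ⟨a, b, c, d⟩ => by
      simp only [cj, cm, Prod.mk.injEq]; refine ⟨?_, ?_, ?_, ?_⟩ <;> group)
    (fun n ⟨a, b, c, d⟩ => by
      simp only [cj, cm, Prod.mk.injEq]; refine ⟨?_, ?_, ?_, ?_⟩ <;> group)
    (fun n a b c d => by simp only [cj, cm]; group)
  refine ⟨ψ, h1, fun M => ?_⟩
  rw [h2]
  simp only [Fin.val_zero, zero_add]
  rfl

end Pool.Agent.MP_596265_gt.Erg

/-! Lifted commutators and the component X. -/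

namespace Pool.Agent.MP_596265_gt.Erg

open Real Filter Topology MeasureTheory Set

variable {g : ℕ}

theorem xk_cm_z {H : Type} [Group H] (x y a b : H) (ha : ∀ w, a * w = w * a)
    (hb : ∀ w, b * w = w * b) : cm (x * a) (y * b) = cm x y := by
  have h1 : ∀ w, a * w * a⁻¹ = w := fun w => by rw [ha, mul_inv_cancel_right]
  have h2 : ∀ w, b * w * b⁻¹ = w := fun w => by rw [hb, mul_inv_cancel_right]
  calc cm (x * a) (y * b) = x * (a * (y * b) * a⁻¹) * x⁻¹ * b⁻¹ * y⁻¹ := by unfold cm; group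
    _ = x * y * (b * x⁻¹ * b⁻¹) * y⁻¹ := by rw [h1]; group
    _ = cm x y := by rw [h2]; rfl

theorem xk_pj_cm (x y : Gt) : pj (cm x y) = cm (pj x) (pj y) := by
  simp only [cm, map_mul, map_inv]

theorem xk_inv (y : Gt) (t : ℝ) : ap y⁻¹ (ap y t) = t := by
  rw [← ap_mul, inv_mul_cancel, map_one]; rfl

theorem xk_bd (w : Gt) (s t : ℝ) : ap w t - t < ap w s - s + 1 := by
  have h1 := (ap w).monotone (show t ≤ s + (⌈t - s⌉ : ℤ) by linarith [Int.le_ceil (t - s)])
  rw [ap_add_int] at h1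
  linarith [Int.ceil_lt_add_one (t - s)]

theorem xk_k1 (x y : Gt) : ∃ t, ap (x * y) t < ap (y * x) t + 1 := by
  by_contra hn
  push Not at hn
  have h1 : ∀ (n : ℕ) (s : ℝ), ap ((y * x) ^ n) s + n ≤ ap ((x * y) ^ n) s := by
    intro n s
    induction n with
    | zero => simp only [pow_zero, map_one, RelIso.coe_one, id_eq, CharP.cast_eq_zero, add_zero, Std.le_refl]
    | succ n ih =>
      have h2 := (ap (x * y)).monotone ih
      have h3 := ap_add_int (x * y) (ap ((y * x) ^ n) s) (n : ℤ)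
      have h4 := hn (ap ((y * x) ^ n) s)
      rw [pow_succ', pow_succ', ap_mul (y * x), ap_mul (x * y)]
      push_cast at h3 ⊢
      linarith
  have h5 : ∀ n : ℕ, (x * y) ^ n * x = x * (y * x) ^ n := fun n => by
    induction n with
    | zero => simp
    | succ n ih => rw [pow_succ', mul_assoc, ih, pow_succ']; simp only [mul_assoc]
  obtain ⟨n, hn'⟩ := exists_nat_ge (2 : ℝ)
  have h6 := h1 n (ap x 0)
  rw [← ap_mul ((x * y) ^ n), h5, ap_mul] at h6
  have h7 := xk_bd x 0 (ap ((y * x) ^ n) 0)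
  have h8 := xk_bd ((y * x) ^ n) (ap x 0) 0
  linarith

theorem xk_lo {y : Gt} {r : ℝ} (h : ∃ t, ap y t < t + r) : ∃ t, t - r < ap y⁻¹ t := by
  obtain ⟨t, ht⟩ := h
  exact ⟨ap y t, by rw [xk_inv]; linarith⟩

theorem xk_hi {y : Gt} {r : ℝ} (h : ∃ t, t - r < ap y t) : ∃ t, ap y⁻¹ t < t + r := by
  obtain ⟨t, ht⟩ := h
  exact ⟨ap y t, by rw [xk_inv]; linarith⟩

theorem xk_cm_lt (x y : Gt) : ∃ t, ap (cm x y) t < t + 1 := by
  obtain ⟨t, ht⟩ := xk_k1 x y
  refine ⟨ap (y * x) t, ?_⟩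
  rw [← ap_mul, show cm x y * (y * x) = x * y by unfold cm; group]
  exact ht

theorem xk_th1 {y : Gt} : y ∈ Th 1 ↔ (∃ t, ap y t < t + 1) ∧ ∃ t, t - 1 < ap y t := by
  have e : (2 * ((1 : ℕ) : ℝ) - 1) = 1 := by norm_num
  simp only [Th, mem_ofPred_eq, e]

theorem xk_two {y : Gt} (hy : y ∈ Th 1) (t : ℝ) : ap y t < t + 2 ∧ t - 2 < ap y t := by
  obtain ⟨⟨s, hs⟩, r, hr⟩ := xk_th1.1 hy
  exact ⟨by linarith [xk_bd y s t], by linarith [xk_bd y t r]⟩

theorem xk_vec_one (t : ℝ) : vec (t + 1) = -vec t := by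
  apply lifts_ext
  · rw [Pi.neg_apply, lifts_v0, lifts_v0, mul_add, mul_one, cos_add_pi]
  · rw [Pi.neg_apply, lifts_v1, lifts_v1, mul_add, mul_one, sin_add_pi]

theorem xk_eig {A : G} {c t : ℝ} (h : (A : Mat).mulVec (vec t) = c • vec t) :
    c ^ 2 - tr A * c + 1 = 0 := by
  have h0 := congrFun h 0
  have h1 := congrFun h 1
  rw [lifts_mv, Pi.smul_apply, smul_eq_mul, lifts_v0, lifts_v1] at h0 h1
  have h2 := sin_sq_add_cos_sq (π * t)
  have h3 := basic_det A
  unfold tr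
  generalize cos (π * t) = u at *
  generalize sin (π * t) = v at *
  linear_combination (u * (A 1 1 - c) - v * A 1 0) * h0 + (v * (A 0 0 - c) - u * A 0 1) * h1 -
    (c ^ 2 - (A 0 0 + A 1 1) * c + 1) * h2 - (u ^ 2 + v ^ 2) * h3

theorem xk_neg {y : Gt} {t : ℝ} (h : ap y t + 1 = t) : tr (pj y) ≤ -2 := by
  obtain ⟨c, hc, e⟩ := (liftP y).2 t
  have h1 := xk_vec_one (ap y t)
  rw [h] at h1
  have h2 : vec (ap y t) = -vec t := by rw [h1, neg_neg]
  rw [h2, smul_neg, ← neg_smul] at e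
  have h3 := xk_eig e
  by_contra hn
  push Not at hn
  linarith only [sq_nonneg (c - 1), mul_pos hc (show 0 < tr (pj y) + 2 by linarith), h3]

theorem xk_uniq {y : Gt} {n : ℤ} (hy : y ∈ Th 1) (hy' : y * zt (2 * n) ∈ Th 1)
    (ht : -2 < tr (pj y)) : n ≤ 0 := by
  by_contra hn
  have h1 : (1 : ℝ) ≤ n := by exact_mod_cast (by omega : 1 ≤ n)
  obtain ⟨r, hr⟩ := (xk_th1.1 hy).2
  obtain ⟨s, hs⟩ := (xk_th1.1 hy').1
  have h2 := ap_add_int y s (2 * n)
  push_cast at h2
  rw [ap_mul, ap_zt, h2] at hs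
  have hc : Continuous fun t => ap y t + 1 - t := ((ap y).continuous.add continuous_const).sub continuous_id
  obtain ⟨t, h3⟩ := intermediate_value_univ s r hc
    (show (0 : ℝ) ∈ Icc (ap y s + 1 - s) (ap y r + 1 - r) from ⟨by linarith only [h1, hs], by linarith⟩)
  have := xk_neg (y := y) (t := t) (by simp only at h3; linarith)
  linarith

theorem cm_lift {x' y' : Gt} {x y : G} (hx : PM (pj x') x) (hy : PM (pj y') y) :
    cm x' y' = cmt x y := by
  obtain ⟨m, hm⟩ := pm_eq (y := x') (y' := lf x) (by rw [pj_lf]; exact hx)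
  obtain ⟨n, hn⟩ := pm_eq (y := y') (y' := lf y) (by rw [pj_lf]; exact hy)
  rw [cmt, hm, hn, xk_cm_z _ _ _ _ (zt_central m) (zt_central n)]
theorem pj_cmt (x y : G) : pj (cmt x y) = cm x y := by
  rw [cmt, xk_pj_cm, pj_lf, pj_lf]
theorem continuous_cmt : Continuous fun p : G × G => cmt p.1 p.2 := by
  refine continuous_iff_continuousAt.2 fun p => ?_
  obtain ⟨s, hs, -, hs2⟩ := exists_section (lf p.1)
  obtain ⟨r, hr, -, hr2⟩ := exists_section (lf p.2)
  rw [pj_lf] at hs hs2 hr hr2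
  have h1 : ContinuousAt (fun q : G × G => s q.1) p := hs.comp continuousAt_fst
  have h2 : ContinuousAt (fun q : G × G => r q.2) p := hr.comp continuousAt_snd
  refine (((h1.mul h2).mul h1.inv).mul h2.inv).congr ?_
  filter_upwards [continuousAt_fst.eventually hs2, continuousAt_snd.eventually hr2] with q q1 q2
  exact cm_lift (Or.inl q1) (Or.inl q2)
theorem cmt_mem (x y : G) : cmt x y ∈ Th 1 := by
  refine xk_th1.2 ⟨xk_cm_lt _ _, ?_⟩
  have h := xk_lo (xk_cm_lt (lf y) (lf x))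
  rwa [show (cm (lf y) (lf x))⁻¹ = cmt x y by unfold cmt cm; group] at h
theorem isOpen_th (h : ℕ) : IsOpen (Th h) := by
  have hc : ∀ t : ℝ, Continuous fun y : Gt => ap y t := fun t =>
    continuous_ap.comp (continuous_id.prodMk continuous_const)
  have e : Th h = (⋃ t : ℝ, {y | ap y t < t + (2 * h - 1)}) ∩
      ⋃ t : ℝ, {y | t - (2 * h - 1) < ap y t} := by
    ext y; simp only [Th, mem_ofPred_eq, mem_inter_iff, mem_iUnion]
  rw [e]
  exact (isOpen_iUnion fun t => isOpen_lt (hc t) continuous_const).inter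
    (isOpen_iUnion fun t => isOpen_lt continuous_const (hc t))
theorem th_mul {y w : Gt} {h : ℕ} (hy : y ∈ Th 1) (hw : w ∈ Th h) : y * w ∈ Th (h + 1) := by
  obtain ⟨⟨s, hs⟩, r, hr⟩ := hw
  refine ⟨⟨s, ?_⟩, r, ?_⟩
  · rw [ap_mul]; push_cast; linarith [(xk_two hy (ap w s)).1]
  · rw [ap_mul]; push_cast; linarith [(xk_two hy (ap w r)).2]
theorem th_inv {y : Gt} {h : ℕ} (hy : y ∈ Th h) : y⁻¹ ∈ Th h := ⟨xk_hi hy.2, xk_lo hy.1⟩
theorem th_cj (k : Gt) {y : Gt} {h : ℕ} (hy : y ∈ Th h) : cj k y ∈ Th h := by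
  obtain ⟨⟨s, hs⟩, r, hr⟩ := hy
  have e : ∀ t, ap (cj k y) (ap k t) = ap k (ap y t) := fun t => by
    rw [cj, ap_mul, ap_mul, xk_inv]
  refine ⟨⟨ap k s, ?_⟩, ap k r, ?_⟩
  · have h1 := ap_add_int k s (2 * h - 1)
    push_cast at h1
    rw [e, ← h1]
    exact (ap k).strictMono hs
  · have h1 := ap_add_int k r (-(2 * h - 1))
    push_cast at h1
    rw [e, sub_eq_add_neg, ← h1]
    exact (ap k).strictMono (by linarith)
theorem th_uniq {y y' : Gt} (hy : y ∈ Th 1) (hy' : y' ∈ Th 1) (h : pj y = pj y')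
    (ht : -2 < tr (pj y)) : y = y' := by
  obtain ⟨n, hn⟩ := pj_eq h
  have h1 := xk_uniq hy (hn ▸ hy') ht
  have e : y = y' * zt (2 * ((-n : ℤ) : ℝ)) := by
    rw [hn, mul_assoc, ← zt_add, show 2 * (n : ℝ) + 2 * ((-n : ℤ) : ℝ) = 0 by push_cast; ring,
      zt_zero, mul_one]
  have h2 := xk_uniq hy' (e ▸ hy) (h ▸ ht)
  obtain rfl : n = 0 := by omega
  rw [hn, Int.cast_zero, mul_zero, zt_zero, mul_one]
theorem one_mem_th : (1 : Gt) ∈ Th 1 := by
  have e : ap (1 : Gt) 0 = 0 := by rw [map_one]; rfl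
  exact xk_th1.2 ⟨⟨0, by rw [e]; norm_num⟩, 0, by rw [e]; norm_num⟩
theorem cmt_eq_one {x y : G} : cmt x y = 1 ↔ cm x y = 1 := by
  constructor
  · intro h; rw [← pj_cmt, h, map_one]
  · intro h
    refine th_uniq (cmt_mem x y) one_mem_th (by rw [pj_cmt, h, map_one]) ?_
    rw [pj_cmt, h, tr_one]; norm_num
theorem comm_lift {x y : Gt} (h : pj x * pj y = pj y * pj x) : x * y = y * x := by
  have h1 := cm_lift (PM.refl (pj x)) (PM.refl (pj y))
  rw [cmt_eq_one.2 (cm_eq_one.2 h)] at h1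
  calc x * y = cm x y * (y * x) := by unfold cm; group
    _ = y * x := by rw [h1, one_mul]
theorem cmt_neg1 (x y : G) : cmt (-x) y = cmt x y :=
  cm_lift (by rw [pj_lf]; exact Or.inr rfl) (by rw [pj_lf]; exact PM.refl _)
theorem xk_lift (x y : Gt) : cmt (pj x) (pj y) = cm x y := (cm_lift (PM.refl _) (PM.refl _)).symm
theorem xk_right {x y k : G} (h : x * k = k * x) : cmt x (y * k) = cmt x y := by
  have h1 : lf x * lf k = lf k * lf x := comm_lift (by rw [pj_lf, pj_lf, h])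
  have h2 := xk_lift (lf x) (lf y * lf k)
  rw [map_mul, pj_lf, pj_lf, pj_lf] at h2
  rw [h2]
  calc cm (lf x) (lf y * lf k) = lf x * lf y * (lf x)⁻¹ * (lf x * lf k) * (lf k * lf x)⁻¹ *
        (lf y)⁻¹ := by unfold cm; group
    _ = cmt x y := by rw [h1]; unfold cmt cm; group
theorem xk_left {x y k : G} (h : y * k = k * y) : cmt (x * k) y = cmt x y := by
  have h1 : lf y * lf k = lf k * lf y := comm_lift (by rw [pj_lf, pj_lf, h])
  have h2 := xk_lift (lf x * lf k) (lf y)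
  rw [map_mul, pj_lf, pj_lf, pj_lf] at h2
  rw [h2]
  calc cm (lf x * lf k) (lf y) = lf x * (lf k * lf y) * (lf k)⁻¹ * (lf x)⁻¹ * (lf y)⁻¹ := by
        unfold cm; group
    _ = cmt x y := by rw [← h1]; unfold cmt cm; group
theorem cmt_hm1 {p q : G × G} (h : HM1 p q) : cmt q.1 q.2 = cmt p.1 p.2 := by
  cases h with
  | r1 x y => exact xk_right rfl
  | r2 x y => exact xk_right (by group)
  | l1 x y => exact xk_left rfl
  | l2 x y => exact xk_left (by group)
  | f1 x y t _ => exact xk_right (kk_comm x t)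
  | f2 x y t _ => exact xk_left (kk_comm y t)
theorem cmt_hm {p q : G × G} (h : HM p q) : cmt q.1 q.2 = cmt p.1 p.2 := by
  induction h with
  | refl => rfl
  | tail _ h2 ih => rw [cmt_hm1 h2, ih]
theorem cmt_cj (k x y : G) : cmt (cj k x) (cj k y) = cj (lf k) (cmt x y) := by
  have h := xk_lift (cj (lf k) (lf x)) (cj (lf k) (lf y))
  simp only [cj, map_mul, map_inv, pj_lf] at h
  simp only [cj]
  rw [h]
  unfold cmt cm
  group

end Pool.Agent.MP_596265_gt.Erg

/-! The component X. -/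

namespace Pool.Agent.MP_596265_gt.Erg

open Real Filter Topology MeasureTheory Set

variable {g : ℕ}

theorem Rt_zero (M : Tup g) : Rt M 0 = 1 := pre_zero _
theorem Rt_succ (M : Tup g) (j : Fin g) :
    Rt M (j + 1) = Rt M j * cmt (ha M j) (hb M j) := pre_succ _ j
theorem pj_Rt (M : Tup g) (k : ℕ) : pj (Rt M k) = pre M k := by
  rw [Rt, ← pre_map]; simp only [pj_lf]
theorem Rt_of_le (M : Tup g) {k : ℕ} (hk : g ≤ k) : Rt M k = Rt M g := by
  simp only [Rt, pre]
  rw [List.take_of_length_le (by simpa using hk), List.take_of_length_le (by simp)]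
theorem continuous_Rt (k : ℕ) : Continuous fun M : Tup g => Rt M k := by
  induction k with
  | zero => simp only [Rt_zero, continuous_const]
  | succ k ih =>
    by_cases h : k < g
    · have h1 : Continuous fun M : Tup g => (ha M ⟨k, h⟩, hb M ⟨k, h⟩) :=
        (continuous_apply _).prodMk (continuous_apply _)
      have h2 := continuous_cmt.comp h1
      exact (ih.mul h2).congr fun M => (Rt_succ M ⟨k, h⟩).symm
    · exact ih.congr fun M => by rw [Rt_of_le M (not_lt.1 h), Rt_of_le M (k := k + 1) (by omega)]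
theorem Rt_eq {M : Tup g} {L : Gen g → Gt} (h : ∀ x, PM (pj (L x)) (M x)) (k : ℕ) :
    Rt M k = pre L k := by
  have : hc (fun z => lf (M z)) = hc L := funext fun j => (cm_lift (h _) (h _)).symm
  simp only [Rt, pre, this]
theorem Rt_congr {M N : Tup g} (h : ∀ j, cmt (ha M j) (hb M j) = cmt (ha N j) (hb N j)) (k : ℕ) :
    Rt M k = Rt N k := by
  have : hc (fun z => lf (M z)) = hc fun z => lf (N z) := funext h
  simp only [Rt, pre, this]
theorem X_act {e : ℤ} {ψ : Fr g ≃* Fr g} (h : AutR ψ) {M : Tup g} (hM : M ∈ X g e) :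
    act ψ M ∈ X g e := by
  have h1 : pj.comp (FreeGroup.lift fun z => lf (M z)) = FreeGroup.lift M := by
    ext1 x; simp [pj_lf]
  obtain ⟨c, hc⟩ := isConj_iff.1 (IsConj.symm h)
  have h2 : FreeGroup.lift (fun z => lf (M z)) (relPre g g) = zt e := (pre_eq _ g).symm.trans hM
  change Rt _ g = _
  rw [Rt_eq (M := act ψ M) (L := act ψ fun z => lf (M z)) fun x => Or.inl (DFunLike.congr_fun h1 _), pre_eq,
    lift_act, ← hc, map_mul, map_mul, map_inv, h2, ← zt_central, mul_inv_cancel_right]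
theorem X_sg {e : ℤ} (ε : Gen g → Bool) {M : Tup g} (hM : M ∈ X g e) : sg ε M ∈ X g e := by
  refine (Rt_eq (L := fun z => lf (M z)) (fun x => ?_) g).trans hM
  rw [pj_lf, sg]
  cases ε x
  · exact Or.inl rfl
  · exact Or.inr (neg_neg _).symm
theorem X_setH {e : ℤ} {M : Tup g} (hM : M ∈ X g e) {j : Fin g} {x y : G}
    (h : cmt x y = cmt (ha M j) (hb M j)) : setH M j x y ∈ X g e := by
  refine (Rt_congr (fun i => ?_) g).trans hM
  by_cases hi : i = j
  · rw [hi, ha_setH, hb_setH, h]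
  · rw [ha_setH_ne _ _ _ hi, hb_setH_ne _ _ _ hi]
theorem X_phi {e : ℤ} (j : Fin g) (t : ℝ) {M : Tup g} (hM : M ∈ X g e) : phi j t M ∈ X g e := by
  refine X_setH hM ?_
  by_cases h : ell (ha M j)
  · have := cmt_hm1 (HM1.f1 _ (hb M j) t h)
    exact this
  · rw [kk_not h, mul_one]
theorem X_sepf {e : ℤ} {h : ℕ} (hh : h ≤ g) (t : ℝ) {M : Tup g} (hM : M ∈ X g e) :
    sepf h t M ∈ X g e := by
  have h1 : lf (kk (pre M h) t) * Rt M h = Rt M h * lf (kk (pre M h) t) :=
    comm_lift (by rw [pj_lf, pj_Rt, kk_comm])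
  have h2 := pre_cjh (fun z => lf (M z)) hh (lf (kk (pre M h) t))
  have h3 := mid_cjh (fun z => lf (M z)) hh le_rfl (lf (kk (pre M h) t))
  refine (Rt_eq (L := cjh (fun z => lf (M z)) h (lf (kk (pre M h) t))) (fun x => Or.inl ?_)
    g).trans (Eq.trans ?_ hM)
  · simp only [sepf, cjh]
    split_ifs <;> simp only [map_mul, map_inv, pj_lf]
  · rw [Rt] at h1
    rw [mid, mid, h2, cj, h1, mul_inv_cancel_right] at h3
    exact mul_left_cancel h3
theorem xy_rot (k : ℤ) : PM (rot k) 1 := by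
  have := rot_add_int 0 k
  rwa [zero_add, rot_zero] at this
theorem X_pm {e : ℤ} {M : Tup g} (hM : M ∈ X g e) : PM (pre M g) 1 := by
  rw [← pj_Rt, show Rt M g = zt e from hM]
  exact xy_rot e
theorem isClosed_X (e : ℤ) : IsClosed (X g e) := isClosed_eq (continuous_Rt g) continuous_const
theorem xy_mem {e : ℤ} {M : Tup g} (h : PM (pre M g) 1) (h1 : |ap (Rt M g) 0 - e| < 1) :
    M ∈ X g e := by
  obtain ⟨n, hn⟩ := pm_eq (y := zt e) (y' := Rt M g) ((xy_rot e).trans (by rw [pj_Rt]; exact h.symm))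
  rw [hn, ap_mul, ap_zt, ap_zt, zero_add, add_sub_cancel_right] at h1
  have h2 : |n| < 1 := by exact_mod_cast h1
  rw [Int.abs_lt_one_iff.1 h2, Int.cast_zero, zt_zero, mul_one] at hn
  exact hn
theorem X_loc {e : ℤ} {M : Tup g} (hM : M ∈ X g e) :
    ∀ᶠ N in 𝓝 M, PM (pre N g) 1 → N ∈ X g e := by
  have h1 : Continuous fun N : Tup g => |ap (Rt N g) 0 - e| :=
    ((continuous_ap.comp ((continuous_Rt g).prodMk continuous_const)).sub continuous_const).abs
  have h2 : |ap (Rt M g) 0 - e| < 1 := by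
    rw [show Rt M g = zt e from hM, ap_zt]; simp
  exact (h1.continuousAt.eventually_lt continuousAt_const h2).mono fun N h h' => xy_mem h' h

theorem xy_pm_of_mk {A B : G} (h : (QuotientGroup.mk A : PSL) = QuotientGroup.mk B) : PM A B := by
  have h1 := QuotientGroup.eq.1 h
  have h2 : ∀ X : G, X * (A⁻¹ * B) = A⁻¹ * B * X := Subgroup.mem_center_iff.1 h1
  set C := A⁻¹ * B with hC
  have hB : B = A * C := by rw [hC]; group
  let U : G := ⟨!![1, 1; 0, 1], by simp [Matrix.det_fin_two_of]⟩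
  let V : G := ⟨!![1, 0; 1, 1], by simp [Matrix.det_fin_two_of]⟩
  have u00 : U 0 0 = 1 := rfl
  have u01 : U 0 1 = 1 := rfl
  have u10 : U 1 0 = 0 := rfl
  have u11 : U 1 1 = 1 := rfl
  have v00 : V 0 0 = 1 := rfl
  have v01 : V 0 1 = 0 := rfl
  have v10 : V 1 0 = 1 := rfl
  have e1 := congrArg (fun X : G => X 0 0) (h2 U)
  have e2 := congrArg (fun X : G => X 0 1) (h2 U)
  have e3 := congrArg (fun X : G => X 0 0) (h2 V)
  simp only [basic_mul, u00, u01, u10, u11, v00, v01, v10] at e1 e2 e3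
  have hd := basic_det C
  have c10 : C 1 0 = 0 := by linarith only [e1]
  have c01 : C 0 1 = 0 := by linarith only [e3]
  have c00 : C 0 0 = C 1 1 := by linarith only [e2]
  rw [c10, c00] at hd
  have : (C 1 1 - 1) * (C 1 1 + 1) = 0 := by linarith only [hd]
  have hp : PM C 1 := by
    rcases mul_eq_zero.1 this with h | h
    · left
      apply basic_ext <;> simp only [basic_one00, basic_one01, basic_one10, basic_one11] <;> linarith only [e2, h, e3, e1]
    · right
      apply basic_ext <;>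
        simp only [basic_neg, basic_one00, basic_one01, basic_one10, basic_one11] <;> linarith only [e2, h, e3, e1]
  have := (PM.refl A).mul hp
  rw [mul_one, ← hB] at this
  exact this.symm

theorem X_iff_euler {e : ℤ} {ρ : SurfaceGroup g →* PSL} {M : Tup g}
    (h : ∀ x, (QuotientGroup.mk (M x) : PSL) = ρ (PresentedGroup.of x)) :
    M ∈ X g e ↔ EulerNumber ρ e := by
  constructor
  · intro hM
    refine ⟨fun x => ap (lf (M x)), fun x => ⟨(liftP _).1, _, (congrArg _ (pj_lf _)).trans (h x),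
      (liftP _).lift.2⟩, ?_⟩
    rw [← pre_eq, pre_map ap fun z => lf (M z), show pre _ g = zt e from hM]
    rfl
  · rintro ⟨f, hf, he⟩
    have h1 : ∀ x, ∃ y : Gt, PM (pj y) (M x) ∧ ap y = f x := fun x => by
      obtain ⟨p, A, hA, q⟩ := hf x
      obtain ⟨k, hk⟩ := (liftP (lf A)).lift.unique (f' := f x) (by rw [pj_lf]; exact ⟨p, q⟩)
      refine ⟨lf A * zt k, ?_, RelIso.ext fun t => by rw [ap_mul, ap_zt, ap_add_int, hk]⟩
      have := (xy_pm_of_mk (hA.trans (h x).symm)).mul (xy_rot k)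
      rwa [mul_one, ← pj_zt, ← pj_lf A, ← map_mul] at this
    choose L hL hL' using h1
    have h2 : (QuotientGroup.mk' _).comp (FreeGroup.lift M) = ρ.comp (PresentedGroup.mk _) := by
      ext1 x
      rw [MonoidHom.comp_apply, FreeGroup.lift_apply_of]
      exact h x
    have h3 := DFunLike.congr_fun h2 (relPre g g)
    rw [MonoidHom.comp_apply, MonoidHom.comp_apply, ← pre_eq,
      PresentedGroup.one_of_mem (Set.mem_singleton _), map_one] at h3
    refine xy_mem (xy_pm_of_mk h3) ?_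
    rw [Rt_eq hL, ← pre_map, funext hL', pre_eq, he]
    simp only [OrderIso.addRight_apply, zero_add, sub_self, abs_zero, zero_lt_one]
theorem exists_rho {e : ℤ} {M : Tup g} (hM : M ∈ X g e) : ∃ ρ : SurfaceGroup g →* PSL,
    ∀ x, (QuotientGroup.mk (M x) : PSL) = ρ (PresentedGroup.of x) := by
  refine ⟨PresentedGroup.toGroup (f := fun x => QuotientGroup.mk (M x)) fun r hr => ?_,
    fun x => by rw [PresentedGroup.toGroup.of]⟩
  rw [Set.mem_singleton_iff.1 hr, ← pre_eq]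
  refine (pre_map (QuotientGroup.mk' _) M g).trans ((QuotientGroup.eq_one_iff _).2 ?_)
  rcases X_pm hM with h | h <;> rw [h, Subgroup.mem_center_iff] <;> simp

end Pool.Agent.MP_596265_gt.Erg
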