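import Pool.Agent.MP_596265_gt.E1

attribute [-instance] RKHS.instFunLike AddQuantale.instAddLeftMono IsScalarTower.complexToReal
  TotallySeparatedSpace.t2Space Valued.toUniformSpace NonUnitalNonAssocRing.toAddCommGroup
  NonUnitalNonAssocSemiring.toAddCommMonoid Ring.toAddCommGroup instNonemptyProd littleWedderburn
  instLindelofSpaceOfSigmaCompactSpace LieRinehartAlgebra.toIsScalarTower RightPreLieAlgebra.toModule
  NonUnitalNormedRing.toNonUnitalSeminormedRing CoalgHomClass.toSemilinearMapClass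
  LeftPreLieAlgebra.toModule NumberField.to_charZero GrpTypeEquivalenceGrp.grpGroup
  Module.complexToReal AddQuantale.instAddRightMono IsAzumaya.toProjective NormedRing.toRing
  NonUnitalNormedCommRing.toNonUnitalSeminormedCommRing IsTopologicalTorsor.toContinuousSMul
  CommGroup.toDivisionCommMonoid SemilinearIsometryClass.toSemilinearMapClass
  NonUnitalAlgSemiHomClass.toDistribMulActionSemiHomClass MonTypeEquivalenceMon.monMonoid
  IdemSemiring.toCanonicallyOrderedAdd ProperSMul.toContinuousSMul DivisionRing.toRing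
  LieRing.toAddCommGroup instCoeTCOfCoe RingHomClass.toLinearMapClassNNRat IdemSemiring.toSemiring
  Quantale.instMulRightMono MonoidWithZeroHomClass.toZeroHomClass MonoidWithZero.toMulZeroOneClass
  IsAddCyclic.isAddCommutative CommCStarAlgebra.toNormedCommRing
  CategoryTheory.CountableCategory.countableObj SeminormedCommRing.toCommRing
  SeminormedRing.toNonUnitalSeminormedRing EuclideanDomain.toCommRing
  Group.IsPerfect.subsingleton_of_isMulCommutative AddCommGroupWithOne.toAddCommGroup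
  AddCommMonoidWithOne.toAddCommMonoid MulSemiringAction.toDistribMulAction
  RingHomClass.toLinearMapClassRat NonUnitalRing.toNonUnitalNonAssocRing
  AddCommGroupWithOne.toAddGroupWithOne NonUnitalSeminormedRing.toPseudoMetricSpace
  LieAdmissibleRing.toNonUnitalNonAssocRing CompactSpace.sigmaCompact
  NonUnitalNormedRing.toMetricSpace TestFunctionClass.toDFunLike instIsDedekindFiniteMonoid
  NonarchimedeanAddGroup.toIsTopologicalAddGroup instCoeTOfCoeDep Submodule.IsLattice.finite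
  ContDiffMapSupportedInClass.toDFunLike SetLike.GradeZero.instCommRing NormedRing.toSeminormedRing
  NormedRing.toMetricSpace

/-! Ergodicity, part 2: measure lemmas, differential of the relator, rank lemmas. -/

/-! Abstract measure lemmas: level sets of submersions, circle flows, local ergodicity. -/

namespace Pool.Agent.MP_596265_gt.Erg

open Real Filter Topology MeasureTheory Set Module Metric

section Lip

variable {X Y : Type} [MetricSpace X] [MeasurableSpace X] [BorelSpace X]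
  [MetricSpace Y] [MeasurableSpace Y] [BorelSpace Y]

theorem ms_lipOn {d : ℝ} (hd : 0 ≤ d) {K : NNReal} {F : X → Y} {t A : Set X}
    (hF : LipschitzOnWith K F t) (hA : A ⊆ t) (h : μH[d] A = 0) : μH[d] (F '' A) = 0 := by
  have := (hF.mono hA).hausdorffMeasure_image_le hd
  rwa [h, mul_zero, nonpos_iff_eq_zero] at this

theorem ms_lip' [SecondCountableTopology X] {d : ℝ} (hd : 0 ≤ d) {F : X → Y} {A : Set X}
    (hF : ∀ x ∈ A, ∃ K, ∃ t ∈ 𝓝 x, LipschitzOnWith K F t) (h : μH[d] A = 0) :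
    μH[d] (F '' A) = 0 := by
  choose! K t ht hK using hF
  obtain ⟨s, hs, hc, hcov⟩ := TopologicalSpace.countable_cover_nhdsWithin (f := t) (s := A)
    fun x hx => mem_nhdsWithin_of_mem_nhds (ht x hx)
  refine measure_mono_null (t := ⋃ x ∈ s, F '' (A ∩ t x)) ?_
    ((measure_biUnion_null_iff hc).2 fun x hx =>
      ms_lipOn hd (hK x (hs hx)) inter_subset_right (measure_mono_null inter_subset_left h))
  rintro _ ⟨y, hy, rfl⟩
  obtain ⟨x, hx, hy'⟩ := mem_iUnion₂.1 (hcov hy)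
  exact mem_iUnion₂.2 ⟨x, hx, y, ⟨hy, hy'⟩, rfl⟩

theorem ms_anti {d : ℝ} (hd : 0 ≤ d) {C : NNReal} {p : X → Y} {A : Set X}
    (h : ∀ x ∈ A, ∀ y ∈ A, dist x y ≤ C * dist (p x) (p y)) :
    μH[d] A ≤ (C : ENNReal) ^ d * μH[d] (p '' A) := by
  rcases A.eq_empty_or_nonempty with rfl | ⟨a, -⟩
  · simp
  have : Nonempty X := ⟨a⟩
  have hi : InjOn p A := fun x hx y hy e => by simpa [e] using h x hx y hy
  have hl : LipschitzOnWith C (Function.invFunOn p A) (p '' A) :=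
    LipschitzOnWith.of_dist_le_mul (by
      rintro _ ⟨x, hx, rfl⟩ _ ⟨y, hy, rfl⟩
      rw [hi.leftInvOn_invFunOn hx, hi.leftInvOn_invFunOn hy]
      exact h x hx y hy)
  have := hl.hausdorffMeasure_image_le hd
  rwa [hi.leftInvOn_invFunOn.image_image] at this

end Lip

section Chart

variable {E F P : Type} [NormedAddCommGroup E] [NormedSpace ℝ E] [FiniteDimensional ℝ E]
  [NormedAddCommGroup F] [NormedSpace ℝ F] [NormedAddCommGroup P] [NormedSpace ℝ P]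

theorem ms_chart {f : E → F} {D : E →L[ℝ] F} {m : E} (hf : HasStrictFDerivAt f D m)
    (p : E →L[ℝ] P) (h : ∀ v, D v = 0 → p v = 0 → v = 0) : ∃ C : NNReal, ∃ O ∈ 𝓝 m,
      ∀ x ∈ O, ∀ y ∈ O, f x = f y → dist x y ≤ C * dist (p x) (p y) := by
  obtain ⟨K, hK, ha⟩ := LinearMap.exists_antilipschitzWith (D.prod p : E →ₗ[ℝ] F × P)
    (LinearMap.ker_eq_bot'.2 fun v hv => h v (congrArg Prod.fst hv) (congrArg Prod.snd hv))
  obtain ⟨O, hO, hap⟩ := hf.approximates_deriv_on_nhds (c := (2 * K)⁻¹) (Or.inr (by positivity))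
  refine ⟨2 * K, O, hO, fun x hx y hy e => ?_⟩
  have h1 := hap x hx y hy
  have h2 : ‖x - y‖ ≤ K * max ‖D (x - y)‖ ‖p (x - y)‖ := by
    simpa [Prod.norm_def] using ZeroHomClass.bound_of_antilipschitz _ ha (x - y)
  rw [e, sub_self, zero_sub, norm_neg] at h1
  have hK' : (0 : ℝ) < K := hK
  have h3 : K * ‖D (x - y)‖ ≤ ‖x - y‖ / 2 := by
    refine (mul_le_mul_of_nonneg_left h1 hK'.le).trans_eq ?_
    push_cast
    field_simp
  rw [dist_eq_norm, dist_eq_norm, ← map_sub]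
  push_cast
  have h4 := mul_nonneg hK'.le (norm_nonneg (p (x - y)))
  have h5 := norm_nonneg (x - y)
  rcases max_cases ‖D (x - y)‖ ‖p (x - y)‖ with ⟨e', -⟩ | ⟨e', -⟩ <;> rw [e'] at h2 <;> linarith only [h2, h3, h4]

theorem ms_proj (K : Submodule ℝ E) : ∃ p : E →L[ℝ] K, ∀ v : K, p v = v :=
  Submodule.ClosedComplemented.of_finiteDimensional K

variable [MeasurableSpace E] [BorelSpace E]

theorem ms_lip0 [MeasurableSpace F] [BorelSpace F] {d : ℝ} (hd : 0 ≤ d) {Φ : E → F} {A : Set E}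
    (hΦ : ∀ x ∈ A, ContDiffAt ℝ 1 Φ x) (h : μH[d] A = 0) : μH[d] (Φ '' A) = 0 :=
  ms_lip' hd (fun x hx => (hΦ x hx).exists_lipschitzOnWith) h

theorem ms_univ {d : ℕ} (h : finrank ℝ E < d) : μH[d] (univ : Set E) = 0 := by
  have := hausdorffMeasure_of_dimH_lt (s := (univ : Set E)) (d := d)
    (by rw [Real.dimH_univ_eq_finrank]; exact_mod_cast h)
  simpa only [Measure.measure_univ_eq_zero, NNReal.coe_natCast] using this

/-- A level set whose linearisation has a small kernel is null near the point. -/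
theorem ms_small {f : E → F} {m : E} (hf : ContDiffAt ℝ 1 f m) {d : ℕ}
    (hd : finrank ℝ (fderiv ℝ f m).ker < d) : ∃ O ∈ 𝓝 m, μH[d] (O ∩ f ⁻¹' {f m}) = 0 := by
  obtain ⟨p, hp⟩ := ms_proj (fderiv ℝ f m).ker
  obtain ⟨C, O, hO, h⟩ := ms_chart (hf.hasStrictFDerivAt one_ne_zero) p fun v h1 h2 =>
    congrArg Subtype.val ((hp ⟨v, h1⟩).symm.trans h2)
  refine ⟨O, hO, nonpos_iff_eq_zero.1 ((ms_anti (p := p) (C := C) d.cast_nonneg
    fun x hx y hy => h x hx.1 y hy.1 (hx.2.trans hy.2.symm)).trans_eq ?_)⟩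
  rw [measure_mono_null (subset_univ _) (ms_univ hd), mul_zero]

theorem ms_lv0 {f : E → F} {h : E → ℝ} {m : E} (hf : ContDiffAt ℝ 1 f m) (hh : ContDiffAt ℝ 1 h m)
    {d : ℕ} (hd : finrank ℝ (fderiv ℝ f m).ker ≤ d) {v : E} (h1 : fderiv ℝ f m v = 0)
    (h2 : fderiv ℝ h m v ≠ 0) : ∃ O ∈ 𝓝 m, μH[d] (O ∩ f ⁻¹' {f m} ∩ h ⁻¹' {h m}) = 0 := by
  have e := ((hf.differentiableAt one_ne_zero).hasFDerivAt.prodMk
    (hh.differentiableAt one_ne_zero).hasFDerivAt).fderiv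
  obtain ⟨O, hO, h0⟩ := ms_small (hf.prodMk hh) (d := d) (lt_of_lt_of_le
    (Submodule.finrank_lt_finrank_of_lt (lt_of_le_of_ne (fun w hw => by
      rw [e] at hw
      exact congrArg Prod.fst hw) fun e' => by
      have : v ∈ (fderiv ℝ (fun x => (f x, h x)) m).ker := e' ▸ h1
      rw [e] at this
      exact h2 (congrArg Prod.snd this))) hd)
  refine ⟨O, hO, measure_mono_null (fun x hx => ?_) h0⟩
  exact ⟨hx.1.1, Prod.ext hx.1.2 hx.2⟩

theorem ms_ch1 {f : E → F} {m : E} (hf : ContDiffAt ℝ 1 f m) {d : ℕ}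
    (hd : finrank ℝ (fderiv ℝ f m).ker ≤ d) : ∃ O ∈ 𝓝 m, μH[d] (O ∩ f ⁻¹' {f m}) < ⊤ := by
  rcases hd.lt_or_eq with hd | rfl
  · obtain ⟨O, hO, h⟩ := ms_small hf hd
    exact ⟨O, hO, by simp [h]⟩
  obtain ⟨p, hp⟩ := ms_proj (fderiv ℝ f m).ker
  obtain ⟨C, O, hO, h⟩ := ms_chart (hf.hasStrictFDerivAt one_ne_zero) p fun v h1 h2 =>
    congrArg Subtype.val ((hp ⟨v, h1⟩).symm.trans h2)
  refine ⟨O ∩ p ⁻¹' closedBall (p m) 1, inter_mem hO (p.continuous.continuousAt.preimage_mem_nhds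
    (closedBall_mem_nhds _ one_pos)), (ms_anti (p := p) (C := C) (Nat.cast_nonneg _)
    fun x hx y hy => h x hx.1.1 y hy.1.1 (hx.2.trans hy.2.symm)).trans_lt (ENNReal.mul_lt_top
      (ENNReal.rpow_lt_top_of_nonneg (Nat.cast_nonneg _) ENNReal.coe_ne_top) ?_)⟩
  refine (measure_mono ?_).trans_lt (isCompact_closedBall (p m) 1).measure_lt_top
  rintro _ ⟨x, hx, rfl⟩
  exact hx.1.2

variable [FiniteDimensional ℝ F]

theorem ms_ch2 {f : E → F} {m : E} (hf : ContDiffAt ℝ 1 f m)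
    (hs : Function.Surjective (fderiv ℝ f m)) {d : ℕ} (hd : finrank ℝ (fderiv ℝ f m).ker = d)
    {O : Set E} (hO : O ∈ 𝓝 m) : μH[d] (O ∩ f ⁻¹' {f m}) ≠ 0 := by
  subst hd
  intro h0
  obtain ⟨p, hp⟩ := ms_proj (fderiv ℝ f m).ker
  have := FiniteDimensional.complete ℝ F
  have hm := ((hf.hasStrictFDerivAt one_ne_zero).prodMk p.hasStrictFDerivAt).map_nhds_eq_of_surj
    (LinearMap.range_eq_top.2 fun ⟨a, k⟩ => by
      obtain ⟨v, rfl⟩ := hs a
      refine ⟨v + (k - p v : (fderiv ℝ f m).ker), Prod.ext ?_ ?_⟩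
      · simp
      · show p (v + (k - p v : (fderiv ℝ f m).ker)) = k
        rw [map_add, hp, add_sub_cancel])
  have h1 : (fun x => (f x, p x)) '' O ∈ 𝓝 (f m, p m) := hm ▸ image_mem_map hO
  have h2 : p '' (O ∩ f ⁻¹' {f m}) ∈ 𝓝 (p m) :=
    mem_of_superset ((Continuous.prodMk_right (f m)).continuousAt.preimage_mem_nhds h1)
      fun k ⟨x, hx, e⟩ => ⟨x, ⟨hx, congrArg Prod.fst e⟩, congrArg Prod.snd e⟩
  exact (Measure.measure_pos_of_mem_nhds _ h2).ne'
    (ms_lipOn (Nat.cast_nonneg _) p.lipschitz.lipschitzOnWith (subset_univ _) h0)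

theorem ms_loc0 [FiniteDimensional ℝ P] {f : E → F} {m : E} (hf : ContDiffAt ℝ 1 f m)
    (hs : Function.Surjective (fderiv ℝ f m)) {d : ℕ} (hd : finrank ℝ (fderiv ℝ f m).ker = d)
    {Ψ : P × E → E} (hΨ : ContDiffAt ℝ 1 Ψ (0, m)) (h0 : Ψ (0, m) = m)
    (hr : ∀ v, fderiv ℝ f m v = 0 → ∃ q, fderiv ℝ Ψ (0, m) (q, 0) = v) {S O : Set E}
    (hS : MeasurableSet S) (hO : O ∈ 𝓝 m)
    (hq : ∀ᶠ q in 𝓝 (0 : P), (∀ x ∈ O, f x = f m → f (Ψ (q, x)) = f m) ∧
      μH[d] {x | x ∈ O ∧ f x = f m ∧ ¬ (x ∈ S ↔ Ψ (q, x) ∈ S)} = 0) :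
    ∃ O' ∈ 𝓝 m, μH[d] (O' ∩ f ⁻¹' {f m} ∩ S) = 0 ∨ μH[d] ((O' ∩ f ⁻¹' {f m}) \ S) = 0 := by
  classical
  obtain ⟨O₁, hO₁, hfin⟩ := ms_ch1 hf hd.le
  have hpos := fun O => ms_ch2 hf hs hd (O := O)
  subst hd
  set K := (fderiv ℝ f m).ker
  obtain ⟨p, hp⟩ := ms_proj K
  obtain ⟨C, O₀, hO₀, hC⟩ := ms_chart (hf.hasStrictFDerivAt one_ne_zero) p fun v h1 h2 =>
    congrArg Subtype.val ((hp ⟨v, h1⟩).symm.trans h2)
  obtain ⟨σ, hσ⟩ : ∃ σ : K →L[ℝ] P, ∀ k, fderiv ℝ Ψ (0, m) (σ k, 0) = k := by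
    let A : P →ₗ[ℝ] E := (fderiv ℝ Ψ (0, m) : P × E →ₗ[ℝ] E) ∘ₗ LinearMap.inl ℝ P E
    obtain ⟨r, hr'⟩ := A.rangeRestrict.exists_rightInverse_of_surjective A.range_rangeRestrict
    have hle : K ≤ A.range := fun v hv => hr v hv
    exact ⟨LinearMap.toContinuousLinearMap (r ∘ₗ Submodule.inclusion hle), fun k =>
      congrArg Subtype.val (LinearMap.congr_fun hr' (Submodule.inclusion hle k))⟩
  let L : K × E →L[ℝ] P × E := σ.prodMap (ContinuousLinearMap.id ℝ E)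
  have hL : L (0, m) = (0, m) := by simp [L]
  have hG : ContDiffAt ℝ 1 (Ψ ∘ L) (0, m) := ContDiffAt.comp _ (hL ▸ hΨ) L.contDiff.contDiffAt
  have hD : HasStrictFDerivAt (Ψ ∘ L) (fderiv ℝ Ψ (0, m) ∘L L) (0, m) :=
    HasStrictFDerivAt.comp _ (hL ▸ hΨ.hasStrictFDerivAt one_ne_zero) L.hasStrictFDerivAt
  have hG0 : (Ψ ∘ L) (0, m) = m := by rw [Function.comp, hL, h0]
  have hm := ((p.hasStrictFDerivAt.comp _ hD).prodMk
    (hasStrictFDerivAt_snd (p := ((0 : K), m)))).map_nhds_eq_of_surj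
    (LinearMap.range_eq_top.2 fun ⟨k, v⟩ => by
      refine ⟨(k - p (fderiv ℝ Ψ (0, m) (0, v)), v), Prod.ext ?_ rfl⟩
      show p (fderiv ℝ Ψ (0, m) (σ (k - p (fderiv ℝ Ψ (0, m) (0, v))), v)) = k
      rw [← zero_add v, ← add_zero (σ _), ← Prod.mk_add_mk, map_add, map_add, hσ, hp, zero_add,
        sub_add_cancel])
  obtain ⟨Λ, W, hW, hΛ⟩ := hG.exists_lipschitzOnWith
  have hW' : W ∩ (Ψ ∘ L) ⁻¹' O₀ ∩ {z | (∀ x ∈ O, f x = f m → f (Ψ (σ z.1, x)) = f m) ∧
      μH[finrank ℝ K] {x | x ∈ O ∧ f x = f m ∧ ¬ (x ∈ S ↔ Ψ (σ z.1, x) ∈ S)} = 0} ∈ 𝓝 (0, m) :=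
    inter_mem (inter_mem hW (hG.continuousAt.preimage_mem_nhds (hG0.symm ▸ hO₀)))
      (((σ.continuous.comp continuous_fst).tendsto' (0, m) 0 (by simp)).eventually hq)
  obtain ⟨r, hr0, hB⟩ := nhds_basis_closedBall.mem_iff.1 hW'
  have h1 := image_mem_map (m := fun z : K × E => (p ((Ψ ∘ L) z), z.2))
    (closedBall_mem_nhds ((0 : K), m) hr0)
  erw [hm] at h1
  obtain ⟨V, hV, O₂, hO₂, hVO⟩ := mem_nhds_prod_iff.1 h1
  obtain ⟨O₃, hO₃, hc⟩ : ∃ O₃ ∈ 𝓝 m, ContinuousOn f O₃ :=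
    (hf.contDiffOn le_rfl (by simp)).imp fun _ h => ⟨h.1, h.2.continuousOn⟩
  obtain ⟨s, hs0, hT⟩ := nhds_basis_closedBall.mem_iff.1 (inter_mem (inter_mem (inter_mem
    (inter_mem hO hO₁) hO₂) hO₃) (closedBall_mem_nhds m hr0))
  set T := closedBall m s ∩ f ⁻¹' {f m}
  have hTm : MeasurableSet T := ((hc.mono fun x hx => (hT hx).1.2).preimage_isClosed_of_isClosed
    isClosed_closedBall isClosed_singleton).measurableSet
  have : IsFiniteMeasure ((μH[finrank ℝ K] : Measure E).restrict T) := ⟨by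
    rw [Measure.restrict_apply_univ]
    refine (measure_mono fun x hx => ?_).trans_lt hfin
    exact ⟨(hT hx.1).1.1.1.2, hx.2⟩⟩
  let G := (closedBall ((0 : K), m) r).piecewise (Ψ ∘ L) Prod.snd
  have hGm : Measurable G := (hΛ.continuousOn.mono fun z hz => (hB hz).1.1).measurable_piecewise
    continuous_snd.continuousOn measurableSet_closedBall
  have g1 : ∀ z ∈ closedBall ((0 : K), m) r, G z = (Ψ ∘ L) z := fun z =>
    piecewise_eq_of_mem _ _ _
  have g2 : ∀ z ∉ closedBall ((0 : K), m) r, G z = z.2 := fun z => piecewise_eq_of_notMem _ _ _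
  have h2 : ∀ᵐ x ∂(μH[finrank ℝ K] : Measure E).restrict T, ∀ᵐ k ∂(μH[finrank ℝ K] : Measure K),
      (x ∈ S ↔ G (k, x) ∈ S) := by
    refine (Measure.ae_ae_comm (p := fun k x => (x ∈ S ↔ G (k, x) ∈ S))
      ((measurable_snd hS).iff (hGm hS))).1 (ae_of_all _ fun k => ?_)
    rw [ae_restrict_iff' hTm]
    by_cases hk : (k, m) ∈ closedBall ((0 : K), m) r
    · refine measure_mono_null (fun x hx => ?_) (hB hk).2.2
      simp only [mem_compl_iff, mem_ofPred_eq, Classical.not_imp] at hx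
      refine ⟨(hT hx.1.1).1.1.1.1, hx.1.2, fun e => hx.2 ?_⟩
      by_cases hx' : (k, x) ∈ closedBall ((0 : K), m) r
      · rwa [g1 _ hx']
      · rw [g2 _ hx']
    · refine ae_of_all _ fun x _ => ?_
      rw [g2]
      rw [← closedBall_prod_same] at hk ⊢
      exact fun h => hk ⟨h.1, mem_closedBall_self hr0.le⟩
  have : NeZero ((μH[finrank ℝ K] : Measure E).restrict T) :=
    ⟨fun e => hpos _ (closedBall_mem_nhds m hs0) (Measure.restrict_eq_zero.1 e)⟩
  obtain ⟨x, hx, hxT⟩ := (h2.and (ae_restrict_mem hTm)).exists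
  have h3 : μH[finrank ℝ K] ((fun k => (Ψ ∘ L) (k, x)) ''
      {k | (k, x) ∈ closedBall ((0 : K), m) r ∧ ¬ (x ∈ S ↔ G (k, x) ∈ S)}) = 0 :=
    ms_lipOn (Nat.cast_nonneg _) (t := {k | (k, x) ∈ W})
      (hΛ.comp (LipschitzWith.prodMk_right x).lipschitzOnWith fun _ h => h)
      (fun k hk => (hB hk.1).1.1) (measure_mono_null (fun k hk => hk.2) hx)
  have h4 : μH[finrank ℝ K] {y | y ∈ O₀ ∩ p ⁻¹' V ∩ f ⁻¹' {f m} ∧ ¬ (x ∈ S ↔ y ∈ S)} = 0 := by
    refine measure_mono_null (fun y hy => ?_) h3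
    obtain ⟨⟨k, x'⟩, hz, e⟩ := hVO (mk_mem_prod hy.1.1.2 (hT hxT.1).1.1.2)
    obtain rfl : x' = x := congrArg Prod.snd e
    have e1 : (Ψ ∘ L) (k, x') = y := by
      have := hC _ (hB hz).1.2 _ hy.1.1.1
        (((hB hz).2.1 x' (hT hxT.1).1.1.1.1 hxT.2).trans hy.1.2.symm)
      rw [show p ((Ψ ∘ L) (k, x')) = p y from congrArg Prod.fst e] at this
      simpa using this
    refine ⟨k, ⟨hz, ?_⟩, e1⟩
    rw [g1 _ hz, e1]
    exact hy.2
  refine ⟨O₀ ∩ p ⁻¹' V, inter_mem hO₀ (p.continuous.continuousAt.preimage_mem_nhds ?_), ?_⟩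
  · rw [← hG0]
    exact hV
  · by_cases hxS : x ∈ S
    · refine Or.inr (measure_mono_null (fun y hy => ?_) h4)
      exact ⟨hy.1, fun e => hy.2 (e.1 hxS)⟩
    · refine Or.inl (measure_mono_null (fun y hy => ?_) h4)
      exact ⟨hy.1, fun e => hxS (e.2 hy.2)⟩

omit [MeasurableSpace E] [BorelSpace E] [FiniteDimensional ℝ F] in
theorem ms_ker {D : E →L[ℝ] F} (hs : Function.Surjective D) {d : ℕ}
    (hd : finrank ℝ E = finrank ℝ F + d) : finrank ℝ D.ker = d := by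
  have := (D : E →ₗ[ℝ] F).finrank_range_add_finrank_ker
  rw [LinearMap.range_eq_top.2 hs, finrank_top, hd] at this
  exact Nat.add_left_cancel this

end Chart

theorem ms_rot {T θ : ℝ} (hT : 0 < T) (hθ : Irrational (θ / T)) {B : Set ℝ} (hB : MeasurableSet B)
    (hp : ∀ s, s + T ∈ B ↔ s ∈ B) (hi : ∀ᵐ s ∂volume.restrict (Ioc 0 T), θ + s ∈ B ↔ s ∈ B)
    (t : ℝ) : ∀ᵐ s ∂volume.restrict (Ioc 0 T), s ∈ B ↔ t + s ∈ B := by
  have : Fact (0 < T) := ⟨hT⟩
  have hper : Function.Periodic (fun s => s ∈ B) T := fun s => propext (hp s)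
  let B' : Set (AddCircle T) := {a | hper.lift a}
  have hc : ∀ s : ℝ, (s : AddCircle T) ∈ B' ↔ s ∈ B := fun s => Iff.rfl
  have hB' : MeasurableSet B' := by
    have : B' = (fun a => (AddCircle.measurableEquivIoc T 0 a : ℝ)) ⁻¹' B := by
      ext a
      rw [mem_preimage, ← hc]
      exact iff_of_eq (congrArg (· ∈ B') ((AddCircle.measurableEquivIoc T 0).symm_apply_apply a).symm)
    rw [this]
    exact (measurable_subtype_coe.comp (AddCircle.measurableEquivIoc T 0).measurable) hB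
  have hmk := AddCircle.measurePreserving_mk T 0
  rw [zero_add] at hmk
  have he : Ergodic (fun a : AddCircle T => (θ : AddCircle T) + a) volume :=
    AddCircle.ergodic_add_left.2 (addOrderOf_eq_zero
      (AddCircle.not_isOfFinAddOrder_iff_forall_rat_ne_div.2 fun q e => hθ ⟨q, e⟩))
  have h1 : (fun a : AddCircle T => (θ : AddCircle T) + a) ⁻¹' B' =ᵐ[volume] B' := by
    rw [← hmk.map_eq]
    refine (ae_map_iff hmk.measurable.aemeasurable ?_).2 (hi.mono fun s hs => propext hs)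
    simp only [eq_iff_iff]
    exact ((measurable_const_add (θ : AddCircle T)) hB').iff hB'
  have h2 : ∀ᵐ a : AddCircle T, a ∈ B' ↔ (t : AddCircle T) + a ∈ B' := by
    have q := (measurePreserving_add_left volume (t : AddCircle T)).quasiMeasurePreserving
    rcases he.quasiErgodic.ae_empty_or_univ₀ hB'.nullMeasurableSet h1 with h | h <;>
      filter_upwards [h, q.ae h] with a e e' <;> exact iff_of_eq (e.trans e'.symm)
  exact hmk.quasiMeasurePreserving.ae h2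

theorem ms_sf {X : Type} [TopologicalSpace X] [SecondCountableTopology X] [MeasurableSpace X]
    (μ : Measure X) {A : Set X} (hA : MeasurableSet A)
    (h : ∀ x ∈ A, ∃ O ∈ 𝓝 x, μ (O ∩ A) < ⊤) : SigmaFinite (μ.restrict A) := by
  choose! O hO hf using h
  obtain ⟨s, hs, hc, hcov⟩ := TopologicalSpace.countable_cover_nhdsWithin (f := O) (s := A)
    fun x hx => mem_nhdsWithin_of_mem_nhds (hO x hx)
  refine Measure.sigmaFinite_of_countable ((hc.image O).insert Aᶜ) ?_ ?_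
  · rintro _ (rfl | ⟨x, hx, rfl⟩) <;> rw [Measure.restrict_apply' hA]
    · simp
    · exact hf x (hs hx)
  · rw [sUnion_insert, sUnion_image, eq_univ_iff_forall]
    exact fun x => (em (x ∈ A)).elim (fun h => Or.inr (hcov h)) Or.inl

variable {E F P : Type} [NormedAddCommGroup E] [NormedSpace ℝ E] [FiniteDimensional ℝ E]
  [MeasurableSpace E] [BorelSpace E] [NormedAddCommGroup F] [NormedSpace ℝ F] [FiniteDimensional ℝ F]
  [NormedAddCommGroup P] [NormedSpace ℝ P] [FiniteDimensional ℝ P]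

omit [FiniteDimensional ℝ E] in
theorem ms_dim {d : ℝ} {φ : P → E} (hφ : ContDiff ℝ 1 φ) (hd : (Module.finrank ℝ P : ℝ) < d) :
    μH[d] (range φ) = 0 := by
  borelize P
  have h0 : 0 ≤ d := (Nat.cast_nonneg _).trans hd.le
  lift d to NNReal using h0
  rw [← image_univ]
  exact ms_lip0 d.2 (fun x _ => hφ.contDiffAt) (hausdorffMeasure_of_dimH_lt
    (by rw [Real.dimH_univ_eq_finrank]; exact_mod_cast hd))
theorem ms_fin {f : E → F} {m₀ : E} (hf : ContDiffAt ℝ 1 f m₀)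
    (hs : Function.Surjective (fderiv ℝ f m₀)) {d : ℕ}
    (hd : Module.finrank ℝ E = Module.finrank ℝ F + d) :
    ∃ O ∈ 𝓝 m₀, μH[d] (O ∩ f ⁻¹' {f m₀}) < ⊤ := ms_ch1 hf (ms_ker hs hd).le
theorem ms_pos {f : E → F} {m₀ : E} (hf : ContDiffAt ℝ 1 f m₀)
    (hs : Function.Surjective (fderiv ℝ f m₀)) {d : ℕ}
    (hd : Module.finrank ℝ E = Module.finrank ℝ F + d) {O : Set E} (hO : O ∈ 𝓝 m₀) :
    μH[d] (O ∩ f ⁻¹' {f m₀}) ≠ 0 := ms_ch2 hf hs (ms_ker hs hd) hO
theorem ms_lv {f : E → F} {m₀ : E} (hf : ContDiffAt ℝ 1 f m₀)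
    (hs : Function.Surjective (fderiv ℝ f m₀)) {d : ℕ}
    (hd : Module.finrank ℝ E = Module.finrank ℝ F + d) {h : E → ℝ} (hh : ContDiffAt ℝ 1 h m₀)
    {v : E} (hv : fderiv ℝ f m₀ v = 0) (hv' : fderiv ℝ h m₀ v ≠ 0) :
    ∃ O ∈ 𝓝 m₀, μH[d] (O ∩ f ⁻¹' {f m₀} ∩ {m | h m = h m₀}) = 0 :=
  ms_lv0 hf hh (ms_ker hs hd).le hv hv'
theorem ms_loc {f : E → F} {m₀ : E} (hf : ContDiffAt ℝ 1 f m₀)
    (hs : Function.Surjective (fderiv ℝ f m₀)) {d : ℕ}
    (hd : Module.finrank ℝ E = Module.finrank ℝ F + d) {Ψ : P × E → E}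
    (hΨ : ContDiffAt ℝ 1 Ψ (0, m₀)) (h0 : Ψ (0, m₀) = m₀)
    (hr : ∀ v, fderiv ℝ f m₀ v = 0 → ∃ p, fderiv ℝ Ψ (0, m₀) (p, 0) = v)
    {S : Set E} (hS : MeasurableSet S) {O : Set E} (hO : O ∈ 𝓝 m₀)
    (hev : ∀ᶠ p in 𝓝 (0 : P), (∀ m ∈ O ∩ f ⁻¹' {f m₀}, f (Ψ (p, m)) = f m₀) ∧
      μH[d] {m | m ∈ O ∩ f ⁻¹' {f m₀} ∧ ¬ (m ∈ S ↔ Ψ (p, m) ∈ S)} = 0) :
    ∃ O' ∈ 𝓝 m₀, μH[d] (O' ∩ f ⁻¹' {f m₀} ∩ S) = 0 ∨ μH[d] ((O' ∩ f ⁻¹' {f m₀}) \ S) = 0 :=
  ms_loc0 hf hs (ms_ker hs hd) hΨ h0 hr hS hO (hev.mono fun _ h => ⟨fun x h1 h2 => h.1 x ⟨h1, h2⟩,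
    measure_mono_null (fun _ hx => And.intro (And.intro hx.1 hx.2.1) hx.2.2) h.2⟩)
theorem ms_flow {Z : Type} [MeasurableSpace Z] (μ : Measure Z) [SFinite μ] {A : Set Z}
    (hA : MeasurableSet A) {φ : ℝ → Z → Z} (hm : Measurable fun p : ℝ × Z => φ p.1 p.2)
    (hmap : ∀ t, MapsTo (φ t) A A) (h0 : ∀ z ∈ A, φ 0 z = z)
    (hadd : ∀ s t, ∀ z ∈ A, φ (s + t) z = φ s (φ t z))
    (hper : ∀ t, ∀ z ∈ A, φ (t + 2 * π) z = φ t z)
    (hq : ∀ t B, μ B = 0 → μ (A ∩ φ t ⁻¹' B) = 0) {θ : Z → ℝ} (_hθm : Measurable θ)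
    (hθ : ∀ t, ∀ z ∈ A, θ (φ t z) = θ z) (hirr : ∀ᵐ z ∂μ, z ∈ A → Irrational (θ z / π))
    {S : Set Z} (hS : MeasurableSet S) (hT : ∀ᵐ z ∂μ, z ∈ A → (z ∈ S ↔ φ (θ z) z ∈ S)) (t : ℝ) :
    ∀ᵐ z ∂μ, z ∈ A → (z ∈ S ↔ φ t z ∈ S) := by
  have hp : 0 < 2 * π := two_pi_pos
  obtain ⟨N, hN, hNm, hN0⟩ := exists_measurable_superset_of_null hT
  have h1 : ∀ᵐ z ∂μ.restrict A, ∀ᵐ s ∂volume.restrict (Ioc 0 (2 * π)), φ s z ∉ N := by
    refine (Measure.ae_ae_comm (p := fun s z => φ s z ∉ N) (hm hNm).compl).1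
      (ae_of_all _ fun s => (ae_restrict_iff' hA).2 (measure_mono_null (fun z hz => ?_)
        (hq s N hN0)))
    simpa using hz
  have h2 : ∀ᵐ z ∂μ.restrict A, ∀ᵐ s ∂volume.restrict (Ioc 0 (2 * π)),
      (φ s z ∈ S ↔ φ (t + s) z ∈ S) := by
    filter_upwards [h1, (ae_restrict_iff' hA).2 hirr, ae_restrict_mem hA] with z z1 z2 z3
    refine ms_rot (θ := θ z) hp ?_ (B := {s | φ s z ∈ S}) ((hm.comp measurable_prodMk_right) hS)
      (fun s => ?_) (z1.mono fun s hs => ?_) t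
    · rw [mul_comm, ← div_div]
      exact z2.div_natCast (m := 2) two_ne_zero
    · simp only [mem_ofPred_eq, hper s z z3]
    · simp only [mem_ofPred_eq, hadd _ s z z3]
      by_contra h
      exact hs (hN fun h' => h (hθ s z z3 ▸ (h' (hmap s z3)).symm))
  have : NeZero (volume.restrict (Ioc 0 (2 * π))) := ⟨by simpa only [ne_eq, Measure.restrict_eq_zero, volume_Ioc, sub_zero, Nat.ofNat_nonneg, ENNReal.ofReal_mul, ENNReal.ofReal_ofNat, mul_eq_zero, OfNat.ofNat_ne_zero, ENNReal.ofReal_eq_zero, false_or, not_le] using pi_pos⟩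
  obtain ⟨s, hs⟩ := ((Measure.ae_ae_comm (p := fun s z => (φ s z ∈ S ↔ φ (t + s) z ∈ S))
    ((hm hS).iff ((hm.comp ((measurable_fst.const_add t).prodMk measurable_snd)) hS))).2 h2).exists
  refine measure_mono_null (fun z hz => ?_) (hq (-s) _ ((ae_restrict_iff' hA).1 hs))
  rw [mem_compl_iff, mem_ofPred_eq, Classical.not_imp] at hz
  refine ⟨hz.1, fun h => hz.2 ?_⟩
  have := h (hmap (-s) hz.1)
  rwa [← hadd _ _ _ hz.1, ← hadd _ _ _ hz.1, add_neg_cancel, add_neg_cancel_right,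
    h0 z hz.1] at this

end Pool.Agent.MP_596265_gt.Erg

/-! Derivative of the relator map. -/

namespace Pool.Agent.MP_596265_gt.Erg

open Real Filter Topology MeasureTheory Set

variable {g : ℕ}

theorem xf_cm (M : Tup g) (j : Fin g) : cmE (io M) j = ((hc M j : G) : Mat) := by
  simp only [hc, cm, Matrix.SpecialLinearGroup.coe_mul, Matrix.SpecialLinearGroup.coe_inv]
  rfl
theorem preE_io (M : Tup g) (k : ℕ) : preE (io M) k = ((pre M k : G) : Mat) := by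
  unfold preE pre
  induction (List.finRange g).take k with
  | nil => rfl
  | cons a l ih =>
    rw [List.map_cons, List.map_cons, List.prod_cons, List.prod_cons, ih, xf_cm]; rfl
theorem xf_cd_mul {c d : Amb g → Mat} (hc : ∀ i j, ContDiff ℝ 1 fun m => c m i j)
    (hd : ∀ i j, ContDiff ℝ 1 fun m => d m i j) (i j : Fin 2) :
    ContDiff ℝ 1 fun m => (c m * d m) i j := by
  simp only [Matrix.mul_apply, Fin.sum_univ_two]
  exact ((hc i 0).mul (hd 0 j)).add ((hc i 1).mul (hd 1 j))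
theorem xf_cd_of (x : Gen g) (i j : Fin 2) : ContDiff ℝ 1 fun m : Amb g => Matrix.of (m x) i j := by
  simp only [Matrix.of_apply]; fun_prop
theorem xf_cd_adj (x : Gen g) (i j : Fin 2) :
    ContDiff ℝ 1 fun m : Amb g => (Matrix.of (m x)).adjugate i j := by
  simp only [Matrix.adjugate_fin_two]
  fin_cases i <;> fin_cases j
  exacts [xf_cd_of x 1 1, (xf_cd_of x 0 1).neg, (xf_cd_of x 1 0).neg, xf_cd_of x 0 0]
theorem xf_cd_det (x : Gen g) : ContDiff ℝ 1 fun m : Amb g => (Matrix.of (m x)).det := by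
  simp only [Matrix.det_fin_two]
  exact ((xf_cd_of x 0 0).mul (xf_cd_of x 1 1)).sub ((xf_cd_of x 0 1).mul (xf_cd_of x 1 0))
theorem contDiff_preE (k : ℕ) (i j : Fin 2) : ContDiff ℝ 1 fun m : Amb g => preE m k i j := by
  unfold preE
  induction (List.finRange g).take k generalizing i j with
  | nil => exact contDiff_const
  | cons a l ih =>
    simp only [List.map_cons, List.prod_cons]
    exact xf_cd_mul (xf_cd_mul (xf_cd_mul (xf_cd_mul (xf_cd_of _) (xf_cd_of _)) (xf_cd_adj _))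
      (xf_cd_adj _)) ih i j
theorem contDiff_fE : ContDiff ℝ 1 (fE : Amb g → _) :=
  (contDiff_pi.2 xf_cd_det).prodMk (((contDiff_preE g 0 0).sub (contDiff_preE g 1 1)).prodMk
    ((contDiff_preE g 0 1).prodMk (contDiff_preE g 1 0)))
theorem fE_io {M : Tup g} (h : PM (pre M g) 1) : fE (io M) = (fun _ => 1, 0, 0, 0) := by
  unfold fE
  rw [preE_io]
  refine Prod.ext (funext fun x => (M x).det_coe) ?_
  rcases h with h | h <;> rw [h] <;> simp only [Fin.isValue, Matrix.SpecialLinearGroup.coe_one, Matrix.one_apply_eq, sub_self, ne_eq, zero_ne_one, not_false_eq_true, Matrix.one_apply_ne, one_ne_zero, Matrix.SpecialLinearGroup.coe_neg, Matrix.neg_apply, neg_zero]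
theorem fE_eq {m : Amb g} (h : fE m = (fun _ => 1, 0, 0, 0)) :
    ∃ M : Tup g, io M = m ∧ PM (pre M g) 1 := by
  obtain ⟨M, rfl⟩ : ∃ M : Tup g, io M = m :=
    ⟨fun x => ⟨Matrix.of (m x), congrFun (congrArg Prod.fst h) x⟩, rfl⟩
  refine ⟨M, rfl, ?_⟩
  simp only [fE, preE_io, Prod.mk.injEq] at h
  obtain ⟨-, h0, h1, h2⟩ := h
  have hd := basic_det (pre M g)
  have : (pre M g 0 0 - 1) * (pre M g 0 0 + 1) = 0 := by
    linear_combination hd + pre M g 0 0 * h0 + pre M g 0 1 * h2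
  rcases mul_eq_zero.1 this with e | e
  · exact .inl (basic_ext (sub_eq_zero.1 e) h1 h2 (by rw [basic_one11]; linarith only [h0, e]))
  · exact .inr (basic_ext (by rw [basic_neg, basic_one00]; linarith only [e])
      (by rw [basic_neg, basic_one01, h1, neg_zero]) (by rw [basic_neg, basic_one10, h2, neg_zero])
      (by rw [basic_neg, basic_one11]; linarith))
theorem xf_inv (a : G) : ((a⁻¹ : G) : Mat) * (a : Mat) = 1 := by
  rw [← Matrix.SpecialLinearGroup.coe_mul, inv_mul_cancel]; rfl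
theorem xf_inv' (a : G) : (a : Mat) * ((a⁻¹ : G) : Mat) = 1 := by
  rw [← Matrix.SpecialLinearGroup.coe_mul, mul_inv_cancel]; rfl
theorem xf_can (a : G) (Z : Mat) : ((a⁻¹ : G) : Mat) * ((a : Mat) * Z) = Z := by
  rw [← Matrix.mul_assoc, xf_inv, Matrix.one_mul]
theorem xf_can' (a : G) (Z : Mat) : (a : Mat) * (((a⁻¹ : G) : Mat) * Z) = Z := by
  rw [← Matrix.mul_assoc, xf_inv', Matrix.one_mul]
theorem exists_tv (M : Tup g) (v : Amb g) : ∃ α, tv M α = v :=
  ⟨fun x => (((M x)⁻¹ : G) : Mat) * Matrix.of (v x), funext fun x => xf_can' (M x) _⟩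
theorem tv_add (M : Tup g) (α β : Gen g → Mat) : tv M (α + β) = tv M α + tv M β :=
  funext fun x => Matrix.mul_add (M x : Mat) (α x) (β x)
theorem tv_smul (M : Tup g) (r : ℝ) (α : Gen g → Mat) : tv M (r • α) = r • tv M α :=
  funext fun x => Matrix.mul_smul (M x : Mat) r (α x)
theorem tv_inj {M : Tup g} {α β : Gen g → Mat} {z : Gen g} (h : tv M α z = tv M β z) :
    α z = β z := by
  have e : (M z : Mat) * α z = (M z : Mat) * β z := h
  rw [← xf_can (M z) (α z), e, xf_can]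
theorem xf_line {f : Amb g → ℝ} (hf : ContDiff ℝ 1 f) {m v : Amb g} {r : ℝ}
    (h : HasDerivAt (fun t : ℝ => f (m + t • v)) r 0) : fderiv ℝ f m v = r :=
  ((hf.differentiable one_ne_zero m).hasFDerivAt.hasLineDerivAt v).unique h
theorem xf_mul {c d : ℝ → Mat} {c' d' : Mat} (hc : ∀ i j, HasDerivAt (fun t => c t i j) (c' i j) 0)
    (hd : ∀ i j, HasDerivAt (fun t => d t i j) (d' i j) 0) (i j : Fin 2) :
    HasDerivAt (fun t => (c t * d t) i j) ((c' * d 0 + c 0 * d') i j) 0 := by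
  simp only [Matrix.mul_apply, Fin.sum_univ_two, Matrix.add_apply]
  exact (((hc i 0).mul (hd 0 j)).add ((hc i 1).mul (hd 1 j))).congr_deriv (by ring)
theorem xf_of (m v : Amb g) (x : Gen g) (i j : Fin 2) :
    HasDerivAt (fun t : ℝ => Matrix.of ((m + t • v) x) i j) (Matrix.of (v x) i j) 0 := by
  simpa using ((hasDerivAt_id' (0 : ℝ)).mul_const (v x i j)).const_add (m x i j)
theorem xf_adj (m v : Amb g) (x : Gen g) (i j : Fin 2) :
    HasDerivAt (fun t : ℝ => (Matrix.of ((m + t • v) x)).adjugate i j)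
      ((Matrix.of (v x)).adjugate i j) 0 := by
  simp only [Matrix.adjugate_fin_two]
  fin_cases i <;> fin_cases j
  exacts [xf_of m v x 1 1, (xf_of m v x 0 1).neg, (xf_of m v x 1 0).neg, xf_of m v x 0 0]
theorem fderiv_det (M : Tup g) (α : Gen g → Mat) (x : Gen g) :
    fderiv ℝ (fun m : Amb g => (Matrix.of (m x)).det) (io M) (tv M α) = (α x).trace := by
  refine xf_line (xf_cd_det x) ?_
  simp only [Matrix.det_fin_two]
  refine (((xf_of _ _ x 0 0).mul (xf_of _ _ x 1 1)).sub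
    ((xf_of _ _ x 0 1).mul (xf_of _ _ x 1 0))).congr_deriv ?_
  simp only [zero_smul, add_zero, Matrix.of_apply, io, tv, Matrix.mul_apply, Fin.sum_univ_two,
    Matrix.trace_fin_two]
  linear_combination (α x 0 0 + α x 1 1) * basic_det (M x)
theorem xf_adjv (a : G) {Z : Mat} (h : Z.trace = 0) :
    ((a : Mat) * Z).adjugate = -(Z * ((a⁻¹ : G) : Mat)) := by
  rw [Matrix.adjugate_mul_distrib, Matrix.SpecialLinearGroup.coe_inv, ← Matrix.neg_mul]
  congr 1
  rw [Matrix.trace_fin_two] at h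
  ext i j
  fin_cases i <;> fin_cases j <;> simp [Matrix.adjugate_fin_two] <;> linarith only [h]
theorem xf_dcm (M : Tup g) {α : Gen g → Mat} (hα : TL α) (k : Fin g) (i j : Fin 2) :
    HasDerivAt (fun t : ℝ => cmE (io M + t • tv M α) k i j)
      ((dd (ha M k) (hb M k) (α (k, false)) (α (k, true)) * ((hc M k : G) : Mat)) i j) 0 := by
  refine (xf_mul (xf_mul (xf_mul (xf_of _ _ _) (xf_of _ _ _)) (xf_adj _ _ _)) (xf_adj _ _ _)
    i j).congr_deriv (congrFun (congrFun ?_ i) j)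
  have e1 : ∀ x, Matrix.of (io M x) = (M x : Mat) := fun _ => rfl
  have e2 : ∀ x, Matrix.of (tv M α x) = (M x : Mat) * α x := fun _ => rfl
  simp only [zero_smul, add_zero, e1, e2, xf_adjv _ (hα _), ← Matrix.SpecialLinearGroup.coe_inv,
    dd, ad, hc, cm, ha, hb, mul_inv_rev, inv_inv, Matrix.SpecialLinearGroup.coe_mul,
    Matrix.mul_add, Matrix.add_mul, Matrix.mul_sub, Matrix.sub_mul, Matrix.mul_assoc, xf_can,
    xf_can', Matrix.mul_neg, Matrix.neg_mul]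
  abel
theorem xf_fox (M : Tup g) (α : Gen g → Mat) (k : Fin g) : fox M α (k + 1) =
    fox M α k + ad (pre M k) (dd (ha M k) (hb M k) (α (k, false)) (α (k, true))) := by
  unfold fox
  rw [← Finset.add_sum_erase _ _ (Finset.mem_univ k), ← Finset.add_sum_erase _ _ (Finset.mem_univ k),
    if_pos (Nat.lt_succ_self _), if_neg (lt_irrefl _), zero_add, add_comm]
  congr 1
  refine Finset.sum_congr rfl fun j hj => if_congr ?_ rfl rfl
  have := Fin.val_ne_of_ne (Finset.ne_of_mem_erase hj)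
  omega
theorem fderiv_preE (M : Tup g) {α : Gen g → Mat} (hα : TL α) {k : ℕ} (hk : k ≤ g) (i j : Fin 2) :
    fderiv ℝ (fun m : Amb g => preE m k i j) (io M) (tv M α) =
      (fox M α k * ((pre M k : G) : Mat)) i j := by
  refine xf_line (contDiff_preE k i j) ?_
  induction k generalizing i j with
  | zero => simpa only [preE, List.take_zero, List.map_nil, List.prod_nil, fox, not_lt_zero, ↓ reduceIte, Finset.sum_const_zero, pre_zero, Matrix.SpecialLinearGroup.coe_one, mul_one, Matrix.zero_apply] using hasDerivAt_const _ _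
  | succ n ih =>
    have e : ∀ m : Amb g, preE m (n + 1) = preE m n * cmE m ⟨n, hk⟩ := fun m => by
      simp [preE, List.take_add_one, show n < g from hk]
    simp only [e]
    refine (xf_mul (ih (by omega)) (xf_dcm M hα ⟨n, hk⟩) i j).congr_deriv
      (congrFun (congrFun ?_ i) j)
    rw [xf_fox M α ⟨n, hk⟩, pre_succ M ⟨n, hk⟩]
    simp only [zero_smul, add_zero, xf_cm, preE_io, ad, Matrix.SpecialLinearGroup.coe_mul,
      Matrix.add_mul, Matrix.mul_assoc, xf_can]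
theorem fox_trace (M : Tup g) (α : Gen g → Mat) (k : ℕ) : (fox M α k).trace = 0 := by
  unfold fox
  rw [Matrix.trace_sum]
  refine Finset.sum_eq_zero fun j _ => ?_
  split_ifs
  · simp [dd, ad_trace]
  · exact Matrix.trace_zero _ _
theorem ker_iff {M : Tup g} (h : PM (pre M g) 1) (α : Gen g → Mat) :
    fderiv ℝ fE (io M) (tv M α) = 0 ↔ TL α ∧ fox M α g = 0 := by
  have d := fun i j => ((contDiff_preE g i j).differentiable one_ne_zero (io M)).hasFDerivAt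
  have e := (hasFDerivAt_pi.2 fun x =>
    ((xf_cd_det x).differentiable one_ne_zero (io M)).hasFDerivAt).prodMk
      (((d 0 0).sub (d 1 1)).prodMk ((d 0 1).prodMk (d 1 0)))
  rw [HasFDerivAt.fderiv (f := fE) e]
  simp only [ContinuousLinearMap.prod_apply, Prod.mk_eq_zero, sub_apply,
    funext_iff, ContinuousLinearMap.pi_apply, fderiv_det, Pi.zero_apply]
  refine and_congr_right fun hα => ?_
  simp only [fderiv_preE M hα le_rfl]
  refine ⟨fun ⟨h0, h1, h2⟩ => ?_, fun h0 => by simp [h0]⟩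
  have ht := fox_trace M α g
  rw [Matrix.trace_fin_two] at ht
  ext i j
  rcases h with h | h <;> rw [h] at h0 h1 h2 <;> simp only [Matrix.SpecialLinearGroup.coe_one, Fin.isValue, mul_one, Matrix.SpecialLinearGroup.coe_neg, mul_neg, Matrix.neg_apply, sub_neg_eq_add, neg_eq_zero] at h0 h1 h2 <;>
    fin_cases i <;> fin_cases j <;> simp <;> linarith only [ht, h0, h1, h2]
theorem finrank_amb (hg : 1 ≤ g) : Module.finrank ℝ (Amb g) =
    Module.finrank ℝ ((Gen g → ℝ) × ℝ × ℝ × ℝ) + (6 * g - 3) := by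
  simp [Module.finrank_pi_fintype, Module.finrank_prod]
  omega

end Pool.Agent.MP_596265_gt.Erg

/-! Surjectivity of the derivative. -/

namespace Pool.Agent.MP_596265_gt.Erg

open Real Filter Topology MeasureTheory Set

variable {g : ℕ}

theorem xj_ad0 (k : G) : ad k 0 = 0 := by simp [ad]
theorem xj_dd0 (a b : G) : dd a b 0 0 = 0 := by simp [dd, xj_ad0]
theorem xj_dd_add (a b : G) (α β α' β' : Mat) :
    dd a b (α + α') (β + β') = dd a b α β + dd a b α' β' := by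
  simp only [dd, ad_add, ad_sub]; abel
theorem xj_dd_smul (a b : G) (r : ℝ) (α β : Mat) : dd a b (r • α) (r • β) = r • dd a b α β := by
  simp only [dd, ad_smul, ← smul_sub, ← smul_add]

theorem fox_add (M : Tup g) (α β : Gen g → Mat) (k : ℕ) :
    fox M (α + β) k = fox M α k + fox M β k := by
  simp only [fox, ← Finset.sum_add_distrib, Pi.add_apply, xj_dd_add, ad_add]
  refine Finset.sum_congr rfl fun j _ => ?_
  split_ifs
  · rfl
  · rw [add_zero]
theorem fox_smul (M : Tup g) (r : ℝ) (α : Gen g → Mat) (k : ℕ) :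
    fox M (r • α) k = r • fox M α k := by
  simp only [fox, Finset.smul_sum, Pi.smul_apply, xj_dd_smul, ad_smul]
  refine Finset.sum_congr rfl fun j _ => ?_
  split_ifs
  · rfl
  · rw [smul_zero]
theorem fox_low {M : Tup g} {α : Gen g → Mat} {k : ℕ} (h : ∀ x : Gen g, k ≤ x.1 → α x = 0) :
    fox M α k = fox M α g := by
  refine Finset.sum_congr rfl fun j _ => ?_
  rw [if_pos j.2]
  split_ifs with hj
  · rfl
  · rw [h (j, false) (not_lt.1 hj), h (j, true) (not_lt.1 hj), xj_dd0, xj_ad0]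
theorem fox_high {M : Tup g} {α : Gen g → Mat} {k : ℕ}
    (h : ∀ x : Gen g, (x.1 : ℕ) < k → α x = 0) : fox M α k = 0 := by
  refine Finset.sum_eq_zero fun j _ => ?_
  split_ifs with hj
  · rw [h (j, false) hj, h (j, true) hj, xj_dd0, xj_ad0]
  · rfl
theorem fox_single {M : Tup g} {α : Gen g → Mat} {j : Fin g} (h : ∀ x : Gen g, x.1 ≠ j → α x = 0) :
    fox M α g = ad (pre M j) (dd (ha M j) (hb M j) (α (j, false)) (α (j, true))) := by
  rw [fox, Finset.sum_eq_single j, if_pos j.2]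
  · intro i _ hi
    rw [if_pos i.2, h (i, false) hi, h (i, true) hi, xj_dd0, xj_ad0]
  · intro hj; exact absurd (Finset.mem_univ j) hj

theorem xj_tr_ad (k : G) (Y Z : Mat) : (Y * ad k Z).trace = (ad k⁻¹ Y * Z).trace := by
  simp only [ad, inv_inv, ← Matrix.mul_assoc]
  rw [Matrix.trace_mul_comm]
  simp only [Matrix.mul_assoc]

theorem xj_orth {Y : Mat} (hY : Y.trace = 0) (h : ∀ A : Mat, A.trace = 0 → (Y * A).trace = 0) :
    Y = 0 := by
  have h1 := h !![1, 0; 0, -1] (by simp [Matrix.trace_fin_two])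
  have h2 := h !![0, 1; 0, 0] (by simp [Matrix.trace_fin_two])
  have h3 := h !![0, 0; 1, 0] (by simp [Matrix.trace_fin_two])
  simp only [Matrix.trace_fin_two, Fin.isValue, Matrix.mul_apply, Matrix.of_apply, Matrix.cons_val', Matrix.cons_val_zero, Matrix.cons_val_fin_one, Fin.sum_univ_two, mul_one, Matrix.cons_val_one, mul_zero, add_zero, mul_neg, zero_add] at h1 h2 h3 hY
  ext i j
  fin_cases i <;> fin_cases j <;> simp <;> linarith only [h1, hY, h3, h2]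

theorem xj_fix {Y : Mat} {b : G} (h : ∀ A : Mat, A.trace = 0 → (Y * (ad b⁻¹ A - A)).trace = 0) :
    ad b Y = Y := by
  refine sub_eq_zero.1 (xj_orth (by rw [Matrix.trace_sub, ad_trace, sub_self]) fun A hA => ?_)
  have := h A hA
  rw [Matrix.mul_sub, Matrix.trace_sub, xj_tr_ad, inv_inv] at this
  rw [Matrix.sub_mul, Matrix.trace_sub, this]

theorem xj_rep (φ : Module.Dual ℝ Mat) :
    ∃ Y : Mat, Y.trace = 0 ∧ ∀ A : Mat, A.trace = 0 → φ A = (Y * A).trace := by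
  refine ⟨!![φ !![1, 0; 0, -1] / 2, φ !![0, 0; 1, 0]; φ !![0, 1; 0, 0], -(φ !![1, 0; 0, -1] / 2)],
    by simp [Matrix.trace_fin_two], fun A hA => ?_⟩
  rw [Matrix.trace_fin_two] at hA
  have e : A = A 0 0 • !![1, 0; 0, -1] + A 0 1 • !![0, 1; 0, 0] + A 1 0 • !![0, 0; 1, 0] := by
    ext i j
    fin_cases i <;> fin_cases j <;> simp
    linarith
  have e2 := congrArg φ e
  rw [map_add, map_add, map_smul, map_smul, map_smul] at e2
  simp only [smul_eq_mul] at e2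
  rw [e2]
  simp only [Matrix.trace_fin_two, Matrix.mul_apply, Fin.sum_univ_two, Matrix.of_apply,
    Matrix.cons_val', Matrix.cons_val_zero, Matrix.cons_val_one, Matrix.cons_val_fin_one]
  linear_combination (φ !![1, 0; 0, -1] / 2) * hA

theorem fox_surj {M : Tup g} {J : Set (Fin g)} (h : Fx M J) {Z : Mat} (hZ : Z.trace = 0) :
    ∃ α, TL α ∧ (∀ x : Gen g, x.1 ∉ J → α x = 0) ∧ fox M α g = Z := by
  let W : Submodule ℝ Mat :=
    { carrier := {Z | ∃ α, TL α ∧ (∀ x : Gen g, x.1 ∉ J → α x = 0) ∧ fox M α g = Z}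
      zero_mem' := ⟨0, fun _ => Matrix.trace_zero _ _, fun _ _ => rfl, fox_high fun _ _ => rfl⟩
      add_mem' := by
        rintro _ _ ⟨α, h1, h2, rfl⟩ ⟨β, h3, h4, rfl⟩
        refine ⟨α + β, fun x => ?_, fun x hx => ?_, fox_add _ _ _ _⟩
        · rw [Pi.add_apply, Matrix.trace_add, h1, h3, add_zero]
        · rw [Pi.add_apply, h2 x hx, h4 x hx, add_zero]
      smul_mem' := by
        rintro r _ ⟨α, h1, h2, rfl⟩
        refine ⟨r • α, fun x => ?_, fun x hx => ?_, fox_smul _ _ _ _⟩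
        · rw [Pi.smul_apply, Matrix.trace_smul, h1, smul_zero]
        · rw [Pi.smul_apply, h2 x hx, smul_zero] }
  by_contra hn
  obtain ⟨φ, hφ, hW⟩ := W.exists_dual_map_eq_bot_of_notMem (x := Z) hn inferInstance
  obtain ⟨Y, hY, hr⟩ := xj_rep φ
  have hz : ∀ j ∈ J, ∀ A B : Mat, A.trace = 0 → B.trace = 0 →
      (Y * ad (pre M j) (dd (ha M j) (hb M j) A B)).trace = 0 := by
    intro j hj A B hA hB
    have hs : ∀ x : Gen g, x.1 ≠ j → (if x.1 = j then cond x.2 B A else 0) = 0 :=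
      fun x hx => if_neg hx
    have e := fox_single (M := M) hs
    simp only [if_true, cond_true, cond_false] at e
    rw [← e, ← hr _ (fox_trace _ _ _)]
    refine (Submodule.mem_bot ℝ).1 (hW ▸ Submodule.mem_map_of_mem ?_)
    refine ⟨_, fun x => ?_, fun x hx => hs x fun e => hx (e ▸ hj), rfl⟩
    split_ifs
    · cases x.2
      exacts [hA, hB]
    · exact Matrix.trace_zero _ _
  have : Y = 0 := by
    refine h Y hY fun j hj => ?_
    have h0 : (0 : Mat).trace = 0 := Matrix.trace_zero _ _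
    have hb' : ad (hb M j) (ad (ha M j * hb M j)⁻¹ (ad (pre M j)⁻¹ Y)) = _ := xj_fix fun A hA => by
      have := hz j hj A 0 hA h0
      rwa [xj_tr_ad, dd, xj_tr_ad, xj_ad0, add_zero, sub_zero] at this
    have ha' : ad (ha M j) (ad (ha M j * hb M j)⁻¹ (ad (pre M j)⁻¹ Y)) = _ := xj_fix fun A hA => by
      have := hz j hj 0 (-A) h0 (by rw [Matrix.trace_neg, hA, neg_zero])
      rwa [xj_tr_ad, dd, xj_tr_ad, xj_ad0, sub_self, zero_add, ← neg_one_smul ℝ A, ad_smul,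
        neg_one_smul, neg_one_smul, neg_sub_neg] at this
    generalize hY' : ad (ha M j * hb M j)⁻¹ (ad (pre M j)⁻¹ Y) = Y' at ha' hb'
    have e : Y = ad (pre M j) Y' := by
      rw [← ha', ← hb', ← hY', ← ad_mul, ← ad_mul, ← ad_mul, ← ad_mul]
      rw [show pre M j * ha M j * hb M j * (ha M j * hb M j)⁻¹ * (pre M j)⁻¹ = 1 by group, ad_one]
    constructor
    · rw [e, ← ad_mul, cj, inv_mul_cancel_right, ad_mul, ha']
    · rw [e, ← ad_mul, cj, inv_mul_cancel_right, ad_mul, hb']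
  exact hφ (by rw [hr Z hZ, this, Matrix.zero_mul, Matrix.trace_zero])
theorem fox_extend {M : Tup g} {J : Set (Fin g)} (h : Fx M J) {α : Gen g → Mat} (hα : TL α) :
    ∃ β, TL β ∧ (∀ x : Gen g, x.1 ∉ J → β x = α x) ∧ fox M β g = 0 := by
  obtain ⟨γ, h1, h2, h3⟩ := fox_surj h (Z := -fox M α g)
    (by rw [Matrix.trace_neg, fox_trace, neg_zero])
  refine ⟨α + γ, fun x => ?_, fun x hx => ?_, by rw [fox_add, h3, add_neg_cancel]⟩
  · rw [Pi.add_apply, Matrix.trace_add, hα, h1, add_zero]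
  · rw [Pi.add_apply, h2 x hx, add_zero]
theorem Fx.mono {M : Tup g} {J J' : Set (Fin g)} (h : Fx M J) (hJ : J ⊆ J') : Fx M J' :=
  fun Z hZ H => h Z hZ fun j hj => H j (hJ hj)

theorem xj_par {Z : Mat} (hZ : Z.trace = 0) (h0 : Z ≠ 0) {x : G} (hx : ad x Z = Z) :
    ∃ s : ℝ, x 0 0 - x 1 1 = s * (2 * Z 0 0) ∧ x 0 1 = s * Z 0 1 ∧ x 1 0 = s * Z 1 0 := by
  have e : (x : Mat) * Z = Z * x := by
    conv_rhs => rw [← hx, ad, Matrix.mul_assoc, ← Matrix.SpecialLinearGroup.coe_mul, inv_mul_cancel]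
    simp
  rw [Matrix.trace_fin_two] at hZ
  have e0 := congrFun (congrFun e 0) 0
  have e1 := congrFun (congrFun e 0) 1
  have e2 := congrFun (congrFun e 1) 0
  simp only [Matrix.mul_apply, Fin.sum_univ_two] at e0 e1 e2
  by_cases a : Z 0 0 = 0
  · by_cases b : Z 0 1 = 0
    · by_cases c : Z 1 0 = 0
      · refine absurd ?_ h0
        ext i j
        fin_cases i <;> fin_cases j <;> simp <;> linarith only [a, b, c, hZ]
      · refine ⟨x 1 0 / Z 1 0, ?_, ?_, ?_⟩ <;> field_simp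
        · linear_combination -(x 1 0) * hZ - e2
        · linear_combination e0
    · refine ⟨x 0 1 / Z 0 1, ?_, ?_, ?_⟩ <;> field_simp
      · linear_combination e1 - (x 0 1) * hZ
      · linear_combination -e0
  · refine ⟨(x 0 0 - x 1 1) / (2 * Z 0 0), ?_, ?_, ?_⟩ <;> field_simp
    · linear_combination (x 0 1) * hZ - e1
    · linear_combination e2 + (x 1 0) * hZ

theorem comm_of_ad {Z : Mat} (hZ : Z.trace = 0) (h0 : Z ≠ 0) {x y : G} (hx : ad x Z = Z)
    (hy : ad y Z = Z) : x * y = y * x := by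
  obtain ⟨s, a1, a2, a3⟩ := xj_par hZ h0 hx
  obtain ⟨t, b1, b2, b3⟩ := xj_par hZ h0 hy
  apply basic_ext <;> simp only [basic_mul]
  · rw [a2, a3, b2, b3]; ring
  · linear_combination y 0 1 * a1 - x 0 1 * b1 + 2 * s * Z 0 0 * b2 - 2 * t * Z 0 0 * a2
  · linear_combination x 1 0 * b1 - y 1 0 * a1 + 2 * t * Z 0 0 * a3 - 2 * s * Z 0 0 * b3
  · rw [a2, a3, b2, b3]; ring

theorem xj_hc {M : Tup g} {j : Fin g} {Z : Mat} (hZ : Z.trace = 0) (h0 : Z ≠ 0)
    (h : ad (cj (pre M j) (ha M j)) Z = Z ∧ ad (cj (pre M j) (hb M j)) Z = Z) : hc M j = 1 := by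
  have e := cm_eq_one.2 (comm_of_ad hZ h0 h.1 h.2)
  rw [cm_cj, cj, mul_inv_eq_one, mul_eq_left] at e
  exact e

theorem xj_pre {M : Tup g} (h : ∀ i, hc M i = 1) (k : ℕ) : pre M k = 1 :=
  List.prod_eq_one fun x hx => by
    obtain ⟨i, -, rfl⟩ := List.mem_map.1 hx
    exact h i

theorem xj_gen {M : Tup g} (h1 : ∀ i, hc M i = 1) {Z : Mat} {x : Gen g}
    (h : ad (cj (pre M x.1) (ha M x.1)) Z = Z ∧ ad (cj (pre M x.1) (hb M x.1)) Z = Z) :
    ad (M x) Z = Z := by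
  simp only [xj_pre h1, cj, one_mul, inv_one, mul_one] at h
  obtain ⟨i, _ | _⟩ := x
  exacts [h.1, h.2]

theorem fx_single {M : Tup g} {j : Fin g} (h : hc M j ≠ 1) : Fx M {j} := fun _ hZ H =>
  by_contra fun h0 => h (xj_hc hZ h0 (H j rfl))
theorem fx_all {M : Tup g} (h : NA M) : Fx M univ := fun _ hZ H => by_contra fun h0 => by
  obtain ⟨x, y, hxy⟩ := h
  have h1 := fun i => xj_hc hZ h0 (H i trivial)
  exact hxy (comm_of_ad hZ h0 (xj_gen h1 (H _ trivial)) (xj_gen h1 (H _ trivial)))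
theorem fx_compl {M : Tup g} (hR : PM (pre M g) 1) {j : Fin g} (h : ¬ Fx M {j}ᶜ) (i : Fin g) :
    hc M i = 1 := by
  have h1 : ∀ i, i ≠ j → hc M i = 1 := fun i hi => by_contra fun hn =>
    h ((fx_single hn).mono (singleton_subset_iff.2 hi))
  have h2 : ∀ k, k ≤ g → pre M k = if (j : ℕ) < k then hc M j else 1 := by
    intro k hk
    induction k with
    | zero => simp
    | succ n ih =>
      have e := pre_succ M ⟨n, hk⟩
      simp only at e
      rw [e, ih (by omega)]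
      by_cases c : (⟨n, hk⟩ : Fin g) = j
      · subst c; simp
      · have c' : n ≠ j := fun e => c (Fin.ext e)
        rw [h1 _ c, mul_one]
        exact if_congr (by omega) rfl rfl
  by_cases c : i = j
  · rw [h2 g le_rfl, if_pos j.2] at hR
    subst c
    exact hR.resolve_right (cm_ne_neg _ _)
  · exact h1 i c
theorem fx_of_all_comm (hg : 3 ≤ g) {M : Tup g} (h : NA M) (h1 : ∀ i, hc M i = 1) :
    ∃ j, Fx M {j}ᶜ := by
  obtain ⟨x, y, hxy⟩ := h
  obtain ⟨j, hx, hy⟩ : ∃ j : Fin g, x.1 ≠ j ∧ y.1 ≠ j := by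
    by_contra hn
    simp only [not_exists, not_and_or, not_not, Fin.ext_iff] at hn
    have a0 := hn ⟨0, by omega⟩
    have a1 := hn ⟨1, by omega⟩
    have a2 := hn ⟨2, by omega⟩
    simp only at a0 a1 a2
    omega
  exact ⟨j, fun _ hZ H => by_contra fun h0 =>
    hxy (comm_of_ad hZ h0 (xj_gen h1 (H _ hx)) (xj_gen h1 (H _ hy)))⟩
theorem fE_surj {M : Tup g} (hR : PM (pre M g) 1) (h : NA M) :
    Function.Surjective (fderiv ℝ fE (io M)) := by
  have hF := (contDiff_fE.differentiable one_ne_zero (io M)).hasFDerivAt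
  have d := fun i j => ((contDiff_preE g i j).differentiable one_ne_zero (io M)).hasFDerivAt
  have h1 : ∀ α x, (fderiv ℝ fE (io M) (tv M α)).1 x = (α x).trace := fun α x =>
    (congrArg (· (tv M α)) (hasFDerivAt_pi'.1 hF.fst x).fderiv).symm.trans (fderiv_det M α x)
  have h2 := hF.snd.unique (((d 0 0).sub (d 1 1)).prodMk ((d 0 1).prodMk (d 1 0)))
  have h3 : ∀ α, TL α → (fderiv ℝ fE (io M) (tv M α)).2 =
      ((fox M α g * ((pre M g : G) : Mat)) 0 0 - (fox M α g * ((pre M g : G) : Mat)) 1 1,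
        (fox M α g * ((pre M g : G) : Mat)) 0 1, (fox M α g * ((pre M g : G) : Mat)) 1 0) := by
    intro α hα
    simp only [← fderiv_preE M hα le_rfl]
    exact congrArg (· (tv M α)) h2
  rintro ⟨c, r⟩
  obtain ⟨w, hw⟩ : ∃ w, w = r - (fderiv ℝ fE (io M) (tv M fun x => (c x / 2) • (1 : Mat))).2 :=
    ⟨_, rfl⟩
  obtain ⟨ε, hε, hP⟩ : ∃ ε : ℝ, ε * ε = 1 ∧ ((pre M g : G) : Mat) = ε • (1 : Mat) := by
    rcases hR with e | e
    · exact ⟨1, by norm_num, by rw [e]; simp⟩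
    · exact ⟨-1, by norm_num, by rw [e]; simp⟩
  obtain ⟨α, hα, -, e⟩ := fox_surj (fx_all h)
    (Z := ε • !![w.1 / 2, w.2.1; w.2.2, -(w.1 / 2)]) (by simp [Matrix.trace_fin_two])
  refine ⟨tv M ((fun x => (c x / 2) • (1 : Mat)) + α), Prod.ext (funext fun x => ?_) ?_⟩
  · rw [h1, Pi.add_apply, Matrix.trace_add, hα]
    simp
  · rw [tv_add, map_add, Prod.snd_add, h3 α hα, e, hP, Matrix.mul_smul, Matrix.mul_one, smul_smul,
      hε, one_smul]
    refine (add_comm _ _).trans (eq_sub_iff_add_eq.1 ?_)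
    rw [← hw]
    ext <;> simp

end Pool.Agent.MP_596265_gt.Erg

/-! The lifted commutator map is open at non-commuting pairs. -/

namespace Pool.Agent.MP_596265_gt.Erg

open Real Filter Topology MeasureTheory Set

variable {g : ℕ}

theorem xo_eq {x y : G} (hx : 0 < x 0 0 + x 1 1) (hy : 0 < y 0 0 + y 1 1)
    (h1 : x 0 0 - x 1 1 = y 0 0 - y 1 1) (h2 : x 0 1 = y 0 1) (h3 : x 1 0 = y 1 0) : x = y := by
  have a := basic_det x
  have b := basic_det y
  rw [h2, h3] at a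
  have : x 0 0 + x 1 1 = y 0 0 + y 1 1 := (sq_eq_sq₀ hx.le hy.le).1 (by
    linear_combination 4 * a - 4 * b + (x 0 0 - x 1 1 + (y 0 0 - y 1 1)) * h1)
  exact basic_ext (by linarith only [h1, this]) h2 h3 (by linarith only [h1, this])
theorem xo_surj {M : Tup g} (h : Fx M univ) {L : Amb g →L[ℝ] (Gen g → ℝ) × ℝ × ℝ × ℝ}
    (h1 : ∀ α, (L (tv M α)).1 = fun x => (α x).trace) (h2 : ∀ α, TL α → (L (tv M α)).2 =
      (fox M α g 0 0 - fox M α g 1 1, fox M α g 0 1, fox M α g 1 0)) : Function.Surjective L := by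
  rintro ⟨d, r⟩
  let β : Gen g → Mat := fun x => (d x / 2) • 1
  obtain ⟨⟨u, v, w⟩, e⟩ : ∃ q, q = r - (L (tv M β)).2 := ⟨_, rfl⟩
  obtain ⟨α, a, -, k⟩ := fox_surj h (Z := !![u / 2, v; w, -(u / 2)]) (by simp)
  refine ⟨tv M α + tv M β, Prod.ext (funext fun x => ?_) ?_⟩
  · simp [h1, a x, β]
  · simp [h2 α a, k, (eq_sub_iff_add_eq.1 e).symm]
theorem cm_open {a b : G} (h : cm a b ≠ 1) :
    𝓝 (cm a b) ≤ map (fun p : G × G => cm p.1 p.2) (𝓝 (a, b)) := by
  let M : Tup 1 := fun z => cond z.2 b a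
  have hp : ∀ N : Tup 1, pre N 1 = cm (ha N 0) (hb N 0) := fun N => by
    simpa [hc] using pre_succ N 0
  have hM : pre M 1 = cm a b := hp M
  set c := cm a b
  let W : Amb 1 → Fin 2 → Fin 2 → ℝ := fun m i j =>
    preE m 1 i 0 * c⁻¹ 0 j + preE m 1 i 1 * c⁻¹ 1 j
  have Wi : ∀ N i j, W (io N) i j = (pre N 1 * c⁻¹) i j := fun N i j => by
    simp only [W, preE_io, basic_mul]
  have hD := fun i k => (contDiff_preE (g := 1) 1 i k).contDiffAt.hasStrictFDerivAt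
    (x := io M) one_ne_zero
  have hW := fun i j => ((hD i 0).mul_const (c⁻¹ 0 j)).add ((hD i 1).mul_const (c⁻¹ 1 j))
  have hd := hasStrictFDerivAt_pi.2 fun x => (contDiff_pi.1 (contDiff_fE (g := 1)).fst x
    ).contDiffAt.hasStrictFDerivAt (x := io M) one_ne_zero
  have hF := (hd.prodMk (((hW 0 0).sub (hW 1 1)).prodMk ((hW 0 1).prodMk (hW 1 0)))
    ).map_nhds_eq_of_surj (LinearMap.range_eq_top.2 ?_)
  · intro U hU
    have hi : IsInducing (io : Tup 1 → Amb 1) := IsInducing.piMap fun _ => IsInducing.subtypeVal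
    have c1 : Continuous fun N : Tup 1 => (ha N 0, hb N 0) :=
      (continuous_apply _).prodMk (continuous_apply _)
    obtain ⟨V, hV, hs⟩ := mem_comap.1 (hi.nhds_eq_comap M ▸ c1.continuousAt (x := M) hU)
    have t1 : ∀ᶠ m in 𝓝 (io M), 0 < W m 0 0 + W m 1 1 :=
      ((hW 0 0).add (hW 1 1)).continuousAt.eventually (lt_mem_nhds (by
        change 0 < W (io M) 0 0 + W (io M) 1 1
        simp only [Fin.isValue, Wi, hM, mul_inv_cancel, Matrix.SpecialLinearGroup.coe_one, Matrix.one_apply_eq, pos_add_self_iff, zero_lt_one]))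
    have t2 := image_mem_map (m := fun m => ((fE m).1, W m 0 0 - W m 1 1, W m 0 1, W m 1 0))
      (inter_mem hV t1)
    have c2 : ∀ i j, Continuous fun x : G => (x * c⁻¹) i j := fun i j =>
      (basic_cont i j).comp (by fun_prop)
    have t3 : Tendsto (fun x : G => ((fun _ => 1 : Gen 1 → ℝ), (x * c⁻¹) 0 0 - (x * c⁻¹) 1 1,
        (x * c⁻¹) 0 1, (x * c⁻¹) 1 0)) (𝓝 c)
        (𝓝 ((fE (io M)).1, W (io M) 0 0 - W (io M) 1 1, W (io M) 0 1, W (io M) 1 0)) := by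
      refine (continuous_const.prodMk (((c2 0 0).sub (c2 1 1)).prodMk
        ((c2 0 1).prodMk (c2 1 0)))).tendsto' c _ ?_
      simp only [Wi, hM]
      exact Prod.ext (funext fun x => (M x).2.symm) rfl
    filter_upwards [t3 (hF ▸ t2), ((c2 0 0).add (c2 1 1)).continuousAt.eventually
      (lt_mem_nhds (show 0 < (c * c⁻¹) 0 0 + (c * c⁻¹) 1 1 by simp only [mul_inv_cancel, Fin.isValue, Matrix.SpecialLinearGroup.coe_one, Matrix.one_apply_eq, pos_add_self_iff, zero_lt_one]))] with x ⟨m, hm, e⟩ hx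
    obtain ⟨N, rfl⟩ : ∃ N : Tup 1, io N = m :=
      ⟨fun z => ⟨Matrix.of (m z), congrFun (congrArg Prod.fst e) z⟩, rfl⟩
    have k := hm.2
    simp only [Prod.mk.injEq, Wi, mem_ofPred] at e k
    have := mul_right_cancel (xo_eq k hx e.2.1 e.2.2.1 e.2.2.2)
    rw [← this, hp]
    exact hs hm.1
  · refine xo_surj (M := M) ((fx_single (M := M) (j := 0) h).mono (subset_univ _))
      (fun α => funext fun x => ?_) fun α hα => ?_
    · simp only [ContinuousLinearMap.prod_apply, ContinuousLinearMap.pi_apply]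
      exact fderiv_det M α x
    have k : ∀ i j, c⁻¹ 0 j * (fox M α 1 * (c : Mat)) i 0 + c⁻¹ 1 j * (fox M α 1 * (c : Mat)) i 1
        = fox M α 1 i j := fun i j => by
      have : fox M α 1 * (c : Mat) * ((c⁻¹ : G) : Mat) = fox M α 1 := by
        rw [mul_assoc, ← Matrix.SpecialLinearGroup.coe_mul, mul_inv_cancel]; simp
      rw [← congrFun₂ this i j, Matrix.mul_apply (N := ((c⁻¹ : G) : Mat)), Fin.sum_univ_two]
      ring
    simp only [ContinuousLinearMap.prod_apply, sub_apply, add_apply, smul_apply, smul_eq_mul,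
      fderiv_preE M hα le_rfl, hM, k]
theorem cmt_open {a b : G} (h : cm a b ≠ 1) :
    𝓝 (cmt a b) ≤ map (fun p : G × G => cmt p.1 p.2) (𝓝 (a, b)) := by
  obtain ⟨O, hO, hi⟩ := pj_loc_inj (cmt a b)
  intro U hU
  have t := cm_open h (image_mem_map (inter_mem hU (continuous_cmt.continuousAt (x := (a, b)) hO)))
  rw [← pj_cmt] at t
  filter_upwards [continuous_pj.continuousAt t, hO] with y ⟨p, hp, e⟩ hy
  rw [← hi hp.2 hy ((pj_cmt _ _).trans e)]
  exact hp.1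

end Pool.Agent.MP_596265_gt.Erg

/-! Every point of the hyperboloid is reached by moves. -/

namespace Pool.Agent.MP_596265_gt.Erg

open Real Filter Topology MeasureTheory Set

variable {g : ℕ}

theorem xr_mk (p q r s : ℝ) (h : p * s - q * r = 1) :
    ∃ y : G, y 0 0 = p ∧ y 0 1 = q ∧ y 1 0 = r ∧ y 1 1 = s :=
  ⟨⟨!![p, q; r, s], by rw [Matrix.det_fin_two_of]; exact h⟩, rfl, rfl, rfl, rfl⟩

theorem xr_tr (y z : G) :
    tr (y⁻¹ * z) = y 1 1 * z 0 0 - y 0 1 * z 1 0 - y 1 0 * z 0 1 + y 0 0 * z 1 1 := by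
  simp only [tr, basic_mul, basic_inv00, basic_inv01, basic_inv10, basic_inv11]; ring

theorem xr_cc (k x : G) : cj k⁻¹ (cj k x) = x := by simp only [cj]; group

theorem xr_unit {A B C D : ℝ} (h : A * D = B * C) :
    ∃ c s : ℝ, c ^ 2 + s ^ 2 = 1 ∧ c * A = s * B ∧ c * C = s * D := by
  have key : ∀ p q : ℝ, p ^ 2 + q ^ 2 ≠ 0 → p * A = q * B → p * C = q * D →
      ∃ c s : ℝ, c ^ 2 + s ^ 2 = 1 ∧ c * A = s * B ∧ c * C = s * D := by
    intro p q h0 h1 h2
    have h3 : √(p ^ 2 + q ^ 2) ^ 2 = p ^ 2 + q ^ 2 := sq_sqrt (by positivity)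
    refine ⟨p / √(p ^ 2 + q ^ 2), q / √(p ^ 2 + q ^ 2), ?_, ?_, ?_⟩
    · rw [div_pow, div_pow, h3, ← add_div, div_self h0]
    · rw [div_mul_eq_mul_div, div_mul_eq_mul_div, h1]
    · rw [div_mul_eq_mul_div, div_mul_eq_mul_div, h2]
  by_cases h1 : B ^ 2 + A ^ 2 = 0
  · have hA : A = 0 := by nlinarith only [h1]
    have hB : B = 0 := by nlinarith only [h1]
    by_cases h2 : D ^ 2 + C ^ 2 = 0
    · have hC : C = 0 := by nlinarith only [h2]
      exact ⟨1, 0, by norm_num, by simp [hA], by simp [hC]⟩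
    · exact key D C h2 (by simp [hA, hB]) (mul_comm _ _)
  · exact key B A h1 (mul_comm _ _) h.symm

theorem xr_rot {p q : G} (ht : tr p = tr q) (hs : p 0 1 - p 1 0 = q 0 1 - q 1 0) :
    ∃ u : G, u 0 0 = u 1 1 ∧ u 0 1 = -u 1 0 ∧ u * p = q * u := by
  have hp := basic_det p
  have hq := basic_det q
  unfold tr at ht
  obtain ⟨c, s, h0, h1, h2⟩ := xr_unit (A := p 0 0 - q 0 0) (B := p 1 0 + q 0 1)
    (C := q 1 0 - p 1 0) (D := p 0 0 - q 1 1) (by
      linear_combination hq - hp + p 0 0 * ht - p 1 0 * hs)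
  obtain ⟨u, e1, e2, e3, e4⟩ := xr_mk c (-s) s c (by linear_combination h0)
  refine ⟨u, e1.trans e4.symm, by rw [e2, e3], basic_ext ?_ ?_ ?_ ?_⟩ <;>
    simp only [basic_mul, e1, e2, e3, e4]
  · linear_combination h1
  · linear_combination c * hs - h2 - s * ht
  · linear_combination -h2
  · linear_combination c * ht - h1 + s * hs

theorem xr_adj {a b : G} {θ : ℝ} (ha : ell a) (hc : cm a b ≠ 1) (hx : Pl (cm a b) (a * rot θ))
    (hk : ell (rot θ)) : ∃ b', HM (a, b) (a * rot θ, b') ∧ ell b' := by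
  have hs : sin (π * θ) ≠ 0 := by
    intro h
    have h1 := sin_sq_add_cos_sq (π * θ)
    have h2 := abs_lt.1 hk
    rw [tr_rot] at h2
    rw [h] at h1
    nlinarith only [h1, h2]
  have ht : tr a⁻¹ = tr (b * a⁻¹ * b⁻¹) := (tr_conj _ _).symm
  have h1 : tr ((b * a⁻¹ * b⁻¹)⁻¹ * rot θ) = tr ((a⁻¹)⁻¹ * rot θ) := by
    rw [inv_inv, ← hx, tr_mul_comm, ← tr_conj _ a]
    congr 1
    simp only [cm]; group
  rw [xr_tr, xr_tr] at h1
  simp only [basic_rot00, basic_rot01, basic_rot10, basic_rot11] at h1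
  obtain ⟨u, e1, e2, e3⟩ := xr_rot ht (mul_left_cancel₀ hs (by
    unfold tr at ht
    linear_combination h1 + cos (π * θ) * ht))
  obtain ⟨s, h2⟩ := kk_of_comm (y := b⁻¹ * u) ha (by
    calc b⁻¹ * u * a = a * b⁻¹ * (b * a⁻¹ * b⁻¹ * u) * a := by group
      _ = a * (b⁻¹ * u) := by rw [← e3]; group)
  have hd := basic_det u
  have hu : ell u := by
    have h3 : u 1 0 ≠ 0 := by
      intro h
      refine hc (cm_eq_one.2 ?_)
      have h4 : u * a⁻¹ = a⁻¹ * u := by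
        refine basic_ext ?_ ?_ ?_ ?_ <;> simp only [basic_mul, e1, e2, h] <;> ring
      have h5 : a⁻¹ = b * a⁻¹ * b⁻¹ := mul_right_cancel (h4.symm.trans e3)
      calc a * b = a * (b * a⁻¹ * b⁻¹) * b * a := by group
        _ = b * a := by rw [← h5]; group
    have h4 := sq_pos_of_ne_zero h3
    rw [e1, e2] at hd
    unfold ell tr
    rw [e1, abs_lt]
    constructor <;> nlinarith only [hd, h4]
  obtain ⟨t, h3⟩ := kk_of_comm (y := rot θ) hu (by
    refine basic_ext ?_ ?_ ?_ ?_ <;>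
      simp only [basic_mul, e1, e2, basic_rot00, basic_rot01, basic_rot10, basic_rot11] <;> ring)
  have h4 : b * kk a s = u := by rw [← h2]; group
  refine ⟨u, ?_, hu⟩
  have h5 := HM1.f1 a b s ha
  have h6 := HM1.f2 a u t hu
  rw [h4] at h5
  rw [← h3] at h6
  exact (Relation.ReflTransGen.single h5).tail h6

theorem adj_move {a b x : G} (ha : ell a) (hc : cm a b ≠ 1) (hx : Pl (cm a b) x)
    (hk : ell (a⁻¹ * x)) : ∃ b', HM (a, b) (x, b') ∧ ell b' := by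
  obtain ⟨k, θ, h⟩ := conj_rot hk
  have e : cj k a * rot θ = cj k x := by rw [← h]; simp only [cj]; group
  obtain ⟨b', h1, h2⟩ := xr_adj (a := cj k a) (b := cj k b) (θ := θ) ((ell_cj _ _).2 ha)
    (by rw [cm_cj]; intro h0; apply hc; rw [← xr_cc k (cm a b), h0]; simp [cj])
    (by rw [cm_cj, e, pl_cj]; exact hx) (by rw [← h, ell_cj]; exact hk)
  have h3 := hm_cj k⁻¹ h1
  simp only [e, xr_cc] at h3
  exact ⟨_, h3, (ell_cj _ _).2 h2⟩

theorem xr_near {v w : ℝ} (h : -1 < v * w) : ∃ s : ℝ, s ≠ 0 ∧ |w * s - v * s⁻¹| < 2 := by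
  by_cases hv : v = 0
  · have h1 : 0 < |w| + 1 := by positivity
    refine ⟨(|w| + 1)⁻¹, by positivity, ?_⟩
    rw [hv, zero_mul, sub_zero, abs_mul, abs_of_pos (inv_pos.2 h1), mul_inv_lt_iff₀ h1]
    linarith [abs_nonneg w]
  by_cases hw : w = 0
  · have h1 : 0 < |v| + 1 := by positivity
    refine ⟨|v| + 1, h1.ne', ?_⟩
    rw [hw, zero_mul, zero_sub, abs_neg, abs_mul, abs_of_pos (inv_pos.2 h1), mul_inv_lt_iff₀ h1]
    linarith [abs_nonneg v]
  have h1 : 0 < |v| / |w| := div_pos (abs_pos.2 hv) (abs_pos.2 hw)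
  have h2 : √(|v| / |w|) ^ 2 = |v| / |w| := sq_sqrt h1.le
  have h3 := (sqrt_pos.2 h1).ne'
  refine ⟨_, h3, abs_lt_of_sq_lt_sq ?_ two_pos.le⟩
  have h4 : (w * √(|v| / |w|) - v * (√(|v| / |w|))⁻¹) ^ 2 = 2 * |v * w| - 2 * (v * w) := by
    have h5 := (abs_pos.2 hv).ne'
    have h6 := (abs_pos.2 hw).ne'
    rw [sub_sq, mul_pow, mul_pow, inv_pow, h2, ← sq_abs v, ← sq_abs w, abs_mul]
    field_simp
    ring
  rw [h4]
  rcases abs_cases (v * w) with h5 | h5 <;> linarith only [h5.1, h]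

theorem xr_chain {L : ℝ} (hL : 0 < L) {R : G → Prop}
    (st : ∀ y z, R y → ell y → z 0 0 = L * z 1 1 → ell (y⁻¹ * z) → R z) {a x : G} (ha : ell a)
    (h0 : R a) (h1 : a 0 0 = L * a 1 1) (hx : x 0 0 = L * x 1 1) : R x := by
  have hρ2 : 0 < 1 - L * ((L + 1)⁻¹) ^ 2 := by
    rw [inv_pow, sub_pos, mul_inv_lt_iff₀ (by positivity)]
    nlinarith
  obtain ⟨ρ, hρ, hρ0⟩ : ∃ ρ : ℝ, ρ ^ 2 = 1 - L * ((L + 1)⁻¹) ^ 2 ∧ 0 < ρ :=
    ⟨_, sq_sqrt hρ2.le, sqrt_pos.2 hρ2⟩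
  have hρ1 : ρ < 1 := by
    have : 0 < L * ((L + 1)⁻¹) ^ 2 := by positivity
    nlinarith only [hρ, this]
  have e0 : ∀ y : G, y 0 0 = 0 → y 1 1 = 0 → ell y := fun y p q => by
    unfold ell tr; rw [p, q]; norm_num
  have s1 : ∀ y z : G, y 0 0 = 0 → y 1 1 = 0 → z 0 0 = 0 → z 1 1 = 0 →
      ρ * |y 0 1 * z 1 0 + y 1 0 * z 0 1| < 2 → R y → R z := by
    intro y z p q p' q' h hy
    have hd := basic_det y
    rw [p, q] at hd
    obtain ⟨m, e1, e2, e3, e4⟩ := xr_mk (L * (L + 1)⁻¹) (ρ * y 0 1) (ρ * y 1 0) (L + 1)⁻¹ (by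
      linear_combination ρ ^ 2 * hd + hρ)
    refine st m z (st y m hy (e0 y p q) (by rw [e1, e4]) ?_) ?_ (by rw [p', q', mul_zero]) ?_
    · have : tr (y⁻¹ * m) = 2 * ρ := by
        rw [xr_tr, p, q, e2, e3]; linear_combination 2 * ρ * hd
      unfold ell
      rw [this, abs_lt]
      constructor <;> linarith only [hρ0, hρ1]
    · have : tr m = 1 := by
        unfold tr; rw [e1, e4]; field_simp
      unfold ell
      rw [this]; norm_num
    · have : tr (m⁻¹ * z) = -(ρ * (y 0 1 * z 1 0 + y 1 0 * z 0 1)) := by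
        rw [xr_tr, p', q', e2, e3]; ring
      unfold ell
      rwa [this, abs_neg, abs_mul, abs_of_pos hρ0]
  have e1 : ∀ y : G, y 0 0 = 0 → y 0 1 ≠ 0 ∧ y 1 0 = -(y 0 1)⁻¹ := fun y p => by
    have hd := basic_det y
    rw [p] at hd
    have h2 : y 0 1 ≠ 0 := fun h => by rw [h] at hd; norm_num at hd
    exact ⟨h2, by field_simp; linear_combination -hd⟩
  have s2 : ∀ t t' : ℝ, ∀ y z : G, y 0 0 = 0 → y 1 1 = 0 → z 0 0 = 0 → z 1 1 = 0 →
      |y 0 1| = exp t → |z 0 1| = exp t' → R y → R z := by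
    have loc : ∀ t t' : ℝ, ρ * (exp (t - t') + exp (t' - t)) < 2 → ∀ y z : G, y 0 0 = 0 →
        y 1 1 = 0 → z 0 0 = 0 → z 1 1 = 0 → |y 0 1| = exp t → |z 0 1| = exp t' → R y → R z := by
      intro t t' h y z p q p' q' r r'
      refine s1 y z p q p' q' (lt_of_le_of_lt (mul_le_mul_of_nonneg_left ?_ hρ0.le) h)
      refine (abs_add_le _ _).trans (le_of_eq ?_)
      rw [(e1 y p).2, (e1 z p').2]
      simp only [abs_mul, abs_neg, abs_inv, r, r', exp_sub]
      ring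
    refine PreconnectedSpace.induction₂' _ (fun t => ?_) ?_
    · have hc : ContinuousAt (fun t' => ρ * (exp (t - t') + exp (t' - t))) t := by fun_prop
      filter_upwards [hc.eventually_lt continuousAt_const (show _ < (2 : ℝ) by simp; linarith only [hρ1])]
        with t' h
      exact ⟨loc t t' h, loc t' t (by rwa [add_comm])⟩
    · refine ⟨fun t t' t'' h h' y z p q p' q' r r' hy => ?_⟩
      obtain ⟨m, f1, f2, -, f4⟩ := xr_mk 0 (exp t') (-exp (-t')) 0 (by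
        rw [mul_neg, ← exp_add]; simp)
      have f5 : |m 0 1| = exp t' := by rw [f2, abs_of_pos (exp_pos _)]
      exact h' m z f1 f4 p' q' f5 r' (h y m p q f1 f4 r f5 hy)
  have s3 : ∀ y z : G, y 0 0 = 0 → y 1 1 = 0 → z 0 0 = 0 → z 1 1 = 0 → R y → R z :=
    fun y z p q p' q' => s2 _ _ y z p q p' q' (exp_log (abs_pos.2 (e1 y p).1)).symm
      (exp_log (abs_pos.2 (e1 z p').1)).symm
  have s4 : ∀ z : G, z 0 0 = L * z 1 1 → z 1 1 ≠ 0 →
      ∃ y : G, y 0 0 = 0 ∧ y 1 1 = 0 ∧ ell (y⁻¹ * z) := by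
    intro z p q
    have hd := basic_det z
    have h2 := mul_pos hL (mul_self_pos.2 q)
    obtain ⟨s, hs, h⟩ := xr_near (v := z 0 1) (w := z 1 0) (by rw [p] at hd; linarith only [hd, h2])
    obtain ⟨y, f1, f2, f3, f4⟩ := xr_mk 0 s (-s⁻¹) 0 (by field_simp; ring)
    refine ⟨y, f1, f4, ?_⟩
    unfold ell
    rw [xr_tr, f1, f2, f3, f4, ← abs_neg]
    convert h using 2
    ring
  obtain ⟨y, p, q, hy⟩ : ∃ y : G, y 0 0 = 0 ∧ y 1 1 = 0 ∧ R y := by
    by_cases h : a 1 1 = 0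
    · exact ⟨a, by rw [h1, h, mul_zero], h, h0⟩
    · obtain ⟨y, p, q, hy⟩ := s4 a h1 h
      refine ⟨y, p, q, st a y h0 ha (by rw [p, q, mul_zero]) ?_⟩
      rwa [← ell_inv, mul_inv_rev, inv_inv]
  by_cases h : x 1 1 = 0
  · exact s3 y x p q (by rw [hx, h, mul_zero]) h hy
  · obtain ⟨z, p', q', hz⟩ := s4 x hx h
    exact st z x (s3 y z p q p' q' hy) (e0 z p' q') hx hz

theorem xr_pl {l : ℝ} (hl : 0 < l) (z : G) : Pl (dia l) z ↔ z 0 0 = exp (l / 2) * z 1 1 := by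
  have h1 : 1 < exp (l / 2) := one_lt_exp_iff.2 (by linarith)
  have h2 : exp (l / 2) * exp (-(l / 2)) = 1 := by rw [← exp_add]; simp
  simp only [Pl, tr, basic_mul, basic_inv00, basic_inv01, basic_inv10, basic_inv11, basic_dia00,
    basic_dia01, basic_dia10, basic_dia11]
  constructor
  · intro h
    refine mul_left_cancel₀ (sub_pos.2 h1).ne' ?_
    linear_combination -exp (l / 2) * h + z 0 0 * h2
  · intro h
    rw [h]
    linear_combination z 1 1 * h2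

theorem reach {a b x : G} (ha : ell a) (hc : cm a b ≠ 1) (hx : Pl (cm a b) x) :
    ∃ b', HM (a, b) (x, b') := by
  obtain ⟨k, l, hl, h⟩ := conj_dia (ell_kappa ha hc)
  have e : ∀ z, Pl (cm a b) z ↔ cj k z 0 0 = exp (l / 2) * cj k z 1 1 := fun z => by
    rw [← xr_pl hl, ← h, pl_cj]
  have st : ∀ y z : G, (∃ b', HM (a, b) (cj k⁻¹ y, b')) → ell y → z 0 0 = exp (l / 2) * z 1 1 →
      ell (y⁻¹ * z) → ∃ b', HM (a, b) (cj k⁻¹ z, b') := by
    rintro y z ⟨b', h1⟩ hy hz hyz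
    have h2 := cm_hm h1
    dsimp only at h2
    have h3 := xr_cc k⁻¹ z
    rw [inv_inv] at h3
    have h4 : (cj k⁻¹ y)⁻¹ * cj k⁻¹ z = cj k⁻¹ (y⁻¹ * z) := by simp only [cj]; group
    obtain ⟨b'', h5, -⟩ := adj_move (b := b') (x := cj k⁻¹ z) ((ell_cj k⁻¹ y).2 hy)
      (by rw [h2]; exact hc) (by rw [h2, e, h3]; exact hz) (by rw [h4, ell_cj]; exact hyz)
    exact ⟨b'', Relation.ReflTransGen.trans h1 h5⟩
  have h6 := xr_chain (exp_pos (l / 2)) st ((ell_cj k a).2 ha)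
    ⟨b, by rw [xr_cc]; exact Relation.ReflTransGen.refl⟩ ((e a).1 (pl_cm a b)) ((e x).1 hx)
  rwa [xr_cc] at h6

theorem hm_ell {a b a' b' : G} (ha : ell a) (ha' : ell a') (hc : cm a b ≠ 1)
    (h : cm a' b' = cm a b) : HM (a, b) (a', b') := by
  obtain ⟨w, h1⟩ := reach ha hc (h ▸ pl_cm a' b')
  have h2 : cm a' w = cm a' b' := (cm_hm h1).trans h.symm
  obtain ⟨t, h3⟩ := kk_of_comm (y := w⁻¹ * b') ha' (by
    calc w⁻¹ * b' * a' = a' * w⁻¹ * a'⁻¹ * cm a' w * b' * a' := by simp only [cm]; group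
      _ = a' * (w⁻¹ * b') := by rw [h2]; simp only [cm]; group)
  have h4 := HM1.f1 a' w t ha'
  rw [← h3, mul_inv_cancel_left] at h4
  exact h1.tail h4

end Pool.Agent.MP_596265_gt.Erg

/-! Spanning lemmas. -/

namespace Pool.Agent.MP_596265_gt.Erg

open Real Filter Topology MeasureTheory Set

variable {g : ℕ}

theorem xp_tl {x : G} (h : ell x) : ∃ σ : ℝ, 0 < σ ∧ tl x = σ • Jm x := by
  have h1 : 0 < 1 - tr x ^ 2 / 4 := by
    have := abs_lt.1 h; nlinarith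
  refine ⟨_, sqrt_pos.2 h1, ?_⟩
  rw [Jm, smul_smul, mul_inv_cancel₀ (sqrt_pos.2 h1).ne', one_smul]

theorem xp_tl00 (x : G) : tl x 0 0 = (x 0 0 - x 1 1) / 2 := by
  simp only [tl, tr, Matrix.sub_apply, Matrix.smul_apply, Matrix.one_apply_eq, smul_eq_mul]; ring
theorem xp_tl11 (x : G) : tl x 1 1 = (x 1 1 - x 0 0) / 2 := by
  simp only [tl, tr, Matrix.sub_apply, Matrix.smul_apply, Matrix.one_apply_eq, smul_eq_mul]; ring
theorem xp_tl01 (x : G) : tl x 0 1 = x 0 1 := by simp [tl]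
theorem xp_tl10 (x : G) : tl x 1 0 = x 1 0 := by simp [tl]

theorem xp_ext {A B : Mat} (h00 : A 0 0 = B 0 0) (h01 : A 0 1 = B 0 1) (h10 : A 1 0 = B 1 0)
    (h11 : A 1 1 = B 1 1) : A = B := by
  ext i j
  fin_cases i <;> fin_cases j <;> assumption

/-- Every elliptic direction occurs. -/
theorem xp_dir {c x : G} (hx : ¬ Pl c x⁻¹) (p q r : ℝ) (hd : 0 < -p ^ 2 - q * r) :
    (!![p, q; r, -p] : Mat) ∈
      Submodule.span ℝ {W : Mat | ∃ u : G, Pl c u ∧ ell (u * x) ∧ W = Jm (u * x)} := by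
  obtain ⟨y, hy⟩ : ∃ y : G, y = x⁻¹ := ⟨_, rfl⟩
  obtain ⟨m, hm⟩ : ∃ m : G, m = x⁻¹ * c⁻¹ := ⟨_, rfl⟩
  have hτ : m 0 0 + m 1 1 - (y 0 0 + y 1 1) ≠ 0 := by
    rw [sub_ne_zero, hy, hm]; exact hx
  obtain ⟨t, ht⟩ : ∃ t : ℝ, t * (m 0 0 + m 1 1 - (y 0 0 + y 1 1)) =
      -(p * (m 0 0 - y 0 0) + q * (m 1 0 - y 1 0) + r * (m 0 1 - y 0 1) - p * (m 1 1 - y 1 1)) :=
    ⟨_, div_mul_cancel₀ _ hτ⟩
  have hD : 0 < t ^ 2 - p ^ 2 - q * r := by linarith only [sq_nonneg t, hd]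
  obtain ⟨s, hs0, hs⟩ : ∃ s : ℝ, 0 < s ∧ s ^ 2 * (t ^ 2 - p ^ 2 - q * r) = 1 :=
    ⟨(√(t ^ 2 - p ^ 2 - q * r))⁻¹, inv_pos.2 (sqrt_pos.2 hD), by
      rw [inv_pow, sq_sqrt hD.le, inv_mul_cancel₀ hD.ne']⟩
  let w : G := ⟨!![s * (t + p), s * q; s * r, s * (t - p)], by
    rw [Matrix.det_fin_two_of]; linear_combination hs⟩
  have w00 : w 0 0 = s * (t + p) := rfl
  have w01 : w 0 1 = s * q := rfl
  have w10 : w 1 0 = s * r := rfl
  have w11 : w 1 1 = s * (t - p) := rfl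
  have he : ell w := by
    rw [ell, tr, w00, w11, ← sq_lt_sq₀ (abs_nonneg _) zero_le_two, sq_abs]
    linarith only [mul_pos (pow_pos hs0 2) hd, hs]
  obtain ⟨σ, hσ, hJ⟩ := xp_tl he
  have hmem : Jm w ∈ {W : Mat | ∃ u : G, Pl c u ∧ ell (u * x) ∧ W = Jm (u * x)} := by
    refine ⟨w * x⁻¹, ?_, by rwa [inv_mul_cancel_right], by rw [inv_mul_cancel_right]⟩
    rw [Pl, mul_assoc, ← hm, ← hy]
    simp only [tr, basic_mul, w00, w01, w10, w11]
    linear_combination s * ht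
  have e : (!![p, q; r, -p] : Mat) = (s⁻¹ * σ) • Jm w := by
    rw [mul_smul, ← hJ]
    apply xp_ext <;>
      simp only [Matrix.smul_apply, xp_tl00, xp_tl01, xp_tl10, xp_tl11, w00, w01, w10, w11,
        smul_eq_mul, Matrix.of_apply, Matrix.cons_val', Matrix.cons_val_zero, Matrix.cons_val_one,
        Matrix.cons_val_fin_one] <;> field_simp <;> ring
  rw [e]
  exact Submodule.smul_mem _ _ (Submodule.subset_span hmem)

theorem span_sl {c x : G} (hc : 2 < tr c) (hx : ¬ Pl c x⁻¹) {Z : Mat} (hZ : Z.trace = 0) :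
    Z ∈ Submodule.span ℝ {W : Mat | ∃ u : G, Pl c u ∧ ell (u * x) ∧ W = Jm (u * x)} := by
  have _ := hc
  rw [Matrix.trace_fin_two] at hZ
  have e : Z = (-Z 0 1 - 2 * Z 1 0) • (!![0, 1; -1, -0] : Mat) + Z 0 0 • !![1, 2; -1, -1] +
      (Z 0 1 + Z 1 0 - Z 0 0) • !![0, 2; -1, -0] := by
    apply xp_ext <;> simp only [Fin.isValue, neg_zero, Matrix.smul_of, Matrix.smul_cons, smul_eq_mul, mul_zero, mul_one, Matrix.smul_empty, mul_neg, neg_sub, sub_neg_eq_add, Matrix.of_add_of, Matrix.add_cons, Matrix.head_cons, zero_add, Matrix.tail_cons, Matrix.empty_add_empty, Matrix.add_apply, Matrix.of_apply, Matrix.cons_val', Matrix.cons_val_zero, Matrix.cons_val_fin_one, add_zero, Matrix.cons_val_one] <;> linarith only [hZ]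
  rw [e]
  exact add_mem (add_mem (Submodule.smul_mem _ _ (xp_dir hx _ _ _ (by norm_num)))
    (Submodule.smul_mem _ _ (xp_dir hx _ _ _ (by norm_num))))
    (Submodule.smul_mem _ _ (xp_dir hx _ _ _ (by norm_num)))

theorem xp_ad_zero {k : G} {Z : Mat} (h : ad k Z = 0) : Z = 0 := by
  have := congrArg (ad k⁻¹) h
  rw [← ad_mul, inv_mul_cancel, ad_one] at this
  rw [this, ad, mul_zero, zero_mul]

theorem xp_mul_ad (a : G) (Z : Mat) : (a : Mat) * ad a⁻¹ Z = Z * a := by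
  rw [ad, inv_inv, ← mul_assoc, ← mul_assoc, ← Matrix.SpecialLinearGroup.coe_mul, mul_inv_cancel,
    Matrix.SpecialLinearGroup.coe_one, one_mul]

theorem vert_dir {a b : G} (ha : ell a) {β : Mat} (hβ : β.trace = 0) (h : dd a b 0 β = 0) :
    ∃ r : ℝ, β = r • Jm a := by
  have h1 := xp_ad_zero h
  rw [show ad b⁻¹ 0 = 0 by rw [ad, mul_zero, zero_mul], sub_zero, zero_add, sub_eq_zero] at h1
  have h2 : (a : Mat) * β = β * a := by rw [← xp_mul_ad, ← h1]
  obtain ⟨σ, hσ, hJ⟩ := xp_tl ha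
  have hd := basic_det a
  have hq : a 0 1 ≠ 0 := fun h0 => by
    have := abs_lt.1 ha
    rw [tr] at this
    rw [h0] at hd
    nlinarith only [sq_nonneg (a 0 0 - a 1 1), hd, this]
  rw [Matrix.trace_fin_two] at hβ
  have e0 := congrFun (congrFun h2 0) 0
  have e1 := congrFun (congrFun h2 0) 1
  simp only [Matrix.mul_apply, Fin.sum_univ_two] at e0 e1
  refine ⟨β 0 1 / a 0 1 * σ, ?_⟩
  rw [mul_smul, ← hJ]
  apply xp_ext <;>
    simp only [Matrix.smul_apply, xp_tl00, xp_tl01, xp_tl10, xp_tl11, smul_eq_mul] <;> field_simp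
  · linear_combination a 0 1 * hβ - e1
  · linear_combination e0
  · linear_combination a 0 1 * hβ + e1

/-- Two traceless vectors and their cross product form a basis. -/
theorem xp_cramer {u0 u1 u2 j0 j1 j2 x0 x1 x2 κ : ℝ} (hu : -u0 ^ 2 - u1 * u2 = 1)
    (hj : -j0 ^ 2 - j1 * j2 = 1) (hκ : 2 * κ = 2 * u0 * j0 + u1 * j2 + u2 * j1) (h1 : κ ^ 2 - 1 ≠ 0)
    (hx : 2 * x0 * j0 + x1 * j2 + x2 * j1 + κ * (2 * x0 * u0 + x1 * u2 + x2 * u1) = 0) :
    ∃ A C : ℝ, x0 = A * u0 + C * ((u1 * j2 - u2 * j1) / 2) ∧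
      x1 = A * u1 + C * (u0 * j1 - u1 * j0) ∧ x2 = A * u2 + C * (u2 * j0 - u0 * j2) := by
  have key : ∀ uu jj k xu xj xv : ℝ, uu = u0 ^ 2 + u1 * u2 → jj = j0 ^ 2 + j1 * j2 →
      k = u0 * j0 + (u1 * j2 + u2 * j1) / 2 → xu = x0 * u0 + (x1 * u2 + x2 * u1) / 2 →
      xj = x0 * j0 + (x1 * j2 + x2 * j1) / 2 →
      xv = x0 * ((u1 * j2 - u2 * j1) / 2) +
        (x1 * (u2 * j0 - u0 * j2) + x2 * (u0 * j1 - u1 * j0)) / 2 →
      (uu * jj - k ^ 2) * x0 = (jj * xu - k * xj) * u0 + (uu * xj - k * xu) * j0 -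
        xv * ((u1 * j2 - u2 * j1) / 2) ∧
      (uu * jj - k ^ 2) * x1 = (jj * xu - k * xj) * u1 + (uu * xj - k * xu) * j1 -
        xv * (u0 * j1 - u1 * j0) ∧
      (uu * jj - k ^ 2) * x2 = (jj * xu - k * xj) * u2 + (uu * xj - k * xu) * j2 -
        xv * (u2 * j0 - u0 * j2) := by
    rintro _ _ _ _ _ _ rfl rfl rfl rfl rfl rfl
    exact ⟨by ring, by ring, by ring⟩
  obtain ⟨xu, hxu⟩ : ∃ xu, xu = x0 * u0 + (x1 * u2 + x2 * u1) / 2 := ⟨_, rfl⟩
  obtain ⟨C, hC⟩ : ∃ C, C * (κ ^ 2 - 1) = x0 * ((u1 * j2 - u2 * j1) / 2) +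
      (x1 * (u2 * j0 - u0 * j2) + x2 * (u0 * j1 - u1 * j0)) / 2 := ⟨_, div_mul_cancel₀ _ h1⟩
  obtain ⟨k0, k1, k2⟩ := key (-1) (-1) κ xu (-κ * xu) _ (by linarith only [hu]) (by linarith only [hj]) (by linarith only [hκ])
    hxu (by rw [hxu]; linear_combination (-1 / 2) * hx) hC
  exact ⟨-xu, C, mul_left_cancel₀ h1 (by linear_combination -k0),
    mul_left_cancel₀ h1 (by linear_combination -k1), mul_left_cancel₀ h1 (by linear_combination -k2)⟩

theorem xp_plane {a u : G} (ha : ell a) (hu : tr u = 0) (hc : 2 < tr (cm a u)) {α : Mat}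
    (hα : α.trace = 0) (h : (α * (u * a * u⁻¹ : G)).trace = (α * a).trace) :
    ∃ s r₁ r₂ : ℝ, ell (u * kk a s) ∧ α = r₁ • tl u + r₂ • tl (u * kk a s) := by
  obtain ⟨σ, hσ, hJ⟩ := xp_tl ha
  have hJt := Jm_trace a
  have hJ2 := congrFun (congrFun (Jm_sq ha) 0) 0
  have hk := kk_coe ha
  have a0 := congrFun (congrFun hJ 0) 0
  have a1 := congrFun (congrFun hJ 0) 1
  have a2 := congrFun (congrFun hJ 1) 0
  generalize Jm a = J at *
  have hd := basic_det u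
  have hda := basic_det a
  rw [Matrix.trace_fin_two] at hα hJt
  simp only [Matrix.mul_apply, Fin.sum_univ_two, Matrix.neg_apply, Matrix.one_apply_eq] at hJ2
  simp only [Matrix.smul_apply, xp_tl00, xp_tl01, xp_tl10, smul_eq_mul] at a0 a1 a2
  have u3 : u 1 1 = -u 0 0 := by rw [tr] at hu; linarith only [hu]
  have x3 : α 1 1 = -α 0 0 := by linarith only [hα]
  have j3 : J 1 1 = -J 0 0 := by linarith only [hJt]
  obtain ⟨τ, hτ⟩ : ∃ τ, τ = (a 0 0 + a 1 1) / 2 := ⟨_, rfl⟩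
  have b0 : a 0 0 = τ + σ * J 0 0 := by linarith only [a0, hτ]
  have b3 : a 1 1 = τ - σ * J 0 0 := by linarith only [a0, hτ]
  obtain ⟨κ, hκ⟩ : ∃ κ, 2 * κ = 2 * u 0 0 * J 0 0 + u 0 1 * J 1 0 + u 1 0 * J 0 1 :=
    ⟨_, mul_div_cancel₀ _ two_ne_zero⟩
  simp only [tr, cm, Matrix.trace_fin_two, Matrix.mul_apply, Fin.sum_univ_two, basic_mul,
    basic_inv00, basic_inv01, basic_inv10, basic_inv11, u3, x3, b0, b3, a1, a2] at h hc hd hda
  have hu' : -u 0 0 ^ 2 - u 0 1 * u 1 0 = 1 := by linarith only [hd]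
  have hj' : -J 0 0 ^ 2 - J 0 1 * J 1 0 = 1 := by linarith only [hJ2]
  have hκ1 : 1 < κ ^ 2 := by
    have : 0 < σ ^ 2 * (κ ^ 2 - 1) := by
      linear_combination (1 / 4) * hc + (1 / 4) * ((4 * τ ^ 2 - 2 * (τ ^ 2 + σ ^ 2 *
        (-J 0 0 ^ 2 - J 0 1 * J 1 0))) * hu' - σ ^ 2 * (2 * u 0 0 * J 0 0 + u 0 1 * J 1 0 +
        u 1 0 * J 0 1 + 2 * κ) * hκ + 2 * hda - 4 * σ ^ 2 * hj')
    exact sub_pos.1 ((mul_pos_iff_of_pos_left (pow_pos hσ 2)).1 this)
  have hx : 2 * α 0 0 * J 0 0 + α 0 1 * J 1 0 + α 1 0 * J 0 1 +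
      κ * (2 * α 0 0 * u 0 0 + α 0 1 * u 1 0 + α 1 0 * u 0 1) = 0 := by
    apply mul_left_cancel₀ hσ.ne'
    linear_combination (-1 / 2) * h +
      (σ * (2 * α 0 0 * u 0 0 + α 0 1 * u 1 0 + α 1 0 * u 0 1) / 2) * hκ -
      (σ * (2 * α 0 0 * J 0 0 + α 0 1 * J 1 0 + α 1 0 * J 0 1) / 2) * hu'
  obtain ⟨A, C, e0, e1, e2⟩ := xp_cramer hu' hj' hκ (by linarith only [hκ1]) hx
  have hκ0 : κ ≠ 0 := fun h0 => by rw [h0] at hκ1; linarith only [hκ1]
  have ht : |(2 * κ)⁻¹| ≤ 1 := by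
    rw [abs_inv, abs_mul, abs_two]
    exact inv_le_one_of_one_le₀ (by have := one_lt_sq_iff_one_lt_abs κ |>.1 hκ1; linarith only [this])
  have hs := sin_arcsin (abs_le.1 ht).1 (abs_le.1 ht).2
  obtain ⟨s, hs'⟩ : ∃ s, s = arcsin (2 * κ)⁻¹ := ⟨_, rfl⟩
  rw [← hs'] at hs
  have hs2 : sin s * (2 * κ) = 1 := by rw [hs]; field_simp
  have k00 : kk a s 0 0 = cos s + sin s * J 0 0 := by
    have := congrFun (congrFun (hk s) 0) 0; simpa using this
  have k01 : kk a s 0 1 = sin s * J 0 1 := by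
    have := congrFun (congrFun (hk s) 0) 1; simpa using this
  have k10 : kk a s 1 0 = sin s * J 1 0 := by
    have := congrFun (congrFun (hk s) 1) 0; simpa using this
  have k11 : kk a s 1 1 = cos s - sin s * J 0 0 := by
    have := congrFun (congrFun (hk s) 1) 1; simpa [j3, sub_eq_add_neg] using this
  refine ⟨s, A - C * (2 * κ) * cos s, C * (2 * κ), ?_, ?_⟩
  · have : tr (u * kk a s) = 1 := by
      simp only [tr, basic_mul, k00, k01, k10, k11, u3]
      linear_combination hs2 - sin s * hκ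
    rw [ell, this]; norm_num
  · apply xp_ext <;>
      simp only [Matrix.add_apply, Matrix.smul_apply, xp_tl00, xp_tl01, xp_tl10, xp_tl11,
        smul_eq_mul, basic_mul, k00, k01, k10, k11, u3, x3]
    · linear_combination e0 - C * ((u 0 1 * J 1 0 - u 1 0 * J 0 1) / 2) * hs2
    · linear_combination e1 - C * (u 0 0 * J 0 1 - u 0 1 * J 0 0) * hs2
    · linear_combination e2 - C * (u 1 0 * J 0 0 - u 0 0 * J 1 0) * hs2
    · linear_combination -e0 + C * ((u 0 1 * J 1 0 - u 1 0 * J 0 1) / 2) * hs2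

theorem xp_cyc (A B C Z : Mat) : (A * (C * Z * B)).trace = (Z * (B * A * C)).trace := by
  rw [mul_assoc C, ← mul_assoc A, Matrix.trace_mul_comm, mul_assoc Z, mul_assoc B]

theorem two_dir {a b : G} (ha : ell a) (hc : cm a b ≠ 1) {α β : Mat} (hα : α.trace = 0)
    (h : dd a b α β = 0) : ∃ s₁ s₂ r₁ r₂ : ℝ, ell (b * kk a s₁) ∧ ell (b * kk a s₂) ∧
      α = r₁ • Jm (b * kk a s₁) + r₂ • Jm (b * kk a s₂) := by
  obtain ⟨s₁, h₁⟩ := exists_traceless b ha
  have h1 := congrArg (fun Z : Mat => ((a : Mat) * Z).trace) (xp_ad_zero h)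
  simp only [mul_add, mul_sub, xp_mul_ad, Matrix.trace_add, Matrix.trace_sub, mul_zero,
    Matrix.trace_zero] at h1
  have hcm := cm_hm1 (HM1.f1 a b s₁ ha)
  dsimp only at hcm
  have hcj : b * kk a s₁ * a * (b * kk a s₁)⁻¹ = b * a * b⁻¹ := by
    rw [mul_assoc b, ← kk_comm]; group
  have e1 : ((a : Mat) * ad b⁻¹ α).trace = (α * (b * a * b⁻¹ : G)).trace := by
    rw [ad, inv_inv, Matrix.SpecialLinearGroup.coe_mul, Matrix.SpecialLinearGroup.coe_mul]
    exact xp_cyc _ _ _ _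
  have e2 : ((a : Mat) * α).trace = (α * a).trace := Matrix.trace_mul_comm _ _
  have e3 : ((a : Mat) * β).trace = (β * a).trace := Matrix.trace_mul_comm _ _
  have e4 : (α * (b * kk a s₁ * a * (b * kk a s₁)⁻¹ : G)).trace = (α * a).trace := by
    rw [hcj]; linarith
  have e5 : 2 < tr (cm a (b * kk a s₁)) := by rw [hcm]; exact ell_kappa ha hc
  obtain ⟨s, r₁, r₂, he, e⟩ := xp_plane ha h₁ e5 hα e4
  have he1 : ell (b * kk a s₁) := by rw [ell, h₁]; norm_num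
  rw [mul_assoc, ← kk_add] at he e
  obtain ⟨σ₁, -, t₁⟩ := xp_tl he1
  obtain ⟨σ₂, -, t₂⟩ := xp_tl he
  exact ⟨s₁, s₁ + s, r₁ * σ₁, r₂ * σ₂, he1, he, by rw [mul_smul, mul_smul, ← t₁, ← t₂, e]⟩

end Pool.Agent.MP_596265_gt.Erg

/-! The circle test. -/

namespace Pool.Agent.MP_596265_gt.Erg

open Real Filter Topology MeasureTheory Set

variable {g : ℕ}

theorem yc_J {J : Mat} (h0 : J.trace = 0) (h1 : J * J = -1) :
    J 1 1 = -J 0 0 ∧ J 0 0 ^ 2 + J 0 1 * J 1 0 = -1 := by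
  have e := congrFun (congrFun h1 0) 0
  rw [Matrix.trace_fin_two] at h0
  simp only [Matrix.mul_apply, Fin.sum_univ_two, Matrix.neg_apply, Matrix.one_apply_eq] at e
  exact ⟨by linarith, by linarith⟩

theorem yc_id (u x : Mat) {J : Mat} (h0 : J.trace = 0) (h1 : J * J = -1) :
    (u * x).trace - (u * J * x * J).trace = u.trace * x.trace - (u * J).trace * (x * J).trace ∧
    ((u * x).trace + (u * J * x * J).trace) ^ 2 + ((u * J * x).trace - (u * x * J).trace) ^ 2 =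
      (u.trace ^ 2 + (u * J).trace ^ 2 - 4 * u.det) *
        (x.trace ^ 2 + (x * J).trace ^ 2 - 4 * x.det) := by
  obtain ⟨e1, e2⟩ := yc_J h0 h1
  have hc : J 1 0 ≠ 0 := fun h => by rw [h] at e2; linarith only [sq_nonneg (J 0 0), e2]
  have e3 : J 0 1 = -(1 + J 0 0 ^ 2) / J 1 0 := by field_simp; linarith
  simp only [Matrix.trace_fin_two, Matrix.mul_apply, Fin.sum_univ_two, Matrix.det_fin_two, e1, e3]
  generalize J 0 0 = a at *
  generalize J 1 0 = c at *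
  constructor <;> field_simp <;> ring

theorem yc_null {ν J : Mat} (h0 : J.trace = 0) (h1 : J * J = -1) (hd : ν.det = 0)
    (ha : ν.trace = 0) (hb : (ν * J).trace = 0) : ν = 0 := by
  obtain ⟨e1, e2⟩ := yc_J h0 h1
  have hc : J 1 0 ≠ 0 := fun h => by rw [h] at e2; linarith only [sq_nonneg (J 0 0), e2]
  have hc' : J 0 1 ≠ 0 := fun h => by rw [h] at e2; linarith only [sq_nonneg (J 0 0), e2]
  simp only [Matrix.trace_fin_two, Matrix.mul_apply, Fin.sum_univ_two, Matrix.det_fin_two, e1]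
    at hd ha hb
  have e4 : ν 1 1 = -ν 0 0 := by linarith only [ha]
  rw [e4] at hd hb
  have e5 : (ν 0 1 * J 1 0 - ν 1 0 * J 0 1) ^ 2 + (2 * ν 0 0) ^ 2 = 0 := by
    linear_combination (ν 0 1 * J 1 0 + ν 1 0 * J 0 1 - 2 * ν 0 0 * J 0 0) * hb +
      4 * J 0 1 * J 1 0 * hd + 4 * ν 0 0 ^ 2 * e2
  have e6 : ν 0 0 = 0 := by nlinarith only [e5]
  have e7 : ν 0 1 * J 1 0 - ν 1 0 * J 0 1 = 0 := by
    rw [e6] at e5; exact pow_eq_zero_iff (two_ne_zero) |>.1 (by linarith only [e5])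
  rw [e6] at hb e4
  have e8 : ν 0 1 = 0 := (mul_eq_zero.1 (by linarith only [hb, e7] : ν 0 1 * J 1 0 = 0)).resolve_right hc
  have e9 : ν 1 0 = 0 := (mul_eq_zero.1 (by linarith only [hb, e7] : ν 1 0 * J 0 1 = 0)).resolve_right hc'
  ext i j
  fin_cases i <;> fin_cases j <;> simp [e6, e8, e9, e4]

theorem yc_zero {P Q R : ℝ} (h : P ^ 2 < Q ^ 2 + R ^ 2) :
    ∃ t, P + Q * (cos t ^ 2 - sin t ^ 2) + R * (2 * sin t * cos t) = 0 := by
  have hρ : 0 < Q ^ 2 + R ^ 2 := lt_of_le_of_lt (sq_nonneg P) h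
  have hD := sq_sqrt (sub_pos.2 h).le
  generalize √(Q ^ 2 + R ^ 2 - P ^ 2) = D at hD
  obtain ⟨r, a, hr, h1, h2⟩ := basic_polar ((-P * Q + R * D) / (Q ^ 2 + R ^ 2))
    ((-P * R - Q * D) / (Q ^ 2 + R ^ 2))
  have e : r ^ 2 = 1 := by
    have e0 : r ^ 2 = (r * cos (π * a)) ^ 2 + (r * sin (π * a)) ^ 2 := by
      linear_combination (-r ^ 2) * sin_sq_add_cos_sq (π * a)
    rw [e0, ← h1, ← h2]
    field_simp
    linear_combination (Q ^ 2 + R ^ 2) * hD
  have e1 : r = 1 := by nlinarith only [hr, e]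
  rw [e1, one_mul] at h1 h2
  refine ⟨π * a / 2, ?_⟩
  rw [← cos_two_mul', ← sin_two_mul, mul_div_cancel₀ _ two_ne_zero, ← h1, ← h2]
  field_simp
  ring

theorem yc_key {p : G} (hp : ell p) (u x : G) (h : ∀ t, ¬ ell (u * cj (kk p t) x)) :
    ((u : Mat).trace * ((x : Mat) * Jm p).trace + ((u : Mat) * Jm p).trace * (x : Mat).trace) ^ 2 ≤
      4 * ((u : Mat).trace ^ 2 + ((u : Mat) * Jm p).trace ^ 2) +
        4 * ((x : Mat).trace ^ 2 + ((x : Mat) * Jm p).trace ^ 2) := by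
  obtain ⟨e1, e2⟩ := yc_id (u : Mat) (x : Mat) (Jm_trace p) (Jm_sq hp)
  rw [u.det_coe, x.det_coe] at e2
  by_contra hn
  obtain ⟨t, ht⟩ := yc_zero
    (P := (((u : Mat) * x).trace - ((u : Mat) * Jm p * x * Jm p).trace) / 2)
    (Q := (((u : Mat) * x).trace + ((u : Mat) * Jm p * x * Jm p).trace) / 2)
    (R := (((u : Mat) * Jm p * x).trace - ((u : Mat) * x * Jm p).trace) / 2) (by
      rw [div_pow, div_pow, div_pow, ← add_div, e2, e1]
      rw [not_le] at hn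
      linarith only [hn])
  apply h t
  have e : tr (u * cj (kk p t) x) = 0 := by
    rw [tr_eq, cj, ← kk_neg]
    simp only [Matrix.SpecialLinearGroup.coe_mul, kk_coe hp, cos_neg, sin_neg, Matrix.mul_add,
      Matrix.add_mul, Matrix.mul_smul, Matrix.smul_mul, Matrix.mul_one, Matrix.one_mul,
      Matrix.trace_add, Matrix.trace_smul, smul_eq_mul, ← Matrix.mul_assoc]
    linear_combination ht - (((u : Mat) * x).trace - ((u : Mat) * Jm p * x * Jm p).trace) / 2 *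
      sin_sq_add_cos_sq t * (-1)
  rw [ell, e, abs_zero]
  norm_num

theorem yc_hyp {w : G} (h : 2 < |tr w|) : ∃ (l : ℝ) (P N : Mat), 1 < |l| ∧ P + N = 1 ∧ P.det = 0 ∧
    P ≠ 0 ∧ ∀ n : ℤ, ((w ^ n : G) : Mat) = l ^ n • P + l ^ (-n) • N := by
  have h4 : 0 < tr w ^ 2 - 4 := by have := sq_abs (tr w); nlinarith only [h, this]
  obtain ⟨l, hl, e⟩ : ∃ l : ℝ, 1 < |l| ∧ l ^ 2 - tr w * l + 1 = 0 := by
    have hD := sq_sqrt h4.le
    have h0 := sqrt_nonneg (tr w ^ 2 - 4)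
    generalize √(tr w ^ 2 - 4) = D at hD h0
    rcases lt_abs.1 h with h | h
    · exact ⟨(tr w + D) / 2, lt_abs.2 (Or.inl (by linarith only [h0, h])), by linear_combination hD / 4⟩
    · exact ⟨(tr w - D) / 2, lt_abs.2 (Or.inr (by linarith)), by linear_combination hD / 4⟩
  have l0 : l ≠ 0 := fun h => by rw [h, abs_zero] at hl; linarith
  have l1 : l ^ 2 - 1 ≠ 0 := by have := sq_abs l; nlinarith only [hl, this]
  have hd := basic_det w
  unfold tr at e
  obtain ⟨P, hP⟩ : ∃ P : Mat, P = (l ^ 2 - 1)⁻¹ • (l • (w : Mat) - 1) := ⟨_, rfl⟩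
  obtain ⟨N, hN⟩ : ∃ N : Mat, N = (l ^ 2 - 1)⁻¹ • (l ^ 2 • (1 : Mat) - l • (w : Mat)) := ⟨_, rfl⟩
  have p1 : P * (w : Mat) = l • P := by
    rw [hP, Matrix.smul_mul, smul_comm l]
    congr 1
    ext i j
    fin_cases i <;> fin_cases j <;> simp only [Fin.zero_eta, Fin.isValue, Matrix.mul_apply, Matrix.sub_apply, Matrix.smul_apply, smul_eq_mul, Fin.sum_univ_two, Matrix.one_apply_eq, ne_eq, zero_ne_one, not_false_eq_true, Matrix.one_apply_ne, sub_zero, Fin.mk_one, one_ne_zero]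
    · linear_combination (-w 0 0) * e - l * hd
    · linear_combination (-w 0 1) * e
    · linear_combination (-w 1 0) * e
    · linear_combination (-w 1 1) * e - l * hd
  have n1 : N * (w : Mat) = l⁻¹ • N := by
    rw [hN, Matrix.smul_mul, smul_comm l⁻¹]
    congr 1
    ext i j
    fin_cases i <;> fin_cases j <;> simp only [Fin.zero_eta, Fin.isValue, Matrix.mul_apply, Matrix.sub_apply, Matrix.smul_apply, smul_eq_mul, Fin.sum_univ_two, Matrix.one_apply_eq, mul_one, ne_eq, zero_ne_one, not_false_eq_true, Matrix.one_apply_ne, mul_zero, zero_sub, neg_mul, Fin.mk_one, mul_neg, one_ne_zero] <;> field_simp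
    · linear_combination (w 0 0) * e + l * hd
    · linear_combination (w 0 1) * e
    · linear_combination (w 1 0) * e
    · linear_combination (w 1 1) * e + l * hd
  have ww : (w : Mat) * ((w⁻¹ : G) : Mat) = 1 := by
    rw [← Matrix.SpecialLinearGroup.coe_mul, mul_inv_cancel]; rfl
  have p2 : P * ((w⁻¹ : G) : Mat) = l⁻¹ • P := by
    have := congrArg (fun Z => l⁻¹ • (Z * ((w⁻¹ : G) : Mat))) p1
    simp only [Matrix.mul_assoc, ww, Matrix.mul_one, Matrix.smul_mul, smul_smul,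
      inv_mul_cancel₀ l0, one_smul] at this
    exact this.symm
  have n2 : N * ((w⁻¹ : G) : Mat) = l • N := by
    have := congrArg (fun Z => l • (Z * ((w⁻¹ : G) : Mat))) n1
    simp only [Matrix.mul_assoc, ww, Matrix.mul_one, Matrix.smul_mul, smul_smul,
      mul_inv_cancel₀ l0, one_smul] at this
    exact this.symm
  have s : P + N = 1 := by
    rw [hP, hN, ← smul_add]
    have : l • (w : Mat) - 1 + (l ^ 2 • (1 : Mat) - l • (w : Mat)) = (l ^ 2 - 1) • (1 : Mat) := by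
      rw [sub_smul, one_smul]; abel
    rw [this, smul_smul, inv_mul_cancel₀ l1, one_smul]
  refine ⟨l, P, N, hl, s, ?_, fun h0 => ?_, fun n => ?_⟩
  · rw [hP, Matrix.det_smul, Matrix.det_fin_two]
    simp only [Fintype.card_fin, inv_pow, Fin.isValue, Matrix.sub_apply, Matrix.smul_apply, smul_eq_mul, Matrix.one_apply_eq, ne_eq, zero_ne_one, not_false_eq_true, Matrix.one_apply_ne, sub_zero, one_ne_zero, mul_eq_zero, inv_eq_zero, OfNat.ofNat_ne_zero, pow_eq_zero_iff]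
    right
    linear_combination e + l ^ 2 * hd
  · rw [h0, zero_add] at s
    rw [s, Matrix.one_mul] at n1
    rw [n1] at hd
    simp only [Fin.isValue, Matrix.smul_apply, Matrix.one_apply_eq, smul_eq_mul, mul_one, ne_eq, zero_ne_one, not_false_eq_true, Matrix.one_apply_ne, mul_zero, one_ne_zero, sub_zero] at hd
    apply l1
    field_simp at hd
    linarith only [hd]
  · induction n using Int.induction_on with
    | zero => simp [s]
    | succ n ih =>
      rw [zpow_add_one, Matrix.SpecialLinearGroup.coe_mul, ih, Matrix.add_mul, Matrix.smul_mul,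
        Matrix.smul_mul, p1, n1, smul_smul, smul_smul, zpow_add_one₀ l0, neg_add', zpow_sub_one₀ l0]
    | pred n ih =>
      rw [zpow_sub_one, Matrix.SpecialLinearGroup.coe_mul, ih, Matrix.add_mul, Matrix.smul_mul,
        Matrix.smul_mul, p2, n2, smul_smul, smul_smul, zpow_sub_one₀ l0, neg_sub', sub_neg_eq_add,
        zpow_add_one₀ l0]

theorem yc_lim {l p q a a' b b' C : ℝ} (hl : 1 < |l|)
    (h : ∀ n : ℕ, (l ^ (n : ℤ) * p + l ^ (-(n : ℤ)) * q) ^ 2 ≤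
      4 * ((l ^ (n : ℤ) * a + l ^ (-(n : ℤ)) * a') ^ 2 + (l ^ (n : ℤ) * b + l ^ (-(n : ℤ)) * b') ^ 2) + C) :
    p ^ 2 ≤ 4 * (a ^ 2 + b ^ 2) := by
  have l0 : l ≠ 0 := fun h => by rw [h, abs_zero] at hl; linarith
  have t : Tendsto (fun n : ℕ => l⁻¹ ^ n) atTop (𝓝 0) :=
    tendsto_pow_atTop_nhds_zero_of_abs_lt_one (by rw [abs_inv]; exact inv_lt_one_of_one_lt₀ hl)
  have c : Continuous fun e : ℝ =>
      4 * ((a + e ^ 2 * a') ^ 2 + (b + e ^ 2 * b') ^ 2) + C * e ^ 2 - (p + e ^ 2 * q) ^ 2 := by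
    fun_prop
  have := ge_of_tendsto' ((c.tendsto 0).comp t) (b := 0) fun n => by
    have h1 := h n
    have h2 : l ^ n * l⁻¹ ^ n = 1 := by rw [← mul_pow, mul_inv_cancel₀ l0, one_pow]
    rw [zpow_neg, zpow_natCast, ← inv_pow] at h1
    simp only [Function.comp]
    generalize l⁻¹ ^ n = e at *
    generalize l ^ n = f at *
    have h3 := mul_le_mul_of_nonneg_left h1 (sq_nonneg e)
    have k : ∀ y z : ℝ, e ^ 2 * (f * y + e * z) ^ 2 = (y + e ^ 2 * z) ^ 2 := fun y z => by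
      rw [← mul_pow]; congr 1; linear_combination y * h2
    have k1 := k p q
    have k2 := k a a'
    have k3 := k b b'
    linarith
  simp at this
  linarith

theorem yc_bdd {l p q C : ℝ} (hl : 1 < |l|) (h : ∀ n : ℤ, (l ^ n * p + l ^ (-n) * q) ^ 2 ≤ C) :
    p = 0 ∧ q = 0 := by
  have h1 := yc_lim (p := p) (q := q) (a := 0) (a' := 0) (b := 0) (b' := 0) (C := C) hl
    fun n => by simpa only [zpow_natCast, zpow_neg, mul_zero, add_zero, ne_eq, OfNat.ofNat_ne_zero, not_false_eq_true, zero_pow, zero_add] using h n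
  have h2 := yc_lim (p := q) (q := p) (a := 0) (a' := 0) (b := 0) (b' := 0) (C := C) hl
    fun n => by have := h (-n); rw [neg_neg, add_comm] at this; simpa only [zpow_natCast, zpow_neg, mul_zero, add_zero, ne_eq, OfNat.ofNat_ne_zero, not_false_eq_true, zero_pow, zero_add, ge_iff_le] using this
  exact ⟨by nlinarith only [h1], by nlinarith only [h2]⟩

theorem yc_side {J : Mat} (h0 : J.trace = 0) (h1 : J * J = -1) {A₁ A₂ : Set G} (n₁ : A₁.Nonempty)
    (h₁ : ∀ u ∈ A₁, ∃ w, 2 < |tr w| ∧ ∀ n : ℤ, u * w ^ n ∈ A₁)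
    (h₂ : ∀ x ∈ A₂, ∃ w, 2 < |tr w| ∧ ∀ n : ℤ, x * w ^ n ∈ A₂)
    (h : ∀ u ∈ A₁, ∀ x ∈ A₂,
      ((u : Mat).trace * ((x : Mat) * J).trace + ((u : Mat) * J).trace * (x : Mat).trace) ^ 2 ≤
        4 * ((u : Mat).trace ^ 2 + ((u : Mat) * J).trace ^ 2) +
          4 * ((x : Mat).trace ^ 2 + ((x : Mat) * J).trace ^ 2)) :
    ∃ a b : ℝ, (a ≠ 0 ∨ b ≠ 0) ∧
      (∀ x ∈ A₂, a * ((x : Mat) * J).trace + b * (x : Mat).trace = 0) ∧
      ∀ c d : ℝ, (∀ u ∈ A₁, c * ((u : Mat) * J).trace + d * (u : Mat).trace = 0) →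
        c * b + d * a = 0 := by
  have dec : ∀ (u w : G) (l : ℝ) (P N : Mat),
      (∀ n : ℤ, ((w ^ n : G) : Mat) = l ^ n • P + l ^ (-n) • N) → ∀ n : ℤ,
      ((u * w ^ n : G) : Mat).trace = l ^ n * ((u : Mat) * P).trace + l ^ (-n) * ((u : Mat) * N).trace ∧
      (((u * w ^ n : G) : Mat) * J).trace =
        l ^ n * ((u : Mat) * P * J).trace + l ^ (-n) * ((u : Mat) * N * J).trace := by
    intro u w l P N e n
    simp only [Matrix.SpecialLinearGroup.coe_mul, e, Matrix.mul_add, Matrix.add_mul,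
      Matrix.mul_smul, Matrix.smul_mul, Matrix.trace_add, Matrix.trace_smul, smul_eq_mul, and_self]
  obtain ⟨u, hu⟩ := n₁
  obtain ⟨w, hw, hn⟩ := h₁ u hu
  obtain ⟨l, P, N, hl, -, hd, hP, e⟩ := yc_hyp hw
  have bd : ∀ x ∈ A₂, (((u : Mat) * P).trace * ((x : Mat) * J).trace +
      ((u : Mat) * P * J).trace * (x : Mat).trace) ^ 2 ≤
        4 * (((u : Mat) * P).trace ^ 2 + ((u : Mat) * P * J).trace ^ 2) := fun x hx => by
    refine yc_lim (q := ((u : Mat) * N).trace * ((x : Mat) * J).trace +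
      ((u : Mat) * N * J).trace * (x : Mat).trace) (a' := ((u : Mat) * N).trace)
      (b' := ((u : Mat) * N * J).trace)
      (C := 4 * ((x : Mat).trace ^ 2 + ((x : Mat) * J).trace ^ 2)) hl fun n => ?_
    have := h _ (hn n) x hx
    rw [(dec u w l P N e n).1, (dec u w l P N e n).2] at this
    refine le_of_eq_of_le ?_ this
    ring
  refine ⟨((u : Mat) * P).trace, ((u : Mat) * P * J).trace, ?_, fun x hx => ?_, fun c d hc => ?_⟩
  · by_contra hz
    push Not at hz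
    have z := yc_null h0 h1 (by rw [Matrix.det_mul, hd, mul_zero]) hz.1 hz.2
    apply hP
    have := congrArg (fun Z => ((u⁻¹ : G) : Mat) * Z) z
    simp only [← Matrix.mul_assoc, ← Matrix.SpecialLinearGroup.coe_mul, inv_mul_cancel,
      Matrix.mul_zero] at this
    simpa using this
  · obtain ⟨w', hw', hn'⟩ := h₂ x hx
    obtain ⟨m, P', N', hm, s, -, -, e'⟩ := yc_hyp hw'
    obtain ⟨z1, z2⟩ := yc_bdd (l := m)
      (p := ((u : Mat) * P).trace * ((x : Mat) * P' * J).trace +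
        ((u : Mat) * P * J).trace * ((x : Mat) * P').trace)
      (q := ((u : Mat) * P).trace * ((x : Mat) * N' * J).trace +
        ((u : Mat) * P * J).trace * ((x : Mat) * N').trace) hm fun n => by
      have := bd _ (hn' n)
      rw [(dec x w' m P' N' e' n).1, (dec x w' m P' N' e' n).2] at this
      refine le_of_eq_of_le ?_ this
      ring
    obtain ⟨d1, d2⟩ := dec x w' m P' N' e' 0
    simp only [zpow_zero, mul_one, neg_zero, one_mul] at d1 d2
    rw [d1, d2]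
    linear_combination z1 + z2
  · refine (yc_bdd (l := l) (C := 0)
      (q := c * ((u : Mat) * N * J).trace + d * ((u : Mat) * N).trace) hl fun n => ?_).1
    have := hc _ (hn n)
    rw [(dec u w l P N e n).1, (dec u w l P N e n).2] at this
    refine le_of_eq (pow_eq_zero_iff two_ne_zero |>.2 ?_)
    linear_combination this

theorem s2 {p : G} (hp : ell p) {A₁ A₂ : Set G} (n₁ : A₁.Nonempty) (n₂ : A₂.Nonempty)
    (h₁ : ∀ u ∈ A₁, ∃ w, 2 < |tr w| ∧ ∀ n : ℤ, u * w ^ n ∈ A₁)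
    (h₂ : ∀ x ∈ A₂, ∃ w, 2 < |tr w| ∧ ∀ n : ℤ, x * w ^ n ∈ A₂)
    (h : ∀ u ∈ A₁, ∀ x ∈ A₂, ∀ t, ¬ ell (u * cj (kk p t) x)) :
    ∃ a b : ℝ, (a ≠ 0 ∨ b ≠ 0) ∧ (∀ u ∈ A₁, ((u : Mat) * (a • (1 : Mat) + b • Jm p)).trace = 0) ∧
      ∀ x ∈ A₂, ((x : Mat) * (a • (1 : Mat) - b • Jm p)).trace = 0 := by
  have k := fun u hu x hx => yc_key hp u x (h u hu x hx)
  obtain ⟨a, b, hab, e, f⟩ := yc_side (Jm_trace p) (Jm_sq hp) n₁ h₁ h₂ k
  obtain ⟨c, d, hcd, e', -⟩ := yc_side (Jm_trace p) (Jm_sq hp) n₂ h₂ h₁ fun x hx u hu => by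
    have := k u hu x hx
    linarith
  have z := f c d e'
  refine ⟨b, -a, hab.symm.imp id neg_ne_zero.2, fun u hu => ?_, fun x hx => ?_⟩
  · simp only [Matrix.mul_add, Matrix.mul_smul, Matrix.mul_one, Matrix.trace_add,
      Matrix.trace_smul, smul_eq_mul]
    have y := e' u hu
    rcases hcd with hc | hc
    · apply mul_left_cancel₀ hc
      linear_combination (u : Mat).trace * z - a * y
    · apply mul_left_cancel₀ hc
      linear_combination b * y - ((u : Mat) * Jm p).trace * z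
  · simp only [Matrix.mul_sub, Matrix.mul_smul, Matrix.mul_one, Matrix.trace_sub,
      Matrix.trace_smul, smul_eq_mul]
    linear_combination e x hx

end Pool.Agent.MP_596265_gt.Erg

/-! From a separating elliptic curve to a non-separating one. -/

namespace Pool.Agent.MP_596265_gt.Erg

open Real Filter Topology MeasureTheory Set

variable {g : ℕ}

theorem Gn.act {M : Tup g} (h : Gn M) {ψ : Fr g ≃* Fr g} (hψ : AutR ψ) : Gn (act ψ M) := by
  intro φ hφ
  rw [← act_trans]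
  exact h _ (hφ.trans hψ)

theorem yd_pre_one [NeZero g] (M : Tup g) : pre M 1 = hc M 0 := by
  simpa using pre_succ M 0

theorem yd_hc_set (M : Tup g) (j : Fin g) (x y : G) : hc (setH M j x y) j = cm x y := by
  simp [hc]

theorem yd_hc_ne (M : Tup g) {i j : Fin g} (x y : G) (h : i ≠ j) :
    hc (setH M j x y) i = hc M i := by
  rw [hc, ha_setH_ne _ _ _ h, hb_setH_ne _ _ _ h, hc]

theorem Gn.hc_ne [NeZero g] (hg : 3 ≤ g) {M : Tup g} (h : Gn M) (j : Fin g) :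
    tr (hc M j) ≠ 2 := by
  intro e
  rcases eq_or_ne j 0 with rfl | hj
  · refine (h _ autR_refl).2 1 one_pos (by omega) ?_
    rw [act_refl, yd_pre_one, e]; norm_num
  · obtain ⟨ψ, hψ, hM⟩ := au_swap (Fin.pos_iff_ne_zero.2 hj)
    refine (h _ hψ).2 1 one_pos (by omega) ?_
    rw [hM, yd_pre_one, yd_hc_ne _ _ _ hj.symm, yd_hc_set, cm_cj, tr_cj, ← hc, e]; norm_num

theorem Gn.two_ne [NeZero g] (hg : 3 ≤ g) {M : Tup g} (h : Gn M) {j : Fin g} (hj : j ≠ 0) :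
    cj (pre M j) (hc M j) * hc M 0 ≠ 1 := by
  intro e
  have h1 : 1 < g := by omega
  have two (N : Tup g) : pre N 2 = hc N 0 * hc N ⟨1, h1⟩ := by
    rw [← yd_pre_one]; exact pre_succ N ⟨1, h1⟩
  have n1 : (0 : Fin g) ≠ ⟨1, h1⟩ := by simp [Fin.ext_iff]
  rcases eq_or_ne j ⟨1, h1⟩ with rfl | hj1
  · refine (h _ autR_refl).2 2 two_pos (by omega) ?_
    have : hc M 0 * hc M ⟨1, h1⟩ = 1 := by
      rw [← e, yd_pre_one, cj]; group
    rw [act_refl, two, this, tr_one]; norm_num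
  · have hlt : (⟨1, h1⟩ : Fin g) < j := by
      rw [Fin.lt_def]
      have := Fin.val_ne_of_ne hj
      have := Fin.val_ne_of_ne hj1
      simp only [Fin.val_zero] at *
      omega
    obtain ⟨ψ, hψ, hM⟩ := au_swap hlt
    refine (h _ hψ).2 2 two_pos (by omega) ?_
    have : hc M 0 * cj (mid M 1 j) (hc M j) = 1 := by
      rw [← e, mid, yd_pre_one, cj, cj]; group
    rw [hM, two, yd_hc_ne _ _ _ hj.symm, yd_hc_ne _ _ _ hj1.symm, yd_hc_ne _ _ _ n1, yd_hc_set,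
      cm_cj, ← hc, this, tr_one]
    norm_num

theorem gn_uu [NeZero g] (hg : 3 ≤ g) {e : ℤ} {M : Tup g} (h : Gn M) (hM : M ∈ X g e)
    (he : ell (ha M 0)) : M ∈ UU g e := by
  have n (j : Fin g) : hc M j ≠ 1 := fun e => h.hc_ne hg j (by rw [e, tr_one])
  exact ⟨hM, he, n 0, fun j hj => ⟨n j, h.two_ne hg hj⟩⟩

theorem ell_front [NeZero g] {M : Tup g} {k : Fin g} (h : ell (ha M k)) :
    ∃ ψ, AutR ψ ∧ ell (ha (act ψ M) 0) := by
  rcases eq_or_ne k 0 with rfl | hk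
  · exact ⟨_, autR_refl, by rwa [act_refl]⟩
  · obtain ⟨ψ, hψ, hM⟩ := au_swap (Fin.pos_iff_ne_zero.2 hk)
    exact ⟨ψ, hψ, by rwa [hM, ha_setH_ne _ _ _ hk.symm, ha_setH, ell_cj]⟩

theorem yd_mul {H : Type} [Group H] (k x y : H) : cj k (x * y) = cj k x * cj k y := by
  simp only [cj]; group
theorem yd_inv {H : Type} [Group H] (k x : H) : cj k x⁻¹ = (cj k x)⁻¹ := by
  simp only [cj]; group

theorem yd_nm_cj (k : G) {p q : G × G} (h : NM p q) :
    NM (cj k p.1, cj k p.2) (cj k q.1, cj k q.2) := by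
  induction h with
  | refl => exact Relation.ReflTransGen.refl
  | tail _ h2 ih =>
    refine ih.tail ?_
    cases h2 <;> simp only [yd_mul, yd_inv] <;> constructor

theorem yd_hyp {M : Tup g} (hG : Gn M) (hn : ∀ ψ, AutR ψ → ∀ k, ¬ ell (ha (act ψ M) k))
    {j : Fin g} {q : G × G} (h : NM (ha M j, hb M j) q) : 2 < |tr q.2⁻¹| := by
  obtain ⟨ψ, hψ, e⟩ := au_nm (h.trans (nm_inv q.1 q.2))
  have h1 := hn ψ hψ j
  have h2 := (hG ψ hψ).1 j
  rw [e, ha_setH] at h1 h2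
  exact lt_of_le_of_ne (not_lt.1 h1) h2.symm

theorem yd_adj (u : G) (a b : ℝ) {J : Mat} (hJ : J.trace = 0) :
    (((u⁻¹ : G) : Mat) * (a • (1 : Mat) - b • J)).trace =
      ((u : Mat) * (a • (1 : Mat) + b • J)).trace := by
  have i0 := basic_inv00 u
  have i1 := basic_inv01 u
  have i2 := basic_inv10 u
  have i3 := basic_inv11 u
  rw [Matrix.trace_fin_two] at hJ
  simp only [Matrix.trace_fin_two, Matrix.mul_apply, Fin.sum_univ_two, Matrix.add_apply,
    Matrix.sub_apply, Matrix.smul_apply, Matrix.one_apply_eq,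
    Matrix.one_apply_ne (show (0 : Fin 2) ≠ 1 by decide),
    Matrix.one_apply_ne (show (1 : Fin 2) ≠ 0 by decide), smul_eq_mul]
  rw [i0, i1, i2, i3]
  linear_combination (-b * (u 0 0 + u 1 1)) * hJ

theorem yd_alg {H : Type} [Group H] (k a c p x : H) :
    cj (cj k a) ((cj k a)⁻¹ * cj k c * cj ((cj k c)⁻¹ * p) x) =
      cj (cj p x * k) (c * a⁻¹ * cj k⁻¹ (cj p x)) := by
  simp only [cj]; group
theorem yd_p1 {H : Type} [Group H] (c x y : H) (n : ℤ) :
    c * x⁻¹ * cj x y⁻¹ ^ n = c * (x * y ^ n)⁻¹ := by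
  rw [cj, conj_zpow]; group
theorem yd_p2 {H : Type} [Group H] (p x y : H) (n : ℤ) :
    cj p x * cj p y⁻¹ ^ n = cj p (x * y ^ (-n)) := by
  rw [cj, cj, cj, conj_zpow]; group

/-- The trace of the first curve after a twist along `P_h`, handle moves and the mixing move. -/
theorem yd_mix [NeZero g] (M : Tup g) (j : Fin g) (hj : j ≠ 0) {k : G}
    (hk : pre M j * k = k * pre M j) {q r : G × G}
    (hq : NM (ha M 0, hb M 0) q) (hr : NM (ha M j, hb M j) r) :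
    ∃ ψ, AutR ψ ∧ tr (ha (act ψ (cjh M j k)) 0) =
      tr (hc M 0 * q.1⁻¹ * cj k⁻¹ (cj (pre M j) r.1)) := by
  have h0 : ((0 : Fin g) : ℕ) < j := Fin.pos_iff_ne_zero.2 hj
  have pN : pre (cjh M j k) j = pre M j := by
    rw [pre_cjh _ j.2.le, cj, ← hk, mul_inv_cancel_right]
  have a0 : ha (cjh M j k) 0 = cj k (ha M 0) := if_pos h0
  have b0 : hb (cjh M j k) 0 = cj k (hb M 0) := if_pos h0
  have aj : ha (cjh M j k) j = ha M j := if_neg (lt_irrefl _)
  have bj : hb (cjh M j k) j = hb M j := if_neg (lt_irrefl _)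
  generalize cjh M j k = N at *
  have cq : cm q.1 q.2 = hc M 0 := (cm_hm (nm_hm hq) :)
  obtain ⟨ψ₁, g₁, e₁⟩ := au_nm (M := N) (j := 0) (q := (cj k q.1, cj k q.2))
    (by rw [a0, b0]; exact yd_nm_cj k hq)
  obtain ⟨ψ₂, g₂, e₂⟩ := au_nm (M := act ψ₁ N) (j := j) (q := r)
    (by rw [e₁, ha_setH_ne _ _ _ hj, hb_setH_ne _ _ _ hj, aj, bj]; exact hr)
  obtain ⟨ψ₃, g₃, e₃⟩ := au_mix hj
  refine ⟨ψ₃.trans (ψ₂.trans ψ₁), g₃.trans (g₂.trans g₁), ?_⟩
  rw [act_trans, act_trans, e₃, ha_setH_ne _ _ _ hj.symm, ha_setH]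
  generalize act ψ₂ (act ψ₁ N) = L at *
  have c0 : hc L 0 = cj k (hc M 0) := by
    rw [e₂, yd_hc_ne _ _ _ hj.symm, e₁, yd_hc_set, cm_cj, cq]
  have pL : pre L j = pre M j := by
    rw [← pN]
    refine pre_congr j.2.le fun i hi => ?_
    rcases eq_or_ne i 0 with rfl | i0
    · rw [c0, hc, hc, a0, b0, cm_cj]
    · rw [e₂, yd_hc_ne _ _ _ (Fin.ne_of_val_ne hi.ne), e₁, yd_hc_ne _ _ _ i0]
  have l0 : ha L 0 = cj k q.1 := by rw [e₂, ha_setH_ne _ _ _ hj.symm, e₁, ha_setH]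
  have lj : ha L j = r.1 := by rw [e₂, ha_setH]
  rw [mid, yd_pre_one, c0, pL, l0, lj, yd_alg, tr_cj]

theorem yd_fin {c d : G} {Q : Mat} {s s' : ℝ} (hQ : Q ≠ 0) (hc : tr c ≠ 2)
    (e₁ : ((c⁻¹ : G) : Mat) * Q = s • (((c⁻¹ : G) : Mat) - 1))
    (e₂ : Q = s' • (((d⁻¹ : G) : Mat) - 1)) : d * c = 1 := by
  have u : (c : Mat) * ((c⁻¹ : G) : Mat) = 1 := by
    rw [← Matrix.SpecialLinearGroup.coe_mul, mul_inv_cancel]; rfl
  have e₃ : (c : Mat) * (((c⁻¹ : G) : Mat) * Q) = c * (s • (((c⁻¹ : G) : Mat) - 1)) := by rw [e₁]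
  rw [← Matrix.mul_assoc, u, Matrix.one_mul, Matrix.mul_smul, Matrix.mul_sub, u,
    Matrix.mul_one] at e₃
  have s0 : s ≠ 0 := by
    rintro rfl
    exact hQ (by rw [e₃, zero_smul])
  refine mul_eq_one_comm.1 (lemL (s := -(s⁻¹ * s')) ?_ hc)
  rw [neg_smul, mul_smul, ← e₂, e₃, smul_smul, inv_mul_cancel₀ s0, one_smul, neg_sub]

theorem yd_ne {p : G} (hp : ell p) {a b : ℝ} (hab : a ≠ 0 ∨ b ≠ 0) :
    a • (1 : Mat) - b • Jm p ≠ 0 := by
  intro e
  have t0 := congrArg Matrix.trace e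
  simp only [Matrix.trace_sub, Matrix.trace_smul, Jm_trace, Matrix.trace_one, Matrix.trace_zero,
    smul_eq_mul, Fintype.card_fin] at t0
  have a0 : a = 0 := by
    push_cast at t0; linarith
  rw [a0, zero_smul, zero_sub, neg_eq_zero, smul_eq_zero] at e
  have := congrFun (congrFun (Jm_sq hp) 0) 0
  rw [e.resolve_left (hab.resolve_left (not_not.2 a0))] at this
  simp at this

theorem yd_rat {p : G} (hp : ell p) (u v : G) {t : ℝ} (ht : ell (u * cj (kk p t) v)) :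
    ∃ s : ℚ, ell (u * cj (kk p s)⁻¹ v) := by
  have ck : Continuous fun s : ℝ => kk p s :=
    continuousOn_kk.comp_continuous (f := fun s : ℝ => (p, s)) (by fun_prop) fun _ => hp
  have cf : Continuous fun s : ℝ => u * ((kk p s)⁻¹ * v * (kk p s)⁻¹⁻¹) :=
    continuous_const.mul ((ck.inv.mul continuous_const).mul ck.inv.inv)
  exact Rat.denseRange_cast.exists_mem_open (isOpen_ell.preimage cf)
    ⟨-t, by rw [mem_preimage, ← kk_neg, neg_neg]; exact ht⟩

theorem sep_ell [NeZero g] (hg : 3 ≤ g) {M : Tup g} (hG : Gn M)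
    (hn : ∀ ψ, AutR ψ → ∀ k, ¬ ell (ha (act ψ M) k)) {h : ℕ} (h0 : 0 < h) (h1 : h < g)
    (he : ell (pre M h)) : ∃ (t : ℚ) (ψ : Fr g ≃* Fr g), AutR ψ ∧
      ell (ha (act ψ (sepf h t M)) 0) := by
  by_contra hc0
  obtain ⟨j, rfl⟩ : ∃ j : Fin g, (j : ℕ) = h := ⟨⟨h, h1⟩, rfl⟩
  have hj : j ≠ 0 := Fin.pos_iff_ne_zero.1 h0
  obtain ⟨a, b, hab, q₁, q₂⟩ := s2 he
    (A₁ := {u | ∃ q, NM (ha M 0, hb M 0) q ∧ u = hc M 0 * q.1⁻¹})
    (A₂ := {v | ∃ r, NM (ha M j, hb M j) r ∧ v = cj (pre M j) r.1})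
    ⟨_, _, Relation.ReflTransGen.refl, rfl⟩ ⟨_, _, Relation.ReflTransGen.refl, rfl⟩
    (by
      rintro _ ⟨q, hq, rfl⟩
      exact ⟨cj q.1 q.2⁻¹, by rw [tr_cj]; exact yd_hyp hG hn hq, fun n =>
        ⟨_, hq.trans (nm_pow q.1 q.2 n), yd_p1 _ _ _ _⟩⟩)
    (by
      rintro _ ⟨r, hr, rfl⟩
      exact ⟨cj (pre M j) r.2⁻¹, by rw [tr_cj]; exact yd_hyp hG hn hr, fun n =>
        ⟨_, hr.trans (nm_pow r.1 r.2 (-n)), yd_p2 _ _ _ _⟩⟩)
    (by
      rintro _ ⟨q, hq, rfl⟩ _ ⟨r, hr, rfl⟩ t ht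
      obtain ⟨s, hs⟩ := yd_rat he _ _ ht
      obtain ⟨ψ, hψ, e⟩ := yd_mix M j hj (kk_comm (pre M j) s) hq hr
      exact hc0 ⟨s, ψ, hψ, by rw [ell, sepf, e]; exact hs⟩)
  have c0 : cm (ha M 0) (hb M 0) ≠ 1 := fun e => hG.hc_ne hg 0 (by rw [hc, e, tr_one])
  have c1 : cm (cj (pre M j) (ha M j)) (cj (pre M j) (hb M j)) ≠ 1 := fun e =>
    hG.hc_ne hg j (by rw [← tr_cj (pre M j), hc, ← cm_cj, e, tr_one])
  have f₁ {q : G × G} (hq : NM (ha M 0, hb M 0) q) : ((q.1 : Mat) *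
      ((((hc M 0)⁻¹ : G) : Mat) * (a • (1 : Mat) - b • Jm (pre M j)))).trace = 0 := by
    rw [← q₁ _ ⟨q, hq, rfl⟩, ← yd_adj _ _ _ (Jm_trace _), mul_inv_rev, inv_inv,
      Matrix.SpecialLinearGroup.coe_mul, Matrix.mul_assoc]
  obtain ⟨s, e₁⟩ := ind3 c0 (f₁ Relation.ReflTransGen.refl :)
    (f₁ (Relation.ReflTransGen.single (NM1.l1 _ _)) :) (f₁ (nm_inv _ _) :)
  obtain ⟨s', e₂⟩ := ind3 c1 (q₂ _ ⟨_, Relation.ReflTransGen.refl, rfl⟩)
    (q₂ _ ⟨_, Relation.ReflTransGen.single (NM1.l1 _ _), (yd_mul _ _ _).symm⟩)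
    (q₂ _ ⟨_, nm_inv _ _, (yd_inv _ _).symm⟩)
  rw [cm_cj] at e₂
  exact hG.two_ne hg hj (yd_fin (yd_ne he hab) (hG.hc_ne hg 0) e₁ e₂)

end Pool.Agent.MP_596265_gt.Erg
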