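import Pool.Agent.MP_596265_gt.E2

attribute [-instance] AddMonoidHomClass.toZeroHomClass AddQuantale.instAddLeftMono
  MonTypeEquivalenceMon.monMonoid CommGroup.toDivisionCommMonoid littleWedderburn
  NonUnitalRingHomClass.toMulHomClass continuousSub_of_discreteTopology NumberField.to_charZero
  RKHS.instFunLike Semiring.toNonAssocSemiring MulZeroOneClass.toMulZeroClass
  NonUnitalRing.toNonUnitalNonAssocRing AddZero.toZero NormedRing.toRing Valued.toUniformSpace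
  IdemSemiring.toCanonicallyOrderedAdd MonoidWithZeroHomClass.toZeroHomClass
  AddQuantale.instAddRightMono AddGroupSeminormClass.toZeroHomClass
  NonUnitalAlgSemiHomClass.toMulHomClass instCoeTCOfCoe
  LinearOrderedCommMonoidWithZero.toPosMulStrictMono Group.IsPerfect.subsingleton_of_isMulCommutative
  DivisionSemiring.toSemiring NormedCommRing.toCommRing DivisionRing.toRing
  NonUnitalNormedCommRing.toNonUnitalCommRing SeminormedRing.toRing
  LieAdmissibleRing.toNonUnitalNonAssocRing IdemSemiring.toSemiring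
  NonAssocSemiring.toNonUnitalNonAssocSemiring GroupWithZero.toDivisionMonoid
  instIsLeftCancelMulOfMulLeftReflectLE Quantale.instMulRightMono EuclideanDomain.toCommRing
  SeminormedCommRing.toCommRing NonUnitalSeminormedCommRing.toNonUnitalCommRing
  AddGroupSeminormClass.toNonnegHomClass NonUnitalNonAssocCommSemiring.toNonUnitalNonAssocSemiring
  MonoidWithZero.toSemigroupWithZero NonUnitalRing.toNonUnitalSemiring

/-! Ergodicity, part 3: connectedness. -/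

/-! Connectedness of the set of first steps. -/

namespace Pool.Agent.MP_596265_gt.Erg

open Real Filter Topology MeasureTheory Set

variable {g : ℕ}

theorem rem_gt {U C : Set Gt} (hU : IsOpen U) (hc : IsPreconnected U) (hC : C.Countable) :
    IsPreconnected (U \ C) ∧ U ⊆ closure (U \ C) := by
  obtain ⟨Ξ, -⟩ := exists_xi
  obtain ⟨h1, h2⟩ := rem3 (hU.preimage Ξ.continuous) (Ξ.isPreconnected_preimage.2 hc)
    (hC.preimage Ξ.injective)
  rw [← preimage_sdiff] at h1 h2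
  refine ⟨Ξ.isPreconnected_preimage.1 h1, fun y hy => ?_⟩
  rw [← Ξ.preimage_closure] at h2
  have := h2 (show Ξ.symm y ∈ Ξ ⁻¹' U by simpa using hy)
  simpa only [mem_preimage, Homeomorph.apply_symm_apply] using this

theorem xc_inv_ap (y : Gt) (t : ℝ) : ap y (ap y⁻¹ t) = t := by
  rw [← ap_mul, mul_inv_cancel, map_one]; rfl

theorem xc_ap_inv (y : Gt) (t : ℝ) : ap y⁻¹ (ap y t) = t := by
  rw [← ap_mul, inv_mul_cancel, map_one]; rfl

theorem xc_back {y : Gt} {s t : ℝ} (h : ap y s = t) : ap y⁻¹ t = s := by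
  rw [← h, xc_ap_inv]

theorem xc_add (y : Gt) (t : ℝ) (h : ℕ) : ap y (t + (2 * h - 1)) = ap y t + (2 * h - 1) := by
  have := ap_add_int y t (2 * h - 1)
  push_cast at this
  exact this

theorem xc_sub (y : Gt) (t : ℝ) (h : ℕ) : ap y (t - (2 * h - 1)) = ap y t - (2 * h - 1) := by
  have := xc_add y (t - (2 * h - 1)) h
  rw [sub_add_cancel] at this
  linarith

theorem xc_th1 {y : Gt} : y ∈ Th 1 ↔ (∃ t, ap y t < t + 1) ∧ ∃ t, t - 1 < ap y t := by
  simp only [Th, mem_ofPred_eq, Nat.cast_one]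
  norm_num only []

theorem xc_mem {h : ℕ} {x y : Gt} : y⁻¹ * x ∈ Th h ↔
    (∃ t, ap x t - (2 * h - 1) < ap y t) ∧ ∃ t, ap y t < ap x t + (2 * h - 1) := by
  simp only [Th, mem_ofPred_eq, ap_mul]
  refine and_congr (exists_congr fun t => ?_) (exists_congr fun t => ?_)
  · rw [← (ap y).lt_iff_lt, xc_inv_ap, xc_add, sub_lt_iff_lt_add]
  · rw [← (ap y).lt_iff_lt, xc_inv_ap, xc_sub, sub_lt_iff_lt_add]

theorem xc_line {A B A' B' : Set ℝ} (hA : IsLowerSet A) (hA' : IsLowerSet A') (hB : IsUpperSet B)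
    (hB' : IsUpperSet B') (h1 : (A ∩ B).Nonempty) (h2 : (A ∩ B').Nonempty)
    (h3 : (A' ∩ B).Nonempty) (h4 : (A' ∩ B').Nonempty) :
    ((A ∩ B) ∩ (B' ∩ A')).Nonempty ∧ IsPreconnected ((A ∩ B) ∩ (B' ∩ A')) := by
  refine ⟨?_, ((hA.ordConnected.inter hB.ordConnected).inter
    (hB'.ordConnected.inter hA'.ordConnected)).isPreconnected⟩
  obtain ⟨a, a1, a2⟩ := h1
  obtain ⟨b, b1, b2⟩ := h2
  obtain ⟨c, c1, c2⟩ := h3
  obtain ⟨d, d1, d2⟩ := h4
  refine ⟨min (max a b) (max c d), ⟨?_, ?_⟩, ?_, ?_⟩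
  · exact hA (min_le_left _ _) (max_rec' (· ∈ A) a1 b1)
  · exact min_rec' (· ∈ B) (hB (le_max_left _ _) a2) (hB (le_max_left _ _) c2)
  · exact min_rec' (· ∈ B') (hB' (le_max_right _ _) b2) (hB' (le_max_right _ _) d2)
  · exact hA' (min_le_right _ _) (max_rec' (· ∈ A') c1 d1)

theorem xc_fib {h : ℕ} (hh : 1 ≤ h) {x : Gt} (h1 : ∃ t, ap x t < t + 2 * h)
    (h2 : ∃ t, t - 2 * h < ap x t) (w : Gt) :
    {θ : ℝ | zt θ * w ∈ Th 1 ∧ (zt θ * w)⁻¹ * x ∈ Th h}.Nonempty ∧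
      IsPreconnected {θ : ℝ | zt θ * w ∈ Th 1 ∧ (zt θ * w)⁻¹ * x ∈ Th h} := by
  have hh' : (1 : ℝ) ≤ h := by exact_mod_cast hh
  obtain ⟨t1, h1⟩ := h1
  obtain ⟨t2, h2⟩ := h2
  have e : {θ : ℝ | zt θ * w ∈ Th 1 ∧ (zt θ * w)⁻¹ * x ∈ Th h} =
      ({θ | ∃ t, ap w t + θ < t + 1} ∩ {θ | ∃ t, t - 1 < ap w t + θ}) ∩
      ({θ | ∃ t, ap x t - (2 * h - 1) < ap w t + θ} ∩
        {θ | ∃ t, ap w t + θ < ap x t + (2 * h - 1)}) := by
    ext θ
    simp only [mem_ofPred_eq, mem_inter_iff, xc_th1, xc_mem, ap_mul, ap_zt]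
  rw [e]
  refine xc_line (fun a b hab ⟨t, ht⟩ => ⟨t, by linarith only [hab, ht]⟩) (fun a b hab ⟨t, ht⟩ => ⟨t, by linarith only [hab, ht]⟩)
    (fun a b hab ⟨t, ht⟩ => ⟨t, by linarith⟩) (fun a b hab ⟨t, ht⟩ => ⟨t, by linarith⟩)
    ⟨-ap w 0, ⟨0, by linarith⟩, 0, by linarith⟩
    ⟨(ap x t1 - (2 * h - 1) + (t1 + 1)) / 2 - ap w t1, ⟨t1, by linarith only [h1]⟩, t1, by linarith⟩
    ⟨(ap x t2 + (2 * h - 1) + (t2 - 1)) / 2 - ap w t2, ⟨t2, by linarith⟩, t2, by linarith⟩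
    ⟨ap x 0 - ap w 0, ⟨0, by linarith⟩, 0, by linarith⟩

theorem lemC_gen {h : ℕ} (hh : 1 ≤ h) {x : Gt} (h1 : ∃ t, ap x t < t + 2 * h)
    (h2 : ∃ t, t - 2 * h < ap x t) : {y | y ∈ Th 1 ∧ y⁻¹ * x ∈ Th h}.Nonempty ∧
      IsPreconnected {y | y ∈ Th 1 ∧ y⁻¹ * x ∈ Th h} := by
  obtain ⟨Ξ, hΞ⟩ := exists_xi
  refine ⟨?_, ?_⟩
  · obtain ⟨θ, hθ⟩ := (xc_fib hh h1 h2 1).1
    exact ⟨_, hθ⟩
  have hN : IsOpen {y : Gt | y ∈ Th 1 ∧ y⁻¹ * x ∈ Th h} :=
    (isOpen_th 1).inter ((isOpen_th h).preimage (by fun_prop : Continuous fun y : Gt => y⁻¹ * x))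
  rw [← Ξ.isPreconnected_preimage]
  have hA := hN.preimage Ξ.continuous
  refine pc_fib (p := Prod.snd) (fun a ha => ?_) ?_ fun b => ?_
  · rw [hA.nhdsWithin_eq ha, map_snd_nhds]
    exact nhdsWithin_le_nhds
  · have : Prod.snd '' (Ξ ⁻¹' {y : Gt | y ∈ Th 1 ∧ y⁻¹ * x ∈ Th h}) = univ := by
      refine eq_univ_of_forall fun b => ?_
      obtain ⟨θ, hθ⟩ := (xc_fib hh h1 h2 (Ξ (0, b))).1
      exact ⟨(θ, b), by rw [mem_preimage, hΞ]; exact hθ, rfl⟩
    rw [this]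
    exact isPreconnected_univ
  · have := (xc_fib hh h1 h2 (Ξ (0, b))).2.image (fun θ => (θ, b)) (by fun_prop)
    convert this using 1
    ext ⟨θ, b'⟩
    constructor
    · rintro ⟨h3, rfl⟩
      exact ⟨θ, by rw [mem_preimage, hΞ] at h3; exact h3, rfl⟩
    · rintro ⟨θ', h3, h4⟩
      obtain ⟨rfl, rfl⟩ := Prod.mk.inj h4
      exact ⟨by rw [mem_preimage, hΞ]; exact h3, rfl⟩

theorem xc_star {f : ℝ → Prop} (r : ℝ) : IsPreconnected {t | ∀ s ∈ uIcc r t, f s} := by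
  refine isPreconnected_of_forall_pair fun a ha b hb => ⟨uIcc r a ∪ uIcc r b, ?_, ?_, ?_, ?_⟩
  · rintro t (ht | ht) s hs
    · exact ha s (uIcc_subset_uIcc_left ht hs)
    · exact hb s (uIcc_subset_uIcc_left ht hs)
  · exact Or.inl right_mem_uIcc
  · exact Or.inr right_mem_uIcc
  · exact isPreconnected_uIcc.union r left_mem_uIcc left_mem_uIcc isPreconnected_uIcc

theorem lemC_ext {u : Gt} (h0 : ∀ t, t ≤ ap u t) (h1 : ∃ t, ap u t < t + 1) :
    {y : Gt | (∃ t, ap y t < t) ∧ ∃ t, ap u t < ap y t}.Nonempty ∧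
      IsPreconnected {y : Gt | (∃ t, ap y t < t) ∧ ∃ t, ap u t < ap y t} := by
  obtain ⟨Pq, hPc, hP⟩ := exists_pq
  obtain ⟨D, hDc, hD, hD'⟩ := exists_dlt
  obtain ⟨r, hr⟩ := h1
  let J : Set ℝ := {t | ∀ s ∈ uIcc r t, ap u s < s + 1}
  let K : Set (ℝ × ℝ × ℝ × ℝ) := {v | 0 < v.1 ∧ v.1 < v.2.1 ∧ v.2.1 < v.2.2.1 ∧ v.2.2.1 < 1}
  let m : ℝ → ℝ → ℝ := fun t a => ap u t + a * (t + 1 - ap u t)
  let F : ℝ × (ℝ × ℝ × ℝ × ℝ) → Gt := fun z =>
    Pq (m z.1 z.2.1, m z.1 z.2.2.1) * D z.2.2.2.2 * (Pq (z.1, m z.1 z.2.2.2.1))⁻¹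
  have hK : Convex ℝ K := by
    rintro v ⟨v1, v2, v3, v4⟩ w ⟨w1, w2, w3, w4⟩ a b ha hb hab
    have aux : ∀ p q : ℝ, 0 < p → 0 < q → 0 < a * p + b * q := fun p q hp hq =>
      convex_Ioi (𝕜 := ℝ) (0 : ℝ) (mem_Ioi.2 hp) (mem_Ioi.2 hq) ha hb hab
    have c1 := aux _ _ v1 w1
    have c2 := aux _ _ (sub_pos.2 v2) (sub_pos.2 w2)
    have c3 := aux _ _ (sub_pos.2 v3) (sub_pos.2 w3)
    have c4 := aux _ _ (sub_pos.2 v4) (sub_pos.2 w4)
    simp only [K, mem_ofPred_eq, Prod.fst_add, Prod.snd_add, Prod.smul_fst, Prod.smul_snd,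
      smul_eq_mul]
    exact ⟨c1, by linarith only [c2], by linarith only [c3], by linarith only [hab, c4]⟩
  have key : ∀ z ∈ J ×ˢ K, ap u z.1 < m z.1 z.2.1 ∧ m z.1 z.2.1 < m z.1 z.2.2.1 ∧
      m z.1 z.2.2.1 < m z.1 z.2.2.2.1 ∧ m z.1 z.2.2.2.1 < z.1 + 1 := by
    rintro ⟨t, a, b, c, l⟩ ⟨hJ, k1, k2, k3, k4⟩
    have := sub_pos.2 (hJ t right_mem_uIcc)
    simp only [m] at *
    refine ⟨by nlinarith only [k1, this], by nlinarith only [k2, this], by nlinarith only [k3, this], by nlinarith only [k4, this]⟩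
  have hm : Continuous fun z : ℝ × ℝ => m z.1 z.2 := by
    have := (ap u).continuous
    simp only [m]
    fun_prop
  have hF : ContinuousOn F (J ×ˢ K) := by
    refine ContinuousOn.mul (ContinuousOn.mul (hPc.comp ?_ fun z hz => ?_) (by fun_prop))
      (hPc.comp ?_ fun z hz => ?_).inv
    · exact ((hm.comp (by fun_prop : Continuous fun z : ℝ × ℝ × ℝ × ℝ × ℝ => (z.1, z.2.1))).prodMk
        (hm.comp (by fun_prop : Continuous fun z : ℝ × ℝ × ℝ × ℝ × ℝ => (z.1, z.2.2.1)))).continuousOn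
    · obtain ⟨k1, k2, k3, k4⟩ := key z hz
      have := h0 z.1
      exact ⟨k2, by simp only; linarith⟩
    · exact (continuous_fst.prodMk (hm.comp
        (by fun_prop : Continuous fun z : ℝ × ℝ × ℝ × ℝ × ℝ => (z.1, z.2.2.2.1)))).continuousOn
    · obtain ⟨k1, k2, k3, k4⟩ := key z hz
      have := h0 z.1
      exact ⟨by simp only; linarith, k4⟩
  have hS : {y : Gt | (∃ t, ap y t < t) ∧ ∃ t, ap u t < ap y t} = F '' (J ×ˢ K) := by
    ext y
    constructor
    · rintro ⟨⟨s, hs⟩, t, ht⟩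
      obtain ⟨n, hn⟩ : ∃ n : ℤ, t < s + n ∧ s + n ≤ t + 1 :=
        ⟨⌊t - s⌋ + 1, by push_cast; linarith [Int.lt_floor_add_one (t - s)],
          by push_cast; linarith [Int.floor_le (t - s)]⟩
      have e1 := ap_add_int y s n
      have e2 := ap_add_int y t 1
      have e3 := h0 t
      have l1 : ap y t < ap y (s + n) := (ap y).strictMono hn.1
      have l2 : s + n < t + 1 := by
        refine lt_of_le_of_ne hn.2 fun e => ?_
        rw [e] at e1
        push_cast at e2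
        linarith
      obtain ⟨k, hk⟩ := int_mod (zt (-1) * u) (r₁ := r) (r₂ := t)
        (by rw [ap_mul, ap_zt]; linarith) (by rw [ap_mul, ap_zt]; linarith)
      have hJ : t + k ∈ J := fun s' hs' => by
        have := hk s' hs'
        rw [ap_mul, ap_zt] at this
        linarith
      have e4 := ap_add_int y t k
      have e5 := ap_add_int y (s + n) k
      have e6 := ap_add_int u t k
      have o4 : s + n + k < t + k + 1 := by linarith only [l2]
      have o3 : ap y (s + n + k) < s + n + k := by linarith only [hs, e1, e5]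
      generalize t + k = t1 at *
      generalize s + n + k = t0 at *
      have o1 : ap u t1 < ap y t1 := by linarith only [ht, e4, e6]
      have o2 : ap y t1 < ap y t0 := by linarith only [l1, e4, e5]
      have o5 := hJ t1 right_mem_uIcc
      have o6 := h0 t1
      have hd : 0 < t1 + 1 - ap u t1 := by linarith only [ht, l1, e6, e5, o3, o4]
      have hm' : ∀ p, m t1 ((p - ap u t1) / (t1 + 1 - ap u t1)) = p := fun p => by
        simp only [m]; rw [div_mul_cancel₀ _ hd.ne']; ring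
      obtain ⟨p1, p2⟩ := hP (ap y t1) (ap y t0) o2 (by linarith only [hs, ht, e1, e3, l2, e4, e5])
      obtain ⟨p3, p4⟩ := hP t1 t0 (by linarith only [ht, l1, e6, e5, o3, o6]) o4
      obtain ⟨l, hl⟩ := hD' ((Pq (ap y t1, ap y t0))⁻¹ * y * Pq (t1, t0))
        (by rw [ap_mul, ap_mul, p3]; exact xc_back p1)
        (by rw [ap_mul, ap_mul, p4]; exact xc_back p2)
      refine ⟨(t1, (ap y t1 - ap u t1) / (t1 + 1 - ap u t1), (ap y t0 - ap u t1) / (t1 + 1 - ap u t1),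
        (t0 - ap u t1) / (t1 + 1 - ap u t1), l), ⟨hJ, div_pos (by linarith only [ht, e4, e6]) hd,
        div_lt_div_of_pos_right (by linarith only [l1, e4, e5]) hd, div_lt_div_of_pos_right (by linarith only [o3]) hd,
        (div_lt_one hd).2 (by linarith only [o4])⟩, ?_⟩
      simp only [F, hm']
      rw [← hl]
      group
    · rintro ⟨z, hz, rfl⟩
      obtain ⟨k1, k2, k3, k4⟩ := key z hz
      have o6 := h0 z.1
      obtain ⟨p1, p2⟩ := hP _ _ k2 (by linarith)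
      obtain ⟨p3, p4⟩ := hP z.1 (m z.1 z.2.2.2.1) (by linarith only [k1, k2, k3, o6]) k4
      obtain ⟨-, d1, d2⟩ := hD z.2.2.2.2
      refine ⟨⟨m z.1 z.2.2.2.1, ?_⟩, z.1, ?_⟩
      · simp only [F, ap_mul]
        rw [xc_back p4, d2, p2]
        exact k3
      · simp only [F, ap_mul]
        rw [xc_back p3, d1, p1]
        exact k1
  rw [hS]
  refine ⟨Nonempty.image _ ⟨(r, 1 / 4, 1 / 2, 3 / 4, 0), fun s hs => ?_, ?_⟩,
    ((xc_star r).prod hK.isPreconnected).image _ hF⟩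
  · rw [uIcc_self, mem_singleton_iff] at hs
    rw [hs]; exact hr
  · simp only [K, mem_ofPred_eq]; norm_num

theorem xc_top {h : ℕ} (hh : 1 ≤ h) {x : Gt} (hx : x ∈ Th (h + 1)) (h1 : ∀ t, t + 2 * h ≤ ap x t) :
    {y | y ∈ Th 1 ∧ y⁻¹ * x ∈ Th h}.Nonempty ∧
      IsPreconnected {y | y ∈ Th 1 ∧ y⁻¹ * x ∈ Th h} := by
  have hh' : (1 : ℝ) ≤ h := by exact_mod_cast hh
  obtain ⟨⟨r, hr⟩, -⟩ := hx
  push_cast at hr
  obtain ⟨a, b⟩ := lemC_ext (u := zt (-(2 * h)) * x)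
    (fun t => by rw [ap_mul, ap_zt]; linarith only [h1 t]) ⟨r, by rw [ap_mul, ap_zt]; linarith only [hr]⟩
  have e : {y | y ∈ Th 1 ∧ y⁻¹ * x ∈ Th h} = (fun y => zt 1 * y) ''
      {y : Gt | (∃ t, ap y t < t) ∧ ∃ t, ap (zt (-(2 * h)) * x) t < ap y t} := by
    ext y
    simp only [mem_ofPred_eq, mem_image, xc_th1, xc_mem, ap_mul, ap_zt]
    constructor
    · rintro ⟨⟨⟨s, hs⟩, -⟩, ⟨t, ht⟩, -⟩
      refine ⟨zt (-1) * y, ⟨⟨s, ?_⟩, t, ?_⟩, by rw [zt_neg, mul_inv_cancel_left]⟩ <;>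
        rw [ap_mul, ap_zt] <;> linarith only [hs, ht]
    · rintro ⟨w, ⟨⟨s, hs⟩, t, ht⟩, rfl⟩
      have := h1 s
      have := h1 t
      refine ⟨⟨⟨s, ?_⟩, t, ?_⟩, ⟨t, ?_⟩, s, ?_⟩ <;> rw [ap_mul, ap_zt] <;> linarith
  rw [e]
  exact ⟨a.image _, b.image _ (by fun_prop)⟩

theorem xc_symm {h : ℕ} {x y : Gt} (hy : y ∈ Th 1 ∧ y⁻¹ * x⁻¹ ∈ Th h) :
    y⁻¹ ∈ Th 1 ∧ y⁻¹⁻¹ * x ∈ Th h := by
  refine ⟨th_inv hy.1, ?_⟩
  have := th_cj y (th_inv hy.2)
  convert this using 1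
  simp only [cj]
  group

theorem lemC {h : ℕ} (hh : 1 ≤ h) {x : Gt} (hx : x ∈ Th (h + 1)) :
    {y | y ∈ Th 1 ∧ y⁻¹ * x ∈ Th h}.Nonempty ∧
      IsPreconnected {y | y ∈ Th 1 ∧ y⁻¹ * x ∈ Th h} := by
  by_cases h1 : ∃ t, ap x t < t + 2 * h
  · by_cases h2 : ∃ t, t - 2 * h < ap x t
    · exact lemC_gen hh h1 h2
    · push Not at h2
      obtain ⟨a, b⟩ := xc_top hh (th_inv hx) fun t => by
        have := h2 (ap x⁻¹ t)
        rw [xc_inv_ap] at this
        linarith only [this]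
      have e : {y | y ∈ Th 1 ∧ y⁻¹ * x ∈ Th h} =
          (fun y => y⁻¹) '' {y | y ∈ Th 1 ∧ y⁻¹ * x⁻¹ ∈ Th h} := by
        ext y
        constructor
        · intro hy
          exact ⟨y⁻¹, xc_symm (by rw [inv_inv]; exact hy), inv_inv y⟩
        · rintro ⟨w, hw, rfl⟩
          exact xc_symm hw
      rw [e]
      exact ⟨a.image _, b.image _ continuous_inv.continuousOn⟩
  · push Not at h1
    exact xc_top hh hx h1

theorem xc_hp {D : ℝ → Gt} (hD : ∀ l, pj (D l) = dia l ∧ ap (D l) 0 = 0 ∧ ap (D l) (1 / 2) = 1 / 2) :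
    Hp = (fun z : Gt × ℝ => cj z.1 (D z.2)) '' (univ ×ˢ Ioi 0) := by
  have hT : ∀ l, D l ∈ Th 1 := fun l =>
    xc_th1.2 ⟨⟨0, by rw [(hD l).2.1]; norm_num⟩, 0, by rw [(hD l).2.1]; norm_num⟩
  have hc : ∀ k y : Gt, pj (cj k y) = cj (pj k) (pj y) := fun k y => by simp only [cj, map_mul, map_inv]
  ext y
  constructor
  · rintro ⟨h1, h2⟩
    obtain ⟨k, l, hl, e⟩ := conj_dia h2
    obtain ⟨k', rfl⟩ := pj_surj k
    have := th_uniq (th_cj k' h1) (hT l) (by rw [hc, e, (hD l).1]) (by rw [hc, tr_cj]; linarith)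
    refine ⟨(k'⁻¹, l), ⟨trivial, hl⟩, ?_⟩
    simp only [← this, cj]
    group
  · rintro ⟨⟨k, l⟩, ⟨-, hl⟩, rfl⟩
    refine ⟨th_cj _ (hT l), ?_⟩
    simp only [hc, tr_cj, (hD l).1]
    have h1 := add_one_lt_exp (show l / 2 ≠ 0 from (half_pos hl).ne')
    have h2 := add_one_le_exp (-(l / 2))
    unfold tr
    rw [basic_dia00, basic_dia11]
    linarith

theorem hp_conn : IsPreconnected Hp := by
  obtain ⟨D, hDc, hD, -⟩ := exists_dlt
  obtain ⟨Ξ, -⟩ := exists_xi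
  have hU : IsPreconnected (univ : Set Gt) := by
    rw [← Ξ.isPreconnected_preimage, preimage_univ]
    exact isPreconnected_univ
  rw [xc_hp hD]
  refine (hU.prod isPreconnected_Ioi).image _ (Continuous.continuousOn ?_)
  simp only [cj]
  fun_prop

theorem hp_nonempty : Hp.Nonempty := by
  obtain ⟨D, -, hD, -⟩ := exists_dlt
  rw [xc_hp hD]
  exact Nonempty.image _ ⟨(1, 1), trivial, mem_Ioi.2 one_pos⟩

end Pool.Agent.MP_596265_gt.Erg

/-! Connectedness of the space of chains. -/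

namespace Pool.Agent.MP_596265_gt.Erg

open Real Filter Topology MeasureTheory Set

variable {g : ℕ}

theorem xh_th {p : ℕ → Gt} {h : ℕ} (hh : 1 ≤ h)
    (hp : ∀ j, j < h → p (j + 1) * (p j)⁻¹ ∈ Th 1) : p h * (p 0)⁻¹ ∈ Th h := by
  induction h, hh using Nat.le_induction with
  | base => exact hp 0 one_pos
  | succ n hn ih =>
    have e : p (n + 1) * (p 0)⁻¹ = p (n + 1) * (p n)⁻¹ * (p n * (p 0)⁻¹) := by group
    rw [e]
    exact th_mul (hp n n.lt_succ_self) (ih fun j hj => hp j (by omega))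

theorem xh_open {A : Set (ℕ → Gt)} {p : ℕ → Gt} {k : ℕ}
    (hs : ∀ᶠ y in 𝓝[(fun r => r k) '' A] (p k), Function.update p k y ∈ A) :
    𝓝[(fun r => r k) '' A] (p k) ≤ map (fun r => r k) (𝓝[A] p) := by
  have hc : Continuous fun y => Function.update p k y := continuous_const.update k continuous_id
  have ht : Tendsto (fun y => Function.update p k y) (𝓝[(fun r => r k) '' A] (p k)) (𝓝[A] p) := by
    refine tendsto_nhdsWithin_iff.2 ⟨?_, hs⟩
    have := (hc.tendsto (p k)).mono_left (nhdsWithin_le_nhds (s := (fun r => r k) '' A))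
    simpa only [Function.update_eq_self] using this
  have h2 := map_mono (m := fun r : ℕ → Gt => r k) ht
  rw [map_map] at h2
  have e : ((fun r : ℕ → Gt => r k) ∘ fun y => Function.update p k y) = id := by
    funext y; simp
  rwa [e, map_id] at h2

theorem xh_ev {u v : Gt → Gt} (hu : Continuous u) (hv : Continuous v) {a : Gt}
    (h : u a ∈ Th 1 ∧ u a ≠ 1 ∧ u a ≠ v a) : ∀ᶠ y in 𝓝 a, u y ∈ Th 1 ∧ u y ≠ 1 ∧ u y ≠ v y :=
  (hu.continuousAt.eventually ((isOpen_th 1).mem_nhds h.1)).and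
    (Eventually.and ((isOpen_ne_fun hu continuous_const).mem_nhds h.2.1)
      ((isOpen_ne_fun hu hv).mem_nhds h.2.2))

theorem xh_ext {f p₀ q z : Gt} {h : ℕ} {r : ℕ → Gt} (hr : r ∈ Ch f h p₀ z)
    (hz : q * z⁻¹ ∈ Th 1 ∧ q * z⁻¹ ≠ 1 ∧ q * z⁻¹ ≠ f) :
    (fun j => if j ≤ h then r j else q) ∈ Ch f (h + 1) p₀ q := by
  obtain ⟨h0, h1, h2⟩ := hr
  refine ⟨by simpa using h0, fun j hj => if_neg (by omega), fun j hj => ?_⟩
  rcases Nat.lt_succ_iff_lt_or_eq.1 hj with hj | rfl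
  · simp only [if_pos (show j + 1 ≤ h from hj), if_pos hj.le]
    exact h2 j hj
  · simp only [if_neg (Nat.not_succ_le_self j), if_pos le_rfl, h1 j le_rfl]
    exact hz

theorem xh_conn (f p₀ : Gt) {h : ℕ} (hh : 1 ≤ h) : ∀ q : Gt, q * p₀⁻¹ ∈ Th h →
    (h = 1 → q * p₀⁻¹ ≠ 1 ∧ q * p₀⁻¹ ≠ f) →
      (Ch f h p₀ q).Nonempty ∧ IsPreconnected (Ch f h p₀ q) := by
  induction h, hh using Nat.le_induction with
  | base =>
    intro q hq hq'
    refine ⟨⟨fun j => if j = 0 then p₀ else q, rfl, fun j hj => if_neg (by omega),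
      fun j hj => ?_⟩, Set.Subsingleton.isPreconnected ?_⟩
    · obtain rfl : j = 0 := by omega
      exact ⟨hq, hq' rfl⟩
    · rintro p ⟨a0, a1, -⟩ r ⟨b0, b1, -⟩
      funext j
      rcases Nat.eq_zero_or_pos j with rfl | hj
      · rw [a0, b0]
      · rw [a1 j hj, b1 j hj]
  | succ h hh ih =>
    intro q hq _
    obtain ⟨hU0, hU1⟩ := lemC hh hq
    set U := {y | y ∈ Th 1 ∧ y⁻¹ * (q * p₀⁻¹) ∈ Th h} with hUd
    have hU : IsOpen U := (isOpen_th 1).inter ((isOpen_th h).preimage (by fun_prop))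
    set C : Set Gt := {y | y = 1 ∨ y = f ∨
      (h = 1 ∧ (y⁻¹ * (q * p₀⁻¹) = 1 ∨ y⁻¹ * (q * p₀⁻¹) = f))} with hCd
    have hC : C.Countable := by
      refine Set.Countable.mono (s₂ := {1, f, q * p₀⁻¹, q * p₀⁻¹ * f⁻¹}) ?_ (Set.to_countable _)
      rintro y (rfl | rfl | ⟨-, e | e⟩)
      · simp only [mem_insert_iff, mem_singleton_iff, true_or]
      · simp only [mem_insert_iff, mem_singleton_iff, true_or, or_true]
      · simp only [inv_mul_eq_one.1 e, mem_insert_iff, mem_singleton_iff, left_eq_mul, inv_eq_one, true_or, or_true]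
      · have : y = q * p₀⁻¹ * f⁻¹ := by rw [← e]; group
        simp only [this, mem_insert_iff, mul_eq_left, inv_eq_one, mem_singleton_iff, or_true]
    obtain ⟨hR, hD⟩ := rem_gt hU hU1 hC
    have hN : (U \ C).Nonempty := closure_nonempty_iff.1 (hU0.mono hD)
    have key : ∀ y ∈ U \ C, (q * (y⁻¹ * q)⁻¹ ∈ Th 1 ∧ q * (y⁻¹ * q)⁻¹ ≠ 1 ∧ q * (y⁻¹ * q)⁻¹ ≠ f) ∧
        (Ch f h p₀ (y⁻¹ * q)).Nonempty ∧ IsPreconnected (Ch f h p₀ (y⁻¹ * q)) := by
      rintro y ⟨⟨y1, y2⟩, y3⟩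
      simp only [hCd, mem_ofPred_eq, not_or, not_and] at y3
      have e : q * (y⁻¹ * q)⁻¹ = y := by group
      rw [e]
      exact ⟨⟨y1, y3.1, y3.2.1⟩, ih _ (by rwa [mul_assoc]) (by rw [mul_assoc]; exact y3.2.2)⟩
    have him : (fun r : ℕ → Gt => r h) '' Ch f (h + 1) p₀ q = (fun y => y⁻¹ * q) '' (U \ C) := by
      apply Subset.antisymm
      · rintro _ ⟨p, ⟨h0, h1, h2⟩, rfl⟩
        have a := h2 h h.lt_succ_self
        rw [h1 (h + 1) le_rfl] at a
        have e : (q * (p h)⁻¹)⁻¹ * (q * p₀⁻¹) = p h * (p 0)⁻¹ := by rw [h0]; group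
        refine ⟨q * (p h)⁻¹, ⟨⟨a.1, ?_⟩, ?_⟩, by simp only; group⟩
        · rw [e]; exact xh_th hh fun j hj => (h2 j (by omega)).1
        · rintro (b | b | ⟨rfl, b⟩)
          · exact a.2.1 b
          · exact a.2.2 b
          · rw [e] at b
            exact b.elim (h2 0 (by omega)).2.1 (h2 0 (by omega)).2.2
      · rintro _ ⟨y, hy, rfl⟩
        obtain ⟨a, ⟨r, hr⟩, -⟩ := key y hy
        exact ⟨_, xh_ext hr a, by simp only [if_pos le_rfl, hr.2.1 h le_rfl]⟩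
    refine ⟨?_, pc_fib (p := fun r : ℕ → Gt => r h) (fun p hp => xh_open ?_) ?_ fun z => ?_⟩
    · have : ((fun r : ℕ → Gt => r h) '' Ch f (h + 1) p₀ q).Nonempty := him ▸ hN.image _
      exact this.of_image
    · obtain ⟨h0, h1, h2⟩ := hp
      obtain ⟨k, rfl⟩ : ∃ k, h = k + 1 := ⟨h - 1, by omega⟩
      have a := xh_ev (u := fun y => y * (p k)⁻¹) (v := fun _ => f) (by fun_prop)
        continuous_const (h2 k (by omega))
      have b := xh_ev (u := fun y => p (k + 2) * y⁻¹) (v := fun _ => f) (by fun_prop)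
        continuous_const (h2 (k + 1) (by omega))
      filter_upwards [nhdsWithin_le_nhds a, nhdsWithin_le_nhds b] with y ya yb
      refine ⟨by rw [Function.update_of_ne (by omega), h0],
        fun j hj => by rw [Function.update_of_ne (by omega), h1 j hj], fun j hj => ?_⟩
      by_cases e1 : j = k
      · subst e1
        rwa [Function.update_self, Function.update_of_ne (by omega)]
      by_cases e2 : j = k + 1
      · subst e2
        rwa [Function.update_self, Function.update_of_ne (by omega)]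
      rw [Function.update_of_ne (by omega), Function.update_of_ne e2]
      exact h2 j hj
    · rw [him]
      exact hR.image _ (by fun_prop)
    · by_cases hz : z ∈ (fun r : ℕ → Gt => r h) '' Ch f (h + 1) p₀ q
      · rw [him] at hz
        obtain ⟨y, hy, rfl⟩ := hz
        obtain ⟨a, -, hc⟩ := key y hy
        have e : Ch f (h + 1) p₀ q ∩ (fun r : ℕ → Gt => r h) ⁻¹' {y⁻¹ * q} =
            (fun (r : ℕ → Gt) j => if j ≤ h then r j else q) '' Ch f h p₀ (y⁻¹ * q) := by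
          apply Subset.antisymm
          · rintro p ⟨⟨h0, h1, h2⟩, h3⟩
            refine ⟨fun j => p (min j h), ⟨by simpa using h0, fun j hj => ?_, fun j hj => ?_⟩, ?_⟩
            · simp only [min_eq_right hj]; exact h3
            · simp only [min_eq_left hj.le, min_eq_left (show j + 1 ≤ h from hj)]
              exact h2 j (by omega)
            · funext j
              by_cases hj : j ≤ h
              · simp only [if_pos hj, min_eq_left hj]
              · simp only [if_neg hj]; exact (h1 j (by omega)).symm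
          · rintro _ ⟨r, hr, rfl⟩
            exact ⟨xh_ext hr a, by simp only [mem_preimage, if_pos le_rfl, hr.2.1 h le_rfl]; rfl⟩
        simp only
        rw [e]
        refine hc.image _ (Continuous.continuousOn (continuous_pi fun j => ?_))
        by_cases hj : j ≤ h
        · simp only [if_pos hj]; exact continuous_apply j
        · simp only [if_neg hj]; exact continuous_const
      · exact Set.Subsingleton.isPreconnected fun p hp => (hz ⟨p, hp.1, hp.2⟩).elim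

theorem ch_conn (f : Gt) {h : ℕ} (hh : 2 ≤ h) {p₀ q : Gt} (hq : q * p₀⁻¹ ∈ Th h) :
    (Ch f h p₀ q).Nonempty ∧ IsPreconnected (Ch f h p₀ q) :=
  xh_conn f p₀ (by omega) q hq fun e => absurd e (by omega)

end Pool.Agent.MP_596265_gt.Erg

/-! Fibres of the commutator map: reduction to first coordinates. -/

namespace Pool.Agent.MP_596265_gt.Erg

open Real Filter Topology MeasureTheory Set

variable {g : ℕ}

theorem Col.hm' {y : Gt} {col : G × G → Prop} (h : Col y col) {p q : G × G}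
    (hp : cmt p.1 p.2 = y) (hm : HM p q) : col q ↔ col p := by
  induction hm with
  | refl => rfl
  | tail h1 h2 ih => exact (h.hm _ _ ((cmt_hm h1).trans hp) h2).trans ih

theorem xs_cmt_comm {a z : G} (b : G) (h : z * a = a * z) : cmt a (b * z) = cmt a b := by
  have e : lf z * lf a = lf a * lf z := comm_lift (by rw [pj_lf, pj_lf, h])
  have e2 : lf z * (lf a)⁻¹ = (lf a)⁻¹ * lf z := by
    rw [mul_inv_eq_iff_eq_mul, mul_assoc, e, inv_mul_cancel_left]
  rw [← cm_lift (x' := lf a) (y' := lf b * lf z) (by rw [pj_lf]; exact PM.refl _)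
    (by rw [map_mul, pj_lf, pj_lf]; exact PM.refl _)]
  unfold cmt cm
  rw [mul_inv_rev, ← mul_assoc, mul_assoc (lf a), mul_assoc (lf a), mul_assoc (lf b), e2]
  group

/-- A first coordinate of a non-commuting pair is not scalar. -/
theorem xs_ns {y : Gt} (hy : y ≠ 1) {a b : G} (h : cmt a b = y) :
    0 < (a 0 0 - a 1 1) ^ 2 / 2 + a 0 1 ^ 2 + a 1 0 ^ 2 := by
  by_contra hn
  have h1 : (a 0 0 - a 1 1) ^ 2 = 0 := by
    linarith only [sq_nonneg (a 0 0 - a 1 1), sq_nonneg (a 0 1), sq_nonneg (a 1 0), hn]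
  have h2 : a 0 1 ^ 2 = 0 := by
    linarith only [sq_nonneg (a 0 0 - a 1 1), sq_nonneg (a 0 1), sq_nonneg (a 1 0), hn]
  have h3 : a 1 0 ^ 2 = 0 := by
    linarith only [sq_nonneg (a 0 0 - a 1 1), sq_nonneg (a 0 1), sq_nonneg (a 1 0), hn]
  have e1 : a 0 0 = a 1 1 := sub_eq_zero.1 (pow_eq_zero_iff two_ne_zero |>.1 h1)
  have e2 : a 0 1 = 0 := pow_eq_zero_iff two_ne_zero |>.1 h2
  have e3 : a 1 0 = 0 := pow_eq_zero_iff two_ne_zero |>.1 h3
  apply hy
  rw [← h, cmt_eq_one, cm_eq_one]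
  apply basic_ext <;> simp only [basic_mul, e1, e2, e3] <;> ring

theorem xs_det {a : G} (h : ¬ ell a) (t : ℝ) :
    (!![√(1 + t ^ 2 * (tr a ^ 2 / 4 - 1)) + t * ((a 0 0 - a 1 1) / 2), t * a 0 1;
      t * a 1 0, √(1 + t ^ 2 * (tr a ^ 2 / 4 - 1)) - t * ((a 0 0 - a 1 1) / 2)] : Mat).det = 1 := by
  have h1 : 0 ≤ tr a ^ 2 / 4 - 1 := by
    have h2 : 2 ≤ |tr a| := not_lt.1 h
    have h3 := sq_abs (tr a)
    nlinarith
  have h2 : √(1 + t ^ 2 * (tr a ^ 2 / 4 - 1)) ^ 2 = 1 + t ^ 2 * (tr a ^ 2 / 4 - 1) :=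
    sq_sqrt (by positivity)
  rw [Matrix.det_fin_two_of]
  generalize √(1 + t ^ 2 * (tr a ^ 2 / 4 - 1)) = u at h2 ⊢
  have h4 := basic_det a
  unfold tr at h2
  linear_combination h2 + t ^ 2 * h4

/-- The identity component of the centraliser of a non-elliptic element. -/
noncomputable def xs_z {a : G} (h : ¬ ell a) (t : ℝ) : G := ⟨_, xs_det h t⟩

theorem xs_z_cont {a : G} (h : ¬ ell a) : Continuous (xs_z h) := by
  refine Continuous.subtype_mk ?_ _
  refine continuous_matrix fun i j => ?_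
  fin_cases i <;> fin_cases j <;> simp <;> fun_prop

theorem xs_z00 {a : G} (h : ¬ ell a) (t : ℝ) :
    xs_z h t 0 0 = √(1 + t ^ 2 * (tr a ^ 2 / 4 - 1)) + t * ((a 0 0 - a 1 1) / 2) := rfl
theorem xs_z01 {a : G} (h : ¬ ell a) (t : ℝ) : xs_z h t 0 1 = t * a 0 1 := rfl
theorem xs_z10 {a : G} (h : ¬ ell a) (t : ℝ) : xs_z h t 1 0 = t * a 1 0 := rfl
theorem xs_z11 {a : G} (h : ¬ ell a) (t : ℝ) :
    xs_z h t 1 1 = √(1 + t ^ 2 * (tr a ^ 2 / 4 - 1)) - t * ((a 0 0 - a 1 1) / 2) := rfl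

theorem xs_z_comm {a : G} (h : ¬ ell a) (t : ℝ) : xs_z h t * a = a * xs_z h t := by
  apply basic_ext <;> simp only [basic_mul, xs_z00, xs_z01, xs_z10, xs_z11] <;> ring

theorem xs_z_zero {a : G} (h : ¬ ell a) : xs_z h 0 = 1 := by
  apply basic_ext <;>
    simp [xs_z00, xs_z01, xs_z10, xs_z11, basic_one00, basic_one01, basic_one10, basic_one11]

theorem xs_z_of {a z : G} (h : ¬ ell a)
    (hn : 0 < (a 0 0 - a 1 1) ^ 2 / 2 + a 0 1 ^ 2 + a 1 0 ^ 2) (hc : z * a = a * z)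
    (ht : 0 ≤ tr z) : ∃ t, z = xs_z h t := by
  have c00 : (z * a) 0 0 = (a * z) 0 0 := by rw [hc]
  have c01 : (z * a) 0 1 = (a * z) 0 1 := by rw [hc]
  have c10 : (z * a) 1 0 = (a * z) 1 0 := by rw [hc]
  simp only [basic_mul] at c00 c01 c10
  obtain ⟨D, hD⟩ : ∃ D, D = (a 0 0 - a 1 1) ^ 2 / 2 + a 0 1 ^ 2 + a 1 0 ^ 2 := ⟨_, rfl⟩
  have hD0 : D ≠ 0 := by rw [hD]; exact hn.ne'
  obtain ⟨t, e⟩ : ∃ t, t * D =
      (z 0 0 - z 1 1) * (a 0 0 - a 1 1) / 2 + z 0 1 * a 0 1 + z 1 0 * a 1 0 :=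
    ⟨_, div_mul_cancel₀ _ hD0⟩
  have e0 : z 0 0 - z 1 1 = t * (a 0 0 - a 1 1) := by
    apply mul_right_cancel₀ hD0
    rw [mul_right_comm, e, hD]
    linear_combination a 0 1 * c01 - a 1 0 * c10
  have e1 : z 0 1 = t * a 0 1 := by
    apply mul_right_cancel₀ hD0
    rw [mul_right_comm, e, hD]
    linear_combination (-(a 0 0 - a 1 1) / 2) * c01 + a 1 0 * c00
  have e2 : z 1 0 = t * a 1 0 := by
    apply mul_right_cancel₀ hD0
    rw [mul_right_comm, e, hD]
    linear_combination ((a 0 0 - a 1 1) / 2) * c10 - a 0 1 * c00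
  have e3 : √(1 + t ^ 2 * (tr a ^ 2 / 4 - 1)) = tr z / 2 := by
    rw [← sqrt_sq (show 0 ≤ tr z / 2 by positivity)]
    congr 1
    have h4 := basic_det a
    have h5 := basic_det z
    rw [e1, e2] at h5
    unfold tr
    linear_combination t ^ 2 * h4 - h5 -
      (z 0 0 - z 1 1 + t * (a 0 0 - a 1 1)) / 4 * e0
  refine ⟨t, basic_ext ?_ e1 e2 ?_⟩
  · rw [xs_z00, e3]; unfold tr; linear_combination e0 / 2
  · rw [xs_z11, e3]; unfold tr; linear_combination -e0 / 2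

theorem xs_path {y : Gt} {col : G × G → Prop} (h : Col y col) {a b : G} (hb : cmt a b = y)
    (he : ¬ ell a) (t : ℝ) : col (a, b) ↔ col (a, b * xs_z he t) := by
  have hc : Continuous fun s => (a, b * xs_z he s) :=
    continuous_const.prodMk (continuous_const.mul (xs_z_cont he))
  have e : ∀ s, cmt a (b * xs_z he s) = y := fun s => (xs_cmt_comm b (xs_z_comm he s)).trans hb
  have := col_of_preconn (A := univ) isPreconnected_univ
    (col := fun s => col (a, b * xs_z he s)) (fun s _ => by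
      rw [nhdsWithin_univ]
      exact ((hc.tendsto s).eventually (h.loc _ (e s))).mono fun s' hs => hs (e s'))
    0 trivial t trivial
  simpa only [xs_z_zero, mul_one] using this

/-- Moving the second coordinate inside the centraliser of the first. -/
theorem col_same {y : Gt} {col : G × G → Prop} (h : Col y col) (hy : y ≠ 1) {a b b' : G}
    (hb : cmt a b = y) (hb' : cmt a b' = y) : col (a, b) ↔ col (a, b') := by
  have e : cm a b = cm a b' := by rw [← pj_cmt, ← pj_cmt, hb, hb']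
  have hc : b⁻¹ * b' * a = a * (b⁻¹ * b') := by
    have e2 : a * (b⁻¹ * b') = b⁻¹ * (cm a b)⁻¹ * a * b' := by unfold cm; group
    rw [e2, e]; unfold cm; group
  obtain ⟨z, rfl⟩ : ∃ z, b' = b * z := ⟨b⁻¹ * b', by group⟩
  rw [inv_mul_cancel_left] at hc
  by_cases he : ell a
  · obtain ⟨t, rfl⟩ := kk_of_comm he hc
    exact (h.hm (a, b) _ hb (HM1.f1 a b t he)).symm
  · rcases le_total 0 (tr z) with ht | ht
    · obtain ⟨t, rfl⟩ := xs_z_of he (xs_ns hy hb) hc ht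
      exact xs_path h hb he t
    · obtain ⟨t, e1⟩ := xs_z_of (z := -z) he (xs_ns hy hb) (by rw [neg_mul, mul_neg, hc])
        (by rw [tr_neg]; linarith)
      rw [xs_path h hb he t, ← e1, mul_neg]
      exact h.sg2 _ _ hb'

theorem xs_add_inv (x : G) : ((x⁻¹ : G) : Mat) + x = tr x • (1 : Mat) := by
  ext i j
  fin_cases i <;> fin_cases j <;> simp only [Matrix.SpecialLinearGroup.coe_inv, Matrix.adjugate_fin_two, Fin.isValue, Fin.zero_eta, Matrix.add_apply, Matrix.of_apply, Matrix.cons_val', Matrix.cons_val_zero, Matrix.cons_val_fin_one, add_comm, tr, Matrix.smul_apply, Matrix.one_apply_eq, smul_eq_mul, mul_one, Fin.mk_one, Matrix.cons_val_one, add_neg_cancel, Nat.reduceAdd, ne_eq, zero_ne_one, not_false_eq_true, Matrix.one_apply_ne, mul_zero, neg_add_cancel, one_ne_zero]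

theorem xs_mul_inv (x : G) : (x : Mat) * ((x⁻¹ : G) : Mat) = 1 := by
  rw [← Matrix.SpecialLinearGroup.coe_mul, mul_inv_cancel, Matrix.SpecialLinearGroup.coe_one]

theorem xs_int {x q : G} (m : Mat) (h : tr q = tr x) :
    ((q : Mat) * m - m * x) * ((x⁻¹ : G) : Mat) = q * ((q : Mat) * m - m * x) := by
  have e1 : ((x⁻¹ : G) : Mat) = tr x • (1 : Mat) - x := eq_sub_of_add_eq (xs_add_inv x)
  have e2 : (q : Mat) * q = tr x • (q : Mat) - 1 := by
    rw [← xs_mul_inv q, eq_sub_of_add_eq (xs_add_inv q), h, mul_sub, mul_smul_comm, mul_one,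
      sub_sub_cancel]
  rw [sub_mul, mul_assoc m, xs_mul_inv, mul_one, mul_sub, ← mul_assoc, ← mul_assoc, e2, e1,
    mul_sub, mul_smul_comm, mul_one, sub_mul, smul_mul_assoc, one_mul]
  abel

theorem xs_n {a : G} (hn : 0 < (a 0 0 - a 1 1) ^ 2 / 2 + a 0 1 ^ 2 + a 1 0 ^ 2) :
    ∃ n : Mat, ((a⁻¹ : G) : Mat) * n - n * a = 1 := by
  obtain ⟨u, hu⟩ : ∃ u, u * ((a 0 0 - a 1 1) ^ 2 / 2 + a 0 1 ^ 2 + a 1 0 ^ 2) = 1 :=
    ⟨_, inv_mul_cancel₀ hn.ne'⟩
  obtain ⟨n, n0, n1, n2, n3⟩ : ∃ n : Mat, n 0 0 = u * ((a 1 1 - a 0 0) / 2) ∧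
      n 0 1 = -(u * a 1 0) ∧ n 1 0 = -(u * a 0 1) ∧ n 1 1 = u * ((a 0 0 - a 1 1) / 2) :=
    ⟨!![_, _; _, _], rfl, rfl, rfl, rfl⟩
  refine ⟨n, ?_⟩
  obtain ⟨w, hw⟩ : ∃ w, w = a⁻¹ := ⟨_, rfl⟩
  have w0 : w 0 0 = a 1 1 := hw ▸ basic_inv00 a
  have w1 : w 0 1 = -a 0 1 := hw ▸ basic_inv01 a
  have w2 : w 1 0 = -a 1 0 := hw ▸ basic_inv10 a
  have w3 : w 1 1 = a 0 0 := hw ▸ basic_inv11 a
  rw [← hw]
  ext i j
  fin_cases i <;> fin_cases j <;>
    simp only [Fin.zero_eta, Fin.isValue, Matrix.sub_apply, Matrix.mul_apply, Fin.sum_univ_two, w0, n0, w1, n2, mul_neg, neg_mul, neg_neg, n1, Matrix.one_apply_eq, Fin.mk_one, n3, ne_eq, zero_ne_one, not_false_eq_true, Matrix.one_apply_ne, w2, w3, one_ne_zero]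
  · linear_combination hu
  · ring
  · ring
  · linear_combination hu

theorem xs_ndet {B : Mat} (h : 0 < B.det) : ((√B.det)⁻¹ • B).det = 1 := by
  rw [Matrix.det_smul, Fintype.card_fin, inv_pow, sq_sqrt h.le, inv_mul_cancel₀ h.ne']

open Classical in
/-- Normalisation to determinant one. -/
noncomputable def xs_nm (B : Mat) : G :=
  if h : 0 < B.det then ⟨(√B.det)⁻¹ • B, xs_ndet h⟩ else 1

theorem xs_nm_coe {B : Mat} (h : 0 < B.det) : (xs_nm B : Mat) = (√B.det)⁻¹ • B :=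
  congrArg Subtype.val (dif_pos h)

theorem xs_nm_tend (b : G) : Tendsto xs_nm (𝓝 (b : Mat)) (𝓝 b) := by
  have hd : Continuous fun B : Mat => B.det := continuous_id.matrix_det
  have h1 : (b : Mat).det = 1 := b.2
  have hp : ∀ᶠ B in 𝓝 (b : Mat), 0 < B.det :=
    (hd.tendsto _).eventually (lt_mem_nhds (by rw [h1]; exact one_pos))
  have h2 : ContinuousAt (fun B : Mat => (√B.det)⁻¹ • B) b :=
    (hd.sqrt.continuousAt.inv₀ (by simp [h1])).smul continuousAt_id
  refine tendsto_subtype_rng.2 ?_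
  have h3 := h2.tendsto
  simp only [h1, sqrt_one, inv_one, one_smul] at h3
  exact h3.congr' (hp.mono fun B hB => (xs_nm_coe hB).symm)

theorem sec_fst {y : Gt} (hy : y ≠ 1) {a b : G} (h : cmt a b = y) :
    𝓝[{x | Pl (pj y) x}] a ≤ map Prod.fst (𝓝[{q : G × G | cmt q.1 q.2 = y}] (a, b)) := by
  obtain ⟨n, hn⟩ := xs_n (xs_ns hy h)
  obtain ⟨c, hc⟩ : ∃ c, c = pj y := ⟨_, rfl⟩
  obtain ⟨B, hB⟩ : ∃ B : G → Mat, B = fun x =>
    ((x⁻¹ * c : G) : Mat) * ((b : Mat) * n) - (b : Mat) * n * x := ⟨_, rfl⟩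
  have cB : Continuous B := by
    rw [hB]
    have c1 : Continuous fun x : G => (x : Mat) := continuous_subtype_val
    exact ((c1.comp (continuous_inv.mul continuous_const)).mul continuous_const).sub
      (continuous_const.mul c1)
  have Ba : B a = b := by
    have e : a⁻¹ * c * b = b * a⁻¹ := by rw [hc, ← h, pj_cmt]; unfold cm; group
    rw [hB]
    simp only
    rw [← mul_assoc, ← Matrix.SpecialLinearGroup.coe_mul, e, Matrix.SpecialLinearGroup.coe_mul,
      mul_assoc, mul_assoc, ← mul_sub, hn, mul_one]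
  have tB : Tendsto B (𝓝 a) (𝓝 (b : Mat)) := Ba ▸ cB.tendsto a
  have ts : Tendsto (fun x => (x, xs_nm (B x))) (𝓝 a) (𝓝 (a, b)) :=
    tendsto_id.prodMk_nhds ((xs_nm_tend b).comp tB)
  have hd : Continuous fun M : Mat => M.det := continuous_id.matrix_det
  have hp : ∀ᶠ x in 𝓝 a, 0 < (B x).det :=
    ((hd.tendsto _).comp tB).eventually (lt_mem_nhds (by rw [b.2]; exact one_pos))
  obtain ⟨O, hO, hi⟩ := pj_loc_inj y
  have hq : ∀ᶠ x in 𝓝 a, cmt x (xs_nm (B x)) ∈ O :=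
    ((continuous_cmt.tendsto (a, b)).comp ts).eventually (by simp only [h]; exact hO)
  have key : Tendsto (fun x => (x, xs_nm (B x))) (𝓝[{x | Pl (pj y) x}] a)
      (𝓝[{q : G × G | cmt q.1 q.2 = y}] (a, b)) := by
    refine tendsto_nhdsWithin_iff.2 ⟨ts.mono_left nhdsWithin_le_nhds, ?_⟩
    filter_upwards [mem_nhdsWithin_of_mem_nhds hp, mem_nhdsWithin_of_mem_nhds hq,
      self_mem_nhdsWithin] with x h1 h2 h3
    refine hi h2 (mem_of_mem_nhds hO) ?_
    have ht : tr (x⁻¹ * c) = tr x := by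
      rw [← tr_inv, mul_inv_rev, inv_inv, tr_mul_comm, hc]; exact h3
    have e : xs_nm (B x) * x⁻¹ = x⁻¹ * c * xs_nm (B x) := by
      apply Subtype.ext
      rw [Matrix.SpecialLinearGroup.coe_mul, Matrix.SpecialLinearGroup.coe_mul (x⁻¹ * c),
        xs_nm_coe h1, smul_mul_assoc, mul_smul_comm, hB]
      exact congrArg _ (xs_int _ ht)
    rw [pj_cmt, ← hc]
    unfold cm
    rw [mul_assoc x, e]
    group
  exact le_trans (le_of_eq (map_id' (f := _)).symm) (map_mono (m := Prod.fst) key)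

theorem col_region {y : Gt} {col : G × G → Prop} (h : Col y col) (hy : y ≠ 1) {A : Set G}
    (hA : IsPreconnected A) (hp : ∀ x ∈ A, ∃ b, cmt x b = y) {p q : G × G}
    (h1 : cmt p.1 p.2 = y) (h2 : cmt q.1 q.2 = y) (hpA : p.1 ∈ A) (hqA : q.1 ∈ A) :
    col p ↔ col q := by
  have im : Prod.fst '' ({q : G × G | cmt q.1 q.2 = y} ∩ Prod.fst ⁻¹' A) = A := by
    ext x
    constructor
    · rintro ⟨r, hr, rfl⟩; exact hr.2
    · intro hx
      obtain ⟨b, hb⟩ := hp x hx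
      exact ⟨(x, b), ⟨hb, hx⟩, rfl⟩
  have sub : A ⊆ {x | Pl (pj y) x} := fun x hx => by
    obtain ⟨b, hb⟩ := hp x hx
    rw [← hb, pj_cmt]; exact pl_cm x b
  refine col_const (A := {q : G × G | cmt q.1 q.2 = y} ∩ Prod.fst ⁻¹' A) (p := Prod.fst) ?_
    (by rw [im]; exact hA) ?_ ?_ p ⟨h1, hpA⟩ q ⟨h2, hqA⟩
  · rintro ⟨a, b⟩ hr
    rw [im, nhdsWithin_inter', ← comap_principal, Filter.push_pull]
    exact le_inf ((nhdsWithin_mono _ sub).trans (sec_fst hy hr.1)) inf_le_right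
  · intro r hr
    filter_upwards [mem_nhdsWithin_of_mem_nhds (h.loc r hr.1), self_mem_nhdsWithin] with s hs h3
    exact hs h3.1
  · rintro ⟨a, b⟩ hr ⟨a', b'⟩ hr' e
    obtain rfl : a = a' := e
    exact col_same h hy hr.1 hr'.1

theorem xs_form {A B C : ℝ} (h : 0 < B ^ 2 - 4 * A * C) :
    ∃ u v : ℝ, A * u ^ 2 + B * u * v + C * v ^ 2 = 1 := by
  have h0 : ∃ u v : ℝ, 0 < A * u ^ 2 + B * u * v + C * v ^ 2 := by
    rcases lt_trichotomy A 0 with hA | hA | hA
    · refine ⟨-B, 2 * A, ?_⟩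
      have := mul_pos (neg_pos.2 hA) h
      linarith
    · subst hA
      have hB : B ≠ 0 := by rintro rfl; simp at h
      refine ⟨(1 - C) / B, 1, ?_⟩
      rw [mul_div_cancel₀ _ hB]; linarith
    · exact ⟨1, 0, by linarith⟩
  obtain ⟨u, v, hf⟩ := h0
  obtain ⟨w, hw⟩ : ∃ w : ℝ, w ^ 2 * (A * u ^ 2 + B * u * v + C * v ^ 2) = 1 :=
    ⟨(√(A * u ^ 2 + B * u * v + C * v ^ 2))⁻¹, by
      rw [inv_pow, sq_sqrt hf.le, inv_mul_cancel₀ hf.ne']⟩
  exact ⟨w * u, w * v, by linear_combination hw⟩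

/-- Companion matrix. -/
def xs_C (t : ℝ) : G := ⟨!![0, -1; 1, t], by rw [Matrix.det_fin_two_of]; ring⟩

theorem xs_comp {x : G} (h : 2 < |tr x|) : ∃ k : G, x * k = k * xs_C (tr x) := by
  have h4 := basic_det x
  obtain ⟨u, v, e⟩ := xs_form (A := x 1 0) (B := x 1 1 - x 0 0) (C := -x 0 1) (by
    have h3 := sq_abs (tr x)
    have h5 : 4 < |tr x| ^ 2 := by nlinarith only [h]
    rw [h3] at h5
    unfold tr at h5
    linarith)
  obtain ⟨k, k0, k1, k2, k3⟩ : ∃ k : G, k 0 0 = u ∧ k 0 1 = x 0 0 * u + x 0 1 * v ∧ k 1 0 = v ∧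
      k 1 1 = x 1 0 * u + x 1 1 * v :=
    ⟨⟨!![u, x 0 0 * u + x 0 1 * v; v, x 1 0 * u + x 1 1 * v], by
      rw [Matrix.det_fin_two_of]; linear_combination e⟩, rfl, rfl, rfl, rfl⟩
  have c0 : xs_C (tr x) 0 0 = 0 := rfl
  have c1 : xs_C (tr x) 0 1 = -1 := rfl
  have c2 : xs_C (tr x) 1 0 = 1 := rfl
  have c3 : xs_C (tr x) 1 1 = x 0 0 + x 1 1 := rfl
  refine ⟨k, basic_ext ?_ ?_ ?_ ?_⟩ <;> simp only [basic_mul, k0, k1, k2, k3, c0, c1, c2, c3]
  · ring
  · linear_combination (-u) * h4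
  · ring
  · linear_combination (-v) * h4

theorem partner {c a : G} (h : Pl c a) (ha : 2 < |tr a|) : ∃ b, cm a b = c := by
  have ht : tr (a⁻¹ * c) = tr a⁻¹ := by
    rw [← tr_inv, mul_inv_rev, inv_inv, tr_mul_comm, tr_inv]; exact h
  obtain ⟨k, hk⟩ := xs_comp (x := a⁻¹) (by rwa [tr_inv])
  obtain ⟨k', hk'⟩ := xs_comp (x := a⁻¹ * c) (by rwa [ht, tr_inv])
  rw [ht] at hk'
  refine ⟨k' * k⁻¹, ?_⟩
  have e : cm a (k' * k⁻¹) = a * k' * (k⁻¹ * (a⁻¹ * k)) * k'⁻¹ := by unfold cm; group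
  rw [e, hk, inv_mul_cancel_left, mul_assoc a, ← hk']
  group

theorem xs_cj1 (k x : G) : cj k (cj k⁻¹ x) = x := by unfold cj; group
theorem xs_cj2 (k x : G) : cj k⁻¹ (cj k x) = x := by unfold cj; group

theorem xs_cmt_cj {y : Gt} {k a b : G} (h : cmt a b = cj (lf k) y) :
    cmt (cj k⁻¹ a) (cj k⁻¹ b) = y := by
  have e := cmt_cj k (cj k⁻¹ a) (cj k⁻¹ b)
  rw [xs_cj1, xs_cj1, h] at e
  unfold cj at e ⊢
  exact (mul_left_cancel (mul_right_cancel e)).symm

theorem col_cj {y : Gt} {col : G × G → Prop} (h : Col y col) (k : G) :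
    Col (cj (lf k) y) fun p => col (cj k⁻¹ p.1, cj k⁻¹ p.2) := by
  have hn : ∀ x : G, cj k⁻¹ (-x) = -cj k⁻¹ x := fun x => by unfold cj; rw [mul_neg, neg_mul]
  refine ⟨fun p hp => ?_, fun a b hp => ?_, fun a b hp => ?_, fun p q hp hm => ?_⟩
  · have hc : Continuous fun p : G × G => (cj k⁻¹ p.1, cj k⁻¹ p.2) := by
      unfold cj; fun_prop
    exact ((hc.tendsto p).eventually (h.loc _ (xs_cmt_cj hp))).mono
      fun q hq h1 => hq (xs_cmt_cj h1)
  · simp only [hn]; exact h.sg1 _ _ (xs_cmt_cj hp)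
  · simp only [hn]; exact h.sg2 _ _ (xs_cmt_cj hp)
  · exact h.hm _ _ (xs_cmt_cj hp) (hm1_cj k⁻¹ hm)

/-- It suffices to treat one element of each conjugacy class. -/
theorem k3_cj {y : Gt} (k : G)
    (h : (∃ a b, cmt a b = cj (lf k) y) ∧ ∀ col, Col (cj (lf k) y) col → ∀ p q : G × G,
      cmt p.1 p.2 = cj (lf k) y → cmt q.1 q.2 = cj (lf k) y → (col p ↔ col q)) :
    (∃ a b, cmt a b = y) ∧ ∀ col, Col y col → ∀ p q : G × G,
      cmt p.1 p.2 = y → cmt q.1 q.2 = y → (col p ↔ col q) := by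
  obtain ⟨⟨a, b, e⟩, h2⟩ := h
  refine ⟨⟨_, _, xs_cmt_cj e⟩, fun col hc p q hp hq => ?_⟩
  have := h2 _ (col_cj hc k) (cj k p.1, cj k p.2) (cj k q.1, cj k q.2)
    (by rw [cmt_cj, hp]) (by rw [cmt_cj, hq])
  simpa only [xs_cj2] using this

end Pool.Agent.MP_596265_gt.Erg

/-! Fibres over hyperbolic elements with a fixed point and over elliptic elements. -/

namespace Pool.Agent.MP_596265_gt.Erg

open Real Filter Topology MeasureTheory Set

variable {g : ℕ}

theorem xd_fricke (a b : G) : tr (cm a b) =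
    tr a ^ 2 + tr b ^ 2 + tr (a * b) ^ 2 - tr a * tr b * tr (a * b) - 2 := by
  have ha := basic_det a
  have hb := basic_det b
  simp only [tr, cm, basic_mul, basic_inv00, basic_inv01, basic_inv10, basic_inv11]
  linear_combination ((a 0 0 + a 1 1) ^ 2 - 2 * (a 0 0 * a 1 1 - a 0 1 * a 1 0)) * hb +
    ((b 0 0 + b 1 1) ^ 2 - 2) * ha

theorem xd_quad {A B C : ℝ} (h : 0 < B ^ 2 + A * C) :
    ∃ r s : ℝ, 0 < A * r ^ 2 - 2 * B * r * s - C * s ^ 2 := by
  rcases lt_trichotomy A 0 with hA | hA | hA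
  · refine ⟨B, A, ?_⟩
    have := mul_pos (neg_pos.2 hA) h
    linarith [show A * B ^ 2 - 2 * B * B * A - C * A ^ 2 = -A * (B ^ 2 + A * C) by ring]
  · subst hA
    have hB : B ≠ 0 := by rintro rfl; simp at h
    refine ⟨-(C + 1) / (2 * B), 1, ?_⟩
    have : 2 * B * (-(C + 1) / (2 * B)) = -(C + 1) := by field_simp
    rw [this]; linarith only []
  · exact ⟨1, 0, by simpa using hA⟩

theorem xd_cm_comm {a k : G} (b : G) (h : k * a = a * k) : cm a (b * k) = cm a b := by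
  have : k * a⁻¹ * k⁻¹ = a⁻¹ := by
    rw [mul_inv_eq_iff_eq_mul, eq_inv_mul_iff_mul_eq, ← mul_assoc, ← h, mul_inv_cancel_right]
  calc cm a (b * k) = a * b * (k * a⁻¹ * k⁻¹) * b⁻¹ := by simp only [cm, mul_inv_rev, mul_assoc]
    _ = cm a b := by rw [this, cm]

theorem exists_ell_partner {a b : G} (h : 2 < tr (cm a b)) :
    ∃ b', cm a b' = cm a b ∧ ell b' := by
  rw [xd_fricke] at h
  obtain ⟨r, s, hq⟩ := xd_quad (A := 4 - tr b ^ 2) (B := tr b * (tr (a * b) - tr a * tr b / 2))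
    (C := tr a ^ 2 - 4 + (tr (a * b) - tr a * tr b / 2) ^ 2) (by linarith)
  have hd := basic_det a
  set D := r ^ 2 - s ^ 2 * (tr a ^ 2 / 4 - 1) with hD
  set L := r * tr b + s * (tr (a * b) - tr a * tr b / 2) with hL
  have h4 : L ^ 2 < 4 * D := by rw [hD, hL]; linarith only [hq]
  have hpos : 0 < D := by linarith only [sq_nonneg L, h4]
  have hs : 0 < √D := sqrt_pos.2 hpos
  have hs2 : √D ^ 2 = D := sq_sqrt hpos.le
  obtain ⟨u, hu⟩ : ∃ u, u * √D = 1 := ⟨(√D)⁻¹, inv_mul_cancel₀ hs.ne'⟩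
  have hu2 : u ^ 2 * D = 1 := by rw [← hs2, ← mul_pow, hu, one_pow]
  let k : G := ⟨!![u * (r + s * (a 0 0 - tr a / 2)), u * (s * a 0 1);
      u * (s * a 1 0), u * (r + s * (a 1 1 - tr a / 2))], by
    rw [Matrix.det_fin_two_of]
    rw [hD] at hu2
    unfold tr at *
    linear_combination hu2 + u ^ 2 * s ^ 2 * hd⟩
  have k00 : k 0 0 = u * (r + s * (a 0 0 - tr a / 2)) := rfl
  have k01 : k 0 1 = u * (s * a 0 1) := rfl
  have k10 : k 1 0 = u * (s * a 1 0) := rfl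
  have k11 : k 1 1 = u * (r + s * (a 1 1 - tr a / 2)) := rfl
  refine ⟨b * k, xd_cm_comm b ?_, ?_⟩
  · apply basic_ext <;> simp only [basic_mul, k00, k01, k10, k11] <;> ring
  · have e : tr (b * k) = u * L := by
      rw [hL]
      simp only [tr, basic_mul, k00, k01, k10, k11]
      ring
    rw [ell, e, ← sq_lt_sq₀ (abs_nonneg _) (by norm_num), sq_abs, mul_pow]
    have hu0 : 0 < u ^ 2 := (mul_pos_iff_of_pos_right hpos).1 (hu2 ▸ one_pos)
    linarith only [mul_lt_mul_of_pos_left h4 hu0, hu2]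

theorem xd_cmt {y : Gt} (hy : y ∈ Th 1) (ht : -2 < tr (pj y)) {a b : G} (h : cm a b = pj y) :
    cmt a b = y :=
  (th_uniq hy (cmt_mem a b) (by rw [pj_cmt, h]) ht).symm

theorem xd_cm {y : Gt} {a b : G} (h : cmt a b = y) : cm a b = pj y := by rw [← h, pj_cmt]

theorem xd_ex {c : G} (h : 2 < tr c) : ∃ a, Pl c a ∧ 2 < |tr a| := by
  obtain ⟨k, l, -, e⟩ := conj_dia h
  have he : exp (l / 2) * exp (-(l / 2)) = 1 := by rw [← exp_add, add_neg_cancel, exp_zero]
  let x : G := ⟨!![2 * exp (l / 2), 4 * exp (l / 2) - 1; 1, 2], by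
    rw [Matrix.det_fin_two_of]; ring⟩
  have x00 : x 0 0 = 2 * exp (l / 2) := rfl
  have x01 : x 0 1 = 4 * exp (l / 2) - 1 := rfl
  have x10 : x 1 0 = 1 := rfl
  have x11 : x 1 1 = 2 := rfl
  have e2 : cj k (cj k⁻¹ x) = x := by simp [cj, mul_assoc]
  refine ⟨cj k⁻¹ x, ?_, ?_⟩
  · rw [← pl_cj k, e, e2]
    simp only [Pl, tr, basic_mul, basic_inv00, basic_inv01, basic_inv10, basic_inv11, basic_dia00,
      basic_dia01, basic_dia10, basic_dia11, x00, x01, x10, x11]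
    linear_combination 2 * he
  · rw [tr_cj, tr, x00, x11]
    have := exp_pos (l / 2)
    exact lt_abs.2 (Or.inl (by linarith only [this]))

theorem xd_move {y : Gt} (hy : y ∈ Hp) {a b : G} (h : cmt a b = y) :
    ∃ a' b', ell a' ∧ cmt a' b' = y ∧ ∀ col, Col y col → (col (a, b) ↔ col (a', b')) := by
  have h1 : y ≠ 1 := by
    rintro rfl
    have := hy.2
    rw [map_one, tr_one] at this
    exact lt_irrefl _ this
  obtain ⟨b', e, hb⟩ := exists_ell_partner (a := a) (b := b) (by rw [xd_cm h]; exact hy.2)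
  have h2 : cmt a b' = y := xd_cmt hy.1 (by linarith [hy.2]) (e.trans (xd_cm h))
  have hm := nm_hm (nm_inv a b')
  refine ⟨b'⁻¹, b' * a, (ell_inv b').2 hb, (cmt_hm hm).trans h2, fun col hc => ?_⟩
  exact (col_same hc h1 h h2).trans (hc.hm' (p := (a, b')) h2 hm).symm

theorem hp_ell {y : Gt} (hy : y ∈ Hp) : ∃ a b, ell a ∧ cmt a b = y := by
  obtain ⟨a, h1, h2⟩ := xd_ex hy.2
  obtain ⟨b, hb⟩ := partner h1 h2
  obtain ⟨a', b', h3, h4, -⟩ := xd_move hy (xd_cmt hy.1 (by linarith [hy.2]) hb)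
  exact ⟨a', b', h3, h4⟩

theorem k3_hyp {y : Gt} (hy : y ∈ Hp) :
    (∃ a b, cmt a b = y) ∧ ∀ col, Col y col → ∀ p q : G × G,
      cmt p.1 p.2 = y → cmt q.1 q.2 = y → (col p ↔ col q) := by
  refine ⟨(hp_ell hy).imp fun _ h => h.imp fun _ h => h.2, fun col hc p q hp hq => ?_⟩
  obtain ⟨a, b, ha, h1, h2⟩ := xd_move hy hp
  obtain ⟨a', b', ha', h1', h2'⟩ := xd_move hy hq
  have hne : cm a b ≠ 1 := by
    intro e
    have := hy.2
    rw [← xd_cm h1, e, tr_one] at this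
    exact lt_irrefl _ this
  have hm := hm_ell ha ha' hne ((xd_cm h1').trans (xd_cm h1).symm)
  exact (h2 col hc).trans ((hc.hm' (p := (a, b)) h1 hm).symm.trans (h2' col hc).symm)

/-- Polar chart of the upper sheet over a rotation. -/
noncomputable def xd_F (t : ℝ) (z : ℝ × ℝ) : G :=
  ⟨!![√((1 + z.1 ^ 2) / (1 + t ^ 2)) + z.1 * cos (π * z.2),
      -(t * √((1 + z.1 ^ 2) / (1 + t ^ 2))) + z.1 * sin (π * z.2);
      t * √((1 + z.1 ^ 2) / (1 + t ^ 2)) + z.1 * sin (π * z.2),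
      √((1 + z.1 ^ 2) / (1 + t ^ 2)) - z.1 * cos (π * z.2)], by
    have h1 : √((1 + z.1 ^ 2) / (1 + t ^ 2)) ^ 2 = (1 + z.1 ^ 2) / (1 + t ^ 2) :=
      sq_sqrt (by positivity)
    rw [eq_div_iff (by positivity)] at h1
    rw [Matrix.det_fin_two_of]
    linear_combination h1 - z.1 ^ 2 * sin_sq_add_cos_sq (π * z.2)⟩

theorem xd_F_cont (t : ℝ) : Continuous (xd_F t) := by
  apply Continuous.subtype_mk
  refine continuous_matrix fun i j => ?_
  fin_cases i <;> fin_cases j <;> simp only [Matrix.of_apply, Matrix.cons_val', Fin.zero_eta,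
    Fin.mk_one, Matrix.cons_val_zero, Matrix.cons_val_one, Matrix.cons_val_fin_one] <;> fun_prop

theorem xd_F_mem {t : ℝ} {x : G} : (x 1 0 - x 0 1 = t * tr x ∧ 2 < tr x) ↔
    x ∈ xd_F t '' (Ioi |t| ×ˢ univ) := by
  have ht : 0 < 1 + t ^ 2 := by positivity
  constructor
  · rintro ⟨h1, h2⟩
    obtain ⟨r, a, hr, e1, e2⟩ := basic_polar ((x 0 0 - x 1 1) / 2) ((x 1 0 + x 0 1) / 2)
    have hd := basic_det x
    have hr2 : r ^ 2 = ((x 0 0 - x 1 1) / 2) ^ 2 + ((x 1 0 + x 0 1) / 2) ^ 2 := by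
      rw [e1, e2]; linear_combination (-r ^ 2) * sin_sq_add_cos_sq (π * a)
    have h3 : (tr x / 2) ^ 2 * (1 + t ^ 2) = 1 + r ^ 2 := by
      rw [hr2]
      unfold tr at *
      linear_combination hd - (x 1 0 - x 0 1 + t * (x 0 0 + x 1 1)) / 4 * h1
    have h4 : √((1 + r ^ 2) / (1 + t ^ 2)) = tr x / 2 := by
      rw [← h3, mul_div_cancel_right₀ _ ht.ne', sqrt_sq (by linarith only [h2])]
    refine ⟨(r, a), ⟨?_, trivial⟩, ?_⟩
    · have h5 : 1 < (tr x / 2) ^ 2 := one_lt_pow₀ (by linarith only [h2]) two_ne_zero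
      have h6 : t ^ 2 < r ^ 2 := by linarith only [mul_lt_mul_of_pos_right h5 ht, h3]
      exact abs_lt_of_sq_lt_sq h6 hr
    · apply basic_ext
      · show √((1 + r ^ 2) / (1 + t ^ 2)) + r * cos (π * a) = _
        rw [h4, ← e1, tr]; ring
      · show -(t * √((1 + r ^ 2) / (1 + t ^ 2))) + r * sin (π * a) = _
        rw [h4, ← e2]; linear_combination h1 / 2
      · show t * √((1 + r ^ 2) / (1 + t ^ 2)) + r * sin (π * a) = _
        rw [h4, ← e2]; linear_combination (-1 / 2) * h1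
      · show √((1 + r ^ 2) / (1 + t ^ 2)) - r * cos (π * a) = _
        rw [h4, ← e1, tr]; ring
  · rintro ⟨⟨r, a⟩, ⟨hr, -⟩, rfl⟩
    have e : tr (xd_F t (r, a)) = 2 * √((1 + r ^ 2) / (1 + t ^ 2)) := by
      show √((1 + r ^ 2) / (1 + t ^ 2)) + r * cos (π * a) +
        (√((1 + r ^ 2) / (1 + t ^ 2)) - r * cos (π * a)) = _
      ring
    refine ⟨?_, ?_⟩
    · rw [e]
      show t * √((1 + r ^ 2) / (1 + t ^ 2)) + r * sin (π * a) -
        (-(t * √((1 + r ^ 2) / (1 + t ^ 2))) + r * sin (π * a)) = _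
      ring
    · have h6 : t ^ 2 < r ^ 2 := by
        rw [← sq_abs t]
        exact pow_lt_pow_left₀ hr (abs_nonneg t) two_ne_zero
      have : 1 < √((1 + r ^ 2) / (1 + t ^ 2)) := by
        rw [lt_sqrt zero_le_one, lt_div_iff₀ ht]; linarith only [h6]
      linarith

theorem xd_rot {y : Gt} (hy : y ∈ Th 1) {θ : ℝ} (hc : pj y = rot θ) (he : ell (pj y)) :
    (∃ a b, cmt a b = y) ∧ ∀ col, Col y col → ∀ p q : G × G,
      cmt p.1 p.2 = y → cmt q.1 q.2 = y → (col p ↔ col q) := by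
  have hb := abs_lt.1 he
  have hb' := hb
  rw [hc, tr_rot] at hb'
  have hs : sin (π * θ) ≠ 0 := by
    intro h0
    have := sin_sq_add_cos_sq (π * θ)
    rw [h0] at this
    linarith [mul_pos (sub_pos.2 hb'.1) (sub_pos.2 hb'.2)]
  set t := (1 - cos (π * θ)) / sin (π * θ) with ht
  have ht' : t * sin (π * θ) = 1 - cos (π * θ) := div_mul_cancel₀ _ hs
  have hpl : ∀ x : G, Pl (pj y) x ↔ x 1 0 - x 0 1 = t * tr x := by
    intro x
    rw [hc]
    simp only [Pl, tr, basic_mul, basic_inv00, basic_inv01, basic_inv10, basic_inv11, basic_rot00,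
      basic_rot01, basic_rot10, basic_rot11]
    constructor
    · intro h
      apply mul_right_cancel₀ hs
      linear_combination h - (x 0 0 + x 1 1) * ht'
    · intro h
      linear_combination sin (π * θ) * h + (x 0 0 + x 1 1) * ht'
  have hA : IsPreconnected (xd_F t '' (Ioi |t| ×ˢ univ)) :=
    (isPreconnected_Ioi.prod isPreconnected_univ).image _ (xd_F_cont t).continuousOn
  have hp : ∀ x ∈ xd_F t '' (Ioi |t| ×ˢ univ), ∃ b, cmt x b = y := by
    intro x hx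
    obtain ⟨h1, h2⟩ := xd_F_mem.2 hx
    obtain ⟨b, hb2⟩ := partner ((hpl x).2 h1) (lt_abs.2 (Or.inl h2))
    exact ⟨b, xd_cmt hy hb.1 hb2⟩
  have h1 : y ≠ 1 := by
    rintro rfl
    have := hb.2
    rw [map_one, tr_one] at this
    exact lt_irrefl _ this
  refine ⟨⟨_, hp _ ⟨(|t| + 1, 0), ⟨by simp, trivial⟩, rfl⟩⟩, fun col hcol => ?_⟩
  have key : ∀ p : G × G, cmt p.1 p.2 = y → ∃ q : G × G, cmt q.1 q.2 = y ∧
      q.1 ∈ xd_F t '' (Ioi |t| ×ˢ univ) ∧ (col p ↔ col q) := by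
    rintro ⟨a, b⟩ h
    have h2 : Pl (pj y) a := xd_cm h ▸ pl_cm a b
    have h3 : 2 < |tr a| := by
      by_contra hn
      have := kappa_ge b (not_lt.1 hn)
      rw [xd_cm h] at this
      linarith only [hb.2, this]
    rcases lt_abs.1 h3 with h4 | h4
    · exact ⟨(a, b), h, xd_F_mem.1 ⟨(hpl a).1 h2, h4⟩, Iff.rfl⟩
    · refine ⟨(-a, b), (cmt_neg1 a b).trans h,
        xd_F_mem.1 ⟨(hpl _).1 ((pl_neg _ a).2 h2), by rwa [tr_neg]⟩, (hcol.sg1 a b h).symm⟩
  intro p q hp' hq'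
  obtain ⟨p₁, a1, a2, a3⟩ := key p hp'
  obtain ⟨q₁, b1, b2, b3⟩ := key q hq'
  exact a3.trans ((col_region hcol h1 hA hp a1 b1 a2 b2).trans b3.symm)

theorem xd_pj_cj (k : G) (y : Gt) : pj (cj (lf k) y) = cj k (pj y) := by
  simp only [cj, map_mul, map_inv, pj_lf]

theorem k3_ell {y : Gt} (hy : y ∈ Th 1) (he : ell (pj y)) :
    (∃ a b, cmt a b = y) ∧ ∀ col, Col y col → ∀ p q : G × G,
      cmt p.1 p.2 = y → cmt q.1 q.2 = y → (col p ↔ col q) := by
  obtain ⟨k, θ, e⟩ := conj_rot he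
  exact k3_cj k (xd_rot (th_cj _ hy) ((xd_pj_cj k y).trans e)
    (by rw [xd_pj_cj, ell_cj]; exact he))

end Pool.Agent.MP_596265_gt.Erg

/-! Fibres over elements of trace at most -2 and of trace 2. -/

namespace Pool.Agent.MP_596265_gt.Erg

open Real Filter Topology MeasureTheory Set

variable {g : ℕ}

theorem xe_cm {y : Gt} {a b : G} (h : cmt a b = y) : cm a b = pj y := by rw [← h, pj_cmt]

theorem xe_pj_cj (k : G) (y : Gt) : pj (cj (lf k) y) = cj k (pj y) := by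
  simp only [cj, map_mul, map_inv, pj_lf]

theorem xe_fin {y : Gt} (h1 : y ≠ 1) {A : Set G} (hA : IsPreconnected A) (hn : A.Nonempty)
    (hp : ∀ x ∈ A, ∃ b, cmt x b = y)
    (key : ∀ col, Col y col → ∀ p : G × G, cmt p.1 p.2 = y → ∃ q : G × G, cmt q.1 q.2 = y ∧
      q.1 ∈ A ∧ (col p ↔ col q)) :
    (∃ a b, cmt a b = y) ∧ ∀ col, Col y col → ∀ p q : G × G,
      cmt p.1 p.2 = y → cmt q.1 q.2 = y → (col p ↔ col q) := by
  refine ⟨hn.imp fun x hx => hp x hx, fun col hcol p q hp' hq' => ?_⟩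
  obtain ⟨p₁, a1, a2, a3⟩ := key col hcol p hp'
  obtain ⟨q₁, b1, b2, b3⟩ := key col hcol q hq'
  exact a3.trans ((col_region hcol h1 hA hp a1 b1 a2 b2).trans b3.symm)

theorem xe_one (w : Gt) (t : ℝ) : ap w (t + 1) = ap w t + 1 := (liftP w).1 t

theorem xe_bound {w : Gt} {s : ℝ} (h : ap w s = s) (t : ℝ) : t - 1 < ap w t ∧ ap w t < t + 1 := by
  have h1 := Int.floor_le (t - s)
  have h2 := Int.lt_floor_add_one (t - s)
  have e1 := ap_add_int w s ⌊t - s⌋
  have e2 := xe_one w (s + ⌊t - s⌋)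
  have m1 : ap w (s + ⌊t - s⌋) ≤ ap w t := (ap w).monotone (by linarith)
  have m2 : ap w t < ap w (s + ⌊t - s⌋ + 1) := (ap w).strictMono (by linarith)
  constructor <;> linarith

theorem xe_entries (w : Gt) (t : ℝ) : ∃ r : ℝ, 0 < r ∧
    pj w 0 0 * cos (π * t) + pj w 0 1 * sin (π * t) = r * cos (π * ap w t) ∧
    pj w 1 0 * cos (π * t) + pj w 1 1 * sin (π * t) = r * sin (π * ap w t) := by
  obtain ⟨r, hr, e⟩ := (liftP w).2 t
  have e0 := congrFun e 0
  have e1 := congrFun e 1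
  rw [lifts_mv] at e0 e1
  exact ⟨r, hr, e0, e1⟩

theorem xe_inv (w : Gt) (t : ℝ) : ap w (ap w⁻¹ t) = t := by
  rw [← ap_mul, mul_inv_cancel, map_one]; rfl

theorem xe_lift {a : G} (h : 2 < tr a) : ∃ w : Gt, pj w = a ∧ ∃ s, ap w s = s := by
  obtain ⟨k, l, -, e⟩ := conj_dia h
  obtain ⟨D, -, hD, -⟩ := exists_dlt
  refine ⟨(lf k)⁻¹ * D l * lf k, ?_, ap (lf k)⁻¹ 0, ?_⟩
  · rw [map_mul, map_mul, map_inv, pj_lf, (hD l).1, ← e]
    simp [cj, mul_assoc]
  · rw [ap_mul, ap_mul, xe_inv, (hD l).2.1]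

theorem xe_sign {a b : G} (ht : 2 < tr a) {ε : ℝ} (hε : ε = 1 ∨ ε = -1)
    (h : ap (cmt a b) 0 = ε) : 0 < ε * a 1 0 := by
  obtain ⟨w, hw, s, hs⟩ := xe_lift ht
  have e : cm w (lf b) = cmt a b := cm_lift (hw ▸ PM.refl _) (by rw [pj_lf]; exact PM.refl _)
  have hs' : ap w⁻¹ s = s := (ap w).injective (by rw [xe_inv, hs])
  have hf : ap (lf b * w⁻¹ * (lf b)⁻¹) (ap (lf b) s) = ap (lf b) s := by
    rw [← ap_mul, inv_mul_cancel_right, ap_mul, hs']
  have hb := xe_bound hf 0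
  have e2 : ap w (ap (lf b * w⁻¹ * (lf b)⁻¹) 0) = ε := by
    rw [← ap_mul, ← h, ← e]; simp only [cm, mul_assoc]
  have hw0 := xe_bound hs 0
  obtain ⟨r, hr, -, e1⟩ := xe_entries w 0
  rw [hw, mul_zero, cos_zero, sin_zero, mul_one, mul_zero, add_zero] at e1
  have p1 := xe_one w 0
  have p2 := xe_one w (-1)
  rw [neg_add_cancel] at p2
  rcases hε with rfl | rfl
  · have m := (ap w).strictMono hb.2
    rw [e2, p1] at m
    have : 0 < sin (π * ap w 0) := sin_pos_of_pos_of_lt_pi (mul_pos pi_pos (by linarith only [m]))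
      (mul_lt_of_lt_one_right pi_pos (by linarith only [hw0]))
    rw [one_mul, e1]; exact mul_pos hr this
  · have m := (ap w).strictMono hb.1
    rw [zero_sub] at m
    have : 0 < sin (π * -ap w 0) := sin_pos_of_pos_of_lt_pi (mul_pos pi_pos (by linarith only [p2, e2, m]))
      (mul_lt_of_lt_one_right pi_pos (by linarith only [hw0]))
    rw [mul_neg, sin_neg] at this
    rw [e1]; linarith only [mul_pos hr this]

theorem xe_eps {y : Gt} (hy : y ∈ Th 1) (h0 : pj y 1 0 = 0) (hl : pj y 0 0 < 0) :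
    ap y 0 = 1 ∨ ap y 0 = -1 := by
  obtain ⟨r, hr, e0, e1⟩ := xe_entries y 0
  rw [mul_zero, cos_zero, sin_zero, mul_one, mul_zero, add_zero] at e0 e1
  rw [h0] at e1
  obtain ⟨n, hn⟩ := sin_eq_zero_iff.1 ((mul_eq_zero.1 e1.symm).resolve_left hr.ne')
  have hn' : ap y 0 = n := mul_left_cancel₀ pi_ne_zero (by rw [← hn, mul_comm])
  obtain ⟨⟨t, ht⟩, s, hs⟩ := hy
  have a1 := ap_add_int y 0 ⌊t⌋
  have a2 := ap_add_int y 0 ⌈s⌉
  rw [zero_add] at a1 a2
  have m1 : ap y ⌊t⌋ ≤ ap y t := (ap y).monotone (Int.floor_le t)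
  have m2 : ap y s ≤ ap y ⌈s⌉ := (ap y).monotone (Int.le_ceil s)
  have b1 := Int.lt_floor_add_one t
  have b2 := Int.ceil_lt_add_one s
  push_cast at ht hs
  have c1 : (n : ℝ) < 2 := by linarith only [hn', a1, m1, b1, ht]
  have c2 : (-2 : ℝ) < n := by linarith only [hn', a2, m2, b2, hs]
  have c3 : n ≠ 0 := by
    rintro rfl
    rw [hn', Int.cast_zero, mul_zero, cos_zero] at e0
    linarith only [hl, hr, e0]
  have d1 : n < 2 := by exact_mod_cast c1
  have d2 : -2 < n := by exact_mod_cast c2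
  have : n = 1 ∨ n = -1 := by omega
  rw [hn']
  rcases this with rfl | rfl <;> simp

theorem xe_fract (y : Gt) (t : ℝ) : ap y (Int.fract t) - Int.fract t = ap y t - t := by
  have := ap_add_int y (Int.fract t) ⌊t⌋
  rw [Int.fract_add_floor] at this
  have h2 := Int.fract_add_floor t
  linarith

theorem xe_par {y : Gt} (hy : y ∈ Th 1) (h0 : pj y 1 0 = 0) (h1 : pj y 0 0 = -1)
    (h2 : pj y 1 1 = -1) : ap y 0 * pj y 0 1 < 0 := by
  have key : ∀ t, ∃ r, 0 < r ∧ r * sin (π * (ap y t - t)) = -pj y 0 1 * sin (π * t) ^ 2 := by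
    intro t
    obtain ⟨r, hr, e0, e1⟩ := xe_entries y t
    rw [h0, h2] at e1
    rw [h1] at e0
    refine ⟨r, hr, ?_⟩
    rw [mul_sub, sin_sub]
    linear_combination sin (π * t) * e0 - cos (π * t) * e1
  obtain ⟨⟨t, ht⟩, s, hs⟩ := id hy
  push_cast at ht hs
  have p1 := xe_one y 0
  rw [zero_add] at p1
  rcases xe_eps hy h0 (by rw [h1]; norm_num) with e | e
  · have f := xe_fract y t
    have m : ap y 0 ≤ ap y (Int.fract t) := (ap y).monotone (Int.fract_nonneg t)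
    obtain ⟨r, hr, q⟩ := key (Int.fract t)
    have := Int.fract_lt_one t
    have h3 : 0 < sin (π * (ap y (Int.fract t) - Int.fract t)) :=
      sin_pos_of_pos_of_lt_pi (mul_pos pi_pos (by linarith only [e, m, this]))
        (mul_lt_of_lt_one_right pi_pos (by linarith only [ht, f]))
    rw [e, one_mul]
    by_contra hc
    have := mul_nonneg (not_lt.1 hc) (sq_nonneg (sin (π * Int.fract t)))
    linarith only [mul_pos hr h3, q, this]
  · have f := xe_fract y s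
    have m : ap y (Int.fract s) < ap y 1 := (ap y).strictMono (Int.fract_lt_one s)
    obtain ⟨r, hr, q⟩ := key (Int.fract s)
    have := Int.fract_nonneg s
    have h3 : 0 < sin (π * -(ap y (Int.fract s) - Int.fract s)) :=
      sin_pos_of_pos_of_lt_pi (mul_pos pi_pos (by linarith))
        (mul_lt_of_lt_one_right pi_pos (by linarith))
    rw [mul_neg, sin_neg] at h3
    rw [e]
    by_contra hc
    have := mul_nonneg (not_lt.1 hc) (sq_nonneg (sin (π * Int.fract s)))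
    linarith only [mul_pos hr h3, q, this]

/-- Chart by three entries when the lower left entry is not zero. -/
noncomputable def xe_F (z : {z : ℝ × ℝ × ℝ // z.2.2 ≠ 0}) : G :=
  ⟨!![z.1.1, (z.1.1 * z.1.2.1 - 1) / z.1.2.2; z.1.2.2, z.1.2.1], by
    rw [Matrix.det_fin_two_of, div_mul_cancel₀ _ z.2]; ring⟩

theorem xe_F_cont : Continuous xe_F := by
  apply Continuous.subtype_mk
  refine continuous_matrix fun i j => ?_
  fin_cases i <;> fin_cases j <;> simp only [Matrix.of_apply, Matrix.cons_val', Fin.zero_eta,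
    Fin.mk_one, Matrix.cons_val_zero, Matrix.cons_val_one, Matrix.cons_val_fin_one]
  · fun_prop
  · exact Continuous.div (by fun_prop) (by fun_prop) fun z => z.2
  · fun_prop
  · fun_prop

theorem xe_conn (α β γ ε : ℝ) : IsPreconnected
    {x : G | α * x 0 0 + β * x 1 1 + γ * x 1 0 = 0 ∧ 2 < tr x ∧ 0 < ε * x 1 0} := by
  let S : Set (ℝ × ℝ × ℝ) :=
    {z | α * z.1 + β * z.2.1 + γ * z.2.2 = 0 ∧ 2 < z.1 + z.2.1 ∧ 0 < ε * z.2.2}
  have hS : Convex ℝ S := by
    rintro u ⟨u1, u2, u3⟩ v ⟨v1, v2, v3⟩ a b ha hb hab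
    have k : ∀ c p q : ℝ, c < p → c < q → c < a * p + b * q := fun c p q hp hq => by
      simpa using (convex_Ioi c) hp hq ha hb hab
    refine ⟨?_, ?_, ?_⟩ <;> simp only [Prod.fst_add, Prod.snd_add, Prod.smul_fst, Prod.smul_snd,
      smul_eq_mul]
    · linear_combination a * u1 + b * v1
    · linarith [k _ _ _ u2 v2]
    · linarith only [k _ _ _ u3 v3]
  have hne : ∀ z : S, z.1.2.2 ≠ 0 := fun z h => by
    have := z.2.2.2
    rw [h, mul_zero] at this
    exact lt_irrefl _ this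
  have := Subtype.preconnectedSpace hS.isPreconnected
  have h := isPreconnected_range (f := fun z : S => xe_F ⟨z.1, hne z⟩)
    (xe_F_cont.comp (continuous_subtype_val.subtype_mk _))
  convert h using 1
  ext x
  constructor
  · intro hx
    refine ⟨⟨(x 0 0, x 1 1, x 1 0), hx⟩, basic_ext rfl ?_ rfl rfl⟩
    show (x 0 0 * x 1 1 - 1) / x 1 0 = x 0 1
    rw [div_eq_iff (hne ⟨(x 0 0, x 1 1, x 1 0), hx⟩)]
    linear_combination basic_det x
  · rintro ⟨z, rfl⟩
    exact z.2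

theorem xe_neg {y : Gt} (hy : y ∈ Th 1) (ht : tr (pj y) ≤ -2) (h0 : pj y 1 0 = 0) :
    (∃ a b, cmt a b = y) ∧ ∀ col, Col y col → ∀ p q : G × G,
      cmt p.1 p.2 = y → cmt q.1 q.2 = y → (col p ↔ col q) := by
  have hd := basic_det (pj y)
  rw [h0, mul_zero, sub_zero] at hd
  have hl : pj y 0 0 < 0 := by
    by_contra hc
    unfold tr at ht
    have := mul_nonpos_of_nonneg_of_nonpos (not_lt.1 hc) (show pj y 1 1 ≤ 0 by linarith)
    linarith
  have hε := xe_eps hy h0 hl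
  have hpl : ∀ x : G, Pl (pj y) x ↔
      (pj y 1 1 - 1) * x 0 0 + (pj y 0 0 - 1) * x 1 1 + -pj y 0 1 * x 1 0 = 0 := by
    intro x
    simp only [Pl, tr, basic_mul, basic_inv00, basic_inv01, basic_inv10, basic_inv11, h0]
    constructor <;> intro h <;> linear_combination h
  have h1 : y ≠ 1 := by
    rintro rfl
    rw [map_one, tr_one] at ht
    linarith
  have hsq : ap y 0 * ap y 0 = 1 := by rcases hε with e | e <;> rw [e] <;> norm_num
  refine xe_fin h1 (xe_conn (pj y 1 1 - 1) (pj y 0 0 - 1) (-pj y 0 1) (ap y 0)) ?_ ?_ ?_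
  · have ex : ∃ u v w : ℝ, (pj y 1 1 - 1) * u + (pj y 0 0 - 1) * v + -pj y 0 1 * w = 0 ∧
        2 < u + v ∧ 0 < ap y 0 * w := by
      by_cases e : pj y 1 1 - pj y 0 0 = 0
      · have e1 : pj y 0 0 = -1 := by
          have : (pj y 0 0 + 1) * (pj y 0 0 - 1) = 0 := by linear_combination hd - pj y 0 0 * e
          rcases mul_eq_zero.1 this with h | h <;> linarith only [h, hl]
        have e2 : pj y 1 1 = -1 := by linarith
        have hm := xe_par hy h0 e1 e2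
        have hm0 : pj y 0 1 ≠ 0 := fun h => by rw [h, mul_zero] at hm; exact lt_irrefl _ hm
        refine ⟨3, 0, -6 / pj y 0 1, ?_, by norm_num, ?_⟩
        · rw [e2]; field_simp; norm_num
        · have : ap y 0 * (-6 / pj y 0 1) = -(ap y 0 * pj y 0 1) * 6 / pj y 0 1 ^ 2 := by
            field_simp
          rw [this]
          exact div_pos (by linarith only [hm]) (by positivity)
      · obtain ⟨u, hu⟩ : ∃ u, u * (pj y 1 1 - pj y 0 0) =
            pj y 0 1 * ap y 0 - 3 * (pj y 0 0 - 1) := ⟨_, div_mul_cancel₀ _ e⟩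
        exact ⟨u, 3 - u, ap y 0, by linear_combination hu, by linarith, by linarith⟩
    obtain ⟨u, v, w, e1, e2, e3⟩ := ex
    exact ⟨xe_F ⟨(u, v, w), fun h => by
      simp only at h; rw [h, mul_zero] at e3; exact lt_irrefl _ e3⟩, e1, e2, e3⟩
  · rintro x ⟨x1, x2, x3⟩
    obtain ⟨b, hb⟩ := partner ((hpl x).2 x1) (lt_abs.2 (Or.inl x2))
    have e : pj (cmt x b) = pj y := by rw [pj_cmt, hb]
    have h2 := xe_eps (cmt_mem x b) (by rw [e, h0]) (by rw [e]; exact hl)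
    have h3 := xe_sign x2 h2 rfl
    refine ⟨b, gt_ext e ?_⟩
    rcases h2 with p | p <;> rcases hε with q | q <;> rw [p] at h3 <;> rw [q] at x3 <;>
      rw [p, q] <;> linarith only [x3, h3]
  · rintro col hcol ⟨a, b⟩ h
    have h2 : Pl (pj y) a := xe_cm h ▸ pl_cm a b
    have h3 : 2 < |tr a| := by
      by_contra hn
      have := kappa_ge b (not_lt.1 hn)
      rw [xe_cm h] at this
      linarith
    rcases lt_abs.1 h3 with h4 | h4
    · exact ⟨(a, b), h, ⟨(hpl a).1 h2, h4, xe_sign h4 hε (by rw [h])⟩, Iff.rfl⟩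
    · have h5 : 2 < tr (-a) := by rwa [tr_neg]
      have h6 := (cmt_neg1 a b).trans h
      exact ⟨(-a, b), h6, ⟨(hpl _).1 ((pl_neg _ a).2 h2), h5, xe_sign h5 hε (by rw [h6])⟩,
        (hcol.sg1 a b h).symm⟩

theorem k3_neg {y : Gt} (hy : y ∈ Th 1) (ht : tr (pj y) ≤ -2) :
    (∃ a b, cmt a b = y) ∧ ∀ col, Col y col → ∀ p q : G × G,
      cmt p.1 p.2 = y → cmt q.1 q.2 = y → (col p ↔ col q) := by
  obtain ⟨k, e⟩ := conj_upper (c := pj y) (le_abs.2 (Or.inr (by linarith)))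
  exact k3_cj k (xe_neg (th_cj _ hy) (by rwa [xe_pj_cj, tr_cj]) (by rwa [xe_pj_cj]))

/-- Chart of the upper triangular elements with upper left entry greater than 1. -/
noncomputable def xe_U (z : ℝ × ℝ) : G :=
  ⟨!![exp z.1, z.2; 0, exp (-z.1)], by
    rw [Matrix.det_fin_two_of, ← exp_add, add_neg_cancel, exp_zero, mul_zero, sub_zero]⟩

theorem xe_U_cont : Continuous xe_U := by
  apply Continuous.subtype_mk
  refine continuous_matrix fun i j => ?_
  fin_cases i <;> fin_cases j <;> simp only [Matrix.of_apply, Matrix.cons_val', Fin.zero_eta,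
    Fin.mk_one, Matrix.cons_val_zero, Matrix.cons_val_one, Matrix.cons_val_fin_one] <;> fun_prop

theorem xe_U_mem {x : G} (h0 : x 1 0 = 0) (h1 : 1 < x 0 0) : x ∈ xe_U '' (Ioi 0 ×ˢ univ) := by
  have hp : 0 < x 0 0 := by linarith
  have hd := basic_det x
  rw [h0, mul_zero, sub_zero] at hd
  refine ⟨(log (x 0 0), x 0 1), ⟨log_pos h1, trivial⟩, basic_ext (exp_log hp) rfl h0.symm ?_⟩
  show exp (-log (x 0 0)) = _
  rw [exp_neg, exp_log hp]
  exact inv_eq_of_mul_eq_one_right hd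

theorem xe_up {y : Gt} (hy : y ∈ Th 1) (h1 : y ≠ 1) (ht : tr (pj y) = 2) (h0 : pj y 1 0 = 0) :
    (∃ a b, cmt a b = y) ∧ ∀ col, Col y col → ∀ p q : G × G,
      cmt p.1 p.2 = y → cmt q.1 q.2 = y → (col p ↔ col q) := by
  have hd := basic_det (pj y)
  rw [h0, mul_zero, sub_zero] at hd
  have ht' := ht
  unfold tr at ht'
  have e1 : pj y 0 0 = 1 := by
    have : (pj y 0 0 - 1) ^ 2 = 0 := by linear_combination pj y 0 0 * ht' - hd
    linarith [pow_eq_zero_iff two_ne_zero |>.1 this]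
  have e2 : pj y 1 1 = 1 := by linarith
  have hc : pj y ≠ 1 := fun e =>
    h1 (th_uniq hy one_mem_th (by rw [e, map_one]) (by linarith))
  have hm : pj y 0 1 ≠ 0 := fun e => hc (basic_ext e1 e h0 e2)
  have hpl : ∀ x : G, Pl (pj y) x ↔ x 1 0 = 0 := by
    intro x
    simp only [Pl, tr, basic_mul, basic_inv00, basic_inv01, basic_inv10, basic_inv11, h0, e1, e2]
    constructor
    · intro h
      exact mul_right_cancel₀ hm (by linear_combination -h)
    · intro h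
      linear_combination -pj y 0 1 * h
  have up : ∀ a b : G, cmt a b = y → a 1 0 = 0 := fun a b h => (hpl a).1 (xe_cm h ▸ pl_cm a b)
  have up2 : ∀ a b : G, cmt a b = y → b 1 0 = 0 := fun a b h => by
    have := up _ _ ((cmt_hm (nm_hm (nm_inv a b))).trans h)
    rwa [basic_inv10, neg_eq_zero] at this
  refine xe_fin h1 ((isPreconnected_Ioi.prod isPreconnected_univ).image _ xe_U_cont.continuousOn)
    ⟨_, (1, 0), ⟨mem_Ioi.2 one_pos, trivial⟩, rfl⟩ ?_ ?_
  · rintro _ ⟨⟨s, m⟩, ⟨hs, -⟩, rfl⟩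
    have h2 : 2 < tr (xe_U (s, m)) := by
      show 2 < exp s + exp (-s)
      have := one_lt_cosh.2 (ne_of_gt hs)
      rw [cosh_eq] at this
      linarith only [this]
    obtain ⟨b, hb⟩ := partner ((hpl (xe_U (s, m))).2 rfl) (lt_abs.2 (Or.inl h2))
    exact ⟨b, (th_uniq hy (cmt_mem _ b) (by rw [pj_cmt, hb]) (by linarith)).symm⟩
  · intro col hcol
    have k1 : ∀ a b : G, cmt a b = y → 1 < a 0 0 ^ 2 → ∃ q : G × G, cmt q.1 q.2 = y ∧
        q.1 ∈ xe_U '' (Ioi 0 ×ˢ univ) ∧ (col (a, b) ↔ col q) := by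
      intro a b h h2
      rcases lt_abs.1 ((one_lt_sq_iff_one_lt_abs _).1 h2) with h3 | h3
      · exact ⟨(a, b), h, xe_U_mem (up a b h) h3, Iff.rfl⟩
      · have h6 := (cmt_neg1 a b).trans h
        exact ⟨(-a, b), h6, xe_U_mem (up _ b h6) h3, (hcol.sg1 a b h).symm⟩
    have k2 : ∀ a b : G, cmt a b = y → a 0 0 ^ 2 ≠ 1 → ∃ q : G × G, cmt q.1 q.2 = y ∧
        q.1 ∈ xe_U '' (Ioi 0 ×ˢ univ) ∧ (col (a, b) ↔ col q) := by
      intro a b h h2
      rcases lt_or_gt_of_ne h2 with h3 | h3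
      · obtain ⟨w, hw⟩ := nm_cinv a b
        have hw' := nm_hm hw
        have da := basic_det a
        have db := basic_det b
        rw [up a b h, mul_zero, sub_zero] at da
        rw [up2 a b h, mul_zero, sub_zero] at db
        have e : cj b a⁻¹ 0 0 = a 1 1 := by
          simp only [cj, basic_mul, basic_inv00, basic_inv01, basic_inv10, basic_inv11, up a b h,
            up2 a b h]
          linear_combination a 1 1 * db
        have h4 : 1 < cj b a⁻¹ 0 0 ^ 2 := by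
          rw [e]
          by_contra hn
          have p : a 0 0 ^ 2 * a 1 1 ^ 2 = 1 := by rw [← mul_pow, da, one_pow]
          linarith only [mul_le_mul_of_nonneg_left (not_lt.1 hn) (sq_nonneg (a 0 0)), h3, p]
        obtain ⟨q, q1, q2, q3⟩ := k1 _ w ((cmt_hm hw').trans h) h4
        exact ⟨q, q1, q2, (hcol.hm' (p := (a, b)) h hw').symm.trans q3⟩
      · exact k1 a b h h3
    rintro ⟨a, b⟩ h
    by_cases h2 : a 0 0 ^ 2 = 1
    · have hw' := nm_hm (nm_inv a b)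
      have da := basic_det a
      have db := basic_det b
      have ua := up a b h
      have ub := up2 a b h
      rw [ua, mul_zero, sub_zero] at da
      rw [ub, mul_zero, sub_zero] at db
      have h3 : b⁻¹ 0 0 ^ 2 ≠ 1 := by
        rw [basic_inv00]
        intro h3
        have ea : a 1 1 = a 0 0 := by linear_combination a 0 0 * da - a 1 1 * h2
        have eb : b 0 0 = b 1 1 := by linear_combination b 1 1 * db - b 0 0 * h3
        apply hc
        rw [← xe_cm h, cm_eq_one]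
        apply basic_ext <;> simp only [basic_mul, ua, ub, ea, eb] <;> ring
      obtain ⟨q, q1, q2, q3⟩ := k2 _ _ ((cmt_hm hw').trans h) h3
      exact ⟨q, q1, q2, (hcol.hm' (p := (a, b)) h hw').symm.trans q3⟩
    · exact k2 a b h h2

theorem k3_par {y : Gt} (hy : y ∈ Th 1) (h1 : y ≠ 1) (ht : tr (pj y) = 2) :
    (∃ a b, cmt a b = y) ∧ ∀ col, Col y col → ∀ p q : G × G,
      cmt p.1 p.2 = y → cmt q.1 q.2 = y → (col p ↔ col q) := by
  obtain ⟨k, e⟩ := conj_upper (c := pj y) (le_abs.2 (Or.inl ht.ge))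
  refine k3_cj k (xe_up (th_cj _ hy) (fun h => h1 ?_) (by rwa [xe_pj_cj, tr_cj])
    (by rwa [xe_pj_cj]))
  simpa only [cj, mul_inv_eq_one, mul_eq_left] using h

end Pool.Agent.MP_596265_gt.Erg

/-! Colourings of U are constant. -/

namespace Pool.Agent.MP_596265_gt.Erg

open Real Filter Topology MeasureTheory Set

variable {g : ℕ}

theorem k3 {y : Gt} (hy : y ∈ Th 1) (h1 : y ≠ 1) :
    (∃ a b, cmt a b = y) ∧ ∀ col, Col y col → ∀ p q : G × G,
      cmt p.1 p.2 = y → cmt q.1 q.2 = y → (col p ↔ col q) := by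
  rcases lt_trichotomy (tr (pj y)) 2 with h | h | h
  · rcases le_or_gt (tr (pj y)) (-2) with h' | h'
    · exact k3_neg hy h'
    · exact k3_ell hy (abs_lt.2 ⟨h', h⟩)
  · exact k3_par hy h1 h
  · exact k3_hyp ⟨hy, h⟩

theorem xl_step (M : Tup g) (j : Fin g) :
    Rt M (j + 1) * (Rt M j)⁻¹ = cj (Rt M j) (cmt (ha M j) (hb M j)) := by
  rw [Rt_succ]; rfl

theorem xl_one [NeZero g] (M : Tup g) : Rt M 1 = cmt (ha M 0) (hb M 0) := by
  have h := Rt_succ M (0 : Fin g)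
  simpa [Rt_zero] using h

theorem xl_pj_step (M : Tup g) (j : Fin g) :
    pj (cj (Rt M j) (cmt (ha M j) (hb M j))) = cj (pre M j) (hc M j) := by
  simp only [cj, map_mul, map_inv, pj_Rt, pj_cmt, hc]

theorem xl_cj_one {k y : Gt} : cj k y = 1 ↔ y = 1 := by
  simp only [cj, mul_inv_eq_one, mul_eq_left]

theorem uu_iff [NeZero g] (hg : 3 ≤ g) {e : ℤ} {M : Tup g} :
    M ∈ UU g e ↔ ell (ha M 0) ∧ (fun k => Rt M k) ∈ TT g e := by
  have h0 : pj (Rt M 1) = hc M 0 := by rw [xl_one, pj_cmt]; rfl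
  have hT : Rt M 1 ∈ Th 1 := by rw [xl_one]; exact cmt_mem _ _
  constructor
  · rintro ⟨hX, he, hc0, hj⟩
    refine ⟨he, Rt_zero M, ⟨hT, ?_⟩, rfl, fun j hj' => ?_, fun j hj' => ?_⟩
    · rw [h0]; exact ell_kappa he hc0
    · exact (Rt_of_le M (by omega)).trans hX
    · have hs := xl_step M ⟨j + 1, by omega⟩
      obtain ⟨u, v⟩ := hj ⟨j + 1, by omega⟩ (by simp [Fin.ext_iff])
      simp only at hs ⊢
      rw [hs]
      refine ⟨th_cj _ (cmt_mem _ _), fun h => u (cmt_eq_one.1 (xl_cj_one.1 h)), fun h => v ?_⟩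
      have h2 := xl_pj_step M ⟨j + 1, by omega⟩
      simp only at h2 ⊢
      rw [← h2, h, map_inv, h0, inv_mul_cancel]
  · rintro ⟨he, -, ⟨-, ht⟩, -, hq, hs⟩
    simp only at ht hq hs
    rw [h0] at ht
    refine ⟨?_, he, fun h => ?_, fun j hj => ?_⟩
    · have h := hq (g - 1) le_rfl
      rwa [show g - 1 + 1 = g by omega] at h
    · rw [h, tr_one] at ht; exact lt_irrefl _ ht
    · have hj0 : (j : ℕ) ≠ 0 := fun h => hj (Fin.ext (by simpa using h))
      have hl := j.2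
      obtain ⟨u, v, w⟩ := hs (j - 1) (by omega)
      rw [show (j : ℕ) - 1 + 1 = j by omega, xl_step] at u v w
      refine ⟨fun h => v (xl_cj_one.2 (cmt_eq_one.2 h)), fun h => w ?_⟩
      have h2 : pj (cj (Rt M j) (cmt (ha M j) (hb M j))) = pj (Rt M 1)⁻¹ := by
        rw [xl_pj_step, map_inv, h0]; exact eq_inv_of_mul_eq_one_left h
      refine th_uniq u (th_inv hT) h2 ?_
      rw [h2, map_inv, h0, tr_inv]; linarith only [ht]

theorem xl_Rt (hg : 3 ≤ g) {e : ℤ} {M : Tup g} {p : ℕ → Gt} (hp : p ∈ TT g e)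
    (h : ∀ j : Fin g, cmt (ha M j) (hb M j) = (p j)⁻¹ * p (j + 1)) :
    (fun k => Rt M k) = p := by
  obtain ⟨h0, -, -, hq, -⟩ := hp
  simp only at hq
  have key : ∀ k, k ≤ g → Rt M k = p k := by
    intro k
    induction k with
    | zero => intro _; rw [Rt_zero, h0]
    | succ n ih =>
      intro hn
      have h1 := Rt_succ M ⟨n, hn⟩
      have h2 := h ⟨n, hn⟩
      simp only at h1 h2
      rw [h1, h2, ih (by omega), mul_inv_cancel_left]
  funext k
  rcases le_total k g with hk | hk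
  · exact key k hk
  · have e1 := hq (g - 1) le_rfl
    have e2 := hq (k - 1) (by omega)
    rw [show g - 1 + 1 = g by omega] at e1
    rw [show k - 1 + 1 = k by omega] at e2
    rw [Rt_of_le M hk, key g le_rfl, e1, e2]

/-- The tuple with given handles. -/
def xl_mk (q : Fin g → G × G) : Tup g := fun z => cond z.2 (q z.1).2 (q z.1).1

theorem xl_mk_cont : Continuous (xl_mk : (Fin g → G × G) → Tup g) := by
  refine continuous_pi fun z => ?_
  rcases z with ⟨j, _ | _⟩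
  · exact continuous_fst.comp (continuous_apply j)
  · exact continuous_snd.comp (continuous_apply j)

theorem xl_mk_self (M : Tup g) : xl_mk (fun j => (ha M j, hb M j)) = M := by
  funext z
  rcases z with ⟨j, _ | _⟩ <;> rfl

theorem uu_onto [NeZero g] (hg : 3 ≤ g) (e : ℤ) :
    (fun (M : Tup g) (k : ℕ) => Rt M k) '' UU g e = TT g e := by
  apply Subset.antisymm
  · rintro _ ⟨M, hM, rfl⟩
    exact ((uu_iff hg).1 hM).2
  · intro p hp
    have hex : ∀ j : Fin g, ∃ q : G × G, (j = 0 → ell q.1) ∧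
        cmt q.1 q.2 = (p j)⁻¹ * p (j + 1) := by
      intro j
      obtain ⟨h0, h1, -, -, hs⟩ := hp
      simp only at hs
      by_cases hj : j = 0
      · subst hj
        obtain ⟨a, b, ha', hab⟩ := hp_ell h1
        exact ⟨(a, b), fun _ => ha', by simpa [h0] using hab⟩
      · have hj0 : (j : ℕ) ≠ 0 := fun h => hj (Fin.ext (by simpa using h))
        have hl := j.2
        obtain ⟨u, v, -⟩ := hs (j - 1) (by omega)
        rw [show (j : ℕ) - 1 + 1 = j by omega] at u v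
        have e1 : (p j)⁻¹ * p (j + 1) = cj (p j)⁻¹ (p (j + 1) * (p j)⁻¹) := by
          simp only [cj, inv_inv, mul_assoc, inv_mul_cancel, mul_one]
        obtain ⟨a, b, hab⟩ := (k3 (th_cj (p j)⁻¹ u) fun h => v (xl_cj_one.1 h)).1
        exact ⟨(a, b), fun h => absurd h hj, hab.trans e1.symm⟩
    choose q hq1 hq2 using hex
    have hR : (fun k => Rt (xl_mk q) k) = p := xl_Rt hg hp hq2
    exact ⟨xl_mk q, (uu_iff hg).2 ⟨hq1 0 rfl, hR ▸ hp⟩, hR⟩

theorem xl_open {M : Tup g} (h : ∀ j, hc M j ≠ 1) :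
    𝓝 (fun j => cmt (ha M j) (hb M j)) ≤
      map (fun (N : Tup g) (j : Fin g) => cmt (ha N j) (hb N j)) (𝓝 M) := by
  have h1 : 𝓝 (fun j => cmt (ha M j) (hb M j)) ≤
      map (Pi.map fun (_ : Fin g) (p : G × G) => cmt p.1 p.2) (𝓝 fun j => (ha M j, hb M j)) := by
    rw [nhds_pi, nhds_pi, map_piMap_pi_finite]
    exact Filter.pi_mono fun j => cmt_open (h j)
  have h2 : map xl_mk (𝓝 fun j => (ha M j, hb M j)) ≤ 𝓝 M := by
    have := xl_mk_cont.tendsto fun j => (ha M j, hb M j)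
    rwa [xl_mk_self] at this
  exact h1.trans (map_mono (m := fun (N : Tup g) (j : Fin g) => cmt (ha N j) (hb N j)) h2)

theorem xl_hc [NeZero g] {e : ℤ} {M : Tup g} (hM : M ∈ UU g e) (j : Fin g) : hc M j ≠ 1 := by
  by_cases hj : j = 0
  · exact hj ▸ hM.2.2.1
  · exact (hM.2.2.2 j hj).1

theorem xl_div (M : Tup g) (j : Fin g) :
    cmt (ha M j) (hb M j) = (Rt M j)⁻¹ * Rt M (j + 1) := by
  rw [Rt_succ, inv_mul_cancel_left]

theorem uu_open [NeZero g] (hg : 3 ≤ g) {e : ℤ} {M : Tup g} (hM : M ∈ UU g e) :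
    𝓝[TT g e] (fun k => Rt M k) ≤ map (fun (M : Tup g) (k : ℕ) => Rt M k) (𝓝[UU g e] M) := by
  intro t ht
  rw [mem_map, mem_nhdsWithin_iff_exists_mem_nhds_inter] at ht
  obtain ⟨O, hO, hs⟩ := ht
  have hE : {N : Tup g | ell (ha N 0)} ∈ 𝓝 M :=
    (continuous_apply ((0 : Fin g), false)).continuousAt.preimage_mem_nhds
      (t := {x : G | ell x}) (isOpen_ell.mem_nhds hM.2.1)
  have h1 := xl_open (xl_hc hM) (image_mem_map (inter_mem hO hE))
  have hD : Continuous fun (p : ℕ → Gt) (j : Fin g) => (p j)⁻¹ * p (j + 1) :=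
    continuous_pi fun j => (continuous_apply _).inv.mul (continuous_apply _)
  have h2 := hD.tendsto fun k => Rt M k
  simp only [← xl_div] at h2
  rw [mem_nhdsWithin_iff_exists_mem_nhds_inter]
  refine ⟨_, h2 h1, ?_⟩
  rintro p ⟨⟨N, ⟨hN, hN'⟩, hNp⟩, hp⟩
  have hR : (fun k => Rt N k) = p := xl_Rt hg hp fun j => congrFun hNp j
  have := hs ⟨hN, (uu_iff hg).2 ⟨hN', hR ▸ hp⟩⟩
  rwa [mem_preimage, hR] at this

theorem xl_cmt_set {M : Tup g} {j : Fin g} {x y : G} (h : cmt x y = cmt (ha M j) (hb M j))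
    (i : Fin g) : cmt (ha (setH M j x y) i) (hb (setH M j x y) i) = cmt (ha M i) (hb M i) := by
  by_cases hi : i = j
  · subst hi; rw [ha_setH, hb_setH, h]
  · rw [ha_setH_ne _ _ _ hi, hb_setH_ne _ _ _ hi]

theorem xl_set_mem [NeZero g] (hg : 3 ≤ g) {e : ℤ} {M : Tup g} (hM : M ∈ UU g e) {j : Fin g}
    {x y : G} (h : cmt x y = cmt (ha M j) (hb M j)) (h0 : j = 0 → ell x) :
    setH M j x y ∈ UU g e := by
  obtain ⟨u, v⟩ := (uu_iff hg).1 hM
  refine (uu_iff hg).2 ⟨?_, ?_⟩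
  · by_cases hj : j = 0
    · have := h0 hj
      subst hj; rwa [ha_setH]
    · rwa [ha_setH_ne _ _ _ (Ne.symm hj)]
  · have : (fun k => Rt (setH M j x y) k) = fun k => Rt M k :=
      funext fun k => Rt_congr (xl_cmt_set h) k
    rwa [this]

theorem xl_set_cont (M : Tup g) (j : Fin g) : Continuous fun q : G × G => setH M j q.1 q.2 := by
  refine continuous_pi fun z => ?_
  rcases z with ⟨i, b⟩
  by_cases hi : i = j
  · cases b
    · simpa [setH, hi] using continuous_fst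
    · simpa [setH, hi] using continuous_snd
  · simpa [setH, hi] using continuous_const

theorem xl_sg1 (M : Tup g) (j : Fin g) (x y : G) :
    setH M j (-x) y = sg (fun z => decide (z = (j, false))) (setH M j x y) := by
  funext z
  rcases z with ⟨i, b⟩
  by_cases hi : i = j <;> cases b <;> simp [setH, sg, hi]

theorem xl_sg2 (M : Tup g) (j : Fin g) (x y : G) :
    setH M j x (-y) = sg (fun z => decide (z = (j, true))) (setH M j x y) := by
  funext z
  rcases z with ⟨i, b⟩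
  by_cases hi : i = j <;> cases b <;> simp [setH, sg, hi]

theorem xl_col_set [NeZero g] (hg : 3 ≤ g) {e : ℤ} {col : Tup g → Prop}
    (hl : ∀ M ∈ UU g e, ∀ᶠ N in 𝓝[UU g e] M, (col N ↔ col M))
    (hs : ∀ M ∈ UU g e, ∀ ε, (col (sg ε M) ↔ col M))
    (hm : ∀ M ∈ UU g e, ∀ j q, HM (ha M j, hb M j) q → setH M j q.1 q.2 ∈ UU g e →
      (col (setH M j q.1 q.2) ↔ col M))
    {M : Tup g} (hM : M ∈ UU g e) {j : Fin g} {x y : G} (h : cmt x y = cmt (ha M j) (hb M j))
    (h0 : j = 0 → ell x) : col (setH M j x y) ↔ col M := by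
  by_cases hj : j = 0
  · have hx := h0 hj
    refine hm M hM j (x, y) ?_ (xl_set_mem hg hM h h0)
    subst hj
    exact hm_ell hM.2.1 hx hM.2.2.1 (by rw [← pj_cmt, h, pj_cmt])
  · have mem : ∀ {a b : G}, cmt a b = cmt (ha M j) (hb M j) → setH M j a b ∈ UU g e :=
      fun h' => xl_set_mem hg hM h' fun h'' => absurd h'' hj
    have hC : Col (cmt (ha M j) (hb M j)) fun q => col (setH M j q.1 q.2) := by
      refine ⟨fun p hp => ?_, fun a b hab => ?_, fun a b hab => ?_, fun p q hp hpq => ?_⟩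
      · have h1 := hl _ (mem hp)
        rw [eventually_nhdsWithin_iff] at h1
        exact (((xl_set_cont M j).tendsto p).eventually h1).mono fun q hq hq' => hq (mem hq')
      · simp only
        rw [xl_sg1]; exact hs _ (mem hab) _
      · simp only
        rw [xl_sg2]; exact hs _ (mem hab) _
      · have h1 := hm _ (mem hp) j q (by
          rw [ha_setH, hb_setH]; exact Relation.ReflTransGen.single hpq)
        rw [setH_setH] at h1
        exact h1 (mem ((cmt_hm1 hpq).trans hp))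
    have h2 := (k3 (cmt_mem _ _) fun h' => xl_hc hM j (cmt_eq_one.1 h')).2 _ hC (x, y)
      (ha M j, hb M j) h rfl
    simpa using h2

end Pool.Agent.MP_596265_gt.Erg
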