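import Pool.Agent.MP_596265_gt.B5
import Pool.Agent.MP_596265_gt.E3

attribute [-instance] AlgHom.instNonUnitalAlgHomClassOfAlgHomClass TotallySeparatedSpace.t2Space
  Valued.toUniformSpace RKHS.instFunLike Group.IsPerfect.subsingleton_of_isMulCommutative
  IsScalarTower.complexToReal AddQuantale.instAddLeftMono SubringClass.toCommRing
  IsTopologicalTorsor.toContinuousSMul NonUnitalNormedRing.toNonUnitalSeminormedRing littleWedderburn
  MonTypeEquivalenceMon.monMonoid NumberField.to_charZero instCoeTCOfCoe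
  MonoidWithZero.toMulZeroOneClass MonoidWithZeroHomClass.toZeroHomClass
  NonUnitalNormedCommRing.toNonUnitalSeminormedCommRing NonUnitalNonAssocSemiring.toAddCommMonoid
  DivisionCommMonoid.toDivisionMonoid MeasureTheory.instSFiniteOfCountable
  NonUnitalNonAssocSemiring.toMulZeroClass NormedRing.toRing NonUnitalNonAssocRing.toAddCommGroup
  CoalgHomClass.toSemilinearMapClass Unique.instSubsingleton Fintype.decidableForallFintype
  NonAssocSemiring.toMulZeroOneClass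

/-! Ergodicity, part 4: twist flows and the theorem. -/

/-! The measure on tuples. -/

namespace Pool.Agent.MP_596265_gt.Erg

open Real Filter Topology MeasureTheory Set

variable {g : ℕ}

theorem io_emb : Topology.IsClosedEmbedding (io : Tup g → Amb g) :=
  Topology.IsClosedEmbedding.piMap (f := fun (_ : Gen g) (A : G) => (A : Mat)) fun _ =>
    (isClosed_eq (continuous_id.matrix_det) continuous_const).isClosedEmbedding_subtypeVal
theorem mu_apply (e : ℤ) (A : Set (Tup g)) : mu g e A = vol g (io '' (A ∩ X g e)) := by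
  rw [mu, Measure.restrict_apply' (isClosed_X e).measurableSet,
    io_emb.measurableEmbedding.comap_apply]
theorem vol_eq (hg : 1 ≤ g) : vol g = μH[((6 * g - 3 : ℕ) : ℝ)] := by
  rw [vol, Nat.cast_sub (by omega)]
  norm_num
theorem ae_X (e : ℤ) : ∀ᵐ M ∂mu g e, M ∈ X g e := ae_restrict_mem (isClosed_X e).measurableSet
theorem xn_fE {e : ℤ} {M N : Tup g} (hM : M ∈ X g e) (hN : N ∈ X g e) : fE (io N) = fE (io M) :=
  (fE_io (X_pm hN)).trans (fE_io (X_pm hM)).symm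
theorem xn_nhds {M : Tup g} {O : Set (Tup g)} (hO : O ∈ 𝓝 M) : ∃ O' ∈ 𝓝 (io M), io ⁻¹' O' ⊆ O := by
  rwa [io_emb.isInducing.nhds_eq_comap, mem_comap] at hO
theorem xn_pre {M : Tup g} {O : Set (Amb g)} (hO : O ∈ 𝓝 (io M)) : io ⁻¹' O ∈ 𝓝 M :=
  io_emb.continuous.continuousAt.preimage_mem_nhds hO
theorem xn_le (hg : 1 ≤ g) (e : ℤ) {A : Set (Tup g)} {B : Set (Amb g)}
    (h : ∀ N ∈ A, N ∈ X g e → io N ∈ B) : mu g e A ≤ μH[((6 * g - 3 : ℕ) : ℝ)] B := by
  rw [mu_apply, vol_eq hg]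
  refine measure_mono ?_
  rintro _ ⟨N, hN, rfl⟩
  exact h N hN.1 hN.2
theorem xn_null (hg : 1 ≤ g) (e : ℤ) {A : Set (Tup g)} {B : Set (Amb g)}
    (hB : μH[((6 * g - 3 : ℕ) : ℝ)] B = 0) (h : ∀ N ∈ A, N ∈ X g e → io N ∈ B) : mu g e A = 0 :=
  nonpos_iff_eq_zero.1 ((xn_le hg e h).trans_eq hB)
/-- Near a point of X, the image of X is the level set of `fE`. -/
theorem X_level {e : ℤ} {M : Tup g} (hM : M ∈ X g e) :
    ∃ O ∈ 𝓝 (io M), O ∩ fE ⁻¹' {fE (io M)} = O ∩ io '' X g e := by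
  obtain ⟨O, hO, h⟩ := xn_nhds (X_loc hM)
  refine ⟨O, hO, Subset.antisymm (fun m hm => ⟨hm.1, ?_⟩) ?_⟩
  · obtain ⟨N, rfl, hN⟩ := fE_eq (hm.2.trans (fE_io (X_pm hM)))
    exact ⟨N, h hm.1 hN, rfl⟩
  · rintro _ ⟨h1, N, hN, rfl⟩
    exact ⟨h1, xn_fE hM hN⟩

def xn_ab (u : ℝ × ℝ × ℝ) (q : Gen g → ℝ × ℝ) : Amb g := fun x =>
  ![![(q x).1 + (q x).2 * u.1, (q x).2 * u.2.1], ![(q x).2 * u.2.2, (q x).1 - (q x).2 * u.1]]

theorem xn_ab_null (hg : 3 ≤ g) {c : ℝ × ℝ → ℝ × ℝ × ℝ} (hc : ContDiff ℝ 1 c) :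
    μH[((6 * g - 3 : ℕ) : ℝ)]
      (range fun p : (ℝ × ℝ) × (Gen g → ℝ × ℝ) => xn_ab (c p.1) p.2) = 0 := by
  refine ms_dim (contDiff_pi.2 fun x => contDiff_pi.2 fun i => contDiff_pi.2 fun j => ?_) ?_
  · fin_cases i <;> fin_cases j <;> simp only [xn_ab, Fin.zero_eta, Fin.mk_one, Matrix.cons_val_zero,
      Matrix.cons_val_one] <;> fun_prop
  · simp only [Module.finrank_prod, Module.finrank_self, Module.finrank_pi_fintype,
      Finset.sum_const, Finset.card_univ, Fintype.card_prod, Fintype.card_fin, Fintype.card_bool,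
      smul_eq_mul, Nat.cast_lt]
    omega

theorem xn_ab_mem {M : Tup g} {u : ℝ × ℝ × ℝ} (t : Gen g → ℝ) (h : ∀ x,
    M x 0 0 - M x 1 1 = 2 * (t x * u.1) ∧ M x 0 1 = t x * u.2.1 ∧ M x 1 0 = t x * u.2.2) :
    xn_ab u (fun x => ((M x 0 0 + M x 1 1) / 2, t x)) = io M := by
  funext x i j
  obtain ⟨h1, h2, h3⟩ := h x
  fin_cases i <;> fin_cases j <;> simp only [xn_ab, io, Fin.zero_eta, Fin.mk_one,
    Matrix.cons_val_zero, Matrix.cons_val_one] <;> linarith only [h1, h2, h3]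

theorem ab_null (hg : 3 ≤ g) (e : ℤ) : mu g e {M | ¬ NA M} = 0 := by
  refine xn_null (by omega) e (measure_union_null (measure_union_null
    (xn_ab_null hg (c := fun p => (1, p.1, p.2)) (by fun_prop))
    (xn_ab_null hg (c := fun p => (p.1, 1, p.2)) (by fun_prop)))
    (xn_ab_null hg (c := fun p => (p.1, p.2, 1)) (by fun_prop))) fun M hM _ => ?_
  have h : ∀ x y, M x * M y = M y * M x := by simpa only [Prod.forall, Bool.forall_bool, NA, ne_eq, Prod.exists, Bool.exists_bool, not_exists, not_or, Decidable.not_not, mem_ofPred_eq] using hM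
  have h1 : ∀ x y, M x 0 1 * M y 1 0 = M y 0 1 * M x 1 0 := fun x y => by
    have := congrArg (fun A : G => A 0 0) (h x y)
    simp only [basic_mul] at this
    linear_combination this
  have h2 : ∀ x y, (M x 0 0 - M x 1 1) * M y 0 1 = (M y 0 0 - M y 1 1) * M x 0 1 := fun x y => by
    have := congrArg (fun A : G => A 0 1) (h x y)
    simp only [basic_mul] at this
    linear_combination this
  have h3 : ∀ x y, (M x 0 0 - M x 1 1) * M y 1 0 = (M y 0 0 - M y 1 1) * M x 1 0 := fun x y => by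
    have := congrArg (fun A : G => A 1 0) (h x y)
    simp only [basic_mul] at this
    linear_combination -this
  by_cases a : ∃ x, M x 1 0 ≠ 0
  · obtain ⟨x, a⟩ := a
    refine Or.inr ⟨(((M x 0 0 - M x 1 1) / (2 * M x 1 0), M x 0 1 / M x 1 0), _),
      xn_ab_mem (fun y => M y 1 0) fun y => ⟨?_, ?_, (mul_one _).symm⟩⟩ <;> field_simp
    · linear_combination h3 y x
    · linear_combination h1 y x
  by_cases b : ∃ x, M x 0 1 ≠ 0
  · obtain ⟨x, b⟩ := b
    refine Or.inl (Or.inr ⟨(((M x 0 0 - M x 1 1) / (2 * M x 0 1), M x 1 0 / M x 0 1), _),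
      xn_ab_mem (fun y => M y 0 1) fun y => ⟨?_, (mul_one _).symm, ?_⟩⟩) <;> field_simp
    · linear_combination h2 y x
    · linear_combination h1 x y
  push Not at a b
  exact Or.inl (Or.inl ⟨((0, 0), _), xn_ab_mem (fun y => (M y 0 0 - M y 1 1) / 2) fun y =>
    ⟨by ring, by simp [b], by simp [a]⟩⟩)

theorem sfinite_mu (hg : 3 ≤ g) (e : ℤ) : SFinite (mu g e) := by
  obtain ⟨N, hN, hNm, hN0⟩ := exists_measurable_superset_of_null (ab_null hg e)
  have := ms_sf (mu g e) ((isClosed_X e).measurableSet.diff hNm) fun M hM => by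
    obtain ⟨O, hO, h⟩ := ms_fin contDiff_fE.contDiffAt
      (fE_surj (X_pm hM.1) (not_not.1 fun h => hM.2 (hN h))) (finrank_amb (by omega))
    exact ⟨_, xn_pre hO, (xn_le (by omega) e fun L h1 h2 =>
      mem_inter h1.1 (xn_fE hM.1 h2)).trans_lt h⟩
  rw [Measure.restrict_eq_self_of_ae_mem (s := X g e \ N)
    ((ae_X e).and (measure_eq_zero_iff_ae_notMem.1 hN0))] at this
  infer_instance
theorem push_null (hg : 1 ≤ g) {e : ℤ} {Γ : Tup g → Tup g} {A : Set (Tup g)}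
    (hs : ∀ M ∈ A ∩ X g e, SmAt (fun _ : ℝ => Γ) 0 M) (hA : mu g e A = 0) :
    mu g e (Γ '' (A ∩ X g e)) = 0 := by
  refine measure_null_of_locally_null (μ := OuterMeasure.comap Γ (mu g e).toOuterMeasure) _
    fun M hM => ?_
  obtain ⟨F, hF, h⟩ := hs M hM
  obtain ⟨K, W, hW, hK⟩ := (hF.comp (io M) (f := fun m => ((0 : ℝ), m))
    (by fun_prop)).exists_lipschitzOnWith
  have h' : ∀ᶠ N in 𝓝 M, io (Γ N) = F (0, io N) :=
    (Continuous.prodMk_right (0 : ℝ)).continuousAt.eventually h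
  rw [mu_apply, vol_eq hg] at hA
  refine ⟨_, inter_mem_nhdsWithin _ (inter_mem h' (xn_pre hW)), xn_null hg e
    (ms_lipOn (Nat.cast_nonneg _) hK inter_subset_right (measure_mono_null inter_subset_left hA)) ?_⟩
  rintro _ ⟨N, hN, rfl⟩ -
  exact ⟨io N, ⟨⟨N, hN.1, rfl⟩, hN.2.2⟩, hN.2.1.symm⟩
theorem mu_pos (hg : 1 ≤ g) {e : ℤ} {M : Tup g} (hM : M ∈ X g e) (h : NA M) {O : Set (Tup g)}
    (hO : O ∈ 𝓝 M) : mu g e O ≠ 0 := by
  obtain ⟨O₁, h1, e1⟩ := xn_nhds hO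
  obtain ⟨O₂, h2, e2⟩ := X_level hM
  rw [mu_apply, vol_eq hg]
  refine fun h0 => ms_pos contDiff_fE.contDiffAt (fE_surj (X_pm hM) h) (finrank_amb hg)
    (inter_mem h1 h2) (measure_mono_null (fun m hm => ?_) h0)
  obtain ⟨-, N, hN, rfl⟩ := e2.subset ⟨hm.1.2, hm.2⟩
  exact ⟨N, ⟨e1 hm.1.1, hN⟩, rfl⟩
theorem lv_set (hg : 3 ≤ g) {e : ℤ} {B : Set (Tup g)}
    (h : ∀ M ∈ B, M ∈ X g e → NA M → ∃ (F : Amb g → ℝ) (α : Gen g → Mat),
      ContDiffAt ℝ 1 F (io M) ∧ TL α ∧ fox M α g = 0 ∧ fderiv ℝ F (io M) (tv M α) ≠ 0 ∧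
      ∀ N ∈ B, N ∈ X g e → F (io N) = F (io M)) : mu g e B = 0 := by
  have h0 : mu g e (B ∩ X g e ∩ {M | NA M}) = 0 := measure_null_of_locally_null _ fun M hM => by
    obtain ⟨F, α, h1, h2, h3, h4, h5⟩ := h M hM.1.1 hM.1.2 hM.2
    obtain ⟨O, hO, h6⟩ := ms_lv contDiff_fE.contDiffAt (fE_surj (X_pm hM.1.2) hM.2)
      (finrank_amb (by omega)) h1 ((ker_iff (X_pm hM.1.2) α).2 ⟨h2, h3⟩) h4
    exact ⟨_, inter_mem_nhdsWithin _ (xn_pre hO), xn_null (by omega) e h6 fun N hN hN' =>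
      ⟨⟨hN.2, xn_fE hM.1.2 hN'⟩, h5 N hN.1.1.1 hN'⟩⟩
  refine measure_mono_null (fun M hM => ?_)
    (measure_union_null h0 (measure_union_null (ae_X e) (ab_null hg e)))
  by_contra hn
  simp only [mem_union, not_or, mem_compl_iff, mem_ofPred_eq, not_not] at hn
  exact hn.1 ⟨⟨hM, hn.2.1⟩, hn.2.2⟩
theorem loc_om (hg : 1 ≤ g) {e : ℤ} {S : Set (Tup g)} (hS : MeasurableSet S) {M : Tup g}
    (hM : M ∈ X g e) (h : NA M) {Φ : Amb g → Tup g → Tup g} (hΦ : Step e S Φ 0 M)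
    (h0 : Φ 0 M = M) {L : Amb g →L[ℝ] Amb g} (hL : HasFDerivAt (fun p => io (Φ p M)) L 0)
    (hr : ∀ α, TL α → fox M α g = 0 → ∃ p, L p = tv M α) : M ∈ Om e S ∪ Om e Sᶜ := by
  obtain ⟨⟨F, hF, hF'⟩, O, hO, hev⟩ := hΦ
  have hD : L = fderiv ℝ F (0, io M) ∘L ContinuousLinearMap.inl ℝ _ _ := hL.unique
    (((hF.differentiableAt one_ne_zero).hasFDerivAt.comp 0
      (hasFDerivAt_prodMk_left 0 (io M))).congr_of_eventuallyEq
      ((Continuous.prodMk_left M).continuousAt.eventually hF'))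
  obtain ⟨V, hV, O₁, hO₁, hVO⟩ := mem_nhds_prod_iff.1 hF'
  obtain ⟨O₂, h2, e2⟩ := xn_nhds (inter_mem hO hO₁)
  obtain ⟨O₃, h3, e3⟩ := X_level hM
  have mem : ∀ N, io N ∈ io '' S ↔ N ∈ S := fun N => io_emb.injective.mem_set_image
  obtain ⟨O', hO', h'⟩ := ms_loc contDiff_fE.contDiffAt (fE_surj (X_pm hM) h) (finrank_amb hg) hF
    (hF'.self_of_nhds.symm.trans (congrArg io h0)) (fun v hv => by
      obtain ⟨α, rfl⟩ := exists_tv M v
      obtain ⟨h1, h2⟩ := (ker_iff (X_pm hM) α).1 hv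
      exact (hr α h1 h2).imp fun p hp => by rw [← hp, hD]; rfl)
    (io_emb.measurableEmbedding.measurableSet_image.2 hS) (inter_mem h2 h3) (by
      filter_upwards [hev, hV] with p hp hp'
      have key : ∀ m ∈ O₂ ∩ O₃ ∩ fE ⁻¹' {fE (io M)}, ∃ N ∈ O ∩ X g e, io N = m ∧
          io (Φ p N) = F (p, m) := fun m hm => by
        obtain ⟨-, N, hN, rfl⟩ := e3.subset ⟨hm.1.2, hm.2⟩
        exact ⟨N, ⟨(e2 hm.1.1).1, hN⟩, rfl, hVO (mk_mem_prod hp' (e2 hm.1.1).2)⟩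
      refine ⟨fun m hm => ?_, ?_⟩
      · obtain ⟨N, hN, -, e'⟩ := key m hm
        exact e' ▸ xn_fE hM (hp.1 hN)
      · have := hp.2.2
        rw [ae_iff, mu_apply, vol_eq hg] at this
        refine measure_mono_null (fun m hm => ?_) this
        obtain ⟨N, hN, rfl, e'⟩ := key m hm.1
        exact ⟨N, ⟨fun h' => hm.2 (by rw [← e', mem, mem]; exact h' hN.1), hN.2⟩, rfl⟩)
  rcases h' with h' | h'
  · exact Or.inr ⟨hM, _, xn_pre hO', xn_null hg e h' fun N hN hN' =>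
      ⟨⟨hN.1, xn_fE hM hN'⟩, (mem N).2 (not_not.1 hN.2)⟩⟩
  · exact Or.inl ⟨hM, _, xn_pre hO', xn_null hg e h' fun N hN hN' =>
      ⟨⟨hN.1, xn_fE hM hN'⟩, fun h => hN.2 ((mem N).1 h)⟩⟩

end Pool.Agent.MP_596265_gt.Erg

/-! Null sets. -/

namespace Pool.Agent.MP_596265_gt.Erg

open Real Filter Topology MeasureTheory Set

variable {g : ℕ}

/-- A coordinate of the ambient space. -/
noncomputable def xz_co (x : Gen g) (i j : Fin 2) : Amb g →L[ℝ] ℝ :=
  (ContinuousLinearMap.proj (R := ℝ) (φ := fun _ : Fin 2 => ℝ) j).comp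
    ((ContinuousLinearMap.proj (R := ℝ) (φ := fun _ : Fin 2 => Fin 2 → ℝ) i).comp
      (ContinuousLinearMap.proj (R := ℝ) (φ := fun _ : Gen g => Fin 2 → Fin 2 → ℝ) x))

theorem xz_co_apply (x : Gen g) (i j : Fin 2) (m : Amb g) : xz_co x i j m = m x i j := rfl

def xz_up : Mat := !![0, 1; 0, 0]
def xz_dn : Mat := !![0, 0; 1, 0]

theorem xz_up_tr : xz_up.trace = 0 := by simp [xz_up, Matrix.trace_fin_two]
theorem xz_dn_tr : xz_dn.trace = 0 := by simp [xz_dn, Matrix.trace_fin_two]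
theorem xz_mul_up (A : Mat) (i : Fin 2) : (A * xz_up) i 1 = A i 0 := by
  simp [xz_up, Matrix.mul_apply, Fin.sum_univ_two]
theorem xz_mul_dn0 (A : Mat) (i : Fin 2) : (A * xz_dn) i 0 = A i 1 := by
  simp [xz_dn, Matrix.mul_apply, Fin.sum_univ_two]
theorem xz_mul_dn1 (A : Mat) (i : Fin 2) : (A * xz_dn) i 1 = 0 := by
  simp [xz_dn, Matrix.mul_apply, Fin.sum_univ_two]
theorem xz_up_mul (A : Mat) (j : Fin 2) : (xz_up * A) 0 j = A 1 j := by
  simp [xz_up, Matrix.mul_apply, Fin.sum_univ_two]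
theorem xz_dn_mul0 (A : Mat) (j : Fin 2) : (xz_dn * A) 0 j = 0 := by
  simp [xz_dn, Matrix.mul_apply, Fin.sum_univ_two]
theorem xz_dn_mul1 (A : Mat) (j : Fin 2) : (xz_dn * A) 1 j = A 0 j := by
  simp [xz_dn, Matrix.mul_apply, Fin.sum_univ_two]

/-- A tangent vector that is prescribed on one handle. -/
theorem xz_free {M : Tup g} (x : Gen g) (h : Fx M {x.1}ᶜ) {Z : Mat} (hZ : Z.trace = 0) :
    ∃ β, TL β ∧ fox M β g = 0 ∧ β x = Z ∧ ∀ y : Gen g, y.1 = x.1 → y ≠ x → β y = 0 := by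
  classical
  have hα : TL (g := g) (fun y => if y = x then Z else 0) := by
    intro y
    by_cases hy : y = x <;> simp [hy, hZ]
  obtain ⟨β, h1, h2, h3⟩ := fox_extend h hα
  refine ⟨β, h1, h3, ?_, fun y hy hne => ?_⟩
  · rw [h2 x (by simp)]; simp
  · rw [h2 y (by simp [hy])]; simp [hne]

theorem xz_ent (hg : 3 ≤ g) (e : ℤ) (x : Gen g) (i : Fin 2) :
    mu g e {M | Fx M {x.1}ᶜ ∧ M x i 1 = 0} = 0 := by
  refine lv_set hg fun M hM _ _ => ?_
  obtain ⟨β, h1, h2, h3, -⟩ := xz_free x hM.1 xz_up_tr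
  refine ⟨xz_co x i 1, β, (xz_co x i 1).contDiff.contDiffAt, h1, h2, ?_, fun N hN _ => ?_⟩
  · rw [ContinuousLinearMap.fderiv, xz_co_apply]
    show ((M x : Mat) * β x) i 1 ≠ 0
    rw [h3, xz_mul_up]
    intro h0
    have hd := basic_det (M x)
    have h4 := hM.2
    fin_cases i
    · have a1 : M x 0 0 = 0 := h0
      have a2 : M x 0 1 = 0 := h4
      rw [a1, a2] at hd; simp at hd
    · have a1 : M x 1 0 = 0 := h0
      have a2 : M x 1 1 = 0 := h4
      rw [a1, a2] at hd; simp at hd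
  · exact hN.2.trans hM.2.symm

theorem xz_c00 {a b : G} (h : cm a b = 1) : a 0 1 * b 1 0 - b 0 1 * a 1 0 = 0 := by
  have h1 := congrArg (fun y : G => y 0 0) (cm_eq_one.1 h)
  simp only [basic_mul] at h1
  linear_combination h1

theorem xz_comm (hg : 3 ≤ g) (e : ℤ) (j : Fin g) :
    mu g e {M | Fx M {j}ᶜ ∧ hc M j = 1} = 0 := by
  have hC : mu g e {M | (Fx M {j}ᶜ ∧ hc M j = 1) ∧ M (j, false) 0 1 ≠ 0 ∧
      M (j, true) 1 1 ≠ 0} = 0 := by
    refine lv_set hg fun M hM _ _ => ?_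
    obtain ⟨β, h1, h2, h3, h4⟩ := xz_free (M := M) (j, true) hM.1.1 xz_dn_tr
    have h5 : β (j, false) = 0 := h4 _ rfl (by simp)
    have hD := (((xz_co (j, false) 0 1).hasFDerivAt (x := io M)).mul
      ((xz_co (j, true) 1 0).hasFDerivAt (x := io M))).sub
      (((xz_co (j, true) 0 1).hasFDerivAt (x := io M)).mul
      ((xz_co (j, false) 1 0).hasFDerivAt (x := io M)))
    refine ⟨(xz_co (j, false) 0 1 : Amb g → ℝ) * (xz_co (j, true) 1 0 : Amb g → ℝ) -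
      (xz_co (j, true) 0 1 : Amb g → ℝ) * (xz_co (j, false) 1 0 : Amb g → ℝ), β,
      (((xz_co _ 0 1).contDiff.mul (xz_co _ 1 0).contDiff).sub
        ((xz_co _ 0 1).contDiff.mul (xz_co _ 1 0).contDiff)).contDiffAt, h1, h2, ?_,
      fun N hN _ => ?_⟩
    · rw [hD.fderiv]
      have t1 : ∀ i k, tv M β (j, false) i k = 0 := fun i k => by simp [tv, h5]
      have t2 : tv M β (j, true) 1 0 = M (j, true) 1 1 := by
        show ((M (j, true) : Mat) * β (j, true)) 1 0 = _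
        rw [h3, xz_mul_dn0]
      have t3 : tv M β (j, true) 0 1 = 0 := by
        show ((M (j, true) : Mat) * β (j, true)) 0 1 = _
        rw [h3, xz_mul_dn1]
      simp only [ContinuousLinearMap.sub_apply, ContinuousLinearMap.add_apply,
        ContinuousLinearMap.smul_apply, xz_co_apply, t1, t2, t3, smul_eq_mul, mul_zero, add_zero,
        sub_zero]
      exact mul_ne_zero hM.2.1 hM.2.2
    · exact (xz_c00 hN.1.2).trans (xz_c00 hM.1.2).symm
  refine measure_mono_null ?_ (measure_union_null (measure_union_null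
    (xz_ent hg e (j, false) 0) (xz_ent hg e (j, true) 1)) hC)
  intro M hM
  by_cases a1 : M (j, false) 0 1 = 0
  · exact Or.inl (Or.inl ⟨hM.1, a1⟩)
  by_cases a2 : M (j, true) 1 1 = 0
  · exact Or.inl (Or.inr ⟨hM.1, a2⟩)
  exact Or.inr ⟨hM, a1, a2⟩

theorem xz_X (e : ℤ) : mu g e {M | ¬ M ∈ X g e} = 0 := ae_iff.1 (ae_X e)

theorem n3 (hg : 3 ≤ g) (e : ℤ) (j : Fin g) : mu g e {M | hc M j = 1} = 0 := by
  refine measure_mono_null ?_ (measure_union_null (measure_union_null (xz_X e) (ab_null hg e))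
    (measure_iUnion_null fun l => xz_comm hg e l))
  intro M hM
  by_cases a1 : M ∈ X g e
  swap
  · exact Or.inl (Or.inl a1)
  by_cases a2 : NA M
  swap
  · exact Or.inl (Or.inr a2)
  refine Or.inr (mem_iUnion.2 ?_)
  by_cases a3 : Fx M {j}ᶜ
  · exact ⟨j, a3, hM⟩
  · have h1 := fx_compl (X_pm a1) a3
    obtain ⟨l, hl⟩ := fx_of_all_comm hg a2 h1
    exact ⟨l, hl, h1 l⟩

theorem n1 (hg : 3 ≤ g) (e : ℤ) (j : Fin g) (r : ℝ) : mu g e {M | tr (ha M j) = r} = 0 := by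
  have hC : mu g e {M | (Fx M {j}ᶜ ∧ tr (ha M j) = r) ∧ M (j, false) 0 1 ≠ 0} = 0 := by
    refine lv_set hg fun M hM _ _ => ?_
    obtain ⟨β, h1, h2, h3, -⟩ := xz_free (M := M) (j, false) hM.1.1 xz_dn_tr
    refine ⟨(xz_co (j, false) 0 0 + xz_co (j, false) 1 1 : Amb g →L[ℝ] ℝ), β,
      (ContinuousLinearMap.contDiff _).contDiffAt, h1, h2, ?_, fun N hN _ => ?_⟩
    · rw [ContinuousLinearMap.fderiv]
      show ((M (j, false) : Mat) * β (j, false)) 0 0 +
        ((M (j, false) : Mat) * β (j, false)) 1 1 ≠ 0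
      rw [h3, xz_mul_dn0, xz_mul_dn1, add_zero]
      exact hM.2
    · exact hN.1.2.trans hM.1.2.symm
  refine measure_mono_null ?_ (measure_union_null (measure_union_null (xz_X e) (n3 hg e j))
    (measure_union_null (xz_ent hg e (j, false) 0) hC))
  intro M hM
  by_cases a1 : M ∈ X g e
  swap
  · exact Or.inl (Or.inl a1)
  by_cases a3 : Fx M {j}ᶜ
  swap
  · exact Or.inl (Or.inr (fx_compl (X_pm a1) a3 j))
  by_cases a2 : M (j, false) 0 1 = 0
  · exact Or.inr (Or.inl ⟨a3, a2⟩)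
  · exact Or.inr (Or.inr ⟨⟨a3, hM⟩, a2⟩)

/-- A tangent vector with prescribed velocity of a prefix product. -/
theorem xz_pre {M : Tup g} (hM : ∀ i, hc M i ≠ 1) {h : ℕ} (h0 : 0 < h) (h1 : h < g) {Z : Mat}
    (hZ : Z.trace = 0) : ∃ γ, TL γ ∧ fox M γ g = 0 ∧ fox M γ h = Z := by
  obtain ⟨α, a1, a2, a3⟩ := fox_surj (fx_single (hM ⟨0, by omega⟩)) hZ
  obtain ⟨β, b1, b2, b3⟩ := fox_surj (fx_single (hM ⟨g - 1, by omega⟩)) (Z := -Z)
    (by rw [Matrix.trace_neg, hZ, neg_zero])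
  refine ⟨α + β, fun x => ?_, ?_, ?_⟩
  · rw [Pi.add_apply, Matrix.trace_add, a1 x, b1 x, add_zero]
  · rw [fox_add, a3, b3, add_neg_cancel]
  · rw [fox_add, fox_low (fun x hx => a2 x ?_), a3, fox_high (fun x hx => b2 x ?_), add_zero]
    · intro hh
      have := congrArg Fin.val (mem_singleton_iff.1 hh)
      simp only at this
      omega
    · intro hh
      have := congrArg Fin.val (mem_singleton_iff.1 hh)
      simp only at this
      omega

theorem n2 (hg : 3 ≤ g) (e : ℤ) {h : ℕ} (h0 : 0 < h) (h1 : h < g) (r : ℝ) :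
    mu g e {M | tr (pre M h) = r} = 0 := by
  have hA : mu g e {M | (∀ i, hc M i ≠ 1) ∧ pre M h 0 1 = 0} = 0 := by
    refine lv_set hg fun M hM _ _ => ?_
    obtain ⟨γ, c1, c2, c3⟩ := xz_pre hM.1 h0 h1 xz_up_tr
    refine ⟨fun m => preE m h 0 1, γ, (contDiff_preE h 0 1).contDiffAt, c1, c2, ?_,
      fun N hN _ => ?_⟩
    · rw [fderiv_preE M c1 h1.le, c3, xz_up_mul]
      intro a1
      have hd := basic_det (pre M h)
      have a2 : pre M h 1 1 = 0 := a1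
      rw [a2, hM.2] at hd; simp at hd
    · show preE (io N) h 0 1 = preE (io M) h 0 1
      rw [preE_io, preE_io]
      exact hN.2.trans hM.2.symm
  have hB : mu g e {M | ((∀ i, hc M i ≠ 1) ∧ tr (pre M h) = r) ∧ pre M h 0 1 ≠ 0} = 0 := by
    refine lv_set hg fun M hM _ _ => ?_
    obtain ⟨γ, c1, c2, c3⟩ := xz_pre hM.1.1 h0 h1 xz_dn_tr
    refine ⟨fun m => preE m h 0 0 + preE m h 1 1, γ,
      ((contDiff_preE h 0 0).add (contDiff_preE h 1 1)).contDiffAt, c1, c2, ?_, fun N hN _ => ?_⟩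
    · rw [fderiv_fun_add ((contDiff_preE h 0 0).differentiable one_ne_zero _)
        ((contDiff_preE h 1 1).differentiable one_ne_zero _), ContinuousLinearMap.add_apply,
        fderiv_preE M c1 h1.le, fderiv_preE M c1 h1.le, c3, xz_dn_mul0, xz_dn_mul1, zero_add]
      exact hM.2
    · show preE (io N) h 0 0 + preE (io N) h 1 1 = preE (io M) h 0 0 + preE (io M) h 1 1
      rw [preE_io, preE_io]
      exact hN.1.2.trans hM.1.2.symm
  refine measure_mono_null ?_ (measure_union_null (measure_iUnion_null fun i => n3 hg e i)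
    (measure_union_null hA hB))
  intro M hM
  by_cases a1 : ∀ i, hc M i ≠ 1
  swap
  · push Not at a1
    exact Or.inl (mem_iUnion.2 a1)
  by_cases a2 : pre M h 0 1 = 0
  · exact Or.inr (Or.inl ⟨a1, a2⟩)
  · exact Or.inr (Or.inr ⟨⟨a1, hM⟩, a2⟩)

theorem irr_of_null {Z : Type} [MeasurableSpace Z] {μ : Measure Z} {τ : Z → ℝ}
    (h : ∀ r, μ {z | τ z = r} = 0) :
    ∀ᵐ z ∂μ, |τ z| < 2 → Irrational (arccos (τ z / 2) / π) := by
  rw [ae_iff]
  refine measure_mono_null ?_ (measure_iUnion_null fun q : ℚ => h (2 * cos (q * π)))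
  intro z hz
  simp only [mem_setOf_eq, Classical.not_imp, Irrational, not_not] at hz
  obtain ⟨h2, q, hq⟩ := hz
  refine mem_iUnion.2 ⟨q, ?_⟩
  have h3 := abs_lt.1 h2
  show τ z = 2 * cos (q * π)
  rw [hq, div_mul_cancel₀ _ pi_ne_zero, cos_arccos (by linarith) (by linarith only [h3])]
  ring

end Pool.Agent.MP_596265_gt.Erg

/-! Smooth families of maps on tuples. -/

namespace Pool.Agent.MP_596265_gt.Erg

open Real Filter Topology MeasureTheory Set

variable {g : ℕ}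

variable {P : Type} [NormedAddCommGroup P] [NormedSpace ℝ P]

theorem xt_io_cont : Continuous (io : Tup g → Amb g) := io_emb.continuous

/-- A real function of the parameter and the tuple that extends smoothly to the ambient space. -/
def xt_S (f : P × Tup g → ℝ) (p₀ : P) (M₀ : Tup g) : Prop :=
  ∃ F : P × Amb g → ℝ, ContDiffAt ℝ 1 F (p₀, io M₀) ∧
    ∀ᶠ z in 𝓝 (p₀, M₀), f z = F (z.1, io z.2)

/-- The same for group valued functions. -/
def xt_G (f : P × Tup g → G) (p₀ : P) (M₀ : Tup g) : Prop :=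
  ∀ i j, xt_S (fun z => f z i j) p₀ M₀

section
variable {p₀ : P} {M₀ : Tup g}

theorem xt_S_cont {f : P × Tup g → ℝ} (h : xt_S f p₀ M₀) : ContinuousAt f (p₀, M₀) := by
  obtain ⟨F, hF, e⟩ := h
  have h1 : ContinuousAt (fun z : P × Tup g => F (z.1, io z.2)) (p₀, M₀) :=
    ContinuousAt.comp_of_eq hF.continuousAt
      (continuous_fst.prodMk (xt_io_cont.comp continuous_snd)).continuousAt rfl
  exact h1.congr (e.mono fun _ hz => hz.symm)

theorem xt_S_congr {f f' : P × Tup g → ℝ} (h : xt_S f p₀ M₀)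
    (e : ∀ᶠ z in 𝓝 (p₀, M₀), f' z = f z) : xt_S f' p₀ M₀ := by
  obtain ⟨F, hF, e'⟩ := h
  exact ⟨F, hF, (e.and e').mono fun _ hz => hz.1.trans hz.2⟩

theorem xt_S_par {u : P → ℝ} (h : ContDiffAt ℝ 1 u p₀) : xt_S (fun z => u z.1) p₀ M₀ :=
  ⟨fun z => u z.1, ContDiffAt.comp (g := u) (f := Prod.fst) (p₀, io M₀) h contDiffAt_fst,
    Eventually.of_forall fun _ => rfl⟩

theorem xt_S_const (c : ℝ) : xt_S (fun _ => c) p₀ M₀ := xt_S_par (u := fun _ => c) contDiffAt_const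

theorem xt_S_one {u : ℝ → ℝ} {f : P × Tup g → ℝ} (h : xt_S f p₀ M₀)
    (hu : ContDiffAt ℝ 1 u (f (p₀, M₀))) : xt_S (fun z => u (f z)) p₀ M₀ := by
  obtain ⟨F, hF, e⟩ := h
  rw [e.self_of_nhds] at hu
  exact ⟨fun z => u (F z), ContDiffAt.comp (g := u) (f := F) _ hu hF,
    e.mono fun _ hz => congrArg u hz⟩

theorem xt_S_add {f f' : P × Tup g → ℝ} (h : xt_S f p₀ M₀) (h' : xt_S f' p₀ M₀) :
    xt_S (fun z => f z + f' z) p₀ M₀ := by
  obtain ⟨F, hF, e⟩ := h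
  obtain ⟨F', hF', e'⟩ := h'
  exact ⟨fun z => F z + F' z, hF.add hF',
    (e.and e').mono fun _ hz => congrArg₂ (· + ·) hz.1 hz.2⟩

theorem xt_S_mul {f f' : P × Tup g → ℝ} (h : xt_S f p₀ M₀) (h' : xt_S f' p₀ M₀) :
    xt_S (fun z => f z * f' z) p₀ M₀ := by
  obtain ⟨F, hF, e⟩ := h
  obtain ⟨F', hF', e'⟩ := h'
  exact ⟨fun z => F z * F' z, hF.mul hF',
    (e.and e').mono fun _ hz => congrArg₂ (· * ·) hz.1 hz.2⟩

theorem xt_S_neg {f : P × Tup g → ℝ} (h : xt_S f p₀ M₀) : xt_S (fun z => -f z) p₀ M₀ :=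
  xt_S_one (u := fun x => -x) h contDiffAt_id.neg

theorem xt_G_congr {f f' : P × Tup g → G} (h : xt_G f p₀ M₀)
    (e : ∀ᶠ z in 𝓝 (p₀, M₀), f' z = f z) : xt_G f' p₀ M₀ :=
  fun i j => xt_S_congr (h i j) (e.mono fun _ hz => by rw [hz])

theorem xt_G_cont {f : P × Tup g → G} (h : xt_G f p₀ M₀) : ContinuousAt f (p₀, M₀) := by
  refine (Topology.IsInducing.subtypeVal.continuousAt_iff).2 ?_
  exact continuousAt_pi.2 fun i => continuousAt_pi.2 fun j => xt_S_cont (h i j)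

theorem xt_G_const (c : G) : xt_G (fun _ => c) p₀ M₀ := fun i j => xt_S_const (c i j)

theorem xt_G_co (x : Gen g) : xt_G (fun z => z.2 x) p₀ M₀ := fun i j =>
  ⟨fun z => z.2 x i j, by fun_prop, Eventually.of_forall fun _ => rfl⟩

theorem xt_G_mul {f f' : P × Tup g → G} (h : xt_G f p₀ M₀) (h' : xt_G f' p₀ M₀) :
    xt_G (fun z => f z * f' z) p₀ M₀ := fun i j =>
  xt_S_congr (xt_S_add (xt_S_mul (h i 0) (h' 0 j)) (xt_S_mul (h i 1) (h' 1 j)))
    (Eventually.of_forall fun _ => basic_mul _ _ i j)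

theorem xt_G_neg {f : P × Tup g → G} (h : xt_G f p₀ M₀) : xt_G (fun z => -f z) p₀ M₀ :=
  fun i j => xt_S_neg (h i j)

theorem xt_G_inv {f : P × Tup g → G} (h : xt_G f p₀ M₀) : xt_G (fun z => (f z)⁻¹) p₀ M₀ := by
  refine Fin.forall_fin_two.2 ⟨Fin.forall_fin_two.2 ⟨?_, ?_⟩, Fin.forall_fin_two.2 ⟨?_, ?_⟩⟩
  · exact xt_S_congr (h 1 1) (Eventually.of_forall fun _ => basic_inv00 _)
  · exact xt_S_congr (xt_S_neg (h 0 1)) (Eventually.of_forall fun _ => basic_inv01 _)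
  · exact xt_S_congr (xt_S_neg (h 1 0)) (Eventually.of_forall fun _ => basic_inv10 _)
  · exact xt_S_congr (h 0 0) (Eventually.of_forall fun _ => basic_inv11 _)

theorem xt_G_lift (w : Fr g) : xt_G (fun z => FreeGroup.lift z.2 w) p₀ M₀ := by
  induction w using FreeGroup.induction_on with
  | C1 => exact xt_G_congr (xt_G_const 1) (Eventually.of_forall fun _ => map_one _)
  | of x => exact xt_G_congr (xt_G_co x) (Eventually.of_forall fun _ => FreeGroup.lift_apply_of)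
  | inv_of x h => exact xt_G_congr (xt_G_inv h) (Eventually.of_forall fun _ => map_inv _ _)
  | mul x y h h' => exact xt_G_congr (xt_G_mul h h') (Eventually.of_forall fun _ => map_mul _ _ _)

theorem xt_G_pre (k : ℕ) : xt_G (fun z => pre z.2 k) p₀ M₀ :=
  xt_G_congr (xt_G_lift (relPre g k)) (Eventually.of_forall fun _ => pre_eq _ _)

theorem xt_G_kk {f : P × Tup g → G} {u : P → ℝ} (h : xt_G f p₀ M₀) (hu : ContDiffAt ℝ 1 u p₀)
    (he : ell (f (p₀, M₀))) : xt_G (fun z => kk (f z) (u z.1)) p₀ M₀ := by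
  intro i j
  have ht : xt_S (fun z => tr (f z)) p₀ M₀ := xt_S_add (h 0 0) (h 1 1)
  have h1 : 0 < 1 - tr (f (p₀, M₀)) ^ 2 / 4 := by
    have := abs_lt.1 he; nlinarith
  have hs : xt_S (fun z => (√(1 - tr (f z) ^ 2 / 4))⁻¹) p₀ M₀ :=
    xt_S_one (u := fun x => (√(1 - x ^ 2 / 4))⁻¹) ht
      (ContDiffAt.inv (ContDiffAt.sqrt (by fun_prop) h1.ne') (sqrt_pos.2 h1).ne')
  have hc : xt_S (fun z => cos (u z.1)) p₀ M₀ := xt_S_par (u := fun p => cos (u p)) hu.cos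
  have hn : xt_S (fun z => sin (u z.1)) p₀ M₀ := xt_S_par (u := fun p => sin (u p)) hu.sin
  have ho := xt_S_const (p₀ := p₀) (M₀ := M₀) ((1 : Mat) i j)
  have hh := xt_S_const (p₀ := p₀) (M₀ := M₀) (2⁻¹ : ℝ)
  refine xt_S_congr (xt_S_add (xt_S_mul hc ho) (xt_S_mul hn (xt_S_mul hs
    (xt_S_add (h i j) (xt_S_neg (xt_S_mul (xt_S_mul ht hh) ho)))))) ?_
  filter_upwards [(xt_G_cont h).preimage_mem_nhds (isOpen_ell.mem_nhds he)] with z hz
  have := congrFun (congrFun (kk_coe (x := f z) hz (u z.1)) i) j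
  refine this.trans ?_
  simp only [Jm, tl, Matrix.add_apply, Matrix.smul_apply, smul_eq_mul,
    div_eq_mul_inv, sub_eq_add_neg, Matrix.neg_apply]

theorem xt_sm {Φ : P → Tup g → Tup g} (h : ∀ x, xt_G (fun z => Φ z.1 z.2 x) p₀ M₀) :
    SmAt Φ p₀ M₀ := by
  choose F hF e using h
  refine ⟨fun z x i j => F x i j z, ?_, ?_⟩
  · exact contDiffAt_pi.2 fun x => contDiffAt_pi.2 fun i => contDiffAt_pi.2 fun j => hF x i j
  · have : ∀ᶠ z in 𝓝 (p₀, M₀), ∀ x i j, Φ z.1 z.2 x i j = F x i j (z.1, io z.2) :=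
      eventually_all.2 fun x => eventually_all.2 fun i => eventually_all.2 fun j => e x i j
    exact this.mono fun z hz => funext fun x => funext fun i => funext fun j => hz x i j

end

theorem SmAt.continuousAt {Φ : P → Tup g → Tup g} {p₀ : P} {M₀ : Tup g} (h : SmAt Φ p₀ M₀) :
    ContinuousAt (fun z : P × Tup g => Φ z.1 z.2) (p₀, M₀) := by
  obtain ⟨F, hF, e⟩ := h
  refine (io_emb.isInducing.continuousAt_iff).2 ?_
  have h1 : ContinuousAt (fun z : P × Tup g => F (z.1, io z.2)) (p₀, M₀) :=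
    ContinuousAt.comp_of_eq hF.continuousAt
      (continuous_fst.prodMk (xt_io_cont.comp continuous_snd)).continuousAt rfl
  exact h1.congr (e.mono fun _ hz => hz.symm)

theorem SmAt.comp {Φ Ψ : P → Tup g → Tup g} {p₀ : P} {M₀ : Tup g} (h : SmAt Φ p₀ (Ψ p₀ M₀))
    (h' : SmAt Ψ p₀ M₀) : SmAt (fun p N => Φ p (Ψ p N)) p₀ M₀ := by
  have hc := h'.continuousAt
  obtain ⟨F, hF, e⟩ := h
  obtain ⟨F', hF', e'⟩ := h'
  have e0 : io (Ψ p₀ M₀) = F' (p₀, io M₀) := e'.self_of_nhds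
  rw [e0] at hF
  refine ⟨fun z => F (z.1, F' z), ?_, ?_⟩
  · exact ContDiffAt.comp (g := F) (f := fun z => (z.1, F' z)) _ hF (contDiffAt_fst.prodMk hF')
  · have ht : Tendsto (fun z : P × Tup g => (z.1, Ψ z.1 z.2)) (𝓝 (p₀, M₀)) (𝓝 (p₀, Ψ p₀ M₀)) :=
      continuousAt_fst.prodMk hc
    filter_upwards [ht.eventually e, e'] with z h1 h2
    rw [← h2]; exact h1

theorem SmAt.reparam {P' : Type} [NormedAddCommGroup P'] [NormedSpace ℝ P'] {Φ : P → Tup g → Tup g}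
    {l : P' → P} {q₀ : P'} {M₀ : Tup g} (h : SmAt Φ (l q₀) M₀) (hl : ContDiffAt ℝ 1 l q₀) :
    SmAt (fun q => Φ (l q)) q₀ M₀ := by
  obtain ⟨F, hF, e⟩ := h
  refine ⟨fun z => F (l z.1, z.2), ?_, ?_⟩
  · exact ContDiffAt.comp (g := F) (f := fun z : P' × Amb g => (l z.1, z.2)) _ hF
      ((ContDiffAt.comp (g := l) (f := Prod.fst) (q₀, io M₀) hl contDiffAt_fst).prodMk
        contDiffAt_snd)
  · have ht : Tendsto (fun z : P' × Tup g => (l z.1, z.2)) (𝓝 (q₀, M₀)) (𝓝 (l q₀, M₀)) :=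
      (ContinuousAt.comp (g := l) (f := Prod.fst) (x := (q₀, M₀)) hl.continuousAt
        continuousAt_fst).prodMk continuousAt_snd
    exact ht.eventually e

theorem SmAt.differentiableAt {Φ : P → Tup g → Tup g} {p₀ : P} {M₀ : Tup g} (h : SmAt Φ p₀ M₀) :
    DifferentiableAt ℝ (fun p => io (Φ p M₀)) p₀ := by
  obtain ⟨F, hF, e⟩ := h
  have ht : Tendsto (fun p : P => (p, M₀)) (𝓝 p₀) (𝓝 (p₀, M₀)) :=
    continuousAt_id.prodMk continuousAt_const
  have h1 : DifferentiableAt ℝ (fun p => F (p, io M₀)) p₀ :=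
    DifferentiableAt.comp (g := F) (f := fun p => (p, io M₀)) p₀
      (hF.differentiableAt one_ne_zero) (differentiableAt_id.prodMk (differentiableAt_const _))
  exact h1.congr_of_eventuallyEq (ht.eventually e)

/-- Chain rule for two families that start at the identity. -/
theorem SmAt.hasFDerivAt_comp {Φ Ψ : P → Tup g → Tup g} {M : Tup g} (h : SmAt Φ 0 M)
    (h' : SmAt Ψ 0 M) (h0 : ∀ᶠ N in 𝓝 M, Φ 0 N = N) (h0' : Ψ 0 M = M) {L L' : P →L[ℝ] Amb g}
    (hL : HasFDerivAt (fun p => io (Φ p M)) L 0) (hL' : HasFDerivAt (fun p => io (Ψ p M)) L' 0) :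
    HasFDerivAt (fun p => io (Φ p (Ψ p M))) (L + L') 0 := by
  have hc : Tendsto (fun p => Ψ p M) (𝓝 0) (𝓝 M) := by
    have : ContinuousAt (fun p : P => Ψ p M) 0 :=
      ContinuousAt.comp_of_eq (f := fun p : P => (p, M)) h'.continuousAt
        (continuousAt_id.prodMk continuousAt_const) rfl
    rwa [ContinuousAt, h0'] at this
  obtain ⟨F, hF, e⟩ := h
  have hD := (hF.differentiableAt one_ne_zero).hasFDerivAt
  generalize fderiv ℝ F (0, io M) = D at hD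
  have k : ∀ {a : P → P} {b : P → Tup g} {A : P →L[ℝ] P} {B : P →L[ℝ] Amb g}, a 0 = 0 → b 0 = M →
      HasFDerivAt a A 0 → Tendsto b (𝓝 0) (𝓝 M) → HasFDerivAt (fun p => io (b p)) B 0 →
      HasFDerivAt (fun p => io (Φ (a p) (b p))) (D.comp (A.prod B)) 0 := by
    intro a b A B ha hb hA tb hB
    have ta : Tendsto a (𝓝 0) (𝓝 0) := by
      have := hA.continuousAt
      rwa [ContinuousAt, ha] at this
    have hD' : HasFDerivAt F D (a 0, io (b 0)) := by rwa [ha, hb]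
    have := HasFDerivAt.comp (g := F) (f := fun p => (a p, io (b p))) 0 hD' (hA.prodMk hB)
    exact this.congr_of_eventuallyEq ((ta.prodMk_nhds tb).eventually e)
  have k1 := k (a := fun p => p) (b := fun _ => M) rfl rfl (hasFDerivAt_id 0) tendsto_const_nhds
    (hasFDerivAt_const _ _)
  have k2 := k (a := fun _ => 0) (b := fun p => Ψ p M) rfl h0' (hasFDerivAt_const _ _) hc hL'
  have k3 := k (a := fun p => p) (b := fun p => Ψ p M) rfl h0' (hasFDerivAt_id 0) hc hL'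
  have e1 := hL.unique k1
  have e2 := hL'.unique (k2.congr_of_eventuallyEq
    ((hc.eventually h0).mono fun p hp => by simp only [hp]))
  refine k3.congr_fderiv ?_
  ext1 v
  have a1 := congrArg (fun T => T v) e1
  have a2 := congrArg (fun T => T v) e2
  simp only [ContinuousLinearMap.comp_apply, ContinuousLinearMap.prod_apply,
    ContinuousLinearMap.id_apply, zero_apply, add_apply] at a1 a2 ⊢
  rw [a1]
  nth_rewrite 2 [a2]
  rw [← map_add, Prod.mk_add_mk, add_zero, zero_add]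

theorem sm_act (ψ : Fr g ≃* Fr g) (M : Tup g) : SmAt (fun _ : ℝ => act ψ) 0 M :=
  xt_sm fun x => xt_G_lift (ψ (FreeGroup.of x))

theorem sm_sg (ε : Gen g → Bool) (M : Tup g) : SmAt (fun _ : ℝ => sg ε) 0 M := by
  refine xt_sm fun x => ?_
  unfold sg
  cases ε x
  · exact xt_G_co x
  · exact xt_G_neg (xt_G_co x)

theorem sm_phi (j : Fin g) (t : ℝ) {M : Tup g} (h : ell (ha M j)) : SmAt (phi j) t M := by
  refine xt_sm fun x => ?_
  unfold phi setH
  by_cases hx : x.1 = j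
  · simp only [if_pos hx]
    cases x.2
    · exact xt_G_co (j, false)
    · exact xt_G_mul (xt_G_co (j, true))
        (xt_G_kk (u := fun s => s) (xt_G_co (j, false)) contDiffAt_id h)
  · simp only [if_neg hx]
    exact xt_G_co x

theorem sm_sepf (h : ℕ) (t : ℝ) {M : Tup g} (he : ell (pre M h)) : SmAt (sepf h) t M := by
  refine xt_sm fun x => ?_
  unfold sepf cjh
  have hk : xt_G (fun z : ℝ × Tup g => kk (pre z.2 h) z.1) t M :=
    xt_G_kk (u := fun s => s) (xt_G_pre h) contDiffAt_id he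
  by_cases hx : (x.1 : ℕ) < h
  · simp only [if_pos hx]
    exact xt_G_mul (xt_G_mul hk (xt_G_co x)) (xt_G_inv hk)
  · simp only [if_neg hx]
    exact xt_G_co x

theorem continuous_pre (k : ℕ) : Continuous fun M : Tup g => pre M k :=
  continuous_iff_continuousAt.2 fun M =>
    ContinuousAt.comp_of_eq (f := fun N : Tup g => ((0 : ℝ), N))
      (xt_G_cont (xt_G_pre (p₀ := (0 : ℝ)) (M₀ := M) k))
      (continuousAt_const.prodMk continuousAt_id) rfl

theorem measurable_phi (j : Fin g) : Measurable fun p : ℝ × Tup g => phi j p.1 p.2 := by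
  have c : ∀ x, Measurable fun p : ℝ × Tup g => p.2 x := fun x =>
    (measurable_pi_apply x).comp measurable_snd
  refine measurable_pi_iff.2 fun x => ?_
  unfold phi setH
  by_cases hx : x.1 = j
  · simp only [if_pos hx]
    cases x.2
    · exact c (j, false)
    · exact (c (j, true)).mul (measurable_kk.comp ((c (j, false)).prodMk measurable_fst))
  · simp only [if_neg hx]
    exact c x

theorem measurable_sepf (h : ℕ) : Measurable fun p : ℝ × Tup g => sepf h p.1 p.2 := by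
  have c : ∀ x, Measurable fun p : ℝ × Tup g => p.2 x := fun x =>
    (measurable_pi_apply x).comp measurable_snd
  have hk : Measurable fun p : ℝ × Tup g => kk (pre p.2 h) p.1 :=
    measurable_kk.comp (((continuous_pre h).measurable.comp measurable_snd).prodMk measurable_fst)
  refine measurable_pi_iff.2 fun x => ?_
  unfold sepf cjh
  by_cases hx : (x.1 : ℕ) < h
  · simp only [if_pos hx]
    exact (hk.mul (c x)).mul hk.inv
  · simp only [if_neg hx]
    exact c x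

end Pool.Agent.MP_596265_gt.Erg

/-! Steps. -/

namespace Pool.Agent.MP_596265_gt.Erg

open Real Filter Topology MeasureTheory Set

variable {g : ℕ}

variable {P : Type} [NormedAddCommGroup P] [NormedSpace ℝ P] {e : ℤ} {S : Set (Tup g)}

theorem Inv.compl (h : Inv e S) : Inv e Sᶜ :=
  ⟨h.meas.compl, fun ψ k => (h.aut ψ k).mono fun _ a => a.not,
    fun ε => (h.sgn ε).mono fun _ a => a.not⟩
theorem Step.compl {Φ : P → Tup g → Tup g} {p₀ : P} {M₀ : Tup g} (h : Step e S Φ p₀ M₀) :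
    Step e Sᶜ Φ p₀ M₀ :=
  ⟨h.sm, h.ev.imp fun _ a => ⟨a.1, a.2.mono fun _ b => ⟨b.1, b.2.1,
    b.2.2.mono fun _ c k => (c k).not⟩⟩⟩
theorem Step.comp {Φ Ψ : P → Tup g → Tup g} {p₀ : P} {M₀ : Tup g} (h : Step e S Φ p₀ (Ψ p₀ M₀))
    (h' : Step e S Ψ p₀ M₀) : Step e S (fun p N => Φ p (Ψ p N)) p₀ M₀ := by
  obtain ⟨O', hO', a'⟩ := h.ev
  obtain ⟨O, hO, a⟩ := h'.ev
  obtain ⟨U, hU, V, hV, b⟩ := mem_nhds_prod_iff.1 (h'.sm.continuousAt hO')
  refine ⟨h.sm.comp h'.sm, _, inter_mem hO hV, ?_⟩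
  filter_upwards [a, a', hU] with q c c' hq
  have m : ∀ z ∈ O ∩ V, Ψ q z ∈ O' := fun z hz => b (mk_mem_prod hq hz.2)
  refine ⟨fun z hz => c'.1 ⟨m z hz.1, c.1 ⟨hz.1.1, hz.2⟩⟩, fun N hN => ?_, ?_⟩
  · refine measure_mono_null ?_ (c.2.1 _ (c'.2.1 N hN))
    exact fun z k => ⟨k.1.1, m z k.1, k.2⟩
  · filter_upwards [c.2.2, measure_eq_zero_iff_ae_notMem.1 (c.2.1 _ c'.2.2)] with z k k' hz
    exact (k hz.1).trans (not_not.1 (fun n => k' ⟨hz.1, n⟩) (m z hz))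
theorem Step.reparam {P' : Type} [NormedAddCommGroup P'] [NormedSpace ℝ P'] {Φ : P → Tup g → Tup g}
    {l : P' → P} {q₀ : P'} {M₀ : Tup g} (h : Step e S Φ (l q₀) M₀) (hl : ContDiffAt ℝ 1 l q₀) :
    Step e S (fun q => Φ (l q)) q₀ M₀ :=
  ⟨h.sm.reparam hl, h.ev.imp fun _ a => ⟨a.1, hl.continuousAt a.2⟩⟩
theorem Step.congr {Φ Ψ : P → Tup g → Tup g} {p₀ : P} {M₀ : Tup g} (h : Step e S Φ p₀ M₀)
    (he : ∀ᶠ z : P × Tup g in 𝓝 (p₀, M₀), Ψ z.1 z.2 = Φ z.1 z.2) : Step e S Ψ p₀ M₀ := by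
  obtain ⟨F, hF, k⟩ := h.sm
  obtain ⟨O, hO, a⟩ := h.ev
  obtain ⟨U, hU, V, hV, b⟩ := mem_nhds_prod_iff.1 he
  refine ⟨⟨F, hF, by filter_upwards [he, k] with z c c' using c ▸ c'⟩, _, inter_mem hO hV, ?_⟩
  filter_upwards [a, hU] with q c hq
  have m : ∀ z ∈ O ∩ V, Ψ q z = Φ q z := fun z hz => b (mk_mem_prod hq hz.2)
  refine ⟨fun z hz => m z hz.1 ▸ c.1 ⟨hz.1.1, hz.2⟩, fun N hN => ?_,
    c.2.2.mono fun z k hz => m z hz ▸ k hz.1⟩
  refine measure_mono_null ?_ (c.2.1 N hN)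
  exact fun z k => ⟨k.1.1, (congrArg (· ∈ N) (m z k.1)).mp k.2⟩
theorem Step.st {Φ : P → Tup g → Tup g} {p₀ : P} {M₀ : Tup g} (h : Step e S Φ p₀ M₀) :
    St e S (Φ p₀) M₀ :=
  h.reparam (l := fun _ : ℝ => p₀) contDiffAt_const
theorem St.step {Γ : Tup g → Tup g} {M₀ : Tup g} (h : St e S Γ M₀) (p₀ : P) :
    Step e S (fun _ : P => Γ) p₀ M₀ :=
  Step.reparam (l := fun _ : P => (0 : ℝ)) h contDiffAt_const
theorem st_id (M : Tup g) : St e S id M :=
  ⟨⟨_, contDiffAt_snd, .of_forall fun _ => rfl⟩, univ, univ_mem, .of_forall fun _ =>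
    ⟨fun _ a => a.2, fun _ h => by simpa only [preimage_id_eq, id_eq, univ_inter] using h, .of_forall fun _ _ => Iff.rfl⟩⟩
theorem xu_qi (hg : 1 ≤ g) {Γ Γ' : Tup g → Tup g} {A B : Set (Tup g)} (h : ∀ M ∈ A, M ∈ X g e →
    Γ M ∈ X g e ∧ SmAt (fun _ : ℝ => Γ') 0 (Γ M) ∧ Γ' (Γ M) = M) (hB : mu g e B = 0) :
    mu g e (A ∩ Γ ⁻¹' B) = 0 := by
  refine measure_mono_null ?_ (measure_union_null (push_null hg
    (A := B ∩ {N | SmAt (fun _ : ℝ => Γ') 0 N}) (fun _ a => a.1.2)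
    (measure_mono_null inter_subset_left hB)) (ae_X e))
  intro M a
  by_cases b : M ∈ X g e
  · have := h M a.1 b
    exact .inl ⟨Γ M, ⟨⟨a.2, this.2.1⟩, this.1⟩, this.2.2⟩
  · exact .inr b
theorem qi_act (hg : 1 ≤ g) {ψ : Fr g ≃* Fr g} (h : AutR ψ) {B : Set (Tup g)}
    (hB : mu g e B = 0) : mu g e (act ψ ⁻¹' B) = 0 := by
  simpa only [univ_inter] using xu_qi hg (A := univ) (fun M _ a => ⟨X_act h a, sm_act _ _, act_symm ψ M⟩) hB
theorem xu_sg (ε : Gen g → Bool) (M : Tup g) : sg ε (sg ε M) = M := by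
  funext x
  unfold sg
  cases ε x <;> simp
theorem qi_sg (hg : 1 ≤ g) (ε : Gen g → Bool) {B : Set (Tup g)} (hB : mu g e B = 0) :
    mu g e (sg ε ⁻¹' B) = 0 := by
  simpa only [univ_inter] using xu_qi hg (A := univ) (fun M _ a => ⟨X_sg ε a, sm_sg ε _, xu_sg ε M⟩) hB
theorem xu_ha (j : Fin g) (t : ℝ) (M : Tup g) : ha (phi j t M) j = ha M j := ha_setH ..
theorem xu_zero (j : Fin g) (M : Tup g) : phi j 0 M = M := by simp [phi, kk_zero]
theorem xu_add (j : Fin g) (s t : ℝ) (M : Tup g) : phi j (s + t) M = phi j s (phi j t M) := by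
  simp [phi, add_comm s, kk_add, mul_assoc]
theorem xu_pre {h : ℕ} (hh : h ≤ g) (t : ℝ) (M : Tup g) : pre (sepf h t M) h = pre M h := by
  rw [sepf, pre_cjh _ hh, cj, ← kk_comm, mul_inv_cancel_right]
theorem xu_szero (h : ℕ) (M : Tup g) : sepf h 0 M = M := by
  funext z
  simp [sepf, cjh, kk_zero]
theorem xu_sadd {h : ℕ} (hh : h ≤ g) (s t : ℝ) (M : Tup g) :
    sepf h (s + t) M = sepf h s (sepf h t M) := by
  rw [sepf, sepf, xu_pre hh]
  funext z
  by_cases k : (z.1 : ℕ) < h <;> simp only [cjh, k, ↓ reduceIte, kk_add, mul_assoc, mul_inv_rev, sepf]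
theorem qi_phi (hg : 1 ≤ g) (j : Fin g) (t : ℝ) {B : Set (Tup g)} (hB : mu g e B = 0) :
    mu g e ({M | ell (ha M j)} ∩ phi j t ⁻¹' B) = 0 :=
  xu_qi hg (fun M a b => ⟨X_phi j t b, (sm_phi j (-t) (by rwa [xu_ha])).reparam
    (l := fun _ : ℝ => -t) contDiffAt_const, by rw [← xu_add, neg_add_cancel, xu_zero]⟩) hB
theorem qi_sepf (hg : 1 ≤ g) {h : ℕ} (hh : h ≤ g) (t : ℝ) {B : Set (Tup g)} (hB : mu g e B = 0) :
    mu g e ({M | ell (pre M h)} ∩ sepf h t ⁻¹' B) = 0 :=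
  xu_qi hg (fun M a b => ⟨X_sepf hh t b, (sm_sepf h (-t) (by rwa [xu_pre hh])).reparam
    (l := fun _ : ℝ => -t) contDiffAt_const, by rw [← xu_sadd hh, neg_add_cancel, xu_szero]⟩) hB
theorem st_act (hg : 1 ≤ g) (hS : Inv e S) {ψ : Fr g ≃* Fr g} (h : AutR ψ) (M : Tup g) :
    St e S (act ψ) M :=
  ⟨sm_act ψ M, univ, univ_mem, .of_forall fun _ => ⟨fun _ a => X_act h a.2,
    fun _ k => by simpa only [univ_inter] using qi_act hg h k, (hS.aut ψ h).mono fun _ a _ => a⟩⟩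
theorem st_sg (hg : 1 ≤ g) (hS : Inv e S) (ε : Gen g → Bool) (M : Tup g) : St e S (sg ε) M :=
  ⟨sm_sg ε M, univ, univ_mem, .of_forall fun _ => ⟨fun _ a => X_sg ε a.2,
    fun _ k => by simpa only [univ_inter] using qi_sg hg ε k, (hS.sgn ε).mono fun _ a _ => a⟩⟩
theorem xu_meas {τ : Tup g → G} (c : Continuous τ) :
    Measurable fun M => arccos (tr (τ M) / 2) :=
  (continuous_arccos.comp ((continuous_tr.comp c).div_const 2)).measurable
theorem step_phi (hg : 3 ≤ g) (hS : Inv e S) (j : Fin g) (t : ℝ) {M : Tup g} (h : ell (ha M j)) :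
    Step e S (phi j) t M := by
  have := sfinite_mu hg e
  have c : Continuous fun M : Tup g => ha M j := continuous_apply _
  have o := isOpen_ell.preimage c
  obtain ⟨ψ, hψ, k⟩ := au_r j
  refine ⟨sm_phi j t h, _, o.mem_nhds h, .of_forall fun s => ⟨fun _ a => X_phi j s a.2,
    fun _ => qi_phi (by omega) j s, ms_flow _ o.measurableSet (measurable_phi j)
      (fun t N a => (congrArg ell (xu_ha j t N)).mpr a) (fun N _ => xu_zero j N) (fun s t N _ => xu_add j s t N)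
      (fun t N _ => by rw [phi, kk_per, phi]) (fun t _ => qi_phi (by omega) j t)
      (xu_meas c) (fun t N _ => by rw [xu_ha]) (irr_of_null (n1 hg e j)) hS.meas
      ((hS.aut ψ hψ).mono fun N a b => ?_) s⟩⟩
  rwa [phi, kk_self b, ← k]
theorem step_sepf (hg : 3 ≤ g) (hS : Inv e S) {h : ℕ} (h0 : 0 < h) (h1 : h < g) (t : ℝ) {M : Tup g}
    (he : ell (pre M h)) : Step e S (sepf h) t M := by
  have := sfinite_mu hg e
  have c := continuous_pre (g := g) h
  have o := isOpen_ell.preimage c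
  have hh := h1.le
  obtain ⟨ψ, hψ, k⟩ := au_sep hh
  refine ⟨sm_sepf h t he, _, o.mem_nhds he, .of_forall fun s => ⟨fun _ a => X_sepf hh s a.2,
    fun _ => qi_sepf (by omega) hh s, ms_flow _ o.measurableSet (measurable_sepf h)
      (fun t N a => (congrArg ell (xu_pre hh t N)).mpr a) (fun N _ => xu_szero h N)
      (fun s t N _ => xu_sadd hh s t N) (fun t N _ => by rw [sepf, kk_per, sepf])
      (fun t _ => qi_sepf (by omega) hh t) (xu_meas c) (fun t N _ => by rw [xu_pre hh])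
      (irr_of_null (n2 hg e h0 h1)) hS.meas ((hS.aut ψ hψ).mono fun N a b => ?_) s⟩⟩
  rwa [sepf, kk_self b, ← k]
theorem step_phib (hg : 3 ≤ g) (hS : Inv e S) (j : Fin g) (t : ℝ) {M : Tup g} (h : ell (hb M j)) :
    Step e S (phib j) t M := by
  obtain ⟨ψ, hψ, k⟩ := au_sig j
  have h1 : 1 ≤ g := by omega
  have a : Step e S (fun t => phi j (-t)) t (act ψ M) :=
    (step_phi hg hS j (-t) (by rwa [k, ha_setH, ell_inv])).reparam contDiffAt_id.neg
  refine (((st_act h1 hS hψ.symm _).step t).comp (a.comp ((st_act h1 hS hψ M).step t))).congr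
    (.of_forall fun z => ?_)
  rw [← act_symm ψ (phib j z.1 z.2)]
  simp [k, phi, phib, kk_inv, mul_assoc]
theorem om_pull {Γ : Tup g → Tup g} {M : Tup g} (h : St e S Γ M) (hM : M ∈ X g e)
    (ho : Γ M ∈ Om e S) : M ∈ Om e S := by
  obtain ⟨O, hO, a⟩ := h.ev
  obtain ⟨-, O', hO', b⟩ := ho
  have c : ContinuousAt Γ M := ContinuousAt.comp (f := fun N => ((0 : ℝ), N)) h.sm.continuousAt
    (by fun_prop)
  refine ⟨hM, _, inter_mem hO (c hO'), measure_mono_null ?_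
    (measure_union_null (a.self_of_nhds.2.1 _ b) a.self_of_nhds.2.2)⟩
  intro N k
  by_cases n : Γ N ∈ S
  · exact .inr fun r => k.2 ((r k.1.1).2 n)
  · exact .inl ⟨k.1.1, k.1.2, n⟩
theorem om_nhds {M : Tup g} (h : M ∈ Om e S) : ∀ᶠ N in 𝓝 M, N ∈ X g e → N ∈ Om e S := by
  obtain ⟨-, O, hO, a⟩ := h
  filter_upwards [eventually_mem_nhds_iff.2 hO] with N b c using ⟨c, O, b, a⟩
theorem om_disj (hg : 1 ≤ g) {M : Tup g} (h : NA M) (h1 : M ∈ Om e S) : M ∉ Om e Sᶜ := by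
  rintro ⟨hM, O', hO', b⟩
  obtain ⟨-, O, hO, a⟩ := h1
  refine mu_pos hg hM h (inter_mem hO hO') (measure_mono_null ?_ (measure_union_null a b))
  exact fun N k => (em' (N ∈ S)).imp (fun n => ⟨k.1, n⟩) fun n => ⟨k.2, not_not.2 n⟩
theorem om_ae (h : ∀ᵐ M ∂mu g e, M ∈ Om e S) : mu g e Sᶜ = 0 := by
  have : mu g e (Sᶜ ∩ Om e S) = 0 := by
    refine measure_null_of_locally_null _ fun M hM => ?_
    obtain ⟨O, hO, a⟩ := hM.2.2
    refine ⟨_, inter_mem_nhdsWithin _ hO, measure_mono_null ?_ a⟩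
    exact fun N k => ⟨k.2, k.1.1⟩
  refine measure_mono_null ?_ (measure_union_null this h)
  exact fun N k => (em (N ∈ Om e S)).imp_left fun n => ⟨k, n⟩

end Pool.Agent.MP_596265_gt.Erg

/-! Velocities and transports. -/

namespace Pool.Agent.MP_596265_gt.Erg

open Real Filter Topology MeasureTheory Set

variable {g : ℕ}

variable {e : ℤ} {S : Set (Tup g)}

section
variable {P Q : Type} [NormedAddCommGroup P] [NormedSpace ℝ P] [NormedAddCommGroup Q]
  [NormedSpace ℝ Q] {M : Tup g}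

/-- Families through the identity with several parameters. -/
def xv_P (e : ℤ) (S : Set (Tup g)) (M : Tup g) (L : P →L[ℝ] Amb g) : Prop :=
  ∃ Φ : P → Tup g → Tup g, Step e S Φ 0 M ∧ (∀ᶠ N in 𝓝 M, Φ 0 N = N) ∧
    HasFDerivAt (fun p => io (Φ p M)) L 0

theorem xv_iff {α : Gen g → Mat} :
    Vel e S M α ↔ xv_P e S M (ContinuousLinearMap.toSpanSingleton ℝ (tv M α)) := Iff.rfl
theorem xv_zero (M : Tup g) : xv_P e S M (0 : P →L[ℝ] Amb g) :=
  ⟨_, (st_id M).step 0, .of_forall fun _ => rfl, hasFDerivAt_const _ _⟩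
theorem xv_comp {L : P →L[ℝ] Amb g} (h : xv_P e S M L) (l : Q →L[ℝ] P) :
    xv_P e S M (L ∘L l) := by
  obtain ⟨Φ, a, b, c⟩ := h
  exact ⟨fun q => Φ (l q), Step.reparam (by rwa [map_zero]) l.contDiff.contDiffAt,
    by simpa only [map_zero] using b,
    HasFDerivAt.comp (g := fun p => io (Φ p M)) 0 (by rwa [map_zero]) l.hasFDerivAt⟩
theorem xv_add {L L' : P →L[ℝ] Amb g} (h : xv_P e S M L) (h' : xv_P e S M L') :
    xv_P e S M (L + L') := by
  obtain ⟨Φ, a, b, c⟩ := h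
  obtain ⟨Ψ, a', b', c'⟩ := h'
  have k := b'.self_of_nhds
  refine ⟨_, Step.comp (k.symm ▸ a) a', ?_, a.sm.hasFDerivAt_comp a'.sm b k c c'⟩
  filter_upwards [b, b'] with N r r'
  rw [r', r]
theorem xv_cont {Γ : Tup g → Tup g} (h : St e S Γ M) : ContinuousAt Γ M :=
  ContinuousAt.comp (f := fun N => ((0 : ℝ), N)) h.sm.continuousAt (by fun_prop)
theorem xv_tend {Φ : P → Tup g → Tup g} (h : Step e S Φ 0 M) (k : Φ 0 M = M) :
    Tendsto (fun p => Φ p M) (𝓝 0) (𝓝 M) := by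
  have : ContinuousAt (fun p => Φ p M) 0 :=
    ContinuousAt.comp (f := fun p : P => (p, M)) h.sm.continuousAt (by fun_prop)
  rwa [ContinuousAt, k] at this

end

theorem vel_zero (M : Tup g) : Vel e S M 0 :=
  xv_iff.2 (by simpa [show tv M 0 = 0 by simpa using tv_smul M 0 0] using xv_zero M)
theorem Vel.add {M : Tup g} {α β : Gen g → Mat} (h : Vel e S M α) (h' : Vel e S M β) :
    Vel e S M (α + β) := xv_iff.2 <| by
  convert xv_add (xv_iff.1 h) (xv_iff.1 h') using 1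
  ext; simp only [tv_add, ContinuousLinearMap.toSpanSingleton_apply, Pi.smul_apply, Pi.add_apply, smul_eq_mul, one_mul, add_apply, one_smul]
theorem Vel.smul {M : Tup g} {α : Gen g → Mat} (h : Vel e S M α) (r : ℝ) :
    Vel e S M (r • α) := xv_iff.2 <| by
  convert xv_comp (xv_iff.1 h) (ContinuousLinearMap.toSpanSingleton ℝ r) using 1
  ext; simp only [tv_smul, ContinuousLinearMap.toSpanSingleton_apply, Pi.smul_apply, smul_eq_mul, one_mul, ContinuousLinearMap.comp_apply]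
theorem Vel.ker {M : Tup g} {α : Gen g → Mat} (h : Vel e S M α) (hM : M ∈ X g e) :
    TL α ∧ fox M α g = 0 := by
  obtain ⟨Φ, a, b, c⟩ := h
  obtain ⟨O, hO, k⟩ := a.ev
  have D : HasFDerivAt fE (fderiv ℝ fE (io M)) (io (Φ 0 M)) := by
    rw [b.self_of_nhds]
    exact (contDiff_fE.differentiable one_ne_zero _).hasFDerivAt
  refine (ker_iff (X_pm hM) α).1 ((D.comp_hasDerivAt 0 c).unique
    ((hasDerivAt_const 0 (fun _ => 1, 0, 0, 0)).congr_of_eventuallyEq (k.mono fun t r => ?_)))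
  exact fE_io (X_pm (r.1 ⟨mem_of_mem_nhds hO, hM⟩))
theorem vel_om (hg : 1 ≤ g) (hS : MeasurableSet S) {M : Tup g} (hM : M ∈ X g e) (h : NA M)
    (hv : ∀ α, TL α → fox M α g = 0 → Vel e S M α) : M ∈ Om e S ∪ Om e Sᶜ := by
  let K := LinearMap.ker (fderiv ℝ fE (io M)).toLinearMap
  let b := Module.finBasis ℝ K
  obtain ⟨l, hl⟩ := K.subtype.exists_leftInverse_of_injective K.ker_subtype
  obtain ⟨Φ, a, k, c⟩ := xv_comp (show xv_P e S M (∑ i, (ContinuousLinearMap.toSpanSingleton ℝ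
      (b i : Amb g)) ∘L (b.coord i).toContinuousLinearMap) from
    Finset.sum_induction _ _ (fun _ _ => xv_add) (xv_zero M) fun i _ => by
      obtain ⟨α, hα⟩ := exists_tv M (b i)
      have := (ker_iff (X_pm hM) α).1 (hα ▸ (b i).2)
      exact xv_comp (hα ▸ xv_iff.1 (hv α this.1 this.2)) _) l.toContinuousLinearMap
  refine loc_om hg hS hM h a k.self_of_nhds c fun α h1 h2 => ⟨tv M α, ?_⟩
  have m : tv M α ∈ K := (ker_iff (X_pm hM) α).2 ⟨h1, h2⟩
  have e1 : l (tv M α) = ⟨_, m⟩ := LinearMap.congr_fun hl ⟨_, m⟩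
  have e2 := congrArg K.subtype (b.sum_repr ⟨_, m⟩)
  rw [map_sum] at e2
  simpa only [ContinuousLinearMap.comp_apply, LinearMap.coe_toContinuousLinearMap', e1, sum_apply, Module.Basis.coord_apply, ContinuousLinearMap.toSpanSingleton_apply, map_smul, Submodule.subtype_apply] using e2
theorem Tr.refl (K : Set (Gen g)) (M : Tup g) : Tr e S K M M :=
  ⟨id, id, st_id M, st_id M, rfl, .of_forall fun _ => rfl, fun _ _ => .of_forall fun _ => rfl⟩
theorem Tr.trans {K : Set (Gen g)} {M N L : Tup g} (h : Tr e S K M N) (h' : Tr e S K N L) :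
    Tr e S K M L := by
  obtain ⟨Γ, Γ', a, b, rfl, c, d⟩ := h
  obtain ⟨Δ, Δ', a', b', rfl, c', d'⟩ := h'
  have k := c'.self_of_nhds
  refine ⟨fun R => Δ (Γ R), fun R => Γ' (Δ' R), Step.comp a' a, Step.comp (k.symm ▸ b) b', rfl, ?_,
    fun z hz => ?_⟩
  · filter_upwards [c, xv_cont a c'] with R r r'
    rw [mem_preimage, mem_ofPred] at r'
    rw [r', r]
  · filter_upwards [d' z hz, xv_cont b' (k.symm ▸ d z hz)] with R r r' using r'.trans r
theorem Tr.eq {K : Set (Gen g)} {M N : Tup g} (h : Tr e S K M N) {z : Gen g} (hz : z ∉ K) :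
    N z = M z := by
  obtain ⟨Γ, Γ', -, -, rfl, c, d⟩ := h
  rw [← (d z hz).self_of_nhds, c.self_of_nhds]
theorem Tr.om {K : Set (Gen g)} {M N : Tup g} (h : Tr e S K M N) (hM : M ∈ X g e) :
    (N ∈ Om e S → M ∈ Om e S) ∧ (N ∈ Om e Sᶜ → M ∈ Om e Sᶜ) := by
  obtain ⟨Γ, Γ', a, -, rfl, -⟩ := h
  exact ⟨om_pull a hM, om_pull (Step.compl a) hM⟩
theorem Tr.vel {K : Set (Gen g)} {M N : Tup g} (h : Tr e S K M N) {β : Gen g → Mat}
    (hv : Vel e S N β) : ∃ α, Vel e S M α ∧ ∀ z, z ∉ K → α z = β z := by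
  have hz := fun z => h.eq (z := z)
  obtain ⟨Γ, Γ', a, b, rfl, c, d⟩ := h
  obtain ⟨Φ, a', b', c'⟩ := hv
  have k := b'.self_of_nhds
  have s := Step.comp (Φ := fun _ => Γ') (Ψ := fun t R => Φ t (Γ R)) (k.symm ▸ b) (a'.comp a)
  have D := s.sm.differentiableAt.hasDerivAt
  obtain ⟨α, hα⟩ := exists_tv M (deriv (fun p => io (Γ' (Φ p (Γ M)))) 0)
  rw [← hα] at D
  refine ⟨α, ⟨_, s, ?_, D⟩, fun z r => tv_inj (M := M) ?_⟩
  · filter_upwards [c, xv_cont a b'] with R r r'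
    rw [mem_preimage, mem_ofPred] at r'
    rw [r', r]
  · refine ((hasDerivAt_pi.1 D z).unique ((hasDerivAt_pi.1 c' z).congr_of_eventuallyEq ?_)).trans
      (by unfold tv; rw [hz z r])
    filter_upwards [xv_tend a' k (d z r)] with t n
    rw [mem_preimage, mem_ofPred] at n
    unfold io
    rw [n]
theorem tr_phi (hg : 3 ≤ g) (hS : Inv e S) (j : Fin g) (s : ℝ) {M : Tup g} (h : ell (ha M j)) :
    Tr e S {(j, true)} M (phi j s M) := by
  refine ⟨_, phi j (-s), (step_phi hg hS j s h).st, (step_phi hg hS j (-s) (by rwa [xu_ha])).st,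
    rfl, .of_forall fun L => by rw [← xu_add, neg_add_cancel, xu_zero],
    fun ⟨i, c⟩ hz => .of_forall fun L => ?_⟩
  by_cases k : i = j
  · subst k
    cases c
    exacts [xu_ha .., (hz rfl).elim]
  · exact setH_ne _ _ _ k
theorem xv_aut (hg : 3 ≤ g) (hS : Inv e S) {j : Fin g} {x y : Tup g → G}
    (h : ∃ ψ, AutR ψ ∧ ∀ M, act ψ M = setH M j (x M) (y M)) (M : Tup g) :
    Tr e S {z | z.1 = j} M (setH M j (x M) (y M)) := by
  obtain ⟨ψ, hψ, k⟩ := h
  refine ⟨_, _, st_act (by omega) hS hψ M, st_act (by omega) hS hψ.symm _, k M,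
    .of_forall (act_symm ψ), fun z hz => .of_forall fun L => ?_⟩
  rw [← congrFun (act_symm' ψ L) z, k, setH_ne _ _ _ hz]
theorem xv_hm1 (hg : 3 ≤ g) (hS : Inv e S) {M : Tup g} {j : Fin g} {p q : G × G} (h : HM1 p q)
    (h1 : ha M j = p.1) (h2 : hb M j = p.2) : Tr e S {z | z.1 = j} M (setH M j q.1 q.2) := by
  cases h <;> obtain rfl := h1 <;> obtain rfl := h2
  · exact xv_aut hg hS (au_r j) M
  · exact xv_aut hg hS (au_r' j) M
  · exact xv_aut hg hS (au_l j) M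
  · exact xv_aut hg hS (au_l' j) M
  · rename_i t h
    obtain ⟨Γ, Γ', a, b, c, d, k⟩ := tr_phi hg hS j t h
    exact ⟨Γ, Γ', a, b, c, d, fun z hz => k z fun n => hz (congrArg Prod.fst n)⟩
  · rename_i t h
    exact ⟨_, phib j (-t), (step_phib hg hS j t h).st,
      (step_phib hg hS j (-t) (by rwa [hb_setH])).st, rfl,
      .of_forall fun L => by simp [phib, kk_neg], fun z hz => .of_forall fun L => setH_ne _ _ _ hz⟩
theorem tr_hm (hg : 3 ≤ g) (hS : Inv e S) {M : Tup g} {j : Fin g} {q : G × G}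
    (h : HM (ha M j, hb M j) q) : Tr e S {z | z.1 = j} M (setH M j q.1 q.2) := by
  induction h with
  | refl => simpa using Tr.refl _ M
  | tail _ k ih => simpa using ih.trans (xv_hm1 hg hS k (ha_setH ..) (hb_setH ..))
theorem xv_der (b : G) {a : G} (h : ell a) (i k : Fin 2) :
    HasDerivAt (fun t => (b * kk a t) i k) (((b : Mat) * Jm a) i k) 0 := by
  simp only [Matrix.SpecialLinearGroup.coe_mul, Matrix.mul_apply]
  exact HasDerivAt.fun_sum fun l _ => (hasDerivAt_kk h l k).const_mul _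
theorem vel_phi (hg : 3 ≤ g) (hS : Inv e S) {j : Fin g} {M : Tup g} (h : ell (ha M j)) :
    Vel e S M fun z => if z = (j, true) then Jm (ha M j) else 0 := by
  refine ⟨_, step_phi hg hS j 0 h, .of_forall (xu_zero j), hasDerivAt_pi.2 fun ⟨i, c⟩ =>
    hasDerivAt_pi.2 fun k => hasDerivAt_pi.2 fun l => ?_⟩
  by_cases n : i = j
  · subst n
    cases c
    · simpa [io, phi, setH, tv] using hasDerivAt_const ..
    · simp only [io, phi, setH, tv, if_true]
      exact xv_der _ h k l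
  · simpa [io, phi, setH, tv, n] using hasDerivAt_const ..
theorem vel_phib (hg : 3 ≤ g) (hS : Inv e S) {j : Fin g} {M : Tup g} (h : ell (hb M j)) :
    Vel e S M fun z => if z = (j, false) then Jm (hb M j) else 0 := by
  refine ⟨_, step_phib hg hS j 0 h, .of_forall fun N => by simp [phib, kk_zero],
    hasDerivAt_pi.2 fun ⟨i, c⟩ => hasDerivAt_pi.2 fun k => hasDerivAt_pi.2 fun l => ?_⟩
  by_cases n : i = j
  · subst n
    cases c
    · simp only [io, phib, setH, tv, if_true]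
      exact xv_der _ h k l
    · simpa [io, phib, setH, tv] using hasDerivAt_const ..
  · simpa [io, phib, setH, tv, n] using hasDerivAt_const ..

end Pool.Agent.MP_596265_gt.Erg

/-! Velocities of the mixing circles. -/

namespace Pool.Agent.MP_596265_gt.Erg

open Real Filter Topology MeasureTheory Set

variable {g : ℕ}

variable {e : ℤ} {S : Set (Tup g)}

/-- Entrywise derivative at zero of a curve in the group. -/
def ya_D (f : ℝ → G) (A : Mat) : Prop := ∀ i j, HasDerivAt (fun t => f t i j) (A i j) 0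

theorem ya_const (x : G) : ya_D (fun _ => x) 0 := fun _ _ => hasDerivAt_const _ _

theorem ya_mul {f f' : ℝ → G} {A B : Mat} (h : ya_D f A) (h' : ya_D f' B) :
    ya_D (fun t => f t * f' t) (A * (f' 0 : Mat) + (f 0 : Mat) * B) := by
  intro i j
  have := ((h i 0).fun_mul (h' 0 j)).fun_add ((h i 1).fun_mul (h' 1 j))
  simp only [basic_mul]
  refine this.congr_deriv ?_
  simp only [Matrix.add_apply, Matrix.mul_apply, Fin.sum_univ_two]
  ring

theorem ya_kk {x : G} (h : ell x) : ya_D (kk x) (Jm x) := fun i j => hasDerivAt_kk h i j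

theorem ya_kki {x : G} (h : ell x) : ya_D (fun t => (kk x t)⁻¹) (-Jm x) := by
  intro i j
  have h1 : HasDerivAt (fun t => kk x t i j) (Jm x i j) (-0) := by
    rw [neg_zero]; exact hasDerivAt_kk h i j
  have := h1.comp (0 : ℝ) (hasDerivAt_neg (0 : ℝ))
  simp only [← kk_neg]
  exact this.congr_deriv (by simp)

theorem ya_congr {f : ℝ → G} {A B : Mat} (h : ya_D f A) (he : A = B) : ya_D f B := he ▸ h

theorem ya_tv {N : ℝ → Tup g} {M : Tup g} {α : Gen g → Mat}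
    (h : ∀ z, ya_D (fun t => N t z) ((M z : Mat) * α z)) :
    HasDerivAt (fun t => io (N t)) (tv M α) 0 :=
  hasDerivAt_pi.2 fun z => hasDerivAt_pi.2 fun i => hasDerivAt_pi.2 fun j => h z i j

theorem ya_ad (x : G) (Y : Mat) : (x : Mat) * ad x⁻¹ Y = Y * (x : Mat) := by
  have : (x : Mat) * ((x⁻¹ : G) : Mat) = 1 := by
    rw [← Matrix.SpecialLinearGroup.coe_mul, mul_inv_cancel]; rfl
  simp only [ad, inv_inv, ← mul_assoc, this, one_mul]

theorem ya_phi0 (j : Fin g) (N : Tup g) : phi j 0 N = N := by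
  simp [phi, kk_zero]

theorem ya_mid [NeZero g] {j : Fin g} (hj : j ≠ 0) (M : Tup g) (a b x y : G) :
    mid (setH (setH M 0 a b) j x y) 1 j = mid M 1 j := by
  have hj' : 1 ≤ (j : ℕ) := Nat.one_le_iff_ne_zero.2 fun h => hj (Fin.ext h)
  refine mid_congr hj' j.2.le fun i h1 h2 => ?_
  have hi : i ≠ j := fun h => by simp [h] at h2
  have hi0 : i ≠ 0 := fun h => by simp [h] at h1
  simp only [hc, ha_setH_ne _ _ _ hi, hb_setH_ne _ _ _ hi, ha_setH_ne _ _ _ hi0,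
    hb_setH_ne _ _ _ hi0]

theorem ya_swap {i j : Fin g} (h : i ≠ j) (M : Tup g) (a b x y a' b' : G) :
    setH (setH (setH M i a b) j x y) i a' b' = setH (setH M i a' b') j x y := by
  funext z
  by_cases h1 : z.1 = i
  · have h2 : z.1 ≠ j := h1 ▸ h
    simp [setH, h1, h]
  · simp [setH, h1]

theorem ya_comm {i j : Fin g} (h : i ≠ j) (M : Tup g) (a b x y : G) :
    setH (setH M i a b) j x y = setH (setH M j x y) i a b := by
  funext z
  by_cases h1 : z.1 = i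
  · simp [setH, h1, h]
  · simp [setH, h1]

theorem ya_four {i j : Fin g} (M : Tup g) (a b x y a' b' x' y' : G) :
    setH (setH (setH (setH M i a b) j x y) i a' b') j x' y' = setH (setH M i a' b') j x' y' := by
  funext z
  by_cases h1 : z.1 = i <;> by_cases h2 : z.1 = j <;> simp [setH, h1, h2]

/-- The conjugated twist flow and its orbit through `M`. -/
theorem ya_flow [NeZero g] (hg : 3 ≤ g) (hS : Inv e S) {j : Fin g} (hj : j ≠ 0) {M : Tup g} {m : G}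
    (hm : m = (ha M 0)⁻¹ * hc M 0 * cj (mid M 1 j) (ha M j)) (h : ell m) :
    ∃ Φ : ℝ → Tup g → Tup g, Step e S Φ 0 M ∧ (∀ N, Φ 0 N = N) ∧ ∀ t, Φ t M =
      setH (setH M 0 (ha M 0) (kk m t * hb M 0)) j
        (kk (cj (mid M 1 j)⁻¹ m) t * ha M j * (kk (cj (mid M 1 j)⁻¹ m) t)⁻¹)
        (hb M j * (kk (cj (mid M 1 j)⁻¹ m) t)⁻¹) := by
  obtain ⟨ψ, hψ, hf⟩ := au_mix (g := g) hj
  have h0 : ha (act ψ M) 0 = cj (ha M 0) m := by
    rw [hf, ha_setH_ne _ _ _ hj.symm, ha_setH, hm]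
  have he : ell (ha (act ψ M) 0) := by rw [h0, ell_cj]; exact h
  refine ⟨fun t N => act ψ.symm (phi 0 (-t) (act ψ N)), ?_, fun N => ?_, fun t => ?_⟩
  · have s1 : Step e S (fun _ : ℝ => act ψ) 0 M := (st_act (by omega) hS hψ M).step 0
    have s2 : Step e S (fun t : ℝ => phi 0 (-t)) 0 (act ψ M) :=
      Step.reparam (l := fun t : ℝ => -t) (step_phi hg hS 0 _ he) contDiffAt_id.neg
    have s3 := s2.comp s1
    exact ((st_act (by omega) hS hψ.symm _).step 0).comp s3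
  · simp only [neg_zero, ya_phi0, act_symm]
  · rw [← act_symm ψ (setH _ j _ _)]
    refine congrArg (act ψ.symm) ?_
    have hk : m * kk m t = kk m t * m := kk_comm m t
    rw [phi, h0, kk_cj, kk_neg, hf, hf, ya_mid hj, ya_swap hj.symm, ya_four, kk_cj]
    simp only [hc, ha_setH_ne _ _ _ hj.symm, hb_setH_ne _ _ _ hj.symm, ha_setH, hb_setH]
    generalize kk m t = k at *
    have e1 : (ha M 0)⁻¹ * cm (ha M 0) (k * hb M 0) * cj (mid M 1 j)
        (cj (mid M 1 j)⁻¹ k * ha M j * (cj (mid M 1 j)⁻¹ k)⁻¹) = m := by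
      have : m = k * m * k⁻¹ := by rw [← hk]; group
      rw [this, hm]; simp only [cj, hc, cm]; group
    rw [e1]
    congr 2 <;> simp only [cj] <;> group

theorem vel_mix1 [NeZero g] (hg : 3 ≤ g) (hS : Inv e S) {j : Fin g} (hj : j ≠ 0) {M : Tup g}
    (h : ell ((ha M 0)⁻¹ * hc M 0 * cj (mid M 1 j) (ha M j))) :
    ∃ α, Vel e S M α ∧ (∀ z : Gen g, z.1 ≠ 0 → z.1 ≠ j → α z = 0) ∧ ∀ Y, Y = ad (mid M 1 j)⁻¹
      (Jm ((ha M 0)⁻¹ * hc M 0 * cj (mid M 1 j) (ha M j))) →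
      α (j, false) = ad (ha M j)⁻¹ Y - Y ∧ α (j, true) = -Y := by
  obtain ⟨Φ, hΦ, h0, ht⟩ := ya_flow hg hS hj rfl h
  generalize (ha M 0)⁻¹ * hc M 0 * cj (mid M 1 j) (ha M j) = m at *
  have h' : ell (cj (mid M 1 j)⁻¹ m) := (ell_cj _ _).2 h
  rw [← Jm_cj]
  generalize cj (mid M 1 j)⁻¹ m = n at *
  refine ⟨setH (setH 0 0 0 (ad (hb M 0)⁻¹ (Jm m))) j (ad (ha M j)⁻¹ (Jm n) - Jm n) (-Jm n),
    ⟨Φ, hΦ, .of_forall h0, ?_⟩, fun z h1 h2 => ?_, fun Y hY => ?_⟩
  · simp only [ht]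
    refine ya_tv fun ⟨i, b⟩ => ?_
    by_cases h2 : i = j
    · subst h2
      cases b
      · simp only [setH, if_true, cond_false]
        refine ya_congr (ya_mul (ya_mul (ya_kk h') (ya_const _)) (ya_kki h')) ?_
        change _ = ((ha M i : G) : Mat) * _
        simp [kk_zero, ya_ad, sub_eq_add_neg, mul_add]
      · simp only [setH, if_true, cond_true]
        refine ya_congr (ya_mul (ya_const _) (ya_kki h')) ?_
        simp [hb]
    · by_cases h1 : i = 0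
      · subst h1
        cases b
        · simp only [setH, if_neg h2, if_true, cond_false]
          exact ya_congr (ya_const _) (by simp)
        · simp only [setH, if_neg h2, if_true, cond_true]
          refine ya_congr (ya_mul (ya_kk h) (ya_const _)) ?_
          change _ = ((hb M 0 : G) : Mat) * _
          simp [ya_ad]
      · simp only [setH, if_neg h2, if_neg h1]
        exact ya_congr (ya_const _) (by simp)
  · simp [setH, h1, h2]
  · subst hY; simp [setH]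

theorem vel_mix2 [NeZero g] (hg : 3 ≤ g) (hS : Inv e S) {j : Fin g} (hj : j ≠ 0) {M : Tup g}
    (h : ell ((ha M 0)⁻¹ * hc M 0 * cj (mid M 1 j) (ha M j * hb M j))) :
    ∃ α, Vel e S M α ∧ (∀ z : Gen g, z.1 ≠ 0 → z.1 ≠ j → α z = 0) ∧ ∀ Y, Y = ad (mid M 1 j)⁻¹
      (Jm ((ha M 0)⁻¹ * hc M 0 * cj (mid M 1 j) (ha M j * hb M j))) →
      α (j, false) = ad (ha M j)⁻¹ Y ∧ α (j, true) = -Y := by
  obtain ⟨ψ, hψ, hf⟩ := au_l (g := g) j
  obtain ⟨ψ', hψ', hf'⟩ := au_l' (g := g) j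
  have hd : mid (act ψ M) 1 j = mid M 1 j := by
    rw [hf, ← ya_mid hj M (ha M 0) (hb M 0) (ha M j * hb M j) (hb M j), setH_self]
  have a0 : ha (act ψ M) 0 = ha M 0 := by rw [hf, ha_setH_ne _ _ _ hj.symm]
  have b0 : hb (act ψ M) 0 = hb M 0 := by rw [hf, hb_setH_ne _ _ _ hj.symm]
  have aj : ha (act ψ M) j = ha M j * hb M j := by rw [hf, ha_setH]
  have bj : hb (act ψ M) j = hb M j := by rw [hf, hb_setH]
  obtain ⟨Φ, hΦ, h0, ht⟩ := ya_flow (M := act ψ M) hg hS hj (by rw [hc, hc, hd, a0, b0, aj]) h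
  rw [hd, a0, b0, aj, bj] at ht
  generalize (ha M 0)⁻¹ * hc M 0 * cj (mid M 1 j) (ha M j * hb M j) = m at *
  have h' : ell (cj (mid M 1 j)⁻¹ m) := (ell_cj _ _).2 h
  rw [← Jm_cj]
  generalize cj (mid M 1 j)⁻¹ m = n at *
  have ht' : ∀ t, act ψ' (Φ t (act ψ M)) = setH (setH M 0 (ha M 0) (kk m t * hb M 0)) j
      (kk n t * ha M j) (hb M j * (kk n t)⁻¹) := by
    intro t
    rw [ht, hf', ha_setH, hb_setH, setH_setH, hf, ya_swap hj, ya_comm hj]
    congr 1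
    group
  refine ⟨setH (setH 0 0 0 (ad (hb M 0)⁻¹ (Jm m))) j (ad (ha M j)⁻¹ (Jm n)) (-Jm n),
    ⟨fun t N => act ψ' (Φ t (act ψ N)), ?_, .of_forall fun N => ?_, ?_⟩, fun z h1 h2 => ?_,
    fun Y hY => ?_⟩
  · have s1 : Step e S (fun _ : ℝ => act ψ) 0 M := (st_act (by omega) hS hψ M).step 0
    exact ((st_act (by omega) hS hψ' _).step 0).comp (hΦ.comp s1)
  · simp [h0, hf, hf']
  · simp only [ht']
    refine ya_tv fun ⟨i, b⟩ => ?_
    by_cases h2 : i = j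
    · subst h2
      cases b
      · simp only [setH, if_true, cond_false]
        refine ya_congr (ya_mul (ya_kk h') (ya_const _)) ?_
        change _ = ((ha M i : G) : Mat) * _
        simp [ya_ad]
      · simp only [setH, if_true, cond_true]
        refine ya_congr (ya_mul (ya_const _) (ya_kki h')) ?_
        simp [hb]
    · by_cases h1 : i = 0
      · subst h1
        cases b
        · simp only [setH, if_neg h2, if_true, cond_false]
          exact ya_congr (ya_const _) (by simp)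
        · simp only [setH, if_neg h2, if_true, cond_true]
          refine ya_congr (ya_mul (ya_kk h) (ya_const _)) ?_
          change _ = ((hb M 0 : G) : Mat) * _
          simp [ya_ad]
      · simp only [setH, if_neg h2, if_neg h1]
        exact ya_congr (ya_const _) (by simp)
  · simp [setH, h1, h2]
  · subst hY; simp [setH]

end Pool.Agent.MP_596265_gt.Erg

/-! Full rank on U. -/

namespace Pool.Agent.MP_596265_gt.Erg

open Real Filter Topology MeasureTheory Set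

variable {g : ℕ}

variable {e : ℤ} {S : Set (Tup g)}

def yb_ad (k : G) : Mat →ₗ[ℝ] Mat where
  toFun := ad k
  map_add' := ad_add k
  map_smul' := ad_smul k

theorem yb_cancel (k : G) (Z : Mat) : ad k⁻¹ (ad k Z) = Z := by
  rw [← ad_mul, inv_mul_cancel, ad_one]

theorem yb_span [NeZero g] {M : Tup g} {j : Fin g} {c x : G} (hc : 2 < tr c) (hx : ¬ Pl c x⁻¹)
    (F₁ F₂ : Mat →ₗ[ℝ] Mat)
    (h : ∀ u : G, Pl c u → ell (u * x) → ∃ α, Vel e S M α ∧
      (∀ z : Gen g, z.1 ≠ 0 → z.1 ≠ j → α z = 0) ∧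
      α (j, false) = F₁ (Jm (u * x)) ∧ α (j, true) = F₂ (Jm (u * x)))
    {Z : Mat} (hZ : Z.trace = 0) : ∃ α, Vel e S M α ∧
      (∀ z : Gen g, z.1 ≠ 0 → z.1 ≠ j → α z = 0) ∧ α (j, false) = F₁ Z ∧ α (j, true) = F₂ Z := by
  have hs := span_sl hc hx hZ
  clear hZ
  induction hs using Submodule.span_induction with
  | mem W hW =>
    obtain ⟨u, h1, h2, rfl⟩ := hW
    exact h u h1 h2
  | zero => exact ⟨0, vel_zero M, fun _ _ _ => rfl, (map_zero F₁).symm, (map_zero F₂).symm⟩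
  | add W W' _ _ ih ih' =>
    obtain ⟨α, h1, h2, h3, h4⟩ := ih
    obtain ⟨β, k1, k2, k3, k4⟩ := ih'
    refine ⟨α + β, h1.add k1, fun z hz hz' => ?_, ?_, ?_⟩
    · rw [Pi.add_apply, h2 z hz hz', k2 z hz hz', add_zero]
    · rw [Pi.add_apply, h3, k3, map_add]
    · rw [Pi.add_apply, h4, k4, map_add]
  | smul r W _ ih =>
    obtain ⟨α, h1, h2, h3, h4⟩ := ih
    refine ⟨r • α, h1.smul r, fun z hz hz' => ?_, ?_, ?_⟩
    · rw [Pi.smul_apply, h2 z hz hz', smul_zero]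
    · rw [Pi.smul_apply, h3, map_smul]
    · rw [Pi.smul_apply, h4, map_smul]

theorem yb_hc {M : Tup g} {j : Fin g} {x y : G} (h : HM (ha M j, hb M j) (x, y)) (i : Fin g) :
    hc (setH M j x y) i = hc M i := by
  by_cases hi : i = j
  · subst hi
    have := cm_hm h
    simpa [hc] using this
  · simp only [hc, ha_setH_ne M x y hi, hb_setH_ne M x y hi]

theorem yb_pos [NeZero g] {j : Fin g} (hj : j ≠ 0) : 1 ≤ (j : ℕ) :=
  Nat.one_le_iff_ne_zero.2 fun h => hj (Fin.ext (by simpa using h))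

theorem yb_move [NeZero g] (hg : 3 ≤ g) (hS : Inv e S) {M : Tup g} (ha0 : ell (ha M 0))
    (hc0 : hc M 0 ≠ 1) {j : Fin g} (hj : j ≠ 0) {u : G} (hu : Pl (hc M 0) u) :
    ∃ N : Tup g, Tr e S {z | z.1 = 0} M N ∧ (ha N 0)⁻¹ * hc N 0 = u ∧ mid N 1 j = mid M 1 j ∧
      ha N j = ha M j ∧ hb N j = hb M j := by
  obtain ⟨b', hb'⟩ := reach ha0 hc0 ((pl_right (hc M 0) u).2 hu)
  refine ⟨setH M 0 (hc M 0 * u⁻¹) b', tr_hm hg hS hb', ?_, ?_, ha_setH_ne M _ _ hj,
    hb_setH_ne M _ _ hj⟩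
  · rw [yb_hc hb', ha_setH]; group
  · exact mid_congr (yb_pos hj) j.2.le fun i _ _ => yb_hc hb' i

theorem yb_back [NeZero g] {M N : Tup g} (h : Tr e S {z | z.1 = 0} M N) {j : Fin g} (hj : j ≠ 0)
    {β : Gen g → Mat} (hv : Vel e S N β) (hz : ∀ z : Gen g, z.1 ≠ 0 → z.1 ≠ j → β z = 0)
    {A B : Mat} (hA : β (j, false) = A) (hB : β (j, true) = B) :
    ∃ α, Vel e S M α ∧ (∀ z : Gen g, z.1 ≠ 0 → z.1 ≠ j → α z = 0) ∧
      α (j, false) = A ∧ α (j, true) = B := by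
  obtain ⟨α, h1, h2⟩ := h.vel hv
  exact ⟨α, h1, fun z h3 h4 => (h2 z h3).trans (hz z h3 h4), (h2 (j, false) hj).trans hA,
    (h2 (j, true) hj).trans hB⟩

theorem yb_ker {M : Tup g} (hM : M ∈ X g e) {α γ : Gen g → Mat} (hα : TL α) (hf : fox M α g = 0)
    (hγ : Vel e S M γ) : TL (α + (-1 : ℝ) • γ) ∧ fox M (α + (-1 : ℝ) • γ) g = 0 := by
  obtain ⟨h1, h2⟩ := hγ.ker hM
  refine ⟨fun z => ?_, ?_⟩
  · rw [Pi.add_apply, Pi.smul_apply, Matrix.trace_add, Matrix.trace_smul, hα z, h1 z, smul_zero,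
      add_zero]
  · rw [fox_add, fox_smul, hf, h2, smul_zero, add_zero]

theorem yb_dd [NeZero g] {M : Tup g} {α : Gen g → Mat} (hf : fox M α g = 0)
    (hz : ∀ z : Gen g, z.1 ≠ 0 → α z = 0) :
    dd (ha M 0) (hb M 0) (α (0, false)) (α (0, true)) = 0 := by
  have := fox_single (M := M) (j := 0) hz
  rw [hf, Fin.val_zero, pre_zero, ad_one] at this
  exact this.symm

theorem yb_dir [NeZero g] (hg : 3 ≤ g) (hS : Inv e S) {M : Tup g} (ha0 : ell (ha M 0)) {s : ℝ}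
    (hs : ell (hb M 0 * kk (ha M 0) s)) : ∃ α, Vel e S M α ∧ (∀ z : Gen g, z.1 ≠ 0 → α z = 0) ∧
      α (0, false) = Jm (hb M 0 * kk (ha M 0) s) := by
  have e1 : hb (phi 0 s M) 0 = hb M 0 * kk (ha M 0) s := hb_setH _ _ _ _
  obtain ⟨α, h1, h2⟩ := (tr_phi hg hS 0 s ha0).vel (vel_phib hg hS (j := 0) (e1 ▸ hs))
  refine ⟨α, h1, fun z hz => ?_, ?_⟩
  · rw [h2 z fun h => hz (by rw [h]), if_neg fun h => hz (by rw [h])]
  · rw [h2 _ (by simp), if_pos rfl, e1]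

theorem yb_pl (c D x : G) :
    Pl c (cj D x)⁻¹ ↔ ((x : Mat) * (((cj D⁻¹ c : G) : Mat) - 1)).trace = 0 := by
  have e1 : (cj D x)⁻¹ * c⁻¹ = (cj D (cj D⁻¹ c * x))⁻¹ := by simp only [cj]; group
  rw [Pl, e1, tr_inv, tr_inv, tr_cj, tr_cj, tr_mul_comm, mul_sub, mul_one, Matrix.trace_sub,
    sub_eq_zero, tr_eq, tr_eq, Matrix.SpecialLinearGroup.coe_mul]

/-- The two open conditions on handle `j`. -/
def yb_G [NeZero g] (M : Tup g) (j : Fin g) : Prop :=
  ¬ Pl (hc M 0) (cj (mid M 1 j) (ha M j))⁻¹ ∧ ¬ Pl (hc M 0) (cj (mid M 1 j) (ha M j * hb M j))⁻¹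

theorem yb_step [NeZero g] (hg : 3 ≤ g) (hS : Inv e S) {M : Tup g} (hM : M ∈ UU g e) {j : Fin g}
    (hj : j ≠ 0) : ∃ N ∈ UU g e, (N ∈ Om e S ∪ Om e Sᶜ → M ∈ Om e S ∪ Om e Sᶜ) ∧ yb_G N j ∧
      ∀ i, i ≠ 0 → i ≠ j → yb_G M i → yb_G N i := by
  obtain ⟨hX, ha0, hc0, hU⟩ := hM
  have hk : 2 < tr (hc M 0) := ell_kappa ha0 hc0
  obtain ⟨x, y, hm, h1, h2⟩ := good (x := ha M j) (y := hb M j)
      (N := ((cj (mid M 1 j)⁻¹ (hc M 0) : G) : Mat) - 1) (by
    rintro ⟨k1, k2, k3⟩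
    obtain ⟨s, hs⟩ := ind3 (hU j hj).1 k1 k2 k3
    have h3 : cj (mid M 1 j)⁻¹ (hc M 0) * hc M j = 1 := lemL hs (by rw [tr_cj]; exact hk.ne')
    have h4 : pre M 1 = hc M 0 := by
      have := pre_succ M (0 : Fin g)
      rwa [Fin.val_zero, pre_zero, one_mul, zero_add] at this
    have h5 : pre M j = hc M 0 * mid M 1 j := by rw [mid, h4]; group
    apply (hU j hj).2
    rw [h5]
    have h6 : cj (hc M 0 * mid M 1 j) (hc M j) * hc M 0 =
        cj (mid M 1 j) (cj (mid M 1 j)⁻¹ (hc M 0) * hc M j) := by simp only [cj]; group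
    rw [h6, h3]
    simp [cj])
  have hh := yb_hc hm
  have hp : ∀ i : Fin g, pre (setH M j x y) i = pre M i := fun i =>
    pre_congr i.2.le fun k _ => hh k
  have hd : ∀ i : Fin g, i ≠ 0 → mid (setH M j x y) 1 i = mid M 1 i := fun i hi =>
    mid_congr (yb_pos hi) i.2.le fun k _ _ => hh k
  have ht : Tr e S {z | z.1 = j} M (setH M j x y) := tr_hm hg hS hm
  have hc' : cmt x y = cmt (ha M j) (hb M j) := by simpa only using cmt_hm hm
  refine ⟨setH M j x y, ⟨X_setH hX hc', ?_, ?_, fun i hi => ?_⟩,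
    fun h => Or.imp (ht.om hX).1 (ht.om hX).2 h, ?_, fun i hi hij h => ?_⟩
  · rwa [ha_setH_ne M x y hj.symm]
  · rwa [hh]
  · rw [hh, hh, hp]; exact hU i hi
  · rw [yb_G, hh, hd j hj, ha_setH, hb_setH, yb_pl, yb_pl]
    exact ⟨h1, h2⟩
  · rw [yb_G, hh, hd i hi, ha_setH_ne M x y hij, hb_setH_ne M x y hij]
    exact h

theorem vel_handle [NeZero g] (hg : 3 ≤ g) (hS : Inv e S) {M : Tup g} (ha0 : ell (ha M 0))
    (hc0 : hc M 0 ≠ 1) {j : Fin g} (hj : j ≠ 0)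
    (h1 : ¬ Pl (hc M 0) (cj (mid M 1 j) (ha M j))⁻¹)
    (h2 : ¬ Pl (hc M 0) (cj (mid M 1 j) (ha M j * hb M j))⁻¹) {A B : Mat} (hA : A.trace = 0)
    (hB : B.trace = 0) : ∃ α, Vel e S M α ∧ (∀ z : Gen g, z.1 ≠ 0 → z.1 ≠ j → α z = 0) ∧
      α (j, false) = A ∧ α (j, true) = B := by
  have hk : 2 < tr (hc M 0) := ell_kappa ha0 hc0
  have t1 : (ad (ha M j)⁻¹ (-B) - A).trace = 0 := by
    rw [Matrix.trace_sub, ad_trace, Matrix.trace_neg, hA, hB, neg_zero, sub_zero]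
  have t2 : (-B - (ad (ha M j)⁻¹ (-B) - A)).trace = 0 := by
    rw [Matrix.trace_sub, t1, Matrix.trace_neg, hB, neg_zero, sub_zero]
  obtain ⟨α, a1, a2, a3, a4⟩ := yb_span (e := e) (S := S) (M := M) (j := j) hk h1
    (yb_ad (ha M j)⁻¹ ∘ₗ yb_ad (mid M 1 j)⁻¹ - yb_ad (mid M 1 j)⁻¹) (-yb_ad (mid M 1 j)⁻¹)
    (fun u hu hel => by
      obtain ⟨N, k1, k2, k3, k4, _⟩ := yb_move hg hS ha0 hc0 hj hu
      obtain ⟨β, b1, b2, b3⟩ := vel_mix1 hg hS hj (M := N) (by rwa [k2, k3, k4])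
      rw [k2, k3, k4] at b3
      exact yb_back k1 hj b1 b2 (b3 _ rfl).1 (b3 _ rfl).2)
    ((ad_trace (mid M 1 j) _).trans t1)
  obtain ⟨β, b1, b2, b3, b4⟩ := yb_span (e := e) (S := S) (M := M) (j := j) hk h2
    (yb_ad (ha M j)⁻¹ ∘ₗ yb_ad (mid M 1 j)⁻¹) (-yb_ad (mid M 1 j)⁻¹)
    (fun u hu hel => by
      obtain ⟨N, k1, k2, k3, k4, k5⟩ := yb_move hg hS ha0 hc0 hj hu
      obtain ⟨β, b1, b2, b3⟩ := vel_mix2 hg hS hj (M := N) (by rwa [k2, k3, k4, k5])
      rw [k2, k3, k4, k5] at b3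
      exact yb_back k1 hj b1 b2 (b3 _ rfl).1 (b3 _ rfl).2)
    ((ad_trace (mid M 1 j) _).trans t2)
  change _ = ad _ (ad _ (ad _ _)) - ad _ (ad _ _) at a3
  change _ = -ad _ (ad _ _) at a4 b4
  change _ = ad _ (ad _ (ad _ _)) at b3
  rw [yb_cancel] at a3 a4 b3 b4
  refine ⟨α + β, a1.add b1, fun z hz hz' => ?_, ?_, ?_⟩
  · rw [Pi.add_apply, a2 z hz hz', b2 z hz hz', add_zero]
  · rw [Pi.add_apply, a3, b3, ad_sub _ (-B)]; abel
  · rw [Pi.add_apply, a4, b4]; abel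

theorem vel_engine [NeZero g] (hg : 3 ≤ g) (hS : Inv e S) {M : Tup g} (hM : M ∈ X g e)
    (ha0 : ell (ha M 0)) (hc0 : hc M 0 ≠ 1) {α : Gen g → Mat} (hα : TL α) (hf : fox M α g = 0)
    (hz : ∀ z : Gen g, z.1 ≠ 0 → α z = 0) : Vel e S M α := by
  obtain ⟨s₁, s₂, r₁, r₂, e1, e2, h⟩ := two_dir ha0 hc0 (hα _) (yb_dd hf hz)
  obtain ⟨β₁, a1, a2, a3⟩ := yb_dir hg hS ha0 e1
  obtain ⟨β₂, b1, b2, b3⟩ := yb_dir hg hS ha0 e2
  have hγ := (a1.smul r₁).add (b1.smul r₂)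
  obtain ⟨k1, k2⟩ := yb_ker hM hα hf hγ
  have k3 : ∀ z : Gen g, z.1 ≠ 0 → (α + (-1 : ℝ) • (r₁ • β₁ + r₂ • β₂)) z = 0 := fun z h0 => by
    simp only [Pi.add_apply, Pi.smul_apply, hz z h0, a2 z h0, b2 z h0, smul_zero, add_zero]
  have k4 : (α + (-1 : ℝ) • (r₁ • β₁ + r₂ • β₂)) (0, false) = 0 := by
    rw [Pi.add_apply, Pi.smul_apply, Pi.add_apply, Pi.smul_apply, Pi.smul_apply, a3, b3, ← h,
      neg_one_smul, add_neg_cancel]
  have k5 := yb_dd k2 k3
  rw [k4] at k5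
  obtain ⟨r, hr⟩ := vert_dir ha0 (k1 _) k5
  have k6 : α + (-1 : ℝ) • (r₁ • β₁ + r₂ • β₂) =
      r • fun z : Gen g => if z = (0, true) then Jm (ha M 0) else 0 := by
    funext ⟨i, b⟩
    by_cases hi : i = 0
    · subst hi
      cases b
      · rw [k4]; simp
      · rw [hr]; simp
    · rw [k3 _ hi]; simp [hi]
  have k7 := ((vel_phi hg hS ha0).smul r).add hγ
  rwa [← k6, neg_one_smul, neg_add_cancel_right] at k7

theorem rank_good [NeZero g] (hg : 3 ≤ g) (hS : Inv e S) {M : Tup g} (hM : M ∈ X g e)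
    (ha0 : ell (ha M 0)) (hc0 : hc M 0 ≠ 1)
    (h : ∀ j : Fin g, j ≠ 0 → ¬ Pl (hc M 0) (cj (mid M 1 j) (ha M j))⁻¹ ∧
      ¬ Pl (hc M 0) (cj (mid M 1 j) (ha M j * hb M j))⁻¹) : M ∈ Om e S ∪ Om e Sᶜ := by
  refine vel_om (by omega) hS.meas hM ⟨(0, false), (0, true), fun h0 => hc0 (cm_eq_one.2 h0)⟩
    fun α hα hf => ?_
  have key : ∀ J : Finset (Fin g), ∃ γ, Vel e S M γ ∧
      ∀ z : Gen g, z.1 ≠ 0 → γ z = if z.1 ∈ J then α z else 0 := by
    intro J
    induction J using Finset.induction_on with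
    | empty => exact ⟨0, vel_zero M, fun z _ => by simp⟩
    | insert j J hJ ih =>
      obtain ⟨γ, h1, h2⟩ := ih
      by_cases hj : j = 0
      · refine ⟨γ, h1, fun z hz => ?_⟩
        rw [h2 z hz, hj]
        simp only [Finset.mem_insert, hz, false_or]
      obtain ⟨β, b1, b2, b3, b4⟩ := vel_handle hg hS ha0 hc0 hj (h j hj).1 (h j hj).2
        (hα (j, false)) (hα (j, true))
      refine ⟨γ + β, h1.add b1, fun ⟨i, b⟩ hz => ?_⟩
      rw [Pi.add_apply, h2 _ hz]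
      by_cases hi : i = j
      · subst hi
        cases b <;> simp [hJ, b3, b4]
      · rw [b2 _ hz hi]
        simp [hi]
  obtain ⟨γ, h1, h2⟩ := key Finset.univ
  obtain ⟨k1, k2⟩ := yb_ker hM hα hf h1
  have k3 := (vel_engine hg hS hM ha0 hc0 k1 k2 fun z hz => by
    simp [h2 z hz]).add h1
  rwa [neg_one_smul, neg_add_cancel_right] at k3

theorem rank_uu [NeZero g] (hg : 3 ≤ g) (hS : Inv e S) {M : Tup g} (hM : M ∈ UU g e) :
    M ∈ Om e S ∪ Om e Sᶜ := by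
  have key : ∀ J : Finset (Fin g), ∃ N ∈ UU g e,
      (N ∈ Om e S ∪ Om e Sᶜ → M ∈ Om e S ∪ Om e Sᶜ) ∧ ∀ j ∈ J, j ≠ 0 → yb_G N j := by
    intro J
    induction J using Finset.induction_on with
    | empty => exact ⟨M, hM, id, fun j hj => by simp at hj⟩
    | insert j J hJ ih =>
      obtain ⟨N, h1, h2, h3⟩ := ih
      by_cases hj : j = 0
      · exact ⟨N, h1, h2, fun i hi h0 =>
          h3 i ((Finset.mem_insert.1 hi).resolve_left fun h => h0 (h.trans hj)) h0⟩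
      obtain ⟨L, k1, k2, k3, k4⟩ := yb_step hg hS h1 hj
      refine ⟨L, k1, fun h => h2 (k2 h), fun i hi h0 => ?_⟩
      by_cases hij : i = j
      · rwa [hij]
      · exact k4 i h0 hij (h3 i ((Finset.mem_insert.1 hi).resolve_left hij) h0)
  obtain ⟨N, h1, h2, h3⟩ := key Finset.univ
  exact h2 (rank_good hg hS h1.1 h1.2.1 h1.2.2.1 fun j hj => h3 j (Finset.mem_univ j) hj)

end Pool.Agent.MP_596265_gt.Erg

/-! Assembly. -/

namespace Pool.Agent.MP_596265_gt.Erg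

open Real Filter Topology MeasureTheory Set

variable {g : ℕ}

variable {e : ℤ} {S : Set (Tup g)}

theorem gn_ae (hg : 3 ≤ g) (e : ℤ) : ∀ᵐ M ∂mu g e, Gn M := by
  unfold Gn
  rw [ae_all_iff]
  intro ψ
  by_cases hψ : AutR ψ
  swap
  · exact Eventually.of_forall fun M h => absurd h hψ
  have key : ∀ τ : Tup g → ℝ, (∀ r, mu g e {M | τ M = r} = 0) →
      ∀ᵐ M ∂mu g e, |τ (act ψ M)| ≠ 2 := by
    intro τ h
    have h1 := measure_eq_zero_iff_ae_notMem.1 (qi_act (by omega) hψ (h 2))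
    have h2 := measure_eq_zero_iff_ae_notMem.1 (qi_act (by omega) hψ (h (-2)))
    filter_upwards [h1, h2] with M a b c
    rcases (abs_eq (by norm_num)).1 c with c | c
    · exact a c
    · exact b c
  have h1 : ∀ᵐ M ∂mu g e, ∀ k, |tr (ha (act ψ M) k)| ≠ 2 :=
    ae_all_iff.2 fun k => key (fun M => tr (ha M k)) (n1 hg e k)
  have h2 : ∀ᵐ M ∂mu g e, ∀ h, 0 < h → h < g → |tr (pre (act ψ M) h)| ≠ 2 := by
    refine ae_all_iff.2 fun h => ?_
    by_cases c : 0 < h ∧ h < g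
    · filter_upwards [key (fun M => tr (pre M h)) (n2 hg e c.1 c.2)] with M a _ _ using a
    · exact Eventually.of_forall fun M a b => absurd ⟨a, b⟩ c
  filter_upwards [h1, h2] with M a b _ using ⟨a, b⟩

theorem ye_gn_sep (hg : 3 ≤ g) (e : ℤ) : ∀ᵐ M ∂mu g e, ∀ (ψ : Fr g ≃* Fr g) (h : ℕ) (t : ℚ),
    AutR ψ → h < g → ell (pre (act ψ M) h) → Gn (sepf h t (act ψ M)) := by
  simp only [ae_all_iff]
  intro ψ h t hψ hh
  have h0 : mu g e {M | ¬ Gn M} = 0 := ae_iff.1 (gn_ae hg e)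
  have h1 := qi_act (by omega) hψ (qi_sepf (by omega) hh.le (t : ℝ) h0)
  filter_upwards [measure_eq_zero_iff_ae_notMem.1 h1] with M a b
  by_contra c
  exact a ⟨b, c⟩

theorem ye_na [NeZero g] {M : Tup g} (hM : M ∈ UU g e) : NA M :=
  ⟨(0, false), (0, true), fun h => hM.2.2.1 (cm_eq_one.2 h)⟩

end Pool.Agent.MP_596265_gt.Erg

/-! The theorem in terms of representations. -/

namespace Pool.Agent.MP_596265_gt.Erg

open Real Filter Topology MeasureTheory Set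

variable {g : ℕ}

theorem yf_img (S : Set (SurfaceGroup g →* PSL)) : io '' (io ⁻¹' liftSet S) = liftSet S := by
  refine image_preimage_eq_of_subset ?_
  rintro m ⟨M, hM, -⟩
  exact ⟨M, by funext x i j; exact (hM x i j).symm⟩

theorem yf_mem {S : Set (SurfaceGroup g →* PSL)} {M : Tup g} : M ∈ io ⁻¹' liftSet S ↔
    ∃ ρ ∈ S, ∀ x, (QuotientGroup.mk (M x) : PSL) = ρ (PresentedGroup.of x) := by
  refine ⟨?_, fun h => ⟨M, fun _ _ _ => rfl, h⟩⟩
  rintro ⟨N, hN, h⟩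
  have : M = N := io_emb.injective (by funext x i j; exact hN x i j)
  rwa [this]

theorem yf_act {S : Set (SurfaceGroup g →* PSL)}
    (hi : ∀ φ, IsPos φ → ∀ ρ ∈ S, ρ.comp φ.toMonoidHom ∈ S) {ψ : Fr g ≃* Fr g} (hψ : AutR ψ)
    {M : Tup g} (hM : M ∈ io ⁻¹' liftSet S) : act ψ M ∈ io ⁻¹' liftSet S := by
  obtain ⟨ρ, hρ, h⟩ := yf_mem.1 hM
  obtain ⟨φ, hφ⟩ := z_descend ψ hψ
  refine yf_mem.2 ⟨_, hi φ ⟨ψ, hψ, hφ⟩ ρ hρ, fun x => ?_⟩
  have : ρ.comp (PresentedGroup.mk _) = (QuotientGroup.mk' _).comp (FreeGroup.lift M) := by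
    ext x
    rw [MonoidHom.comp_apply, MonoidHom.comp_apply, FreeGroup.lift_apply_of]
    exact (h x).symm
  have e := DFunLike.congr_fun this (ψ (FreeGroup.of x))
  rw [MonoidHom.comp_apply, ← hφ] at e
  exact e.symm

theorem yf_neg (A : G) : (QuotientGroup.mk (-A) : PSL) = QuotientGroup.mk A := by
  rw [QuotientGroup.eq, Subgroup.mem_center_iff]
  intro B
  have : (-A)⁻¹ * A = -1 := by
    rw [inv_mul_eq_iff_eq_mul]; simp
  rw [this]; simp

theorem yf_sg {S : Set (SurfaceGroup g →* PSL)} (ε : Gen g → Bool) (M : Tup g) :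
    M ∈ io ⁻¹' liftSet S ↔ sg ε M ∈ io ⁻¹' liftSet S := by
  have : ∀ x, (QuotientGroup.mk (sg ε M x) : PSL) = QuotientGroup.mk (M x) := fun x => by
    cases hx : ε x <;> simp [sg, hx, yf_neg]
  simp only [yf_mem, this]

theorem yf_mu {e : ℤ} {S : Set (SurfaceGroup g →* PSL)} (hS : ∀ ρ ∈ S, EulerNumber ρ e) :
    mu g e (io ⁻¹' liftSet S) = vol g (liftSet S) := by
  rw [mu_apply, inter_eq_left.2, yf_img]
  intro M hM
  obtain ⟨ρ, hρ, h⟩ := yf_mem.1 hM
  exact (X_iff_euler h).2 (hS ρ hρ)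

end Pool.Agent.MP_596265_gt.Erg
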