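import Pool.Agent.MP_596265_gt.B5

/-! Working definitions for the large range of Euler numbers (not used in the statement). -/

namespace Pool.Agent.MP_596265_gt

open Real UpperHalfPlane

noncomputable section

variable {g : ℕ}

/-! Plane polygons -/

/-- Triangulations of the vertices `i, ..., j` by triangles of orientation `ν`. -/
inductive PT (ν : ℝ) (V : ℕ → Pt) : ℕ → ℕ → Prop
  | leaf (i : ℕ) : PT ν V i (i + 1)
  | node {i k j : ℕ} : PT ν V i k → PT ν V k j → 0 < ν * det3 (V i) (V k) (V j) → PT ν V i j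

/-- Laminar families of intervals. -/
def Lam (D : Finset (ℕ × ℕ)) : Prop :=
  ∀ p ∈ D, ∀ q ∈ D, p.2 ≤ q.1 ∨ q.2 ≤ p.1 ∨ (p.1 ≤ q.1 ∧ q.2 ≤ p.2) ∨ (q.1 ≤ p.1 ∧ p.2 ≤ q.2)

/-! Hyperbolic triangles -/

def ch (p q : ℍ) : ℝ := cosh (dist p q)
def hD (p q r : ℍ) : ℝ := hdet p q r / (p.im * q.im * r.im)
/-- Excess of the side `p q` opposite to `r`. -/
def kS (p r q : ℍ) : ℝ := 1 + ch p q - ch q r - ch p r
/-- Non-negative iff the triangle has a circumscribed circle or horocycle. -/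
def hH (p r q : ℍ) : ℝ := (ch q r - 1) * (ch p r - 1) - kS p r q ^ 2 / 4
def tarea (p r q : ℍ) : ℝ := har p r + har r q + har q p

/-! Triples -/

/-- Strict hyperbolicity of all simple curves and two genericity conditions on triples of
disjoint loops. -/
def GenX {g : ℕ} (σ : Fr g →* G) : Prop :=
  ∀ ψ : Fr g ≃* Fr g, IsConj (ψ (relPre g g)) (relPre g g) →
    (∀ k : Fin g, 2 < |tr (σ (ψ (FreeGroup.of (k, false))))|) ∧
    (∀ h : ℕ, 0 < h → h < g → 2 < |tr (σ (ψ (relPre g h)))|) ∧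
    (∀ i j k : Fin g, i ≠ j → i ≠ k → j ≠ k → ∀ x y z : G, x = σ (ψ (FreeGroup.of (i, false))) →
      y = σ (ψ (FreeGroup.of (j, false))) → z = σ (ψ (FreeGroup.of (k, false))) →
      tr (x * z) ≠ tr (x * y * z * y⁻¹)) ∧
    ∀ h h₁ h₂ : ℕ, 0 < h → h < h₁ → h₁ < h₂ → h₂ < g → ∀ x y z : G, x = σ (ψ (relPre g h)) →
      x * y = σ (ψ (relPre g h₁)) → x * y * z = σ (ψ (relPre g h₂)) →
      tr (x * z) ≠ tr (x * y * z * y⁻¹)

def seg {E : Type} (w : List E) (i j : ℕ) : List E := (w.take j).drop i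

end

end Pool.Agent.MP_596265_gt

namespace Pool.Agent.MP_596265_gt

section DY
open Filter Topology Set

end DY

end Pool.Agent.MP_596265_gt

namespace Pool.Agent.MP_596265_gt

open Real UpperHalfPlane Filter Topology

variable {g : ℕ}

end Pool.Agent.MP_596265_gt

namespace Pool.Agent.MP_596265_gt

open Real

theorem g1_cyc (a b c : Pt) : det3 b c a = det3 a b c := by
  unfold det3; ring

theorem g1_lt {ν : ℝ} {V : ℕ → Pt} {i j : ℕ} (h : PT ν V i j) : i < j := by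
  induction h with
  | leaf i => exact Nat.lt_succ_self i
  | node _ _ _ a b => exact a.trans b

theorem g1_root {ν : ℝ} {V : ℕ → Pt} {i j : ℕ} (h : PT ν V i j) :
    ∀ m, PT ν V j m → V m = V i → PT ν V (i + 1) m := by
  induction h with
  | leaf i => exact fun m h _ => h
  | node _ h2 h3 ih _ => exact fun m h e => ih m (PT.node h2 h (by rwa [e, g1_cyc])) e

theorem g1_up {ν : ℝ} {V W : ℕ → Pt} (s : ℕ) {i j : ℕ} (h : PT ν W i j) :
    (∀ k, i ≤ k → k ≤ j → V (k + s) = W k) → PT ν V (i + s) (j + s) := by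
  induction h with
  | leaf i => exact fun _ => by rw [Nat.add_right_comm]; exact PT.leaf _
  | node h1 h2 h3 ih1 ih2 =>
    intro e
    have a := g1_lt h1
    have b := g1_lt h2
    refine PT.node (ih1 fun k c d => e k c (by omega)) (ih2 fun k c d => e k (by omega) d) ?_
    rwa [e _ le_rfl (by omega), e _ a.le b.le, e _ (by omega) le_rfl]

theorem g1_down {ν : ℝ} {V W : ℕ → Pt} (s : ℕ) (e : ∀ k, W (k + s) = V k) {i j : ℕ}
    (h : PT ν W i j) : ∀ i' j', i = i' + s → j = j' + s → PT ν V i' j' := by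
  induction h with
  | leaf i =>
    intro i' j' a b
    obtain rfl : j' = i' + 1 := by omega
    exact PT.leaf _
  | @node i k j h1 _ h3 ih1 ih2 =>
    rintro i' j' rfl rfl
    have a := g1_lt h1
    obtain ⟨k', rfl⟩ : ∃ k', k = k' + s := ⟨k - s, by omega⟩
    exact PT.node (ih1 i' k' rfl rfl) (ih2 k' j' rfl rfl) (by rwa [e, e, e] at h3)

theorem g1_all {ν : ℝ} {V : ℕ → Pt} {n a : ℕ} (per : ∀ k, V (k + (n + 1)) = V k)
    (h : PT ν V a (a + n)) : PT ν V 0 n := by
  have h1 : ∀ d, PT ν V (a + d) (a + d + n) := by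
    intro d
    induction d with
    | zero => exact h
    | succ d ih =>
      have := g1_root ih (a + d + n + 1) (PT.leaf _) (per _)
      rwa [show a + d + n + 1 = a + (d + 1) + n by omega] at this
  refine g1_down (a * (n + 1)) (fun k => ?_) (h1 (a * n)) 0 n (by ring) (by ring)
  exact (Function.Periodic.nat_mul (f := V) per a) k

/-- Periodic simple polygon in general position. -/
structure g1_S (n : ℕ) (V : ℕ → Pt) : Prop where
  per : ∀ k, V (k + n) = V k
  inj : ∀ i j, i < j → j < n → (V i).1 ≠ (V j).1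
  meet : ∀ j k, j < k → k < n → ∀ z ∈ segment ℝ (V j) (V (j + 1)),
    z ∈ segment ℝ (V k) (V (k + 1)) → (k = j + 1 ∧ z = V k) ∨ (j = 0 ∧ k + 1 = n ∧ z = V 0)

theorem g1_S.zero {n : ℕ} {V : ℕ → Pt} (h : g1_S n V) : V n = V 0 := by
  simpa using h.per 0

theorem g1_S.one {n : ℕ} {V : ℕ → Pt} (h : g1_S n V) : V (n + 1) = V 1 := by
  rw [add_comm, h.per]

theorem g1_S.shift1 {n : ℕ} {V : ℕ → Pt} (h : g1_S n V) : g1_S n fun k => V (k + 1) := by
  refine ⟨fun k => by rw [Nat.add_right_comm, h.per], fun i j a b => ?_,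
    fun j k a b z c d => ?_⟩
  · rcases Nat.lt_or_ge (j + 1) n with e | e
    · exact h.inj _ _ (by omega) e
    · rw [show j + 1 = n by omega, h.zero]
      exact (h.inj 0 _ (by omega) (by omega)).symm
  · rcases Nat.lt_or_ge (k + 1) n with e | e
    · rcases h.meet _ _ (by omega) e z c d with ⟨f, g⟩ | ⟨f, -⟩
      · exact Or.inl ⟨by omega, g⟩
      · omega
    · have e' : k + 1 = n := by omega
      simp only [e'] at d ⊢
      rw [h.zero, h.one] at d
      rcases h.meet 0 _ (by omega) (by omega) z d c with ⟨f, g⟩ | ⟨-, f, g⟩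
      · obtain rfl : j = 0 := by omega
        exact Or.inr ⟨rfl, trivial, g⟩
      · exact Or.inl ⟨by omega, by rw [g, h.zero]⟩

theorem g1_S.shift {n : ℕ} {V : ℕ → Pt} (h : g1_S n V) (s : ℕ) : g1_S n fun k => V (k + s) := by
  induction s with
  | zero => exact h
  | succ s ih =>
    have := ih.shift1
    simpa only [Nat.add_right_comm _ 1 s, add_assoc] using this

theorem g1_S.simpleP {n : ℕ} {V : ℕ → Pt} (h : g1_S n V) (hn : 2 ≤ n) : SimpleP n V := by
  refine ⟨by omega, h.zero, fun k _ => ?_, h.meet⟩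
  simpa [add_comm] using (h.shift k).inj 0 1 one_pos hn

theorem g1_S.mod {n : ℕ} {V : ℕ → Pt} (h : g1_S n V) (t : ℕ) :
    V (t % n) = V t ∧ V (t % n + 1) = V (t + 1) :=
  ⟨Function.Periodic.map_mod_nat (f := V) h.per t,
    Function.Periodic.map_mod_nat (f := fun k => V (k + 1)) h.shift1.per t⟩

theorem g1_S.sub {n c : ℕ} {V : ℕ → Pt} (h : g1_S n V) (hc : c + 2 ≤ n)
    (hd : ∀ t, ∀ o ∈ openSegment ℝ (V 0) (V c), o ∉ segment ℝ (V t) (V (t + 1))) :
    g1_S (c + 1) fun k => V (k % (c + 1)) := by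
  refine ⟨fun k => by rw [Nat.add_mod_right], fun i j a b => ?_, fun j k a b z p q => ?_⟩
  · rw [Nat.mod_eq_of_lt b, Nat.mod_eq_of_lt (a.trans b)]
    exact h.inj i j a (by omega)
  · rw [Nat.mod_eq_of_lt (a.trans b), Nat.mod_eq_of_lt (show j + 1 < c + 1 by omega)] at p
    rw [Nat.mod_eq_of_lt b] at q ⊢
    rw [Nat.zero_mod]
    rcases Nat.lt_or_ge k c with e | e
    · rw [Nat.mod_eq_of_lt (show k + 1 < c + 1 by omega)] at q
      rcases h.meet j k a (by omega) z p q with f | ⟨-, f, -⟩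
      · exact Or.inl f
      · omega
    · obtain rfl : k = c := by omega
      rw [Nat.mod_self] at q
      by_cases z1 : z = V k
      · rcases h.meet j k a (by omega) z p (z1 ▸ left_mem_segment ℝ _ _) with f | ⟨-, f, -⟩
        · exact Or.inl f
        · omega
      by_cases z0 : z = V 0
      · rcases Nat.eq_zero_or_pos j with f | f
        · exact Or.inr ⟨f, rfl, z0⟩
        rcases h.meet 0 j f (by omega) z (z0 ▸ left_mem_segment ℝ _ _) p with ⟨-, g⟩ | ⟨-, g, -⟩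
        · exact absurd (congrArg Prod.fst (z0.symm.trans g)) (h.inj 0 j f (by omega))
        · omega
      rw [segment_symm] at q
      exact absurd p (hd j z (mem_openSegment_of_ne_left_right (Ne.symm z0) (Ne.symm z1) q))

/-- Orientation in a form that does not depend on the starting vertex. -/
def g1_O (n : ℕ) (V : ℕ → Pt) (ν : ℝ) : Prop :=
  (ν = 1 ∨ ν = -1) ∧ ∀ k, ∀ z ∈ openSegment ℝ (V k) (V (k + 1)),
    wn n V z + (if (V k).1 < (V (k + 1)).1 then 1 else 0) = (1 + ν) / 2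

theorem g1_ex {n : ℕ} {V : ℕ → Pt} (h : g1_S n V) (hn : 2 ≤ n) : ∃ ν, g1_O n V ν := by
  obtain ⟨ν, hν⟩ := exists_ori (h.simpleP hn)
  refine ⟨ν, hν.sgn, fun k z hz => ?_⟩
  have hk : k % n < n := Nat.mod_lt _ (by omega)
  rw [← (h.mod k).1, ← (h.mod k).2] at hz ⊢
  rw [← hν.side _ hk z hz, wn, ← Finset.add_sum_erase _ _ (Finset.mem_range.2 hk),
    (cS_cW_on hz ((h.simpleP hn).nv _ hk)).1, zero_add]

theorem g1_wn {n : ℕ} {V : ℕ → Pt} (h : g1_S n V) (s : ℕ) (z : Pt) :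
    wn n (fun k => V (k + s)) z = wn n V z := by
  induction s with
  | zero => rfl
  | succ s ih =>
    have a := Finset.sum_range_succ (fun k => cS (V (k + s)) (V (k + 1 + s)) z) n
    have b := Finset.sum_range_succ' (fun k => cS (V (k + s)) (V (k + 1 + s)) z) n
    rw [show n + s = 0 + s + n by omega, show n + 1 + s = 0 + 1 + s + n by omega, h.per,
      h.per] at a
    rw [← ih]
    unfold wn
    simp only [← add_assoc, Nat.add_right_comm _ s 1]
    linarith

theorem g1_O.shift {n : ℕ} {V : ℕ → Pt} {ν : ℝ} (h : g1_S n V) (hν : g1_O n V ν) (s : ℕ) :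
    g1_O n (fun k => V (k + s)) ν := by
  refine ⟨hν.1, fun k z hz => ?_⟩
  rw [g1_wn h]
  simp only [Nat.add_right_comm k 1 s] at hz ⊢
  exact hν.2 _ z hz

theorem g1_bary {u v w y : Pt} {ν : ℝ} (hD : 0 < ν * det3 u v w) (h1 : ν * det3 u v y = 0)
    (h2 : 0 ≤ ν * det3 v w y) (h3 : 0 ≤ ν * det3 w u y) : y ∈ segment ℝ u v := by
  have hν : ν ≠ 0 := fun e => by simp [e] at hD
  have h0 : det3 u v y = 0 := (mul_eq_zero.1 h1).resolve_left hν
  have hD' : det3 u v w ≠ 0 := fun e => by simp [e] at hD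
  have s : det3 v w y + det3 w u y = det3 u v w - det3 u v y := by unfold det3; ring
  have e1 : det3 v w y * u.1 + det3 w u y * v.1 = det3 u v w * y.1 - det3 u v y * w.1 := by
    unfold det3; ring
  have e2 : det3 v w y * u.2 + det3 w u y * v.2 = det3 u v w * y.2 - det3 u v y * w.2 := by
    unfold det3; ring
  rw [h0] at s e1 e2
  refine ⟨ν * det3 v w y / (ν * det3 u v w), ν * det3 w u y / (ν * det3 u v w),
    div_nonneg h2 hD.le, div_nonneg h3 hD.le, ?_, Prod.ext ?_ ?_⟩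
  · field_simp
    linarith only [s]
  · simp only [Prod.fst_add, Prod.smul_fst, smul_eq_mul]
    field_simp
    linarith only [e1]
  · simp only [Prod.snd_add, Prod.smul_snd, smul_eq_mul]
    field_simp
    linarith only [e2]

theorem g1_sum (u v w y : Pt) (ν : ℝ) :
    ν * det3 u v y + ν * det3 v w y + ν * det3 w u y = ν * det3 u v w := by
  unfold det3; ring

theorem g1_l (u v : Pt) : det3 u v u = 0 := by
  unfold det3; ring

theorem g1_r (u v : Pt) : det3 u v v = 0 := by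
  unfold det3; ring

theorem g1_comb (ν : ℝ) (p q u v : Pt) {a b : ℝ} (hab : a + b = 1) :
    ν * det3 p q (a • u + b • v) = a * (ν * det3 p q u) + b * (ν * det3 p q v) := by
  rw [pa_det_comb p q u v hab]; ring

/-- The point of a segment where an affine function vanishes. -/
theorem g1_cut {ν : ℝ} {a b o p : Pt} (h1 : 0 < ν * det3 a b o) (h2 : ν * det3 a b p ≤ 0) :
    ∃ y ∈ segment ℝ o p, ∃ r : ℝ, 0 < r ∧ ∀ c d : Pt, ν * det3 c d y =
      r * (ν * det3 a b o * (ν * det3 c d p) - ν * det3 a b p * (ν * det3 c d o)) := by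
  have h3 : 0 < ν * det3 a b o - ν * det3 a b p := by linarith
  have hs : -(ν * det3 a b p) / (ν * det3 a b o - ν * det3 a b p) +
      ν * det3 a b o / (ν * det3 a b o - ν * det3 a b p) = 1 := by
    rw [← add_div, div_eq_one_iff_eq h3.ne']; ring
  refine ⟨_, ⟨_, _, div_nonneg (by linarith only [h2]) h3.le, div_nonneg h1.le h3.le, hs, rfl⟩,
    (ν * det3 a b o - ν * det3 a b p)⁻¹, inv_pos.2 h3, fun c d => ?_⟩
  rw [g1_comb ν c d o p hs]; ring

theorem g1_walk {ν : ℝ} {u v w o p : Pt} (hD : 0 < ν * det3 u v w) (a1 : 0 < ν * det3 u v o)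
    (a2 : 0 < ν * det3 v w o) (a3 : 0 ≤ ν * det3 w u o) (b3 : 0 < ν * det3 w u p)
    (b : ν * det3 u v p < 0 ∨ ν * det3 v w p < 0) :
    ∃ y ∈ segment ℝ o p, (y ∈ segment ℝ u v ∨ y ∈ segment ℝ v w) ∧ 0 < ν * det3 w u y := by
  by_cases c : ν * det3 u v p < 0 ∧
      ν * det3 u v p * (ν * det3 v w o) ≤ ν * det3 u v o * (ν * det3 v w p)
  · obtain ⟨y, hy, r, r0, e⟩ := g1_cut a1 c.1.le
    have f3 : 0 < ν * det3 w u y := by
      rw [e]; exact mul_pos r0 (by nlinarith only [mul_pos a1 b3, c.1, a3])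
    exact ⟨y, hy, Or.inl (g1_bary hD (by rw [e]; ring)
      (by rw [e]; exact mul_nonneg r0.le (by linarith [c.2])) f3.le), f3⟩
  · have c2 : ν * det3 v w p < 0 ∧
        ν * det3 v w p * (ν * det3 u v o) ≤ ν * det3 v w o * (ν * det3 u v p) := by
      rcases lt_or_ge (ν * det3 u v p) 0 with d | d
      · have := not_le.1 fun x => c ⟨d, x⟩
        exact ⟨by nlinarith only [mul_pos_of_neg_of_neg d (neg_lt_zero.2 a2), a1, this], by linarith⟩
      · have d2 := b.resolve_left (not_lt.2 d)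
        exact ⟨d2, by linarith only [mul_nonneg a2.le d, mul_pos_of_neg_of_neg d2 (neg_lt_zero.2 a1)]⟩
    obtain ⟨y, hy, r, r0, e⟩ := g1_cut a2 c2.1.le
    have f3 : 0 < ν * det3 w u y := by
      rw [e]; exact mul_pos r0 (by nlinarith only [mul_pos a2 b3, c2.1, a3])
    exact ⟨y, hy, Or.inr (g1_bary (w := u) (by rwa [g1_cyc]) (by rw [e]; ring) f3.le
      (by rw [e]; exact mul_nonneg r0.le (by linarith [c2.2]))), f3⟩

theorem g1_no {n : ℕ} {V : ℕ → Pt} {ν : ℝ} (h : g1_S n V) (hD : 0 < ν * det3 (V 0) (V 1) (V 2))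
    {t : ℕ} (t2 : 2 ≤ t) (tn : t < n) {o p : Pt} (ho : o ∈ segment ℝ (V t) (V (t + 1)))
    (hp : p ∈ segment ℝ (V t) (V (t + 1))) (a1 : 0 < ν * det3 (V 0) (V 1) o)
    (a2 : 0 < ν * det3 (V 1) (V 2) o) (a3 : 0 ≤ ν * det3 (V 2) (V 0) o)
    (b3 : 0 < ν * det3 (V 2) (V 0) p) :
    0 ≤ ν * det3 (V 0) (V 1) p ∧ 0 ≤ ν * det3 (V 1) (V 2) p := by
  by_contra b
  rw [not_and_or, not_le, not_le] at b
  obtain ⟨y, hy, c, d⟩ := g1_walk hD a1 a2 a3 b3 b
  have hy' := (convex_segment _ _).segment_subset ho hp hy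
  rcases c with c | c
  · rcases h.meet 0 t (by omega) tn y c hy' with ⟨e, -⟩ | ⟨-, -, e⟩
    · omega
    · rw [e, g1_r, mul_zero] at d; exact d.false
  · rcases h.meet 1 t (by omega) tn y c hy' with ⟨e, e'⟩ | ⟨e, -⟩
    · rw [e', e, g1_l, mul_zero] at d; exact d.false
    · omega

/-- The turn at the leftmost vertex has the sign of the orientation. -/
theorem g1_lm {n : ℕ} {V : ℕ → Pt} {ν : ℝ} (h : g1_S n V) (hν : g1_O n V ν) (hn : 2 ≤ n)
    (hl : ∀ j, 2 ≤ j → j ≤ n → (V 1).1 < (V j).1) : 0 < ν * det3 (V 0) (V 1) (V 2) := by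
  obtain ⟨m, hm, hmin⟩ := (Finset.Icc 2 n).exists_min_image (fun j => (V j).1) ⟨2, by simp [hn]⟩
  have m1 := hl m (Finset.mem_Icc.1 hm).1 (Finset.mem_Icc.1 hm).2
  have m2 : ∀ j, 2 ≤ j → j ≤ n → (V m).1 ≤ (V j).1 := fun j a b =>
    hmin j (Finset.mem_Icc.2 ⟨a, b⟩)
  have w1 := hl 2 le_rfl hn
  have w2 := m2 2 le_rfl hn
  have u2 := m2 n hn le_rfl
  rw [h.zero] at u2
  obtain ⟨s, s0, s1, hs⟩ : ∃ s : ℝ, 0 < s ∧ s < 1 ∧ (V 1).1 + s * ((V 2).1 - (V 1).1) < (V m).1 := by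
    have d : 0 < (V 2).1 - (V 1).1 := by linarith only [w1]
    refine ⟨((V m).1 - (V 1).1) / ((V 2).1 - (V 1).1) / 2, by have := sub_pos.2 m1; positivity,
      ?_, ?_⟩
    · rw [div_lt_one two_pos, div_lt_iff₀ d]; linarith only [w1, w2]
    · rw [div_right_comm, div_mul_cancel₀ _ d.ne']; linarith only [m1]
  obtain ⟨z, z1, z2⟩ : ∃ z : Pt, z.1 = (V 1).1 + s * ((V 2).1 - (V 1).1) ∧
      z.2 = (V 1).2 + s * ((V 2).2 - (V 1).2) := ⟨(_, _), rfl, rfl⟩
  have hz : z ∈ openSegment ℝ (V 1) (V (1 + 1)) := pb_mem_open s0 s1 z1 z2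
  have z3 : (V 1).1 < z.1 := by rw [z1]; nlinarith only [w1, s0]
  have e := hν.2 1 z hz
  have hd : det3 (V 0) (V 1) z = s * det3 (V 0) (V 1) (V 2) := by
    unfold det3; rw [z1, z2]; ring
  rw [if_pos w1, wn, Finset.sum_eq_single 0] at e
  · have hne : det3 (V 0) (V 1) z ≠ 0 := fun x => by
      have := pa_mem (p := V 1) (q := V 0) (z := z) (by linarith only [m1, u2]) z3.le (by linarith only [u2, hs, z1])
        (by rw [pa_det_anti, x, neg_zero])
      rw [segment_symm] at this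
      rcases h.meet 0 1 one_pos hn z this (openSegment_subset_segment _ _ _ hz) with
        ⟨-, f⟩ | ⟨-, -, f⟩ <;> rw [f] at z1 z3 <;> linarith only [z3, u2, hs, z1]
    have : 0 < ν * det3 (V 0) (V 1) z := by
      unfold cS at e
      rw [zero_add, if_neg (fun x => by linarith only [x.1, u2, hs, z1])] at e
      rcases hν.1 with rfl | rfl <;> split_ifs at e with x
      · norm_num at e
      · rw [one_mul]
        exact lt_of_le_of_ne (not_lt.1 fun y => x ⟨z3.le, by linarith only [u2, hs, z1], y⟩) hne.symm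
      · linarith only [x.2.2]
      · norm_num at e
    rw [hd, mul_left_comm] at this
    exact (mul_pos_iff_of_pos_left s0).1 this
  · intro t ht t0
    rcases Nat.lt_or_ge t 2 with a | a
    · obtain rfl : t = 1 := by omega
      exact (cS_cW_on hz w1.ne).1
    · have b := Finset.mem_range.1 ht
      have c1 := m2 t a b.le
      have c2 := m2 (t + 1) (by omega) b
      unfold cS
      rw [if_neg (fun x => by linarith only [x.1, hs, z1, c1]), if_neg (fun x => by linarith only [x.1, hs, z1, c2]), sub_self]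
  · intro x
    exact absurd (Finset.mem_range.2 (by omega)) x

theorem g1_end {ν : ℝ} {a b p q o : Pt} (h : o ∈ segment ℝ p q) :
    ν * det3 a b o ≤ ν * det3 a b p ∨ ν * det3 a b o ≤ ν * det3 a b q := by
  obtain ⟨s, t, s0, t0, st, rfl⟩ := h
  rw [g1_comb ν a b p q st]
  obtain rfl : s = 1 - t := by linarith
  rcases le_total (ν * det3 a b p) (ν * det3 a b q) with c | c
  · right; linarith only [mul_nonneg s0 (sub_nonneg.2 c)]
  · left; linarith only [mul_nonneg t0 (sub_nonneg.2 c)]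

theorem g1_on {ν : ℝ} {p q o : Pt} (h : o ∈ segment ℝ p q) : ν * det3 p q o = 0 := by
  rw [pd_det h, mul_zero]

theorem g1_vert {ν : ℝ} {u v w y : Pt} (hD : 0 < ν * det3 u v w) (h1 : ν * det3 u v y = 0)
    (h3 : ν * det3 w u y = 0) : y = u := by
  have hν : ν ≠ 0 := fun e => by simp [e] at hD
  have hD' : det3 u v w ≠ 0 := fun e => by simp [e] at hD
  have a := (mul_eq_zero.1 h1).resolve_left hν
  have b := (mul_eq_zero.1 h3).resolve_left hν
  refine Prod.ext (mul_left_cancel₀ hD' ?_) (mul_left_cancel₀ hD' ?_)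
  · have : det3 u v w * y.1 - det3 u v w * u.1 =
      det3 w u y * (v.1 - u.1) + det3 u v y * (w.1 - u.1) := by unfold det3; ring
    rw [a, b] at this; linarith only [this]
  · have : det3 u v w * y.2 - det3 u v w * u.2 =
      det3 w u y * (v.2 - u.2) + det3 u v y * (w.2 - u.2) := by unfold det3; ring
    rw [a, b] at this; linarith

/-- A segment on the line `w u` whose ends avoid the open segment `w u` but which meets it
contains `u`. -/
theorem g1_line {ν : ℝ} {u v w p q o : Pt} (hD : 0 < ν * det3 u v w) (ho : o ∈ segment ℝ p q)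
    (a1 : 0 < ν * det3 u v o) (a2 : 0 < ν * det3 v w o) (o3 : ν * det3 w u o = 0)
    (p3 : ν * det3 w u p = 0) (q3 : ν * det3 w u q = 0)
    (hp : ν * det3 u v p ≤ 0 ∨ ν * det3 v w p ≤ 0) (hq : ν * det3 u v q ≤ 0 ∨ ν * det3 v w q ≤ 0) :
    u ∈ segment ℝ p q := by
  have key : ∀ e ∈ segment ℝ p q, ν * det3 w u e = 0 → ν * det3 u v e ≤ 0 → u ∈ segment ℝ p q := by
    intro e he e3 e1
    obtain ⟨y, hy, r, -, f⟩ := g1_cut a1 e1
    have : y = u := g1_vert hD (by rw [f]; ring) (by rw [f, e3, o3]; ring)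
    exact this ▸ (convex_segment _ _).segment_subset ho he hy
  rcases g1_end (ν := ν) (a := v) (b := w) ho with c | c
  · exact key p (left_mem_segment _ _ _) p3 (hp.resolve_right (by linarith))
  · exact key q (right_mem_segment _ _ _) q3 (hq.resolve_right (by linarith))

theorem g1_A {n : ℕ} {V : ℕ → Pt} {ν : ℝ} (h : g1_S n V) (hn : 4 ≤ n)
    (hD : 0 < ν * det3 (V 0) (V 1) (V 2))
    (hA : ∀ b, 3 ≤ b → b < n → 0 ≤ ν * det3 (V 0) (V 1) (V b) → 0 ≤ ν * det3 (V 1) (V 2) (V b) →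
      ν * det3 (V 2) (V 0) (V b) < 0) (t : ℕ) :
    ∀ o ∈ openSegment ℝ (V 2) (V 0), o ∉ segment ℝ (V t) (V (t + 1)) := by
  intro o ho hs
  rw [← (h.mod t).1, ← (h.mod t).2] at hs
  have tn : t % n < n := Nat.mod_lt _ (by omega)
  generalize t % n = t at hs tn
  have a3 : ν * det3 (V 2) (V 0) o = 0 := g1_on (openSegment_subset_segment _ _ _ ho)
  obtain ⟨α, β, α0, β0, αβ, e⟩ := ho
  have a1 : 0 < ν * det3 (V 0) (V 1) o := by
    rw [← e, g1_comb _ _ _ _ _ αβ, g1_l]; linarith only [mul_pos α0 hD]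
  have a2 : 0 < ν * det3 (V 1) (V 2) o := by
    rw [← e, g1_comb _ _ _ _ _ αβ, g1_r, g1_cyc]; linarith only [mul_pos β0 hD]
  rcases Nat.lt_or_ge t 2 with t2 | t2
  · interval_cases t
    · exact a1.ne' (g1_on hs)
    · exact a2.ne' (g1_on hs)
  have E : ∀ b, t ≤ b → b ≤ t + 1 → ν * det3 (V 2) (V 0) (V b) ≤ 0 ∧
      (ν * det3 (V 2) (V 0) (V b) = 0 →
        ν * det3 (V 0) (V 1) (V b) ≤ 0 ∨ ν * det3 (V 1) (V 2) (V b) ≤ 0) := by
    intro b b1 b2
    by_cases c2 : b = 2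
    · simp [c2, g1_l, g1_r]
    by_cases cn : b = n
    · simp [cn, h.zero, g1_l, g1_r]
    have hb : V b ∈ segment ℝ (V t) (V (t + 1)) := by
      rcases Nat.eq_or_lt_of_le b1 with rfl | c
      · exact left_mem_segment _ _ _
      · rw [show b = t + 1 by omega]; exact right_mem_segment _ _ _
    have k := hA b (by omega) (by omega)
    refine ⟨not_lt.1 fun c => ?_, fun c => ?_⟩
    · obtain ⟨d1, d2⟩ := g1_no h hD t2 tn hs hb a1 a2 a3.ge c
      linarith only [k d1 d2, c]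
    · by_contra d
      rw [not_or, not_le, not_le] at d
      linarith only [k d.1.le d.2.le, c]
  obtain ⟨p3, hp⟩ := E t le_rfl (by omega)
  obtain ⟨q3, hq⟩ := E (t + 1) (by omega) le_rfl
  obtain ⟨s, r, s0, r0, sr, e'⟩ := id hs
  have c3 := g1_comb ν (V 2) (V 0) (V t) (V (t + 1)) sr
  rw [e', a3] at c3
  have n1 := mul_nonpos_of_nonneg_of_nonpos s0 p3
  have n2 := mul_nonpos_of_nonneg_of_nonpos r0 q3
  rcases s0.eq_or_lt with rfl | s1
  · rw [zero_add] at sr
    rw [sr, zero_smul, zero_add, one_smul] at e'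
    rw [e'] at hq
    rcases hq a3 with x | x <;> linarith only [a1, x, a2]
  rcases r0.eq_or_lt with rfl | r1
  · rw [add_zero] at sr
    rw [sr, zero_smul, add_zero, one_smul] at e'
    rw [e'] at hp
    rcases hp a3 with x | x <;> linarith only [a1, x, a2]
  have p0 : ν * det3 (V 2) (V 0) (V t) = 0 :=
    (mul_eq_zero.1 (by linarith only [c3, n1, n2] : s * _ = 0)).resolve_left s1.ne'
  have q0 : ν * det3 (V 2) (V 0) (V (t + 1)) = 0 :=
    (mul_eq_zero.1 (by linarith only [c3, n1, n2] : r * _ = 0)).resolve_left r1.ne'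
  have hu := g1_line hD hs a1 a2 a3 p0 q0 (hp p0) (hq q0)
  have anti : ∀ a b z : Pt, -ν * det3 a b z = ν * det3 b a z := fun a b z => by
    rw [pa_det_anti a b]; ring
  have hw := g1_line (ν := -ν) (u := V 2) (v := V 1) (w := V 0) (by rwa [anti, g1_cyc]) hs
    (by rwa [anti]) (by rwa [anti]) (by rwa [anti]) (by rwa [anti]) (by rwa [anti])
    (by rw [anti, anti]; exact (hp p0).symm) (by rw [anti, anti]; exact (hq q0).symm)
  rcases h.meet 0 t (by omega) tn _ (left_mem_segment _ _ _) hu with ⟨x, -⟩ | ⟨-, x, -⟩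
  · omega
  · rcases h.meet 1 t (by omega) tn _ (right_mem_segment _ _ _) hw with ⟨y, -⟩ | ⟨y, -⟩ <;> omega

theorem g1_B {n b : ℕ} {V : ℕ → Pt} {ν : ℝ} (h : g1_S n V) (hD : 0 < ν * det3 (V 0) (V 1) (V 2))
    (b3 : 3 ≤ b) (bn : b < n) (f1 : 0 ≤ ν * det3 (V 0) (V 1) (V b))
    (f2 : 0 ≤ ν * det3 (V 1) (V 2) (V b)) (f3 : 0 ≤ ν * det3 (V 2) (V 0) (V b))
    (hm : ∀ c, 3 ≤ c → c < n → 0 ≤ ν * det3 (V 0) (V 1) (V c) → 0 ≤ ν * det3 (V 1) (V 2) (V c) →
      ν * det3 (V 2) (V 0) (V c) ≤ ν * det3 (V 2) (V 0) (V b)) :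
    0 < ν * det3 (V 0) (V 1) (V b) ∧ 0 < ν * det3 (V 1) (V 2) (V b) ∧
      ∀ t, ∀ o ∈ openSegment ℝ (V 1) (V b), o ∉ segment ℝ (V t) (V (t + 1)) := by
  have g1 : 0 < ν * det3 (V 0) (V 1) (V b) := lt_of_le_of_ne f1 fun e => by
    rcases h.meet 0 b (by omega) bn _ (g1_bary hD e.symm f2 f3) (left_mem_segment _ _ _) with
      ⟨x, -⟩ | ⟨-, -, x⟩
    · omega
    · exact h.inj 0 b (by omega) bn (by rw [x])
  have g2 : 0 < ν * det3 (V 1) (V 2) (V b) := lt_of_le_of_ne f2 fun e => by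
    rcases h.meet 1 b (by omega) bn _ (g1_bary (w := V 0) (by rwa [g1_cyc]) e.symm f3 f1)
      (left_mem_segment _ _ _) with ⟨x, -⟩ | ⟨x, -⟩ <;> omega
  refine ⟨g1, g2, fun t o ho hs => ?_⟩
  rw [← (h.mod t).1, ← (h.mod t).2] at hs
  have tn : t % n < n := Nat.mod_lt _ (by omega)
  generalize t % n = t at hs tn
  obtain ⟨α, β, α0, β0, αβ, e⟩ := ho
  have a1 : 0 < ν * det3 (V 0) (V 1) o := by
    rw [← e, g1_comb _ _ _ _ _ αβ, g1_r]; linarith only [mul_pos β0 g1]
  have a2 : 0 < ν * det3 (V 1) (V 2) o := by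
    rw [← e, g1_comb _ _ _ _ _ αβ, g1_l]; linarith only [mul_pos β0 g2]
  have a3 : ν * det3 (V 2) (V 0) (V b) < ν * det3 (V 2) (V 0) o := by
    have := g1_sum (V 0) (V 1) (V 2) (V b) ν
    rw [← e, g1_comb _ _ _ _ _ αβ, g1_cyc (V 1), g1_cyc (V 0)]
    obtain rfl : β = 1 - α := by linarith only [αβ]
    nlinarith only [g1, g2, α0, this]
  rcases Nat.lt_or_ge t 2 with t2 | t2
  · interval_cases t
    · exact a1.ne' (g1_on hs)
    · exact a2.ne' (g1_on hs)
  have E : ∀ c, 2 ≤ c → c ≤ n → V c ∈ segment ℝ (V t) (V (t + 1)) →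
      ¬ ν * det3 (V 2) (V 0) o ≤ ν * det3 (V 2) (V 0) (V c) := by
    intro c c2 cn hc x
    have y : 0 < ν * det3 (V 2) (V 0) (V c) := by linarith only [f3, a3, x]
    obtain ⟨d1, d2⟩ := g1_no h hD t2 tn hs hc a1 a2 (by linarith only [f3, a3]) y
    have c3 : c ≠ 2 := fun z => by simp [z, g1_l] at y
    have c4 : c ≠ n := fun z => by simp [z, h.zero, g1_r] at y
    linarith only [hm c (by omega) (by omega) d1 d2, a3, x]
  rcases g1_end (ν := ν) (a := V 2) (b := V 0) hs with x | x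
  · exact E t t2 tn.le (left_mem_segment _ _ _) x
  · exact E (t + 1) (by omega) tn (right_mem_segment _ _ _) x

theorem g1_sg {ν ν' x : ℝ} (h : ν = 1 ∨ ν = -1) (h' : ν' = 1 ∨ ν' = -1) (a : 0 < ν * x)
    (b : 0 < ν' * x) : ν' = ν := by
  rcases h with rfl | rfl <;> rcases h' with rfl | rfl <;> first | rfl | linarith

/-- Cutting an ear keeps the orientation. -/
theorem g1_ear {m : ℕ} {V : ℕ → Pt} {ν ν' : ℝ} (h : g1_S (m + 2) V) (hm : 2 ≤ m)
    (hν : g1_O (m + 2) V ν) (hD : 0 < ν * det3 (V 0) (V 1) (V 2))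
    (hA : 0 ≤ ν * det3 (V 0) (V 1) (V 3) → 0 ≤ ν * det3 (V 1) (V 2) (V 3) →
      ν * det3 (V 2) (V 0) (V 3) < 0)
    (hd : ∀ o ∈ openSegment ℝ (V 2) (V 0), o ∉ segment ℝ (V 2) (V 3))
    (h' : g1_O (m + 1) (fun k => V (k % (m + 1) + 2)) ν') : ν' = ν := by
  have hz : (2⁻¹ : ℝ) • V 2 + (2⁻¹ : ℝ) • V 3 ∈ openSegment ℝ (V 2) (V 3) :=
    ⟨_, _, by norm_num, by norm_num, by norm_num, rfl⟩
  have c2 := g1_comb ν (V 1) (V 2) (V 2) (V 3) (a := 2⁻¹) (b := 2⁻¹) (by norm_num)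
  have c3 := g1_comb ν (V 2) (V 0) (V 2) (V 3) (a := 2⁻¹) (b := 2⁻¹) (by norm_num)
  rw [g1_r] at c2
  rw [g1_l] at c3
  generalize (2⁻¹ : ℝ) • V 2 + (2⁻¹ : ℝ) • V 3 = z at hz c2 c3
  have hs := openSegment_subset_segment _ _ _ hz
  have zn := (pb_open_ne (h.inj 2 3 (by omega) (by omega)) hz).1
  have n1 : z ∉ segment ℝ (V 0) (V 1) := fun x => by
    rcases h.meet 0 2 (by omega) (by omega) z x hs with ⟨y, -⟩ | ⟨-, y, -⟩ <;> omega
  have n2 : z ∉ segment ℝ (V 1) (V 2) := fun x => by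
    rcases h.meet 1 2 (by omega) (by omega) z x hs with ⟨-, y⟩ | ⟨y, -⟩
    · exact zn y
    · omega
  have n3 : z ∉ segment ℝ (V 2) (V 0) := fun x => hd z (mem_openSegment_of_ne_left_right zn.symm
    (fun y => n1 (y ▸ left_mem_segment _ _ _)) x) hs
  have t0 : cS (V 0) (V 1) z + cS (V 1) (V 2) z + cS (V 2) (V 0) z = 0 := by
    refine (tri_wn hν.1 hD n1 n2 n3).resolve_right fun ⟨_, a1, a2, a3⟩ => ?_
    obtain ⟨d1, d2⟩ := g1_no h hD le_rfl (by omega) hs (right_mem_segment _ _ _) a1 a2 a3.le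
      (show 0 < ν * det3 (V 2) (V 0) (V 3) by linarith only [c3, a3])
    linarith only [hA d1 d2, c3, a3]
  have e1 := hν.2 2 z hz
  have e2 := h'.2 0 z (by
    simpa only [Nat.zero_mod, Nat.mod_eq_of_lt (show 0 + 1 < m + 1 by omega)] using hz)
  simp only [Nat.zero_mod, Nat.mod_eq_of_lt (show 0 + 1 < m + 1 by omega)] at e2
  rw [← g1_wn h 2, wn, Finset.sum_range_succ, Finset.sum_range_succ] at e1
  rw [wn, Finset.sum_range_succ, Finset.sum_congr rfl fun k hk => by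
    have := Finset.mem_range.1 hk
    rw [Nat.mod_eq_of_lt (show k < m + 1 by omega),
      Nat.mod_eq_of_lt (show k + 1 < m + 1 by omega)]] at e2
  rw [Nat.mod_self, Nat.mod_eq_of_lt (Nat.lt_succ_self m), h.zero, cS_anti (V (0 + 2))] at e2
  rw [show m + 1 + 1 + 2 = 2 + (m + 2) by omega, show m + 1 + 2 = m + 2 + 1 by omega, h.per,
    h.zero, h.one] at e1
  simp only [zero_add] at e2
  linarith only [t0, e1, e2]

theorem g1_main (n : ℕ) : ∀ (V : ℕ → Pt) (ν : ℝ), g1_S (n + 1) V → g1_O (n + 1) V ν →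
    1 ≤ n → PT ν V 0 n := by
  induction n using Nat.strong_induction_on with
  | _ n ih =>
  intro U ν hU oU hn
  rcases hn.eq_or_lt with rfl | hn
  · exact PT.leaf 0
  obtain ⟨s, hs, hmin⟩ := (Finset.range (n + 1)).exists_min_image (fun j => (U (j + 1)).1)
    ⟨0, by simp only [Finset.mem_range, lt_add_iff_pos_left, Order.lt_add_one_iff, zero_le]⟩
  have h := hU.shift s
  have o := oU.shift hU s
  have hl : ∀ j, 2 ≤ j → j ≤ n + 1 → (U (1 + s)).1 < (U (j + s)).1 := by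
    intro j a b
    obtain ⟨i, rfl⟩ : ∃ i, j = i + 1 := ⟨j - 1, by omega⟩
    refine lt_of_le_of_ne ?_ (by simpa using h.shift1.inj 0 i (by omega) (by omega))
    have := hmin ((i + s) % (n + 1)) (Finset.mem_range.2 (Nat.mod_lt _ (by omega)))
    rwa [(hU.mod _).2, add_comm s, Nat.add_right_comm] at this
  suffices H : ∃ a, PT ν (fun k => U (k + s)) a (a + n) by
    obtain ⟨a, H⟩ := H
    have := g1_up (V := U) s H fun _ _ _ => rfl
    rw [Nat.add_right_comm] at this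
    exact g1_all hU.per this
  change ∀ j, 2 ≤ j → j ≤ n + 1 → ((fun k => U (k + s)) 1).1 < ((fun k => U (k + s)) j).1 at hl
  generalize (fun k => U (k + s)) = V at h o hl
  have hD := g1_lm h o (by omega) hl
  rcases Nat.eq_or_lt_of_le hn with rfl | hn
  · exact ⟨0, PT.node (PT.leaf 0) (PT.leaf 1) hD⟩
  by_cases hB : ∃ b, (3 ≤ b ∧ b < n + 1) ∧ 0 ≤ ν * det3 (V 0) (V 1) (V b) ∧
      0 ≤ ν * det3 (V 1) (V 2) (V b) ∧ 0 ≤ ν * det3 (V 2) (V 0) (V b)
  · classical
    obtain ⟨b0, hb0⟩ := hB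
    obtain ⟨b, hb, bm⟩ := ((Finset.range (n + 1)).filter fun b => 3 ≤ b ∧
      0 ≤ ν * det3 (V 0) (V 1) (V b) ∧ 0 ≤ ν * det3 (V 1) (V 2) (V b)).exists_max_image
      (fun b => ν * det3 (V 2) (V 0) (V b)) ⟨b0, by simp only [Finset.mem_filter, Finset.mem_range, hb0.1.2, hb0.1.1, hb0.2.1, hb0.2.2.1, and_self]⟩
    simp only [Finset.mem_filter, Finset.mem_range] at hb bm
    obtain ⟨g1, g2, dg⟩ := g1_B h hD hb.2.1 hb.1 hb.2.2.1 hb.2.2.2
      (hb0.2.2.2.trans (bm b0 ⟨hb0.1.2, hb0.1.1, hb0.2.1, hb0.2.2.1⟩))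
      fun c a1 a2 a3 a4 => bm c ⟨a2, a1, a3, a4⟩
    obtain ⟨c, rfl⟩ : ∃ c, b = c + 1 := ⟨b - 1, by omega⟩
    obtain ⟨d, rfl⟩ : ∃ d, n = d + c := ⟨n - c, by omega⟩
    have e0 : V (d + (c + 1)) = V 0 := h.zero
    have e1 : V (d + 1 + (c + 1)) = V 1 := by rw [← h.one]; congr 1; omega
    have p1 := h.shift1.sub (c := c) (by omega) fun t => dg (t + 1)
    have p2 := (h.shift (c + 1)).sub (c := d + 1) (by omega) fun t z hz => by
      rw [e1, zero_add, openSegment_symm] at hz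
      rw [Nat.add_right_comm]
      exact dg _ z hz
    obtain ⟨ν1, o1⟩ := g1_ex p1 (by omega)
    obtain ⟨ν2, o2⟩ := g1_ex p2 (by omega)
    have l1 := g1_lm (p1.shift c) (o1.shift p1 c) (by omega) fun j a1 a2 => by
      obtain ⟨i, rfl⟩ : ∃ i, j = i + 1 := ⟨j - 1, by omega⟩
      simp only [add_comm 1 c, Nat.mod_self, show i + 1 + c = i + (c + 1) by omega,
        Nat.add_mod_right, Nat.mod_eq_of_lt (show i < c + 1 by omega)]
      exact hl _ a1 (by omega)
    have l2 := g1_lm (p2.shift d) (o2.shift p2 d) (by omega) fun j a1 a2 => by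
      obtain ⟨i, rfl⟩ : ∃ i, j = i + 2 := ⟨j - 2, by omega⟩
      simp only [add_comm 1 d, show i + 2 + d = i + (d + 1 + 1) by omega, Nat.add_mod_right,
        Nat.mod_eq_of_lt (show i < d + 1 + 1 by omega),
        Nat.mod_eq_of_lt (show d + 1 < d + 1 + 1 by omega), e1]
      exact hl _ (by omega) (by omega)
    simp only [zero_add, add_comm 1 c, Nat.mod_self, show 2 + c = 1 + (c + 1) by omega,
      Nat.add_mod_right, Nat.mod_eq_of_lt (show 1 < c + 1 by omega),
      Nat.mod_eq_of_lt (Nat.lt_succ_self c)] at l1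
    simp only [zero_add, add_comm 1 d, show 2 + d = d + 1 + 1 by omega, Nat.mod_self,
      Nat.mod_eq_of_lt (show d < d + 1 + 1 by omega),
      Nat.mod_eq_of_lt (show d + 1 < d + 1 + 1 by omega), e0, e1] at l2
    rw [← g1_cyc] at l1
    obtain rfl := g1_sg o1.1 o.1 l1 g2
    obtain rfl := g1_sg o2.1 o.1 l2 g1
    have q1 := g1_up (V := V) 1 (ih c (by omega) _ _ p1 o1 (by omega)) fun k _ a => by
      rw [Nat.mod_eq_of_lt (show k < c + 1 by omega)]
    have q2 := g1_up (V := V) (c + 1) (ih (d + 1) (by omega) _ _ p2 o2 (by omega)) fun k _ a => by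
      rw [Nat.mod_eq_of_lt (show k < d + 1 + 1 by omega)]
    rw [zero_add] at q2
    have := g1_root q1 _ q2 e1
    exact ⟨2, by rwa [show 2 + (d + c) = d + 1 + (c + 1) by omega]⟩
  · have hA : ∀ b, 3 ≤ b → b < n + 1 → 0 ≤ ν * det3 (V 0) (V 1) (V b) →
        0 ≤ ν * det3 (V 1) (V 2) (V b) → ν * det3 (V 2) (V 0) (V b) < 0 :=
      fun b a1 a2 a3 a4 => not_le.1 fun a5 => hB ⟨b, ⟨a1, a2⟩, a3, a4, a5⟩
    have dg := g1_A h (by omega) hD hA
    obtain ⟨m, rfl⟩ : ∃ m, n = m + 1 := ⟨n - 1, by omega⟩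
    have e0 : V (m + 2) = V 0 := h.zero
    have p1 := (h.shift 2).sub (c := m) le_rfl fun t z hz => by
      rw [e0] at hz
      rw [Nat.add_right_comm]
      exact dg _ z hz
    obtain ⟨ν1, o1⟩ := g1_ex p1 (by omega)
    obtain rfl := g1_ear h (by omega) o hD (hA 3 le_rfl (by omega)) (dg 2) o1
    have q1 := g1_up (V := V) 2 (ih m (by omega) _ _ p1 o1 (by omega)) fun k _ a => by
      rw [Nat.mod_eq_of_lt (show k < m + 1 by omega)]
    have e2 : V (m + 2 + 1 + 1) = V (0 + 2) := by rw [← h.per (0 + 2)]; congr 1; omega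
    have q2 : PT ν1 V (m + 2) (m + 2 + 1 + 1) :=
      PT.node (PT.leaf _) (PT.leaf _) (by rw [e2, e0, show V (m + 2 + 1) = V 1 from h.one]; exact hD)
    have := g1_root q1 _ q2 e2
    exact ⟨3, by rwa [show 3 + (m + 1) = m + 2 + 1 + 1 by omega]⟩

theorem exists_PT {n : ℕ} {V : ℕ → Pt} (hn : 2 ≤ n) (hs : SimpleP n V)
    (hx : ∀ i < n, ∀ j < n, i ≠ j → (V i).1 ≠ (V j).1) :
    ∃ ν : ℝ, (ν = 1 ∨ ν = -1) ∧ PT ν V 0 (n - 1) := by
  obtain ⟨m, rfl⟩ : ∃ m, n = m + 1 := ⟨n - 1, by omega⟩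
  have e : ∀ k ≤ m + 1, V (k % (m + 1)) = V k := fun k hk => by
    rcases hk.eq_or_lt with rfl | a
    · rw [Nat.mod_self, hs.cl]
    · rw [Nat.mod_eq_of_lt a]
  have h : g1_S (m + 1) fun k => V (k % (m + 1)) := by
    refine ⟨fun k => by rw [Nat.add_mod_right], fun i j a b => ?_, fun j k a b => ?_⟩
    · rw [e i (by omega), e j b.le]
      exact hx i (by omega) j b a.ne
    · rw [e j (by omega), e k b.le, e (j + 1) (by omega), e (k + 1) b, e 0 (by omega)]
      exact hs.meet j k a b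
  obtain ⟨ν, o⟩ := g1_ex h hn
  exact ⟨ν, o.1, g1_up (V := V) (j := m) 0 (g1_main m _ ν h o (by omega)) fun k _ a =>
    (e k (by omega)).symm⟩

end Pool.Agent.MP_596265_gt

namespace Pool.Agent.MP_596265_gt

open Real UpperHalfPlane Filter Topology

variable {g : ℕ}

theorem one_le_ch (p q : ℍ) : 1 ≤ ch p q := one_le_cosh _
theorem ch_comm (p q : ℍ) : ch p q = ch q p := by rw [ch, ch, dist_comm]
theorem hD_sq (p q r : ℍ) : hD p q r ^ 2 =
    4 * (1 + 2 * ch p q * ch q r * ch p r - ch p q ^ 2 - ch q r ^ 2 - ch p r ^ 2) := by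
  have := p.im_pos.ne'
  have := q.im_pos.ne'
  have := r.im_pos.ne'
  simp only [hD, ch, cosh_dist_Φ, hdet, det3, Φ]
  field_simp
  ring
theorem hD_cyc (p q r : ℍ) : hD q r p = hD p q r := by
  simp only [hD, hdet, det3]
  ring
theorem hD_pos {ν : ℝ} {p q r : ℍ} : 0 < ν * hD p q r ↔ 0 < ν * hdet p q r := by
  rw [hD, ← mul_div_assoc]
  exact div_pos_iff_of_pos_right (mul_pos (mul_pos p.im_pos q.im_pos) r.im_pos)
theorem hH_cyc (p r q : ℍ) : hH r q p = hH p r q := by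
  simp only [hH, kS, ch_comm r p, ch_comm r q]
  ring

theorem rha_cramer (p r q s t : ℍ) : hD p r q * ch s t + hD q s p * ch r t =
    hD r q s * ch p t + hD s p r * ch q t := by
  have := p.im_pos.ne'
  have := q.im_pos.ne'
  have := r.im_pos.ne'
  have := s.im_pos.ne'
  have := t.im_pos.ne'
  simp only [hD, ch, cosh_dist_Φ, hdet, det3, Φ]
  field_simp
  ring

theorem rha_H (p r q : ℍ) :
    8 * (1 + ch p q) * hH p r q = hD p r q ^ 2 - 2 * kS p r q ^ 2 * (ch p q - 1) := by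
  simp only [hD_sq, hH, kS, ch_comm r q]
  ring

theorem delaunay {ν : ℝ} (hν : ν = 1 ∨ ν = -1) {p r q s : ℍ} (h1 : 0 < ν * hD p r q)
    (h2 : 0 < ν * hD q s p)
    (hm : 0 < ν * hD r q s → 0 < ν * hD s p r →
      ν * hD p r q + ν * hD q s p ≤ ν * hD r q s + ν * hD s p r)
    (hb : hH p r q < 0) (hk : 0 < kS p r q) : hH q s p < 0 ∧ kS q s p < 0 := by
  have hs : ∀ t : ℍ, ch t t = 1 := fun t => by rw [ch, dist_self, cosh_zero]
  have hq : ∀ a : ℝ, (ν * a) ^ 2 = a ^ 2 := fun a => by rcases hν with rfl | rfl <;> ring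
  have c1 := congrArg (ν * ·) (rha_cramer p r q s p)
  have c2 := congrArg (ν * ·) (rha_cramer p r q s q)
  have b1 := rha_H p r q
  have b2 := rha_H q s p
  simp only [mul_add ν, ← mul_assoc ν, hs, ch_comm q p, mul_one] at c1 c2
  rw [← hq (hD _ _ _)] at b1 b2
  rw [ch_comm q p] at b2
  have e1 : ch r p + ch r q = 1 + ch p q - kS p r q := by
    simp only [kS, ch_comm r p, ch_comm r q]; ring
  have e2 : ch s p + ch s q = 1 + ch p q - kS q s p := by
    simp only [kS, ch_comm s p, ch_comm s q, ch_comm q p]; ring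
  have l0 := one_le_ch p q
  have l1 := one_le_ch s p
  have l2 := one_le_ch s q
  have l3 := one_le_ch r p
  have l4 := one_le_ch r q
  generalize ν * hD p r q = D1, ν * hD q s p = D2, ν * hD r q s = E1, ν * hD s p r = E2,
    ch p q = C, kS p r q = k, kS q s p = k', hH p r q = H, hH q s p = H' at *
  have hE : D1 + D2 ≤ E1 + E2 := by
    rcases lt_or_ge 0 E1 with a | a
    · rcases lt_or_ge 0 E2 with b | b
      · exact hm a b
      · linarith only [mul_nonneg h1.le (sub_nonneg.2 l1), mul_nonneg h2.le (sub_nonneg.2 l3), mul_nonneg (neg_nonneg.2 b) (sub_nonneg.2 l0), c1]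
    · linarith only [mul_nonneg h1.le (sub_nonneg.2 l2), mul_nonneg h2.le (sub_nonneg.2 l4), mul_nonneg (neg_nonneg.2 a) (sub_nonneg.2 l0), c2]
  have e3 : (E1 + E2 - D1 - D2) * (1 + C) = -(k' * D1 + k * D2) := by
    linear_combination -c1 - c2 + D1 * e2 + D2 * e1
  have e4 : k * D2 ≤ -k' * D1 := by
    have := mul_nonneg (show 0 ≤ E1 + E2 - D1 - D2 by linarith only [hE]) (show 0 ≤ 1 + C by linarith only [l3, l4, hk, e1])
    linarith only [e3, this]
  have e5 := mul_pos hk h2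
  have e6 : 0 < -k' := (pos_iff_pos_of_mul_pos (e5.trans_le e4)).2 h1
  refine ⟨?_, by linarith only [e6]⟩
  have e7 : D1 ^ 2 < 2 * k ^ 2 * (C - 1) := by
    have := mul_neg_of_pos_of_neg (show 0 < 8 * (1 + C) by linarith only [l3, l4, hk, e1]) hb
    linarith only [b1, this]
  have e8 : (k * D2) ^ 2 ≤ (-k' * D1) ^ 2 := pow_le_pow_left₀ e5.le e4 2
  have e9 : k ^ 2 * D2 ^ 2 < k ^ 2 * (2 * k' ^ 2 * (C - 1)) := by
    have := mul_lt_mul_of_pos_left e7 (pow_pos e6 2)
    linarith only [e8, this]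
  have e10 := lt_of_mul_lt_mul_left e9 (sq_nonneg k)
  exact neg_of_mul_neg_right (show 8 * (1 + C) * H' < 0 by linarith only [b2, e10]) (by linarith only [l3, l4, hk, e1])

end Pool.Agent.MP_596265_gt

namespace Pool.Agent.MP_596265_gt

open Real UpperHalfPlane Filter Topology

variable {g : ℕ}

theorem rhb_ch (p q : ℍ) : ch p q =
    ((p.re - q.re) ^ 2 + p.im ^ 2 + q.im ^ 2) / (2 * p.im * q.im) := by
  rw [ch, cosh_dist_Φ]
  simp only [Φ]
  ring

theorem rhb_arg {x y : ℝ} (hx : 0 < x) : Complex.arg ⟨x, y⟩ = arctan (y / x) := by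
  have h1 : |Complex.arg ⟨x, y⟩| < π / 2 := Complex.abs_arg_lt_pi_div_two_iff.2 (Or.inl hx)
  rw [← arctan_tan (abs_lt.1 h1).1 (abs_lt.1 h1).2, Complex.tan_arg]

theorem rhb_sum {a b c d x y z t l : ℝ} (ha : 0 < a) (hb : 0 < b) (hc : 0 < c) (hd : 0 < d)
    (hl : 0 < l) (h1 : a * b * c - a * y * z - x * b * z - x * y * c = l * d)
    (h2 : x * b * c + a * y * c + a * b * z - x * y * z = l * t) :
    arctan (x / a) + arctan (y / b) + arctan (z / c) = arctan (t / d) := by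
  have n : ∀ {u v : ℝ}, 0 < u → (⟨u, v⟩ : ℂ) ≠ 0 := fun h e => h.ne' (congrArg Complex.re e)
  have e : (⟨a, x⟩ : ℂ) * ⟨b, y⟩ * ⟨c, z⟩ = (l : ℂ) * ⟨d, t⟩ := by
    apply Complex.ext <;> simp <;> linarith only [h1, h2]
  have k := congrArg (fun w => (Complex.arg w : Real.Angle)) e
  simp only [Complex.arg_real_mul _ hl] at k
  rw [Complex.arg_mul_coe_angle (mul_ne_zero (n ha) (n hb)) (n hc),
    Complex.arg_mul_coe_angle (n ha) (n hb), rhb_arg ha, rhb_arg hb, rhb_arg hc, rhb_arg hd,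
    ← Real.Angle.coe_add, ← Real.Angle.coe_add, Real.Angle.angle_eq_iff_two_pi_dvd_sub] at k
  obtain ⟨k, hk⟩ := k
  have b1 := fun u => arctan_lt_pi_div_two u
  have b2 := fun u => neg_pi_div_two_lt_arctan u
  have k1 : (k : ℝ) < 1 := by
    nlinarith only [b1 (x / a), b1 (y / b), b1 (z / c), b2 (t / d), pi_pos, hk]
  have k2 : (-1 : ℝ) < k := by
    nlinarith only [b2 (x / a), b2 (y / b), b2 (z / c), b1 (t / d), pi_pos, hk]
  obtain rfl : k = 0 := by
    have : k < 1 := by exact_mod_cast k1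
    have : -1 < k := by exact_mod_cast k2
    omega
  simp at hk
  linarith only [hk]

theorem rhb_one (p q : ℍ) : 1 ≤ ch p q := one_le_cosh _

theorem tarea_eq (p r q : ℍ) :
    tarea p r q = 2 * arctan (hD p r q / 2 / (1 + ch p q + ch q r + ch p r)) := by
  have hp := p.im_pos
  have hq := q.im_pos
  have hr := r.im_pos
  rw [tarea, har_eq, har_eq, har_eq, ← mul_add, ← mul_add,
    rhb_sum (d := 1 + ch p q + ch q r + ch p r) (t := hD p r q / 2) (l := 2 * (p.im * q.im * r.im))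
      (by positivity) (by positivity) (by positivity)
      (by linarith [rhb_one p q, rhb_one q r, rhb_one p r]) (by positivity)]
  · rw [rhb_ch, rhb_ch, rhb_ch]
    field_simp
    ring
  · simp only [hD, hdet, det3, Φ]
    field_simp
    ring

theorem rhb_nu {ν : ℝ} (hν : ν = 1 ∨ ν = -1) (p r q : ℍ) : ν * tarea p r q =
    2 * arctan (ν * hD p r q / 2 / (1 + ch p q + ch q r + ch p r)) := by
  rw [tarea_eq]
  rcases hν with rfl | rfl
  · simp
  · rw [neg_one_mul, neg_one_mul, neg_div, neg_div, arctan_neg, mul_neg]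

theorem tarea_nonneg {ν : ℝ} (hν : ν = 1 ∨ ν = -1) {p r q : ℍ} (h : 0 < ν * hdet p r q) :
    0 ≤ ν * tarea p r q := by
  rw [rhb_nu hν]
  have h1 := hD_pos.2 h
  have h2 : 0 < 1 + ch p q + ch q r + ch p r := by
    linarith [rhb_one p q, rhb_one q r, rhb_one p r]
  have := arctan_nonneg.2 (div_pos (half_pos h1) h2).le
  linarith only [this]

theorem rhb_core {t u v w : ℝ} (ht : 0 ≤ t) (hu : 1 + 25 * t ≤ u) (h1 : u ≤ v) (h2 : v ≤ w)
    (H : 0 ≤ 2 * (u * v + v * w + w * u) - u ^ 2 - v ^ 2 - w ^ 2) :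
    t * (2 + u + v + w) ^ 2 ≤ 4 * (u * v * w) := by
  have h3 : w ≤ 4 * v := by
    by_contra h
    nlinarith only [ht, hu, h1, H, h]
  have h4 : (2 + u + v + w) ^ 2 ≤ (5 * w) ^ 2 := pow_le_pow_left₀ (by linarith) (by linarith) 2
  have h5 : 0 ≤ u * w := mul_nonneg (by linarith) (by linarith)
  calc t * (2 + u + v + w) ^ 2 ≤ t * (5 * w) ^ 2 := mul_le_mul_of_nonneg_left h4 ht
    _ = 25 * t * w ^ 2 := by ring
    _ ≤ u * w ^ 2 := mul_le_mul_of_nonneg_right (by linarith) (sq_nonneg w)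
    _ = u * w * w := by ring
    _ ≤ u * w * (4 * v) := mul_le_mul_of_nonneg_left h3 h5
    _ = _ := by ring

theorem rhb_sym {t u v w : ℝ} (ht : 0 ≤ t) (hu : 1 + 25 * t ≤ u) (hv : 1 + 25 * t ≤ v)
    (hw : 1 + 25 * t ≤ w) (H : 0 ≤ 2 * (u * v + v * w + w * u) - u ^ 2 - v ^ 2 - w ^ 2) :
    t * (2 + u + v + w) ^ 2 ≤ 4 * (u * v * w) := by
  rcases le_total u v with a | a <;> rcases le_total v w with b | b <;>
    rcases le_total u w with c | c
  · exact rhb_core ht hu a b H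
  · exact rhb_core ht hu a b H
  · linarith [rhb_core ht hu c b (by linarith)]
  · linarith [rhb_core ht hw c a (by linarith)]
  · linarith [rhb_core ht hv a c (by linarith)]
  · linarith [rhb_core ht hv b c (by linarith)]
  · linarith [rhb_core ht hw b a (by linarith)]
  · linarith [rhb_core ht hw b a (by linarith)]

theorem tarea_fat {ν τ : ℝ} (hν : ν = 1 ∨ ν = -1) (hτ : 0 < τ) {p r q : ℍ}
    (h : 0 < ν * hdet p r q) (hH0 : 0 ≤ hH p r q) (h1 : 3 + 50 * τ ^ 2 ≤ ch p q)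
    (h2 : 3 + 50 * τ ^ 2 ≤ ch q r) (h3 : 3 + 50 * τ ^ 2 ≤ ch p r) :
    2 * arctan τ ≤ ν * tarea p r q := by
  rw [rhb_nu hν]
  have d1 := hD_pos.2 h
  have d2 : 0 < 1 + ch p q + ch q r + ch p r := by
    linarith [rhb_one p q, rhb_one q r, rhb_one p r]
  have d3 := hD_sq p r q
  rw [ch_comm r q] at d3
  rw [hH, kS] at hH0
  have d4 := rhb_sym (t := τ ^ 2) (u := (ch q r - 1) / 2) (v := (ch p r - 1) / 2)
    (w := (ch p q - 1) / 2) (sq_nonneg τ) (by linarith only [h2]) (by linarith only [h3]) (by linarith only [h1])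
    (by linarith)
  have d5 : (ν * hD p r q / 2) ^ 2 = hD p r q ^ 2 / 4 := by
    rcases hν with rfl | rfl <;> ring
  have d6 : τ * (1 + ch p q + ch q r + ch p r) ≤ ν * hD p r q / 2 := by
    refine abs_le_of_sq_le_sq' ?_ (half_pos d1).le |>.2
    rw [d5, d3]
    linarith
  have := arctan_mono ((le_div_iff₀ d2).2 d6)
  linarith only [this]

end Pool.Agent.MP_596265_gt

namespace Pool.Agent.MP_596265_gt

open Real UpperHalfPlane Filter Topology

variable {g : ℕ}

section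

variable {n : ℕ} {V : ℕ → ℍ} {ν : ℝ}

end

end Pool.Agent.MP_596265_gt

namespace Pool.Agent.MP_596265_gt

open Real UpperHalfPlane Filter Topology

variable {g : ℕ}

end Pool.Agent.MP_596265_gt

namespace Pool.Agent.MP_596265_gt

open Real UpperHalfPlane Filter Topology

variable {g : ℕ}

end Pool.Agent.MP_596265_gt
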