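import Pool.Agent.MP_596265_gt.E4
import Pool.Agent.MP_596265_gt.F1

/-! Ergodicity from the almost everywhere existence of an elliptic simple curve. -/

namespace Pool.Agent.MP_596265_gt.Erg

open Real Filter Topology MeasureTheory Set

variable {g : ℕ} {e : ℤ}

/-- Some simple closed curve is elliptic. -/
def HasEll (M : Tup g) : Prop :=
  ∃ ψ, AutR ψ ∧ ((∃ k, ell (ha (act ψ M) k)) ∨ ∃ h, 0 < h ∧ h < g ∧ ell (pre (act ψ M) h))

theorem ge_uu [NeZero g] (hg : 3 ≤ g) (hB : ∀ᵐ M ∂mu g e, HasEll M) {S : Set (Tup g)}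
    (hS : Inv e S) : ∀ᵐ M ∂mu g e, ∃ Γ, St e S Γ M ∧ Γ M ∈ UU g e := by
  have g1 : 1 ≤ g := by omega
  filter_upwards [ae_X e, gn_ae hg e, ye_gn_sep hg e, hB] with M hM hG hsep hE
  by_cases hn : ∃ ψ k, AutR ψ ∧ ell (ha (act ψ M) k)
  · obtain ⟨ψ, k, hψ, hk⟩ := hn
    obtain ⟨ψ', hψ', h0⟩ := ell_front hk
    exact ⟨fun N => act ψ' (act ψ N), Step.comp (st_act g1 hS hψ' _) (st_act g1 hS hψ M),
      gn_uu hg ((hG.act hψ).act hψ') (X_act hψ' (X_act hψ hM)) h0⟩
  · obtain ⟨ψ, hψ, ⟨k, hk⟩ | ⟨h, h0, h1, he⟩⟩ := hE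
    · exact absurd ⟨ψ, k, hψ, hk⟩ hn
    obtain ⟨t, ψ', hψ', hk⟩ := sep_ell hg (hG.act hψ) (fun ψ' hψ' k hk =>
      hn ⟨ψ'.trans ψ, k, hψ'.trans hψ, by rwa [act_trans]⟩) h0 h1 he
    refine ⟨fun N => act ψ' (sepf h t (act ψ N)), Step.comp (st_act g1 hS hψ' _)
      (Step.comp (step_sepf hg hS h0 h1 t he).st (st_act g1 hS hψ M)),
      gn_uu hg ((hsep ψ h t hψ h1 he).act hψ') (X_act hψ' (X_sepf h1.le _ (X_act hψ hM))) hk⟩

/-- A generic tuple without elliptic simple curve is totally hyperbolic in the sense of B1-B5,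
with the lifts and the Euler number that `core_bound` asks for. -/
theorem ge_th (hg : 3 ≤ g) {M : Tup g} (hM : M ∈ X g e) (hG : Gn M) (hc : ¬ HasEll M) :
    TH (FreeGroup.lift M) ∧ ∃ F : Fr g →* (ℝ ≃o ℝ), (∀ u, Lift (FreeGroup.lift M u) (F u)) ∧
      F (relPre g g) = T e := by
  unfold HasEll at hc
  push Not at hc
  have hp : pj.comp (FreeGroup.lift fun z => lf (M z)) = FreeGroup.lift M := by
    ext x : 1
    simp [pj_lf]
  refine ⟨fun ψ hψ => ?_, ap.comp (FreeGroup.lift fun z => lf (M z)), fun u => ?_, ?_⟩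
  · obtain ⟨h1, h2⟩ := hc ψ hψ
    refine ⟨fun k => not_lt.1 (h1 k), fun h a b => ?_, fun c => ?_⟩
    · rw [← lift_act, ← pre_eq]
      exact not_lt.1 (h2 h a b)
    · rw [← lift_act, ← pre_eq] at c
      exact (hG ψ hψ).2 1 one_pos (by omega) (by rw [c]; norm_num)
  · rw [← hp]
    exact (liftP _).lift
  · have : Rt M g = zt e := hM
    rw [MonoidHom.comp_apply, ← pre_eq]
    exact congrArg ap this

end Pool.Agent.MP_596265_gt.Erg

/-! Two further generic conditions. -/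

namespace Pool.Agent.MP_596265_gt

namespace Erg

open Real Filter Topology MeasureTheory Set

variable {g : ℕ} {e : ℤ}

/-- A smooth matrix function with its derivative in one direction. -/
def Dv (U : Amb g → Mat) (m v : Amb g) (V : Mat) : Prop :=
  ∀ i j, ContDiff ℝ 1 (fun n => U n i j) ∧ fderiv ℝ (fun n => U n i j) m v = V i j

section
variable {U U' : Amb g → Mat} {m v : Amb g} {V V' : Mat}

theorem Dv.mul (h : Dv U m v V) (h' : Dv U' m v V') :
    Dv (fun n => U n * U' n) m v (V * U' m + U m * V') := by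
  intro i j
  have d := fun a b => ((h a b).1.differentiable one_ne_zero m).hasFDerivAt
  have d' := fun a b => ((h' a b).1.differentiable one_ne_zero m).hasFDerivAt
  simp only [Matrix.mul_apply, Matrix.add_apply, Fin.sum_univ_two]
  refine ⟨((h i 0).1.mul (h' 0 j).1).add ((h i 1).1.mul (h' 1 j).1), ?_⟩
  have := (((d i 0).fun_mul (d' 0 j)).fun_add ((d i 1).fun_mul (d' 1 j))).fderiv
  rw [this]
  simp only [_root_.add_apply, _root_.smul_apply, smul_eq_mul,
    (h _ _).2, (h' _ _).2]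
  ring

end

theorem dv_gen (M : Tup g) (α : Gen g → Mat) (x : Gen g) :
    Dv (fun n => Matrix.of (n x)) (io M) (tv M α) ((M x : Mat) * α x) := fun i j =>
  ⟨(xz_co x i j).contDiff, by
    have : (fun n : Amb g => Matrix.of (n x) i j) = xz_co x i j := rfl
    rw [this, ContinuousLinearMap.fderiv]; rfl⟩

end Erg

end Pool.Agent.MP_596265_gt

namespace Pool.Agent.MP_596265_gt.Erg

open MeasureTheory

end Pool.Agent.MP_596265_gt.Erg
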